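import Pool.Agent.MSTLim.Idx

/-!
# The two lattice patterns

`PW ω a b` (weak pattern `P` in the annulus `a < nrm < b`): a tree path which is outside `b` at
`t0 < t1 < t2 < t3`, inside `a` at `m1` (between `t0` and `t1`) and at `m3` (between `t2` and
`t3`), such that the part between `t1` and `t2` separates `f m1` from `f m3` in the ball of radius
`b`.

`PS e ω a b` (strong pattern `P'` with margin `e` in the annulus `a < nrm < b`): a tree path
`f w0, …, f w3` with three outward excursions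
`A' = f[w0, w1]`, `C' = f[w1, w2]`, `B' = f[w2, w3]`;
* `f w0, f w3` are in the ball of radius `a`; `f w1, f w2` are in the ball `D` of radius
  `8 a / 5` (there may be many visits of `D` between `w1` and `w2`);
* `A'` and `B'` reach the outside of the ball of radius `b` (at `u1`, `u3`);
* `f al` and `f be` are points of `A'` and `B'` such that `f[al, u1]` and `f[u3, be]` are outside
  the ball of radius `2 a` (`al = u1` and `be = u3` are allowed); they are in the ball of radius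
  `b / e` and have distance at least `e b` from `C'`;
* the index of `C'`, closed up by a curve in `D`, at `f al` and at `f be` is different: the sum of
  the increments of the argument of `z - f al` minus that of `z - f be` along `C'` is not the one
  along a curve in `D` (`ar`, `th`: file `AngB.lean`).

File `PatS.lean`: the separation form of the strong pattern.
-/

namespace Pool.Agent.MSTLim

open Pool.Agent.TriPerc (V Adj Lab Conn nrm)

/-- The weak pattern `P`. -/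
def PW (ω : Lab) (a b : ℝ) : Prop :=
  ∃ (f : ℕ → V) (n t0 m1 t1 t2 m3 t3 : ℕ), TreePath ω f n ∧
    t0 < m1 ∧ m1 < t1 ∧ t1 < t2 ∧ t2 < m3 ∧ m3 < t3 ∧ t3 ≤ n ∧
    b < nrm (f t0) ∧ b < nrm (f t1) ∧ b < nrm (f t2) ∧ b < nrm (f t3) ∧
    nrm (f m1) < a ∧ nrm (f m3) < a ∧
    ¬ Conn {z | (nrm z : ℝ) ≤ b ∧ ∀ k, t1 ≤ k → k ≤ t2 → z ≠ f k} (f m1) (f m3)

/-- The strong pattern `P'` with margin `e`. -/
def PS (e : ℝ) (ω : Lab) (a b : ℝ) : Prop :=
  ∃ (f : ℕ → V) (n w0 al u1 w1 w2 u3 be w3 : ℕ), TreePath ω f n ∧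
    w0 ≤ al ∧ al ≤ u1 ∧ u1 < w1 ∧ w1 < w2 ∧ w2 < u3 ∧ u3 ≤ be ∧ be ≤ w3 ∧ w3 ≤ n ∧
    nrm (f w0) ≤ a ∧ nrm (f w3) ≤ a ∧ nrm (f w1) ≤ 8 / 5 * a ∧ nrm (f w2) ≤ 8 / 5 * a ∧
    b ≤ nrm (f u1) ∧ b ≤ nrm (f u3) ∧ nrm (f al) ≤ b / e ∧ nrm (f be) ≤ b / e ∧
    (∀ k, al ≤ k → k ≤ u1 → 2 * a < nrm (f k)) ∧
    (∀ k, u3 ≤ k → k ≤ be → 2 * a < nrm (f k)) ∧
    (∀ k, w1 ≤ k → k ≤ w2 → e * b ≤ nrm (f k - f al) ∧ e * b ≤ nrm (f k - f be)) ∧
    ∑ k ∈ Finset.Ico w1 w2, (ar (f al) (f k) (f (k + 1)) - ar (f be) (f k) (f (k + 1))) ≠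
      (th (f al) (f w2) - th (f be) (f w2)) - (th (f al) (f w1) - th (f be) (f w1))

end Pool.Agent.MSTLim
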