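import Pool.Agent.MSTLim.Defs
import Pool.Agent.TriPerc.Ann

/-!
# The embedding of the triangular lattice: norms, discs, exteriors of discs

The vertex `(a, b)` of `V = ℤ × ℤ` is the complex number `emb (a, b) = a + b * zt`,
`zt = exp (i pi / 3) = 1/2 + i sqrt 3 / 2` (`emb_eq`).

* `zt_sq`: `zt ^ 2 = zt - 1`; `arg_zt`: `zt = cos (pi/3) + i sin (pi/3)`
  (`Complex.arg_cos_add_sin_mul_I`).
* `emb_rot`: `rot (x, y) = (-y, x + y)` (file `TriPerc/Defs.lean`), so `emb (rot v) = zt * emb v`.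
* `emb_fr`: `fr a k v = (rot ^ k) (v - a)` (file `TriPerc/Ann.lean`), induction on `k`.
* `re_row`: `(w * (-I)).re = w.im`, `(emb w).im = sqrt 3 / 2 * w.2`, applied to `w = fr a k v`.
* `row_pos`: consequence.
* `emb_le_nrm`: `‖emb v‖² = v.1² + v.1 v.2 + v.2² ≤ (nrm v)²` by cases on signs
  (`nrm v = max (max |v.1| |v.2|) |v.1 + v.2|`; the three numbers `v.1, v.2, -(v.1+v.2)` have sum
  `0`, so two of them have the same sign; the form is symmetric in the three numbers).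
* `nrm_le_emb`: `nrm v` is one of the rows (`nrm_rows` with `z = 0`); by `re_row` the row times
  `sqrt 3 / 2` is a real part of `emb v` times a number of modulus `1`.
* `isConn_disc`: `{z | ‖emb z‖ ≤ r}` is connected.  PROOF: let `q (x, y) = x² + x y + y²`
  (the square of the norm, an integer).  Every `z ≠ 0` has a neighbour `z'` with `q z' < q z`:
  moving by `-(1,0), -(0,1), -(-1,1)` or their negatives changes `q` by
  `1 - (2x+y), 1 - (x+2y), 1 - (y-x)` or `1 + (…)`, and one of `|2x+y|, |x+2y|, |y-x|` is at least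
  `2`.  By strong induction on `q z` every `z` of the disc is joined to `0` in the disc (if the
  disc is not empty then `0 ≤ r`, so `0` belongs to it).
* `isConn_ext`: `{z | R ≤ ‖emb z‖}` is connected.  PROOF: choose an integer `m ≥ 0` with
  `R ≤ √3/2 * m`; the set `{z | m < nrm z}` is contained in our set (`nrm_le_emb`) and connected
  (`isConn_out 0 m`, with `z - 0 = z`).  Every `z` of our set is joined inside it to a vertex with
  `m < nrm`: some direction `d` among `(1,0), (0,1), (-1,1)` and their negatives satisfies: adding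
  `d` to `z + n d` never decreases `q` for `n ≥ 0` (for `d = (1,0)` the change is `2x+y+1+2n`, so
  take `d` with `2x+y ≥ 0`, or its negative if `2x+y ≤ 0`); and `nrm (z + n d) → ∞`
  (`nrm (z + n d) ≥ n - nrm z`).
* `finite_disc`: contained in a ball (`nrm_le_emb`, `finite_ball`).
* `nrm_le_of_emb`: `nrm z ≤ m` if `‖emb z‖ ≤ √3/2 * m`.
-/

namespace Pool.Agent.MSTLim

open Pool.Agent.TriPerc

/-- The sixth root of unity `exp (i pi / 3)`. -/
noncomputable def zt : ℂ := ⟨1 / 2, Real.sqrt 3 / 2⟩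

variable {a u v w x y : V} {k : ℕ} {r R : ℝ}

private theorem s3 : Real.sqrt 3 * Real.sqrt 3 = 3 := Real.mul_self_sqrt (by norm_num)

private theorem s3_pos : 0 < Real.sqrt 3 := Real.sqrt_pos.2 (by norm_num)

theorem zt_sq : zt ^ 2 = zt - 1 := by
  rw [pow_two]
  apply Complex.ext
  · simp only [zt, Complex.mul_re, Complex.sub_re, Complex.one_re]
    linarith [s3]
  · simp only [zt, Complex.mul_im, Complex.sub_im, Complex.one_im]
    ring

theorem norm_zt : ‖zt‖ = 1 := by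
  have h : ‖zt‖ ^ 2 = 1 := by
    rw [Complex.sq_norm, Complex.normSq_apply]
    simp only [zt]
    linarith [s3]
  exact (pow_eq_one_iff_of_nonneg (norm_nonneg _) (by norm_num)).1 h

theorem arg_zt : Complex.arg zt = Real.pi / 3 := by
  have h : zt = Complex.cos ((Real.pi / 3 : ℝ) : ℂ) +
      Complex.sin ((Real.pi / 3 : ℝ) : ℂ) * Complex.I := by
    rw [← Complex.ofReal_cos, ← Complex.ofReal_sin, Real.cos_pi_div_three,
      Real.sin_pi_div_three]
    apply Complex.ext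
    · simp [zt]
    · simp [zt]
  rw [h]
  apply Complex.arg_cos_add_sin_mul_I
  constructor
  · linarith [Real.pi_pos]
  · linarith [Real.pi_pos]

theorem emb_eq (v : V) : emb v = (v.1 : ℂ) + (v.2 : ℂ) * zt := by
  apply Complex.ext
  · simp [emb, zt]
    ring
  · simp [emb, zt]
    ring

theorem emb_sub (u v : V) : emb (u - v) = emb u - emb v := by
  rw [emb_eq, emb_eq, emb_eq, Prod.fst_sub, Prod.snd_sub]
  push_cast
  ring

theorem emb_inj : emb u = emb v ↔ u = v := by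
  constructor
  · intro h
    have h2 : Real.sqrt 3 / 2 * (u.2 : ℝ) = Real.sqrt 3 / 2 * v.2 := congrArg Complex.im h
    have h1 : (u.1 : ℝ) + u.2 / 2 = v.1 + v.2 / 2 := congrArg Complex.re h
    have h3 : (u.2 : ℝ) = v.2 := mul_left_cancel₀ (by have := s3_pos; positivity) h2
    rw [h3] at h1
    have h4 : (u.1 : ℝ) = v.1 := by linarith
    exact Prod.ext (by exact_mod_cast h4) (by exact_mod_cast h3)
  · rintro rfl
    rfl

theorem emb_zero : emb 0 = 0 := by
  rw [emb_eq]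
  simp

theorem emb_rot (v : V) : emb (rot v) = zt * emb v := by
  have h : rot v = (-v.2, v.1 + v.2) := rfl
  rw [h, emb_eq, emb_eq]
  push_cast
  linear_combination -(v.2 : ℂ) * zt_sq

theorem emb_fr (a v : V) (k : ℕ) : emb (fr a k v) = zt ^ k * (emb v - emb a) := by
  induction k with
  | zero =>
    have h : fr a 0 v = v - a := by
      rw [sub_eq_add_neg]
      rfl
    rw [h, emb_sub, pow_zero, one_mul]
  | succ k ih =>
    have h : fr a (k + 1) v = rot (fr a k v) := by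
      unfold fr
      rw [pow_succ']
      rfl
    rw [h, emb_rot, ih, pow_succ']
    ring

theorem re_row (a v : V) (k : ℕ) :
    ((emb v - emb a) * (-Complex.I * zt ^ k)).re = Real.sqrt 3 / 2 * ((fr a k v).2 : ℝ) := by
  have h : (emb v - emb a) * (-Complex.I * zt ^ k) = -Complex.I * emb (fr a k v) := by
    rw [emb_fr]
    ring
  rw [h]
  simp [emb]

theorem row_pos (h : 0 < (fr a k v).2) : 0 < ((emb v - emb a) * (-Complex.I * zt ^ k)).re := by
  rw [re_row]
  have h1 : (0 : ℝ) < ((fr a k v).2 : ℝ) := by exact_mod_cast h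
  have := s3_pos
  positivity

theorem normSq_emb (v : V) : ‖emb v‖ ^ 2 = (v.1 : ℝ) ^ 2 + v.1 * v.2 + (v.2 : ℝ) ^ 2 := by
  rw [Complex.sq_norm, Complex.normSq_apply]
  simp only [emb]
  linear_combination ((v.2 : ℝ) ^ 2 / 4) * s3

private theorem normSq_emb' (v : V) :
    ‖emb v‖ ^ 2 = ((v.1 ^ 2 + v.1 * v.2 + v.2 ^ 2 : ℤ) : ℝ) := by
  rw [normSq_emb]
  push_cast
  ring

theorem norm_emb_adj (h : Adj u v) : ‖emb v - emb u‖ = 1 := by
  have h2 : ‖emb v - emb u‖ ^ 2 = 1 := by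
    rw [← emb_sub, normSq_emb', Prod.fst_sub, Prod.snd_sub]
    unfold Adj at h
    rcases h with ⟨h1, h2⟩ | ⟨h1, h2⟩ | ⟨h1, h2⟩ | ⟨h1, h2⟩ | ⟨h1, h2⟩ | ⟨h1, h2⟩ <;>
      rw [h1, h2] <;> push_cast <;> ring
  exact (pow_eq_one_iff_of_nonneg (norm_nonneg _) (by norm_num)).1 h2

private theorem nrm_le_iff' {n : ℤ} :
    nrm u ≤ n ↔ |u.1| ≤ n ∧ |u.2| ≤ n ∧ |u.1 + u.2| ≤ n := by
  unfold nrm
  rw [max_le_iff, max_le_iff, and_assoc]

private theorem q_le {x y m : ℤ} (h1 : |x| ≤ m) (h2 : |y| ≤ m) (h3 : |x + y| ≤ m) :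
    x ^ 2 + x * y + y ^ 2 ≤ m ^ 2 := by
  have hm : 0 ≤ m := (abs_nonneg x).trans h1
  have k1 : x ^ 2 ≤ m ^ 2 := sq_le_sq' (abs_le.1 h1).1 (abs_le.1 h1).2
  have k2 : y ^ 2 ≤ m ^ 2 := sq_le_sq' (abs_le.1 h2).1 (abs_le.1 h2).2
  have k3 : (x + y) ^ 2 ≤ m ^ 2 := sq_le_sq' (abs_le.1 h3).1 (abs_le.1 h3).2
  rcases le_total 0 (x * y) with h | h
  · nlinarith
  · rcases lt_or_ge 0 (y * (x + y)) with h' | h'
    · have h4 : x * (x + y) ≤ 0 := by
        by_contra hc
        push Not at hc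
        have h5 := mul_pos hc h'
        have h6 : x * (x + y) * (y * (x + y)) = x * y * (x + y) ^ 2 := by ring
        rw [h6] at h5
        exact absurd h5 (not_lt.2 (mul_nonpos_of_nonpos_of_nonneg h (sq_nonneg _)))
      nlinarith
    · nlinarith

theorem emb_le_nrm (v : V) : ‖emb v‖ ≤ (nrm v : ℝ) := by
  obtain ⟨h1, h2, h3⟩ := nrm_le_iff'.1 (le_refl (nrm v))
  have h4 := q_le h1 h2 h3
  have h5 : (0 : ℝ) ≤ (nrm v : ℝ) := by exact_mod_cast nrm_nonneg v
  refine le_of_sq_le_sq ?_ h5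
  rw [normSq_emb']
  exact_mod_cast h4

theorem nrm_le_emb (v : V) : Real.sqrt 3 / 2 * (nrm v : ℝ) ≤ ‖emb v‖ := by
  obtain ⟨k, -, hk⟩ := nrm_rows 0 v
  rw [sub_zero] at hk
  have h1 := re_row 0 v k
  rw [hk, emb_zero, sub_zero] at h1
  rw [← h1]
  refine (Complex.re_le_norm _).trans ?_
  rw [norm_mul, norm_mul, norm_neg, Complex.norm_I, norm_pow, norm_zt, one_pow, mul_one, mul_one]

theorem nrm_le_of_emb {m : ℤ} (h : ‖emb v‖ ≤ Real.sqrt 3 / 2 * (m : ℝ)) : nrm v ≤ m := by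
  have h1 := (nrm_le_emb v).trans h
  have h2 : (0 : ℝ) < Real.sqrt 3 / 2 := by
    have := s3_pos
    positivity
  have h3 : (nrm v : ℝ) ≤ m := le_of_mul_le_mul_left h1 h2
  exact_mod_cast h3

private theorem exists_m (r : ℝ) : ∃ m : ℤ, r ≤ Real.sqrt 3 / 2 * (m : ℝ) := by
  have h2 : (0 : ℝ) < Real.sqrt 3 / 2 := by
    have := s3_pos
    positivity
  refine ⟨⌈r / (Real.sqrt 3 / 2)⌉, ?_⟩
  rw [← div_le_iff₀' h2]
  exact Int.le_ceil _

private theorem desc {z : V} (hz : z ≠ 0) : ∃ z' : V, Adj z z' ∧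
    z'.1 ^ 2 + z'.1 * z'.2 + z'.2 ^ 2 < z.1 ^ 2 + z.1 * z.2 + z.2 ^ 2 := by
  obtain ⟨x, y⟩ := z
  have hne : ¬ (x = 0 ∧ y = 0) := fun h => hz (Prod.ext h.1 h.2)
  by_cases h1 : 2 ≤ 2 * x + y
  · refine ⟨(x - 1, y), by unfold Adj; simp, ?_⟩
    simp only
    nlinarith
  by_cases h2 : 2 * x + y ≤ -2
  · refine ⟨(x + 1, y), by unfold Adj; simp, ?_⟩
    simp only
    nlinarith
  by_cases h3 : 2 ≤ x + 2 * y
  · refine ⟨(x, y - 1), by unfold Adj; simp, ?_⟩
    simp only
    nlinarith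
  by_cases h4 : x + 2 * y ≤ -2
  · refine ⟨(x, y + 1), by unfold Adj; simp, ?_⟩
    simp only
    nlinarith
  by_cases h5 : 2 ≤ y - x
  · refine ⟨(x + 1, y - 1), by unfold Adj; simp, ?_⟩
    simp only
    nlinarith
  by_cases h6 : y - x ≤ -2
  · refine ⟨(x - 1, y + 1), by unfold Adj; simp, ?_⟩
    simp only
    nlinarith
  exact absurd (by omega) hne

theorem isConn_disc (r : ℝ) : IsConn {z : V | ‖emb z‖ ≤ r} := by
  have key : ∀ n : ℕ, ∀ z : V, ‖emb z‖ ≤ r → (z.1 ^ 2 + z.1 * z.2 + z.2 ^ 2).toNat = n →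
      Conn {z : V | ‖emb z‖ ≤ r} z 0 := by
    intro n
    induction n using Nat.strong_induction_on with
    | _ n ih =>
      intro z hz hn
      by_cases h0 : z = 0
      · subst h0
        exact Conn.refl hz
      · obtain ⟨z', h1, h2⟩ := desc h0
        have h3 : ‖emb z'‖ ^ 2 ≤ ‖emb z‖ ^ 2 := by
          rw [normSq_emb', normSq_emb']
          exact_mod_cast h2.le
        have h4 : ‖emb z'‖ ≤ r := (le_of_sq_le_sq h3 (norm_nonneg _)).trans hz
        have h5 : 0 ≤ z'.1 ^ 2 + z'.1 * z'.2 + z'.2 ^ 2 := by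
          have := sq_nonneg ‖emb z'‖
          rw [normSq_emb'] at this
          exact_mod_cast this
        exact (Conn.of_adj hz h4 h1).trans (ih _ (by omega) z' h4 rfl)
  intro u hu v hv
  exact (key _ u hu rfl).trans (key _ v hv rfl).symm

private theorem far {R : ℝ} {m : ℤ} (z : V) (hz : R ≤ ‖emb z‖) :
    ∃ w : V, m < nrm w ∧ Conn {z : V | R ≤ ‖emb z‖} z w := by
  obtain ⟨s, hs, hs2⟩ : ∃ s : ℤ, (s = 1 ∨ s = -1) ∧ 0 ≤ s * (2 * z.1 + z.2) := by
    rcases le_total 0 (2 * z.1 + z.2) with h | h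
    · exact ⟨1, Or.inl rfl, by omega⟩
    · exact ⟨-1, Or.inr rfl, by omega⟩
  have hss : s * s = 1 := by
    rcases hs with rfl | rfl <;> rfl
  obtain ⟨n, hn⟩ : ∃ n : ℕ, m + |z.1| < n := ⟨(m + |z.1| + 1).toNat, by omega⟩
  have hw := Conn.of_walk (S := {z : V | R ≤ ‖emb z‖}) (n := n)
    (f := fun i : ℕ => ((z.1 + s * i, z.2) : V)) (fun i _ => ?_) (fun i _ => ?_)
  · refine ⟨(z.1 + s * n, z.2), ?_, ?_⟩
    · have h1 : |z.1 + s * n| ≤ nrm ((z.1 + s * n, z.2) : V) :=
        (nrm_le_iff'.1 (le_refl _)).1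
      have h2 : (n : ℤ) - |z.1| ≤ |z.1 + s * n| := by
        have h3 := le_abs_self z.1
        have h4 := neg_le_abs z.1
        rcases hs with rfl | rfl
        · have h5 := le_abs_self (z.1 + 1 * (n : ℤ))
          omega
        · have h5 := neg_le_abs (z.1 + -1 * (n : ℤ))
          omega
      omega
    · have h1 : ((z.1 + s * ((0 : ℕ) : ℤ), z.2) : V) = z := by
        rw [Nat.cast_zero, mul_zero, add_zero]
      beta_reduce at hw
      rw [h1] at hw
      exact hw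
  · unfold Adj
    push_cast
    rcases hs with rfl | rfl
    · left
      exact ⟨by ring, rfl⟩
    · right; right; right; left
      exact ⟨by ring, rfl⟩
  · refine hz.trans (le_of_sq_le_sq ?_ (norm_nonneg _))
    rw [normSq_emb', normSq_emb']
    have h1 : (z.1 + s * (i : ℤ)) ^ 2 + (z.1 + s * i) * z.2 + z.2 ^ 2 =
        z.1 ^ 2 + z.1 * z.2 + z.2 ^ 2 + (i * (s * (2 * z.1 + z.2)) + s * s * (i * i)) := by ring
    have h2 : 0 ≤ (i : ℤ) * (s * (2 * z.1 + z.2)) := mul_nonneg (by positivity) hs2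
    have h3 : 0 ≤ s * s * ((i : ℤ) * i) := by
      rw [hss]
      positivity
    have h4 : z.1 ^ 2 + z.1 * z.2 + z.2 ^ 2 ≤
        (z.1 + s * (i : ℤ)) ^ 2 + (z.1 + s * i) * z.2 + z.2 ^ 2 := by
      rw [h1]
      linarith
    exact_mod_cast h4

theorem isConn_ext (R : ℝ) : IsConn {z : V | R ≤ ‖emb z‖} := by
  obtain ⟨m, hm⟩ := exists_m R
  have h2 : (0 : ℝ) < Real.sqrt 3 / 2 := by
    have := s3_pos
    positivity
  intro u hu v hv
  obtain ⟨w, hw, h3⟩ := far (m := m) u hu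
  obtain ⟨w', hw', h4⟩ := far (m := m) v hv
  have h5 : Conn {z : V | R ≤ ‖emb z‖} w w' := by
    refine (isConn_out 0 m w (by rwa [Set.mem_ofPred_eq, sub_zero]) w'
      (by rwa [Set.mem_ofPred_eq, sub_zero])).mono fun x hx => ?_
    rw [Set.mem_ofPred_eq, sub_zero] at hx
    have h6 : (m : ℝ) ≤ nrm x := by exact_mod_cast hx.le
    exact hm.trans ((mul_le_mul_of_nonneg_left h6 h2.le).trans (nrm_le_emb x))
  exact h3.trans (h5.trans h4.symm)

theorem finite_disc (r : ℝ) : {z : V | ‖emb z‖ ≤ r}.Finite := by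
  obtain ⟨m, hm⟩ := exists_m r
  refine (finite_ball 0 m).subset fun z hz => ?_
  change nrm (z - 0) ≤ m
  rw [sub_zero]
  exact nrm_le_of_emb (le_trans hz hm)

end Pool.Agent.MSTLim
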