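import Pool.Agent.MSTLim.AngA

/-!
# Angles on the triangular lattice

`ar a u v` is the (principal) angle under which the step from `u` to `v` is seen from `a`;
`ps a a' x` is the angle at `x` between the directions to `a'` and to `a`.

* `arg_half`: if `0 < (U * c).re` and `0 < (W * c).re` then
  `arg (W / U) = arg (W * c) - arg (U * c)`.
  PROOF: `c ≠ 0`, `W / U = (W * c) / (U * c)`; both arguments on the right are in
  `(-pi/2, pi/2)` (`Complex.abs_arg_lt_pi_div_two_iff`), so their difference is in `(-pi, pi)`;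
  use `Complex.arg_mul_eq_add_arg_iff` and `Complex.arg_inv` (or `Complex.arg_div_coe_angle`).
* `ar_half`: `arg_half` with `U = emb u - emb a`, `W = emb v - emb a`.
* `th_ps`: `arg_half` with `U = emb x - emb a'`, `W = emb x - emb a`.
* `ps_self`: the quotient is `1`, or `0 / 0 = 0`, whose argument is `0` as well.
* `ps_add`: three vertices in one half plane as seen from `x` (`th_ps` three times).
* `rows`: the six rows.  With `p = v - a` the values of `(fr a k v).2`, `k = 0, …, 5`, are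
  `p.2, p.1 + p.2, p.1, -p.2, -p.1 - p.2, -p.1` (`rot (x, y) = (-y, x + y)`).
* `pair_half`, `tri_half`, `quad_half`: if `u, v` are adjacent, `a, a'` adjacent and
  `a, a' ∉ {u, v}`, then for some `k < 6` the four rows are positive (checked by computer).
  PROOF: use `rows`; put `p = u - a`; with `v = u + e`, `a' = a + d` the four vectors are
  `p, p + e, p - d, p + e - d`; unfold `Adj`, split into the 36 pairs of directions `(e, d)`, and
  use `omega` (if `omega` is slow: first split the hypotheses `≠` into inequalities; by the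
  symmetry `rot` one may also reduce to one direction `e`).
* `ar_symm`: `ar a v u = - ar a u v` for adjacent `u, v ≠ a` (`pair_half`, `row_pos`, `ar_half`).
* `ar_tri`: for mutually adjacent `u, v, w ≠ a`: `ar a u v + ar a v w + ar a w u = 0`.
* `ar_quad`: for adjacent `u, v`, adjacent `a, a'`, `a, a' ∉ {u, v}`:
  `ar a u v - ar a' u v = ps a a' v - ps a a' u`.
  PROOF: `quad_half`; `ar_half` for `a` and `a'` with the same `c = -I * zt ^ k`; `th_ps` for `u`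
  and for `v`.
* `nb a k`, `k = 0, …, 5`: the neighbours of `a` in counter clockwise order
  `a + (1,0), a + (0,1), a + (-1,1), a + (-1,0), a + (0,-1), a + (1,-1)`.
* `ar_hex`: the sum of `ar a` over the six edges of the hexagon of the neighbours of `a` is
  `2 pi`: each quotient is `zt` (`emb_rot`), so each term is `pi / 3`.
* `far_half`: the number is `‖emb a‖² - Re (emb x * conj (emb a)) > 0` if `‖emb x‖ < ‖emb a‖`.
* `out_half`: the number is `‖emb x‖² - Re (emb a * conj (emb x)) > 0` if `‖emb a‖ < ‖emb x‖`.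
* `in_half`: if `‖emb x‖ < ‖emb a‖` then `0 < ((emb x - emb a) * (-(emb a)⁻¹)).re`: the number is
  `1 - Re (emb x / emb a)`.
-/

namespace Pool.Agent.MSTLim

open Pool.Agent.TriPerc

/-- The angle under which the step from `u` to `v` is seen from `a`. -/
noncomputable def ar (a u v : V) : ℝ := Complex.arg ((emb v - emb a) / (emb u - emb a))

/-- The angle at `x` between the directions to `a'` and to `a`. -/
noncomputable def ps (a a' x : V) : ℝ := Complex.arg ((emb x - emb a) / (emb x - emb a'))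

variable {a a' b u v w x y : V} {k : ℕ} {r R : ℝ}

theorem arg_half {U W c : ℂ} (hU : 0 < (U * c).re) (hW : 0 < (W * c).re) :
    Complex.arg (W / U) = Complex.arg (W * c) - Complex.arg (U * c) := by
  have hc : c ≠ 0 := by
    rintro rfl
    simp at hU
  have hU0 : U ≠ 0 := by
    rintro rfl
    simp at hU
  have hW0 : W ≠ 0 := by
    rintro rfl
    simp at hW
  have hUc : U * c ≠ 0 := mul_ne_zero hU0 hc
  have hWc : W * c ≠ 0 := mul_ne_zero hW0 hc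
  have e : W / U = (W * c) * (U * c)⁻¹ := by
    field_simp
  have b1 := abs_lt.1 (Complex.abs_arg_lt_pi_div_two_iff.2 (Or.inl hU))
  have b2 := abs_lt.1 (Complex.abs_arg_lt_pi_div_two_iff.2 (Or.inl hW))
  have hpi := Real.pi_pos
  have hne : Complex.arg (U * c) ≠ Real.pi := by
    intro h
    rw [h] at b1
    linarith [b1.2]
  have hinv : Complex.arg (U * c)⁻¹ = - Complex.arg (U * c) := by
    rw [Complex.arg_inv, if_neg hne]
  rw [e, (Complex.arg_mul_eq_add_arg_iff hWc (inv_ne_zero hUc)).2, hinv, sub_eq_add_neg]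
  rw [hinv]
  constructor
  · linarith [b1.1, b1.2, b2.1, b2.2]
  · linarith [b1.1, b1.2, b2.1, b2.2]

theorem ar_half {c : ℂ} (hu : 0 < ((emb u - emb a) * c).re)
    (hv : 0 < ((emb v - emb a) * c).re) :
    ar a u v = Complex.arg ((emb v - emb a) * c) - Complex.arg ((emb u - emb a) * c) := by
  exact arg_half hu hv

theorem th_ps {c : ℂ} (h : 0 < ((emb x - emb a) * c).re) (h' : 0 < ((emb x - emb a') * c).re) :
    ps a a' x = Complex.arg ((emb x - emb a) * c) - Complex.arg ((emb x - emb a') * c) := by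
  exact arg_half h' h

theorem ps_self (a x : V) : ps a a x = 0 := by
  unfold ps
  by_cases h : emb x - emb a = 0
  · rw [h, zero_div, Complex.arg_zero]
  · rw [div_self h, Complex.arg_one]

theorem ps_add {c : ℂ} (h : 0 < ((emb x - emb a) * c).re) (h' : 0 < ((emb x - emb a') * c).re)
    (hb : 0 < ((emb x - emb b) * c).re) : ps a b x = ps a a' x + ps a' b x := by
  rw [th_ps h hb, th_ps h h', th_ps h' hb]
  ring

private theorem angB_fr_zero (z v : V) : fr z 0 v = v - z := by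
  rw [sub_eq_add_neg]
  rfl

private theorem angB_fr_succ (z : V) (k : ℕ) (v : V) : fr z (k + 1) v = rot (fr z k v) := by
  change (rot ^ (k + 1)) (v + -z) = rot ((rot ^ k) (v + -z))
  rw [pow_succ']
  rfl

private theorem angB_rot (w : V) : rot w = (-w.2, w.1 + w.2) := rfl

theorem rows (a v : V) : (fr a 0 v).2 = (v.2 - a.2) ∧ (fr a 1 v).2 = (v.1 - a.1) + (v.2 - a.2) ∧
    (fr a 2 v).2 = v.1 - a.1 ∧ (fr a 3 v).2 = -(v.2 - a.2) ∧
    (fr a 4 v).2 = -(v.1 - a.1) - (v.2 - a.2) ∧ (fr a 5 v).2 = -(v.1 - a.1) := by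
  have e0 := angB_fr_zero a v
  have e1 := angB_fr_succ a 0 v
  have e2 := angB_fr_succ a 1 v
  have e3 := angB_fr_succ a 2 v
  have e4 := angB_fr_succ a 3 v
  have e5 := angB_fr_succ a 4 v
  rw [e0, angB_rot] at e1
  rw [e1, angB_rot] at e2
  rw [e2, angB_rot] at e3
  rw [e3, angB_rot] at e4
  rw [e4, angB_rot] at e5
  refine ⟨?_, ?_, ?_, ?_, ?_, ?_⟩
  · rw [e0]
    rfl
  · rw [e1]
    rfl
  · rw [e2]
    simp only [Prod.fst_sub, Prod.snd_sub]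
    ring
  · rw [e3]
    simp only [Prod.fst_sub, Prod.snd_sub]
    ring
  · rw [e4]
    simp only [Prod.fst_sub, Prod.snd_sub]
    ring
  · rw [e5]
    simp only [Prod.fst_sub, Prod.snd_sub]
    ring

private theorem adj_bd (h : Adj u v) : -1 ≤ v.1 - u.1 ∧ v.1 - u.1 ≤ 1 ∧ -1 ≤ v.2 - u.2 ∧
    v.2 - u.2 ≤ 1 ∧ -1 ≤ v.1 - u.1 + (v.2 - u.2) ∧ v.1 - u.1 + (v.2 - u.2) ≤ 1 := by
  rcases h with h | h | h | h | h | h <;> obtain ⟨h1, h2⟩ := h <;> rw [h1, h2] <;>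
    refine ⟨by omega, by omega, by omega, by omega, by omega, by omega⟩

private def TriP (x y e f c d : ℤ) : Prop :=
    (-1 ≤ e + f ∧ e + f ≤ 1 ∧ -1 ≤ c + d ∧ c + d ≤ 1 ∧
    -1 ≤ c - e ∧ c - e ≤ 1 ∧ -1 ≤ d - f ∧ d - f ≤ 1 ∧ -1 ≤ c - e + (d - f) ∧
    c - e + (d - f) ≤ 1) →
    ((x ≠ 0 ∨ y ≠ 0) ∧ (x + e ≠ 0 ∨ y + f ≠ 0) ∧ (x + c ≠ 0 ∨ y + d ≠ 0)) →
    (0 < y ∧ 0 < y + f ∧ 0 < y + d) ∨
    (0 < x + y ∧ 0 < x + y + (e + f) ∧ 0 < x + y + (c + d)) ∨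
    (0 < x ∧ 0 < x + e ∧ 0 < x + c) ∨
    (y < 0 ∧ y + f < 0 ∧ y + d < 0) ∨
    (x + y < 0 ∧ x + y + (e + f) < 0 ∧ x + y + (c + d) < 0) ∨
    (x < 0 ∧ x + e < 0 ∧ x + c < 0)

private instance (x y e f c d : ℤ) : Decidable (TriP x y e f c d) := by
  unfold TriP
  infer_instance

private theorem tri_fin : ∀ x ∈ Finset.Icc (-1 : ℤ) 1, ∀ y ∈ Finset.Icc (-1 : ℤ) 1,
    ∀ e ∈ Finset.Icc (-1 : ℤ) 1, ∀ f ∈ Finset.Icc (-1 : ℤ) 1, ∀ c ∈ Finset.Icc (-1 : ℤ) 1,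
    ∀ d ∈ Finset.Icc (-1 : ℤ) 1, TriP x y e f c d := by
  decide +kernel

private theorem tri_aux (x y e f c d : ℤ)
    (he : -1 ≤ e ∧ e ≤ 1 ∧ -1 ≤ f ∧ f ≤ 1 ∧ -1 ≤ e + f ∧ e + f ≤ 1)
    (hc : -1 ≤ c ∧ c ≤ 1 ∧ -1 ≤ d ∧ d ≤ 1 ∧ -1 ≤ c + d ∧ c + d ≤ 1)
    (h1 : x ≠ 0 ∨ y ≠ 0) (h2 : x + e ≠ 0 ∨ y + f ≠ 0) (h3 : x + c ≠ 0 ∨ y + d ≠ 0)
    (hd : -1 ≤ c - e ∧ c - e ≤ 1 ∧ -1 ≤ d - f ∧ d - f ≤ 1 ∧ -1 ≤ c - e + (d - f) ∧
      c - e + (d - f) ≤ 1) :
    (0 < y ∧ 0 < y + f ∧ 0 < y + d) ∨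
    (0 < x + y ∧ 0 < x + y + (e + f) ∧ 0 < x + y + (c + d)) ∨
    (0 < x ∧ 0 < x + e ∧ 0 < x + c) ∨
    (y < 0 ∧ y + f < 0 ∧ y + d < 0) ∨
    (x + y < 0 ∧ x + y + (e + f) < 0 ∧ x + y + (c + d) < 0) ∨
    (x < 0 ∧ x + e < 0 ∧ x + c < 0) := by
  obtain ⟨e1, e2, e3, e4, e5, e6⟩ := he
  obtain ⟨c1, c2, c3, c4, c5, c6⟩ := hc
  obtain ⟨d1, d2, d3, d4, d5, d6⟩ := hd
  by_cases g1 : 2 ≤ y
  · exact Or.inl ⟨by omega, by omega, by omega⟩
  by_cases g2 : 2 ≤ x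
  · exact Or.inr (Or.inr (Or.inl ⟨by omega, by omega, by omega⟩))
  by_cases g3 : y ≤ -2
  · exact Or.inr (Or.inr (Or.inr (Or.inl ⟨by omega, by omega, by omega⟩)))
  by_cases g4 : x ≤ -2
  · exact Or.inr (Or.inr (Or.inr (Or.inr (Or.inr ⟨by omega, by omega, by omega⟩))))
  exact tri_fin x (Finset.mem_Icc.2 ⟨by omega, by omega⟩) y
    (Finset.mem_Icc.2 ⟨by omega, by omega⟩) e (Finset.mem_Icc.2 ⟨e1, e2⟩) f
    (Finset.mem_Icc.2 ⟨e3, e4⟩) c (Finset.mem_Icc.2 ⟨c1, c2⟩) d (Finset.mem_Icc.2 ⟨c3, c4⟩)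
    ⟨e5, e6, c5, c6, d1, d2, d3, d4, d5, d6⟩ ⟨h1, h2, h3⟩

private theorem tri_half' (huv : -1 ≤ v.1 - u.1 ∧ v.1 - u.1 ≤ 1 ∧ -1 ≤ v.2 - u.2 ∧
    v.2 - u.2 ≤ 1 ∧ -1 ≤ v.1 - u.1 + (v.2 - u.2) ∧ v.1 - u.1 + (v.2 - u.2) ≤ 1)
    (huw : -1 ≤ w.1 - u.1 ∧ w.1 - u.1 ≤ 1 ∧ -1 ≤ w.2 - u.2 ∧
    w.2 - u.2 ≤ 1 ∧ -1 ≤ w.1 - u.1 + (w.2 - u.2) ∧ w.1 - u.1 + (w.2 - u.2) ≤ 1)
    (hvw : -1 ≤ w.1 - v.1 ∧ w.1 - v.1 ≤ 1 ∧ -1 ≤ w.2 - v.2 ∧
    w.2 - v.2 ≤ 1 ∧ -1 ≤ w.1 - v.1 + (w.2 - v.2) ∧ w.1 - v.1 + (w.2 - v.2) ≤ 1)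
    (hu : u ≠ a) (hv : v ≠ a)
    (hw : w ≠ a) : ∃ k < 6, 0 < (fr a k u).2 ∧ 0 < (fr a k v).2 ∧ 0 < (fr a k w).2 := by
  obtain ⟨a0, a1, a2, a3, a4, a5⟩ := rows a u
  obtain ⟨b0, b1, b2, b3, b4, b5⟩ := rows a v
  obtain ⟨c0, c1, c2, c3, c4, c5⟩ := rows a w
  have g1 : u.1 - a.1 ≠ 0 ∨ u.2 - a.2 ≠ 0 := by
    by_contra hc
    push Not at hc
    exact hu (Prod.ext (by omega) (by omega))
  have g2 : u.1 - a.1 + (v.1 - u.1) ≠ 0 ∨ u.2 - a.2 + (v.2 - u.2) ≠ 0 := by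
    by_contra hc
    push Not at hc
    exact hv (Prod.ext (by omega) (by omega))
  have g3 : u.1 - a.1 + (w.1 - u.1) ≠ 0 ∨ u.2 - a.2 + (w.2 - u.2) ≠ 0 := by
    by_contra hc
    push Not at hc
    exact hw (Prod.ext (by omega) (by omega))
  have key := tri_aux (u.1 - a.1) (u.2 - a.2) (v.1 - u.1) (v.2 - u.2) (w.1 - u.1) (w.2 - u.2)
    huv huw g1 g2 g3 (by
      obtain ⟨d1, d2, d3, d4, d5, d6⟩ := hvw
      exact ⟨by omega, by omega, by omega, by omega, by omega, by omega⟩)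
  rcases key with ⟨k1, k2, k3⟩ | ⟨k1, k2, k3⟩ | ⟨k1, k2, k3⟩ | ⟨k1, k2, k3⟩ |
    ⟨k1, k2, k3⟩ | ⟨k1, k2, k3⟩
  · exact ⟨0, by norm_num, by rw [a0]; omega, by rw [b0]; omega, by rw [c0]; omega⟩
  · exact ⟨1, by norm_num, by rw [a1]; omega, by rw [b1]; omega, by rw [c1]; omega⟩
  · exact ⟨2, by norm_num, by rw [a2]; omega, by rw [b2]; omega, by rw [c2]; omega⟩
  · exact ⟨3, by norm_num, by rw [a3]; omega, by rw [b3]; omega, by rw [c3]; omega⟩
  · exact ⟨4, by norm_num, by rw [a4]; omega, by rw [b4]; omega, by rw [c4]; omega⟩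
  · exact ⟨5, by norm_num, by rw [a5]; omega, by rw [b5]; omega, by rw [c5]; omega⟩

theorem pair_half (huv : Adj u v) (hu : u ≠ a) (hv : v ≠ a) :
    ∃ k < 6, 0 < (fr a k u).2 ∧ 0 < (fr a k v).2 := by
  obtain ⟨k, hk, h1, h2, -⟩ := tri_half' (adj_bd huv) (adj_bd huv)
    ⟨by omega, by omega, by omega, by omega, by omega, by omega⟩ hu hv hv
  exact ⟨k, hk, h1, h2⟩

theorem tri_half (huv : Adj u v) (hvw : Adj v w) (huw : Adj u w) (hu : u ≠ a) (hv : v ≠ a)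
    (hw : w ≠ a) : ∃ k < 6, 0 < (fr a k u).2 ∧ 0 < (fr a k v).2 ∧ 0 < (fr a k w).2 := by
  exact tri_half' (adj_bd huv) (adj_bd huw) (adj_bd hvw) hu hv hw

private def QuadP (x y e f c d : ℤ) : Prop :=
    (-1 ≤ e + f ∧ e + f ≤ 1 ∧ -1 ≤ c + d ∧ c + d ≤ 1) →
    ((x ≠ 0 ∨ y ≠ 0) ∧ (x + e ≠ 0 ∨ y + f ≠ 0) ∧ (x - c ≠ 0 ∨ y - d ≠ 0) ∧
    (x + e - c ≠ 0 ∨ y + f - d ≠ 0)) →
    (0 < y ∧ 0 < y + f ∧ 0 < y - d ∧ 0 < y + f - d) ∨
    (0 < x + y ∧ 0 < x + y + (e + f) ∧ 0 < x + y - (c + d) ∧ 0 < x + y + (e + f) - (c + d)) ∨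
    (0 < x ∧ 0 < x + e ∧ 0 < x - c ∧ 0 < x + e - c) ∨
    (y < 0 ∧ y + f < 0 ∧ y - d < 0 ∧ y + f - d < 0) ∨
    (x + y < 0 ∧ x + y + (e + f) < 0 ∧ x + y - (c + d) < 0 ∧ x + y + (e + f) - (c + d) < 0) ∨
    (x < 0 ∧ x + e < 0 ∧ x - c < 0 ∧ x + e - c < 0)

private instance (x y e f c d : ℤ) : Decidable (QuadP x y e f c d) := by
  unfold QuadP
  infer_instance

private theorem quad_fin : ∀ x ∈ Finset.Icc (-2 : ℤ) 2, ∀ y ∈ Finset.Icc (-2 : ℤ) 2,
    ∀ e ∈ Finset.Icc (-1 : ℤ) 1, ∀ f ∈ Finset.Icc (-1 : ℤ) 1, ∀ c ∈ Finset.Icc (-1 : ℤ) 1,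
    ∀ d ∈ Finset.Icc (-1 : ℤ) 1, QuadP x y e f c d := by
  decide +kernel

private theorem quad_aux (x y e f c d : ℤ)
    (he : -1 ≤ e ∧ e ≤ 1 ∧ -1 ≤ f ∧ f ≤ 1 ∧ -1 ≤ e + f ∧ e + f ≤ 1)
    (hc : -1 ≤ c ∧ c ≤ 1 ∧ -1 ≤ d ∧ d ≤ 1 ∧ -1 ≤ c + d ∧ c + d ≤ 1)
    (h1 : x ≠ 0 ∨ y ≠ 0) (h2 : x + e ≠ 0 ∨ y + f ≠ 0) (h3 : x - c ≠ 0 ∨ y - d ≠ 0)
    (h4 : x + e - c ≠ 0 ∨ y + f - d ≠ 0) :
    (0 < y ∧ 0 < y + f ∧ 0 < y - d ∧ 0 < y + f - d) ∨
    (0 < x + y ∧ 0 < x + y + (e + f) ∧ 0 < x + y - (c + d) ∧ 0 < x + y + (e + f) - (c + d)) ∨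
    (0 < x ∧ 0 < x + e ∧ 0 < x - c ∧ 0 < x + e - c) ∨
    (y < 0 ∧ y + f < 0 ∧ y - d < 0 ∧ y + f - d < 0) ∨
    (x + y < 0 ∧ x + y + (e + f) < 0 ∧ x + y - (c + d) < 0 ∧ x + y + (e + f) - (c + d) < 0) ∨
    (x < 0 ∧ x + e < 0 ∧ x - c < 0 ∧ x + e - c < 0) := by
  obtain ⟨e1, e2, e3, e4, e5, e6⟩ := he
  obtain ⟨c1, c2, c3, c4, c5, c6⟩ := hc
  by_cases g1 : 3 ≤ y
  · exact Or.inl ⟨by omega, by omega, by omega, by omega⟩
  by_cases g2 : 3 ≤ x
  · exact Or.inr (Or.inr (Or.inl ⟨by omega, by omega, by omega, by omega⟩))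
  by_cases g3 : y ≤ -3
  · exact Or.inr (Or.inr (Or.inr (Or.inl ⟨by omega, by omega, by omega, by omega⟩)))
  by_cases g4 : x ≤ -3
  · exact Or.inr (Or.inr (Or.inr (Or.inr (Or.inr ⟨by omega, by omega, by omega, by omega⟩))))
  exact quad_fin x (Finset.mem_Icc.2 ⟨by omega, by omega⟩) y
    (Finset.mem_Icc.2 ⟨by omega, by omega⟩) e (Finset.mem_Icc.2 ⟨e1, e2⟩) f
    (Finset.mem_Icc.2 ⟨e3, e4⟩) c (Finset.mem_Icc.2 ⟨c1, c2⟩) d (Finset.mem_Icc.2 ⟨c3, c4⟩)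
    ⟨e5, e6, c5, c6⟩ ⟨h1, h2, h3, h4⟩

private theorem ne_or {u a : V} (h : u ≠ a) : u.1 - a.1 ≠ 0 ∨ u.2 - a.2 ≠ 0 := by
  by_contra hc
  push Not at hc
  exact h (Prod.ext (by omega) (by omega))

theorem quad_half (huv : Adj u v) (ha : Adj a a') (h1 : u ≠ a) (h2 : v ≠ a) (h3 : u ≠ a')
    (h4 : v ≠ a') : ∃ k < 6, 0 < (fr a k u).2 ∧ 0 < (fr a k v).2 ∧ 0 < (fr a' k u).2 ∧
      0 < (fr a' k v).2 := by
  have g1 := ne_or h1
  have g2 : u.1 - a.1 + (v.1 - u.1) ≠ 0 ∨ u.2 - a.2 + (v.2 - u.2) ≠ 0 := by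
    have := ne_or h2
    rcases this with h | h
    · exact Or.inl (by omega)
    · exact Or.inr (by omega)
  have g3 : u.1 - a.1 - (a'.1 - a.1) ≠ 0 ∨ u.2 - a.2 - (a'.2 - a.2) ≠ 0 := by
    have := ne_or h3
    rcases this with h | h
    · exact Or.inl (by omega)
    · exact Or.inr (by omega)
  have g4 : u.1 - a.1 + (v.1 - u.1) - (a'.1 - a.1) ≠ 0 ∨
      u.2 - a.2 + (v.2 - u.2) - (a'.2 - a.2) ≠ 0 := by
    have := ne_or h4
    rcases this with h | h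
    · exact Or.inl (by omega)
    · exact Or.inr (by omega)
  have key := quad_aux (u.1 - a.1) (u.2 - a.2) (v.1 - u.1) (v.2 - u.2) (a'.1 - a.1) (a'.2 - a.2)
    (adj_bd huv) (adj_bd ha) g1 g2 g3 g4
  clear g1 g2 g3 g4
  obtain ⟨a0, a1, a2, a3, a4, a5⟩ := rows a u
  obtain ⟨b0, b1, b2, b3, b4, b5⟩ := rows a v
  obtain ⟨c0, c1, c2, c3, c4, c5⟩ := rows a' u
  obtain ⟨d0, d1, d2, d3, d4, d5⟩ := rows a' v
  rcases key with ⟨k1, k2, k3, k4⟩ | ⟨k1, k2, k3, k4⟩ | ⟨k1, k2, k3, k4⟩ | ⟨k1, k2, k3, k4⟩ |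
    ⟨k1, k2, k3, k4⟩ | ⟨k1, k2, k3, k4⟩
  · exact ⟨0, by norm_num, by rw [a0]; omega, by rw [b0]; omega, by rw [c0]; omega,
      by rw [d0]; omega⟩
  · exact ⟨1, by norm_num, by rw [a1]; omega, by rw [b1]; omega, by rw [c1]; omega,
      by rw [d1]; omega⟩
  · exact ⟨2, by norm_num, by rw [a2]; omega, by rw [b2]; omega, by rw [c2]; omega,
      by rw [d2]; omega⟩
  · exact ⟨3, by norm_num, by rw [a3]; omega, by rw [b3]; omega, by rw [c3]; omega,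
      by rw [d3]; omega⟩
  · exact ⟨4, by norm_num, by rw [a4]; omega, by rw [b4]; omega, by rw [c4]; omega,
      by rw [d4]; omega⟩
  · exact ⟨5, by norm_num, by rw [a5]; omega, by rw [b5]; omega, by rw [c5]; omega,
      by rw [d5]; omega⟩

theorem ar_symm (huv : Adj u v) (hu : u ≠ a) (hv : v ≠ a) : ar a v u = - ar a u v := by
  obtain ⟨k, -, h1, h2⟩ := pair_half huv hu hv
  rw [ar_half (row_pos h2) (row_pos h1), ar_half (row_pos h1) (row_pos h2)]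
  ring

theorem ar_tri (huv : Adj u v) (hvw : Adj v w) (huw : Adj u w) (hu : u ≠ a) (hv : v ≠ a)
    (hw : w ≠ a) : ar a u v + ar a v w + ar a w u = 0 := by
  obtain ⟨k, -, h1, h2, h3⟩ := tri_half huv hvw huw hu hv hw
  rw [ar_half (row_pos h1) (row_pos h2), ar_half (row_pos h2) (row_pos h3),
    ar_half (row_pos h3) (row_pos h1)]
  ring

theorem ar_quad (huv : Adj u v) (ha : Adj a a') (h1 : u ≠ a) (h2 : v ≠ a) (h3 : u ≠ a')
    (h4 : v ≠ a') : ar a u v - ar a' u v = ps a a' v - ps a a' u := by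
  obtain ⟨k, -, k1, k2, k3, k4⟩ := quad_half huv ha h1 h2 h3 h4
  rw [ar_half (row_pos k1) (row_pos k2), ar_half (row_pos k3) (row_pos k4),
    th_ps (row_pos k2) (row_pos k4), th_ps (row_pos k1) (row_pos k3)]
  ring

/-- The six neighbours of `a` in counter clockwise order. -/
def nb (a : V) (k : ℕ) : V := a + (rot ^ k) ((1, 0) : V)

private theorem nb_zero (a : V) : nb a 0 = a + (1, 0) := rfl

private theorem nb_succ (a : V) (k : ℕ) : nb a (k + 1) = a + rot ((rot ^ k) ((1, 0) : V)) := by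
  unfold nb
  rw [pow_succ']
  rfl

private theorem adj_zero_rot {w : V} (h : Adj 0 w) : Adj 0 (rot w) := by
  rw [angB_rot]
  unfold Adj at *
  simp only [Prod.fst_zero, Prod.snd_zero] at *
  rcases h with h | h | h | h | h | h
  · right; left; omega
  · right; right; left; omega
  · right; right; right; left; omega
  · right; right; right; right; left; omega
  · right; right; right; right; right; omega
  · left; omega

private theorem adj_zero_pow (k : ℕ) : Adj 0 ((rot ^ k) ((1, 0) : V)) := by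
  induction k with
  | zero =>
    left
    exact ⟨rfl, rfl⟩
  | succ k ih =>
    have e : (rot ^ (k + 1)) ((1, 0) : V) = rot ((rot ^ k) ((1, 0) : V)) := by
      rw [pow_succ']
      rfl
    rw [e]
    exact adj_zero_rot ih

theorem adj_nb (a : V) (k : ℕ) : Adj a (nb a k) := by
  have h := adj_zero_pow k
  unfold nb
  generalize (rot ^ k) ((1, 0) : V) = w at h
  unfold Adj at *
  simp only [Prod.fst_zero, Prod.snd_zero, Prod.fst_add, Prod.snd_add] at *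
  exact h.imp (fun h => by omega) (Or.imp (fun h => by omega) (Or.imp (fun h => by omega)
    (Or.imp (fun h => by omega) (Or.imp (fun h => by omega) (fun h => by omega)))))

theorem adj_nb_nb (a : V) (k : ℕ) : Adj (nb a k) (nb a (k + 1)) := by
  have h := adj_zero_pow k
  rw [nb_succ]
  unfold nb
  generalize (rot ^ k) ((1, 0) : V) = w at h
  rw [angB_rot]
  unfold Adj at *
  simp only [Prod.fst_zero, Prod.snd_zero, Prod.fst_add, Prod.snd_add] at *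
  rcases h with h | h | h | h | h | h
  · right; right; left; omega
  · right; right; right; left; omega
  · right; right; right; right; left; omega
  · right; right; right; right; right; omega
  · left; omega
  · right; left; omega

theorem nb_six (a : V) (k : ℕ) : nb a (k + 6) = nb a k := by
  have e : ∀ j : ℕ, (rot ^ (j + 1)) ((1, 0) : V) = rot ((rot ^ j) ((1, 0) : V)) := by
    intro j
    rw [pow_succ']
    rfl
  unfold nb
  rw [e (k + 5), e (k + 4), e (k + 3), e (k + 2), e (k + 1), e k]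
  generalize (rot ^ k) ((1, 0) : V) = w
  simp only [angB_rot]
  congr 1
  ext
  · simp
  · simp

theorem exists_nb (h : Adj a u) : ∃ k < 6, u = nb a k := by
  have e : ∀ j : ℕ, (rot ^ (j + 1)) ((1, 0) : V) = rot ((rot ^ j) ((1, 0) : V)) := by
    intro j
    rw [pow_succ']
    rfl
  have e0 : (rot ^ 0) ((1, 0) : V) = (1, 0) := rfl
  have e1 : (rot ^ 1) ((1, 0) : V) = (0, 1) := by rw [e 0, e0]; rfl
  have e2 : (rot ^ 2) ((1, 0) : V) = (-1, 1) := by rw [e 1, e1]; rfl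
  have e3 : (rot ^ 3) ((1, 0) : V) = (-1, 0) := by rw [e 2, e2]; rfl
  have e4 : (rot ^ 4) ((1, 0) : V) = (0, -1) := by rw [e 3, e3]; rfl
  have e5 : (rot ^ 5) ((1, 0) : V) = (1, -1) := by rw [e 4, e4]; rfl
  rcases h with h | h | h | h | h | h
  · refine ⟨0, by norm_num, ?_⟩
    unfold nb
    rw [e0]
    exact Prod.ext (by rw [h.1]; rfl) (by rw [h.2]; exact (add_zero _).symm)
  · refine ⟨1, by norm_num, ?_⟩
    unfold nb
    rw [e1]
    exact Prod.ext (by rw [h.1]; exact (add_zero _).symm) (by rw [h.2]; rfl)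
  · refine ⟨2, by norm_num, ?_⟩
    unfold nb
    rw [e2]
    exact Prod.ext (by rw [h.1]; rfl) (by rw [h.2]; rfl)
  · refine ⟨3, by norm_num, ?_⟩
    unfold nb
    rw [e3]
    exact Prod.ext (by rw [h.1]; rfl) (by rw [h.2]; exact (add_zero _).symm)
  · refine ⟨4, by norm_num, ?_⟩
    unfold nb
    rw [e4]
    exact Prod.ext (by rw [h.1]; exact (add_zero _).symm) (by rw [h.2]; rfl)
  · refine ⟨5, by norm_num, ?_⟩
    unfold nb
    rw [e5]
    exact Prod.ext (by rw [h.1]; rfl) (by rw [h.2]; rfl)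

theorem ar_hex (a : V) : ∑ k ∈ Finset.range 6, ar a (nb a k) (nb a (k + 1)) = 2 * Real.pi := by
  have key : ∀ k ∈ Finset.range 6, ar a (nb a k) (nb a (k + 1)) = Real.pi / 3 := by
    intro k _
    have h1 : emb (nb a k) - emb a = emb ((rot ^ k) ((1, 0) : V)) := by
      rw [← emb_sub]
      unfold nb
      rw [add_sub_cancel_left]
    have h2 : emb (nb a (k + 1)) - emb a = zt * emb ((rot ^ k) ((1, 0) : V)) := by
      rw [← emb_sub, nb_succ, add_sub_cancel_left, emb_rot]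
    have h3 : emb ((rot ^ k) ((1, 0) : V)) ≠ 0 := by
      intro h
      rw [← emb_zero, emb_inj] at h
      have h4 := adj_zero_pow k
      rw [h] at h4
      unfold Adj at h4
      simp only [Prod.fst_zero, Prod.snd_zero] at h4
      omega
    unfold ar
    rw [h1, h2, mul_div_assoc, div_self h3, mul_one, arg_zt]
  rw [Finset.sum_congr rfl key, Finset.sum_const, Finset.card_range]
  ring

private theorem half_aux {z w : ℂ} (h : ‖z‖ < ‖w‖) :
    0 < ((w - z) * (starRingEnd ℂ) w).re := by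
  have hw : 0 < ‖w‖ := (norm_nonneg z).trans_lt h
  have e1 : ((w - z) * (starRingEnd ℂ) w).re = ‖w‖ ^ 2 - (z * (starRingEnd ℂ) w).re := by
    rw [sub_mul, Complex.sub_re, Complex.mul_conj, Complex.ofReal_re,
      Complex.normSq_eq_norm_sq]
  have e2 : (z * (starRingEnd ℂ) w).re ≤ ‖z‖ * ‖w‖ := by
    refine (Complex.re_le_norm _).trans (le_of_eq ?_)
    rw [norm_mul, RCLike.norm_conj]
  rw [e1]
  nlinarith

theorem far_half (h : ‖emb x‖ < ‖emb a‖) :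
    0 < ((emb x - emb a) * (-(starRingEnd ℂ) (emb a))).re := by
  have e : (emb x - emb a) * (-(starRingEnd ℂ) (emb a)) =
      (emb a - emb x) * (starRingEnd ℂ) (emb a) := by ring
  rw [e]
  exact half_aux h

theorem out_half (h : ‖emb a‖ < ‖emb x‖) :
    0 < ((emb x - emb a) * (starRingEnd ℂ) (emb x)).re := by
  exact half_aux h

theorem in_half (h : ‖emb x‖ < ‖emb a‖) : 0 < ((emb x - emb a) * (-(emb a)⁻¹)).re := by
  have ha : emb a ≠ 0 := norm_pos_iff.1 ((norm_nonneg _).trans_lt h)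
  have e : (emb x - emb a) * (-(emb a)⁻¹) = 1 - emb x / emb a := by
    field_simp
    ring
  rw [e, Complex.sub_re, Complex.one_re, sub_pos]
  refine (Complex.re_le_norm _).trans_lt ?_
  rw [norm_div, div_lt_one (norm_pos_iff.2 ha)]
  exact h

end Pool.Agent.MSTLim
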