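import Pool.Agent.MSTLim.Cone
import Pool.Agent.TriPerc.Rsp

/-!
# The probability of six open and six closed arms in the twelve cones

`twelve`: at the level `1 / 2` the probability that the annulus `Ann 0 n m`, `16 ≤ n ≤ m ≤ 2 ^ a n`,
is crossed by open paths in the cones `Dc k false` and by closed paths in the cones `Dc k true`,
`k < 6`, is at least `exp (- A (a + 1))`.
-/

namespace Pool.Agent.MSTLim

open MeasureTheory
open Pool.Agent.TriPerc

/-- Six open arms and six closed arms in disjoint cones. -/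
def Tw (n m : ℤ) : Set Lab :=
  {w | ∀ k < 6, Arm (Op (1 / 2) w ∩ Dc k false) 0 n m ∧ Arm (Cl (1 / 2) w ∩ Dc k true) 0 n m}

/-- The crossing number `b` of the scale `U` of the set `S`. -/
def Cr (S : Set V) (b : Bool) (U : ℤ) : Prop :=
  if b then PV S (-(7 * U)) (-(3 * U)) (16 * U) (48 * U)
  else PH S (-(14 * U)) (-(3 * U)) (32 * U) (48 * U)

/-- The box of the crossing number `b`. -/
def Bx (b : Bool) (U : ℤ) : Set V :=
  if b then Par (-(7 * U)) (-(3 * U)) (16 * U) (48 * U)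
  else Par (-(14 * U)) (-(3 * U)) (32 * U) (48 * U)

private theorem bx_fin (b : Bool) (U : ℤ) : (Bx b U).Finite := by
  cases b
  · exact finite_par _ _ _ _
  · exact finite_par _ _ _ _

private theorem bx_sub {b : Bool} {U : ℤ} (hU : 1 ≤ U) : Bx b U ⊆ Cn := by
  cases b
  · exact (par_sub_cn hU).2
  · exact (par_sub_cn hU).1

private theorem cr_mono {S T : Set V} {b : Bool} {U : ℤ} (h : S ⊆ T) (hS : Cr S b U) :
    Cr T b U := by
  cases b
  · exact phs_mono h hS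
  · exact pvs_mono h hS

private theorem cr_inter {S : Set V} {b : Bool} {U : ℤ} (hS : Cr S b U) :
    Cr (S ∩ Bx b U) b U := by
  cases b
  · obtain ⟨u, hu, v, hv, h⟩ := hS
    exact ⟨u, hu, v, hv, h.mono fun z hz => ⟨⟨hz.1, hz.2⟩, hz.2⟩⟩
  · obtain ⟨u, hu, v, hv, h⟩ := hS
    exact ⟨u, hu, v, hv, h.mono fun z hz => ⟨⟨hz.1, hz.2⟩, hz.2⟩⟩

/-- The support of the crossing in the frame `g`. -/
private def Su (g : V ≃ V) (b : Bool) (U : ℤ) : Set V := g ⁻¹' Bx b U

private theorem su_fin (g : V ≃ V) (b : Bool) (U : ℤ) : (Su g b U).Finite :=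
  (bx_fin b U).preimage g.injective.injOn

private theorem cr_loc (g : V ≃ V) (b : Bool) (U : ℤ) (T : Set V) :
    Cr {v | g.symm v ∈ T ∩ Su g b U} b U ↔ Cr {v | g.symm v ∈ T} b U := by
  constructor
  · exact cr_mono fun v hv => hv.1
  · intro h
    refine cr_mono ?_ (cr_inter h)
    rintro v ⟨h1, h2⟩
    refine ⟨h1, ?_⟩
    change g (g.symm v) ∈ Bx b U
    rwa [g.apply_symm_apply]

/-- The open events. -/
private def EO (g : V ≃ V) (b : Bool) (U : ℤ) : Set Lab :=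
  {w | Cr {v | g.symm v ∈ Op (1 / 2) w} b U}

/-- The closed events. -/
private def EC (g : V ≃ V) (b : Bool) (U : ℤ) : Set Lab :=
  {w | Cr {v | g.symm v ∈ Cl (1 / 2) w} b U}

private theorem ev_EO (g : V ≃ V) (b : Bool) (U : ℤ) : Ev (Su g b U) (EO g b U) := by
  have h := ev_op (su_fin g b U) (1 / 2) fun T => Cr {v | g.symm v ∈ T} b U
  convert h using 1
  ext w
  exact (cr_loc g b U _).symm

private theorem ev_EC (g : V ≃ V) (b : Bool) (U : ℤ) : Ev (Su g b U) (EC g b U) := by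
  have h := ev_cl (su_fin g b U) (1 / 2) fun T => Cr {v | g.symm v ∈ T} b U
  convert h using 1
  ext w
  exact (cr_loc g b U _).symm

private theorem low_EO (g : V ≃ V) (b : Bool) (U : ℤ) : IsLowerSet (EO g b U) := by
  intro w w' hle hw
  exact cr_mono (fun v hv => (hle _).trans hv) hw

private theorem up_EC (g : V ≃ V) (b : Bool) (U : ℤ) : IsUpperSet (EC g b U) := by
  intro w w' hle hw
  exact cr_mono (fun v hv => lt_of_lt_of_le hv (hle _)) hw

private theorem prob : ∃ c : ℝ, 0 < c ∧ c ≤ 1 ∧ ∀ (g : V ≃ V) (b : Bool) (U : ℤ), 1 ≤ U →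
    ENNReal.ofReal c ≤ P (EO g b U) ∧ ENNReal.ofReal c ≤ P (EC g b U) := by
  obtain ⟨c0, h0⟩ := rsw_half
  obtain ⟨c, hc, hc4, h⟩ := rsp c0 (h0 0).1 8 (by norm_num)
  refine ⟨c, hc, hc4.trans (by norm_num), fun g b U hU => ?_⟩
  have tr : ∀ A : Set Lab, c ≤ (P A).toReal → ENNReal.ofReal c ≤ P A := fun A hA =>
    (ENNReal.ofReal_le_iff_le_toReal (measure_ne_top P A)).mpr hA
  have fo : P (EO g b U) = P {w | Cr (Op (1 / 2) w) b U} := by
    refine frame g.symm (fun T => Cr T b U) (1 / 2) ?_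
    have := (ev_EO (Equiv.refl V) b U).1
    exact this
  have fc : P (EC g b U) = P {w | Cr (Cl (1 / 2) w) b U} := by
    refine (mp_comp g.symm).measure_preimage (s := {w | Cr (Cl (1 / 2) w) b U}) ?_
    have := (ev_EC (Equiv.refl V) b U).1
    exact this.nullMeasurableSet
  rw [fo, fc]
  cases b
  · have h1 := h (1 / 2) (16 * U) (h0 _) (16 * U) (by omega) le_rfl (-(14 * U)) (32 * U) (11 * U)
      (by omega) (by omega)
    rw [show -(14 * U) + 11 * U = -(3 * U) by ring, show 32 * U + 16 * U = 48 * U by ring] at h1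
    exact ⟨tr _ h1.1, tr _ h1.2.1⟩
  · have h1 := h (1 / 2) (4 * U) (h0 _) (4 * U) (by omega) le_rfl (-(7 * U)) (16 * U) (32 * U)
      (by omega) (by omega)
    rw [show -(7 * U) + 4 * U = -(3 * U) by ring, show 16 * U + 32 * U = 48 * U by ring] at h1
    exact ⟨tr _ h1.2.2.1, tr _ h1.2.2.2⟩

private theorem fam {ι : Type} [Fintype ι] {s : Set V} (hs : s.Finite) {A : ι → Set Lab}
    (hA : ∀ i, Ev s (A i)) (lA : (∀ i, IsLowerSet (A i)) ∨ ∀ i, IsUpperSet (A i)) {c : ENNReal}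
    (hc : ∀ i, c ≤ P (A i)) : c ^ Fintype.card ι ≤ P (⋂ i, A i) := by
  classical
  let e := Fintype.equivFin ι
  have h1 : ∏ i : Fin (Fintype.card ι), P (A (e.symm i)) ≤
      P (⋂ i : Fin (Fintype.card ι), A (e.symm i)) := by
    rcases lA with lA | lA
    · exact harris_low_fin hs (fun i => hA _) fun i => lA _
    · exact harris_up_fin hs (fun i => hA _) fun i => lA _
  have h2 : (⋂ i : Fin (Fintype.card ι), A (e.symm i)) = ⋂ i, A i := by
    ext w
    simp only [Set.mem_iInter]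
    exact e.symm.forall_congr_left.trans (by simp)
  rw [h2] at h1
  refine le_trans ?_ h1
  calc c ^ Fintype.card ι = ∏ _i : Fin (Fintype.card ι), c := by simp
    _ ≤ _ := Finset.prod_le_prod' fun i _ => hc _

theorem twelve : ∃ A : ℝ, 0 < A ∧ ∀ (a : ℕ) (n m : ℤ), 16 ≤ n → n ≤ m → m ≤ 2 ^ a * n →
    Real.exp (-A * (a + 1)) ≤ (P (Tw n m)).toReal := by
  obtain ⟨c, hc, hc1, hP⟩ := prob
  refine ⟨1 - 24 * Real.log c, ?_, fun a n m hn hnm hm => ?_⟩
  · have := Real.log_nonpos hc.le hc1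
    linarith
  obtain ⟨w, hw⟩ : ∃ w : ℤ, w = n / 16 := ⟨_, rfl⟩
  have hw1 : 1 ≤ w := by omega
  have hU : ∀ j : ℕ, (1 : ℤ) ≤ 2 ^ j * w := fun j => by
    have : (1 : ℤ) ≤ 2 ^ j := one_le_pow₀ (by norm_num)
    nlinarith
  let ι : Type := Fin 6 × Fin (a + 1) × Bool
  let AO : ι → Set Lab := fun i => EO (fk i.1 false) i.2.2 (2 ^ (i.2.1 : ℕ) * w)
  let AC : ι → Set Lab := fun i => EC (fk i.1 true) i.2.2 (2 ^ (i.2.1 : ℕ) * w)
  let DO : Set V := ⋃ i : ι, Su (fk i.1 false) i.2.2 (2 ^ (i.2.1 : ℕ) * w)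
  let DC : Set V := ⋃ i : ι, Su (fk i.1 true) i.2.2 (2 ^ (i.2.1 : ℕ) * w)
  have hDO : DO.Finite := Set.finite_iUnion fun i => su_fin _ _ _
  have hDC : DC.Finite := Set.finite_iUnion fun i => su_fin _ _ _
  have hAO : ∀ i, Ev DO (AO i) := fun i => (ev_EO _ _ _).mono
    (Set.subset_iUnion (fun i : ι => Su (fk i.1 false) i.2.2 (2 ^ (i.2.1 : ℕ) * w)) i)
  have hAC : ∀ i, Ev DC (AC i) := fun i => (ev_EC _ _ _).mono
    (Set.subset_iUnion (fun i : ι => Su (fk i.1 true) i.2.2 (2 ^ (i.2.1 : ℕ) * w)) i)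
  have h1 : ENNReal.ofReal c ^ Fintype.card ι ≤ P (⋂ i, AO i) :=
    fam hDO hAO (Or.inl fun i => low_EO _ _ _) fun i => (hP _ _ _ (hU _)).1
  have h2 : ENNReal.ofReal c ^ Fintype.card ι ≤ P (⋂ i, AC i) :=
    fam hDC hAC (Or.inr fun i => up_EC _ _ _) fun i => (hP _ _ _ (hU _)).2
  have hdis : Disjoint DO DC := by
    rw [Set.disjoint_left]
    intro v hv hv'
    obtain ⟨i, hi⟩ := Set.mem_iUnion.mp hv
    obtain ⟨i', hi'⟩ := Set.mem_iUnion.mp hv'
    have e1 : v ∈ Dc i.1 false := bx_sub (hU _) hi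
    have e2 : v ∈ Dc i'.1 true := bx_sub (hU _) hi'
    exact Set.disjoint_left.mp (Dc_disjoint i.1.2 i'.1.2 (Or.inr (by simp))) e1 e2
  have h3 : P ((⋂ i, AO i) ∩ ⋂ i, AC i) = P (⋂ i, AO i) * P (⋂ i, AC i) :=
    indep (Ev.iInter hAO) (Ev.iInter hAC) hdis
  have h4 : ((⋂ i, AO i) ∩ ⋂ i, AC i) ⊆ Tw n m := by
    rintro x ⟨hx, hx'⟩ k hk
    rw [Set.mem_iInter] at hx hx'
    have hmm : m ≤ 48 * (2 ^ a * w) := by
      have e3 : n ≤ 32 * w := by omega
      have e4 : (2 : ℤ) ^ a * n ≤ 2 ^ a * (32 * w) := mul_le_mul_of_nonneg_left e3 (by positivity)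
      have e5 := hU a
      nlinarith
    constructor
    · refine arm_of_chain hw1 a k false (by omega) hnm hmm fun j hj => ⟨?_, ?_⟩
      · exact hx (⟨k, hk⟩, ⟨j, hj⟩, true)
      · exact hx (⟨k, hk⟩, ⟨j, hj⟩, false)
    · refine arm_of_chain hw1 a k true (by omega) hnm hmm fun j hj => ⟨?_, ?_⟩
      · exact hx' (⟨k, hk⟩, ⟨j, hj⟩, true)
      · exact hx' (⟨k, hk⟩, ⟨j, hj⟩, false)
  have h5 : ENNReal.ofReal c ^ (24 * (a + 1)) ≤ P (Tw n m) := by
    have hcard : Fintype.card ι = 12 * (a + 1) := by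
      simp only [ι, Fintype.card_prod, Fintype.card_fin, Fintype.card_bool]
      ring
    calc ENNReal.ofReal c ^ (24 * (a + 1))
        = ENNReal.ofReal c ^ (12 * (a + 1)) * ENNReal.ofReal c ^ (12 * (a + 1)) := by
          rw [← pow_add]
          congr 1
          ring
      _ ≤ P (⋂ i, AO i) * P (⋂ i, AC i) := by
          rw [← hcard]
          exact mul_le_mul' h1 h2
      _ = P ((⋂ i, AO i) ∩ ⋂ i, AC i) := h3.symm
      _ ≤ P (Tw n m) := measure_mono h4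
  rw [← ENNReal.ofReal_pow hc.le] at h5
  have h6 := (ENNReal.ofReal_le_iff_le_toReal (measure_ne_top P _)).mp h5
  refine le_trans ?_ h6
  rw [← Real.rpow_natCast, Real.rpow_def_of_pos hc]
  refine Real.exp_le_exp.mpr ?_
  push_cast
  have : (0 : ℝ) ≤ a := a.cast_nonneg
  nlinarith

end Pool.Agent.MSTLim
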