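import Pool.Agent.MST.Ex
import Pool.Agent.MST.Sepa
import Pool.Agent.MSTLim.ConeP

/-!
# The lower bound for the event `EF`

Six open arms and six closed arms in the twelve cones give the event `EF (1 / 2) m n`: the outer
endpoints `z k` of the open arms are separated by the closed arms.
-/

namespace Pool.Agent.MSTLim

open MeasureTheory
open Pool.Agent.TriPerc
open Pool.Agent.MST

/-- The number of the side of the cones `Dc k s` in counterclockwise order. -/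
def off (k : ℕ) : ℤ := if k = 0 then 1 else if k = 1 then 0 else 7 - k

theorem pos_dc {n : ℤ} {v : V} {k : ℕ} {s : Bool} (hn : 1 ≤ n) (h : nrm v = n) (hk : k < 6)
    (hv : v ∈ Dc k s) : (s = false → n ≤ 16 * (pos n v - off k * n) ∧
      16 * (pos n v - off k * n) ≤ 7 * n) ∧ (s = true → 9 * n ≤ 16 * (pos n v - off k * n) ∧
      16 * (pos n v - off k * n) ≤ 15 * n) := by
  have h1 := cir_sides hn h
  obtain ⟨a, b⟩ := v
  cases s <;> interval_cases k <;>
  simp only [Dc, fk, Cn, Set.mem_ofPred_eq, if_true, Bool.false_eq_true, if_false, pow_succ,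
    pow_zero, one_mul, Equiv.trans_apply, Equiv.Perm.mul_apply, Equiv.Perm.one_apply, rot, vref,
    Equiv.coe_fn_mk, Equiv.refl_apply] at hv <;>
  simp only [off] <;> simp only at h1 <;> norm_num <;> omega

private theorem off_ne {k k' : ℕ} (hk : k < 6) (hk' : k' < 6) (h : k ≠ k') :
    off k + 1 ≤ off k' ∨ off k' + 1 ≤ off k := by
  unfold off
  split_ifs <;> omega

private theorem off_mul {n : ℤ} (hn : 1 ≤ n) {k k' : ℕ} (h : off k + 1 ≤ off k') :
    off k * n + n ≤ off k' * n := by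
  nlinarith

/-- Closed arms in the sectors `i` and `j` separate the open arms in these sectors. -/
private theorem sep_dc {n : ℤ} (hn : 1 ≤ n) {i j : ℕ} (hi : i < 6) (hj : j < 6) (hij : i ≠ j)
    {z z' q q' : V} (hz : nrm z = n) (hz' : nrm z' = n) (hq : nrm q = n) (hq' : nrm q' = n)
    (dz : z ∈ Dc i false) (dz' : z' ∈ Dc j false) (dq : q ∈ Dc i true) (dq' : q' ∈ Dc j true) :
    SepC n q q' z z' := by
  obtain ⟨a1, a2⟩ := (pos_dc hn hz hi dz).1 rfl
  obtain ⟨b1, b2⟩ := (pos_dc hn hz' hj dz').1 rfl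
  obtain ⟨c1, c2⟩ := (pos_dc hn hq hi dq).2 rfl
  obtain ⟨d1, d2⟩ := (pos_dc hn hq' hj dq').2 rfl
  have ho : off i * n + n ≤ off j * n ∨ off j * n + n ≤ off i * n :=
    (off_ne hi hj hij).imp (off_mul hn) (off_mul hn)
  have ne : ∀ {x y : V}, pos n x ≠ pos n y → x ≠ y := fun h h' => h (h' ▸ rfl)
  rw [sep_iff hn hq hq' hz hz' (ne (by omega)) (ne (by omega)) (ne (by omega)) (ne (by omega))]
  unfold Bt
  omega

/-- The outer endpoints of the open arms in the right cyclic order. -/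
private theorem sep_z {n : ℤ} (hn : 1 ≤ n) {i j : ℕ} (hi : 1 ≤ i ∧ i ≤ 2) (hj : 4 ≤ j ∧ j ≤ 5)
    {z z' q q' : V} (hz : nrm z = n) (hz' : nrm z' = n) (hq : nrm q = n) (hq' : nrm q' = n)
    (dz : z ∈ Dc i false) (dz' : z' ∈ Dc j false) (dq : q ∈ Dc 0 false) (dq' : q' ∈ Dc 3 false) :
    SepC n q q' z z' := by
  obtain ⟨a1, a2⟩ := (pos_dc hn hz (by omega) dz).1 rfl
  obtain ⟨b1, b2⟩ := (pos_dc hn hz' (by omega) dz').1 rfl
  obtain ⟨c1, c2⟩ := (pos_dc hn hq (by omega) dq).1 rfl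
  obtain ⟨d1, d2⟩ := (pos_dc hn hq' (by omega) dq').1 rfl
  have e0 : off 0 * n = n := by simp [off]
  have e3 : off 3 * n = 4 * n := by simp [off]
  have ei : off i * n = 0 ∨ off i * n = 5 * n := by
    have : i = 1 ∨ i = 2 := by omega
    rcases this with rfl | rfl <;> simp [off]
  have ej : off j * n = 3 * n ∨ off j * n = 2 * n := by
    have : j = 4 ∨ j = 5 := by omega
    rcases this with rfl | rfl <;> simp [off]
  have ne : ∀ {x y : V}, pos n x ≠ pos n y → x ≠ y := fun h h' => h (h' ▸ rfl)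
  rw [sep_iff hn hq hq' hz hz' (ne (by omega)) (ne (by omega)) (ne (by omega)) (ne (by omega))]
  unfold Bt
  omega

private theorem arm_ends {S : Set V} {m n : ℤ} (h : Arm S 0 m n) :
    ∃ x y, nrm x = m ∧ nrm y = n ∧ Conn (S ∩ Ann 0 m n) y x := by
  obtain ⟨x, hx, y, hy, hxy⟩ := h
  have h1 := mem_ann0.1 hxy.left.2
  have h2 := mem_ann0.1 hxy.right.2
  have hx' : nrm x ≤ m := by simpa using hx
  have hy' : n ≤ nrm y := by simpa using hy
  exact ⟨x, y, le_antisymm hx' h1.1, le_antisymm h2.2 hy', hxy.symm⟩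

/-- Two root paths of vertices which are joined to the root by open paths and are not joined to
each other. -/
private theorem dbl_of {w : Lab} (hw : Function.Injective w) {m n : ℤ} {z z' y y' : V}
    (hy : nrm y = m) (hy' : nrm y' = m) (h : Conn (Op (1 / 2) w ∩ Ann 0 m n) z y)
    (h' : Conn (Op (1 / 2) w ∩ Ann 0 m n) z' y')
    (hno : ¬ Conn (Op (1 / 2) w ∩ Ann 0 m n) z z') : Dbl (Ann 0 m n) (Cir m) w z z' := by
  obtain ⟨f, N, hf⟩ := root_exists (W := Cir m) (w := w) (finite_ann 0 m n) hy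
    (h.mono Set.inter_subset_right)
  obtain ⟨f', N', hf'⟩ := root_exists (W := Cir m) (w := w) (finite_ann 0 m n) hy'
    (h'.mono Set.inter_subset_right)
  have key : ∀ {z y : V} {f : ℕ → V} {N : ℕ}, nrm y = m →
      Conn (Op (1 / 2) w ∩ Ann 0 m n) z y → IsRoot (Ann 0 m n) (Cir m) w z f N → ∀ i ≤ N,
      Conn (Op (1 / 2) w ∩ Ann 0 m n) z (f i) := by
    intro z y f N hy h hf i hi
    induction i with
    | zero =>
      rw [hf.start]
      exact Conn.refl h.left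
    | succ i ih =>
      have h1 := ih (by omega)
      exact h1.trans (Conn.of_adj h1.right
        ⟨root_open hw hf hy h hi, hf.mem h.left.2 hi⟩ (hf.path.step i (by omega)).1)
  refine ⟨f, N, f', N', hf, hf', fun i hi j hj hij => hno ?_⟩
  have h1 := key hy h hf i hi
  have h2 := key hy' h' hf' j hj
  rw [← hij] at h2
  exact h1.trans h2.symm

theorem ef_of_tw {w : Lab} (hw : Function.Injective w) {m n : ℤ} (hm : 1 ≤ m) (hmn : m ≤ n)
    (h : w ∈ Tw m n) : EF (1 / 2) m n w := by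
  have h1 : ∀ k : Fin 6, ∃ x y, nrm x = m ∧ nrm y = n ∧
      Conn (Op (1 / 2) w ∩ Dc k false ∩ Ann 0 m n) y x := fun k => arm_ends (h k k.2).1
  have h2 : ∀ k : Fin 6, ∃ x y, nrm x = m ∧ nrm y = n ∧
      Conn (Cl (1 / 2) w ∩ Dc k true ∩ Ann 0 m n) y x := fun k => arm_ends (h k k.2).2
  choose u z hu hz huz using h1
  choose r q hr hq hrq using h2
  have hO : ∀ k, Conn (Op (1 / 2) w ∩ Ann 0 m n) (z k) (u k) := fun k =>
    (huz k).mono fun v hv => ⟨hv.1.1, hv.2⟩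
  have hn : 1 ≤ n := hm.trans hmn
  have hno : ∀ i j : Fin 6, i ≠ j → ¬ Conn (Op (1 / 2) w ∩ Ann 0 m n) (z i) (z j) := by
    intro i j hij hc
    have hij' : (i : ℕ) ≠ j := fun h => hij (Fin.ext h)
    have hs := sep_dc hn i.2 j.2 hij' (hz i) (hz j) (hq i) (hq j) (huz i).left.1.2
      (huz j).left.1.2 (hrq i).left.1.2 (hrq j).left.1.2
    obtain ⟨v, hv1, hv2⟩ := sep_ann (S := Cl (1 / 2) w ∩ Ann 0 m n)
      (T := Op (1 / 2) w ∩ Ann 0 m n) hm hmn (hq i) (hq j) (hz i) (hz j) hs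
      (fun v hv => mem_ball0.2 (mem_ann0.1 hv.2).2)
      ((hrq i).mono fun v hv => ⟨hv.1.1, hv.2⟩) (hr i).le
      ((hrq j).mono fun v hv => ⟨hv.1.1, hv.2⟩) (hr j).le (fun v hv => hv.2) hc
    have h3 : (1 : ℝ) / 2 < w v := hv1.1
    exact absurd (show w v ≤ 1 / 2 from hv2.1) (not_le.2 h3)
  refine ⟨z, hz, fun i => ⟨u i, hu i, hO i⟩, dbl_of hw (hu 1) (hu 2) (hO 1) (hO 2)
    (hno 1 2 (by decide)), dbl_of hw (hu 4) (hu 5) (hO 4) (hO 5) (hno 4 5 (by decide)),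
    fun i j hij => hno i j fun h => hij (h ▸ rfl), ?_, ?_, ?_, ?_⟩
  · exact sep_z hn (i := 1) (j := 4) (by omega) (by omega) (hz 1) (hz 4) (hz 0) (hz 3)
      (huz 1).left.1.2 (huz 4).left.1.2 (huz 0).left.1.2 (huz 3).left.1.2
  · exact sep_z hn (i := 1) (j := 5) (by omega) (by omega) (hz 1) (hz 5) (hz 0) (hz 3)
      (huz 1).left.1.2 (huz 5).left.1.2 (huz 0).left.1.2 (huz 3).left.1.2
  · exact sep_z hn (i := 2) (j := 4) (by omega) (by omega) (hz 2) (hz 4) (hz 0) (hz 3)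
      (huz 2).left.1.2 (huz 4).left.1.2 (huz 0).left.1.2 (huz 3).left.1.2
  · exact sep_z hn (i := 2) (j := 5) (by omega) (by omega) (hz 2) (hz 5) (hz 0) (hz 3)
      (huz 2).left.1.2 (huz 5).left.1.2 (huz 0).left.1.2 (huz 3).left.1.2

/-- The lower bound for the probability of `EF`. -/
theorem ef_low : ∃ A : ℝ, 0 < A ∧ ∀ (a : ℕ) (m n : ℤ), 16 ≤ m → m ≤ n → n ≤ 2 ^ a * m →
    Real.exp (-A * (a + 1)) ≤ (P {w | EF (1 / 2) m n w}).toReal := by
  obtain ⟨A, hA, h⟩ := twelve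
  refine ⟨A, hA, fun a m n hm hmn hn => (h a m n hm hmn hn).trans ?_⟩
  refine ENNReal.toReal_mono (measure_ne_top P _) (measure_mono_ae ?_)
  filter_upwards [ae_label 0] with w hw hTw
  exact ef_of_tw (fun u v huv => by_contra fun hne => hw.2 u v hne huv) (by omega) hmn hTw

/-- The lower bound for `m ≥ 1` blocks below the outer radius `N`. -/
theorem low_block (K : ℝ) (hK : 1 < K) : ∃ A : ℝ, 0 < A ∧ ∀ m : ℕ, 1 ≤ m →
    ∀ᶠ N : ℝ in Filter.atTop, Real.exp (-A * m) ≤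
      (P {w | EF (1 / 2) (⌊N / K ^ m⌋ + 1) ⌊N⌋ w}).toReal := by
  obtain ⟨A, hA, h⟩ := ef_low
  obtain ⟨κ, hκ⟩ : ∃ κ : ℕ, K ≤ 2 ^ κ := (pow_unbounded_of_one_lt K one_lt_two).imp
    fun n hn => hn.le
  refine ⟨A * (κ + 1), by positivity, fun m hm => ?_⟩
  have hK0 : 0 < K ^ m := by positivity
  have hKm : K ≤ K ^ m := le_self_pow₀ hK.le (by omega)
  have hpos : 0 < 1 - 1 / K ^ m := by
    have : 1 / K ^ m < 1 := (div_lt_one hK0).2 (hK.trans_le hKm)
    linarith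
  filter_upwards [Filter.eventually_ge_atTop (16 * K ^ m),
    Filter.eventually_ge_atTop (2 / (1 - 1 / K ^ m))] with N h1 h2
  have h3 : 16 ≤ N / K ^ m := (le_div_iff₀ hK0).2 h1
  have h4 : (16 : ℤ) ≤ ⌊N / K ^ m⌋ := Int.le_floor.2 (by exact_mod_cast h3)
  have h5 : N / K ^ m + 2 ≤ N := by
    have h6 := (div_le_iff₀ hpos).1 h2
    have h7 : N / K ^ m = N * (1 / K ^ m) := by ring
    rw [h7]
    linarith
  have h6 : ⌊N / K ^ m⌋ + 1 ≤ ⌊N⌋ := by
    rw [Int.le_floor]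
    push_cast
    have := Int.floor_le (N / K ^ m)
    linarith
  have h7 : ⌊N⌋ ≤ 2 ^ (κ * m) * (⌊N / K ^ m⌋ + 1) := by
    have h8 : N < K ^ m * ((⌊N / K ^ m⌋ : ℝ) + 1) := by
      have h9 := Int.lt_floor_add_one (N / K ^ m)
      rw [div_lt_iff₀ hK0] at h9
      linarith
    have h10 : K ^ m ≤ (2 : ℝ) ^ (κ * m) := by
      rw [pow_mul]
      exact pow_le_pow_left₀ (by linarith) hκ m
    have h11 : (0 : ℝ) ≤ (⌊N / K ^ m⌋ : ℝ) + 1 := by
      have : (16 : ℝ) ≤ (⌊N / K ^ m⌋ : ℝ) := by exact_mod_cast h4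
      linarith
    have h12 : (⌊N⌋ : ℝ) ≤ (2 : ℝ) ^ (κ * m) * ((⌊N / K ^ m⌋ : ℝ) + 1) :=
      (Int.floor_le N).trans (h8.le.trans (mul_le_mul_of_nonneg_right h10 h11))
    exact_mod_cast h12
  refine le_trans ?_ (h (κ * m) _ _ (by omega) h6 h7)
  rw [Real.exp_le_exp]
  push_cast
  have h13 : (1 : ℝ) ≤ m := by exact_mod_cast hm
  nlinarith

end Pool.Agent.MSTLim
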