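import Pool.Agent.MSTLim.Defs
import Mathlib.MeasureTheory.Measure.HasOuterApproxClosed

/-!
# The abstract limit passage

Let the laws of `conf (η k)` converge weakly to `μ` along `l` and let `μ` be invariant under the
action of a homeomorphism `g` of the sphere.  Let `O` be an open set of configurations and `A` a
set whose closure is contained in the preimage of `O` under `actO g`.  If the measurable events
`S k` imply `conf (η k) ω ∈ A` and have probability at least `a` frequently, and if the (outer)
probability of `conf (η k) ω ∈ O` is eventually at most `b`, then `a ≤ b`.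
-/

namespace Pool.Agent.MSTLim

open MeasureTheory Filter Topology Set
open scoped NNReal ENNReal BoundedContinuousFunction
open Pool.Agent.TriPerc (V Adj Lab P)

variable {ι : Type} {l : Filter ι} {η : ι → ℝ} {μ : Measure Om}

/-- The limit has total mass `1`. -/
theorem TendsLaw.univ [l.NeBot] (h : TendsLaw l η μ) : μ univ = 1 := by
  have h1 := h 1
  simp only [BoundedContinuousFunction.coe_one, Pi.one_apply, ENNReal.coe_one,
    lintegral_one, measure_univ] at h1
  exact (tendsto_nhds_unique h1 tendsto_const_nhds)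

/-- The complement of a thickened indicator. -/
private noncomputable def inner (δ : ℝ) (hδ : 0 < δ) (C : Set Om) : Om →ᵇ ℝ≥0 where
  toFun x := 1 - thickenedIndicator hδ C x
  continuous_toFun := by
    have := (thickenedIndicator hδ C).continuous
    fun_prop
  map_bounded' := by
    refine ⟨1, fun x y => ?_⟩
    rw [NNReal.dist_eq, abs_sub_le_iff]
    have h1 : ((1 - thickenedIndicator hδ C x : ℝ≥0) : ℝ) ≤ 1 := by
      exact_mod_cast tsub_le_self
    have h2 : ((1 - thickenedIndicator hδ C y : ℝ≥0) : ℝ) ≤ 1 := by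
      exact_mod_cast tsub_le_self
    have h3 := (1 - thickenedIndicator hδ C x : ℝ≥0).coe_nonneg
    have h4 := (1 - thickenedIndicator hδ C y : ℝ≥0).coe_nonneg
    constructor <;> linarith

/-- Open sets: the limit is at most the outer probabilities. -/
theorem TendsLaw.open_le [l.NeBot] (h : TendsLaw l η μ) {O : Set Om} (hO : IsOpen O) {b : ℝ≥0∞}
    (hb : ∀ᶠ k in l, P {ω | conf (η k) ω ∈ O} ≤ b) : μ O ≤ b := by
  have hpos : ∀ n : ℕ, (0 : ℝ) < 1 / (n + 1) := fun n => by positivity
  have hlim : Tendsto (fun n : ℕ => (1 : ℝ) / (n + 1)) atTop (𝓝 0) :=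
    tendsto_one_div_add_atTop_nhds_zero_nat
  let F : ℕ → Om →ᵇ ℝ≥0 := fun n => inner _ (hpos n) Oᶜ
  have hF : ∀ n, ∫⁻ x, F n x ∂μ ≤ b := by
    intro n
    refine le_of_tendsto (h (F n)) (hb.mono fun k hk => ?_)
    refine le_trans (le_trans (lintegral_mono fun ω => ?_) (lintegral_indicator_one_le _)) hk
    by_cases hω : conf (η k) ω ∈ O
    · rw [indicator_of_mem (by exact hω)]
      have : F n (conf (η k) ω) ≤ 1 := tsub_le_self
      rw [Pi.one_apply]
      exact ENNReal.coe_le_one_iff.mpr this
    · have h1 : thickenedIndicator (hpos n) Oᶜ (conf (η k) ω) = 1 :=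
        thickenedIndicator_one _ _ hω
      have : F n (conf (η k) ω) = 0 := by
        change 1 - thickenedIndicator (hpos n) Oᶜ (conf (η k) ω) = 0
        rw [h1]
        simp
      rw [this]
      simp
  have hpt : ∀ x, Tendsto (fun n => (F n x : ℝ≥0∞)) atTop (𝓝 (O.indicator 1 x)) := by
    intro x
    have h1 := thickenedIndicator_tendsto_indicator_closure hpos hlim Oᶜ
    rw [hO.isClosed_compl.closure_eq, tendsto_pi_nhds] at h1
    have h2 := (tendsto_const_nhds (x := (1 : ℝ≥0))).sub (h1 x)
    have h3 : (1 : ℝ≥0) - Oᶜ.indicator (fun _ => 1) x = O.indicator (fun _ => 1) x := by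
      by_cases hx : x ∈ O
      · rw [indicator_of_mem hx, indicator_of_notMem (by simpa using hx), tsub_zero]
      · rw [indicator_of_notMem hx, indicator_of_mem (by simpa using hx), tsub_self]
    rw [h3] at h2
    have h4 := (ENNReal.tendsto_coe.mpr h2)
    have h5 : ((O.indicator (fun _ => (1 : ℝ≥0)) x : ℝ≥0) : ℝ≥0∞) = O.indicator 1 x := by
      by_cases hx : x ∈ O
      · rw [indicator_of_mem hx, indicator_of_mem hx]; simp
      · rw [indicator_of_notMem hx, indicator_of_notMem hx]; simp
    rw [h5] at h4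
    exact h4
  calc μ O = ∫⁻ x, O.indicator 1 x ∂μ := (lintegral_indicator_one hO.measurableSet).symm
    _ = ∫⁻ x, liminf (fun n => (F n x : ℝ≥0∞)) atTop ∂μ := by
        refine lintegral_congr fun x => ?_
        exact (hpt x).liminf_eq.symm
    _ ≤ liminf (fun n => ∫⁻ x, F n x ∂μ) atTop :=
        lintegral_liminf_le fun n => (F n).continuous.measurable.coe_nnreal_ennreal
    _ ≤ b := by
        refine liminf_le_of_le ?_ ?_
        · isBoundedDefault
        · intro c hc
          obtain ⟨n, hn⟩ := hc.exists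
          exact hn.trans (hF n)

/-- Closed sets: the limit is at least the probabilities. -/
theorem TendsLaw.le_closed [l.NeBot] (h : TendsLaw l η μ) {C : Set Om} (hC : IsClosed C)
    {S : ι → Set Lab} (hS : ∀ k, MeasurableSet (S k))
    (hSC : ∀ᶠ k in l, ∀ ω ∈ S k, conf (η k) ω ∈ C) {a : ℝ≥0∞}
    (ha : ∃ᶠ k in l, a ≤ P (S k)) : a ≤ μ C := by
  have : IsFiniteMeasure μ := ⟨by rw [h.univ]; exact ENNReal.one_lt_top⟩
  have hpos : ∀ n : ℕ, (0 : ℝ) < 1 / (n + 1) := fun n => by positivity
  have hlim : Tendsto (fun n : ℕ => (1 : ℝ) / (n + 1)) atTop (𝓝 0) :=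
    tendsto_one_div_add_atTop_nhds_zero_nat
  refine ge_of_tendsto (tendsto_lintegral_thickenedIndicator_of_isClosed μ hC hpos hlim)
    (Eventually.of_forall fun n => ?_)
  refine ge_of_tendsto_of_frequently (h (thickenedIndicator (hpos n) C)) ?_
  refine (ha.and_eventually hSC).mono fun k hk => hk.1.trans ?_
  rw [← lintegral_indicator_one (hS k)]
  refine lintegral_mono fun ω => ?_
  by_cases hω : ω ∈ S k
  · rw [indicator_of_mem hω]
    have : thickenedIndicator (hpos n) C (conf (η k) ω) = 1 :=
      thickenedIndicator_one _ _ (hk.2 ω hω)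
    rw [this]
    simp
  · rw [indicator_of_notMem hω]
    exact zero_le

/-- The abstract limit passage. -/
theorem reduction [l.NeBot] (h : TendsLaw l η μ) (g : Sph ≃ₜ Sph) (hg : μ.map (actO g) = μ)
    {O A : Set Om} (hO : IsOpen O) (hA : closure A ⊆ actO g ⁻¹' O)
    {S : ι → Set Lab} (hS : ∀ k, MeasurableSet (S k))
    (hSA : ∀ᶠ k in l, ∀ ω ∈ S k, conf (η k) ω ∈ A) {a b : ℝ≥0∞}
    (hb : ∀ᶠ k in l, P {ω | conf (η k) ω ∈ O} ≤ b) (ha : ∃ᶠ k in l, a ≤ P (S k)) : a ≤ b := by
  calc a ≤ μ (closure A) := h.le_closed isClosed_closure hS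
        (hSA.mono fun k hk ω hω => subset_closure (hk ω hω)) ha
    _ ≤ μ (actO g ⁻¹' O) := measure_mono hA
    _ = μ.map (actO g) O := (Measure.map_apply (continuous_actO g).measurable
        hO.measurableSet).symm
    _ = μ O := by rw [hg]
    _ ≤ b := h.open_le hO hb

end Pool.Agent.MSTLim
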