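import Pool.Agent.MSTLim.Inv
import Pool.Agent.MSTLim.Red
import Mathlib.Order.CompletePartialOrder

/-!
# From the lattice gap to the non-invariance of the limit

`PP ω a b`: the minimal spanning tree of the lattice has the weak pattern `P` in the annulus with
the (lattice) radii `a < b`.  `PQ e ω a b`: it has the strong pattern `P'` with margin `e`.
`OP r R`: open set of configurations (pattern `P` between the radii `r < R` of the plane).
`SP e r R`: configurations with the strong pattern.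

`Gap K PP PQ`: for every filter `F` of outer radii which goes to infinity and is stable under
division by `K` there are a number `n` of blocks, a margin `e` and numbers `b < a` such that the
probability of `PP` in the annulus `(2 N / K ^ n, N / 2)` is eventually at most `b` and the
probability of `PQ e` in the annulus `(N / (2 K ^ n), 2 N)` is frequently at least `a`.

`glue_seq`: then no limit in law along a sequence of meshes is conformally invariant.
`glue_full`: the limit in law along all meshes is not invariant under `z ↦ 1 / z`.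
-/

namespace Pool.Agent.MSTLim

open MeasureTheory Filter Topology Set
open scoped NNReal ENNReal BoundedContinuousFunction
open Pool.Agent.TriPerc (V Adj Lab P)

/-- The lattice gap. -/
def Gap (K : ℝ) (PP : Lab → ℝ → ℝ → Prop) (PQ : ℝ → Lab → ℝ → ℝ → Prop) : Prop :=
  ∀ F : Filter ℝ, F.NeBot → F ≤ atTop → Tendsto (fun N => N / K) F F →
    ∃ (n : ℕ) (e : ℝ) (a b : ℝ≥0∞), 1 ≤ n ∧ 0 < e ∧ b < a ∧
      (∀ᶠ N in F, P {ω | PP ω (2 * (N / K ^ n)) (N / 2)} ≤ b) ∧
      ∃ᶠ N in F, ∃ S : Set Lab, MeasurableSet S ∧ a ≤ P S ∧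
        ∀ ω ∈ S, PQ e ω (N / K ^ n / 2) (2 * N)

/-- The relation between the patterns of the configurations and of the lattice. -/
structure Bridge (PP : Lab → ℝ → ℝ → Prop) (PQ : ℝ → Lab → ℝ → ℝ → Prop)
    (OP : ℝ → ℝ → Set Om) (SP : ℝ → ℝ → ℝ → Set Om) : Prop where
  isOpen : ∀ r R, IsOpen (OP r R)
  closure_sub : ∀ e r R, 0 < e → 0 < r → r < R → closure (SP e r R) ⊆ OP r R
  weak : ∀ r R, 0 < r → r < R → ∀ᶠ η in 𝓝[>] (0 : ℝ), ∀ ω, conf η ω ∈ OP r R →
    PP ω (2 * (r / η)) (R / η / 2)
  strong : ∀ e r R, 0 < e → ∀ (hr : 0 < r) (hR : r < R), ∃ e' : ℝ, 0 < e' ∧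
    ∀ᶠ η in 𝓝[>] (0 : ℝ), ∀ ω, PQ e ω (r / η / 2) (2 * (R / η)) →
      actO (inv (r * R) (mul_pos hr (hr.trans hR))) (conf η ω) ∈ SP e' r R

variable {PP : Lab → ℝ → ℝ → Prop} {PQ : ℝ → Lab → ℝ → ℝ → Prop}
  {OP : ℝ → ℝ → Set Om} {SP : ℝ → ℝ → ℝ → Set Om}

/-- The contradiction at one position. -/
theorem glue_one (hb : Bridge PP PQ OP SP) {ι : Type} {l : Filter ι} [l.NeBot] {η : ι → ℝ}
    {μ : Measure Om} (h : TendsLaw l η μ) (hη : Tendsto η l (𝓝[>] 0)) {r R : ℝ} (hr : 0 < r)
    (hR : r < R) (hg : μ.map (actO (inv (r * R) (mul_pos hr (hr.trans hR)))) = μ)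
    {e : ℝ} (he : 0 < e) {a b : ℝ≥0∞}
    (h1 : ∀ᶠ k in l, P {ω | PP ω (2 * (r / η k)) (R / η k / 2)} ≤ b)
    (h2 : ∃ᶠ k in l, ∃ S : Set Lab, MeasurableSet S ∧ a ≤ P S ∧
      ∀ ω ∈ S, PQ e ω (r / η k / 2) (2 * (R / η k))) : a ≤ b := by
  classical
  obtain ⟨e', he', hs⟩ := hb.strong e r R he hr hR
  set g := inv (r * R) (mul_pos hr (hr.trans hR)) with hgdef
  let Q : ι → Set Lab → Prop := fun k S => MeasurableSet S ∧ a ≤ P S ∧
    ∀ ω ∈ S, PQ e ω (r / η k / 2) (2 * (R / η k))
  let S : ι → Set Lab := fun k => if hk : ∃ S, Q k S then hk.choose else ∅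
  have hS : ∀ k, MeasurableSet (S k) := by
    intro k
    by_cases hk : ∃ S, Q k S
    · simp only [S, hk, dif_pos]
      exact hk.choose_spec.1
    · simp only [S, hk, dif_neg, not_false_eq_true]
      exact MeasurableSet.empty
  have hSQ : ∀ k, ∀ ω ∈ S k, PQ e ω (r / η k / 2) (2 * (R / η k)) := by
    intro k ω hω
    by_cases hk : ∃ S, Q k S
    · simp only [S, hk, dif_pos] at hω
      exact hk.choose_spec.2.2 ω hω
    · simp only [S, hk, dif_neg, not_false_eq_true] at hω
      exact hω.elim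
  refine reduction h g hg (O := OP r R) (A := actO g ⁻¹' SP e' r R) (hb.isOpen r R) ?_ hS ?_ ?_ ?_
  · refine closure_minimal ?_ ?_ |>.trans
      (preimage_mono (hb.closure_sub e' r R he' hr hR))
    · exact preimage_mono subset_closure
    · exact isClosed_closure.preimage (continuous_actO g)
  · filter_upwards [hη.eventually hs] with k hk ω hω
    exact hk ω (hSQ k ω hω)
  · filter_upwards [hη.eventually (hb.weak r R hr hR), h1] with k hk hk1
    exact (measure_mono fun ω hω => hk ω hω).trans hk1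
  · refine h2.mono fun k hk => ?_
    have hk' : ∃ S, Q k S := hk
    simp only [S, hk', dif_pos]
    exact hk'.choose_spec.2.1

/-- No limit in law along a sequence of meshes is conformally invariant. -/
theorem glue_seq {K : ℝ} (hK : 1 < K) (hb : Bridge PP PQ OP SP) (hgap : Gap K PP PQ)
    {η : ℕ → ℝ} (hη : ∀ k, 0 < η k) (hη0 : Tendsto η atTop (𝓝 0)) {μ : Measure Om}
    (h : TendsLaw atTop η μ) : ¬ ConfInv μ := by
  intro hinv
  have hK0 : 0 < K := one_pos.trans hK
  have hη' : Tendsto η atTop (𝓝[>] 0) :=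
    tendsto_nhdsWithin_iff.mpr ⟨hη0, Eventually.of_forall hη⟩
  let N : ℕ → ℕ → ℝ := fun j k => (K ^ j)⁻¹ / η k
  let F : Filter ℝ := ⨆ j, Filter.map (N j) atTop
  have hN : ∀ j, Tendsto (N j) atTop atTop := fun j =>
    (tendsto_inv_nhdsGT_zero.comp hη').const_mul_atTop (by positivity)
  have hF0 : F.NeBot := by
    refine Filter.NeBot.mono (f := Filter.map (N 0) atTop) inferInstance
      (le_iSup (fun j => Filter.map (N j) atTop) 0)
  have hF1 : F ≤ atTop := iSup_le hN
  have hF2 : Tendsto (fun N => N / K) F F := by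
    refine tendsto_iSup.mpr fun j => ?_
    refine le_trans ?_ (le_iSup (fun j => Filter.map (N j) atTop) (j + 1))
    rw [Filter.map_map]
    refine le_of_eq (congrArg (fun f => Filter.map f atTop) ?_)
    funext k
    simp only [Function.comp, N]
    rw [pow_succ, mul_inv]
    ring
  obtain ⟨n, e, a, b, hn, he, hab, hw, hs⟩ := hgap F hF0 hF1 hF2
  have hs' : ∃ j, ∃ᶠ k in atTop, ∃ S : Set Lab, MeasurableSet S ∧ a ≤ P S ∧
      ∀ ω ∈ S, PQ e ω (N j k / K ^ n / 2) (2 * N j k) := by
    by_contra hcon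
    push Not at hcon
    apply hs
    rw [Filter.eventually_iSup]
    intro j
    refine Filter.eventually_map.mpr ?_
    filter_upwards [hcon j] with k hk hS
    obtain ⟨S, h1, h2, h3⟩ := hS
    obtain ⟨ω, hω, hn⟩ := hk S h1 h2
    exact hn (h3 ω hω)
  obtain ⟨j, hj⟩ := hs'
  have hw' : ∀ᶠ k in atTop, P {ω | PP ω (2 * (N j k / K ^ n)) (N j k / 2)} ≤ b :=
    (Filter.eventually_iSup.mp hw j)
  have hR0 : 0 < (K ^ j)⁻¹ := by positivity
  have hrR : (K ^ j)⁻¹ / K ^ n < (K ^ j)⁻¹ :=
    div_lt_self hR0 (one_lt_pow₀ hK (by omega))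
  have hr0 : 0 < (K ^ j)⁻¹ / K ^ n := by positivity
  have e1 : ∀ k, (K ^ j)⁻¹ / K ^ n / η k = N j k / K ^ n := fun k => by
    simp only [N]
    ring
  refine absurd (glue_one hb h hη' hr0 hrR ?_ he (a := a) (b := b) ?_ ?_) (not_le.mpr hab)
  · exact hinv _ (inv_moebius _)
  · simpa only [e1] using hw'
  · simpa only [e1] using hj

/-- The limit in law along all meshes is not invariant under `z ↦ 1 / z`. -/
theorem glue_full {K : ℝ} (hK : 1 < K) (hb : Bridge PP PQ OP SP) (hgap : Gap K PP PQ)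
    {μ : Measure Om} (h : TendsLaw (𝓝[>] (0 : ℝ)) id μ) :
    μ.map (actO (inv 1 one_pos)) ≠ μ := by
  intro hinv
  have hK0 : 0 < K := one_pos.trans hK
  have hF2 : Tendsto (fun N : ℝ => N / K) atTop atTop := tendsto_id.atTop_div_const hK0
  obtain ⟨n, e, a, b, hn, he, hab, hw, hs⟩ := hgap atTop inferInstance le_rfl hF2
  have hKn : 1 < K ^ n := one_lt_pow₀ hK (by omega)
  set R : ℝ := √(K ^ n) with hRdef
  have hRR : R * R = K ^ n := Real.mul_self_sqrt (by positivity)
  have hR0 : 0 < R := Real.sqrt_pos.mpr (by positivity)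
  have hr0 : 0 < R / K ^ n := by positivity
  have hrR : R / K ^ n < R := div_lt_self hR0 hKn
  have hc : R / K ^ n * R = 1 := by
    rw [div_mul_eq_mul_div, hRR]
    exact div_self (by positivity)
  have hN : Tendsto (fun η : ℝ => R / η) (𝓝[>] 0) atTop :=
    (tendsto_inv_nhdsGT_zero).const_mul_atTop hR0
  have hmap : Filter.map (fun η : ℝ => R / η) (𝓝[>] 0) = atTop := by
    refine le_antisymm hN ?_
    have h1 : Tendsto (fun N : ℝ => R / N) atTop (𝓝[>] 0) := by
      refine tendsto_nhdsWithin_iff.mpr ⟨tendsto_const_nhds.div_atTop tendsto_id, ?_⟩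
      filter_upwards [eventually_gt_atTop 0] with N hN
      exact div_pos hR0 hN
    calc (atTop : Filter ℝ) = Filter.map id atTop := Filter.map_id.symm
      _ ≤ Filter.map (fun η : ℝ => R / η) (Filter.map (fun N : ℝ => R / N) atTop) := by
          rw [Filter.map_map]
          refine Filter.map_congr ?_ |>.le
          filter_upwards [eventually_gt_atTop 0] with N hN
          simp only [id, Function.comp]
          field_simp
      _ ≤ Filter.map (fun η : ℝ => R / η) (𝓝[>] 0) := Filter.map_mono h1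
  rw [← hmap] at hw hs
  have e1 : ∀ k : ℝ, R / K ^ n / k = R / k / K ^ n := fun k => by ring
  refine absurd (glue_one hb h tendsto_id hr0 hrR ?_ he (a := a) (b := b) ?_ ?_)
    (not_le.mpr hab)
  · convert hinv using 3
    congr 1
  · have := Filter.eventually_map.mp hw
    simpa only [e1, id] using this
  · have := Filter.frequently_map.mp hs
    simpa only [e1, id] using this

end Pool.Agent.MSTLim
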