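import Pool.Agent.MSTLim.Expo
import Pool.Agent.MSTLim.Glue

/-!
# The master theorem: the three inputs and the conclusion

`g m N` is the probability of the event `E_F` (four crossing clusters, two of them doubled) in the
`m` blocks below the outer radius `N`.
* `Basic K A g`: `0 ≤ g ≤ 1`, submultiplicativity, lower bound `exp (- A m)`;
* `PartN K PP g`: the weak pattern `P` costs the exponent of `g`;
* `PartG K PQ g`: the strong pattern `P'` has an exponent which is strictly smaller.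
Together they give the lattice gap `Gap K PP PQ`, hence with `Bridge` the theorem.
-/

namespace Pool.Agent.MSTLim

open MeasureTheory Filter Topology Set
open scoped NNReal ENNReal
open Pool.Agent.TriPerc (V Adj Lab P)

/-- A filter of outer radii which is stable under division by `K`. -/
structure Good (K : ℝ) (F : Filter ℝ) : Prop where
  neBot : F.NeBot
  le_atTop : F ≤ atTop
  stable : Tendsto (fun N => N / K) F F

/-- The elementary properties of the probabilities `g m N`. -/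
structure Basic (K A : ℝ) (g : ℕ → ℝ → ℝ) : Prop where
  nonneg : ∀ m N, 0 ≤ g m N
  le_one : ∀ m N, g m N ≤ 1
  low : ∀ m : ℕ, ∀ᶠ N in atTop, Real.exp (-A * m) ≤ g m N
  sub : ∀ m m', ∀ᶠ N in atTop, g (m + m') N ≤ g m N * g m' (N / K ^ m)

/-- The upper bound with the exponent `α` along `F`. -/
def UpB (K : ℝ) (g : ℕ → ℝ → ℝ) (F : Filter ℝ) (α : ℝ) : Prop :=
  ∀ ε > 0, ∃ C : ℝ, 1 ≤ C ∧ ∀ n : ℕ, ∀ᶠ N in F, ∀ m ≤ n, ∀ j ≤ n,
    g m (N / K ^ j) ≤ C * Real.exp (-(α - ε) * m)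

/-- The lower bound with the exponent `α` along `F`. -/
def LoB (g : ℕ → ℝ → ℝ) (F : Filter ℝ) (α : ℝ) : Prop :=
  ∀ n : ℕ, ∃ᶠ N in F, Real.exp (-α * n) / 2 ≤ g n N

/-- (N): the weak pattern costs the exponent of `g`. -/
def PartN (K : ℝ) (PP : Lab → ℝ → ℝ → Prop) (g : ℕ → ℝ → ℝ) : Prop :=
  ∀ F : Filter ℝ, Good K F → ∀ α : ℝ, 0 ≤ α → UpB K g F α → ∀ ε > 0, ∃ n₀ : ℕ, ∀ n ≥ n₀,
    ∀ᶠ N in F, P {ω | PP ω (2 * (N / K ^ n)) (N / 2)} ≤ ENNReal.ofReal (Real.exp (-(α - ε) * n))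

/-- (G) and (S): the strong pattern `P'` has a strictly smaller exponent (for infinitely many
`n`). -/
def PartG (K : ℝ) (PQ : ℝ → Lab → ℝ → ℝ → Prop) (g : ℕ → ℝ → ℝ) : Prop :=
  ∀ F : Filter ℝ, Good K F → ∀ α : ℝ, 0 ≤ α → UpB K g F α → LoB g F α →
    ∃ c : ℝ, 0 < c ∧ ∀ n₀ : ℕ, ∃ n ≥ n₀, ∃ e : ℝ, 0 < e ∧ ∃ᶠ N in F, ∃ S : Set Lab,
      MeasurableSet S ∧ ENNReal.ofReal (Real.exp (-(α - c) * n)) ≤ P S ∧
        ∀ ω ∈ S, PQ e ω (N / K ^ n / 2) (2 * N)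

variable {PP : Lab → ℝ → ℝ → Prop} {PQ : ℝ → Lab → ℝ → ℝ → Prop}
  {OP : ℝ → ℝ → Set Om} {SP : ℝ → ℝ → ℝ → Set Om} {g : ℕ → ℝ → ℝ} {K A : ℝ}

/-- The lattice gap. -/
theorem gap_of (hg : Basic K A g) (hN : PartN K PP g) (hG : PartG K PQ g) : Gap K PP PQ := by
  intro F hF1 hF2 hF3
  have hF : Good K F := ⟨hF1, hF2, hF3⟩
  obtain ⟨α, hα0, -, hup, hlo⟩ := expo (g := g) (F := F) (K := K) (A := A) hF3 hg.le_one
    (fun m => (hg.low m).filter_mono hF2) (fun m m' => (hg.sub m m').filter_mono hF2) hg.nonneg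
  obtain ⟨c, hc, h1⟩ := hG F hF α hα0 hup hlo
  obtain ⟨n₂, h2⟩ := hN F hF α hα0 hup (c / 2) (half_pos hc)
  obtain ⟨n, hn, e, he, h3⟩ := h1 (max n₂ 1)
  refine ⟨n, e, _, _, by omega, he, ?_, h2 _ (by omega), h3⟩
  rw [ENNReal.ofReal_lt_ofReal_iff (Real.exp_pos _), Real.exp_lt_exp]
  have : (0 : ℝ) < (n : ℝ) := by
    exact_mod_cast (by omega : 0 < n)
  nlinarith

/-- The master theorem for sequences of meshes. -/
theorem master_seq (hK : 1 < K) (hb : Bridge PP PQ OP SP) (hg : Basic K A g)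
    (hN : PartN K PP g) (hG : PartG K PQ g) {η : ℕ → ℝ} (hη : ∀ k, 0 < η k)
    (hη0 : Tendsto η atTop (𝓝 0)) {μ : Measure Om} (h : TendsLaw atTop η μ) : ¬ ConfInv μ :=
  glue_seq hK hb (gap_of hg hN hG) hη hη0 h

/-- The master theorem for all meshes. -/
theorem master_full (hK : 1 < K) (hb : Bridge PP PQ OP SP) (hg : Basic K A g)
    (hN : PartN K PP g) (hG : PartG K PQ g) {μ : Measure Om}
    (h : TendsLaw (𝓝[>] (0 : ℝ)) id μ) : μ.map (actO (inv 1 one_pos)) ≠ μ :=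
  glue_full hK hb (gap_of hg hN hG) h

end Pool.Agent.MSTLim
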