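import Pool.Agent.MSTLim.GDef
import Pool.Agent.MSTLim.Low
import Pool.Agent.MSTLim.Main

/-!
# The elementary properties of `gF`
-/

namespace Pool.Agent.MSTLim

open MeasureTheory Set Filter
open Pool.Agent.TriPerc Pool.Agent.MST

/-- `gF` satisfies `Basic`. -/
theorem basicG {K : ℝ} (hK : 1 < K) : ∃ A : ℝ, Basic K A (gF K) := by
  obtain ⟨A, hA, h⟩ := low_block K hK
  refine ⟨A, gF_nonneg K, gF_le_one K, fun m => ?_, gF_sub hK⟩
  rcases Nat.eq_zero_or_pos m with rfl | hm
  · refine Eventually.of_forall fun N => ?_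
    simp [gF]
  · filter_upwards [h m hm] with N hN
    unfold gF
    rw [if_neg hm.ne']
    exact hN

end Pool.Agent.MSTLim
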