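import Pool.Agent.MSTLim.ExtQA
import Pool.Agent.MSTLim.Pat

/-!
# From the strong pattern to a certificate of the inverted curve

`radOf r R`: the radii `r`, `59/50 R`, `61/50 R`, `8/5 R`, `9/5 R`.

`scert_of_ps`.  Put `κ = r R`, `a = r / η / 2`, `b = 2 (R / η)`.  The part `f[i, j]` of
`f[w1, w2]` and the time `s` are given by `ps_wi`.  The times of the certificate are
`t0 = w0 / n, al / n, m1 = u1 / n, t1 = i / n, m2 = s / n, t2 = j / n, m3 = u3 / n, be / n,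
t3 = w3 / n`.  Write `z t = η poly f n t`.  Heights by `ht_inv` and `hi_ge`, `hi_le`:
* `w0, w3`: `‖z‖ ≤ η a = r / 2`;  `i, j`: `‖z‖ ≤ 4 r / 5`;  `u1, s, u3`: `‖z‖ ≥ √3 R`;
* `[al, u1]` and `[u3, be]`: `‖z t‖ ≥ √3 / 2 r - η`;  `[i, j]`: `‖z t‖ ≥ 2 √3 / 5 r - η`.
Distances: `pl_inv`, `dist_inv` with `x0 = η emb (f al)`.
-/

namespace Pool.Agent.MSTLim

open Pool.Agent.TriPerc Set Filter Topology

/-- The five radii. -/
noncomputable def radOf (r R : ℝ) (h : 0 < r ∧ r < R) : Rad where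
  r := r
  R1 := 59 / 50 * R
  R := 61 / 50 * R
  R2 := 8 / 5 * R
  R3 := 9 / 5 * R
  h0 := h.1
  h1 := by linarith [h.1, h.2]
  h2 := by linarith [h.1, h.2]
  h3 := by linarith [h.1, h.2]
  h4 := by linarith [h.1, h.2]

private theorem eq_low (v : V) : 433 / 500 * (nrm v : ℝ) ≤ ‖emb v‖ := by
  have h1 := nrm_le_emb v
  have h2 : (0 : ℝ) ≤ nrm v := by
    have := norm_nonneg (emb v)
    exact this.trans (emb_le_nrm v)
  have h3 : (433 / 250 : ℝ) ≤ Real.sqrt 3 := Real.le_sqrt_of_sq_le (by norm_num)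
  have h4 : 433 / 500 * (nrm v : ℝ) ≤ Real.sqrt 3 / 2 * (nrm v : ℝ) :=
    mul_le_mul_of_nonneg_right (by linarith) h2
  exact h4.trans h1

private theorem eq_time {n i j : ℕ} {t : ℝ} (hn : 0 < n) (hj : j ≤ n)
    (ht : t ∈ Icc ((i : ℝ) / n) ((j : ℝ) / n)) :
    t ∈ Icc (0 : ℝ) 1 ∧ (i : ℝ) ≤ n * t ∧ n * t ≤ j ∧ i ≤ ⌊n * t⌋₊ ∧ ⌊n * t⌋₊ ≤ j := by
  have hn' : (0 : ℝ) < n := by exact_mod_cast hn
  have hj' : (j : ℝ) ≤ n := by exact_mod_cast hj
  obtain ⟨h1, h2⟩ := ht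
  have h3 : (i : ℝ) ≤ n * t := by
    rw [div_le_iff₀ hn'] at h1
    linarith
  have h4 : n * t ≤ j := by
    rw [le_div_iff₀ hn'] at h2
    linarith
  have h5 : 0 ≤ t := by
    refine le_trans ?_ h1
    positivity
  refine ⟨⟨h5, ?_⟩, h3, h4, Nat.le_floor h3, ?_⟩
  · exact h2.trans ((div_le_one hn').2 hj')
  · have := Nat.floor_le_floor h4
    rwa [Nat.floor_natCast] at this

private theorem eq_far {f : ℕ → V} {n i j : ℕ} {t c : ℝ} {x : ℂ} (hn : 0 < n) (hj : j ≤ n)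
    (hadj : ∀ k < n, Adj (f k) (f (k + 1))) (ht : t ∈ Icc ((i : ℝ) / n) ((j : ℝ) / n))
    (h : ∀ k, i ≤ k → k ≤ j → c ≤ ‖emb (f k) - x‖) : c - 1 ≤ ‖poly f n t - x‖ := by
  obtain ⟨h1, -, -, h4, h5⟩ := eq_time hn hj ht
  have h6 := poly_floor hadj h1
  have h7 := h _ h4 h5
  have h8 : ‖emb (f ⌊n * t⌋₊) - x‖ ≤ ‖poly f n t - x‖ + ‖poly f n t - emb (f ⌊n * t⌋₊)‖ := by
    rw [show emb (f ⌊n * t⌋₊) - x = (poly f n t - x) - (poly f n t - emb (f ⌊n * t⌋₊)) by ring]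
    exact norm_sub_le _ _
  linarith

private theorem eq_open {f : ℕ → V} {n i j : ℕ} {t c : ℝ} (hn : 0 < n) (hj : j ≤ n)
    (hij : i + 1 < j) (hadj : ∀ k < n, Adj (f k) (f (k + 1)))
    (ht : t ∈ Icc ((i : ℝ) / n) ((j : ℝ) / n))
    (h : ∀ k, i < k → k < j → c ≤ ‖emb (f k)‖) : c - 1 ≤ ‖poly f n t‖ := by
  obtain ⟨h1, h2, h3, h4, h5⟩ := eq_time hn hj ht
  have hn' : (0 : ℝ) < n := by exact_mod_cast hn
  have key : ∃ k, i < k ∧ k < j ∧ ‖poly f n t - emb (f k)‖ ≤ 1 := by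
    rcases lt_or_ge (n * t) (i + 1 : ℝ) with h6 | h6
    · rcases h2.lt_or_eq with h7 | h7
      · refine ⟨⌈n * t⌉₊, Nat.lt_ceil.2 h7, ?_, poly_ceil hadj h1⟩
        have : ⌈n * t⌉₊ ≤ i + 1 := Nat.ceil_le.2 (by push_cast; exact h6.le)
        omega
      · refine ⟨i + 1, by omega, hij, ?_⟩
        have e : t = (i : ℝ) / n := by
          rw [h7]
          field_simp
        rw [e, poly_at hn (by omega), norm_sub_rev, norm_emb_adj (hadj i (by omega))]
    · rcases h3.lt_or_eq with h7 | h7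
      · refine ⟨⌊n * t⌋₊, ?_, ?_, poly_floor hadj h1⟩
        · have : i + 1 ≤ ⌊n * t⌋₊ := Nat.le_floor (by push_cast; exact h6)
          omega
        · exact (Nat.floor_lt (mul_nonneg (Nat.cast_nonneg _) h1.1)).2 h7
      · refine ⟨j - 1, by omega, by omega, ?_⟩
        have e : t = (j : ℝ) / n := by
          rw [← h7]
          field_simp
        have e2 : j = (j - 1) + 1 := by omega
        rw [e, poly_at hn (by omega)]
        have e3 := norm_emb_adj (hadj (j - 1) (by omega))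
        rw [← e2] at e3
        exact e3.le
  obtain ⟨k, k1, k2, k3⟩ := key
  have h7 := h k k1 k2
  have h8 : ‖emb (f k)‖ ≤ ‖poly f n t‖ + ‖poly f n t - emb (f k)‖ := by
    calc ‖emb (f k)‖ = ‖poly f n t - (poly f n t - emb (f k))‖ := by congr 1; ring
      _ ≤ _ := norm_sub_le _ _
  linarith

theorem scert_of_ps{e r R : ℝ} (h : 0 < r ∧ r < R) (he : 0 < e) :
    ∃ δ > 0, ∀ᶠ η in 𝓝[>] (0 : ℝ), ∀ ω, PS e ω (r / η / 2) (2 * (R / η)) →
      ∃ f n, TreePath ω f n ∧ SCert (radOf r R h) δ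
        (act (inv (r * R) (mul_pos h.1 (h.1.trans h.2))) (cur η f n)) := by
  obtain ⟨hr0, hrR⟩ := h
  have hR0 : 0 < R := hr0.trans hrR
  have hκ : 0 < r * R := mul_pos hr0 hR0
  have d1 : 0 < hr (2 * R) - hr (9 / 5 * R) := sub_pos.2 <|
    (hr_lt (by positivity) (by positivity)).2 (by linarith)
  have d2 : 0 < hr r - hr (3 / 5 * r) := sub_pos.2 <|
    (hr_lt (by positivity) (by positivity)).2 (by linarith)
  have d3 : 0 < hr (5 / 4 * R) - hr (61 / 50 * R) := sub_pos.2 <|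
    (hr_lt (by positivity) (by positivity)).2 (by linarith)
  have d4 : 0 < hr (59 / 50 * R) - hr (29 / 25 * R) := sub_pos.2 <|
    (hr_lt (by positivity) (by positivity)).2 (by linarith)
  have d5 : 0 < hr (8 / 5 * R) - hr (31 / 20 * R) := sub_pos.2 <|
    (hr_lt (by positivity) (by positivity)).2 (by linarith)
  have d6 : 0 < min (r * e / 4) (r * e ^ 3 / 8) := by positivity
  obtain ⟨δ, hδ0, hδ1, hδ2, hδ3, hδ4, hδ5, hδ6⟩ : ∃ δ : ℝ, 0 < δ ∧
      δ ≤ hr (2 * R) - hr (9 / 5 * R) ∧ δ ≤ hr r - hr (3 / 5 * r) ∧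
      δ ≤ hr (5 / 4 * R) - hr (61 / 50 * R) ∧ δ ≤ hr (59 / 50 * R) - hr (29 / 25 * R) ∧
      δ ≤ hr (8 / 5 * R) - hr (31 / 20 * R) ∧ δ ≤ min (r * e / 4) (r * e ^ 3 / 8) := by
    refine ⟨min (min (min (hr (2 * R) - hr (9 / 5 * R)) (hr r - hr (3 / 5 * r)))
      (min (hr (5 / 4 * R) - hr (61 / 50 * R)) (hr (59 / 50 * R) - hr (29 / 25 * R))))
      (min (hr (8 / 5 * R) - hr (31 / 20 * R)) (min (r * e / 4) (r * e ^ 3 / 8))),
      lt_min (lt_min (lt_min d1 d2) (lt_min d3 d4)) (lt_min d5 d6), ?_, ?_, ?_, ?_, ?_, ?_⟩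
    · exact (min_le_left _ _).trans ((min_le_left _ _).trans (min_le_left _ _))
    · exact (min_le_left _ _).trans ((min_le_left _ _).trans (min_le_right _ _))
    · exact (min_le_left _ _).trans ((min_le_right _ _).trans (min_le_left _ _))
    · exact (min_le_left _ _).trans ((min_le_right _ _).trans (min_le_right _ _))
    · exact (min_le_right _ _).trans (min_le_left _ _)
    · exact (min_le_right _ _).trans (min_le_right _ _)
  refine ⟨δ, hδ0, ?_⟩
  have hc : 0 < min (3 / 1000 * r) (e * R / 2) := by positivity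
  filter_upwards [Ioo_mem_nhdsGT hc] with η hη ω hps
  obtain ⟨hη0, hη1⟩ := hη
  have hη2 : η ≤ 3 / 1000 * r := (hη1.le).trans (min_le_left _ _)
  have hη3 : η ≤ e * R / 2 := (hη1.le).trans (min_le_right _ _)
  obtain ⟨f, n, w0, al, u1, w1, w2, u3, be, w3, hf, o1, o2, o3, o4, o7, o8, o9,
    o10, a0, a3, a1, a2, b1, b3, c1, c2, hal, hbe, hd, hidx⟩ := hps
  refine ⟨f, n, hf, ?_⟩
  have hadj : ∀ k < n, Adj (f k) (f (k + 1)) := fun k hk => (hf.1 k hk).1
  have hn : 0 < n := by omega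
  have hn' : (0 : ℝ) < n := by exact_mod_cast hn
  obtain ⟨a, ha⟩ : ∃ a : ℝ, a = r / η / 2 := ⟨_, rfl⟩
  obtain ⟨b, hb⟩ : ∃ b : ℝ, b = 2 * (R / η) := ⟨_, rfl⟩
  rw [← ha] at a0 a3 a1 a2 hal hbe
  rw [← hb] at b1 b3 c1 c2 hd
  have hηa : η * a = r / 2 := by
    rw [ha]
    field_simp
  have hηb : η * b = 2 * R := by
    rw [hb]
    field_simp
  have ha2 : 0 < a := by
    rw [ha]
    positivity
  have hab : 2 * a < b := by
    by_contra hcon
    push Not at hcon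
    have h1 := mul_le_mul_of_nonneg_left hcon hη0.le
    have h2 : η * (2 * a) = 2 * (η * a) := by ring
    rw [h2, hηa, hηb] at h1
    linarith only [h1, hrR, hR0]
  have hnorm : ∀ z : ℂ, ‖(η : ℂ) * z‖ = η * ‖z‖ := by
    intro z
    rw [norm_mul, Complex.norm_real, Real.norm_of_nonneg hη0.le]
  have hT : ∀ k, k ≤ n → ((k : ℝ) / n) ∈ Icc (0 : ℝ) 1 := by
    intro k hk
    have hk' : (k : ℝ) ≤ n := by exact_mod_cast hk
    exact ⟨by positivity, (div_le_one hn').2 hk'⟩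
  -- upper bounds of heights come from lower bounds of norms
  have hlow : ∀ t ∈ Icc (0 : ℝ) 1, ∀ s x : ℝ, 0 ≤ s → 0 ≤ x → x ≤ ‖poly f n t‖ * η →
      r * R ≤ x * s →
      ht (act (inv (r * R) hκ) (cur η f n)) t ≤ hr s := by
    intro t ht' s x hs hx hx1 hx2
    rw [ht_inv hκ ht']
    refine hi_le hκ (norm_nonneg _) hs ?_
    rw [hnorm]
    refine hx2.trans (mul_le_mul_of_nonneg_right ?_ hs)
    linarith only [hx1]
  have hupp : ∀ t ∈ Icc (0 : ℝ) 1, ∀ s x : ℝ, 0 ≤ s → ‖poly f n t‖ * η ≤ x →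
      x * s ≤ r * R →
      hr s ≤ ht (act (inv (r * R) hκ) (cur η f n)) t := by
    intro t ht' s x hs hx1 hx2
    rw [ht_inv hκ ht']
    refine hi_ge hκ (norm_nonneg _) hs ?_
    rw [hnorm]
    refine le_trans (mul_le_mul_of_nonneg_right ?_ hs) hx2
    linarith only [hx1]
  have hup : ∀ k, k ≤ n → ∀ c : ℝ, (nrm (f k) : ℝ) ≤ c →
      ‖poly f n ((k : ℝ) / n)‖ * η ≤ η * c := by
    intro k hk c hc'
    rw [poly_at hn hk, mul_comm]
    exact mul_le_mul_of_nonneg_left ((emb_le_nrm _).trans hc') hη0.le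
  have hlo : ∀ k, k ≤ n → ∀ c : ℝ, c ≤ (nrm (f k) : ℝ) →
      433 / 500 * (η * c) ≤ ‖poly f n ((k : ℝ) / n)‖ * η := by
    intro k hk c hc'
    rw [poly_at hn hk]
    have h1 := eq_low (f k)
    have h2 : η * c ≤ η * nrm (f k) := mul_le_mul_of_nonneg_left hc' hη0.le
    have h3 := mul_le_mul_of_nonneg_left h1 hη0.le
    linarith only [h2, h3]
  have hmidT : ∀ i j, j ≤ n → (∀ k, i ≤ k → k ≤ j → 2 * a < nrm (f k)) →
      ∀ t ∈ Icc ((i : ℝ) / n) ((j : ℝ) / n), 863 / 1000 * r ≤ ‖poly f n t‖ * η := by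
    intro i j hj hk t ht'
    have h1 := eq_far (x := 0) (c := 433 / 500 * (2 * a)) hn hj hadj ht' (fun k k1 k2 => by
      rw [sub_zero]
      have h2 := eq_low (f k)
      have h3 := hk k k1 k2
      linarith only [h2, h3])
    rw [sub_zero] at h1
    have h2 := mul_le_mul_of_nonneg_right h1 hη0.le
    have h3 : (433 / 500 * (2 * a) - 1) * η = 433 / 500 * 2 * (η * a) - η := by ring
    rw [h3, hηa] at h2
    linarith only [h2, hη2]
  have hC0 : ∀ i j, w1 ≤ i → i + 1 < j → j ≤ w2 →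
      (∀ k, i < k → k < j → 8 / 5 * a < nrm (f k)) →
      ∀ t ∈ Icc ((i : ℝ) / n) ((j : ℝ) / n), 6898 / 10000 * r ≤ ‖poly f n t‖ * η := by
    intro i j g1 hw g4 hH t ht'
    have h1 := eq_open (c := 433 / 500 * (8 / 5 * a)) hn (by omega) hw hadj ht'
      (fun k k1 k2 => by
        have h2 := eq_low (f k)
        have h3 := hH k k1 k2
        linarith only [h2, h3])
    have h2 := mul_le_mul_of_nonneg_right h1 hη0.le
    have h3 : (433 / 500 * (8 / 5 * a) - 1) * η = 433 / 500 * (8 / 5) * (η * a) - η := by ring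
    rw [h3, hηa] at h2
    linarith only [h2, hη2]
  have hCne0 : ∀ i j, w1 ≤ i → i + 1 < j → j ≤ w2 →
      (∀ k, i < k → k < j → 8 / 5 * a < nrm (f k)) →
      ∀ t ∈ Icc ((i : ℝ) / n) ((j : ℝ) / n), poly f n t ≠ 0 := by
    intro i j g1 hw g4 hH t ht' h0
    have h1 := hC0 i j g1 hw g4 hH t ht'
    rw [h0, norm_zero, zero_mul] at h1
    linarith only [h1, hr0]
  obtain ⟨i, j, s, g1, g2, g3, g4, g5, g6, g8, g7, hwi⟩ := ps_wi (η := η) (κ := r * R) (f := f)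
    (n := n) hη0 hκ ha2 hab hadj hf.2 o1 o2 o3 o4 o7 o8 o9 o10 a1 a2 b1 b3 hal hbe hidx
    hCne0
  have nj : j ≤ n := by omega
  have ni : i ≤ n := by omega
  have ns : s ≤ n := by omega
  have nw0 : w0 ≤ n := by omega
  have nu1 : u1 ≤ n := by omega
  have nu3 : u3 ≤ n := by omega
  have nal : al ≤ n := by omega
  have nbe : be ≤ n := by omega
  have p1 : 0 ≤ 2 * R := by positivity
  have p2 : 0 ≤ 3 / 5 * r := by positivity
  have p3 : 0 ≤ 5 / 4 * R := by positivity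
  have p4 : 0 ≤ 29 / 25 * R := by positivity
  have p5 : 0 ≤ 863 / 1000 * r := by positivity
  have q2 : 0 ≤ 433 / 500 * (η * b) := by rw [hηb]; positivity
  have r2 : r * R ≤ 433 / 500 * (η * b) * (3 / 5 * r) := by rw [hηb]; linarith only [hκ]
  have r1 : η * a * (2 * R) ≤ r * R := by rw [hηa]; linarith only [hκ]
  have r3 : η * (8 / 5 * a) * (5 / 4 * R) ≤ r * R := by
    rw [show η * (8 / 5 * a) = 8 / 5 * (η * a) by ring, hηa]
    linarith only [hκ]
  have hC := hC0 i j g1 (by omega) g4 g8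
  have hCne := hCne0 i j g1 (by omega) g4 g8
  have hne : ∀ z : ℂ, z ≠ 0 → (η : ℂ) * z ≠ 0 := by
    intro z hz
    refine mul_ne_zero ?_ hz
    rw [Ne, Complex.ofReal_eq_zero]
    exact hη0.ne'
  have hCt : ∀ t ∈ Icc ((i : ℝ) / n) ((j : ℝ) / n), t ∈ Icc (0 : ℝ) 1 := fun t ht' =>
    (eq_time hn (by omega) ht').1
  have hplC : ∀ t ∈ Icc ((i : ℝ) / n) ((j : ℝ) / n),
      pl (act (inv (r * R) hκ) (cur η f n)) t = ((r * R : ℝ) : ℂ) / ((η : ℂ) * poly f n t) :=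
    fun t ht' => pl_inv hκ (hCt t ht') (hne _ (hCne t ht'))
  have hemb0 : ∀ k, 2 * a < nrm (f k) → emb (f k) ≠ 0 := by
    intro k hk h0
    have h1 := eq_low (f k)
    rw [h0, norm_zero] at h1
    linarith only [h1, hk, ha2]
  have hplP : ∀ k, k ≤ n → 2 * a < nrm (f k) →
      pl (act (inv (r * R) hκ) (cur η f n)) ((k : ℝ) / n) =
        ((r * R : ℝ) : ℂ) / ((η : ℂ) * emb (f k)) := by
    intro k hk hk2
    have h1 : poly f n ((k : ℝ) / n) = emb (f k) := poly_at hn hk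
    rw [pl_inv hκ (hT k hk) (by rw [h1]; exact hne _ (hemb0 k hk2)), h1]
  have hal2 : 2 * a < nrm (f al) := hal al le_rfl o2
  have hbe2 : 2 * a < nrm (f be) := hbe be o8 le_rfl
  have hdist : ∀ p, p ≤ n → 2 * a < nrm (f p) → nrm (f p) ≤ b / e →
      (∀ k, w1 ≤ k → k ≤ w2 → e * b ≤ nrm (f k - f p)) →
      ∀ t ∈ Icc ((i : ℝ) / n) ((j : ℝ) / n),
      δ ≤ ‖pl (act (inv (r * R) hκ) (cur η f n)) t -
        pl (act (inv (r * R) hκ) (cur η f n)) ((p : ℝ) / n)‖ := by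
    intro p hp hp1 hp2 hp3 t ht'
    rw [hplC t ht', hplP p hp hp1]
    refine hδ6.trans (dist_inv hr0 hR0 he (hne _ (hCne t ht')) (hne _ (hemb0 p hp1)) ?_ ?_)
    · rw [hnorm]
      have h1 := mul_le_mul_of_nonneg_left ((emb_le_nrm (f p)).trans hp2) hη0.le
      rwa [← mul_div_assoc, hηb] at h1
    · have h1 := eq_far (x := emb (f p)) (c := 433 / 500 * (e * b)) hn (by omega) hadj ht'
        (fun k k1 k2 => by
          have h2 := eq_low (f k - f p)
          have h3 := hp3 k (by omega) (by omega)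
          rw [emb_sub] at h2
          linarith only [h2, h3])
      rw [← mul_sub, hnorm]
      have h2 := mul_le_mul_of_nonneg_left h1 hη0.le
      have h3 : η * (433 / 500 * (e * b) - 1) = 433 / 500 * (e * (η * b)) - η := by ring
      rw [h3, hηb] at h2
      have h4 : 0 < e * R := mul_pos he hR0
      linarith only [h2, hη3, h4]
  have hle : ∀ i j : ℕ, i ≤ j → (i : ℝ) / n ≤ (j : ℝ) / n := by
    intro i j hij
    have : (i : ℝ) ≤ j := by exact_mod_cast hij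
    gcongr
  refine ⟨(w0 : ℝ) / n, (al : ℝ) / n, (u1 : ℝ) / n, (i : ℝ) / n, (s : ℝ) / n, (j : ℝ) / n,
    (u3 : ℝ) / n, (be : ℝ) / n, (w3 : ℝ) / n, (hT w0 (by omega)).1, hle _ _ o1, hle _ _ o2,
    hle _ _ (by omega), hle _ _ g2.le, hle _ _ g3.le, hle _ _ (by omega), hle _ _ o8, hle _ _ o9,
    (hT w3 o10).2, ?_, ?_, ?_, ?_, ?_, ?_, ?_, ?_, ?_, ?_, ?_⟩
  · change hr (9 / 5 * R) + δ ≤ _
    have h1 := hupp _ (hT w0 nw0) (2 * R) (η * a) p1 (hup w0 nw0 a a0) r1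
    linarith only [h1, hδ1]
  · change hr (9 / 5 * R) + δ ≤ _
    have h1 := hupp _ (hT w3 o10) (2 * R) (η * a) p1 (hup w3 o10 a a3) r1
    linarith only [h1, hδ1]
  · change _ ≤ hr r - δ
    have h1 := hlow _ (hT u1 nu1) (3 / 5 * r) _ p2 q2 (hlo u1 nu1 b b1) r2
    linarith only [h1, hδ2]
  · change _ ≤ hr r - δ
    have h1 := hlow _ (hT s ns) (3 / 5 * r) _ p2 q2 (hlo s ns b g7) r2
    linarith only [h1, hδ2]
  · change _ ≤ hr r - δ
    have h1 := hlow _ (hT u3 nu3) (3 / 5 * r) _ p2 q2 (hlo u3 nu3 b b3) r2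
    linarith only [h1, hδ2]
  · change hr (61 / 50 * R) + δ ≤ _
    have h1 := hupp _ (hT i ni) (5 / 4 * R) _ p3 (hup i ni (8 / 5 * a) g5) r3
    linarith only [h1, hδ3]
  · change hr (61 / 50 * R) + δ ≤ _
    have h1 := hupp _ (hT j nj) (5 / 4 * R) _ p3 (hup j nj (8 / 5 * a) g6) r3
    linarith only [h1, hδ3]
  · intro t ht'
    change _ ≤ hr (59 / 50 * R) - δ
    have h1 := hlow t (eq_time hn nu1 ht').1 (29 / 25 * R) (863 / 1000 * r)
      p4 p5 (hmidT al u1 nu1 hal t ht')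
      (by linarith only [hκ])
    linarith only [h1, hδ4]
  · intro t ht'
    change _ ≤ hr (59 / 50 * R) - δ
    have h1 := hlow t (eq_time hn nbe ht').1 (29 / 25 * R) (863 / 1000 * r)
      p4 p5 (hmidT u3 be nbe hbe t ht')
      (by linarith only [hκ])
    linarith only [h1, hδ4]
  · intro t ht'
    refine ⟨?_, hdist al nal hal2 c1 (fun k k1 k2 => (hd k k1 k2).1) t ht',
      hdist be nbe hbe2 c2 (fun k k1 k2 => (hd k k1 k2).2) t ht'⟩
    change _ ≤ hr (8 / 5 * R) - δ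
    have h1 := hlow t (hCt t ht') (31 / 20 * R) (6898 / 10000 * r)
      (by positivity) (by positivity) (hC t ht') (by linarith only [hκ])
    linarith only [h1, hδ5]
  · rw [hplP al nal hal2, hplP be nbe hbe2]
    have h2 : ∀ t ∈ Icc ((i : ℝ) / n) ((j : ℝ) / n),
        pl (act (inv (r * R) hκ) (cur η f n)) t =
          (fun t => ((r * R : ℝ) : ℂ) / ((η : ℂ) * poly f n t)) t :=
      hplC
    have h12 := hle i j (by omega)
    have h3 : ∀ A B : ℂ, Wi (pl (act (inv (r * R) hκ) (cur η f n))) ((i : ℝ) / n)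
        ((j : ℝ) / n) A B = Wi (fun t => ((r * R : ℝ) : ℂ) / ((η : ℂ) * poly f n t))
        ((i : ℝ) / n) ((j : ℝ) / n) A B := by
      intro A B
      unfold Wi
      rw [h2 _ (left_mem_Icc.2 h12), h2 _ (right_mem_Icc.2 h12)]
      congr 2
      exact ai_congr fun τ hτ => by
        beta_reduce
        rw [h2 τ hτ]
    rw [h3]
    exact hwi

end Pool.Agent.MSTLim
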