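import Pool.Agent.MSTLim.ExtP
import Pool.Agent.MSTLim.ExtQ
import Pool.Agent.MSTLim.Glue

/-!
# The bridge between the patterns of the configurations and of the lattice

`OP r R` is the set of the configurations which contain a curve with a certificate for the radii
`radOf r R`; `SP e r R` is the set of the configurations which contain a curve with a certificate
with the margin `e`.
-/

namespace Pool.Agent.MSTLim

open Pool.Agent.TriPerc Set Filter Topology

/-- The configurations with a certified curve. -/
def OP (r R : ℝ) : Set Om := {F | ∃ h : 0 < r ∧ r < R, F ∈ OCert (radOf r R h)}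

/-- The configurations with a curve certified with the margin `e`. -/
def SP (e r R : ℝ) : Set Om :=
  {F | ∃ h : 0 < r ∧ r < R, F ∈ ACert (Homeomorph.refl Sph) (radOf r R h) e}

private theorem bridge_refl (F : Om) : actO (Homeomorph.refl Sph) F = F := by
  apply SetLike.coe_injective
  rw [coe_actO]
  have : ∀ c : Curve, actC (Homeomorph.refl Sph) c = c := by
    intro c
    obtain ⟨γ, rfl⟩ := SeparationQuotient.surjective_mk c
    rfl
  ext c
  constructor
  · rintro ⟨c', h, rfl⟩
    rwa [this]
  · intro h
    exact ⟨c, h, this c⟩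

theorem bridge : Bridge PW PS OP SP where
  isOpen r R := by
    by_cases h : 0 < r ∧ r < R
    · have : OP r R = OCert (radOf r R h) := by
        ext F
        exact ⟨fun ⟨_, h'⟩ => h', fun h' => ⟨h, h'⟩⟩
      rw [this]
      exact isOpen_ocert _
    · have : OP r R = ∅ := by
        ext F
        exact ⟨fun ⟨h', _⟩ => h h', fun h' => h'.elim⟩
      rw [this]
      exact isOpen_empty
  closure_sub e r R he hr hR := by
    have h : 0 < r ∧ r < R := ⟨hr, hR⟩
    have h1 : SP e r R = ACert (Homeomorph.refl Sph) (radOf r R h) e := by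
      ext F
      exact ⟨fun ⟨_, h'⟩ => h', fun h' => ⟨h, h'⟩⟩
    rw [h1]
    intro F hF
    have h2 := closure_acert (Homeomorph.refl Sph) (radOf r R h) he hF
    rw [mem_preimage, bridge_refl] at h2
    exact ⟨h, h2⟩
  weak r R hr hR := by
    have h : 0 < r ∧ r < R := ⟨hr, hR⟩
    have h1 := pw_of_cert (radOf r R h) (R0 := R) (hr.trans hR)
      (by
        change R / 2 < 59 / 50 * R
        linarith)
    filter_upwards [h1] with η hη ω hω
    obtain ⟨h', h2⟩ := hω
    exact hη ω h2
  strong e r R he hr hR := by
    obtain ⟨δ, hδ, h1⟩ := scert_of_ps (e := e) ⟨hr, hR⟩ he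
    refine ⟨δ, hδ, ?_⟩
    filter_upwards [h1] with η hη ω hω
    obtain ⟨f, n, hf, hs⟩ := hη ω hω
    refine ⟨⟨hr, hR⟩, act (inv (r * R) (mul_pos hr (hr.trans hR))) (cur η f n), ?_, hs⟩
    rw [← SetLike.mem_coe, coe_actO]
    exact ⟨SeparationQuotient.mk (cur η f n), subset_closure ⟨f, n, hf, rfl⟩, rfl⟩

end Pool.Agent.MSTLim
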