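import Mathlib.Algebra.Order.Star.Real
import Mathlib.Analysis.Complex.ExponentialBounds
import Mathlib.Tactic

/-!
# Elementary estimates for the assembly of (N)

* `super1`: the probability that the outermost block is bad is super-exponentially small.
* `super2`: the same for many blocks with mixed vertices.
* `sum_small`: sums over small subsets.
-/

namespace Pool.Agent.MSTLim

theorem exp_big {c : ℝ} (hc : 0 < c) (A B : ℝ) : ∃ n₀ : ℕ, ∀ n ≥ n₀,
    A * n + B ≤ Real.exp (c * n) := by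
  refine ⟨⌈2 * (|A| + |B|) / c ^ 2⌉₊ + 1, fun n hn => ?_⟩
  have h1 : 2 * (|A| + |B|) / c ^ 2 ≤ n := by
    refine (Nat.le_ceil _).trans ?_
    exact_mod_cast (by omega : ⌈2 * (|A| + |B|) / c ^ 2⌉₊ ≤ n)
  have h2 : (1 : ℝ) ≤ n := by exact_mod_cast (by omega : 1 ≤ n)
  rw [div_le_iff₀ (by positivity)] at h1
  have h3 := Real.quadratic_le_exp_of_nonneg (by positivity : 0 ≤ c * n)
  have h4 : (|A| + |B|) * n ≤ (c * n) ^ 2 / 2 := by nlinarith
  have h5 := le_abs_self A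
  have h6 := le_abs_self B
  have h7 := abs_nonneg B
  have h8 : 0 ≤ c * n := by positivity
  nlinarith

theorem super1 {K κ : ℝ} (hK : 1 < K) (hκ : 0 < κ) (A : ℝ) : ∃ n₀ : ℕ, ∀ n ≥ n₀,
    2 * (1 / 2 : ℝ) ^ ((K ^ (⌊κ * n⌋₊ + 1) / 8) ^ (1 / 4 : ℝ) / 4) ≤ Real.exp (-A * n) := by
  have hlK : 0 < Real.log K := Real.log_pos hK
  obtain ⟨n₀, h0⟩ := exp_big (by positivity : 0 < κ * Real.log K / 4) (16 * A) 16
  refine ⟨n₀, fun n hn => ?_⟩
  have h1 := h0 n hn
  have h2 : Real.exp (κ * Real.log K / 4 * n) / 8 ≤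
      (K ^ (⌊κ * n⌋₊ + 1) / 8) ^ (1 / 4 : ℝ) / 4 := by
    have h3 : Real.exp (κ * Real.log K * n) ≤ K ^ (⌊κ * n⌋₊ + 1) := by
      have h4 : κ * n ≤ ((⌊κ * n⌋₊ + 1 : ℕ) : ℝ) := by
        push_cast
        exact (Nat.lt_floor_add_one _).le
      rw [← Real.rpow_natCast, Real.rpow_def_of_pos (by linarith)]
      refine Real.exp_le_exp.2 ?_
      nlinarith
    have h5 : Real.exp (κ * Real.log K / 4 * n) / 2 ≤
        (Real.exp (κ * Real.log K * n) / 8) ^ (1 / 4 : ℝ) := by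
      rw [Real.div_rpow (Real.exp_pos _).le (by norm_num), ← Real.exp_mul]
      have h6 : κ * Real.log K * n * (1 / 4) = κ * Real.log K / 4 * n := by ring
      rw [h6]
      refine div_le_div_of_nonneg_left (Real.exp_pos _).le (by positivity) ?_
      calc (8 : ℝ) ^ (1 / 4 : ℝ) ≤ (16 : ℝ) ^ (1 / 4 : ℝ) :=
            Real.rpow_le_rpow (by norm_num) (by norm_num) (by norm_num)
        _ = 2 := by
            rw [show (16 : ℝ) = 2 ^ (4 : ℝ) by norm_num, ← Real.rpow_mul (by norm_num)]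
            norm_num
    have h7 : (Real.exp (κ * Real.log K * n) / 8) ^ (1 / 4 : ℝ) ≤
        (K ^ (⌊κ * n⌋₊ + 1) / 8) ^ (1 / 4 : ℝ) :=
      Real.rpow_le_rpow (by positivity) (by linarith) (by norm_num)
    linarith
  have h3 : (1 / 2 : ℝ) ^ ((K ^ (⌊κ * n⌋₊ + 1) / 8) ^ (1 / 4 : ℝ) / 4) ≤
      (1 / 2 : ℝ) ^ (Real.exp (κ * Real.log K / 4 * n) / 8) :=
    Real.rpow_le_rpow_of_exponent_ge (by norm_num) (by norm_num) h2
  refine (mul_le_mul_of_nonneg_left h3 (by norm_num)).trans ?_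
  have h4 : (2 : ℝ) * (1 / 2 : ℝ) ^ (Real.exp (κ * Real.log K / 4 * n) / 8) =
      Real.exp (Real.log 2 * (1 - Real.exp (κ * Real.log K / 4 * n) / 8)) := by
    rw [one_div, Real.inv_rpow (by norm_num), Real.rpow_def_of_pos (by norm_num),
      ← Real.exp_neg]
    nth_rewrite 1 [← Real.exp_log (by norm_num : (0 : ℝ) < 2)]
    rw [← Real.exp_add]
    congr 1
    ring
  rw [h4]
  refine Real.exp_le_exp.2 ?_
  have l1 : 1 / 2 < Real.log 2 := by
    have := Real.log_two_gt_d9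
    linarith
  have l2 : Real.log 2 < 1 := by
    have := Real.log_two_lt_d9
    linarith
  have h5 : 1 - Real.exp (κ * Real.log K / 4 * n) / 8 ≤ -(2 * A * n) - 1 := by linarith
  have h6 := Real.exp_pos (κ * Real.log K / 4 * n)
  rcases le_or_gt 0 (1 - Real.exp (κ * Real.log K / 4 * n) / 8) with h7 | h7
  · nlinarith
  · nlinarith

theorem super2 {θ C : ℝ} (hθ : 0 < θ) (hC : 0 < C) (A : ℝ) : ∃ n₀ : ℕ, ∀ n ≥ n₀,
    3 * ((2 : ℝ) ^ n * (C * (1 / 8) ^ ⌊θ * n⌋₊) ^ ⌊θ * n⌋₊) ≤ Real.exp (-A * n) := by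
  obtain ⟨B, hB⟩ : ∃ B : ℝ, B = 4 * (|A| + 2 + θ * |Real.log C|) / θ ^ 2 := ⟨_, rfl⟩
  refine ⟨⌈B⌉₊ + ⌈2 / θ⌉₊ + 2, fun n hn => ?_⟩
  have h1 : B ≤ n := (Nat.le_ceil _).trans (by exact_mod_cast (by omega : ⌈B⌉₊ ≤ n))
  have h2 : 2 / θ ≤ n := (Nat.le_ceil _).trans (by exact_mod_cast (by omega : ⌈2 / θ⌉₊ ≤ n))
  have h3 : (2 : ℝ) ≤ n := by exact_mod_cast (by omega : 2 ≤ n)
  rw [div_le_iff₀ hθ] at h2
  rw [hB, div_le_iff₀ (by positivity)] at h1
  obtain ⟨L, hL⟩ : ∃ L : ℕ, L = ⌊θ * n⌋₊ := ⟨_, rfl⟩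
  rw [← hL]
  have h4 : (L : ℝ) ≤ θ * n := by
    rw [hL]
    exact Nat.floor_le (by positivity)
  have h5 : θ * n / 2 ≤ L := by
    have : θ * n < L + 1 := by
      rw [hL]
      exact Nat.lt_floor_add_one _
    linarith
  have h6 : 3 * ((2 : ℝ) ^ n * (C * (1 / 8) ^ L) ^ L) =
      Real.exp (Real.log 3 + n * Real.log 2 + L * (Real.log C - L * Real.log 8)) := by
    have e1 : (C * (1 / 8) ^ L) = Real.exp (Real.log C - L * Real.log 8) := by
      rw [Real.exp_sub, Real.exp_log hC, Real.exp_nat_mul, Real.exp_log (by norm_num)]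
      rw [one_div, inv_pow]
      rfl
    rw [e1, Real.exp_add, Real.exp_add, Real.exp_log (by norm_num), Real.exp_nat_mul,
      Real.exp_nat_mul, Real.exp_log (by norm_num)]
    ring
  rw [h6]
  refine Real.exp_le_exp.2 ?_
  have l2 : Real.log 2 < 1 := by
    have := Real.log_two_lt_d9
    linarith
  have l3 : Real.log 3 < 2 := by
    have := Real.log_le_sub_one_of_pos (by norm_num : (0 : ℝ) < 3)
    have h : Real.log 3 < 3 - 1 := by
      refine lt_of_le_of_ne this ?_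
      intro h
      have := Real.log_lt_sub_one_of_pos (by norm_num : (0 : ℝ) < 3) (by norm_num)
      linarith
    linarith
  have l8 : 1 < Real.log 8 := by
    have h : Real.log 8 = 3 * Real.log 2 := by
      rw [show (8 : ℝ) = 2 ^ 3 by norm_num, Real.log_pow]
      norm_num
    have := Real.log_two_gt_d9
    linarith
  have hL0 : (0 : ℝ) ≤ L := Nat.cast_nonneg L
  have h7 : (L : ℝ) * Real.log C ≤ θ * n * |Real.log C| :=
    (mul_le_mul_of_nonneg_left (le_abs_self _) hL0).trans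
      (mul_le_mul_of_nonneg_right h4 (abs_nonneg _))
  have h8 : (θ * n / 2) ^ 2 ≤ (L : ℝ) * (L * Real.log 8) := by
    have : (θ * n / 2) ^ 2 ≤ (L : ℝ) * L := by
      rw [sq]
      exact mul_le_mul h5 h5 (by positivity) hL0
    nlinarith
  have h9 : (|A| + 2 + θ * |Real.log C|) * n ≤ (θ * n / 2) ^ 2 := by nlinarith
  have e1 : (n : ℝ) * Real.log 2 ≤ n := by nlinarith
  have e2 : A * n ≤ |A| * n := mul_le_mul_of_nonneg_right (le_abs_self A) (by linarith)
  have e3 : (L : ℝ) * (Real.log C - L * Real.log 8) = L * Real.log C - L * (L * Real.log 8) := by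
    ring
  have e4 : (|A| + 2 + θ * |Real.log C|) * n = |A| * n + 2 * n + θ * n * |Real.log C| := by ring
  rw [e3]
  linarith

theorem sum_small {T : Finset ℕ} {y τ : ℝ} (hy : 0 ≤ y) (hτ : 0 < τ) (hτ1 : τ ≤ 1) (k : ℕ) :
    ∑ J ∈ T.powerset.filter (fun J => J.card < k), y ^ J.card ≤
      (τ⁻¹) ^ k * Real.exp (T.card * (τ * y)) := by
  classical
  have h1 : ∑ J ∈ T.powerset.filter (fun J => J.card < k), y ^ J.card ≤
      ∑ J ∈ T.powerset.filter (fun J => J.card < k), (τ⁻¹) ^ k * (τ * y) ^ J.card := by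
    refine Finset.sum_le_sum fun J hJ => ?_
    have h2 := (Finset.mem_filter.1 hJ).2
    rw [mul_pow, ← mul_assoc]
    refine le_mul_of_one_le_left (by positivity) ?_
    have h3 : (τ⁻¹) ^ k = (τ⁻¹) ^ (k - J.card) * (τ⁻¹) ^ J.card := by
      rw [← pow_add]
      congr 1
      omega
    rw [h3, mul_assoc, ← mul_pow, inv_mul_cancel₀ hτ.ne', one_pow, mul_one]
    exact one_le_pow₀ (one_le_inv_iff₀.2 ⟨hτ, hτ1⟩)
  refine h1.trans ?_
  rw [← Finset.mul_sum]
  refine mul_le_mul_of_nonneg_left ?_ (by positivity)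
  calc ∑ J ∈ T.powerset.filter (fun J => J.card < k), (τ * y) ^ J.card
      ≤ ∑ J ∈ T.powerset, (τ * y) ^ J.card :=
        Finset.sum_le_sum_of_subset_of_nonneg (Finset.filter_subset _ _)
          fun _ _ _ => by positivity
    _ = (τ * y + 1) ^ T.card := by
        rw [← Finset.prod_const, Finset.prod_add]
        refine Finset.sum_congr rfl fun J _ => ?_
        rw [Finset.prod_const, Finset.prod_const, one_pow, mul_one]
    _ ≤ Real.exp (T.card * (τ * y)) := by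
        rw [Real.exp_nat_mul]
        exact pow_le_pow_left₀ (by positivity) (Real.add_one_le_exp _) _

end Pool.Agent.MSTLim
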