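import Pool.Agent.MSTLim.Lg
import Mathlib.Algebra.Order.Star.Real

/-!
# The index difference of a curve at two points

`mo a b z = (z - a) / (z - b)`.  If `|a|, |b| ≤ R1 < |z|` then `mo a b z` is in the slit plane
(`mo_slit`).  For a curve `c` on `[s, t]` which avoids `a` and `b` and whose ends are outside the
disc of radius `R1` which contains `a, b`,
`Wi c s t a b = ai (mo a b ∘ c) s t - arg (mo a b (c t)) + arg (mo a b (c s))`
is `2 pi` times the difference of the indices at `a` and `b` of the curve closed up outside the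
disc.

* `mo_slit`: if `(z - a) / (z - b) = -x`, `x ≥ 0` real, then `z (1 + x) = a + x b`, so
  `|z| ≤ R1`; `Complex.mem_slitPlane_iff_not_le_zero` or `Complex.mem_slitPlane_iff`.
* `arg_mo`: let `|a|, |b|, |a'|, |b'| ≤ R1`, `R1 < |z|`, `R1 < |z'|` and the segment from `z` to
  `z'` outside the disc of radius `R1`; suppose that the quotient
  `q x = mo (a + x (a' - a)) (b + x (b' - b)) (z + x (z' - z)) / mo a b z` satisfies
  `|q x - 1| < 1` for `x ∈ [0, 1]`.  Then `arg (mo a' b' z') = arg (mo a b z) + arg (q 1)`.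
  PROOF: `x ↦ mo a_x b_x z_x` is continuous with values in the slit plane (`mo_slit`, the disc is
  convex), so its `ai` on `[0, 1]` is `arg (mo a' b' z') - arg (mo a b z)` (`ai_slit`); it is also
  `ai` of the constant `mo a b z` times `q`, which is `arg (q 1) - arg (q 0)`, `q 0 = 1`.
* `quot_near`: if `|z - a| ≥ δ`, `|z - b| ≥ δ`, and `a', b', z'` are within `δ / 8` of `a, b, z`,
  then `|mo a' b' z' / mo a b z - 1| < 1`: the quotient is `A / B` with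
  `A = (z' - a') / (z - a)`, `B = (z' - b') / (z - b)`, `|A - 1| ≤ 1/4`, `|B - 1| ≤ 1/4`, so
  `|A / B - 1| = |A - B| / |B| ≤ (1/2) / (3/4)`.
* `wi_robust`: the curve may be replaced by a curve within `δ / 8`, the points by points within
  `δ / 8`.  PROOF: put `ρ τ = mo a' b' (c' τ) / mo a b (c τ)`; `|ρ τ - 1| < 1` by `quot_near`, so
  `ρ` is in the slit plane (positive real part).  `ai (mo a' b' ∘ c') = ai (mo a b ∘ c) + ai ρ`
  (`ai_mul`), `ai ρ = arg (ρ t) - arg (ρ s)` (`ai_slit`), and `arg_mo` at both ends (the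
  intermediate points are within `δ / 8` as well; the segment from `c t` to `c' t` is outside the
  disc because `R1 + δ / 8 < |c t|`).
* `wi_swap`: `mo b a z = (mo a b z)⁻¹`; `ai` and `arg` change sign (`Complex.arg_inv`, slit plane).
* `wi_self`: `mo a a z = 1` off `a`.
* `wi_conn`: constant in `a` along a preconnected set `A` in the disc which avoids the curve.
  PROOF: the image of `[s, t]` is compact; for `a ∈ A` let `δ > 0` be smaller than the distances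
  of `a` and `b` to the image, and `R1 + δ / 8 < |c s|, |c t|`; by `wi_robust` (`c' = c`,
  `b' = b`) the value at `a'` equals the value at `a` for `|a' - a| ≤ δ / 8`, `a' ∈ A`.  So the
  function is locally constant on `A`; use `IsPreconnected` (e.g. the two relatively open sets
  where the value is / is not equal to the value at `a`, or continuity on `A` of a function into a
  discrete space).
* `wi_shrink`: `[s, t] ⊆ [s', t']`, the curve is outside the disc on `[s', s]` and on `[t, t']`: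
  `ai_add` twice, `ai_slit` on the two parts.
* `wi_comp`: change of parameter, `ai_comp`.
-/

namespace Pool.Agent.MSTLim

open Set

/-- The Moebius transformation `z ↦ (z - a) / (z - b)`. -/
noncomputable def mo (a b z : ℂ) : ℂ := (z - a) / (z - b)

/-- The difference of the indices (times `2 pi`) at `a` and `b` of the curve `c` on `[s, t]`,
closed up far away. -/
noncomputable def Wi (c : ℝ → ℂ) (s t : ℝ) (a b : ℂ) : ℝ :=
  ai (fun τ => mo a b (c τ)) s t - Complex.arg (mo a b (c t)) + Complex.arg (mo a b (c s))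

variable {c c' : ℝ → ℂ} {s t s' t' δ R1 : ℝ} {a b a' b' z z' : ℂ}

theorem mo_slit (ha : ‖a‖ ≤ R1) (hb : ‖b‖ ≤ R1) (hz : R1 < ‖z‖) :
    mo a b z ∈ Complex.slitPlane := by
  by_contra h
  rw [Complex.mem_slitPlane_iff] at h
  push Not at h
  obtain ⟨h1, h2⟩ := h
  obtain ⟨x, hx⟩ : ∃ x : ℝ, x = -(mo a b z).re := ⟨_, rfl⟩
  have hx0 : 0 ≤ x := by
    rw [hx]
    linarith
  have hw : mo a b z = -(x : ℂ) := by
    apply Complex.ext
    · rw [hx]
      simp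
    · rw [h2]
      simp
  have hzb : z - b ≠ 0 := by
    intro h
    rw [sub_eq_zero] at h
    rw [h] at hz
    linarith
  have h3 : z - a = -(x : ℂ) * (z - b) := by
    rw [← hw]
    unfold mo
    rw [div_mul_cancel₀ _ hzb]
  have h4 : ((1 + x : ℝ) : ℂ) * z = a + x * b := by
    push_cast
    linear_combination h3
  have h5 : (1 + x) * ‖z‖ ≤ R1 + x * R1 := by
    have h6 := congrArg norm h4
    rw [norm_mul, Complex.norm_real, Real.norm_of_nonneg (by linarith)] at h6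
    rw [h6]
    refine (norm_add_le _ _).trans (add_le_add ha ?_)
    rw [norm_mul, Complex.norm_real, Real.norm_of_nonneg hx0]
    exact mul_le_mul_of_nonneg_left hb hx0
  nlinarith

theorem quot_near (hδ : 0 < δ) (h1 : δ ≤ ‖z - a‖) (h2 : δ ≤ ‖z - b‖) (h3 : ‖z' - z‖ ≤ δ / 8)
    (h4 : ‖a' - a‖ ≤ δ / 8) (h5 : ‖b' - b‖ ≤ δ / 8) :
    ‖mo a' b' z' / mo a b z - 1‖ < 1 ∧ mo a b z ≠ 0 ∧ mo a' b' z' ≠ 0 := by
  unfold mo
  obtain ⟨p, hp⟩ : ∃ p, p = z - a := ⟨_, rfl⟩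
  obtain ⟨q, hq⟩ : ∃ q, q = z - b := ⟨_, rfl⟩
  obtain ⟨p', hp'⟩ : ∃ p', p' = z' - a' := ⟨_, rfl⟩
  obtain ⟨q', hq'⟩ : ∃ q', q' = z' - b' := ⟨_, rfl⟩
  have k1 : ‖p' - p‖ ≤ δ / 4 := by
    rw [hp, hp', show z' - a' - (z - a) = (z' - z) - (a' - a) by ring]
    refine (norm_sub_le _ _).trans ?_
    linarith
  have k2 : ‖q' - q‖ ≤ δ / 4 := by
    rw [hq, hq', show z' - b' - (z - b) = (z' - z) - (b' - b) by ring]
    refine (norm_sub_le _ _).trans ?_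
    linarith
  rw [← hp, ← hq, ← hp', ← hq']
  rw [← hp] at h1
  rw [← hq] at h2
  have k3 : 3 / 4 * ‖p‖ ≤ ‖p'‖ := by
    have := norm_sub_norm_le p p'
    rw [norm_sub_rev] at this
    linarith
  have k4 : 3 / 4 * ‖q‖ ≤ ‖q'‖ := by
    have := norm_sub_norm_le q q'
    rw [norm_sub_rev] at this
    linarith
  have hp0 : p ≠ 0 := norm_pos_iff.1 (by linarith)
  have hq0 : q ≠ 0 := norm_pos_iff.1 (by linarith)
  have hp0' : p' ≠ 0 := norm_pos_iff.1 (by linarith)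
  have hq0' : q' ≠ 0 := norm_pos_iff.1 (by linarith)
  refine ⟨?_, div_ne_zero hp0 hq0, div_ne_zero hp0' hq0'⟩
  have e : p' / q' / (p / q) - 1 = ((p' - p) * q - (q' - q) * p) / (q' * p) := by
    field_simp
    ring
  rw [e, norm_div, norm_mul, div_lt_one (by positivity)]
  refine lt_of_le_of_lt (norm_sub_le _ _) ?_
  rw [norm_mul, norm_mul]
  have hP : 0 < ‖p‖ := by linarith
  have hQ : 0 < ‖q‖ := by linarith
  have m1 : ‖p' - p‖ * ‖q‖ ≤ ‖p‖ / 4 * ‖q‖ := mul_le_mul_of_nonneg_right (by linarith) hQ.le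
  have m2 : ‖q' - q‖ * ‖p‖ ≤ ‖q‖ / 4 * ‖p‖ := mul_le_mul_of_nonneg_right (by linarith) hP.le
  have m3 : 3 / 4 * ‖q‖ * ‖p‖ ≤ ‖q'‖ * ‖p‖ := mul_le_mul_of_nonneg_right k4 hP.le
  have m4 : 0 < ‖q‖ * ‖p‖ := mul_pos hQ hP
  nlinarith

private theorem slit_of_near {w : ℂ} (h : ‖w - 1‖ < 1) : w ∈ Complex.slitPlane := by
  rw [Complex.mem_slitPlane_iff]
  left
  have h1 := (Complex.abs_re_le_norm (w - 1)).trans_lt h
  rw [Complex.sub_re, Complex.one_re, abs_lt] at h1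
  linarith

private theorem norm_seg {R x : ℝ} {u v : ℂ} (hu : ‖u‖ ≤ R) (hv : ‖v‖ ≤ R) (h0 : 0 ≤ x)
    (h1 : x ≤ 1) : ‖u + x * (v - u)‖ ≤ R := by
  rw [show u + x * (v - u) = ((1 - x : ℝ) : ℂ) * u + x * v by push_cast; ring]
  refine (norm_add_le _ _).trans ?_
  rw [norm_mul, norm_mul, Complex.norm_real, Complex.norm_real, Real.norm_of_nonneg h0,
    Real.norm_of_nonneg (by linarith)]
  nlinarith

private theorem norm_part {x : ℝ} {u v : ℂ} (h : ‖v - u‖ ≤ δ / 8) (h0 : 0 ≤ x) (h1 : x ≤ 1) :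
    ‖u + x * (v - u) - u‖ ≤ δ / 8 := by
  rw [add_sub_cancel_left, norm_mul, Complex.norm_real, Real.norm_of_nonneg h0]
  have := norm_nonneg (v - u)
  nlinarith

theorem arg_mo (hδ : 0 < δ) (ha : ‖a‖ ≤ R1) (hb : ‖b‖ ≤ R1) (ha' : ‖a'‖ ≤ R1) (hb' : ‖b'‖ ≤ R1)
    (hz : R1 + δ / 8 < ‖z‖) (h1 : δ ≤ ‖z - a‖) (h2 : δ ≤ ‖z - b‖) (h3 : ‖z' - z‖ ≤ δ / 8)
    (h4 : ‖a' - a‖ ≤ δ / 8) (h5 : ‖b' - b‖ ≤ δ / 8) :
    Complex.arg (mo a' b' z') =
      Complex.arg (mo a b z) + Complex.arg (mo a' b' z' / mo a b z) := by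
  obtain ⟨f, hf⟩ : ∃ f : ℝ → ℂ, ∀ x, f x = mo (a + x * (a' - a)) (b + x * (b' - b))
      (z + x * (z' - z)) := ⟨_, fun _ => rfl⟩
  have hq : ∀ x ∈ Icc (0 : ℝ) 1, ‖f x / mo a b z - 1‖ < 1 ∧ mo a b z ≠ 0 ∧ f x ≠ 0 := by
    intro x hx
    rw [hf]
    exact quot_near hδ h1 h2 (norm_part h3 hx.1 hx.2) (norm_part h4 hx.1 hx.2)
      (norm_part h5 hx.1 hx.2)
  have hm : mo a b z ≠ 0 := (hq 0 ⟨le_rfl, zero_le_one⟩).2.1
  have hzx : ∀ x ∈ Icc (0 : ℝ) 1, R1 < ‖z + x * (z' - z)‖ := by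
    intro x hx
    have k1 := norm_part h3 hx.1 hx.2
    have k2 := norm_sub_norm_le z (z + x * (z' - z))
    rw [norm_sub_rev] at k2
    linarith
  have hfs : ∀ x ∈ Icc (0 : ℝ) 1, f x ∈ Complex.slitPlane := by
    intro x hx
    rw [hf]
    exact mo_slit (norm_seg ha ha' hx.1 hx.2) (norm_seg hb hb' hx.1 hx.2) (hzx x hx)
  have hfc : ContinuousOn f (Icc 0 1) := by
    have e : f = fun x : ℝ => ((z + x * (z' - z)) - (a + x * (a' - a))) /
        ((z + x * (z' - z)) - (b + x * (b' - b))) := by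
      funext x
      rw [hf]
      rfl
    rw [e]
    refine ContinuousOn.div ?_ ?_ ?_
    · fun_prop
    · fun_prop
    · intro x hx h
      rw [sub_eq_zero] at h
      have k1 := norm_seg hb hb' hx.1 hx.2
      have k2 := hzx x hx
      rw [h] at k2
      linarith
  have hqc : ContinuousOn (fun x => f x / mo a b z) (Icc 0 1) := hfc.div_const _
  have e1 := ai_slit zero_le_one hfc hfs
  have e2 := ai_slit zero_le_one hqc fun x hx => slit_of_near (hq x hx).1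
  have e3 := ai_const_mul zero_le_one hqc (fun x hx => div_ne_zero (hq x hx).2.2 hm) hm
  have e4 : ai (fun τ => mo a b z * (f τ / mo a b z)) 0 1 = ai f 0 1 :=
    ai_congr fun τ _ => mul_div_cancel₀ _ hm
  have f0 : f 0 = mo a b z := by
    rw [hf]
    simp
  have f1 : f 1 = mo a' b' z' := by
    rw [hf]
    simp
  rw [e4, e1, e2, f0, f1, div_self hm, Complex.arg_one] at e3
  linarith

private theorem mo_cont {S : Set ℝ} (hc : ContinuousOn c S) (h2 : ∀ τ ∈ S, c τ ≠ b) :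
    ContinuousOn (fun τ => mo a b (c τ)) S :=
  (hc.sub continuousOn_const).div (hc.sub continuousOn_const) fun τ hτ =>
    sub_ne_zero.2 (h2 τ hτ)

private theorem mo_ne (h1 : z ≠ a) (h2 : z ≠ b) : mo a b z ≠ 0 :=
  div_ne_zero (sub_ne_zero.2 h1) (sub_ne_zero.2 h2)

theorem wi_robust (hst : s ≤ t) (hδ : 0 < δ) (hc : ContinuousOn c (Icc s t))
    (hc' : ContinuousOn c' (Icc s t)) (ha : ‖a‖ ≤ R1) (hb : ‖b‖ ≤ R1) (ha' : ‖a'‖ ≤ R1)
    (hb' : ‖b'‖ ≤ R1) (hs : R1 + δ / 8 < ‖c s‖) (ht : R1 + δ / 8 < ‖c t‖)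
    (h1 : ∀ τ ∈ Icc s t, δ ≤ ‖c τ - a‖) (h2 : ∀ τ ∈ Icc s t, δ ≤ ‖c τ - b‖)
    (h3 : ∀ τ ∈ Icc s t, ‖c' τ - c τ‖ ≤ δ / 8) (h4 : ‖a' - a‖ ≤ δ / 8) (h5 : ‖b' - b‖ ≤ δ / 8) :
    Wi c' s t a' b' = Wi c s t a b := by
  have hsm : s ∈ Icc s t := left_mem_Icc.2 hst
  have htm : t ∈ Icc s t := right_mem_Icc.2 hst
  have hQ : ∀ τ ∈ Icc s t, ‖mo a' b' (c' τ) / mo a b (c τ) - 1‖ < 1 ∧ mo a b (c τ) ≠ 0 ∧
      mo a' b' (c' τ) ≠ 0 := fun τ hτ =>
    quot_near hδ (h1 τ hτ) (h2 τ hτ) (h3 τ hτ) h4 h5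
  have hcb : ∀ τ ∈ Icc s t, c τ ≠ b := by
    intro τ hτ h
    have := h2 τ hτ
    rw [h, sub_self, norm_zero] at this
    linarith
  have hcb' : ∀ τ ∈ Icc s t, c' τ ≠ b' := by
    intro τ hτ h
    apply (hQ τ hτ).2.2
    unfold mo
    rw [h, sub_self, div_zero]
  have hg : ContinuousOn (fun τ => mo a b (c τ)) (Icc s t) := mo_cont hc hcb
  have hg' : ContinuousOn (fun τ => mo a' b' (c' τ)) (Icc s t) := mo_cont hc' hcb'
  have hρ : ContinuousOn (fun τ => mo a' b' (c' τ) / mo a b (c τ)) (Icc s t) :=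
    hg'.div hg fun τ hτ => (hQ τ hτ).2.1
  have e1 := ai_mul hst hg (fun τ hτ => (hQ τ hτ).2.1) hρ fun τ hτ =>
    div_ne_zero (hQ τ hτ).2.2 (hQ τ hτ).2.1
  have e2 : ai (fun τ => mo a b (c τ) * (mo a' b' (c' τ) / mo a b (c τ))) s t =
      ai (fun τ => mo a' b' (c' τ)) s t :=
    ai_congr fun τ hτ => mul_div_cancel₀ _ (hQ τ hτ).2.1
  have e3 := ai_slit hst hρ fun τ hτ => slit_of_near (hQ τ hτ).1
  have e4 := arg_mo hδ ha hb ha' hb' hs (h1 s hsm) (h2 s hsm) (h3 s hsm) h4 h5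
  have e5 := arg_mo hδ ha hb ha' hb' ht (h1 t htm) (h2 t htm) (h3 t htm) h4 h5
  rw [e2, e3] at e1
  unfold Wi
  rw [e1, e4, e5]
  ring

private theorem ai_one (hst : s ≤ t) : ai (fun _ => 1) s t = 0 := by
  rw [ai_slit hst continuousOn_const fun _ _ => Complex.one_mem_slitPlane, sub_self]

theorem wi_swap (hst : s ≤ t) (hc : ContinuousOn c (Icc s t)) (ha : ‖a‖ ≤ R1) (hb : ‖b‖ ≤ R1)
    (hs : R1 < ‖c s‖) (ht : R1 < ‖c t‖) (h1 : ∀ τ ∈ Icc s t, c τ ≠ a)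
    (h2 : ∀ τ ∈ Icc s t, c τ ≠ b) : Wi c s t b a = - Wi c s t a b := by
  have hinv : ∀ w : ℂ, w ∈ Complex.slitPlane → Complex.arg (1 / w) = -Complex.arg w := by
    intro w hw
    rw [one_div, Complex.arg_inv, if_neg (Complex.mem_slitPlane_iff_arg.1 hw).1]
  have hmo : ∀ w : ℂ, mo b a w = 1 / mo a b w := by
    intro w
    unfold mo
    rw [one_div_div]
  have e1 := ai_div hst (c := fun _ => 1) continuousOn_const (fun _ _ => one_ne_zero)
    (mo_cont (a := a) hc h2) fun τ hτ => mo_ne (h1 τ hτ) (h2 τ hτ)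
  rw [ai_one hst] at e1
  unfold Wi
  simp only [hmo]
  rw [e1, hinv _ (mo_slit ha hb hs), hinv _ (mo_slit ha hb ht)]
  ring

theorem wi_self (hst : s ≤ t) (h1 : ∀ τ ∈ Icc s t, c τ ≠ a) : Wi c s t a a = 0 := by
  have hmo : ∀ τ ∈ Icc s t, mo a a (c τ) = 1 := fun τ hτ => div_self (sub_ne_zero.2 (h1 τ hτ))
  have e1 : ai (fun τ => mo a a (c τ)) s t = ai (fun _ => 1) s t := ai_congr hmo
  unfold Wi
  rw [e1, ai_one hst, hmo s (left_mem_Icc.2 hst), hmo t (right_mem_Icc.2 hst)]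
  ring

private theorem exists_far (hst : s ≤ t) (hc : ContinuousOn c (Icc s t))
    (h : ∀ τ ∈ Icc s t, c τ ≠ a) : ∃ δ : ℝ, 0 < δ ∧ ∀ τ ∈ Icc s t, δ ≤ ‖c τ - a‖ := by
  obtain ⟨τ0, h0, hmin⟩ := isCompact_Icc.exists_isMinOn ⟨s, left_mem_Icc.2 hst⟩
    (hc.sub (continuousOn_const (c := a))).norm
  exact ⟨‖c τ0 - a‖, norm_pos_iff.2 (sub_ne_zero.2 (h τ0 h0)), fun τ hτ => hmin hτ⟩

theorem wi_conn (hst : s ≤ t) (hc : ContinuousOn c (Icc s t)) {A : Set ℂ}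
    (hA : IsPreconnected A) (hAR : ∀ x ∈ A, ‖x‖ ≤ R1) (hb : ‖b‖ ≤ R1) (hs : R1 < ‖c s‖)
    (ht : R1 < ‖c t‖) (h1 : ∀ τ ∈ Icc s t, c τ ∉ A) (h2 : ∀ τ ∈ Icc s t, c τ ≠ b)
    (ha : a ∈ A) (ha' : a' ∈ A) : Wi c s t a b = Wi c s t a' b := by
  have hloc : ∀ x ∈ A, ∃ ε : ℝ, 0 < ε ∧ ∀ y ∈ A, dist y x < ε → Wi c s t y b = Wi c s t x b := by
    intro x hx
    obtain ⟨δ1, hδ1, h3⟩ := exists_far hst hc (a := x) fun τ hτ h => h1 τ hτ (h ▸ hx)
    obtain ⟨δ2, hδ2, h4⟩ := exists_far hst hc h2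
    obtain ⟨δ, hδ⟩ : ∃ δ : ℝ, δ = min (min δ1 δ2) (min (4 * (‖c s‖ - R1)) (4 * (‖c t‖ - R1))) :=
      ⟨_, rfl⟩
    have hδ0 : 0 < δ := by
      rw [hδ]
      refine lt_min (lt_min hδ1 hδ2) (lt_min ?_ ?_) <;> linarith
    have k1 : δ ≤ δ1 := by
      rw [hδ]
      exact (min_le_left _ _).trans (min_le_left _ _)
    have k2 : δ ≤ δ2 := by
      rw [hδ]
      exact (min_le_left _ _).trans (min_le_right _ _)
    have k3 : δ ≤ 4 * (‖c s‖ - R1) := by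
      rw [hδ]
      exact (min_le_right _ _).trans (min_le_left _ _)
    have k4 : δ ≤ 4 * (‖c t‖ - R1) := by
      rw [hδ]
      exact (min_le_right _ _).trans (min_le_right _ _)
    refine ⟨δ / 8, by linarith, fun y hy hyx => ?_⟩
    rw [dist_eq_norm] at hyx
    refine wi_robust hst hδ0 hc hc (hAR x hx) hb (hAR y hy) hb (by linarith) (by linarith)
      (fun τ hτ => k1.trans (h3 τ hτ)) (fun τ hτ => k2.trans (h4 τ hτ)) (fun τ _ => ?_) hyx.le ?_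
    · rw [sub_self, norm_zero]
      linarith
    · rw [sub_self, norm_zero]
      linarith
  choose! ε hε0 hε using hloc
  by_contra hne
  have hU := hA (⋃ x ∈ {x | x ∈ A ∧ Wi c s t x b = Wi c s t a b}, Metric.ball x (ε x))
    (⋃ x ∈ {x | x ∈ A ∧ Wi c s t x b ≠ Wi c s t a b}, Metric.ball x (ε x))
    (isOpen_biUnion fun _ _ => Metric.isOpen_ball) (isOpen_biUnion fun _ _ => Metric.isOpen_ball)
    (fun x hx => by
      by_cases h : Wi c s t x b = Wi c s t a b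
      · exact Or.inl (mem_biUnion (⟨hx, h⟩ : x ∈ {x | x ∈ A ∧ Wi c s t x b = Wi c s t a b})
          (Metric.mem_ball_self (hε0 x hx)))
      · exact Or.inr (mem_biUnion (⟨hx, h⟩ : x ∈ {x | x ∈ A ∧ Wi c s t x b ≠ Wi c s t a b})
          (Metric.mem_ball_self (hε0 x hx))))
    ⟨a, ha, mem_biUnion (⟨ha, rfl⟩ : a ∈ {x | x ∈ A ∧ Wi c s t x b = Wi c s t a b})
      (Metric.mem_ball_self (hε0 a ha))⟩
    ⟨a', ha', mem_biUnion (⟨ha', fun h => hne h.symm⟩ :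
      a' ∈ {x | x ∈ A ∧ Wi c s t x b ≠ Wi c s t a b}) (Metric.mem_ball_self (hε0 a' ha'))⟩
  obtain ⟨y, hy, hyu, hyv⟩ := hU
  obtain ⟨x, hx, hyx⟩ := mem_iUnion₂.1 hyu
  obtain ⟨x', hx', hyx'⟩ := mem_iUnion₂.1 hyv
  have k1 := hε x hx.1 y hy hyx
  have k2 := hε x' hx'.1 y hy hyx'
  exact hx'.2 (k2.symm.trans (k1.trans hx.2))

theorem wi_shrink (h1 : s' ≤ s) (h2 : s ≤ t) (h3 : t ≤ t') (hc : ContinuousOn c (Icc s' t'))
    (ha : ‖a‖ ≤ R1) (hb : ‖b‖ ≤ R1) (hs : ∀ τ ∈ Icc s' s, R1 < ‖c τ‖)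
    (ht : ∀ τ ∈ Icc t t', R1 < ‖c τ‖) (h4 : ∀ τ ∈ Icc s' t', c τ ≠ a)
    (h5 : ∀ τ ∈ Icc s' t', c τ ≠ b) : Wi c s' t' a b = Wi c s t a b := by
  have hg : ContinuousOn (fun τ => mo a b (c τ)) (Icc s' t') := mo_cont hc h5
  have hg0 : ∀ τ ∈ Icc s' t', mo a b (c τ) ≠ 0 := fun τ hτ => mo_ne (h4 τ hτ) (h5 τ hτ)
  have m1 : Icc s' s ⊆ Icc s' t' := Icc_subset_Icc le_rfl (h2.trans h3)
  have m2 : Icc s t' ⊆ Icc s' t' := Icc_subset_Icc h1 le_rfl
  have m3 : Icc t t' ⊆ Icc s' t' := Icc_subset_Icc (h1.trans h2) le_rfl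
  have e1 := ai_add h1 (h2.trans h3) hg hg0
  have e2 := ai_add h2 h3 (hg.mono m2) fun τ hτ => hg0 τ (m2 hτ)
  have e3 := ai_slit h1 (hg.mono m1) fun τ hτ => mo_slit ha hb (hs τ hτ)
  have e4 := ai_slit h3 (hg.mono m3) fun τ hτ => mo_slit ha hb (ht τ hτ)
  unfold Wi
  rw [e1, e2, e3, e4]
  ring

theorem wi_comp {φ : ℝ → ℝ} (hst : s ≤ t) (hφ : ContinuousOn φ (Icc s t))
    (hm : MonotoneOn φ (Icc s t)) (hc : ContinuousOn c (Icc (φ s) (φ t)))
    (h1 : ∀ τ ∈ Icc (φ s) (φ t), c τ ≠ a) (h2 : ∀ τ ∈ Icc (φ s) (φ t), c τ ≠ b) :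
    Wi (fun τ => c (φ τ)) s t a b = Wi c (φ s) (φ t) a b := by
  have e := ai_comp hst hφ hm (mo_cont (a := a) hc h2) fun τ hτ => mo_ne (h1 τ hτ) (h2 τ hτ)
  unfold Wi
  rw [e]

end Pool.Agent.MSTLim
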