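import Pool.Agent.MSTLim.Defs
import Pool.Agent.MSTLim.Mob

/-!
# Certificates of curves on the sphere and their stability

`ht γ t` is the height (last coordinate) of the point `γ t` of the sphere, `pl γ t` its
stereographic projection (junk value `0` at infinity).  A point `z` of the plane has height
`hr ‖z‖ = (‖z‖² - 1) / (‖z‖² + 1)`, an increasing function of `‖z‖ ≥ 0`.

`SCert ρ δ γ`, for radii `r < R1 < R < R2 < R3`: the curve `γ` starts (at `t0`) outside the circle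
`R3`, makes an excursion into the circle `r` (at `m1`), is outside `R` at `t1`, makes a second
excursion into `r` (at `m2`), is outside `R` at `t2`, makes a third excursion into `r` (at `m3`)
and is outside `R3` at `t3`; the second excursion stays inside `R2`; `pl γ al` and `pl γ be` are
points of the first and of the third excursion joined to the inner disc inside `R1`; the second
excursion has distance at least `δ` from them, all height inequalities hold with the margin `δ`,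
and the index difference of the second excursion at these two points is not `0`.

* `norm_st`: if the height `h` of `p` is not `1` then `‖st p‖² = (1 + h) / (1 - h)`, hence
  `h = hr ‖st p‖` (because `‖p.1.1‖² = 1 - h²`).
* `hr_lt`: `hr` is strictly increasing on `[0, ∞)`, `hr R < 1`.
* `st_lip`: if the heights of `p, q` are at most `h < 1` then
  `‖st p - st q‖ ≤ (1 / (1 - h) + 1 / (1 - h) ^ 2) * dist p q`
  (`st p = p.1.1 / (1 - p.1.2)`; `‖q.1.1‖ ≤ 1`).
* `scert_near`.  PROOF: let `L = 1 / (1 - hr R2) + 1 / (1 - hr R2) ^ 2`,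
  `δ' = min δ (R - R1)` and `ε = min (δ / 4) (δ' / (16 L + 16))`.  Let `dist γ γ' < ε`, `φ` the
  change of parameter of `Cur.dist_lt`, `φ' t = φ (projIcc t)` as a real number: continuous,
  monotone, `at' γ' (φ' t) = γ'.map (φ (projIcc t))`.  The times of `γ'` are the images under `φ'`
  of the times of `γ`.  Heights change by less than `ε` (a coordinate of a pair is 1-Lipschitz).
  Every `s ∈ [φ' t1, φ' t2]` is `φ' t` with `t ∈ [t1, t2]` (`t = φ.symm s`).  On the second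
  excursion and at `al`, `be` all heights are at most `hr R2 - δ / 2`, so planar positions change
  by at most `L ε ≤ δ' / 16` (`st_lip`).  `Wi`: by `wi_comp` the quantity for `γ'` on
  `[φ' t1, φ' t2]` is the one of `pl γ' ∘ φ'` on `[t1, t2]`, and by `wi_robust` (with `δ'` in place
  of `δ`) it equals the quantity of `γ`: `‖pl γ al‖ ≤ R1`, `‖pl γ' (φ' al)‖ ≤ R1` because the
  heights are `≤ hr R1`; `R1 + δ' / 8 < R ≤ ‖pl γ t1‖`.
* `continuousOn_pl`: `pl γ` is continuous where the height is `< 1`.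
* `isOpen_ocert`: if `mk γ ∈ F`, `SCert ρ δ γ` and `F'` has Hausdorff distance `< ε` from `F`
  (`TopologicalSpace.Closeds` has the metric of `hausdorffEDist`, see the proof of
  `continuous_actO` in `Defs.lean`), then `F'` contains a curve at distance `< ε`.
* `closure_acert`: let `F` be in the closure; choose `F'` in the set close to `F`, `γ'` with
  `mk γ' ∈ F'` and `SCert ρ δ (act g γ')`, `γ` with `mk γ ∈ F` close to `γ'`
  (`SeparationQuotient.surjective_mk`); `uniformContinuous_act`, `scert_near`;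
  `mk (act g γ) ∈ actO g F` (`coe_actO`).
* `ocert_conf`: an open set which meets the closure of a set meets the set.
-/

namespace Pool.Agent.MSTLim

open Set Filter Topology
open Pool.Agent.TriPerc (V Adj Lab P)

/-- Five radii. -/
structure Rad where
  /-- inner radius -/
  r : ℝ
  /-- radius for the marked points -/
  R1 : ℝ
  /-- outer radius -/
  R : ℝ
  /-- bound for the middle excursion -/
  R2 : ℝ
  /-- outermost radius -/
  R3 : ℝ
  h0 : 0 < r
  h1 : r < R1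
  h2 : R1 < R
  h3 : R < R2
  h4 : R2 < R3

/-- Stereographic projection (`0` at infinity). -/
noncomputable def st (p : Sph) : ℂ := p.1.1 / ((1 - p.1.2 : ℝ) : ℂ)

/-- The height of the circle of radius `R`. -/
noncomputable def hr (R : ℝ) : ℝ := (R ^ 2 - 1) / (R ^ 2 + 1)

/-- The point of the curve at the real time `t` (constant outside `[0, 1]`). -/
noncomputable def at' (γ : Cur) (t : ℝ) : Sph := γ.map (projIcc 0 1 zero_le_one t)

/-- The height of the curve. -/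
noncomputable def ht (γ : Cur) (t : ℝ) : ℝ := (at' γ t).1.2

/-- The curve in the plane. -/
noncomputable def pl (γ : Cur) (t : ℝ) : ℂ := st (at' γ t)

/-- The certificate with margin `δ`. -/
def SCert (ρ : Rad) (δ : ℝ) (γ : Cur) : Prop :=
  ∃ t0 al m1 t1 m2 t2 m3 be t3 : ℝ, 0 ≤ t0 ∧ t0 ≤ al ∧ al ≤ m1 ∧ m1 ≤ t1 ∧ t1 ≤ m2 ∧ m2 ≤ t2 ∧
    t2 ≤ m3 ∧ m3 ≤ be ∧ be ≤ t3 ∧ t3 ≤ 1 ∧
    hr ρ.R3 + δ ≤ ht γ t0 ∧ hr ρ.R3 + δ ≤ ht γ t3 ∧
    ht γ m1 ≤ hr ρ.r - δ ∧ ht γ m2 ≤ hr ρ.r - δ ∧ ht γ m3 ≤ hr ρ.r - δ ∧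
    hr ρ.R + δ ≤ ht γ t1 ∧ hr ρ.R + δ ≤ ht γ t2 ∧
    (∀ t ∈ Icc al m1, ht γ t ≤ hr ρ.R1 - δ) ∧ (∀ t ∈ Icc m3 be, ht γ t ≤ hr ρ.R1 - δ) ∧
    (∀ t ∈ Icc t1 t2, ht γ t ≤ hr ρ.R2 - δ ∧ δ ≤ ‖pl γ t - pl γ al‖ ∧
      δ ≤ ‖pl γ t - pl γ be‖) ∧
    Wi (pl γ) t1 t2 (pl γ al) (pl γ be) ≠ 0

/-- The configurations which contain a certified curve. -/
def OCert (ρ : Rad) : Set Om := {F | ∃ γ δ, 0 < δ ∧ SeparationQuotient.mk γ ∈ F ∧ SCert ρ δ γ}

/-- The configurations which contain a curve whose image under `g` is certified with margin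
`δ`. -/
def ACert (g : Sph ≃ₜ Sph) (ρ : Rad) (δ : ℝ) : Set Om :=
  {F | ∃ γ, SeparationQuotient.mk γ ∈ F ∧ SCert ρ δ (act g γ)}

variable {ρ : Rad} {δ h : ℝ} {γ γ' : Cur} {p q : Sph}

theorem st_sig (z : ℂ) : st (sig z) = z := by
  have h : (0 : ℝ) < 1 + ‖z‖ ^ 2 := by positivity
  unfold st sig
  simp only
  have e : (1 - (‖z‖ ^ 2 - 1) / (‖z‖ ^ 2 + 1) : ℝ) = 2 / (1 + ‖z‖ ^ 2) := by
    field_simp
    ring
  rw [e]
  have h2 : ((2 / (1 + ‖z‖ ^ 2) : ℝ) : ℂ) ≠ 0 := by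
    rw [Ne, Complex.ofReal_eq_zero]
    positivity
  rw [mul_comm, mul_div_assoc, div_self h2, mul_one]

theorem height_sig (z : ℂ) : (sig z).1.2 = hr ‖z‖ := by
  rfl

theorem hr_lt {x y : ℝ} (hx : 0 ≤ x) (hy : 0 ≤ y) : hr x < hr y ↔ x < y := by
  unfold hr
  rw [div_lt_div_iff₀ (by positivity) (by positivity)]
  constructor
  · intro h
    have h2 : x ^ 2 < y ^ 2 := by nlinarith
    exact lt_of_pow_lt_pow_left₀ 2 hy h2
  · intro h
    have h2 : x ^ 2 < y ^ 2 := by nlinarith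
    nlinarith

theorem hr_le {x y : ℝ} (hx : 0 ≤ x) (hy : 0 ≤ y) : hr x ≤ hr y ↔ x ≤ y := by
  rw [← not_lt, hr_lt hy hx, not_lt]

theorem hr_lt_one (x : ℝ) : hr x < 1 := by
  unfold hr
  rw [div_lt_one (by positivity)]
  linarith

theorem height_st (hp : p.1.2 < 1) : p.1.2 = hr ‖st p‖ := by
  have h1 := p.2
  have h0 : 0 < 1 - p.1.2 := by linarith
  have e : ‖st p‖ ^ 2 = (1 + p.1.2) / (1 - p.1.2) := by
    unfold st
    rw [norm_div, Complex.norm_real, Real.norm_eq_abs, abs_of_pos h0, div_pow,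
      show ‖p.1.1‖ ^ 2 = 1 - p.1.2 ^ 2 by linarith]
    field_simp
    ring
  unfold hr
  rw [e]
  field_simp
  ring

theorem st_lip (hh : h < 1) (hp : p.1.2 ≤ h) (hq : q.1.2 ≤ h) :
    ‖st p - st q‖ ≤ (1 / (1 - h) + 1 / (1 - h) ^ 2) * dist p q := by
  have h0 : 0 < 1 - h := by linarith
  have hp0 : 0 < 1 - p.1.2 := by linarith
  have hq0 : 0 < 1 - q.1.2 := by linarith
  have hpc : ((1 - p.1.2 : ℝ) : ℂ) ≠ 0 := by
    rw [Ne, Complex.ofReal_eq_zero]
    exact hp0.ne'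
  have hqc : ((1 - q.1.2 : ℝ) : ℂ) ≠ 0 := by
    rw [Ne, Complex.ofReal_eq_zero]
    exact hq0.ne'
  have hd1 : ‖p.1.1 - q.1.1‖ ≤ dist p q := by
    rw [Subtype.dist_eq, Prod.dist_eq, ← dist_eq_norm]
    exact le_max_left _ _
  have hd2 : |p.1.2 - q.1.2| ≤ dist p q := by
    rw [Subtype.dist_eq, Prod.dist_eq, ← Real.dist_eq]
    exact le_max_right _ _
  have hq1 : ‖q.1.1‖ ≤ 1 := by
    have h1 := q.2
    nlinarith [norm_nonneg q.1.1, sq_nonneg q.1.2]
  have e : st p - st q = (p.1.1 - q.1.1) / ((1 - p.1.2 : ℝ) : ℂ) +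
      q.1.1 * (((p.1.2 - q.1.2) / ((1 - p.1.2) * (1 - q.1.2)) : ℝ) : ℂ) := by
    unfold st
    have e2 : (((p.1.2 - q.1.2) / ((1 - p.1.2) * (1 - q.1.2)) : ℝ) : ℂ) =
        1 / ((1 - p.1.2 : ℝ) : ℂ) - 1 / ((1 - q.1.2 : ℝ) : ℂ) := by
      rw [← Complex.ofReal_one, ← Complex.ofReal_div, ← Complex.ofReal_div,
        ← Complex.ofReal_sub]
      congr 1
      field_simp
      ring
    rw [e2]
    ring
  rw [e, add_mul]
  refine (norm_add_le _ _).trans (add_le_add ?_ ?_)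
  · rw [norm_div, Complex.norm_real, Real.norm_eq_abs, abs_of_pos hp0, div_eq_mul_inv, mul_comm,
      one_div]
    refine mul_le_mul ?_ hd1 (norm_nonneg _) (by positivity)
    exact inv_anti₀ h0 (by linarith)
  · rw [norm_mul, Complex.norm_real, Real.norm_eq_abs, abs_div,
      abs_of_pos (mul_pos hp0 hq0)]
    have h2 : (1 - h) ^ 2 ≤ (1 - p.1.2) * (1 - q.1.2) := by
      rw [sq]
      exact mul_le_mul (by linarith) (by linarith) h0.le hp0.le
    calc ‖q.1.1‖ * (|p.1.2 - q.1.2| / ((1 - p.1.2) * (1 - q.1.2)))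
        ≤ 1 * (|p.1.2 - q.1.2| / ((1 - p.1.2) * (1 - q.1.2))) :=
          mul_le_mul_of_nonneg_right hq1 (by positivity)
      _ = |p.1.2 - q.1.2| / ((1 - p.1.2) * (1 - q.1.2)) := one_mul _
      _ ≤ dist p q / (1 - h) ^ 2 := by gcongr
      _ = 1 / (1 - h) ^ 2 * dist p q := by ring

theorem continuous_at' (γ : Cur) : Continuous (at' γ) := by
  unfold at'
  exact γ.map.continuous.comp continuous_projIcc

theorem continuous_ht (γ : Cur) : Continuous (ht γ) := by
  unfold ht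
  exact continuous_snd.comp (continuous_subtype_val.comp (continuous_at' γ))

theorem continuousOn_pl (γ : Cur) {s : Set ℝ} (hs : ∀ t ∈ s, ht γ t < 1) :
    ContinuousOn (pl γ) s := by
  unfold pl st
  have h1 : Continuous fun t => (at' γ t).1.1 :=
    continuous_fst.comp (continuous_subtype_val.comp (continuous_at' γ))
  have h2 : Continuous fun t => ((1 - (at' γ t).1.2 : ℝ) : ℂ) :=
    Complex.continuous_ofReal.comp (continuous_const.sub (continuous_ht γ))
  refine h1.continuousOn.div h2.continuousOn fun t ht => ?_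
  rw [Ne, Complex.ofReal_eq_zero]
  have h3 := hs t ht
  unfold Pool.Agent.MSTLim.ht at h3
  linarith

theorem scert_near (ρ : Rad) (hδ : 0 < δ) :
    ∃ ε > 0, ∀ γ γ' : Cur, SCert ρ δ γ → dist γ γ' < ε → SCert ρ (δ / 2) γ' := by
  have hR2 := hr_lt_one ρ.R2
  set L : ℝ := 1 / (1 - hr ρ.R2) + 1 / (1 - hr ρ.R2) ^ 2 with hL
  have hL0 : 0 < L := by
    have h1 : 0 < 1 - hr ρ.R2 := by linarith
    positivity
  set δ' : ℝ := min δ (ρ.R - ρ.R1) with hδ'
  have hδ'0 : 0 < δ' := lt_min hδ (by linarith [ρ.h2])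
  have hδ'1 : δ' ≤ δ := min_le_left _ _
  have hδ'2 : δ' ≤ ρ.R - ρ.R1 := min_le_right _ _
  set ε : ℝ := min (δ / 4) (δ' / (16 * L + 16)) with hε
  have hε0 : 0 < ε := lt_min (by linarith) (by positivity)
  have hε1 : ε ≤ δ / 4 := min_le_left _ _
  have hε2 : L * ε ≤ δ' / 16 := by
    have h1 : ε ≤ δ' / (16 * L + 16) := min_le_right _ _
    calc L * ε ≤ L * (δ' / (16 * L + 16)) := by gcongr
      _ ≤ δ' / 16 := by
        rw [← mul_div_assoc, div_le_div_iff₀ (by positivity) (by norm_num)]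
        nlinarith
  have hR10 : 0 ≤ ρ.R1 := (ρ.h0.trans ρ.h1).le
  have hR0 : 0 ≤ ρ.R := hR10.trans ρ.h2.le
  have hR20 : 0 ≤ ρ.R2 := hR0.trans ρ.h3.le
  have hR12 : hr ρ.R1 ≤ hr ρ.R2 := (hr_le hR10 hR20).2 (ρ.h2.trans ρ.h3).le
  refine ⟨ε, hε0, ?_⟩
  rintro γ γ' ⟨t0, al, m1, t1, m2, t2, m3, be, t3, o0, o1, o2, o3, o4, o5, o6, o7, o8, o9,
    a0, a3, b1, b2, b3, c1, c2, e1, e2, e3, hw⟩ hd
  obtain ⟨φ, hφ⟩ := Cur.dist_lt hd
  set φ' : ℝ → ℝ := fun t => (φ (projIcc 0 1 zero_le_one t) : ℝ) with hφ'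
  have hcφ : Continuous φ' :=
    continuous_subtype_val.comp (φ.continuous.comp continuous_projIcc)
  have hmφ : Monotone φ' := fun s t hst =>
    Subtype.coe_le_coe.2 (φ.monotone (monotone_projIcc zero_le_one hst))
  have hat : ∀ t, dist (at' γ t) (at' γ' (φ' t)) < ε := by
    intro t
    have h1 := hφ (projIcc 0 1 zero_le_one t)
    have h2 : at' γ' (φ' t) = γ'.map (φ (projIcc 0 1 zero_le_one t)) := by
      unfold at'
      rw [hφ', projIcc_val]
    rw [h2]
    exact h1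
  have hht : ∀ t, |ht γ t - ht γ' (φ' t)| < ε := by
    intro t
    refine lt_of_le_of_lt ?_ (hat t)
    rw [Subtype.dist_eq, Prod.dist_eq]
    refine le_trans ?_ (le_max_right _ _)
    rw [Real.dist_eq]
    rfl
  have hup : ∀ t, ht γ' (φ' t) ≤ ht γ t + δ / 4 := by
    intro t
    have h1 := abs_lt.1 (hht t)
    linarith [h1.1]
  have hlo : ∀ t, ht γ t - δ / 4 ≤ ht γ' (φ' t) := by
    intro t
    have h1 := abs_lt.1 (hht t)
    linarith [h1.2]
  have hsur : ∀ {a b : ℝ}, a ≤ b → ∀ s ∈ Icc (φ' a) (φ' b), ∃ t ∈ Icc a b, φ' t = s := by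
    intro a b hab s hs
    exact intermediate_value_Icc hab hcφ.continuousOn hs
  have hlip : ∀ t, ht γ t ≤ hr ρ.R2 - δ → ‖pl γ' (φ' t) - pl γ t‖ ≤ δ' / 16 := by
    intro t ht1
    have h1 := hup t
    have h2 := st_lip (p := at' γ' (φ' t)) (q := at' γ t) hR2
      (show ht γ' (φ' t) ≤ hr ρ.R2 by linarith) (show ht γ t ≤ hr ρ.R2 by linarith)
    refine h2.trans ?_
    rw [dist_comm]
    exact (mul_le_mul_of_nonneg_left (hat t).le hL0.le).trans hε2
  have hal : al ∈ Icc al m1 := ⟨le_rfl, o2⟩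
  have hbe : be ∈ Icc m3 be := ⟨o7, le_rfl⟩
  have hal1 := e1 al hal
  have hbe1 := e2 be hbe
  have hla := hlip al (by linarith)
  have hlb := hlip be (by linarith)
  have h12 : t1 ≤ t2 := o4.trans o5
  have hnal : ‖pl γ al‖ ≤ ρ.R1 := by
    rw [← hr_le (norm_nonneg _) hR10]
    have h1 := height_st (p := at' γ al) (show ht γ al < 1 by linarith)
    unfold pl
    rw [← h1]
    change ht γ al ≤ _
    linarith
  have hnbe : ‖pl γ be‖ ≤ ρ.R1 := by
    rw [← hr_le (norm_nonneg _) hR10]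
    have h1 := height_st (p := at' γ be) (show ht γ be < 1 by linarith)
    unfold pl
    rw [← h1]
    change ht γ be ≤ _
    linarith
  have hual := hup al
  have hube := hup be
  have hnal' : ‖pl γ' (φ' al)‖ ≤ ρ.R1 := by
    rw [← hr_le (norm_nonneg _) hR10]
    have h1 := height_st (p := at' γ' (φ' al)) (show ht γ' (φ' al) < 1 by linarith)
    unfold pl
    rw [← h1]
    change ht γ' (φ' al) ≤ _
    linarith
  have hnbe' : ‖pl γ' (φ' be)‖ ≤ ρ.R1 := by
    rw [← hr_le (norm_nonneg _) hR10]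
    have h1 := height_st (p := at' γ' (φ' be)) (show ht γ' (φ' be) < 1 by linarith)
    unfold pl
    rw [← h1]
    change ht γ' (φ' be) ≤ _
    linarith
  have hn1 : ρ.R < ‖pl γ t1‖ := by
    have h2 := (e3 t1 ⟨le_rfl, h12⟩).1
    rw [← hr_lt hR0 (norm_nonneg _)]
    have h1 := height_st (p := at' γ t1) (show ht γ t1 < 1 by linarith)
    unfold pl
    rw [← h1]
    change _ < ht γ t1
    linarith
  have hn2 : ρ.R < ‖pl γ t2‖ := by
    have h2 := (e3 t2 ⟨h12, le_rfl⟩).1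
    rw [← hr_lt hR0 (norm_nonneg _)]
    have h1 := height_st (p := at' γ t2) (show ht γ t2 < 1 by linarith)
    unfold pl
    rw [← h1]
    change _ < ht γ t2
    linarith
  have hmid : ∀ s ∈ Icc (φ' t1) (φ' t2), ht γ' s ≤ hr ρ.R2 - δ / 2 ∧
      δ / 2 ≤ ‖pl γ' s - pl γ' (φ' al)‖ ∧ δ / 2 ≤ ‖pl γ' s - pl γ' (φ' be)‖ := by
    intro s hs
    obtain ⟨t, ht0, rfl⟩ := hsur h12 s hs
    obtain ⟨g1, g2, g3⟩ := e3 t ht0
    have h1 := hup t
    have h2 := hlip t g1
    refine ⟨by linarith, ?_, ?_⟩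
    · have h3 : ‖pl γ t - pl γ al‖ ≤ ‖pl γ' (φ' t) - pl γ' (φ' al)‖ +
          ‖pl γ' (φ' t) - pl γ t‖ + ‖pl γ' (φ' al) - pl γ al‖ := by
        have : pl γ t - pl γ al = (pl γ' (φ' t) - pl γ' (φ' al)) - (pl γ' (φ' t) - pl γ t) +
            (pl γ' (φ' al) - pl γ al) := by ring
        rw [this]
        exact (norm_add_le _ _).trans (add_le_add (norm_sub_le _ _) le_rfl)
      linarith
    · have h3 : ‖pl γ t - pl γ be‖ ≤ ‖pl γ' (φ' t) - pl γ' (φ' be)‖ +
          ‖pl γ' (φ' t) - pl γ t‖ + ‖pl γ' (φ' be) - pl γ be‖ := by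
        have : pl γ t - pl γ be = (pl γ' (φ' t) - pl γ' (φ' be)) - (pl γ' (φ' t) - pl γ t) +
            (pl γ' (φ' be) - pl γ be) := by ring
        rw [this]
        exact (norm_add_le _ _).trans (add_le_add (norm_sub_le _ _) le_rfl)
      linarith
  have hcont' : ContinuousOn (pl γ') (Icc (φ' t1) (φ' t2)) :=
    continuousOn_pl γ' fun s hs => by
      have := (hmid s hs).1
      linarith
  have hcont : ContinuousOn (pl γ) (Icc t1 t2) :=
    continuousOn_pl γ fun s hs => by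
      have := (e3 s hs).1
      linarith
  refine ⟨φ' t0, φ' al, φ' m1, φ' t1, φ' m2, φ' t2, φ' m3, φ' be, φ' t3, (φ _).2.1, hmφ o1,
    hmφ o2, hmφ o3, hmφ o4, hmφ o5, hmφ o6, hmφ o7, hmφ o8, (φ _).2.2, ?_, ?_, ?_, ?_, ?_, ?_,
    ?_, ?_, ?_, hmid, ?_⟩
  · have := hlo t0
    linarith
  · have := hlo t3
    linarith
  · have := hup m1
    linarith
  · have := hup m2
    linarith
  · have := hup m3
    linarith
  · have := hlo t1
    linarith
  · have := hlo t2
    linarith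
  · intro s hs
    obtain ⟨t, ht0, rfl⟩ := hsur o2 s hs
    have h1 := hup t
    have h2 := e1 t ht0
    linarith
  · intro s hs
    obtain ⟨t, ht0, rfl⟩ := hsur o7 s hs
    have h1 := hup t
    have h2 := e2 t ht0
    linarith
  · rw [← wi_comp h12 hcφ.continuousOn (hmφ.monotoneOn _) hcont'
      (fun s hs h => by
        have h1 := (hmid s hs).2.1
        rw [h, sub_self, norm_zero] at h1
        linarith)
      (fun s hs h => by
        have h1 := (hmid s hs).2.2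
        rw [h, sub_self, norm_zero] at h1
        linarith)]
    rw [wi_robust (c := pl γ) (a := pl γ al) (b := pl γ be) (R1 := ρ.R1) (δ := δ') h12 hδ'0
      hcont ?_ hnal hnbe hnal' hnbe' ?_ ?_ ?_ ?_ ?_ ?_ ?_]
    · exact hw
    · exact hcont'.comp hcφ.continuousOn fun s hs => ⟨hmφ hs.1, hmφ hs.2⟩
    · linarith
    · linarith
    · intro τ hτ
      exact hδ'1.trans (e3 τ hτ).2.1
    · intro τ hτ
      exact hδ'1.trans (e3 τ hτ).2.2
    · intro τ hτ
      have := hlip τ (e3 τ hτ).1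
      linarith
    · linarith
    · linarith

theorem isOpen_ocert (ρ : Rad) : IsOpen (OCert ρ) := by
  rw [EMetric.isOpen_iff]
  rintro F ⟨γ, δ, hδ, hγ, hs⟩
  obtain ⟨ε, hε, h⟩ := scert_near ρ hδ
  refine ⟨ENNReal.ofReal ε, ENNReal.ofReal_pos.2 hε, ?_⟩
  intro F' hF'
  rw [Metric.mem_eball, edist_comm, TopologicalSpace.Closeds.edist_eq] at hF'
  obtain ⟨c, hc, hd⟩ := Metric.exists_edist_lt_of_hausdorffEDist_lt hγ hF'
  obtain ⟨γ', rfl⟩ := SeparationQuotient.surjective_mk c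
  rw [edist_lt_ofReal, SeparationQuotient.dist_mk] at hd
  exact ⟨γ', δ / 2, half_pos hδ, hc, h γ γ' hs hd⟩

theorem closure_acert (g : Sph ≃ₜ Sph) (ρ : Rad) (hδ : 0 < δ) :
    closure (ACert g ρ δ) ⊆ actO g ⁻¹' OCert ρ := by
  intro F hF
  obtain ⟨ε, hε, h⟩ := scert_near ρ hδ
  obtain ⟨ε', hε', h'⟩ := Metric.uniformContinuous_iff.mp (uniformContinuous_act g) ε hε
  obtain ⟨F', ⟨γ', hγ', hs⟩, hd⟩ := EMetric.mem_closure_iff.1 hF (ENNReal.ofReal ε')
    (ENNReal.ofReal_pos.2 hε')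
  rw [edist_comm, TopologicalSpace.Closeds.edist_eq] at hd
  obtain ⟨c, hc, hd2⟩ := Metric.exists_edist_lt_of_hausdorffEDist_lt hγ' hd
  obtain ⟨γ, rfl⟩ := SeparationQuotient.surjective_mk c
  rw [edist_lt_ofReal, SeparationQuotient.dist_mk] at hd2
  refine ⟨act g γ, δ / 2, half_pos hδ, ?_, h _ _ hs (h' hd2)⟩
  rw [← SetLike.mem_coe, coe_actO]
  exact ⟨_, hc, actC_mk g γ⟩

theorem ocert_conf {η : ℝ} {ω : Lab} (h : conf η ω ∈ OCert ρ) :
    ∃ f n, TreePath ω f n ∧ ∃ δ > 0, SCert ρ δ (cur η f n) := by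
  obtain ⟨γ, δ, hδ, hγ, hs⟩ := h
  obtain ⟨ε, hε, h'⟩ := scert_near ρ hδ
  have hγ2 : SeparationQuotient.mk γ ∈ closure
      {c : Curve | ∃ f n, TreePath ω f n ∧ c = SeparationQuotient.mk (cur η f n)} := hγ
  obtain ⟨c, ⟨f, n, hf, rfl⟩, hd⟩ := Metric.mem_closure_iff.1 hγ2 ε hε
  rw [SeparationQuotient.dist_mk] at hd
  exact ⟨f, n, hf, δ / 2, half_pos hδ, h' γ _ hs hd⟩

end Pool.Agent.MSTLim
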