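import Pool.Agent.TriPerc.Meas

/-!
# Counting bad blocks

`cnt T U w` is the number of `j ∈ T` with `w ∈ U j`.
* `cnt_le`: if `P (⋂ j ∈ J, U j) ≤ b` for all `J ⊆ T` with `k` elements, then
  `P {k ≤ cnt T U} ≤ 2 ^ |T| b`.
* `inter_le`: independent events `U j`, `P (U j) ≤ p`: `P (⋂ j ∈ J, U j) ≤ p ^ |J|`.
* `cnt3`: the same for the events `U j` for which only the classes mod 3 are independent.
-/

namespace Pool.Agent.MSTLim

open MeasureTheory Set
open Pool.Agent.TriPerc
open scoped ENNReal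

open Classical in
/-- The number of bad blocks. -/
noncomputable def cnt (T : Finset ℕ) (U : ℕ → Set Lab) (w : Lab) : ℕ :=
  (T.filter fun j => w ∈ U j).card

variable {T J : Finset ℕ} {U : ℕ → Set Lab} {S : ℕ → Set V} {k : ℕ} {b p : ℝ≥0∞}

theorem cnt_le (h : ∀ J ⊆ T, J.card = k → P (⋂ j ∈ J, U j) ≤ b) :
    P {w | k ≤ cnt T U w} ≤ 2 ^ T.card * b := by
  classical
  have h1 : {w | k ≤ cnt T U w} ⊆ ⋃ J ∈ T.powersetCard k, ⋂ j ∈ J, U j := by
    intro w hw
    obtain ⟨J, hJ, hJk⟩ := Finset.exists_subset_card_eq (show k ≤ cnt T U w from hw)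
    refine mem_iUnion₂.2 ⟨J, Finset.mem_powersetCard.2 ⟨hJ.trans (Finset.filter_subset _ _), hJk⟩,
      mem_iInter₂.2 fun j hj => ?_⟩
    exact (Finset.mem_filter.1 (hJ hj)).2
  refine (measure_mono h1).trans ((measure_biUnion_finset_le _ _).trans ?_)
  refine (Finset.sum_le_sum (g := fun _ => b) fun J hJ => ?_).trans ?_
  · obtain ⟨h2, h3⟩ := Finset.mem_powersetCard.1 hJ
    exact h J h2 h3
  · rw [Finset.sum_const, nsmul_eq_mul]
    refine mul_le_mul_left ?_ b
    have h2 : (T.powersetCard k).card ≤ 2 ^ T.card := by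
      rw [← Finset.card_powerset]
      exact Finset.card_le_card (fun J hJ => Finset.mem_powerset.2 (Finset.mem_powersetCard.1 hJ).1)
    exact_mod_cast h2

theorem inter_le (J : Finset ℕ) (hE : ∀ j ∈ J, Ev (S j) (U j))
    (hd : ∀ i ∈ J, ∀ j ∈ J, i ≠ j → Disjoint (S i) (S j)) (hp : ∀ j ∈ J, P (U j) ≤ p) :
    Ev (⋃ j ∈ J, S j) (⋂ j ∈ J, U j) ∧ P (⋂ j ∈ J, U j) ≤ p ^ J.card := by
  classical
  induction J using Finset.induction_on with
  | empty => simp [ev_univ]
  | insert a J ha ih =>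
    obtain ⟨h1, h2⟩ := ih (fun j hj => hE j (Finset.mem_insert_of_mem hj))
      (fun i hi j hj => hd i (Finset.mem_insert_of_mem hi) j (Finset.mem_insert_of_mem hj))
      (fun j hj => hp j (Finset.mem_insert_of_mem hj))
    have h3 := hE a (Finset.mem_insert_self a J)
    have h4 : Disjoint (S a) (⋃ j ∈ J, S j) := by
      rw [Set.disjoint_iUnion₂_right]
      intro j hj
      exact hd a (Finset.mem_insert_self a J) j (Finset.mem_insert_of_mem hj)
        fun h => ha (h ▸ hj)
    rw [Finset.set_biInter_insert, Finset.set_biUnion_insert]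
    refine ⟨Ev.inter (h3.mono subset_union_left) (h1.mono subset_union_right), ?_⟩
    rw [indep h3 h1 h4, Finset.card_insert_of_notMem ha, pow_succ']
    exact mul_le_mul' (hp a (Finset.mem_insert_self a J)) h2

theorem cnt3 (hE : ∀ j ∈ T, Ev (S j) (U j))
    (hd : ∀ i ∈ T, ∀ j ∈ T, i + 3 ≤ j → Disjoint (S i) (S j)) (hp : ∀ j ∈ T, P (U j) ≤ p) :
    P {w | 3 * k ≤ cnt T U w} ≤ 3 * (2 ^ T.card * p ^ k) := by
  classical
  rcases Nat.eq_zero_or_pos k with rfl | hk
  · rw [pow_zero, mul_one]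
    calc P {w | 3 * 0 ≤ cnt T U w} ≤ 1 := prob_le_one
      _ ≤ 3 * 2 ^ T.card := by
        have : (1 : ℕ) ≤ 3 * 2 ^ T.card := Nat.one_le_iff_ne_zero.2 (by positivity)
        exact_mod_cast this
  have h1 : {w | 3 * k ≤ cnt T U w} ⊆
      ⋃ r ∈ Finset.range 3, {w | k ≤ cnt (T.filter fun j => j % 3 = r) U w} := by
    intro w hw
    by_contra hcon
    rw [mem_iUnion₂] at hcon
    have h2 : ∀ r ∈ Finset.range 3, cnt (T.filter fun j => j % 3 = r) U w ≤ k - 1 := by
      intro r hr
      by_contra h3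
      exact hcon ⟨r, hr, (by omega : k ≤ _)⟩
    have h3 : cnt T U w = ∑ r ∈ Finset.range 3, cnt (T.filter fun j => j % 3 = r) U w := by
      unfold cnt
      rw [Finset.card_eq_sum_card_fiberwise (f := fun j => j % 3) (t := Finset.range 3)
        (fun j _ => Finset.mem_coe.2 (Finset.mem_range.2 (Nat.mod_lt _ (by norm_num))))]
      refine Finset.sum_congr rfl fun r _ => ?_
      congr 1
      ext j
      simp only [Finset.mem_filter]
      tauto
    have h4 := Finset.sum_le_sum h2
    rw [← h3, Finset.sum_const, Finset.card_range, smul_eq_mul] at h4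
    have h5 : 3 * k ≤ cnt T U w := hw
    omega
  refine (measure_mono h1).trans ((measure_biUnion_finset_le _ _).trans ?_)
  have h2 : ∀ r ∈ Finset.range 3, P {w | k ≤ cnt (T.filter fun j => j % 3 = r) U w} ≤
      2 ^ T.card * p ^ k := by
    intro r _
    have h3 : P {w | k ≤ cnt (T.filter fun j => j % 3 = r) U w} ≤
        2 ^ (T.filter fun j => j % 3 = r).card * p ^ k := by
      refine cnt_le fun J hJ hJk => ?_
      have hJT : ∀ j ∈ J, j ∈ T ∧ j % 3 = r := fun j hj => Finset.mem_filter.1 (hJ hj)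
      rw [← hJk]
      refine (inter_le J (fun j hj => hE j (hJT j hj).1) (fun i hi j hj hij => ?_)
        (fun j hj => hp j (hJT j hj).1)).2
      have h4 := (hJT i hi).2
      have h5 := (hJT j hj).2
      rcases lt_or_gt_of_ne hij with h6 | h6
      · exact hd i (hJT i hi).1 j (hJT j hj).1 (by omega)
      · exact (hd j (hJT j hj).1 i (hJT i hi).1 (by omega)).symm
    refine h3.trans (mul_le_mul_left ?_ _)
    exact pow_le_pow_right₀ (by norm_num) (Finset.card_le_card (Finset.filter_subset _ _))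
  refine (Finset.sum_le_sum h2).trans (le_of_eq ?_)
  rw [Finset.sum_const, Finset.card_range, nsmul_eq_mul]
  norm_num

end Pool.Agent.MSTLim
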