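import Pool.Agent.TriPerc.Ann

/-!
# Arms in twelve disjoint cones

`Cn` is the cone `-7/16 b ≤ a ≤ -1/16 b` of the vertices `(a, b)`, `b > 0`.  `fk k s` (`k < 6`,
`s : Bool`) are twelve automorphisms (rotations, composed with the reflection `vref 0` for
`s = true`), `Dc k s` is the set of the vertices which are mapped into `Cn` by `fk k s`.  These
twelve cones are pairwise disjoint.  `chain`: crossings of the boxes
`Par (-7 U) (-3 U) (16 U) (48 U)` from bottom to top and of `Par (-14 U) (-3 U) (32 U) (48 U)` from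
left to right, `U = 2 ^ j u`, `j < J`, contain a path in the cone from the row `16 u` to the row
`48 * 2 ^ (J - 1) u`.
-/

namespace Pool.Agent.MSTLim

open Pool.Agent.TriPerc

variable {S : Set V} {u v x y : V}

/-- The standard cone. -/
def Cn : Set V := {v | 0 < v.2 ∧ -(7 * v.2) ≤ 16 * v.1 ∧ 16 * v.1 ≤ -v.2}

theorem nrm_cn (h : v ∈ Cn) : nrm v = v.2 ∧ |v.1| < v.2 ∧ |v.1 + v.2| < v.2 := by
  obtain ⟨h1, h2, h3⟩ := h
  have h4 : |v.1| < v.2 := abs_lt.mpr ⟨by omega, by omega⟩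
  have h5 : |v.1 + v.2| < v.2 := abs_lt.mpr ⟨by omega, by omega⟩
  refine ⟨?_, h4, h5⟩
  unfold nrm
  rw [abs_of_pos h1, max_eq_right h4.le, max_eq_left h5.le]

private theorem meet_pv_ph {l r b t l' r' b' t' : ℤ} (hl : l' ≤ l) (hr : r ≤ r') (hb : b ≤ b')
    (ht : t' ≤ t) {a c : V} (ha : Conn (S ∩ Par l r b t) a c) (ha2 : a.2 ≤ b) (hc2 : t ≤ c.2)
    (hx : Conn (S ∩ Par l' r' b' t') x y) (hx1 : x.1 ≤ l') (hy1 : r' ≤ y.1) :
    ∃ z, Conn (S ∩ Par l r b t) a z ∧ Conn (S ∩ Par l' r' b' t') x z := by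
  by_contra hcon
  push Not at hcon
  refine no_LR (S := comp (S ∩ Par l' r' b' t') x) (T := comp (S ∩ Par l r b t) a)
    (Set.disjoint_left.mpr fun z h1 h2 => hcon z h2 h1) hx.in_comp ha.in_comp ?_ ?_ ?_ ?_
  · intro z hz
    have h1 : z ∈ S ∩ Par l' r' b' t' := Conn.right hz
    exact ha2.trans (hb.trans h1.2.2.2.1)
  · intro z hz
    have h1 : z ∈ S ∩ Par l' r' b' t' := Conn.right hz
    exact h1.2.2.2.2.trans (ht.trans hc2)
  · intro z hz _
    have h1 : z ∈ S ∩ Par l r b t := Conn.right hz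
    exact hx1.trans (hl.trans h1.2.1)
  · intro z hz _
    have h1 : z ∈ S ∩ Par l r b t := Conn.right hz
    exact (h1.2.2.1.trans hr).trans hy1

/-- The crossings at the scale `U`. -/
def Sc (S : Set V) (U : ℤ) : Prop :=
  PV S (-(7 * U)) (-(3 * U)) (16 * U) (48 * U) ∧ PH S (-(14 * U)) (-(3 * U)) (32 * U) (48 * U)

theorem par_sub_cn {U : ℤ} (hU : 1 ≤ U) : Par (-(7 * U)) (-(3 * U)) (16 * U) (48 * U) ⊆ Cn ∧
    Par (-(14 * U)) (-(3 * U)) (32 * U) (48 * U) ⊆ Cn := by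
  constructor
  · rintro z ⟨h2, h3, h4, h5⟩
    exact ⟨by omega, by omega, by omega⟩
  · rintro z ⟨h2, h3, h4, h5⟩
    exact ⟨by omega, by omega, by omega⟩

theorem chain {w : ℤ} (hw : 1 ≤ w) (J : ℕ) (h : ∀ j < J + 1, Sc S (2 ^ j * w)) :
    ∃ x y, x.2 ≤ 16 * w ∧ 48 * (2 ^ J * w) ≤ y.2 ∧ Conn (S ∩ Cn) x y := by
  have hP : ∀ U : ℤ, 1 ≤ U → S ∩ Par (-(7 * U)) (-(3 * U)) (16 * U) (48 * U) ⊆ S ∩ Cn := by
    rintro U hU z ⟨h1, h2, h3, h4, h5⟩
    exact ⟨h1, by omega, by omega, by omega⟩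
  have hQ : ∀ U : ℤ, 1 ≤ U → S ∩ Par (-(14 * U)) (-(3 * U)) (32 * U) (48 * U) ⊆ S ∩ Cn := by
    rintro U hU z ⟨h1, h2, h3, h4, h5⟩
    exact ⟨h1, by omega, by omega, by omega⟩
  have key : ∀ J : ℕ, (∀ j < J + 1, Sc S (2 ^ j * w)) → ∃ x a b, x.2 ≤ 16 * w ∧
      a.2 ≤ 16 * (2 ^ J * w) ∧ 48 * (2 ^ J * w) ≤ b.2 ∧
      Conn (S ∩ Par (-(7 * (2 ^ J * w))) (-(3 * (2 ^ J * w))) (16 * (2 ^ J * w))
        (48 * (2 ^ J * w))) a b ∧ Conn (S ∩ Cn) x a := by
    intro J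
    induction J with
    | zero =>
      intro h
      obtain ⟨⟨a, ha, b, hb, hab⟩, -⟩ := h 0 (by omega)
      replace ha : a.2 ≤ 16 * (2 ^ 0 * w) := ha
      replace hb : 48 * (2 ^ 0 * w) ≤ b.2 := hb
      refine ⟨a, a, b, by simpa using ha, ha, hb, hab, Conn.refl ?_⟩
      exact hP _ (by simpa using hw) hab.left
    | succ J ih =>
      intro h
      obtain ⟨x, a, b, hx, ha, hb, hab, hxa⟩ := ih fun j hj => h j (by omega)
      have hU : (1 : ℤ) ≤ 2 ^ J * w := by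
        have : (1 : ℤ) ≤ 2 ^ J := one_le_pow₀ (by norm_num)
        nlinarith
      obtain ⟨U, hUdef⟩ : ∃ U : ℤ, U = 2 ^ J * w := ⟨_, rfl⟩
      rw [← hUdef] at hU ha hb hab
      have h2 : (2 : ℤ) ^ (J + 1) * w = 2 * U := by rw [hUdef]; ring
      rw [h2]
      obtain ⟨-, c, hc, d, hd, hcd⟩ := h J (by omega)
      obtain ⟨⟨a', ha', b', hb', hab'⟩, -⟩ := h (J + 1) (by omega)
      rw [h2] at ha' hb' hab'
      rw [← hUdef] at hc hd hcd
      replace hc : c.1 ≤ -(14 * U) := hc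
      replace hd : -(3 * U) ≤ d.1 := hd
      replace ha' : a'.2 ≤ 16 * (2 * U) := ha'
      replace hb' : 48 * (2 * U) ≤ b'.2 := hb'
      obtain ⟨z, hz1, hz2⟩ := meet_pv_ph (by omega) le_rfl (by omega) le_rfl hab ha hb hcd hc hd
      obtain ⟨z', hz1', hz2'⟩ := meet_pv_ph (by omega) (by omega) (by omega) (by omega) hab'
        ha' hb' hcd hc hd
      refine ⟨x, a', b', hx, ha', hb', hab', ?_⟩
      exact hxa.trans ((hz1.mono (hP U hU)).trans ((hz2.symm.trans hz2').mono (hQ U hU) |>.trans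
        (hz1'.symm.mono (hP _ (by omega)))))
  obtain ⟨x, a, b, hx, -, hb, hab, hxa⟩ := key J h
  have hU : (1 : ℤ) ≤ 2 ^ J * w := by
    have : (1 : ℤ) ≤ 2 ^ J := one_le_pow₀ (by norm_num)
    nlinarith
  exact ⟨x, b, hx, hb, hxa.trans (hab.mono (hP _ hU))⟩

/-! ### The twelve frames -/

/-- The twelve frames. -/
def fk (k : ℕ) (s : Bool) : V ≃ V := (rot ^ k).trans (if s then vref 0 else Equiv.refl V)

/-- The twelve cones. -/
def Dc (k : ℕ) (s : Bool) : Set V := {v | fk k s v ∈ Cn}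

private theorem isAut_pow (k : ℕ) : IsAut (rot ^ k) := by
  induction k with
  | zero => exact fun u v => Iff.rfl
  | succ k ih =>
    intro u v
    rw [pow_succ', Equiv.Perm.mul_apply, Equiv.Perm.mul_apply, isAut_rot, ih]

theorem isAut_fk (k : ℕ) (s : Bool) : IsAut (fk k s) := by
  intro u v
  cases s
  · exact isAut_pow k u v
  · simp only [fk, if_true, Equiv.trans_apply]
    rw [isAut_vref 0, isAut_pow k]

private theorem nrm_vref (v : V) : nrm (vref 0 v) = nrm v := by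
  unfold nrm vref
  simp only [Equiv.coe_fn_mk]
  have e1 : 0 - v.1 - v.2 = -(v.1 + v.2) := by ring
  have e2 : -(v.1 + v.2) + v.2 = -v.1 := by ring
  rw [e1, e2, abs_neg, abs_neg, max_right_comm, max_comm |v.1 + v.2| |v.1|, max_right_comm]

private theorem nrm_rot (v : V) : nrm (rot v) = nrm v := by
  unfold nrm rot
  simp only [Equiv.coe_fn_mk]
  have e2 : -v.2 + (v.1 + v.2) = v.1 := by ring
  rw [e2, abs_neg, max_comm (max |v.2| |v.1 + v.2|) |v.1|, ← max_assoc]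

private theorem nrm_pow (k : ℕ) (v : V) : nrm ((rot ^ k) v) = nrm v := by
  induction k with
  | zero => rfl
  | succ k ih => rw [pow_succ', Equiv.Perm.mul_apply, nrm_rot, ih]

theorem nrm_fk (k : ℕ) (s : Bool) (v : V) : nrm (fk k s v) = nrm v := by
  cases s
  · exact nrm_pow k v
  · simp only [fk, if_true, Equiv.trans_apply]
    rw [nrm_vref, nrm_pow]

private theorem rot_pow_lt {v : V} (h : nrm v = v.2) (h1 : |v.1| < v.2) (h2 : |v.1 + v.2| < v.2)
    {k : ℕ} (hk0 : 0 < k) (hk : k < 6) : ((rot ^ k) v).2 < nrm v := by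
  rw [h]
  rw [abs_lt] at h1 h2
  interval_cases k <;>
  simp only [pow_succ, pow_zero, one_mul, Equiv.Perm.mul_apply, rot, Equiv.coe_fn_mk] <;> omega

private theorem row_fk (k : ℕ) (s : Bool) (v : V) : (fk k s v).2 = ((rot ^ k) v).2 := by
  cases s <;> rfl

private theorem rot_six (v : V) : (rot ^ 6) v = v := by
  simp only [pow_succ, pow_zero, one_mul, Equiv.Perm.mul_apply, rot, Equiv.coe_fn_mk]
  ext <;> simp

theorem Dc_disjoint {k k' : ℕ} {s s' : Bool} (hk : k < 6) (hk' : k' < 6)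
    (h : k ≠ k' ∨ s ≠ s') : Disjoint (Dc k s) (Dc k' s') := by
  rw [Set.disjoint_left]
  have key : ∀ (k k' : ℕ) (s s' : Bool) (v : V), k < k' → k' < 6 → v ∈ Dc k s → v ∈ Dc k' s' →
      False := by
    intro k k' s s' v hkk hk' h1 h2
    obtain ⟨a1, a2, a3⟩ := nrm_cn h1
    obtain ⟨b1, -, -⟩ := nrm_cn h2
    rw [nrm_fk, row_fk] at a1 b1
    have hv : nrm ((rot ^ k) v) = ((rot ^ k) v).2 := by rw [nrm_pow, a1]
    have c1 : |((rot ^ k) v).1| < ((rot ^ k) v).2 ∧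
        |((rot ^ k) v).1 + ((rot ^ k) v).2| < ((rot ^ k) v).2 := by
      cases s
      · exact ⟨a2, a3⟩
      · simp only [fk, if_true, Equiv.trans_apply, vref, Equiv.coe_fn_mk] at a2 a3
        rw [abs_lt] at *
        rw [abs_lt]
        constructor <;> constructor <;> omega
    have h3 := rot_pow_lt hv c1.1 c1.2 (k := k' - k) (by omega) (by omega)
    rw [← Equiv.Perm.mul_apply, ← pow_add, show k' - k + k = k' by omega, nrm_pow] at h3
    omega
  intro v h1 h2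
  rcases lt_trichotomy k k' with hlt | heq | hgt
  · exact key k k' s s' v hlt hk' h1 h2
  · subst heq
    have hs : s ≠ s' := by simpa using h
    have aux : ∀ v : V, v ∈ Cn → vref 0 v ∈ Cn → False := by
      rintro v ⟨h1, h2, h3⟩ ⟨h4, h5, h6⟩
      simp only [vref, Equiv.coe_fn_mk] at h4 h5 h6
      omega
    cases s <;> cases s'
    · exact hs rfl
    · exact aux _ h1 h2
    · exact aux _ h2 h1
    · exact hs rfl
  · exact key k' k s' s v hgt hk h2 h1

/-- The chain of crossings in the frame `fk k s`. -/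
theorem arm_of_chain {w : ℤ} (hw : 1 ≤ w) (J k : ℕ) (s : Bool) {n m : ℤ} (hn : 16 * w ≤ n)
    (hnm : n ≤ m) (hm : m ≤ 48 * (2 ^ J * w))
    (h : ∀ j < J + 1, Sc {v | (fk k s).symm v ∈ S} (2 ^ j * w)) : Arm (S ∩ Dc k s) 0 n m := by
  obtain ⟨x, y, hx, hy, hxy⟩ := chain hw J h
  have hg := isAut_fk k s
  have h1 : Conn ((fk k s) ⁻¹' ({v | (fk k s).symm v ∈ S} ∩ Cn)) ((fk k s).symm x)
      ((fk k s).symm y) := by
    rw [conn_preimage hg, Equiv.apply_symm_apply, Equiv.apply_symm_apply]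
    exact hxy
  have h2 : (fk k s) ⁻¹' ({v | (fk k s).symm v ∈ S} ∩ Cn) = S ∩ Dc k s := by
    ext z
    simp only [Set.mem_preimage, Set.mem_inter_iff, Set.mem_ofPred_eq, Equiv.symm_apply_apply, Dc]
  rw [h2] at h1
  have hnx : nrm ((fk k s).symm x) = x.2 := by
    rw [← nrm_fk k s, Equiv.apply_symm_apply]
    exact (nrm_cn hxy.left.2).1
  have hny : nrm ((fk k s).symm y) = y.2 := by
    rw [← nrm_fk k s, Equiv.apply_symm_apply]
    exact (nrm_cn hxy.right.2).1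
  refine arm_of_conn h1 ?_ ?_ hnm
  · rw [sub_zero, hnx]
    omega
  · rw [sub_zero, hny]
    omega

end Pool.Agent.MSTLim
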