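import Pool.Agent.TriPerc.Defs
import Mathlib.Analysis.Complex.ExponentialBounds

/-!
# Counting the sets of gates

`count_gain`: `E` is the event `E_F`, `Z` the end event, `Good j` says that the block `j` is good;
for all sets `S` of `k` blocks the relabelling gives
`P (E ∩ Z ∩ {S ⊆ Good}) ≤ C0 Q ^ k P (E2 S)`, and almost every configuration lies in at most `m0` of
the events `E2 S`.  Then the union of the events `E2 S` has probability at least `exp (c n) P E`.
-/

namespace Pool.Agent.MSTLim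

open MeasureTheory Set Filter
open Pool.Agent.TriPerc
open scoped ENNReal

/-- The set of the good blocks contains `S`. -/
def Gs (Good : ℕ → Set Lab) (S : Finset ℕ) : Set Lab := {w | ∀ j ∈ S, w ∈ Good j}

open Classical in
/-- The number of good blocks. -/
noncomputable def ng (Good : ℕ → Set Lab) (n : ℕ) (w : Lab) : ℕ :=
  ((Finset.range n).filter fun j => w ∈ Good j).card

theorem meas_Gs {Good : ℕ → Set Lab} (h : ∀ j, MeasurableSet (Good j)) (S : Finset ℕ) :
    MeasurableSet (Gs Good S) := by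
  have : Gs Good S = ⋂ j ∈ S, Good j := by
    ext w
    simp [Gs]
  rw [this]
  exact MeasurableSet.biInter S.countable_toSet fun j _ => h j

theorem meas_ng {Good : ℕ → Set Lab} (h : ∀ j, MeasurableSet (Good j)) (n g : ℕ) :
    MeasurableSet {w | g ≤ ng Good n w} := by
  classical
  have : {w | g ≤ ng Good n w} = ⋃ J ∈ (Finset.range n).powerset.filter (fun J => g ≤ J.card),
      Gs Good J := by
    ext w
    simp only [mem_iUnion, Finset.mem_filter, Finset.mem_powerset, exists_prop]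
    constructor
    · intro hw
      exact ⟨(Finset.range n).filter fun j => w ∈ Good j, ⟨Finset.filter_subset _ _, hw⟩,
        fun j hj => (Finset.mem_filter.1 hj).2⟩
    · rintro ⟨J, ⟨h1, h2⟩, h3⟩
      exact h2.trans (Finset.card_le_card fun j hj => Finset.mem_filter.2 ⟨h1 hj, h3 j hj⟩)
  rw [this]
  exact Finset.measurableSet_biUnion _ fun J _ => meas_Gs h J

/-- The counting. -/
theorem count {n g k m0 : ℕ} {lam : ℝ≥0∞} {A : Set Lab} {Good : ℕ → Set Lab}
    {E2 : Finset ℕ → Set Lab} (hA : MeasurableSet A) (hG : ∀ j, MeasurableSet (Good j))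
    (hE2 : ∀ S, MeasurableSet (E2 S))
    (hS : ∀ S ∈ (Finset.range n).powersetCard k, P (A ∩ Gs Good S) ≤ lam * P (E2 S))
    (hm : ∀ᵐ w ∂P, ∀ T ⊆ (Finset.range n).powersetCard k, (∀ S ∈ T, w ∈ E2 S) → T.card ≤ m0) :
    (g.choose k : ℝ≥0∞) * P (A ∩ {w | g ≤ ng Good n w}) ≤
      lam * m0 * P (⋃ S ∈ (Finset.range n).powersetCard k, E2 S) := by
  classical
  have e1 : ∑ S ∈ (Finset.range n).powersetCard k, P (A ∩ Gs Good S) =
      ∫⁻ w, ∑ S ∈ (Finset.range n).powersetCard k, (A ∩ Gs Good S).indicator 1 w ∂P := by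
    rw [lintegral_finsetSum _ fun S _ => measurable_one.indicator (hA.inter (meas_Gs hG S))]
    exact Finset.sum_congr rfl fun S _ =>
      (lintegral_indicator_one (hA.inter (meas_Gs hG S))).symm
  have e2 : ∑ S ∈ (Finset.range n).powersetCard k, P (E2 S) =
      ∫⁻ w, ∑ S ∈ (Finset.range n).powersetCard k, (E2 S).indicator 1 w ∂P := by
    rw [lintegral_finsetSum _ fun S _ => measurable_one.indicator (hE2 S)]
    exact Finset.sum_congr rfl fun S _ => (lintegral_indicator_one (hE2 S)).symm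
  have h1 : (g.choose k : ℝ≥0∞) * P (A ∩ {w | g ≤ ng Good n w}) ≤
      ∑ S ∈ (Finset.range n).powersetCard k, P (A ∩ Gs Good S) := by
    rw [e1, ← lintegral_indicator_one (hA.inter (meas_ng hG n g)),
      ← lintegral_const_mul _ (measurable_one.indicator (hA.inter (meas_ng hG n g)))]
    refine lintegral_mono fun w => ?_
    by_cases hw : w ∈ A ∩ {w | g ≤ ng Good n w}
    · rw [indicator_of_mem hw, Pi.one_apply, mul_one]
      have h2 : ((Finset.range n).filter fun j => w ∈ Good j).powersetCard k ⊆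
          (Finset.range n).powersetCard k :=
        Finset.powersetCard_mono (Finset.filter_subset _ _)
      refine le_trans ?_ (Finset.sum_le_sum_of_subset h2)
      have h3 : ∀ S ∈ ((Finset.range n).filter fun j => w ∈ Good j).powersetCard k,
          (A ∩ Gs Good S).indicator (1 : Lab → ℝ≥0∞) w = 1 := by
        intro S hS
        rw [indicator_of_mem, Pi.one_apply]
        exact ⟨hw.1, fun j hj => (Finset.mem_filter.1
          ((Finset.mem_powersetCard.1 hS).1 hj)).2⟩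
      rw [Finset.sum_congr rfl h3, Finset.sum_const, Finset.card_powersetCard, nsmul_eq_mul,
        mul_one]
      exact_mod_cast Nat.choose_le_choose k (show g ≤ _ from hw.2)
    · rw [indicator_of_notMem hw, mul_zero]
      exact zero_le
  have h2 : ∑ S ∈ (Finset.range n).powersetCard k, P (E2 S) ≤
      m0 * P (⋃ S ∈ (Finset.range n).powersetCard k, E2 S) := by
    have hU : MeasurableSet (⋃ S ∈ (Finset.range n).powersetCard k, E2 S) :=
      Finset.measurableSet_biUnion _ fun S _ => hE2 S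
    rw [e2, ← lintegral_indicator_one hU, ← lintegral_const_mul _ (measurable_one.indicator hU)]
    refine lintegral_mono_ae ?_
    filter_upwards [hm] with w hw
    have h3 : ∑ S ∈ (Finset.range n).powersetCard k, (E2 S).indicator (1 : Lab → ℝ≥0∞) w =
        (((Finset.range n).powersetCard k).filter fun S => w ∈ E2 S).card := by
      rw [Finset.card_filter, Nat.cast_sum]
      refine Finset.sum_congr rfl fun S _ => ?_
      by_cases h : w ∈ E2 S
      · rw [indicator_of_mem h, if_pos h]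
        simp
      · rw [indicator_of_notMem h, if_neg h]
        simp
    rw [h3]
    have h4 := hw _ (Finset.filter_subset (fun S => w ∈ E2 S) _)
      fun S hS => (Finset.mem_filter.1 hS).2
    by_cases h : w ∈ ⋃ S ∈ (Finset.range n).powersetCard k, E2 S
    · rw [indicator_of_mem h, Pi.one_apply, mul_one]
      exact_mod_cast h4
    · rw [indicator_of_notMem h, mul_zero]
      have : (((Finset.range n).powersetCard k).filter fun S => w ∈ E2 S) = ∅ := by
        rw [Finset.filter_eq_empty_iff]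
        intro S hS hw
        exact h (mem_iUnion₂.2 ⟨S, hS, hw⟩)
      rw [this]
      simp
  calc (g.choose k : ℝ≥0∞) * P (A ∩ {w | g ≤ ng Good n w})
      ≤ ∑ S ∈ (Finset.range n).powersetCard k, P (A ∩ Gs Good S) := h1
    _ ≤ ∑ S ∈ (Finset.range n).powersetCard k, lam * P (E2 S) := Finset.sum_le_sum hS
    _ = lam * ∑ S ∈ (Finset.range n).powersetCard k, P (E2 S) := by rw [Finset.mul_sum]
    _ ≤ lam * (m0 * P (⋃ S ∈ (Finset.range n).powersetCard k, E2 S)) :=
        mul_le_mul' le_rfl h2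
    _ = _ := by ring

/-- The choice of the number of gates. -/
theorem choose_big {Q D : ℝ} (hQ : 1 ≤ Q) (hD : 1 ≤ D) : ∃ c : ℝ, 0 < c ∧ ∃ n₀ : ℕ, ∀ n ≥ n₀,
    ∃ k, 1 ≤ k ∧ k ≤ n ∧ Real.exp (c * n) * (D * Q ^ k) ≤ ((n / 2).choose k : ℝ) := by
  refine ⟨1 / (64 * Q), by positivity, ⌈64 * Q * (Real.log D + 1)⌉₊, fun n hn => ?_⟩
  have hn1 : 64 * Q * (Real.log D + 1) ≤ n :=
    (Nat.le_ceil _).trans (by exact_mod_cast hn)
  have hlD : 0 ≤ Real.log D := Real.log_nonneg hD
  have hn2 : 64 * Q ≤ n := by nlinarith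
  have hn3 : (64 : ℝ) ≤ n := by linarith
  obtain ⟨k, hk⟩ : ∃ k : ℕ, k = ⌊(n : ℝ) / (16 * Q)⌋₊ := ⟨_, rfl⟩
  have k1 : (k : ℝ) ≤ n / (16 * Q) := by
    rw [hk]
    exact Nat.floor_le (by positivity)
  have k2 : (n : ℝ) / (32 * Q) ≤ k := by
    have h1 : (n : ℝ) / (16 * Q) < k + 1 := by
      rw [hk]
      exact Nat.lt_floor_add_one _
    have h2 : (n : ℝ) / (16 * Q) = n / (32 * Q) + n / (32 * Q) := by
      field_simp
      ring
    have h3 : 1 ≤ (n : ℝ) / (32 * Q) := by
      rw [le_div_iff₀ (by positivity)]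
      linarith
    linarith
  have k3 : (k : ℝ) ≤ n / 16 := by
    refine k1.trans (div_le_div_of_nonneg_left (by positivity) (by norm_num) (by linarith))
  have k4 : 1 ≤ k := by
    have h3 : 1 ≤ (n : ℝ) / (32 * Q) := by
      rw [le_div_iff₀ (by positivity)]
      linarith
    have : (1 : ℝ) ≤ k := h3.trans k2
    exact_mod_cast this
  have k5 : k ≤ n / 2 := by
    have : (k : ℝ) ≤ n / 16 := k3
    have h : 16 * (k : ℝ) ≤ n := by linarith
    have h' : 16 * k ≤ n := by exact_mod_cast h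
    omega
  refine ⟨k, k4, by omega, ?_⟩
  have c1 := Nat.pow_le_choose (α := ℝ) k (n / 2)
  have c2 : ((k.factorial : ℕ) : ℝ) ≤ (k : ℝ) ^ k := by exact_mod_cast Nat.factorial_le_pow k
  have hk0 : (0 : ℝ) < k := by exact_mod_cast k4
  have c3 : (n : ℝ) / 4 ≤ ((n / 2 + 1 - k : ℕ) : ℝ) := by
    have h1 : n ≤ 2 * (n / 2 + 1 - k) + 2 * k := by omega
    have h2 : (n : ℝ) ≤ 2 * ((n / 2 + 1 - k : ℕ) : ℝ) + 2 * k := by exact_mod_cast h1
    linarith
  have c4 : 4 * Q * k ≤ ((n / 2 + 1 - k : ℕ) : ℝ) := by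
    refine le_trans ?_ c3
    rw [le_div_iff₀ (by positivity)] at k1
    linarith
  have c5 : (4 * Q) ^ k ≤ ((n / 2).choose k : ℝ) := by
    refine le_trans ?_ c1
    rw [le_div_iff₀ (by positivity)]
    calc (4 * Q) ^ k * (k.factorial : ℝ) ≤ (4 * Q) ^ k * (k : ℝ) ^ k := by gcongr
      _ = (4 * Q * k) ^ k := by rw [mul_pow (4 * Q)]
      _ ≤ ((n / 2 + 1 - k : ℕ) : ℝ) ^ k := pow_le_pow_left₀ (by positivity) c4 k
  refine le_trans ?_ c5
  rw [mul_pow, ← mul_assoc]
  refine mul_le_mul_of_nonneg_right ?_ (by positivity)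
  have c6 : Real.exp (1 / (64 * Q) * n) * D ≤ Real.exp k := by
    nth_rewrite 1 [← Real.exp_log (by linarith : 0 < D)]
    rw [← Real.exp_add]
    refine Real.exp_le_exp.2 (le_trans ?_ k2)
    have h1 : Real.log D ≤ n / (64 * Q) := by
      rw [le_div_iff₀ (by positivity)]
      nlinarith
    have h2 : (n : ℝ) / (32 * Q) = n / (64 * Q) + n / (64 * Q) := by
      field_simp
      ring
    have h3 : 1 / (64 * Q) * (n : ℝ) = n / (64 * Q) := by ring
    rw [h2, h3]
    linarith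
  refine c6.trans ?_
  have c7 : Real.exp k = Real.exp 1 ^ k := by
    rw [← Real.exp_nat_mul, mul_one]
  rw [c7]
  refine pow_le_pow_left₀ (Real.exp_pos _).le ?_ k
  have := Real.exp_one_lt_d9
  linarith

/-- **The gain from the choice of the gates.** -/
theorem count_gain {Q C0 : ℝ} (hQ : 1 ≤ Q) (hC0 : 0 ≤ C0) (m0 : ℕ) :
    ∃ c : ℝ, 0 < c ∧ ∃ n₀ : ℕ, ∀ n ≥ n₀, ∃ k, 1 ≤ k ∧ k ≤ n ∧
      ∀ (A E : Set Lab) (Good : ℕ → Set Lab)
      (E2 : Finset ℕ → Set Lab), MeasurableSet A → (∀ j, MeasurableSet (Good j)) →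
      (∀ S, MeasurableSet (E2 S)) → P E ≤ 2 * P (A ∩ {w | n / 2 ≤ ng Good n w}) →
      (∀ S ∈ (Finset.range n).powersetCard k,
        P (A ∩ Gs Good S) ≤ ENNReal.ofReal (C0 * Q ^ k) * P (E2 S)) →
      (∀ᵐ w ∂P, ∀ T ⊆ (Finset.range n).powersetCard k, (∀ S ∈ T, w ∈ E2 S) → T.card ≤ m0) →
      ENNReal.ofReal (Real.exp (c * n)) * P E ≤
        P (⋃ S ∈ (Finset.range n).powersetCard k, E2 S) := by
  obtain ⟨c, hc, n₀, h0⟩ := choose_big (D := 1 + 2 * (C0 * m0)) hQ (by
    have : (0 : ℝ) ≤ m0 := Nat.cast_nonneg _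
    have := mul_nonneg hC0 this
    linarith)
  refine ⟨c, hc, n₀, fun n hn => ?_⟩
  obtain ⟨k, hk1, hk, h1⟩ := h0 n hn
  refine ⟨k, hk1, hk, fun A E Good E2 hA hG hE2 hE hS hm => ?_⟩
  have h2 := count (g := n / 2) hA hG hE2 hS hm
  have hm0 : (0 : ℝ) ≤ m0 := Nat.cast_nonneg _
  have hx : (0 : ℝ) < 1 + 2 * (C0 * m0) := by positivity
  have hD : (0 : ℝ) < (1 + 2 * (C0 * m0)) * Q ^ k := by positivity
  have h3 : ENNReal.ofReal (Real.exp (c * n)) * ENNReal.ofReal ((1 + 2 * (C0 * m0)) * Q ^ k) ≤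
      ((n / 2).choose k : ℝ≥0∞) := by
    rw [← ENNReal.ofReal_mul (Real.exp_pos _).le, ← ENNReal.ofReal_natCast]
    exact ENNReal.ofReal_le_ofReal h1
  have h4 : ENNReal.ofReal (C0 * Q ^ k) * m0 * 2 ≤
      ENNReal.ofReal ((1 + 2 * (C0 * m0)) * Q ^ k) := by
    rw [← ENNReal.ofReal_natCast, ← ENNReal.ofReal_ofNat, ← ENNReal.ofReal_mul (by positivity),
      ← ENNReal.ofReal_mul (by positivity)]
    refine ENNReal.ofReal_le_ofReal ?_
    have : 0 ≤ Q ^ k := by positivity
    linarith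
  have h5 : ENNReal.ofReal ((1 + 2 * (C0 * m0)) * Q ^ k) *
      (ENNReal.ofReal (Real.exp (c * n)) * P E) ≤
      ENNReal.ofReal ((1 + 2 * (C0 * m0)) * Q ^ k) *
        P (⋃ S ∈ (Finset.range n).powersetCard k, E2 S) := by
    calc ENNReal.ofReal ((1 + 2 * (C0 * m0)) * Q ^ k) *
        (ENNReal.ofReal (Real.exp (c * n)) * P E)
        = (ENNReal.ofReal (Real.exp (c * n)) * ENNReal.ofReal ((1 + 2 * (C0 * m0)) * Q ^ k)) *
          P E := by ring
      _ ≤ ((n / 2).choose k : ℝ≥0∞) * (2 * P (A ∩ {w | n / 2 ≤ ng Good n w})) :=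
          mul_le_mul' h3 hE
      _ = ((n / 2).choose k : ℝ≥0∞) * P (A ∩ {w | n / 2 ≤ ng Good n w}) * 2 := by ring
      _ ≤ ENNReal.ofReal (C0 * Q ^ k) * m0 *
          P (⋃ S ∈ (Finset.range n).powersetCard k, E2 S) * 2 := mul_le_mul' h2 le_rfl
      _ = ENNReal.ofReal (C0 * Q ^ k) * m0 * 2 *
          P (⋃ S ∈ (Finset.range n).powersetCard k, E2 S) := by ring
      _ ≤ _ := mul_le_mul' h4 le_rfl
  have h6 : ENNReal.ofReal ((1 + 2 * (C0 * m0)) * Q ^ k) ≠ 0 := by
    rw [Ne, ENNReal.ofReal_eq_zero, not_le]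
    exact hD
  exact (ENNReal.mul_le_mul_iff_right h6 ENNReal.ofReal_ne_top).1 h5

end Pool.Agent.MSTLim
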