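import Pool.Agent.TriPerc.Defs
import Mathlib.Topology.MetricSpace.Closeds

/-!
# The scaling limit of the minimal spanning tree: definitions

## The lattice and the minimal spanning tree

The triangular lattice is `V = ℤ × ℤ` with `Adj`; its embedding in the plane is
`emb (a, b) = a + b * exp (i pi / 3)`.  The labels `ω : V → ℝ` are independent and uniform on
`[0, 1]` (law `P`).  The label of the edge `x y` is the vector
`U ω x y = (max (ω x) (ω y), min (ω x) (ω y))`, compared lexicographically.  The edge `x y` belongs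
to the minimal spanning tree iff it is not the largest edge of any cycle, i.e. iff `x` and `y` are
not joined by a path of edges with smaller labels (`MST`).

## Curves and configurations

`Sph` is the Riemann sphere, the unit sphere of `ℂ × ℝ`; `sig : ℂ → Sph` is the inverse of the
stereographic projection; the point at infinity is `(0, 1)`.
`Cur` is the space of curves `[0, 1] → Sph` with the distance
`dist γ δ = inf over increasing homeomorphisms φ of [0, 1] of sup_t |γ t - δ (φ t)|`,
`Curve` is its metric quotient, and `Om` is the space of closed sets of curves with the Hausdorff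
distance.  The configuration `conf η ω` of the minimal spanning tree with mesh `η` is the closure
of the set of all finite tree paths (polygonal curves in the plane, seen on the sphere).

## Convergence in law and conformal invariance

`TendsLaw l η μ`: the laws of `conf (η k)` converge weakly to `μ` along the filter `l`.
`ConfInv μ`: the law `μ` is preserved by all Moebius transformations of the sphere.
-/

namespace Pool.Agent.MSTLim

open MeasureTheory Filter Topology Set
open scoped NNReal ENNReal BoundedContinuousFunction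
open Pool.Agent.TriPerc (V Adj Lab P)

/-! ### The Riemann sphere -/

/-- The Riemann sphere as the unit sphere of `ℂ × ℝ`. -/
abbrev Sph : Type := {p : ℂ × ℝ // ‖p.1‖ ^ 2 + p.2 ^ 2 = 1}

private theorem Sph_closed : IsClosed {p : ℂ × ℝ | ‖p.1‖ ^ 2 + p.2 ^ 2 = 1} :=
  isClosed_eq (by fun_prop) (by fun_prop)

instance : CompactSpace Sph := by
  refine isCompact_iff_compactSpace.mp (Metric.isCompact_of_isClosed_isBounded Sph_closed ?_)
  refine (Metric.isBounded_closedBall (x := (0 : ℂ × ℝ)) (r := 1)).subset ?_
  intro p hp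
  rw [mem_closedBall_zero_iff, Prod.norm_def]
  have h : ‖p.1‖ ^ 2 + p.2 ^ 2 = 1 := hp
  refine max_le ?_ ?_
  · nlinarith [norm_nonneg p.1, sq_nonneg p.2]
  · rw [Real.norm_eq_abs]
    refine abs_le_of_sq_le_sq ?_ zero_le_one
    nlinarith [norm_nonneg p.1, sq_nonneg p.2]

/-- The inverse of the stereographic projection. -/
noncomputable def sig (z : ℂ) : Sph :=
  ⟨((2 / (1 + ‖z‖ ^ 2) : ℝ) * z, (‖z‖ ^ 2 - 1) / (‖z‖ ^ 2 + 1)), by
    have h : (0 : ℝ) < 1 + ‖z‖ ^ 2 := by positivity
    simp only [norm_mul, Complex.norm_real, Real.norm_eq_abs]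
    rw [abs_of_nonneg (by positivity)]
    field_simp
    ring⟩

theorem continuous_sig : Continuous sig := by
  refine Continuous.subtype_mk ?_ _
  refine Continuous.prodMk ?_ ?_
  · refine Continuous.mul (Complex.continuous_ofReal.comp ?_) continuous_id
    exact Continuous.div (by fun_prop) (by fun_prop) (fun z => by positivity)
  · exact Continuous.div (by fun_prop) (by fun_prop) (fun z => by positivity)

/-! ### Curves -/

/-- A curve on the sphere. -/
structure Cur where
  /-- the parametrised curve -/
  map : C(unitInterval, Sph)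

/-- The change of parameter by an increasing homeomorphism. -/
noncomputable def Cur.rep (γ : Cur) (φ : unitInterval ≃o unitInterval) : Cur :=
  ⟨γ.map.comp ⟨φ, φ.continuous⟩⟩

theorem dist_rep (γ δ : Cur) (φ : unitInterval ≃o unitInterval) :
    dist (γ.rep φ).map (δ.rep φ).map = dist γ.map δ.map := by
  apply le_antisymm
  · refine (ContinuousMap.dist_le dist_nonneg).mpr fun t => ?_
    exact ContinuousMap.dist_apply_le_dist (f := γ.map) (g := δ.map) (φ t)
  · refine (ContinuousMap.dist_le dist_nonneg).mpr fun t => ?_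
    have h := ContinuousMap.dist_apply_le_dist (f := (γ.rep φ).map) (g := (δ.rep φ).map)
      (φ.symm t)
    simpa [Cur.rep] using h

theorem rep_rep (γ : Cur) (φ ψ : unitInterval ≃o unitInterval) :
    (γ.rep φ).rep ψ = γ.rep (ψ.trans φ) := rfl

theorem rep_refl (γ : Cur) : γ.rep (OrderIso.refl _) = γ := rfl

private theorem bdd (γ δ : Cur) :
    BddBelow (range fun φ : unitInterval ≃o unitInterval => dist γ.map (δ.rep φ).map) :=
  ⟨0, by rintro _ ⟨φ, rfl⟩; exact dist_nonneg⟩

private theorem comm_le (γ δ : Cur) :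
    (⨅ φ : unitInterval ≃o unitInterval, dist γ.map (δ.rep φ).map) ≤
      ⨅ φ : unitInterval ≃o unitInterval, dist δ.map (γ.rep φ).map := by
  refine le_ciInf fun φ => (ciInf_le (bdd γ δ) φ.symm).trans (le_of_eq ?_)
  rw [← dist_rep γ (δ.rep φ.symm) φ, dist_comm, rep_rep]
  congr 2
  have : φ.trans φ.symm = OrderIso.refl _ := by ext; simp
  rw [this, rep_refl]

/-- The distance between curves modulo change of parameter. -/
noncomputable instance : PseudoMetricSpace Cur where
  dist γ δ := ⨅ φ : unitInterval ≃o unitInterval, dist γ.map (δ.rep φ).map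
  dist_self γ := by
    refine le_antisymm ((ciInf_le (bdd γ γ) (OrderIso.refl _)).trans_eq ?_)
      (Real.iInf_nonneg fun φ => dist_nonneg)
    rw [rep_refl, dist_self]
  dist_comm γ δ := le_antisymm (comm_le γ δ) (comm_le δ γ)
  dist_triangle γ δ ε := by
    refine le_of_forall_pos_le_add fun r hr => ?_
    obtain ⟨φ, hφ⟩ := exists_lt_of_ciInf_lt
      (lt_add_of_pos_right (⨅ φ : unitInterval ≃o unitInterval, dist γ.map (δ.rep φ).map)
        (half_pos hr))
    obtain ⟨ψ, hψ⟩ := exists_lt_of_ciInf_lt
      (lt_add_of_pos_right (⨅ φ : unitInterval ≃o unitInterval, dist δ.map (ε.rep φ).map)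
        (half_pos hr))
    have h1 : dist γ.map ((ε.rep ψ).rep φ).map ≤
        dist γ.map (δ.rep φ).map + dist δ.map (ε.rep ψ).map := by
      rw [← dist_rep δ (ε.rep ψ) φ]
      exact dist_triangle _ _ _
    have h2 := ciInf_le (bdd γ ε) (φ.trans ψ)
    rw [rep_rep] at h1
    linarith

theorem Cur.dist_def (γ δ : Cur) :
    dist γ δ = ⨅ φ : unitInterval ≃o unitInterval, dist γ.map (δ.rep φ).map := rfl

theorem Cur.dist_lt {γ δ : Cur} {r : ℝ} (h : dist γ δ < r) :
    ∃ φ : unitInterval ≃o unitInterval, ∀ t, dist (γ.map t) (δ.map (φ t)) < r := by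
  obtain ⟨φ, hφ⟩ := exists_lt_of_ciInf_lt h
  exact ⟨φ, fun t => (ContinuousMap.dist_apply_le_dist (f := γ.map) (g := (δ.rep φ).map)
    t).trans_lt hφ⟩

theorem Cur.dist_le_of {γ δ : Cur} {r : ℝ} (hr : 0 ≤ r)
    (φ : unitInterval ≃o unitInterval) (h : ∀ t, dist (γ.map t) (δ.map (φ t)) ≤ r) :
    dist γ δ ≤ r :=
  (ciInf_le (bdd γ δ) φ).trans ((ContinuousMap.dist_le hr).mpr h)

/-- The metric space of curves modulo change of parameter. -/
abbrev Curve : Type := SeparationQuotient Cur

/-- The space of configurations: closed sets of curves with the Hausdorff distance. -/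
abbrev Om : Type := TopologicalSpace.Closeds Curve

noncomputable instance : MeasurableSpace Om := borel Om

instance : BorelSpace Om := ⟨rfl⟩

/-! ### The minimal spanning tree -/

/-- The embedding of the triangular lattice in the plane: `a + b * exp (i pi / 3)`. -/
noncomputable def emb (v : V) : ℂ := ⟨v.1 + v.2 / 2, √3 / 2 * v.2⟩

/-- The label of an edge. -/
noncomputable def U (ω : Lab) (x y : V) : ℝ ×ₗ ℝ :=
  toLex (max (ω x) (ω y), min (ω x) (ω y))

/-- The edges of the minimal spanning tree: `x` and `y` are adjacent and they are not joined by a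
path of edges with smaller labels, that is, the edge is not the largest edge of any cycle. -/
def MST (ω : Lab) (x y : V) : Prop :=
  Adj x y ∧ ¬ Relation.ReflTransGen (fun u v => Adj u v ∧ U ω u v < U ω x y) x y

/-- `f 0, ..., f n` is a path of the minimal spanning tree. -/
def TreePath (ω : Lab) (f : ℕ → V) (n : ℕ) : Prop :=
  (∀ i < n, MST ω (f i) (f (i + 1))) ∧ ∀ i ≤ n, ∀ j ≤ n, f i = f j → i = j

/-- The projection of the line onto `[0, 1]`. -/
noncomputable def clamp (x : ℝ) : ℝ := max 0 (min 1 x)

theorem continuous_clamp : Continuous clamp := by unfold clamp; fun_prop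

/-- The polygonal curve with the vertices `f 0, ..., f n`; the `k`-th edge is traversed in the
time interval `[k / n, (k + 1) / n]`. -/
noncomputable def poly (f : ℕ → V) (n : ℕ) (t : ℝ) : ℂ :=
  emb (f 0) + ∑ k ∈ Finset.range n, (clamp (n * t - k) : ℂ) * (emb (f (k + 1)) - emb (f k))

theorem continuous_poly (f : ℕ → V) (n : ℕ) : Continuous (poly f n) := by
  unfold poly
  refine continuous_const.add (continuous_finsetSum _ fun k _ => ?_)
  exact (Complex.continuous_ofReal.comp (continuous_clamp.comp (by fun_prop))).mul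
    continuous_const

/-- The polygonal curve with mesh `η`, seen on the sphere. -/
noncomputable def cur (η : ℝ) (f : ℕ → V) (n : ℕ) : Cur :=
  ⟨⟨fun t => sig (η * poly f n t), by
    have := continuous_poly f n
    have h := continuous_sig
    exact h.comp (by fun_prop)⟩⟩

/-- The configuration of the minimal spanning tree with mesh `η`: the closed set of all tree
paths. -/
noncomputable def conf (η : ℝ) (ω : Lab) : Om :=
  TopologicalSpace.Closeds.closure
    {c | ∃ f n, TreePath ω f n ∧ c = SeparationQuotient.mk (cur η f n)}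

/-! ### Convergence in law, Moebius transformations -/

/-- Convergence in law of the configurations `conf (η k)` to `μ` along the filter `l`.  (The
lower integral `∫⁻` on the left is used for all bounded continuous `F ≥ 0`; this is the usual weak
convergence of the laws.) -/
def TendsLaw {ι : Type} (l : Filter ι) (η : ι → ℝ) (μ : Measure Om) : Prop :=
  ∀ F : Om →ᵇ ℝ≥0, Tendsto (fun k => ∫⁻ ω, F (conf (η k) ω) ∂P) l (𝓝 (∫⁻ x, F x ∂μ))

/-- `g` is a Moebius transformation `z ↦ (a z + b) / (c z + d)` of the sphere. -/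
def IsMoebius (g : Sph ≃ₜ Sph) : Prop :=
  ∃ a b c d : ℂ, a * d - b * c ≠ 0 ∧
    ∀ z, c * z + d ≠ 0 → g (sig z) = sig ((a * z + b) / (c * z + d))

/-- The action of a homeomorphism of the sphere on parametrised curves. -/
noncomputable def act (g : Sph ≃ₜ Sph) (γ : Cur) : Cur :=
  ⟨(⟨g, g.continuous⟩ : C(Sph, Sph)).comp γ.map⟩

theorem uniformContinuous_act (g : Sph ≃ₜ Sph) : UniformContinuous (act g) := by
  rw [Metric.uniformContinuous_iff]
  intro ε hε
  obtain ⟨δ, hδ, h⟩ := Metric.uniformContinuous_iff.mp
    (CompactSpace.uniformContinuous_of_continuous g.continuous) (ε / 2) (half_pos hε)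
  refine ⟨δ, hδ, fun γ γ' hγ => ?_⟩
  obtain ⟨φ, hφ⟩ := Cur.dist_lt hγ
  exact (Cur.dist_le_of (half_pos hε).le φ fun t => (h (hφ t)).le).trans_lt (half_lt_self hε)

/-- The action of a homeomorphism of the sphere on curves. -/
noncomputable def actC (g : Sph ≃ₜ Sph) : Curve → Curve :=
  SeparationQuotient.lift (fun γ => SeparationQuotient.mk (act g γ)) fun _ _ h =>
    SeparationQuotient.mk_eq_mk.mpr (h.map (uniformContinuous_act g).continuous)

theorem actC_mk (g : Sph ≃ₜ Sph) (γ : Cur) :
    actC g (SeparationQuotient.mk γ) = SeparationQuotient.mk (act g γ) := rfl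

theorem uniformContinuous_actC (g : Sph ≃ₜ Sph) : UniformContinuous (actC g) := by
  rw [Metric.uniformContinuous_iff]
  intro ε hε
  obtain ⟨δ, hδ, h⟩ := Metric.uniformContinuous_iff.mp (uniformContinuous_act g) ε hε
  refine ⟨δ, hδ, ?_⟩
  intro a b hab
  obtain ⟨γ, rfl⟩ := SeparationQuotient.surjective_mk a
  obtain ⟨γ', rfl⟩ := SeparationQuotient.surjective_mk b
  rw [actC_mk, actC_mk, SeparationQuotient.dist_mk]
  exact h (by rwa [SeparationQuotient.dist_mk] at hab)

theorem actC_symm (g : Sph ≃ₜ Sph) (c : Curve) : actC g.symm (actC g c) = c := by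
  obtain ⟨γ, rfl⟩ := SeparationQuotient.surjective_mk c
  rw [actC_mk, actC_mk]
  congr 1
  simp only [act]
  congr 1
  ext t : 1
  simp

theorem actC_symm' (g : Sph ≃ₜ Sph) (c : Curve) : actC g (actC g.symm c) = c :=
  actC_symm g.symm c

/-- The action of a homeomorphism of the sphere on configurations: `actO g F` is the set of the
images under `g` of the curves in `F`. -/
noncomputable def actO (g : Sph ≃ₜ Sph) (F : Om) : Om :=
  TopologicalSpace.Closeds.preimage F (uniformContinuous_actC g.symm).continuous

theorem mem_actO (g : Sph ≃ₜ Sph) (F : Om) (c : Curve) : c ∈ actO g F ↔ actC g.symm c ∈ F :=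
  Iff.rfl

theorem coe_actO (g : Sph ≃ₜ Sph) (F : Om) : (actO g F : Set Curve) = actC g '' F := by
  ext c
  refine ⟨fun h => ⟨actC g.symm c, h, actC_symm' g c⟩, ?_⟩
  rintro ⟨c, h, rfl⟩
  rw [SetLike.mem_coe, mem_actO, actC_symm]
  exact h

theorem continuous_actO (g : Sph ≃ₜ Sph) : Continuous (actO g) := by
  rw [EMetric.continuous_iff]
  intro F ε hε
  obtain ⟨ε', hε', hle⟩ := exists_between hε
  obtain ⟨δ, hδ, h⟩ := EMetric.uniformContinuous_iff.mp (uniformContinuous_actC g) ε' hε'
  refine ⟨δ, hδ, fun F' hF => lt_of_le_of_lt ?_ hle⟩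
  rw [TopologicalSpace.Closeds.edist_eq] at hF ⊢
  rw [coe_actO, coe_actO]
  refine Metric.hausdorffEDist_le_of_mem_edist ?_ ?_
  · rintro _ ⟨c, hc, rfl⟩
    obtain ⟨c', hc', hd⟩ := Metric.exists_edist_lt_of_hausdorffEDist_lt hc hF
    exact ⟨_, ⟨c', hc', rfl⟩, (h hd).le⟩
  · rintro _ ⟨c, hc, rfl⟩
    rw [Metric.hausdorffEDist_comm] at hF
    obtain ⟨c', hc', hd⟩ := Metric.exists_edist_lt_of_hausdorffEDist_lt hc hF
    exact ⟨_, ⟨c', hc', rfl⟩, (h hd).le⟩

/-- The law `μ` is conformally invariant: it is preserved by all Moebius transformations. -/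
def ConfInv (μ : Measure Om) : Prop :=
  ∀ g : Sph ≃ₜ Sph, IsMoebius g → μ.map (actO g) = μ

end Pool.Agent.MSTLim
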