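import Pool.Agent.MSTLim.Defs

/-!
# Asymptotic invariance of the lattice trees
-/

namespace Pool.Agent.MSTLim

open MeasureTheory Filter Topology Set
open scoped NNReal ENNReal BoundedContinuousFunction
open Pool.Agent.TriPerc (V Adj Lab P)

/-- The configurations `conf (η k)` are asymptotically invariant under `g` along `l`: for all
bounded continuous `F ≥ 0`, the difference of the expectations of `F (actO g (conf (η k)))` and of
`F (conf (η k))` tends to `0`. -/
def AsInv {ι : Type} (l : Filter ι) (η : ι → ℝ) (g : Sph ≃ₜ Sph) : Prop :=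
  ∀ F : Om →ᵇ ℝ≥0, Tendsto (fun k => (∫⁻ ω, F (actO g (conf (η k) ω)) ∂P).toReal -
    (∫⁻ ω, F (conf (η k) ω) ∂P).toReal) l (𝓝 0)

end Pool.Agent.MSTLim
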