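import Pool.Agent.MSTLim.GDef

/-!
# Runs of blocks between removed blocks; relative weights

`EL K N n s l`: `E_F` on all runs of blocks between `s` and `n` which are left when the blocks of
the increasing list `l` are removed.
`EW K N D n s l`: `E_F` on the runs which are left when the blocks `j - 1, j, j + 1` for `j` in `l`
are removed, and the events `D j`, `j` in `l`, where `D j` depends on the labels in the blocks
`j - 1, j, j + 1`.

`Bd K N n C x`: `gF K (t - s) (N / K ^ s) ≤ C x ^ (t - s)` for `s ≤ t ≤ n` (this follows from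
`UpB`).  `P_EL`, `P_EW`: bounds for the probabilities.  `relw`: the relative weights.
-/

namespace Pool.Agent.MSTLim

open MeasureTheory Set Filter
open Pool.Agent.TriPerc Pool.Agent.MST

/-- `E_F` on all runs of blocks between the removed blocks of the list. -/
def EL (K N : ℝ) (n : ℕ) : ℕ → List ℕ → Set Lab
  | s, [] => RE K N s n
  | s, j :: l => RE K N s (j - 1) ∩ EL K N n j l

/-- The same with three removed blocks for each `j` and the events `D j`. -/
def EW (K N : ℝ) (D : ℕ → Set Lab) (n : ℕ) : ℕ → List ℕ → Set Lab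
  | s, [] => RE K N s n
  | s, j :: l => RE K N s (j - 2) ∩ (D j ∩ EW K N D n (j + 1) l)

/-- The upper bound for the probabilities of the runs. -/
def Bd (K N : ℝ) (n : ℕ) (C x : ℝ) : Prop :=
  ∀ s t, s ≤ t → t ≤ n → gF K (t - s) (N / K ^ s) ≤ C * x ^ (t - s)

variable {K N C x : ℝ} {s t n : ℕ} {l : List ℕ} {D : ℕ → Set Lab} {w : Lab}

theorem ann_sub {a b c d : ℤ} (h1 : c ≤ a) (h2 : b ≤ d) : Ann 0 a b ⊆ Ann 0 c d :=
  fun _ hv => ⟨h1.trans hv.1, hv.2.trans h2⟩

theorem ev_EL (hW : Wide K N n) : ∀ (l : List ℕ) (s : ℕ), s ≤ n → (∀ j ∈ l, s < j ∧ j ≤ n) →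
    l.Pairwise (· < ·) → Ev (Ann 0 (rd K N n + 1) (rd K N s)) (EL K N n s l) := by
  intro l
  induction l with
  | nil => exact fun s _ _ _ => ev_RE K N s n
  | cons j l ih =>
    intro s hs hl hp
    obtain ⟨h1, h2⟩ := hl j List.mem_cons_self
    obtain ⟨h3, h4⟩ := List.pairwise_cons.1 hp
    refine Ev.inter ((ev_RE K N s (j - 1)).mono (ann_sub ?_ le_rfl))
      ((ih j h2 (fun i hi => ⟨h3 i hi, (hl i (List.mem_cons_of_mem _ hi)).2⟩) h4).mono
        (ann_sub le_rfl (hW.le h1.le h2)))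
    have := hW.le (by omega : j - 1 ≤ n) le_rfl
    omega

theorem P_EL (hW : Wide K N n) (hC : 1 ≤ C) (hx : 0 < x) (hB : Bd K N n C x) :
    ∀ (l : List ℕ) (s : ℕ), s ≤ n → (∀ j ∈ l, s < j ∧ j ≤ n) → l.Pairwise (· < ·) →
    (P (EL K N n s l)).toReal ≤ C ^ (l.length + 1) * (x⁻¹) ^ l.length * x ^ (n - s) := by
  intro l
  induction l with
  | nil =>
    intro s hs _ _
    have h1 := hB s n hs le_rfl
    rw [← P_RE] at h1
    simpa [EL] using h1
  | cons j l ih =>
    intro s hs hl hp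
    obtain ⟨h1, h2⟩ := hl j List.mem_cons_self
    obtain ⟨h3, h4⟩ := List.pairwise_cons.1 hp
    have hl' : ∀ i ∈ l, j < i ∧ i ≤ n := fun i hi =>
      ⟨h3 i hi, (hl i (List.mem_cons_of_mem _ hi)).2⟩
    have h5 := ih j h2 hl' h4
    have h6 := hB s (j - 1) (by omega) (by omega)
    rw [← P_RE] at h6
    have hd : Disjoint (Ann 0 (rd K N (j - 1) + 1) (rd K N s))
        (Ann 0 (rd K N n + 1) (rd K N j)) := by
      rw [Set.disjoint_left]
      rintro v ⟨k1, -⟩ ⟨-, k2⟩
      have := hW.le (by omega : j - 1 ≤ j) h2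
      omega
    rw [EL, indep (ev_RE K N s (j - 1)) (ev_EL hW l j h2 hl' h4) hd, ENNReal.toReal_mul]
    refine (mul_le_mul h6 h5 ENNReal.toReal_nonneg (by positivity)).trans (le_of_eq ?_)
    have h7 : x ^ (n - s) = x ^ (j - 1 - s) * x ^ (n - j) * x := by
      rw [← pow_add, ← pow_succ]
      congr 1
      omega
    rw [h7, List.length_cons, pow_succ (x⁻¹), pow_succ C (l.length + 1)]
    field_simp

theorem ev_EW (hW : Wide K N n)
    (hD : ∀ j, 2 ≤ j → j + 1 ≤ n → Ev (Ann 0 (rd K N (j + 1) + 1) (rd K N (j - 2))) (D j)) :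
    ∀ (l : List ℕ) (s : ℕ), s ≤ n → (∀ j ∈ l, s + 2 ≤ j ∧ j + 1 ≤ n) →
    l.Pairwise (fun i j => i + 3 ≤ j) →
    Ev (Ann 0 (rd K N n + 1) (rd K N s)) (EW K N D n s l) := by
  intro l
  induction l with
  | nil => exact fun s _ _ _ => ev_RE K N s n
  | cons j l ih =>
    intro s hs hl hp
    obtain ⟨h1, h2⟩ := hl j List.mem_cons_self
    obtain ⟨h3, h4⟩ := List.pairwise_cons.1 hp
    have h5 := hW.le (by omega : j - 2 ≤ n) le_rfl
    have h6 := hW.le (by omega : j + 1 ≤ n) le_rfl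
    refine Ev.inter ((ev_RE K N s (j - 2)).mono (ann_sub (by omega) le_rfl))
      (Ev.inter ((hD j (by omega) h2).mono (ann_sub (by omega) (hW.le (by omega) (by omega))))
        ((ih (j + 1) h2 (fun i hi => ⟨by have := h3 i hi; omega,
          (hl i (List.mem_cons_of_mem _ hi)).2⟩) h4).mono
          (ann_sub le_rfl (hW.le (by omega) (by omega)))))

theorem P_EW (hW : Wide K N n) (hC : 1 ≤ C) (hx : 0 < x) (hB : Bd K N n C x)
    (hD : ∀ j, 2 ≤ j → j + 1 ≤ n → Ev (Ann 0 (rd K N (j + 1) + 1) (rd K N (j - 2))) (D j)) :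
    ∀ (l : List ℕ) (s : ℕ), s ≤ n → (∀ j ∈ l, s + 2 ≤ j ∧ j + 1 ≤ n) →
    l.Pairwise (fun i j => i + 3 ≤ j) →
    (P (EW K N D n s l)).toReal ≤ C ^ (l.length + 1) * (x⁻¹) ^ (3 * l.length) * x ^ (n - s) *
      (l.map fun j => (P (D j)).toReal).prod := by
  intro l
  induction l with
  | nil =>
    intro s hs _ _
    have h1 := hB s n hs le_rfl
    rw [← P_RE] at h1
    simpa [EW] using h1
  | cons j l ih =>
    intro s hs hl hp
    obtain ⟨h1, h2⟩ := hl j List.mem_cons_self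
    obtain ⟨h3, h4⟩ := List.pairwise_cons.1 hp
    have hl' : ∀ i ∈ l, j + 1 + 2 ≤ i ∧ i + 1 ≤ n := fun i hi =>
      ⟨by have := h3 i hi; omega, (hl i (List.mem_cons_of_mem _ hi)).2⟩
    have h5 := ih (j + 1) h2 hl' h4
    have h6 := hB s (j - 2) (by omega) (by omega)
    rw [← P_RE] at h6
    have h2j : 2 ≤ j := by omega
    have e1 := hD j h2j h2
    have e2 := ev_EW hW hD l (j + 1) h2 hl' h4
    have hd1 : Disjoint (Ann 0 (rd K N (j + 1) + 1) (rd K N (j - 2)))
        (Ann 0 (rd K N n + 1) (rd K N (j + 1))) := by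
      rw [Set.disjoint_left]
      rintro v ⟨k1, -⟩ ⟨-, k2⟩
      omega
    have hd2 : Disjoint (Ann 0 (rd K N (j - 2) + 1) (rd K N s))
        (Ann 0 (rd K N n + 1) (rd K N (j - 2))) := by
      rw [Set.disjoint_left]
      rintro v ⟨k1, -⟩ ⟨-, k2⟩
      omega
    have e3 : Ev (Ann 0 (rd K N n + 1) (rd K N (j - 2))) (D j ∩ EW K N D n (j + 1) l) := by
      have h7 := hW.le (by omega : j + 1 ≤ n) le_rfl
      exact Ev.inter (e1.mono (ann_sub (by omega) le_rfl))
        (e2.mono (ann_sub le_rfl (hW.le (by omega) (by omega))))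
    rw [EW, indep (ev_RE K N s (j - 2)) e3 hd2, indep e1 e2 hd1, ENNReal.toReal_mul,
      ENNReal.toReal_mul]
    have hp0 : 0 ≤ (P (D j)).toReal := ENNReal.toReal_nonneg
    have h8 : (P (D j)).toReal * (P (EW K N D n (j + 1) l)).toReal ≤
        (P (D j)).toReal * (C ^ (l.length + 1) * (x⁻¹) ^ (3 * l.length) * x ^ (n - (j + 1)) *
          (l.map fun j => (P (D j)).toReal).prod) := mul_le_mul_of_nonneg_left h5 hp0
    refine (mul_le_mul h6 h8 (mul_nonneg hp0 ENNReal.toReal_nonneg) (by positivity)).trans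
      (le_of_eq ?_)
    have h7 : x ^ (n - s) = x ^ (j - 2 - s) * x ^ (n - (j + 1)) * x ^ 3 := by
      rw [← pow_add, ← pow_add]
      congr 1
      omega
    rw [h7, List.length_cons, List.map_cons, List.prod_cons,
      (by ring : 3 * (l.length + 1) = 3 * l.length + 3), pow_add (x⁻¹) (3 * l.length) 3,
      pow_succ C (l.length + 1)]
    field_simp

theorem mem_EW (hW : Wide K N n) (hw : Function.Injective w) :
    ∀ (l : List ℕ) (s : ℕ), s ≤ n → (∀ j ∈ l, s + 2 ≤ j ∧ j + 1 ≤ n) →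
    l.Pairwise (fun i j => i + 3 ≤ j) → w ∈ RE K N s n → (∀ j ∈ l, w ∈ D j) →
    w ∈ EW K N D n s l := by
  intro l
  induction l with
  | nil => exact fun s _ _ _ h _ => h
  | cons j l ih =>
    intro s hs hl hp h hD
    obtain ⟨h1, h2⟩ := hl j List.mem_cons_self
    obtain ⟨h3, h4⟩ := List.pairwise_cons.1 hp
    refine ⟨RE_restr hw hW le_rfl le_rfl (by omega) h, hD j List.mem_cons_self,
      ih (j + 1) h2 (fun i hi => ⟨by have := h3 i hi; omega,
        (hl i (List.mem_cons_of_mem _ hi)).2⟩) h4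
        (RE_restr hw hW le_rfl (by omega) le_rfl h) fun i hi => hD i (List.mem_cons_of_mem _ hi)⟩

/-- **Relative weights**: block events `D j` in separated blocks together with `E_F`. -/
theorem relw (hW : Wide K N n) (hC : 1 ≤ C) (hx : 0 < x) (hB : Bd K N n C x)
    (hD : ∀ j, 2 ≤ j → j + 1 ≤ n → Ev (Ann 0 (rd K N (j + 1) + 1) (rd K N (j - 2))) (D j))
    (J : Finset ℕ) (hJ : ∀ j ∈ J, 2 ≤ j ∧ j + 1 ≤ n)
    (hg : ∀ i ∈ J, ∀ j ∈ J, i < j → i + 3 ≤ j) :
    (P (RE K N 0 n ∩ ⋂ j ∈ J, D j)).toReal ≤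
      C ^ (J.card + 1) * (x⁻¹) ^ (3 * J.card) * x ^ n * ∏ j ∈ J, (P (D j)).toReal := by
  have hs : (J.sort (· ≤ ·)).Pairwise (fun i j => i + 3 ≤ j) := by
    have h1 := (Finset.sortedLT_sort J).pairwise
    refine List.Pairwise.imp_of_mem ?_ h1
    intro a b ha hb hab
    exact hg a ((Finset.mem_sort _).1 ha) b ((Finset.mem_sort _).1 hb) hab
  have hl : ∀ j ∈ J.sort (· ≤ ·), 0 + 2 ≤ j ∧ j + 1 ≤ n := fun j hj => by
    have := hJ j ((Finset.mem_sort _).1 hj)
    omega
  have h2 := P_EW hW hC hx hB hD (J.sort (· ≤ ·)) 0 (Nat.zero_le n) hl hs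
  rw [Finset.length_sort, Nat.sub_zero] at h2
  have h3 : ((J.sort (· ≤ ·)).map fun j => (P (D j)).toReal).prod = ∏ j ∈ J, (P (D j)).toReal := by
    rw [Finset.prod, ← Multiset.prod_coe, ← Multiset.map_coe, Finset.sort_eq]
  rw [h3] at h2
  refine le_trans (ENNReal.toReal_mono (measure_ne_top _ _) (measure_mono_ae ?_)) h2
  filter_upwards [ae_label 0] with w hw hE
  have hinj : Function.Injective w := by
    intro u v huv
    by_contra h
    exact hw.2 u v h huv
  refine mem_EW hW hinj _ 0 (Nat.zero_le n) hl hs hE.1 fun j hj => ?_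
  exact Set.mem_iInter₂.1 hE.2 j ((Finset.mem_sort _).1 hj)

end Pool.Agent.MSTLim
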