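import Pool.Agent.MST.EvEF

/-!
# The probabilities `gF K m N` of `E_F` in `m` blocks below the outer radius `N`

`rd K N m = ⌊N / K ^ m⌋`.  The blocks `s + 1, …, t` below `N` use the annulus
`Ann 0 (rd K N t + 1) (rd K N s)`; different runs of blocks use disjoint vertex sets.
`RE K N s t` is the event `EF (1/2)` in the blocks `s + 1, …, t` (everything if `t ≤ s`).
`Wide K N n`: all blocks `1, …, n` are wide enough: `rd K N (s + 1) + 2 ≤ rd K N s` and
`1 ≤ rd K N n`.
-/

namespace Pool.Agent.MSTLim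

open MeasureTheory Set Filter
open Pool.Agent.TriPerc Pool.Agent.MST

/-- The radii. -/
noncomputable def rd (K N : ℝ) (m : ℕ) : ℤ := ⌊N / K ^ m⌋

/-- The probability of `E_F` in `m` blocks below the outer radius `N`. -/
noncomputable def gF (K : ℝ) (m : ℕ) (N : ℝ) : ℝ :=
  if m = 0 then 1 else (P {w | EF (1 / 2) (⌊N / K ^ m⌋ + 1) ⌊N⌋ w}).toReal

/-- The event `E_F` in the blocks `s + 1, …, t`. -/
def RE (K N : ℝ) (s t : ℕ) : Set Lab :=
  if s < t then {w | EF (1 / 2) (rd K N t + 1) (rd K N s) w} else Set.univ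

/-- The blocks `1, …, n` are wide enough. -/
def Wide (K N : ℝ) (n : ℕ) : Prop :=
  (∀ s < n, rd K N (s + 1) + 2 ≤ rd K N s) ∧ 1 ≤ rd K N n

variable {K N : ℝ} {s t s' t' m m' n : ℕ}

theorem gF_nonneg (K : ℝ) (m : ℕ) (N : ℝ) : 0 ≤ gF K m N := by
  unfold gF
  split_ifs
  · exact zero_le_one
  · exact ENNReal.toReal_nonneg

theorem gF_le_one (K : ℝ) (m : ℕ) (N : ℝ) : gF K m N ≤ 1 := by
  unfold gF
  split_ifs
  · exact le_rfl
  · have h := ENNReal.toReal_mono (measure_ne_top P univ)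
      (measure_mono (subset_univ {w | EF (1 / 2) (⌊N / K ^ m⌋ + 1) ⌊N⌋ w}))
    rwa [measure_univ, ENNReal.toReal_one] at h

theorem rd_zero : rd K N 0 = ⌊N⌋ := by
  unfold rd
  rw [pow_zero, div_one]

theorem rd_rd (K N : ℝ) (s m : ℕ) : rd K (N / K ^ s) m = rd K N (s + m) := by
  unfold rd
  rw [div_div, ← pow_add]

/-- The probability of `RE`. -/
theorem P_RE (K N : ℝ) (s t : ℕ) : (P (RE K N s t)).toReal = gF K (t - s) (N / K ^ s) := by
  unfold RE gF
  by_cases h : s < t
  · rw [if_pos h, if_neg (by omega : ¬ t - s = 0), div_div, ← pow_add,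
      (by omega : s + (t - s) = t)]
    rfl
  · rw [if_neg h, if_pos (by omega : t - s = 0), measure_univ, ENNReal.toReal_one]

theorem ev_RE (K N : ℝ) (s t : ℕ) : Ev (Ann 0 (rd K N t + 1) (rd K N s)) (RE K N s t) := by
  unfold RE
  split_ifs
  · exact ev_ef _ _ _
  · exact ev_univ

theorem Wide.anti (h : Wide K N n) (hm : m ≤ n) : Wide K N m := by
  refine ⟨fun s hs => h.1 s (hs.trans_le hm), ?_⟩
  have key : ∀ k, m ≤ k → k ≤ n → rd K N k ≤ rd K N m := by
    intro k hk
    induction k, hk using Nat.le_induction with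
    | base => exact fun _ => le_rfl
    | succ k _ ih =>
      intro h2
      have h3 := h.1 k (by omega)
      have h4 := ih (by omega)
      omega
  have := key n hm le_rfl
  have := h.2
  omega

theorem Wide.lt (h : Wide K N n) (hst : s < t) (ht : t ≤ n) : rd K N t + 2 ≤ rd K N s := by
  induction t, (Nat.succ_le_of_lt hst : s + 1 ≤ t) using Nat.le_induction with
  | base => exact h.1 s (by omega)
  | succ k hk ih =>
    have h3 := h.1 k (by omega)
    have h4 := ih (by omega) (by omega)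
    omega

theorem Wide.le (h : Wide K N n) (hst : s ≤ t) (ht : t ≤ n) : rd K N t ≤ rd K N s := by
  rcases Nat.eq_or_lt_of_le hst with rfl | h1
  · exact le_rfl
  · have := h.lt h1 ht
    omega

theorem Wide.one (h : Wide K N n) (hs : s ≤ n) : 1 ≤ rd K N s :=
  h.2.trans (h.le hs le_rfl)

/-- The restriction of `E_F` to fewer blocks. -/
theorem RE_restr {w : Lab} (hw : Function.Injective w) (h : Wide K N n) (ht : t ≤ n)
    (hs : s ≤ s') (ht' : t' ≤ t) (hE : w ∈ RE K N s t) : w ∈ RE K N s' t' := by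
  unfold RE at hE ⊢
  by_cases h1 : s' < t'
  · rw [if_pos h1]
    rw [if_pos (by omega : s < t)] at hE
    have h2 := h.lt h1 (by omega)
    have h3 := h.le hs (by omega)
    have h4 := h.le ht' ht
    have h5 := h.one (by omega : t' ≤ n)
    exact EF_restr hw (by omega) (by omega) (by omega) h3 hE
  · rw [if_neg h1]
    trivial

/-- For large `N` the blocks are wide. -/
theorem wide_ev (hK : 1 < K) (n : ℕ) : ∀ᶠ N in atTop, Wide K N n := by
  have h0 : ∀ k : ℕ, (0 : ℝ) < K ^ k := fun k => pow_pos (by linarith) k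
  have h1 : ∀ᶠ N in atTop, ∀ s ∈ {s : ℕ | s < n}, rd K N (s + 1) + 2 ≤ rd K N s := by
    rw [Filter.eventually_all_finite (Set.finite_lt_nat n)]
    intro s _
    have h3 : (0 : ℝ) < 1 / K ^ s - 1 / K ^ (s + 1) := by
      rw [sub_pos]
      exact one_div_lt_one_div_of_lt (h0 s) (pow_lt_pow_right₀ hK (Nat.lt_succ_self s))
    filter_upwards [eventually_ge_atTop (3 / (1 / K ^ s - 1 / K ^ (s + 1)))] with N hN
    rw [div_le_iff₀ h3] at hN
    have h4 : rd K N (s + 1) ≤ N / K ^ (s + 1) := Int.floor_le _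
    have h5 : N / K ^ s < rd K N s + 1 := Int.lt_floor_add_one _
    have h6 : N * (1 / K ^ s - 1 / K ^ (s + 1)) = N / K ^ s - N / K ^ (s + 1) := by ring
    have h7 : (rd K N (s + 1) : ℝ) + 2 < rd K N s := by linarith
    have h8 : rd K N (s + 1) + 2 < rd K N s := by exact_mod_cast h7
    exact h8.le
  have h2 : ∀ᶠ N in atTop, 1 ≤ rd K N n := by
    filter_upwards [eventually_ge_atTop (K ^ n)] with N hN
    refine Int.le_floor.2 ?_
    rw [Int.cast_one, le_div_iff₀ (h0 n)]
    linarith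
  filter_upwards [h1, h2] with N h3 h4 using ⟨fun s hs => h3 s hs, h4⟩

/-- The submultiplicativity of `gF`. -/
theorem gF_sub (hK : 1 < K) (m m' : ℕ) :
    ∀ᶠ N in atTop, gF K (m + m') N ≤ gF K m N * gF K m' (N / K ^ m) := by
  filter_upwards [wide_ev hK (m + m')] with N hN
  have h1 := P_RE K N 0 (m + m')
  have h2 := P_RE K N 0 m
  have h3 := P_RE K N m (m + m')
  rw [Nat.sub_zero, pow_zero, div_one] at h1 h2
  rw [Nat.add_sub_cancel_left] at h3
  rw [← h1, ← h2, ← h3, ← ENNReal.toReal_mul]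
  have hd : Disjoint (Ann 0 (rd K N m + 1) (rd K N 0))
      (Ann 0 (rd K N (m + m') + 1) (rd K N m)) := by
    rw [Set.disjoint_left]
    rintro v ⟨k1, -⟩ ⟨-, k2⟩
    omega
  rw [← indep (ev_RE K N 0 m) (ev_RE K N m (m + m')) hd]
  refine ENNReal.toReal_mono (measure_ne_top _ _) (measure_mono_ae ?_)
  filter_upwards [ae_label 0] with w hw hE
  have hinj : Function.Injective w := by
    intro u v huv
    by_contra h
    exact hw.2 u v h huv
  exact ⟨RE_restr hinj hN le_rfl le_rfl (by omega) hE,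
    RE_restr hinj hN le_rfl (by omega) le_rfl hE⟩

end Pool.Agent.MSTLim
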