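import Pool.Agent.MST.MixP
import Pool.Agent.MST.MixW
import Pool.Agent.MSTLim.GDef

/-!
# Blocks with a mixed vertex

`Un K N q j`: the block `j` (`rd K N j < nrm v ≤ rd K N (j - 1)`) contains a vertex with four mixed
arms at the levels `1/2 - q`, `1/2 + q` to the distance `rd K N (j + 1)`.
* `Mixed.anti`: mixed arms to a smaller distance.
* `rd_mul`: `k rd K N (s + 1) ≤ rd K N s` for natural numbers `k ≤ K`.
* `ev_Un`: the event depends on the labels in the blocks `j - 1, j, j + 1`.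
* `P_Un`: `P (Un K N (wd M (rd K N J0)) j) ≤ C 8 ^ (-(j - 1 - J0))` for large `N`.
-/

namespace Pool.Agent.MSTLim

open MeasureTheory Set Filter
open Pool.Agent.TriPerc Pool.Agent.MST

/-- The block `j` contains a mixed vertex. -/
def Un (K N q : ℝ) (j : ℕ) : Set Lab :=
  {w | ∃ v, rd K N j + 1 ≤ nrm v ∧ nrm v ≤ rd K N (j - 1) ∧
    Mixed (1 / 2 - q) (1 / 2 + q) v (rd K N (j + 1)) w}

variable {K N C x a b q M : ℝ} {s t n j : ℕ} {v : V} {d d' : ℤ} {w w' : Lab} {S : Set V}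

/-- Mixed arms to a smaller distance. -/
theorem Mixed.anti (hd : 1 ≤ d') (hdd : d' ≤ d) (h : Mixed a b v d w) : Mixed a b v d' w := by
  obtain ⟨h1, h2, O1, O2, hdis, s1, s2, c1, c2, ⟨x1, hx1, ax1⟩, ⟨y1, hy1, dy1⟩, ⟨x2, hx2, ax2⟩,
    ⟨y2, hy2, dy2⟩, hj⟩ := h
  have key : ∀ O : Set V, IsConn O → ∀ x ∈ O, Adj v x → ∀ y ∈ O, nrm (y - v) = d →
      x ∈ comp (O ∩ Ball v d') x ∧ ∃ z ∈ comp (O ∩ Ball v d') x, nrm (z - v) = d' := by
    intro O hO x hx ax y hy dy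
    have hx1 := nrm_adj_one ax
    have hxm : x ∈ O ∩ Ball v d' := ⟨hx, (by omega : nrm (x - v) ≤ d')⟩
    refine ⟨Conn.refl hxm, ?_⟩
    by_cases h3 : d' = 1
    · exact ⟨x, Conn.refl hxm, by omega⟩
    · obtain ⟨p, r, hp, hr, hpr, hxp, hry⟩ := (hO x hx y hy).exit
        (A := {u | nrm (u - v) < d'}) (show nrm (x - v) < d' by omega)
        (show ¬ nrm (y - v) < d' by omega)
      have hp' : nrm (p - v) < d' := hp
      have hr' : ¬ nrm (r - v) < d' := hr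
      have h4 := abs_le.1 (nrm_adj hpr v)
      have h5 : nrm (r - v) = d' := by omega
      have hxp' : Conn (O ∩ Ball v d') x p := hxp.mono fun z hz =>
        ⟨hz.1, (le_of_lt hz.2 : nrm (z - v) ≤ d')⟩
      exact ⟨r, comp_adj hxp' ⟨hry.left, (h5.le : nrm (r - v) ≤ d')⟩ hpr, h5⟩
  obtain ⟨m1, z1, hz1, e1⟩ := key O1 c1 x1 hx1 ax1 y1 hy1 dy1
  obtain ⟨m2, z2, hz2, e2⟩ := key O2 c2 x2 hx2 ax2 y2 hy2 dy2
  have sub : ∀ O : Set V, O ⊆ Op b w ∩ (Ball v d \ {v}) → ∀ x,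
      comp (O ∩ Ball v d') x ⊆ Op b w ∩ (Ball v d' \ {v}) := by
    intro O hO x z hz
    have h3 := comp_subset hz
    exact ⟨(hO h3.1).1, h3.2, (hO h3.1).2.2⟩
  have sub' : ∀ O : Set V, ∀ x, comp (O ∩ Ball v d') x ⊆ O := fun O x z hz =>
    (comp_subset hz).1
  refine ⟨h1, h2, comp (O1 ∩ Ball v d') x1, comp (O2 ∩ Ball v d') x2,
    hdis.mono (sub' O1 x1) (sub' O2 x2), sub O1 s1 x1, sub O2 s2 x2, isConn_comp, isConn_comp,
    ⟨x1, m1, ax1⟩, ⟨z1, hz1, e1⟩, ⟨x2, m2, ax2⟩, ⟨z2, hz2, e2⟩, fun h3 => hj ?_⟩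
  exact h3.mono (fun z hz => ⟨hz.1, (hz.2.1.trans hdd : nrm (z - v) ≤ d), hz.2.2⟩)
    (sub' O1 x1) (sub' O2 x2)

theorem mixed_congr (hs : Ball v d ⊆ S) (hv : v ∈ S) (ha : Op a w ∩ S = Op a w' ∩ S)
    (hb : Op b w ∩ S = Op b w' ∩ S) (h : Mixed a b v d w) : Mixed a b v d w' := by
  obtain ⟨h1, h2, O1, O2, hdis, s1, s2, c1, c2, e1, e2, e3, e4, hj⟩ := h
  have ka : ∀ z ∈ S, (w z ≤ a ↔ w' z ≤ a) := fun z hz => by
    have := Set.ext_iff.1 ha z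
    exact ⟨fun h => (this.1 ⟨h, hz⟩).1, fun h => (this.2 ⟨h, hz⟩).1⟩
  have kb : ∀ z ∈ S, (w z ≤ b ↔ w' z ≤ b) := fun z hz => by
    have := Set.ext_iff.1 hb z
    exact ⟨fun h => (this.1 ⟨h, hz⟩).1, fun h => (this.2 ⟨h, hz⟩).1⟩
  refine ⟨?_, (kb v hv).1 h2, O1, O2, hdis, ?_, ?_, c1, c2, e1, e2, e3, e4, fun h3 => hj ?_⟩
  · rw [← not_le] at h1 ⊢
    exact fun h => h1 ((ka v hv).2 h)
  · exact fun z hz => ⟨(kb z (hs (s1 hz).2.1)).1 (s1 hz).1, (s1 hz).2⟩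
  · exact fun z hz => ⟨(kb z (hs (s2 hz).2.1)).1 (s2 hz).1, (s2 hz).2⟩
  · exact h3.mono (fun z hz => ⟨(ka z (hs hz.2.1)).2 hz.1, hz.2⟩) le_rfl le_rfl

theorem rd_mul {k : ℕ} (hk : (k : ℝ) ≤ K) (hK : 1 < K) (hN : 0 ≤ N) (s : ℕ) :
    k * rd K N (s + 1) ≤ rd K N s := by
  have h0 : (0 : ℝ) < K ^ (s + 1) := pow_pos (by linarith) _
  have h1 : (0 : ℝ) < K ^ s := pow_pos (by linarith) _
  refine Int.le_floor.2 ?_
  push_cast
  have h2 : (rd K N (s + 1) : ℝ) ≤ N / K ^ (s + 1) := Int.floor_le _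
  calc (k : ℝ) * rd K N (s + 1) ≤ k * (N / K ^ (s + 1)) :=
        mul_le_mul_of_nonneg_left h2 (Nat.cast_nonneg k)
    _ ≤ K * (N / K ^ (s + 1)) :=
        mul_le_mul_of_nonneg_right hk (div_nonneg hN h0.le)
    _ = N / K ^ s := by
        rw [pow_succ]
        field_simp

theorem nrm_ball {v z : V} {e : ℤ} (h : z ∈ Ball v e) :
    nrm v - e ≤ nrm z ∧ nrm z ≤ nrm v + e := by
  have h1 : nrm (z - v) ≤ e := h
  have h2 := nrm_add (z - v) v
  have h3 := nrm_add (v - z) z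
  rw [sub_add_cancel] at h2 h3
  have h4 : nrm (v - z) = nrm (z - v) := by rw [← nrm_neg, neg_sub]
  omega

theorem ev_Un (hK : 2 ≤ K) (hN : 0 ≤ N) (h2 : 2 ≤ j) (hq : 0 ≤ rd K N (j + 1)) :
    Ev (Ann 0 (rd K N (j + 1) + 1) (rd K N (j - 2))) (Un K N q j) := by
  have k1 := rd_mul (k := 2) (by exact_mod_cast hK) (by linarith) hN j
  have k2 := rd_mul (k := 2) (by exact_mod_cast hK) (by linarith) hN (j - 2)
  have k3 := rd_mul (k := 2) (by exact_mod_cast hK) (by linarith) hN (j - 1)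
  rw [show j - 2 + 1 = j - 1 by omega] at k2
  rw [show j - 1 + 1 = j by omega] at k3
  push_cast at k1 k2 k3
  refine ev_of_fin (finite_ann 0 _ _) {1 / 2 - q, 1 / 2 + q} ?_
  rintro w w' h ⟨v, h3, h4, h5⟩
  have hsub : Ball v (rd K N (j + 1)) ⊆ Ann 0 (rd K N (j + 1) + 1) (rd K N (j - 2)) := by
    intro z hz
    have h6 := nrm_ball hz
    refine ⟨?_, ?_⟩ <;> rw [sub_zero] <;> omega
  refine ⟨v, h3, h4, mixed_congr hsub (hsub ?_) (h _ (by simp)) (h _ (by simp)) h5⟩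
  change nrm (v - v) ≤ _
  rw [sub_self, nrm_zero_iff.2 rfl]
  exact hq

/-- For large `N` all radii are large. -/
theorem big_ev (hK : 1 < K) (n : ℕ) (B : ℤ) : ∀ᶠ N in atTop, ∀ s ≤ n, B ≤ rd K N s := by
  have h0 : ∀ k : ℕ, (0 : ℝ) < K ^ k := fun k => pow_pos (by linarith) k
  filter_upwards [eventually_ge_atTop (0 : ℝ), eventually_ge_atTop ((B : ℝ) * K ^ n)]
    with N h1 h2 s hs
  refine Int.le_floor.2 ?_
  calc (B : ℝ) ≤ N / K ^ n := by
        rw [le_div_iff₀ (h0 n)]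
        exact h2
    _ ≤ N / K ^ s := div_le_div_of_nonneg_left h1 (h0 s) (pow_le_pow_right₀ hK.le hs)

/-- The probability of a mixed vertex in the block `j` at the levels of the block `J0`. -/
theorem P_Un (H : QmFr) : ∃ K0 : ℝ, 2 ≤ K0 ∧ ∀ K, K0 ≤ K → ∀ M : ℝ, 0 < M →
    ∃ C : ℝ, 0 < C ∧ ∀ n : ℕ, ∀ᶠ N in atTop, ∀ J0 ≤ n, 0 < wd M (rd K N J0) ∧
      wd M (rd K N J0) ≤ 1 / 4 ∧ ∀ j, J0 + 1 ≤ j → j ≤ n →
      (P (Un K N (wd M (rd K N J0)) j)).toReal ≤ C * (1 / 8) ^ (j - 1 - J0) := by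
  obtain ⟨K0, hK0, hgrow⟩ := wd_grow H
  refine ⟨K0, by exact_mod_cast hK0, fun K hK M hM => ?_⟩
  have hK2 : (2 : ℝ) ≤ K0 := by exact_mod_cast hK0
  have hK1 : 1 < K := by linarith
  obtain ⟨C, r0, hC, hr0, hwin⟩ := mixed_win H hM (le_refl (1 : ℝ))
    (by positivity : 0 < 1 / (2 * K ^ 2))
  refine ⟨C, hC, fun n => ?_⟩
  filter_upwards [big_ev hK1 (n + 1) r0, eventually_ge_atTop (2 * K ^ (n + 1)),
    eventually_ge_atTop (0 : ℝ)] with N h1 h2 h3 J0 hJ0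
  have h0 : ∀ k : ℕ, (0 : ℝ) < K ^ k := fun k => pow_pos (by linarith) k
  have hstep : ∀ s ≤ n, 8 * wd M (rd K N s) ≤ wd M (rd K N (s + 1)) := by
    intro s hs
    refine hgrow M _ _ hM (hr0.trans (h1 _ (by omega))) ?_
    have h4 := rd_mul (k := K0.toNat) (K := K) (N := N) ?_ hK1 h3 s
    · rwa [Int.toNat_of_nonneg (by omega : 0 ≤ K0)] at h4
    · have : ((K0.toNat : ℤ) : ℝ) = K0 := by rw [Int.toNat_of_nonneg (by omega : 0 ≤ K0)]
      rw [← Int.cast_natCast, this]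
      exact hK
  have hpos : ∀ s ≤ n, 0 < wd M (rd K N s) := fun s hs =>
    wd_pos H hM (hr0.trans (h1 s (by omega)))
  have hit : ∀ i, J0 + i ≤ n → 8 ^ i * wd M (rd K N J0) ≤ wd M (rd K N (J0 + i)) := by
    intro i
    induction i with
    | zero => intro _; simp
    | succ i ih =>
      intro hi
      have h4 := ih (by omega)
      have h5 := hstep (J0 + i) (by omega)
      calc (8 : ℝ) ^ (i + 1) * wd M (rd K N J0) = 8 * (8 ^ i * wd M (rd K N J0)) := by ring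
        _ ≤ 8 * wd M (rd K N (J0 + i)) := by linarith
        _ ≤ _ := h5
  have hd : ∀ j, j ≤ n → 1 ≤ j →
      1 / (2 * K ^ 2) * (rd K N (j - 1) : ℝ) ≤ rd K N (j + 1) := by
    intro j hj hj1
    have h4 : (rd K N (j - 1) : ℝ) ≤ N / K ^ (j - 1) := Int.floor_le _
    have h5 : N / K ^ (j + 1) < rd K N (j + 1) + 1 := Int.lt_floor_add_one _
    have h6 : 2 ≤ N / K ^ (j + 1) := by
      rw [le_div_iff₀ (h0 _)]
      exact (mul_le_mul_of_nonneg_left (pow_le_pow_right₀ hK1.le (by omega))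
        (by norm_num)).trans h2
    have h7 : 1 / (2 * K ^ 2) * (N / K ^ (j - 1)) = N / K ^ (j + 1) / 2 := by
      rw [show j + 1 = j - 1 + 2 by omega, pow_add]
      have := h0 (j - 1)
      field_simp
    have h8 : 1 / (2 * K ^ 2) * (rd K N (j - 1) : ℝ) ≤ 1 / (2 * K ^ 2) * (N / K ^ (j - 1)) :=
      mul_le_mul_of_nonneg_left h4 (by positivity)
    linarith
  refine ⟨hpos J0 hJ0, ?_, fun j hj hjn => ?_⟩
  · have h4 := hwin (rd K N J0) ⌈1 / (2 * K ^ 2) * (rd K N J0 : ℝ)⌉ (wd M (rd K N J0))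
      (h1 _ (by omega)) (Int.le_ceil _) (hpos J0 hJ0).le (by rw [one_mul])
    exact h4.1
  · have hqj : 8 ^ (j - 1 - J0) * wd M (rd K N J0) ≤ wd M (rd K N (j - 1)) := by
      have := hit (j - 1 - J0) (by omega)
      rwa [show J0 + (j - 1 - J0) = j - 1 by omega] at this
    have h8 : (1 : ℝ) ≤ 8 ^ (j - 1 - J0) := one_le_pow₀ (by norm_num)
    have hq1 : wd M (rd K N J0) ≤ 1 * wd M (rd K N (j - 1)) := by
      rw [one_mul]
      nlinarith [hpos J0 hJ0]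
    obtain ⟨-, h4⟩ := hwin (rd K N (j - 1)) (rd K N (j + 1)) (wd M (rd K N J0))
      (h1 _ (by omega)) (hd j hjn (by omega)) (hpos J0 hJ0).le hq1
    have h5 : Un K N (wd M (rd K N J0)) j ⊆ {w | ∃ v ∈ Ball 0 (rd K N (j - 1)),
        Mixed (1 / 2 - wd M (rd K N J0)) (1 / 2 + wd M (rd K N J0)) v (rd K N (j + 1)) w} := by
      rintro w ⟨v, -, h6, h7⟩
      exact ⟨v, (by change nrm (v - 0) ≤ _; rwa [sub_zero]), h7⟩
    have h6 : (P (Un K N (wd M (rd K N J0)) j)).toReal ≤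
        C * (wd M (rd K N J0) / wd M (rd K N (j - 1))) := by
      refine ENNReal.toReal_le_of_le_ofReal ?_ ((measure_mono h5).trans h4)
      have := hpos J0 hJ0
      have := hpos (j - 1) (by omega)
      positivity
    refine h6.trans (mul_le_mul_of_nonneg_left ?_ hC.le)
    rw [div_le_iff₀ (hpos (j - 1) (by omega)), one_div, inv_pow, inv_mul_eq_div,
      le_div_iff₀ (by positivity)]
    linarith

end Pool.Agent.MSTLim
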