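import Pool.Agent.MST.Fin
import Pool.Agent.MST.Lim
import Pool.Agent.MST.ThmN
import Pool.Agent.MSTLim.Cnt
import Pool.Agent.MSTLim.Runs
import Pool.Agent.MSTLim.Unc

/-!
# The weak pattern is covered by the runs of `E_F`

`Bad1 N q`: the annulus `Ann 0 m0 (2 m0)`, `m0 = ⌊N / 4⌋`, has no `(1/2 + q)`-open circuit or has a
`(1/2 - q)`-open crossing.
* `run_ok`: outside `Bad1 N q`, the weak pattern gives `E_F` in every run of blocks without mixed
  vertices.
* `cover`: the weak pattern is (up to a null set) contained in the union of `Bad1`, of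
  `{k ≤ number of blocks with mixed vertices}` and of the events `EL` for all sets of less than
  `k` removed blocks.
-/

namespace Pool.Agent.MSTLim

open MeasureTheory Set Filter
open Pool.Agent.TriPerc
open Pool.Agent.MST (EF Mixed thmN pw_of ae_fin mem_ann0)

variable {K N C x a b q M : ℝ} {s t n j k J0 : ℕ} {v : V} {d d' : ℤ} {w w' : Lab} {S : Set V}

/-- The outermost block is bad. -/
def Bad1 (N q : ℝ) : Set Lab :=
  {w | Arm (Op (1 / 2 + q) w)ᶜ 0 ⌊N / 4⌋ (2 * ⌊N / 4⌋)} ∪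
    {w | Arm (Op (1 / 2 - q) w) 0 ⌊N / 4⌋ (2 * ⌊N / 4⌋)}

theorem run_ok (hw : Function.Injective w) (hfin : ∀ v, (comp (Op (1 / 2) w) v).Finite)
    (hK : 16 ≤ K) (hN : 16 ≤ N) (hW : Wide K N (n + 1)) (hq : 0 ≤ q)
    (hPW : PW w (2 * (N / K ^ n)) (N / 2)) (hb : w ∉ Bad1 N q) (hs : 1 ≤ s) (hst : s < t)
    (htn : t + 1 ≤ n) (hU : ∀ j, s < j → j ≤ t → w ∉ Un K N q j) : w ∈ RE K N s t := by
  have h0 : ∀ k : ℕ, (0 : ℝ) < K ^ k := fun k => pow_pos (by linarith) k
  have hc : ¬ Arm (Op (1 / 2 + q) w)ᶜ 0 ⌊N / 4⌋ (2 * ⌊N / 4⌋) := fun h => hb (Or.inl h)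
  have ho : ¬ Arm (Op (1 / 2 - q) w) 0 ⌊N / 4⌋ (2 * ⌊N / 4⌋) := fun h => hb (Or.inr h)
  have f1 : (⌊N / 4⌋ : ℝ) ≤ N / 4 := Int.floor_le _
  have f2 : N / 4 < ⌊N / 4⌋ + 1 := Int.lt_floor_add_one _
  have f3 : 2 * ⌊N / 4⌋ ≤ ⌊N / 2⌋ := by
    refine Int.le_floor.2 ?_
    push_cast
    linarith
  have f4 : 1 ≤ ⌊N / 4⌋ := by
    refine Int.le_floor.2 ?_
    push_cast
    linarith
  have g1 : (rd K N s : ℝ) ≤ N / 16 := by
    refine (Int.floor_le _).trans (div_le_div_of_nonneg_left (by linarith) (by norm_num) ?_)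
    calc (16 : ℝ) ≤ K := hK
      _ = K ^ 1 := (pow_one K).symm
      _ ≤ K ^ s := pow_le_pow_right₀ (by linarith) hs
  have g2 : (rd K N (s + 2) : ℝ) ≤ N / 16 := by
    refine (Int.floor_le _).trans (div_le_div_of_nonneg_left (by linarith) (by norm_num) ?_)
    calc (16 : ℝ) ≤ K := hK
      _ = K ^ 1 := (pow_one K).symm
      _ ≤ K ^ (s + 2) := pow_le_pow_right₀ (by linarith) (by omega)
  have g3 : rd K N s + rd K N (s + 2) < ⌊N / 4⌋ := by
    have : (rd K N s : ℝ) + rd K N (s + 2) < ⌊N / 4⌋ := by linarith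
    exact_mod_cast this
  have g4 : ⌈2 * (N / K ^ n)⌉ ≤ rd K N t + 1 := by
    refine Int.ceil_le.2 ?_
    have h1 : N / K ^ t < rd K N t + 1 := Int.lt_floor_add_one _
    have h2 : 2 * (N / K ^ n) ≤ N / K ^ t := by
      rw [← mul_div_assoc, div_le_div_iff₀ (h0 n) (h0 t)]
      have h3 : K ^ n = K ^ t * K ^ (n - t) := by
        rw [← pow_add]
        congr 1
        omega
      have h4 : 2 ≤ K ^ (n - t) := by
        calc (2 : ℝ) ≤ K ^ 1 := by rw [pow_one]; linarith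
          _ ≤ K ^ (n - t) := pow_le_pow_right₀ (by linarith) (by omega)
      rw [h3]
      have := h0 t
      have h5 : (0 : ℝ) ≤ N * K ^ t := by positivity
      nlinarith
    push_cast
    linarith
  unfold RE
  rw [if_pos hst]
  have w1 := hW.lt hst (by omega)
  have w2 := hW.one (by omega : t ≤ n + 1)
  have w3 := hW.one (by omega : s + 2 ≤ n + 1)
  refine thmN hw (a := 1 / 2 - q) (b := 1 / 2 + q) (p := 1 / 2) (by linarith) (by linarith)
    (pw_of hPW) (r1 := ⌊N / 4⌋) (R := ⌊N / 2⌋) (fun h => hc (arm_sub le_rfl f3 (by omega) h))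
    (fun h => ho (arm_sub le_rfl f3 (by omega) h)) (fun v _ => hfin v) g4 (by omega) (by omega)
    w3 g3 (by omega) ?_
  intro v hv hmx
  obtain ⟨h1, h2⟩ := mem_ann0.1 hv
  have hex : ∃ j, rd K N j + 1 ≤ nrm v := ⟨t, h1⟩
  classical
  obtain ⟨j, hj, hmin, hjt⟩ : ∃ j, rd K N j + 1 ≤ nrm v ∧ (∀ i < j, ¬ rd K N i + 1 ≤ nrm v) ∧
      j ≤ t := ⟨Nat.find hex, Nat.find_spec hex, fun i hi => Nat.find_min hex hi,
        Nat.find_min' hex h1⟩
  have hsj : s < j := by
    by_contra hcon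
    have := hW.le (not_lt.1 hcon) (by omega)
    omega
  refine hU j hsj hjt ⟨v, hj, ?_, Mixed.anti (hW.one (by omega)) (hW.le (by omega) (by omega)) hmx⟩
  have := hmin (j - 1) (by omega)
  omega

theorem mem_EL : ∀ (l : List ℕ) (s : ℕ), s ≤ n → (∀ j ∈ l, s < j ∧ j ≤ n) →
    l.Pairwise (· < ·) →
    (∀ s' t', s ≤ s' → t' ≤ n → (∀ j, s' < j → j ≤ t' → j ∉ l) → w ∈ RE K N s' t') →
    w ∈ EL K N n s l := by
  intro l
  induction l with
  | nil =>
    intro s hs _ _ h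
    exact h s n le_rfl le_rfl (by simp)
  | cons i l ih =>
    intro s hs hl hp h
    obtain ⟨h1, h2⟩ := hl i List.mem_cons_self
    obtain ⟨h3, h4⟩ := List.pairwise_cons.1 hp
    refine ⟨h s (i - 1) le_rfl (by omega) fun j j1 j2 hj => ?_,
      ih i h2 (fun j hj => ⟨h3 j hj, (hl j (List.mem_cons_of_mem _ hj)).2⟩) h4
        fun s' t' k1 k2 k3 => h s' t' (by omega) k2 fun j j1 j2 hj => ?_⟩
    · rcases List.mem_cons.1 hj with rfl | hj
      · omega
      · have := h3 j hj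
        omega
    · rcases List.mem_cons.1 hj with rfl | hj
      · omega
      · exact k3 j j1 j2 hj

theorem ae_inj : ∀ᵐ w ∂P, Function.Injective w := by
  filter_upwards [ae_label 0] with w hw
  intro u v huv
  by_contra h
  exact hw.2 u v h huv

/-- The weak pattern is covered. -/
theorem cover (hK : 16 ≤ K) (hN : 16 ≤ N) (hW : Wide K N (n + 2)) (hq : 0 ≤ q) (hJ : 1 ≤ J0)
    (hJn : J0 ≤ n) (k : ℕ) :
    P {w | PW w (2 * (N / K ^ (n + 1))) (N / 2)} ≤ P (Bad1 N q) +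
      P {w | k ≤ cnt (Finset.Ioc J0 n) (Un K N q) w} +
      ∑ J ∈ (Finset.Ioc J0 n).powerset.filter (fun J => J.card < k),
        P (EL K N n J0 (J.sort (· ≤ ·))) := by
  classical
  have h1 : {w | PW w (2 * (N / K ^ (n + 1))) (N / 2)} ≤ᵐ[P] (Bad1 N q ∪
      {w | k ≤ cnt (Finset.Ioc J0 n) (Un K N q) w} ∪
      ⋃ J ∈ (Finset.Ioc J0 n).powerset.filter (fun J => J.card < k),
        EL K N n J0 (J.sort (· ≤ ·)) : Set Lab) := by
    filter_upwards [ae_inj, ae_fin] with w hw hfin hPW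
    by_cases hb : w ∈ Bad1 N q
    · exact Or.inl (Or.inl hb)
    by_cases hk : k ≤ cnt (Finset.Ioc J0 n) (Un K N q) w
    · exact Or.inl (Or.inr hk)
    refine Or.inr ?_
    rw [not_le] at hk
    have hcov : ∀ j, j ∈ ((Finset.Ioc J0 n).filter fun j => w ∈ Un K N q j) ↔
        (J0 < j ∧ j ≤ n) ∧ w ∈ Un K N q j := fun j => by
      rw [Finset.mem_filter, Finset.mem_Ioc]
    refine mem_iUnion₂.2 ⟨(Finset.Ioc J0 n).filter fun j => w ∈ Un K N q j,
      Finset.mem_filter.2 ⟨Finset.mem_powerset.2 (Finset.filter_subset _ _), hk⟩, ?_⟩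
    refine mem_EL _ _ hJn (fun j hj => ?_) (Finset.sortedLT_sort _).pairwise ?_
    · exact ((hcov j).1 ((Finset.mem_sort _).1 hj)).1
    · intro s' t' k1 k2 k3
      by_cases hst : s' < t'
      · refine run_ok hw hfin hK hN hW hq hPW hb (by omega) hst (by omega) fun j j1 j2 hj => ?_
        exact k3 j j1 j2 ((Finset.mem_sort _).2 ((hcov j).2 ⟨⟨by omega, by omega⟩, hj⟩))
      · unfold RE
        rw [if_neg hst]
        trivial
  refine (measure_mono_ae h1).trans ((measure_union_le _ _).trans ?_)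
  exact add_le_add (measure_union_le _ _) (measure_biUnion_finset_le _ _)

end Pool.Agent.MSTLim
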