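import Pool.Agent.MSTLim.AngB

/-!
# Duality on the triangular lattice

`dual`: let `S` be a set of vertices, `a, b ∉ S`, and suppose that `ar a - ar b` has a potential
`g` on `S`: `ar a u v - ar b u v = g v - g u` for all adjacent `u, v ∈ S` (this holds if every
closed walk in `S` has the same index at `a` and at `b`).  If the component of `a` outside `S` is
finite, then `a` and `b` are joined outside `S`.

PROOF.  Let `K = comp Sᶜ a` and suppose `b ∉ K`.  Put `gg v = g v` for `v ∈ S`, `gg v = 0`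
otherwise, and `th u v = ar a u v - ar b u v - (gg v - gg u)`.  Let
`ph u v = th u v` if (`u ∈ K` or `v ∈ K`) and `u ≠ a` and `v ≠ a` and `Adj u v`, and `ph u v = 0`
otherwise.
(1) `ph v u = - ph u v`: `ar_symm` (the vertices of such an edge are in `K ∪ S`, because a
neighbour of a vertex of `K` is in `K` or in `S` (`comp_adj`); so they are different from `b`).
(2) Let `u, v, w` be mutually adjacent, all different from `a`.  Then
`ph u v + ph v w + ph w u = 0`.  If none of them is in `K` all three are `0`.  Otherwise all three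
are in `K ∪ S`, hence `≠ b`; for every edge of the triangle `ph = th` (an edge with no end in `K`
has both ends in `S`, there `th = 0` by the hypothesis on `g`, and `ph = 0`); the sum of `th` over
the triangle is `0` by `ar_tri` for `a` and for `b`.
(3) Let `x_k = nb a k`.  All `x_k` are in `K ∪ S`.  `ph a x_k = 0`, and `ph x_k x_(k+1) =
th x_k x_(k+1)` as in (2).  So the sum of the curls of `ph` over the six triangles round `a` is
`∑ th x_k x_(k+1) = 2 pi` by `ar_hex`; the contribution of `ar b` is `0`: by `ar_tri` (triangle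
`a, x_k, x_(k+1)`, seen from `b`) `ar b x_k x_(k+1) = ar b a x_(k+1) - ar b a x_k`, which
telescopes (`nb_six`); the contribution of `gg` telescopes as well.
(4) `curl_sum`: for every antisymmetric `ph : V → V → ℝ` with finite support the sum of the curls
over all triangles is `0`.  With `cu ph (i, j) = ph (i,j) (i+1,j) + ph (i+1,j) (i,j+1) +
ph (i,j+1) (i,j)` and `cd ph (i, j) = ph (i+1,j) (i+1,j+1) + ph (i+1,j+1) (i,j+1) +
ph (i,j+1) (i+1,j)` (both counter clockwise): the diagonal terms cancel and the sum is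
`∑ (h (i,j) - h (i,j+1)) + ∑ (l (i+1,j) - l (i,j))` with `h (i,j) = ph (i,j) (i+1,j)`,
`l (i,j) = ph (i,j) (i,j+1)`, finitely supported: both sums vanish by translation invariance
(`finsum` over `V`, `finsum_comp_equiv` with `tr`, or `Finset` sums over a large box).
(5) By (2), (3) the sum of all curls is `2 pi`: the six triangles round `a = (i, j)` are
`cu (i,j), cd (i-1,j), cu (i-1,j), cd (i-1,j-1), cu (i,j-1), cd (i,j-1)`; all the others vanish.
Contradiction to (4).

The support of `ph` is finite because `K` is finite and every edge of the support has an end in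
`K`.

`dual_fin`: the same for finite `S` (no assumption on components): the complement of a large ball
is connected (`isConn_out`), so at most one component of `Sᶜ` is infinite; if `a, b` are not
joined outside `S` then the component of `a` or that of `b` is finite; in the second case
exchange `a` and `b` and replace `g` by `-g`.
-/

namespace Pool.Agent.MSTLim

open Pool.Agent.TriPerc

variable {S : Set V} {a b : V}

/-- The curl of `ph` on the upward triangle at `x`. -/
def cu (ph : V → V → ℝ) (x : V) : ℝ :=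
  ph x (x.1 + 1, x.2) + ph (x.1 + 1, x.2) (x.1, x.2 + 1) + ph (x.1, x.2 + 1) x

/-- The curl of `ph` on the downward triangle at `x`. -/
def cd (ph : V → V → ℝ) (x : V) : ℝ :=
  ph (x.1 + 1, x.2) (x.1 + 1, x.2 + 1) + ph (x.1 + 1, x.2 + 1) (x.1, x.2 + 1) +
    ph (x.1, x.2 + 1) (x.1 + 1, x.2)

theorem curl_sum (ph : V → V → ℝ) (hs : ∀ u v, ph v u = - ph u v)
    (hf : {p : V × V | ph p.1 p.2 ≠ 0}.Finite) : ∑ᶠ x : V, (cu ph x + cd ph x) = 0 := by
  obtain ⟨h, hh⟩ : ∃ h : V → ℝ, h = fun x => ph x (x.1 + 1, x.2) := ⟨_, rfl⟩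
  obtain ⟨l, hl⟩ : ∃ l : V → ℝ, l = fun x => ph x (x.1, x.2 + 1) := ⟨_, rfl⟩
  have fh : (Function.support h).Finite := by
    refine Set.Finite.of_finite_image (f := fun x : V => (x, ((x.1 + 1, x.2) : V)))
      (hf.subset ?_) ?_
    · rintro _ ⟨x, hx, rfl⟩
      rw [hh] at hx
      exact hx
    · intro x _ y _ hxy
      exact (Prod.ext_iff.1 hxy).1
  have fl : (Function.support l).Finite := by
    refine Set.Finite.of_finite_image (f := fun x : V => (x, ((x.1, x.2 + 1) : V)))
      (hf.subset ?_) ?_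
    · rintro _ ⟨x, hx, rfl⟩
      rw [hl] at hx
      exact hx
    · intro x _ y _ hxy
      exact (Prod.ext_iff.1 hxy).1
  have e1 : ∀ x : V, cu ph x + cd ph x =
      (h x - h (tr (0, 1) x)) + (l (tr (1, 0) x) - l x) := by
    intro x
    have t1 : tr (0, 1) x = (x.1, x.2 + 1) := by
      ext <;> simp [tr]
    have t2 : tr (1, 0) x = (x.1 + 1, x.2) := by
      ext <;> simp [tr]
    rw [t1, t2, hh, hl]
    unfold cu cd
    have s1 := hs x (x.1, x.2 + 1)
    have s2 := hs (x.1 + 1, x.2) (x.1, x.2 + 1)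
    have s3 := hs (x.1, x.2 + 1) (x.1 + 1, x.2 + 1)
    dsimp only
    rw [s1, s2, s3]
    ring
  rw [finsum_congr e1]
  have fh' : (Function.support fun x => h (tr (0, 1) x)).Finite := by
    refine Set.Finite.of_finite_image (f := tr (0, 1)) (fh.subset ?_)
      (tr (0, 1)).injective.injOn
    rintro _ ⟨x, hx, rfl⟩
    exact hx
  have fl' : (Function.support fun x => l (tr (1, 0) x)).Finite := by
    refine Set.Finite.of_finite_image (f := tr (1, 0)) (fl.subset ?_)
      (tr (1, 0)).injective.injOn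
    rintro _ ⟨x, hx, rfl⟩
    exact hx
  rw [finsum_add_distrib ((fh.union fh').subset (Function.support_sub _ _))
      ((fl'.union fl).subset (Function.support_sub _ _)),
    finsum_sub_distrib fh fh', finsum_sub_distrib fl' fl,
    finsum_comp_equiv (tr (0, 1)) (f := h), finsum_comp_equiv (tr (1, 0)) (f := l)]
  ring

private theorem nb_vals (a : V) : nb a 0 = (a.1 + 1, a.2) ∧ nb a 1 = (a.1, a.2 + 1) ∧
    nb a 2 = (a.1 - 1, a.2 + 1) ∧ nb a 3 = (a.1 - 1, a.2) ∧ nb a 4 = (a.1, a.2 - 1) ∧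
    nb a 5 = (a.1 + 1, a.2 - 1) := by
  have r0 : (rot ^ 0) ((1, 0) : V) = (1, 0) := rfl
  have r1 : (rot ^ 1) ((1, 0) : V) = (0, 1) := rfl
  have r2 : (rot ^ 2) ((1, 0) : V) = (-1, 1) := rfl
  have r3 : (rot ^ 3) ((1, 0) : V) = (-1, 0) := rfl
  have r4 : (rot ^ 4) ((1, 0) : V) = (0, -1) := rfl
  have r5 : (rot ^ 5) ((1, 0) : V) = (1, -1) := rfl
  unfold nb
  rw [r0, r1, r2, r3, r4, r5]
  refine ⟨?_, ?_, ?_, ?_, ?_, ?_⟩ <;> ext <;> simp [sub_eq_add_neg]

theorem dual (ha : a ∉ S) (hb : b ∉ S) (hK : (comp Sᶜ a).Finite) (g : V → ℝ)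
    (hg : ∀ u ∈ S, ∀ v ∈ S, Adj u v → ar a u v - ar b u v = g v - g u) : Conn Sᶜ a b := by
  classical
  by_contra hcon
  obtain ⟨K, hKd⟩ : ∃ K : Set V, K = comp Sᶜ a := ⟨_, rfl⟩
  rw [← hKd] at hK
  have haK : a ∈ K := by
    rw [hKd]
    exact Conn.refl ha
  have hbK : b ∉ K := by
    rw [hKd]
    exact hcon
  have hnb : ∀ x ∈ K, ∀ y, Adj x y → y ∈ K ∨ y ∈ S := by
    intro x hx y hxy
    by_cases hy : y ∈ S
    · exact Or.inr hy
    · left
      rw [hKd] at hx ⊢
      exact comp_adj hx hy hxy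
  have hneb : ∀ x, x ∈ K ∨ x ∈ S → x ≠ b := by
    rintro x (hx | hx) rfl
    · exact hbK hx
    · exact hb hx
  obtain ⟨gg, hgg⟩ : ∃ gg : V → ℝ, gg = fun v => if v ∈ S then g v else 0 := ⟨_, rfl⟩
  have hggS : ∀ v ∈ S, gg v = g v := fun v hv => by rw [hgg]; exact if_pos hv
  obtain ⟨th, hth⟩ : ∃ th : V → V → ℝ, th = fun u v => ar a u v - ar b u v - (gg v - gg u) :=
    ⟨_, rfl⟩
  have thE : ∀ u v, th u v = ar a u v - ar b u v - (gg v - gg u) := fun u v => by rw [hth]
  obtain ⟨ph, hph⟩ : ∃ ph : V → V → ℝ, ph = fun u v =>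
      if (u ∈ K ∨ v ∈ K) ∧ u ≠ a ∧ v ≠ a ∧ Adj u v then th u v else 0 := ⟨_, rfl⟩
  have phE : ∀ u v, ph u v =
      if (u ∈ K ∨ v ∈ K) ∧ u ≠ a ∧ v ≠ a ∧ Adj u v then th u v else 0 := fun u v => by
    rw [hph]
  have both : ∀ u v, (u ∈ K ∨ v ∈ K) → Adj u v → (u ∈ K ∨ u ∈ S) ∧ (v ∈ K ∨ v ∈ S) := by
    rintro u v (h | h) huv
    · exact ⟨Or.inl h, hnb u h v huv⟩
    · exact ⟨hnb v h u huv.symm, Or.inl h⟩
  -- antisymmetry
  have hs : ∀ u v, ph v u = - ph u v := by
    intro u v
    rw [phE, phE]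
    by_cases hc : (u ∈ K ∨ v ∈ K) ∧ u ≠ a ∧ v ≠ a ∧ Adj u v
    · rw [if_pos hc, if_pos ⟨hc.1.symm, hc.2.2.1, hc.2.1, hc.2.2.2.symm⟩]
      obtain ⟨h1, h2, h3, h4⟩ := hc
      obtain ⟨hu, hv⟩ := both u v h1 h4
      rw [thE, thE, ar_symm h4 h2 h3, ar_symm h4 (hneb u hu) (hneb v hv)]
      ring
    · rw [if_neg hc, if_neg fun h => hc ⟨h.1.symm, h.2.2.1, h.2.1, h.2.2.2.symm⟩, neg_zero]
  -- on edges with both ends in `K ∪ S`
  have hedge : ∀ u v, (u ∈ K ∨ u ∈ S) → (v ∈ K ∨ v ∈ S) → u ≠ a → v ≠ a → Adj u v →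
      ph u v = th u v := by
    intro u v hu hv hua hva huv
    rw [phE]
    by_cases hc : u ∈ K ∨ v ∈ K
    · rw [if_pos ⟨hc, hua, hva, huv⟩]
    · rw [if_neg fun h => hc h.1]
      rw [not_or] at hc
      have hu' := hu.resolve_left hc.1
      have hv' := hv.resolve_left hc.2
      rw [thE, hg u hu' v hv' huv, hggS u hu', hggS v hv', sub_self]
  -- triangles
  have htri : ∀ u v w, Adj u v → Adj v w → Adj u w → u ≠ a → v ≠ a → w ≠ a →
      ph u v + ph v w + ph w u = 0 := by
    intro u v w huv hvw huw hu hv hw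
    by_cases hc : u ∈ K ∨ v ∈ K ∨ w ∈ K
    · have hall : (u ∈ K ∨ u ∈ S) ∧ (v ∈ K ∨ v ∈ S) ∧ (w ∈ K ∨ w ∈ S) := by
        rcases hc with h | h | h
        · exact ⟨Or.inl h, hnb u h v huv, hnb u h w huw⟩
        · exact ⟨hnb v h u huv.symm, Or.inl h, hnb v h w hvw⟩
        · exact ⟨hnb w h u huw.symm, hnb w h v hvw.symm, Or.inl h⟩
      obtain ⟨k1, k2, k3⟩ := hall
      rw [hedge u v k1 k2 hu hv huv, hedge v w k2 k3 hv hw hvw, hedge w u k3 k1 hw hu huw.symm,
        thE, thE, thE]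
      have h1 := ar_tri huv hvw huw hu hv hw
      have h2 := ar_tri huv hvw huw (hneb u k1) (hneb v k2) (hneb w k3)
      linarith
    · rw [not_or, not_or] at hc
      obtain ⟨k1, k2, k3⟩ := hc
      rw [phE, phE, phE, if_neg fun h => h.1.elim k1 k2, if_neg fun h => h.1.elim k2 k3,
        if_neg fun h => h.1.elim k3 k1]
      norm_num
  have pha : ∀ v, ph a v = 0 := fun v => by
    rw [phE, if_neg fun h => h.2.1 rfl]
  have pha' : ∀ v, ph v a = 0 := fun v => by
    rw [phE, if_neg fun h => h.2.2.1 rfl]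
  -- finite support
  have hf : {p : V × V | ph p.1 p.2 ≠ 0}.Finite := by
    obtain ⟨D, hD⟩ : ∃ D : Set V, D = Set.Icc ((-1, -1) : V) (1, 1) := ⟨_, rfl⟩
    have hDf : D.Finite := by
      rw [hD]
      exact Set.finite_Icc _ _
    have hd : ∀ {u v : V}, Adj u v → v - u ∈ D := by
      intro u v huv
      rw [hD]
      unfold Adj at huv
      refine ⟨⟨?_, ?_⟩, ⟨?_, ?_⟩⟩ <;> simp only [Prod.fst_sub, Prod.snd_sub] <;> omega
    refine (((hK.prod hDf).image fun p : V × V => (p.1, p.1 + p.2)).union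
      ((hK.prod hDf).image fun p : V × V => (p.1 + p.2, p.1))).subset ?_
    rintro ⟨u, v⟩ hp
    have hp' : ph u v ≠ 0 := hp
    rw [phE] at hp'
    have hc : (u ∈ K ∨ v ∈ K) ∧ u ≠ a ∧ v ≠ a ∧ Adj u v := by
      by_contra h
      exact hp' (if_neg h)
    rcases hc.1 with h | h
    · left
      exact ⟨(u, v - u), ⟨h, hd hc.2.2.2⟩, by simp⟩
    · right
      exact ⟨(v, u - v), ⟨h, hd hc.2.2.2.symm⟩, by simp⟩
  have hsum := curl_sum ph hs hf
  -- the hexagon
  have nK : ∀ k, nb a k ∈ K ∨ nb a k ∈ S := fun k => hnb a haK _ (adj_nb a k)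
  have na : ∀ k, nb a k ≠ a := fun k => (adj_nb a k).ne.symm
  have hab : a ≠ b := hneb a (Or.inl haK)
  have hbk : ∀ k, ar b (nb a k) (nb a (k + 1)) = ar b a (nb a (k + 1)) - ar b a (nb a k) := by
    intro k
    have h1 := ar_tri (a := b) (adj_nb a k) (adj_nb_nb a k) (adj_nb a (k + 1)) hab
      (hneb _ (nK k)) (hneb _ (nK (k + 1)))
    have h2 := ar_symm (a := b) (adj_nb a (k + 1)) hab (hneb _ (nK (k + 1)))
    linarith
  have hhex : ∑ k ∈ Finset.range 6, ph (nb a k) (nb a (k + 1)) = 2 * Real.pi := by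
    have e : ∀ k ∈ Finset.range 6, ph (nb a k) (nb a (k + 1)) =
        ar a (nb a k) (nb a (k + 1)) - (ar b a (nb a (k + 1)) - ar b a (nb a k)) -
          (gg (nb a (k + 1)) - gg (nb a k)) := by
      intro k _
      rw [hedge _ _ (nK k) (nK (k + 1)) (na k) (na (k + 1)) (adj_nb_nb a k), thE, hbk k]
    rw [Finset.sum_congr rfl e, Finset.sum_sub_distrib, Finset.sum_sub_distrib, ar_hex,
      Finset.sum_range_sub (fun k => ar b a (nb a k)), Finset.sum_range_sub (fun k => gg (nb a k))]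
    have h6 : nb a 6 = nb a 0 := nb_six a 0
    rw [h6]
    ring
  -- the total curl
  obtain ⟨v0, v1, v2, v3, v4, v5⟩ := nb_vals a
  have hz : ∀ x : V, x ≠ (a.1, a.2) → x ≠ (a.1 - 1, a.2) → x ≠ (a.1, a.2 - 1) →
      cu ph x = 0 := by
    intro x h1 h2 h3
    have n1 : ¬ (x.1 = a.1 ∧ x.2 = a.2) := fun h => h1 (Prod.ext h.1 h.2)
    have n2 : ¬ (x.1 = a.1 - 1 ∧ x.2 = a.2) := fun h => h2 (Prod.ext h.1 h.2)
    have n3 : ¬ (x.1 = a.1 ∧ x.2 = a.2 - 1) := fun h => h3 (Prod.ext h.1 h.2)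
    refine htri x (x.1 + 1, x.2) (x.1, x.2 + 1) ?_ ?_ ?_ ?_ ?_ ?_
    · unfold Adj
      omega
    · unfold Adj
      omega
    · unfold Adj
      omega
    · rintro rfl
      exact n1 ⟨rfl, rfl⟩
    · intro h
      rw [Prod.ext_iff] at h
      exact n2 ⟨by have := h.1; dsimp only at this; omega, h.2⟩
    · intro h
      rw [Prod.ext_iff] at h
      exact n3 ⟨h.1, by have := h.2; dsimp only at this; omega⟩
  have hz' : ∀ x : V, x ≠ (a.1 - 1, a.2) → x ≠ (a.1 - 1, a.2 - 1) → x ≠ (a.1, a.2 - 1) →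
      cd ph x = 0 := by
    intro x h1 h2 h3
    have n1 : ¬ (x.1 = a.1 - 1 ∧ x.2 = a.2) := fun h => h1 (Prod.ext h.1 h.2)
    have n2 : ¬ (x.1 = a.1 - 1 ∧ x.2 = a.2 - 1) := fun h => h2 (Prod.ext h.1 h.2)
    have n3 : ¬ (x.1 = a.1 ∧ x.2 = a.2 - 1) := fun h => h3 (Prod.ext h.1 h.2)
    refine htri (x.1 + 1, x.2) (x.1 + 1, x.2 + 1) (x.1, x.2 + 1) ?_ ?_ ?_ ?_ ?_ ?_
    · unfold Adj
      omega
    · unfold Adj
      omega
    · unfold Adj
      omega
    · intro h
      rw [Prod.ext_iff] at h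
      exact n1 ⟨by have := h.1; dsimp only at this; omega, h.2⟩
    · intro h
      rw [Prod.ext_iff] at h
      exact n2 ⟨by have := h.1; dsimp only at this; omega,
        by have := h.2; dsimp only at this; omega⟩
    · intro h
      rw [Prod.ext_iff] at h
      exact n3 ⟨h.1, by have := h.2; dsimp only at this; omega⟩
  obtain ⟨i, j⟩ := a
  dsimp only at v0 v1 v2 v3 v4 v5 hz hz'
  have c1 : cu ph (i, j) = ph (nb (i, j) 0) (nb (i, j) 1) := by
    unfold cu
    rw [v0, v1, pha, pha']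
    ring
  have c2 : cd ph (i - 1, j) = ph (nb (i, j) 1) (nb (i, j) 2) := by
    unfold cd
    dsimp only
    rw [v1, v2, sub_add_cancel, pha, pha']
    ring
  have c3 : cu ph (i - 1, j) = ph (nb (i, j) 2) (nb (i, j) 3) := by
    unfold cu
    dsimp only
    rw [v2, v3, sub_add_cancel, pha, pha']
    ring
  have c4 : cd ph (i - 1, j - 1) = ph (nb (i, j) 3) (nb (i, j) 4) := by
    unfold cd
    dsimp only
    rw [v3, v4, sub_add_cancel, sub_add_cancel, pha, pha']
    ring
  have c5 : cu ph (i, j - 1) = ph (nb (i, j) 4) (nb (i, j) 5) := by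
    unfold cu
    dsimp only
    rw [v4, v5, sub_add_cancel, pha, pha']
    ring
  have c6 : cd ph (i, j - 1) = ph (nb (i, j) 5) (nb (i, j) 6) := by
    have h6 : nb (i, j) 6 = nb (i, j) 0 := nb_six (i, j) 0
    unfold cd
    dsimp only
    rw [h6, v5, v0, sub_add_cancel, pha, pha']
    ring
  have c7 : cd ph (i, j) = 0 := by
    refine hz' (i, j) ?_ ?_ ?_ <;> intro h <;> rw [Prod.ext_iff] at h <;> dsimp only at h <;>
      omega
  have c8 : cu ph (i - 1, j - 1) = 0 := by
    refine hz (i - 1, j - 1) ?_ ?_ ?_ <;> intro h <;> rw [Prod.ext_iff] at h <;>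
      dsimp only at h <;> omega
  have htot : ∑ᶠ x : V, (cu ph x + cd ph x) =
      ∑ k ∈ Finset.range 6, ph (nb (i, j) k) (nb (i, j) (k + 1)) := by
    have hsup : (Function.support fun x : V => cu ph x + cd ph x) ⊆
        (({(i, j), (i - 1, j), (i, j - 1), (i - 1, j - 1)} : Finset V) : Set V) := by
      intro x hx
      by_contra h
      simp only [Finset.coe_insert, Finset.coe_singleton, Set.mem_insert_iff,
        Set.mem_singleton_iff, not_or] at h
      obtain ⟨m1, m2, m3, m4⟩ := h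
      apply hx
      change cu ph x + cd ph x = 0
      rw [hz x m1 m2 m3, hz' x m2 m4 m3, add_zero]
    rw [finsum_eq_sum_of_support_subset _ hsup, Finset.sum_insert, Finset.sum_insert,
      Finset.sum_insert, Finset.sum_singleton, c1, c2, c3, c4, c5, c6, c7, c8]
    · simp only [Finset.sum_range_succ, Finset.sum_range_zero]
      ring
    · intro h
      simp only [Finset.mem_singleton, Prod.mk.injEq] at h
      omega
    · intro h
      simp only [Finset.mem_insert, Finset.mem_singleton, Prod.mk.injEq] at h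
      omega
    · intro h
      simp only [Finset.mem_insert, Finset.mem_singleton, Prod.mk.injEq] at h
      omega
  rw [htot, hhex] at hsum
  have := Real.pi_pos
  linarith

theorem dual_fin (hS : S.Finite) (ha : a ∉ S) (hb : b ∉ S) (g : V → ℝ)
    (hg : ∀ u ∈ S, ∀ v ∈ S, Adj u v → ar a u v - ar b u v = g v - g u) : Conn Sᶜ a b := by
  by_cases h1 : (comp Sᶜ a).Finite
  · exact dual ha hb h1 g hg
  by_cases h2 : (comp Sᶜ b).Finite
  · refine (dual (a := b) (b := a) hb ha h2 (fun v => - g v) fun u hu v hv huv => ?_).symm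
    have := hg u hu v hv huv
    linarith
  obtain ⟨m, hm⟩ := (hS.image nrm).bddAbove
  have hout : {v : V | m < nrm (v - 0)} ⊆ Sᶜ := by
    intro v hv hvS
    have h3 := hm ⟨v, hvS, rfl⟩
    have h4 : m < nrm (v - 0) := hv
    rw [sub_zero] at h4
    omega
  have hex : ∀ c : V, ¬ (comp Sᶜ c).Finite → ∃ u, Conn Sᶜ c u ∧ m < nrm (u - 0) := by
    intro c hc
    by_contra hno
    refine hc ((finite_ball 0 m).subset fun v hv => ?_)
    by_contra h5
    exact hno ⟨v, hv, not_le.1 h5⟩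
  obtain ⟨u, hu, hu'⟩ := hex a h1
  obtain ⟨v, hv, hv'⟩ := hex b h2
  exact (hu.trans ((isConn_out 0 m u hu' v hv').mono hout)).trans hv.symm

end Pool.Agent.MSTLim
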