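import Pool.Agent.MSTLim.DiscP
import Pool.Agent.MSTLim.Dual

/-!
# General forms of the two lattice lemmas

`dw_conn`: if `a` and `b` are joined in the disc of radius `R1` off the path `f[n1, n2]`, whose
ends are outside the disc, then the index difference `dw f n1 n2 a b` is `0`.
`qsideG`: `qside` for an arbitrary finite connected set `D` and an arbitrary connected set `E`
(instead of a disc and the exterior of a disc).
-/

namespace Pool.Agent.MSTLim

open Pool.Agent.TriPerc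

theorem dw_conn {f : ℕ → V} {n1 n2 : ℕ} {R1 : ℝ} {a b : V} (hn : n1 ≤ n2)
    (hadj : ∀ k, n1 ≤ k → k < n2 → Adj (f k) (f (k + 1)))
    (hn1 : R1 < ‖emb (f n1)‖) (hn2 : R1 < ‖emb (f n2)‖)
    (h : Conn {z | ‖emb z‖ ≤ R1 ∧ ∀ k, n1 ≤ k → k ≤ n2 → z ≠ f k} a b) :
    dw f n1 n2 a b = 0 := by
  obtain ⟨Hc, hHs, hHw⟩ := walk_fun f hn hadj
  obtain ⟨A, hAdef⟩ : ∃ A : Set V, A = {z | ‖emb z‖ ≤ R1 ∧ ∀ k, n1 ≤ k → k ≤ n2 → z ≠ f k} :=
    ⟨_, rfl⟩
  rw [← hAdef] at h
  have hAoff : ∀ z ∈ A, z ∉ Hc.support := by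
    intro z hz hz'
    rw [hAdef] at hz
    obtain ⟨k, h4, h5, h6⟩ := hHs z hz'
    exact hz.2 k h4 h5 h6
  have hAR : ∀ z ∈ A, ‖emb z‖ ≤ R1 := by
    intro z hz
    rw [hAdef] at hz
    exact hz.1
  have hbA : b ∈ A := h.right
  obtain ⟨Φ, hΦ⟩ : ∃ Φ : V → ℝ, ∀ a, Φ a = ws (ar a) Hc - ws (ar b) Hc -
      ps a b (f n2) + ps a b (f n1) := ⟨_, fun _ => rfl⟩
  have hstep : ∀ a a', a ∈ A → a' ∈ A → Adj a a' → Φ a = Φ a' := by
    intro a a' ha ha' hadj'
    have h4 := ws_step Hc hadj' (hAoff a ha) (hAoff a' ha')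
    have h5 : ps a b (f n1) = ps a a' (f n1) + ps a' b (f n1) :=
      ps_add (out_half ((hAR a ha).trans_lt hn1)) (out_half ((hAR a' ha').trans_lt hn1))
        (out_half ((hAR _ hbA).trans_lt hn1))
    have h6 : ps a b (f n2) = ps a a' (f n2) + ps a' b (f n2) :=
      ps_add (out_half ((hAR a ha).trans_lt hn2)) (out_half ((hAR a' ha').trans_lt hn2))
        (out_half ((hAR _ hbA).trans_lt hn2))
    rw [hΦ, hΦ]
    linarith
  have hall : ∀ z, Relation.ReflTransGen (fun x y => Adj x y ∧ y ∈ A) a z →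
      z ∈ A ∧ Φ a = Φ z := by
    intro z hz
    induction hz with
    | refl => exact ⟨h.left, rfl⟩
    | tail _ h5 ih => exact ⟨h5.2, ih.2.trans (hstep _ _ ih.1 h5.2 h5.1)⟩
  have h7 := (hall _ h.2).2
  rw [hΦ, hΦ, ps_self, ps_self] at h7
  unfold dw
  rw [Finset.sum_sub_distrib, ← hHw, ← hHw]
  linarith

private theorem discG_seg {f : ℕ → V} {S : Set V} {i j : ℕ} (hij : i ≤ j)
    (h : ∀ k, i ≤ k → k < j → Adj (f k) (f (k + 1))) (hS : ∀ k, i ≤ k → k ≤ j → f k ∈ S) :
    Conn S (f i) (f j) := by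
  obtain ⟨p, hp, -⟩ := walk_fun f hij h
  refine conn_walk p fun x hx => ?_
  obtain ⟨k, h1, h2, rfl⟩ := hp x hx
  exact hS k h1 h2

private theorem discG_loop {f : ℕ → V} {i j : ℕ} {a b : V} (hij : i ≤ j)
    (h : ∀ k, i ≤ k → k < j → Adj (f k) (f (k + 1))) (q : TG.Walk (f j) (f i))
    (hc : Conn {z | (∀ k, i ≤ k → k ≤ j → z ≠ f k) ∧ z ∉ q.support} a b) :
    ∑ k ∈ Finset.Ico i j, (ar a (f k) (f (k + 1)) - ar b (f k) (f (k + 1))) +
      (ws (ar a) q - ws (ar b) q) = 0 := by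
  obtain ⟨p, hp, hs⟩ := walk_fun f hij h
  have h0 : Conn {z | z ∉ (p.append q).support} a b := by
    refine hc.mono ?_
    rintro z ⟨h2, h3⟩ h4
    rw [SimpleGraph.Walk.mem_support_append_iff] at h4
    rcases h4 with h4 | h4
    · obtain ⟨k, h5, h6, h7⟩ := hp z h4
      exact h2 k h5 h6 h7
    · exact h3 h4
  have h1 := ws_move (p.append q) h0
  rw [ws_append, ws_append, hs, hs] at h1
  rw [Finset.sum_sub_distrib]
  linarith

theorem qsideG {f : ℕ → V} {w0 al u1 w1 s1 s2 w2 u3 be w3 : ℕ} {D E : Set V}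
    (hDf : D.Finite) (hDc : IsConn D) (hEc : IsConn E) (hDE : ∀ z ∈ E, z ∉ D)
    (hadj : ∀ k, w0 ≤ k → k < w3 → Adj (f k) (f (k + 1)))
    (hinj : ∀ i, w0 ≤ i → i ≤ w3 → ∀ j, w0 ≤ j → j ≤ w3 → f i = f j → i = j)
    (h1 : w0 ≤ al) (h2 : al ≤ u1) (h3 : u1 < w1) (h4 : w1 < s1) (h5 : s1 ≤ s2) (h6 : s2 < w2)
    (h7 : w2 < u3) (h8 : u3 ≤ be) (h9 : be ≤ w3)
    (hDa : ∀ z ∈ D, ‖emb z‖ < ‖emb (f al)‖) (hDb : ∀ z ∈ D, ‖emb z‖ < ‖emb (f be)‖)
    (hρ0 : f w0 ∈ D) (hρ3 : f w3 ∈ D) (hρ1 : f w1 ∈ D) (hρ2 : f w2 ∈ D)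
    (hH : ∀ k, w1 < k → k < w2 → f k ∉ D)
    (hin1 : ∀ k, w1 < k → k < s1 → f k ∉ E) (hin2 : ∀ k, s2 < k → k < w2 → f k ∉ E)
    (hmid : ∀ k, s1 ≤ k → k ≤ s2 → ∀ z ∈ D, ¬ Adj z (f k))
    (ha : ∀ k, al ≤ k → k ≤ u1 → f k ∉ D) (hb : ∀ k, u3 ≤ k → k ≤ be → f k ∉ D)
    (hb1 : f u1 ∈ E) (hb3 : f u3 ∈ E)
    (hsep : ¬ Conn {z | z ∉ D ∧ ∀ k, w1 < k → k < w2 → z ≠ f k} (f al) (f be)) :
    ∑ k ∈ Finset.Ico w1 w2, (ar (f al) (f k) (f (k + 1)) - ar (f be) (f k) (f (k + 1))) ≠
      (th (f al) (f w2) - th (f be) (f w2)) - (th (f al) (f w1) - th (f be) (f w1)) := by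
  intro heq
  have hal : f al ∉ D := ha al le_rfl h2
  have hbe : f be ∉ D := hb be h8 le_rfl
  have hAdj : ∀ i j, w0 ≤ i → j ≤ w3 → ∀ k, i ≤ k → k < j → Adj (f k) (f (k + 1)) :=
    fun i j hi hj k h h' => hadj k (hi.trans h) (h'.trans_le hj)
  have hne : ∀ i, w0 ≤ i → i ≤ w3 → ∀ j, w0 ≤ j → j ≤ w3 → i ≠ j → f i ≠ f j :=
    fun i hi hi' j hj hj' hij h => hij (hinj i hi hi' j hj hj' h)
  -- the points `a` and `b` are joined off the excursion
  have hconn1 : Conn {z | ∀ k, w1 < k → k < w2 → z ≠ f k} (f al) (f be) := by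
    have e1 : Conn {z | ∀ k, w1 < k → k < w2 → z ≠ f k} (f w0) (f al) :=
      discG_seg h1 (hAdj w0 al le_rfl (by omega)) fun k hk hk' k' hk1 hk2 =>
        hne k (by omega) (by omega) k' (by omega) (by omega) (by omega)
    have e2 : Conn {z | ∀ k, w1 < k → k < w2 → z ≠ f k} (f w0) (f w3) :=
      (hDc (f w0) hρ0 (f w3) hρ3).mono fun z hz k hk1 hk2 e => by
        rw [e] at hz
        exact hH k hk1 hk2 hz
    have e3 : Conn {z | ∀ k, w1 < k → k < w2 → z ≠ f k} (f be) (f w3) :=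
      discG_seg h9 (hAdj be w3 (by omega) le_rfl) fun k hk hk' k' hk1 hk2 =>
        hne k (by omega) (by omega) k' (by omega) (by omega) (by omega)
    exact (e1.symm.trans e2).trans e3.symm
  have hconn2 : ∀ i j, w1 ≤ i → j ≤ w2 → (∀ k, i ≤ k → k ≤ j → f k ∉ E) →
      Conn {z | z ∉ D ∧ ∀ k, i ≤ k → k ≤ j → z ≠ f k} (f al) (f be) := by
    intro i j hi hj hlt
    have e1 : Conn {z | z ∉ D ∧ ∀ k, i ≤ k → k ≤ j → z ≠ f k} (f al) (f u1) :=
      discG_seg h2 (hAdj al u1 h1 (by omega)) fun k hk hk' => ⟨ha k hk hk', fun k' hk1 hk2 =>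
        hne k (by omega) (by omega) k' (by omega) (by omega) (by omega)⟩
    have e2 : Conn {z | z ∉ D ∧ ∀ k, i ≤ k → k ≤ j → z ≠ f k} (f u1) (f u3) :=
      (hEc (f u1) hb1 (f u3) hb3).mono fun z hz => by
        refine ⟨hDE z hz, fun k hk1 hk2 e => ?_⟩
        rw [e] at hz
        exact hlt k hk1 hk2 hz
    have e3 : Conn {z | z ∉ D ∧ ∀ k, i ≤ k → k ≤ j → z ≠ f k} (f u3) (f be) :=
      discG_seg h8 (hAdj u3 be (by omega) h9) fun k hk hk' => ⟨hb k hk hk', fun k' hk1 hk2 =>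
        hne k (by omega) (by omega) k' (by omega) (by omega) (by omega)⟩
    exact (e1.trans e2).trans e3
  -- the potential
  obtain ⟨g, hgD, hgH⟩ : ∃ g : V → ℝ, (∀ z ∈ D, g z = th (f al) z - th (f be) z) ∧
      ∀ k, w1 < k → k < w2 → g (f k) = (th (f al) (f w1) - th (f be) (f w1)) +
        ∑ i ∈ Finset.Ico w1 k, (ar (f al) (f i) (f (i + 1)) - ar (f be) (f i) (f (i + 1))) := by
    classical
    refine ⟨fun z => if z ∈ D then th (f al) z - th (f be) z else
      if h : ∃ k, w1 < k ∧ k < w2 ∧ z = f k then (th (f al) (f w1) - th (f be) (f w1)) +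
        ∑ i ∈ Finset.Ico w1 h.choose,
          (ar (f al) (f i) (f (i + 1)) - ar (f be) (f i) (f (i + 1))) else 0,
      fun z hz => if_pos hz, fun k hk1 hk2 => ?_⟩
    have e1 : f k ∉ D := hH k hk1 hk2
    have e2 : ∃ k', w1 < k' ∧ k' < w2 ∧ f k = f k' := ⟨k, hk1, hk2, rfl⟩
    have e3 : e2.choose = k := by
      obtain ⟨e4, e5, e6⟩ := e2.choose_spec
      exact (hinj k (by omega) (by omega) _ (by omega) (by omega) e6).symm
    beta_reduce
    rw [if_neg e1, dif_pos e2, e3]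
  -- vertices of the two sets are different from `a` and `b`
  have hna : ∀ k, w1 < k → k < w2 → f k ≠ f al := fun k hk1 hk2 =>
    hne k (by omega) (by omega) al (by omega) (by omega) (by omega)
  have hnb : ∀ k, w1 < k → k < w2 → f k ≠ f be := fun k hk1 hk2 =>
    hne k (by omega) (by omega) be (by omega) (by omega) (by omega)
  have hDa' : ∀ z ∈ D, z ≠ f al := fun z hz e => by
    rw [e] at hz
    exact hal hz
  have hDb' : ∀ z ∈ D, z ≠ f be := fun z hz e => by
    rw [e] at hz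
    exact hbe hz
  have hdisc : ∀ u ∈ D, ∀ v ∈ D, ∃ q : TG.Walk u v, (∀ z ∈ q.support, z ∈ D) ∧
      ws (ar (f al)) q - ws (ar (f be)) q =
        (th (f al) v - th (f be) v) - (th (f al) u - th (f be) u) := by
    intro u hu v hv
    obtain ⟨q, hq⟩ := exists_walk (hDc u hu v hv)
    refine ⟨q, hq, ?_⟩
    rw [ws_disc q fun z hz => hDa z (hq z hz), ws_disc q fun z hz => hDb z (hq z hz)]
    ring
  -- both in the disc
  have c1 : ∀ u v, u ∈ D → v ∈ D → Adj u v →
      ar (f al) u v - ar (f be) u v = g v - g u := by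
    intro u v hu hv huv
    have e1 : TG.Adj u v := huv
    have e2 : ∀ z ∈ (SimpleGraph.Walk.cons e1 SimpleGraph.Walk.nil).support, z ∈ D := by
      intro z hz
      simp only [SimpleGraph.Walk.support_cons, SimpleGraph.Walk.support_nil, List.mem_cons,
        List.not_mem_nil, or_false] at hz
      rcases hz with rfl | rfl
      · exact hu
      · exact hv
    have e3 := ws_disc (a := f al) (SimpleGraph.Walk.cons e1 SimpleGraph.Walk.nil)
      fun z hz => hDa z (e2 z hz)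
    have e4 := ws_disc (a := f be) (SimpleGraph.Walk.cons e1 SimpleGraph.Walk.nil)
      fun z hz => hDb z (e2 z hz)
    rw [ws_cons, ws_nil] at e3 e4
    rw [hgD u hu, hgD v hv]
    linarith
  -- both in the excursion
  have c2 : ∀ i j, w1 < i → i < j → j < w2 → Adj (f i) (f j) →
      ar (f al) (f i) (f j) - ar (f be) (f i) (f j) = g (f j) - g (f i) := by
    intro i j hi hij hj huv
    have e1 : TG.Adj (f j) (f i) := huv.symm
    have hc : Conn {z | (∀ k, i ≤ k → k ≤ j → z ≠ f k) ∧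
        z ∉ (SimpleGraph.Walk.cons e1 SimpleGraph.Walk.nil).support} (f al) (f be) := by
      refine hconn1.mono fun z (hz : ∀ k, w1 < k → k < w2 → z ≠ f k) =>
        ⟨fun k hk1 hk2 => hz k (by omega) (by omega), fun h => ?_⟩
      simp only [SimpleGraph.Walk.support_cons, SimpleGraph.Walk.support_nil,
        List.mem_cons, List.not_mem_nil, or_false] at h
      rcases h with h | h
      · exact hz j (by omega) (by omega) h
      · exact hz i (by omega) (by omega) h
    have e2 := discG_loop (a := f al) (b := f be) hij.le (hAdj i j (by omega) (by omega))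
      (SimpleGraph.Walk.cons e1 SimpleGraph.Walk.nil) hc
    rw [ws_cons, ws_cons, ws_nil, ws_nil,
      ar_symm huv (hna i hi (by omega)) (hna j (by omega) hj),
      ar_symm huv (hnb i hi (by omega)) (hnb j (by omega) hj)] at e2
    rw [hgH i hi (by omega), hgH j (by omega) hj,
      ← Finset.sum_Ico_consecutive _ hi.le hij.le]
    linarith
  -- one in the disc, one in the excursion
  have c3 : ∀ u i, u ∈ D → w1 < i → i < w2 → Adj u (f i) →
      ar (f al) u (f i) - ar (f be) u (f i) = g (f i) - g u := by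
    intro u i hu hi hi' huv
    have hcase : i < s1 ∨ s2 < i := by
      by_contra hcon
      push Not at hcon
      exact hmid i hcon.1 hcon.2 u hu huv
    rcases hcase with hcase | hcase
    · obtain ⟨q, hq1, hq2⟩ := hdisc u hu _ hρ1
      have e1 : TG.Adj (f i) u := huv.symm
      have hc := hconn2 w1 i le_rfl hi'.le fun k hk1 hk2 => by
        rcases hk1.eq_or_lt with rfl | hk1
        · exact fun h => hDE _ h hρ1
        · exact hin1 k hk1 (by omega)
      have e2 := discG_loop (a := f al) (b := f be) hi.le (hAdj w1 i (by omega) (by omega))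
        (SimpleGraph.Walk.cons e1 q) (hc.mono fun z hz => ⟨hz.2, fun h => by
          rw [SimpleGraph.Walk.support_cons, List.mem_cons] at h
          rcases h with h | h
          · exact hz.2 i hi.le le_rfl h
          · exact hz.1 (hq1 z h)⟩)
      rw [ws_cons, ws_cons,
        ar_symm huv (hDa' u hu) (hna i hi hi'), ar_symm huv (hDb' u hu) (hnb i hi hi')] at e2
      rw [hgH i hi hi', hgD u hu]
      linarith
    · obtain ⟨q, hq1, hq2⟩ := hdisc _ hρ2 u hu
      have e1 : TG.Adj u (f i) := huv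
      have hc := hconn2 i w2 hi.le le_rfl fun k hk1 hk2 => by
        rcases hk2.eq_or_lt with rfl | hk2
        · exact fun h => hDE _ h hρ2
        · exact hin2 k (by omega) hk2
      have e2 := discG_loop (a := f al) (b := f be) hi'.le (hAdj i w2 (by omega) (by omega))
        (q.append (SimpleGraph.Walk.cons e1 SimpleGraph.Walk.nil))
        (hc.mono fun z hz => ⟨hz.2, fun h => by
          rw [SimpleGraph.Walk.mem_support_append_iff] at h
          simp only [SimpleGraph.Walk.support_cons, SimpleGraph.Walk.support_nil,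
            List.mem_cons, List.not_mem_nil, or_false] at h
          rcases h with h | h | h
          · exact hz.1 (hq1 z h)
          · rw [h] at hz
            exact hz.1 hu
          · exact hz.2 i le_rfl hi'.le h⟩)
      rw [ws_append, ws_append, ws_cons, ws_cons, ws_nil, ws_nil] at e2
      rw [← Finset.sum_Ico_consecutive _ hi.le hi'.le] at heq
      rw [hgH i hi hi', hgD u hu]
      linarith
  have hanti : ∀ u v, Adj u v → u ≠ f al → v ≠ f al → u ≠ f be → v ≠ f be →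
      ar (f al) u v - ar (f be) u v = g v - g u →
      ar (f al) v u - ar (f be) v u = g u - g v := by
    intro u v huv q1 q2 q3 q4 he
    rw [ar_symm huv q1 q2, ar_symm huv q3 q4]
    linarith
  have hfin : ({z | z ∈ D ∨ ∃ k, w1 < k ∧ k < w2 ∧ z = f k} : Set V).Finite := by
    refine (hDf.union ((Set.finite_Ioo w1 w2).image f)).subset ?_
    rintro z (hz | ⟨k, hk1, hk2, rfl⟩)
    · exact Or.inl hz
    · exact Or.inr ⟨k, ⟨hk1, hk2⟩, rfl⟩
  refine hsep ((dual_fin hfin (a := f al) (b := f be) ?_ ?_ g ?_).mono ?_)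
  · rintro (h | ⟨k, hk1, hk2, h⟩)
    · exact hal h
    · exact hna k hk1 hk2 h.symm
  · rintro (h | ⟨k, hk1, hk2, h⟩)
    · exact hbe h
    · exact hnb k hk1 hk2 h.symm
  · rintro u (hu | ⟨i, hi1, hi2, rfl⟩) v (hv | ⟨j, hj1, hj2, rfl⟩) huv
    · exact c1 u v hu hv huv
    · exact c3 u j hu hj1 hj2 huv
    · exact hanti v (f i) huv.symm (hDa' v hv) (hna i hi1 hi2) (hDb' v hv) (hnb i hi1 hi2)
        (c3 v i hv hi1 hi2 huv.symm)
    · rcases lt_trichotomy i j with hij | hij | hij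
      · exact c2 i j hi1 hij hj2 huv
      · rw [hij] at huv
        exact absurd rfl huv.ne
      · exact hanti (f j) (f i) huv.symm (hna j hj1 hj2) (hna i hi1 hi2) (hnb j hj1 hj2)
          (hnb i hi1 hi2) (c2 j i hj1 hij hi2 huv.symm)
  · intro z hz
    refine ⟨fun h => hz (Or.inl h), fun k hk1 hk2 h => hz (Or.inr ⟨k, hk1, hk2, h⟩)⟩

end Pool.Agent.MSTLim
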