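import Pool.Agent.MSTLim.AngB
import Mathlib.Combinatorics.SimpleGraph.Walk.Operations

/-!
# Walks, sums along walks, the index of a closed walk

`TG` is the triangular lattice as a `SimpleGraph`; for a function `F` of directed edges
`ws F p` is the sum of `F` over the steps of the walk `p`.  For a closed walk `p` and a vertex `a`
off `p`, `ws (ar a) p` is `2 pi` times the index of `a`.

* `ws_append`, `ws_cons`, `ws_nil`: `SimpleGraph.Walk.darts_append`, `darts_cons`.
* `ws_reverse`: if `F v u = - F u v` for the steps of `p` then `ws F p.reverse = - ws F p`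
  (`darts_reverse`; or induction on `p`).
* `ws_congr`, `ws_sub`: termwise.
* `ws_tele`: if `F u v = g v - g u` for all steps then `ws F p = g (end) - g (start)`; induction.
* `exists_walk`: from `Conn.walk` or by induction on `Relation.ReflTransGen`.
* `walk_fun`: the walk `f i, f (i + 1), …, f j`; induction on `j`.
* `ws_move`: let `p` be a closed walk (more generally a walk from `x` to `y`) and let `a, a'` be
  joined by a lattice path off `p`.  For one step `a a'`: sum `ar_quad` over the steps of `p`
  (`ws_tele`): `ws (ar a) p - ws (ar a') p = ps a a' y - ps a a' x`, which is `0` for `x = y`.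
  Induct over `Relation.ReflTransGen`.
* `ws_far`: a closed walk in the open disc of radius `‖emb a‖` has index `0` at `a`: on every step
  `ar_half` with `c = -conj (emb a)` (`far_half`), and `ws_tele`.
* `ws_zero`: `ws_move` and `ws_far`.
* `ws_disc`: a walk (not closed) with `‖emb z‖ < ‖emb a‖` for all its vertices: `ar_half` with
  `c = -(emb a)⁻¹` (`in_half`), `ws_tele`:
  `ws (ar a) p = th a y - th a x`, `th a x = arg ((emb x - emb a) * (-(emb a)⁻¹))
  = arg (1 - emb x / emb a)`.
* `ws_anti`: for a walk off `a` and any `F = ar a`: reversal changes the sign (`ws_reverse`,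
  `ar_symm`).
-/

namespace Pool.Agent.MSTLim

open Pool.Agent.TriPerc

/-- The triangular lattice as a simple graph. -/
def TG : SimpleGraph V where
  Adj := Adj
  symm := ⟨fun _ _ h => h.symm⟩
  loopless := ⟨fun _ h => h.ne rfl⟩

/-- The sum of `F` over the steps of a walk. -/
def ws (F : V → V → ℝ) {u v : V} (p : TG.Walk u v) : ℝ :=
  (p.darts.map fun d => F d.fst d.snd).sum

/-- The argument of `1 - x / a`. -/
noncomputable def th (a x : V) : ℝ := Complex.arg ((emb x - emb a) * (-(emb a)⁻¹))

variable {F G : V → V → ℝ} {S : Set V} {a a' b u v w x y : V} {r R : ℝ}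

theorem ws_nil : ws F (SimpleGraph.Walk.nil : TG.Walk u u) = 0 := by
  rfl

theorem ws_cons (h : TG.Adj u v) (p : TG.Walk v w) :
    ws F (SimpleGraph.Walk.cons h p) = F u v + ws F p := by
  unfold ws
  rw [SimpleGraph.Walk.darts_cons, List.map_cons, List.sum_cons]

theorem ws_append (p : TG.Walk u v) (q : TG.Walk v w) : ws F (p.append q) = ws F p + ws F q := by
  unfold ws
  rw [SimpleGraph.Walk.darts_append, List.map_append, List.sum_append]

theorem ws_reverse (p : TG.Walk u v)
    (h : ∀ d ∈ p.darts, F d.snd d.fst = - F d.fst d.snd) : ws F p.reverse = - ws F p := by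
  induction p with
  | nil =>
    rw [SimpleGraph.Walk.reverse_nil, ws_nil, neg_zero]
  | cons hh p ih =>
    rw [SimpleGraph.Walk.reverse_cons, ws_append, ws_cons, ws_cons, ws_nil,
      ih fun d hd => h d (by
        rw [SimpleGraph.Walk.darts_cons]
        exact List.mem_cons_of_mem _ hd)]
    have h1 := h ⟨(_, _), hh⟩ (by
      rw [SimpleGraph.Walk.darts_cons]
      exact List.mem_cons_self)
    have h2 : F _ _ = - F _ _ := h1
    rw [h2]
    ring

theorem ws_sub (p : TG.Walk u v) :
    ws (fun x y => F x y - G x y) p = ws F p - ws G p := by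
  induction p with
  | nil => rw [ws_nil, ws_nil, ws_nil, sub_zero]
  | cons hh p ih =>
    rw [ws_cons, ws_cons, ws_cons, ih]
    ring

theorem ws_tele (g : V → ℝ) (p : TG.Walk u v)
    (h : ∀ x ∈ p.support, ∀ y ∈ p.support, Adj x y → F x y = g y - g x) :
    ws F p = g v - g u := by
  induction p with
  | nil => rw [ws_nil, sub_self]
  | cons hh p ih =>
    rw [ws_cons, ih fun x hx y hy => h x (by
        rw [SimpleGraph.Walk.support_cons]
        exact List.mem_cons_of_mem _ hx) y (by
        rw [SimpleGraph.Walk.support_cons]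
        exact List.mem_cons_of_mem _ hy),
      h _ (SimpleGraph.Walk.start_mem_support _) _ (by
        rw [SimpleGraph.Walk.support_cons]
        exact List.mem_cons_of_mem _ (SimpleGraph.Walk.start_mem_support _)) hh]
    ring

theorem exists_walk (h : Conn S u v) : ∃ p : TG.Walk u v, ∀ x ∈ p.support, x ∈ S := by
  obtain ⟨hu, h⟩ := h
  induction h with
  | refl =>
    refine ⟨SimpleGraph.Walk.nil, fun x hx => ?_⟩
    rw [SimpleGraph.Walk.support_nil, List.mem_singleton] at hx
    rwa [hx]
  | tail _ h2 ih =>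
    obtain ⟨p, hp⟩ := ih
    have h3 : TG.Adj _ _ := h2.1
    refine ⟨p.append (SimpleGraph.Walk.cons h3 SimpleGraph.Walk.nil), fun x hx => ?_⟩
    rw [SimpleGraph.Walk.mem_support_append_iff] at hx
    rcases hx with hx | hx
    · exact hp x hx
    · rw [SimpleGraph.Walk.support_cons, SimpleGraph.Walk.support_nil, List.mem_cons,
        List.mem_singleton] at hx
      rcases hx with rfl | rfl
      · exact hp _ (SimpleGraph.Walk.end_mem_support _)
      · exact h2.2

theorem conn_walk (p : TG.Walk u v) (h : ∀ x ∈ p.support, x ∈ S) : Conn S u v := by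
  induction p with
  | nil => exact Conn.refl (h _ (SimpleGraph.Walk.start_mem_support _))
  | cons hh p ih =>
    have h1 : ∀ x ∈ p.support, x ∈ S := fun x hx => h x (by
      rw [SimpleGraph.Walk.support_cons]
      exact List.mem_cons_of_mem _ hx)
    exact (Conn.of_adj (h _ (SimpleGraph.Walk.start_mem_support _))
      (h1 _ (SimpleGraph.Walk.start_mem_support _)) hh).trans (ih h1)

theorem walk_fun (f : ℕ → V) {i j : ℕ} (hij : i ≤ j)
    (h : ∀ k, i ≤ k → k < j → Adj (f k) (f (k + 1))) :
    ∃ p : TG.Walk (f i) (f j), (∀ x ∈ p.support, ∃ k, i ≤ k ∧ k ≤ j ∧ x = f k) ∧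
      ∀ F : V → V → ℝ, ws F p = ∑ k ∈ Finset.Ico i j, F (f k) (f (k + 1)) := by
  induction j, hij using Nat.le_induction with
  | base =>
    refine ⟨SimpleGraph.Walk.nil, fun x hx => ?_, fun F => ?_⟩
    · rw [SimpleGraph.Walk.support_nil, List.mem_singleton] at hx
      exact ⟨i, le_rfl, le_rfl, hx⟩
    · rw [ws_nil, Finset.Ico_self, Finset.sum_empty]
  | succ j hij ih =>
    obtain ⟨p, hp, hp2⟩ := ih fun k h1 h2 => h k h1 (h2.trans (Nat.lt_succ_self j))
    have h3 : TG.Adj (f j) (f (j + 1)) := h j hij (Nat.lt_succ_self j)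
    refine ⟨p.append (SimpleGraph.Walk.cons h3 SimpleGraph.Walk.nil), fun x hx => ?_,
      fun F => ?_⟩
    · rw [SimpleGraph.Walk.mem_support_append_iff] at hx
      rcases hx with hx | hx
      · obtain ⟨k, h4, h5, h6⟩ := hp x hx
        exact ⟨k, h4, h5.trans (Nat.le_succ j), h6⟩
      · rw [SimpleGraph.Walk.support_cons, SimpleGraph.Walk.support_nil, List.mem_cons,
          List.mem_singleton] at hx
        rcases hx with hx | hx
        · exact ⟨j, hij, Nat.le_succ j, hx⟩
        · exact ⟨j + 1, hij.trans (Nat.le_succ j), le_rfl, hx⟩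
    · rw [ws_append, ws_cons, ws_nil, hp2, add_zero, Finset.sum_Ico_succ_top hij]

theorem ws_step (p : TG.Walk x y) (ha : Adj a a') (h : a ∉ p.support) (h' : a' ∉ p.support) :
    ws (ar a) p - ws (ar a') p = ps a a' y - ps a a' x := by
  rw [← ws_sub]
  refine ws_tele (ps a a') p fun u hu v hv huv => ?_
  exact ar_quad huv ha (fun e => h (e ▸ hu)) (fun e => h (e ▸ hv)) (fun e => h' (e ▸ hu))
    (fun e => h' (e ▸ hv))

theorem ws_move (p : TG.Walk x x) (h : Conn {z | z ∉ p.support} a a') :
    ws (ar a) p = ws (ar a') p := by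
  obtain ⟨ha, h⟩ := h
  have key : ∀ b, Relation.ReflTransGen (fun x y => Adj x y ∧ y ∈ {z | z ∉ p.support}) a b →
      b ∉ p.support ∧ ws (ar a) p = ws (ar b) p := by
    intro b hb
    induction hb with
    | refl => exact ⟨ha, rfl⟩
    | tail _ h2 ih =>
      have h3 := ws_step p h2.1 ih.1 h2.2
      rw [sub_self] at h3
      exact ⟨h2.2, ih.2.trans (sub_eq_zero.1 h3)⟩
  exact (key a' h).2

theorem ws_far (p : TG.Walk x x) (h : ∀ z ∈ p.support, ‖emb z‖ < ‖emb a‖) :
    ws (ar a) p = 0 := by
  have h1 : ∀ z ∈ p.support, 0 < ((emb z - emb a) * (-(starRingEnd ℂ) (emb a))).re :=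
    fun z hz => far_half (h z hz)
  rw [ws_tele (fun z => Complex.arg ((emb z - emb a) * (-(starRingEnd ℂ) (emb a)))) p
    fun u hu v hv _ => ar_half (h1 u hu) (h1 v hv), sub_self]

theorem ws_zero (p : TG.Walk x x) (h : Conn {z | z ∉ p.support} a a')
    (h' : ∀ z ∈ p.support, ‖emb z‖ < ‖emb a'‖) : ws (ar a) p = 0 := by
  rw [ws_move p h, ws_far p h']

theorem ws_disc (p : TG.Walk x y) (h : ∀ z ∈ p.support, ‖emb z‖ < ‖emb a‖) :
    ws (ar a) p = th a y - th a x := by
  have h1 : ∀ z ∈ p.support, 0 < ((emb z - emb a) * (-(emb a)⁻¹)).re :=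
    fun z hz => in_half (h z hz)
  exact ws_tele (th a) p fun u hu v hv _ => ar_half (h1 u hu) (h1 v hv)

theorem ws_anti (p : TG.Walk x y) (h : a ∉ p.support) :
    ws (ar a) p.reverse = - ws (ar a) p := by
  refine ws_reverse p fun d hd => ?_
  refine ar_symm d.adj (fun e => h ?_) (fun e => h ?_)
  · rw [← e]
    exact SimpleGraph.Walk.dart_fst_mem_support_of_mem_darts p hd
  · rw [← e]
    exact SimpleGraph.Walk.dart_snd_mem_support_of_mem_darts p hd

end Pool.Agent.MSTLim
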