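import Pool.Agent.MSTLim.Dual
import Pool.Agent.MSTLim.Idx

/-!
# The strong side on the lattice, for an arbitrary middle excursion

`qsideH`: like `qsideG`, but nothing is assumed about the middle excursion `f(w1, w2)` except that
it does not meet `D`.  The conclusion: some part `f[i, j]` of it which starts and ends in or next to
`D` and which meets `E` has a nonzero index difference.
-/

namespace Pool.Agent.MSTLim

open Pool.Agent.TriPerc

private theorem discH_seg {f : ℕ → V} {S : Set V} {i j : ℕ} (hij : i ≤ j)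
    (h : ∀ k, i ≤ k → k < j → Adj (f k) (f (k + 1))) (hS : ∀ k, i ≤ k → k ≤ j → f k ∈ S) :
    Conn S (f i) (f j) := by
  obtain ⟨p, hp, -⟩ := walk_fun f hij h
  refine conn_walk p fun x hx => ?_
  obtain ⟨k, h1, h2, rfl⟩ := hp x hx
  exact hS k h1 h2

private theorem discH_loop {f : ℕ → V} {i j : ℕ} {a b : V} (hij : i ≤ j)
    (h : ∀ k, i ≤ k → k < j → Adj (f k) (f (k + 1))) (q : TG.Walk (f j) (f i))
    (hc : Conn {z | (∀ k, i ≤ k → k ≤ j → z ≠ f k) ∧ z ∉ q.support} a b) :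
    ∑ k ∈ Finset.Ico i j, (ar a (f k) (f (k + 1)) - ar b (f k) (f (k + 1))) +
      (ws (ar a) q - ws (ar b) q) = 0 := by
  obtain ⟨p, hp, hs⟩ := walk_fun f hij h
  have h0 : Conn {z | z ∉ (p.append q).support} a b := by
    refine hc.mono ?_
    rintro z ⟨h2, h3⟩ h4
    rw [SimpleGraph.Walk.mem_support_append_iff] at h4
    rcases h4 with h4 | h4
    · obtain ⟨k, h5, h6, h7⟩ := hp z h4
      exact h2 k h5 h6 h7
    · exact h3 h4
  have h1 := ws_move (p.append q) h0
  rw [ws_append, ws_append, hs, hs] at h1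
  rw [Finset.sum_sub_distrib]
  linarith

theorem qsideH {f : ℕ → V} {w0 al u1 w1 w2 u3 be w3 : ℕ} {D E : Set V}
    (hDf : D.Finite) (hDc : IsConn D) (hEc : IsConn E)
    (hDE : ∀ z ∈ E, ∀ u ∈ D, z ≠ u ∧ ¬ Adj u z)
    (hadj : ∀ k, w0 ≤ k → k < w3 → Adj (f k) (f (k + 1)))
    (hinj : ∀ i, w0 ≤ i → i ≤ w3 → ∀ j, w0 ≤ j → j ≤ w3 → f i = f j → i = j)
    (h1 : w0 ≤ al) (h2 : al ≤ u1) (h3 : u1 < w1) (h4 : w1 < w2)
    (h7 : w2 < u3) (h8 : u3 ≤ be) (h9 : be ≤ w3)
    (hDa : ∀ z ∈ D, ‖emb z‖ + 1 < ‖emb (f al)‖) (hDb : ∀ z ∈ D, ‖emb z‖ + 1 < ‖emb (f be)‖)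
    (hρ0 : f w0 ∈ D) (hρ3 : f w3 ∈ D) (hρ1 : f w1 ∈ D) (hρ2 : f w2 ∈ D)
    (hH : ∀ k, w1 < k → k < w2 → f k ∉ D)
    (ha : ∀ k, al ≤ k → k ≤ u1 → f k ∉ D) (hb : ∀ k, u3 ≤ k → k ≤ be → f k ∉ D)
    (hb1 : f u1 ∈ E) (hb3 : f u3 ∈ E)
    (hsep : ¬ Conn {z | z ∉ D ∧ ∀ k, w1 < k → k < w2 → z ≠ f k} (f al) (f be)) :
    ∃ i j s, w1 ≤ i ∧ i < s ∧ s < j ∧ j ≤ w2 ∧ (∃ u ∈ D, f i = u ∨ Adj u (f i)) ∧
      (∃ u ∈ D, f j = u ∨ Adj u (f j)) ∧ f s ∈ E ∧
      ∑ k ∈ Finset.Ico i j, (ar (f al) (f k) (f (k + 1)) - ar (f be) (f k) (f (k + 1))) ≠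
        (th (f al) (f j) - th (f be) (f j)) - (th (f al) (f i) - th (f be) (f i)) := by
  by_contra hcon
  have hcon' : ∀ i j s, w1 ≤ i → i < s → s < j → j ≤ w2 → (∃ u ∈ D, f i = u ∨ Adj u (f i)) →
      (∃ u ∈ D, f j = u ∨ Adj u (f j)) → f s ∈ E →
      ∑ k ∈ Finset.Ico i j, (ar (f al) (f k) (f (k + 1)) - ar (f be) (f k) (f (k + 1))) =
        (th (f al) (f j) - th (f be) (f j)) - (th (f al) (f i) - th (f be) (f i)) := by
    intro i j s a1 a2 a3 a4 a5 a6 a7
    by_contra h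
    exact hcon ⟨i, j, s, a1, a2, a3, a4, a5, a6, a7, h⟩
  have hal : f al ∉ D := ha al le_rfl h2
  have hbe : f be ∉ D := hb be h8 le_rfl
  have hAdj : ∀ i j, w0 ≤ i → j ≤ w3 → ∀ k, i ≤ k → k < j → Adj (f k) (f (k + 1)) :=
    fun i j hi hj k h h' => hadj k (hi.trans h) (h'.trans_le hj)
  have hne : ∀ i, w0 ≤ i → i ≤ w3 → ∀ j, w0 ≤ j → j ≤ w3 → i ≠ j → f i ≠ f j :=
    fun i hi hi' j hj hj' hij h => hij (hinj i hi hi' j hj hj' h)
  have hNa : ∀ z, (∃ u ∈ D, z = u ∨ Adj u z) → ‖emb z‖ < ‖emb (f al)‖ := by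
    rintro z ⟨u, hu, rfl | huz⟩
    · have := hDa z hu
      linarith
    · have e1 := hDa u hu
      have e2 := norm_emb_adj huz
      have e3 := norm_add_le (emb u) (emb z - emb u)
      rw [add_sub_cancel, e2] at e3
      linarith
  have hNb : ∀ z, (∃ u ∈ D, z = u ∨ Adj u z) → ‖emb z‖ < ‖emb (f be)‖ := by
    rintro z ⟨u, hu, rfl | huz⟩
    · have := hDb z hu
      linarith
    · have e1 := hDb u hu
      have e2 := norm_emb_adj huz
      have e3 := norm_add_le (emb u) (emb z - emb u)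
      rw [add_sub_cancel, e2] at e3
      linarith
  have hND : ∀ z ∈ D, ∃ u ∈ D, z = u ∨ Adj u z := fun z hz => ⟨z, hz, Or.inl rfl⟩
  have hNE : ∀ z, (∃ u ∈ D, z = u ∨ Adj u z) → z ∉ E := by
    rintro z ⟨u, hu, h | h⟩ hz
    · exact (hDE z hz u hu).1 h
    · exact (hDE z hz u hu).2 h
  have hconn1 : Conn {z | ∀ k, w1 < k → k < w2 → z ≠ f k} (f al) (f be) := by
    have e1 : Conn {z | ∀ k, w1 < k → k < w2 → z ≠ f k} (f w0) (f al) :=
      discH_seg h1 (hAdj w0 al le_rfl (by omega)) fun k hk hk' k' hk1 hk2 =>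
        hne k (by omega) (by omega) k' (by omega) (by omega) (by omega)
    have e2 : Conn {z | ∀ k, w1 < k → k < w2 → z ≠ f k} (f w0) (f w3) :=
      (hDc (f w0) hρ0 (f w3) hρ3).mono fun z hz k hk1 hk2 e => by
        rw [e] at hz
        exact hH k hk1 hk2 hz
    have e3 : Conn {z | ∀ k, w1 < k → k < w2 → z ≠ f k} (f be) (f w3) :=
      discH_seg h9 (hAdj be w3 (by omega) le_rfl) fun k hk hk' k' hk1 hk2 =>
        hne k (by omega) (by omega) k' (by omega) (by omega) (by omega)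
    exact (e1.symm.trans e2).trans e3.symm
  have hconn2 : ∀ i j, w1 ≤ i → j ≤ w2 → (∀ k, i ≤ k → k ≤ j → f k ∉ E) →
      Conn {z | z ∉ D ∧ ∀ k, i ≤ k → k ≤ j → z ≠ f k} (f al) (f be) := by
    intro i j hi hj hlt
    have e1 : Conn {z | z ∉ D ∧ ∀ k, i ≤ k → k ≤ j → z ≠ f k} (f al) (f u1) :=
      discH_seg h2 (hAdj al u1 h1 (by omega)) fun k hk hk' => ⟨ha k hk hk', fun k' hk1 hk2 =>
        hne k (by omega) (by omega) k' (by omega) (by omega) (by omega)⟩
    have e2 : Conn {z | z ∉ D ∧ ∀ k, i ≤ k → k ≤ j → z ≠ f k} (f u1) (f u3) :=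
      (hEc (f u1) hb1 (f u3) hb3).mono fun z hz => by
        refine ⟨fun hz' => (hDE z hz z hz').1 rfl, fun k hk1 hk2 e => ?_⟩
        rw [e] at hz
        exact hlt k hk1 hk2 hz
    have e3 : Conn {z | z ∉ D ∧ ∀ k, i ≤ k → k ≤ j → z ≠ f k} (f u3) (f be) :=
      discH_seg h8 (hAdj u3 be (by omega) h9) fun k hk hk' => ⟨hb k hk hk', fun k' hk1 hk2 =>
        hne k (by omega) (by omega) k' (by omega) (by omega) (by omega)⟩
    exact (e1.trans e2).trans e3
  -- edges inside `D` and its neighbourhood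
  have hedge : ∀ u v, (∃ x ∈ D, u = x ∨ Adj x u) → (∃ x ∈ D, v = x ∨ Adj x v) → Adj u v →
      ar (f al) u v - ar (f be) u v =
        (th (f al) v - th (f be) v) - (th (f al) u - th (f be) u) := by
    intro u v hu hv huv
    have e1 : TG.Adj u v := huv
    have e2 : ∀ z ∈ (SimpleGraph.Walk.cons e1 SimpleGraph.Walk.nil).support,
        ∃ x ∈ D, z = x ∨ Adj x z := by
      intro z hz
      simp only [SimpleGraph.Walk.support_cons, SimpleGraph.Walk.support_nil, List.mem_cons,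
        List.not_mem_nil, or_false] at hz
      rcases hz with rfl | rfl
      · exact hu
      · exact hv
    have e3 := ws_disc (a := f al) (SimpleGraph.Walk.cons e1 SimpleGraph.Walk.nil)
      fun z hz => hNa z (e2 z hz)
    have e4 := ws_disc (a := f be) (SimpleGraph.Walk.cons e1 SimpleGraph.Walk.nil)
      fun z hz => hNb z (e2 z hz)
    rw [ws_cons, ws_nil] at e3 e4
    linarith
  -- two points next to `D` are joined by a walk in `D` and these points
  have hwalk : ∀ u v, (∃ x ∈ D, u = x ∨ Adj x u) → (∃ x ∈ D, v = x ∨ Adj x v) →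
      ∃ q : TG.Walk u v, (∀ z ∈ q.support, z = u ∨ z = v ∨ z ∈ D) ∧
      ws (ar (f al)) q - ws (ar (f be)) q =
        (th (f al) v - th (f be) v) - (th (f al) u - th (f be) u) := by
    rintro u v ⟨x, hx, hux⟩ ⟨y, hy, hvy⟩
    have c : Conn {z | z = u ∨ z = v ∨ z ∈ D} u v := by
      have e1 : Conn {z | z = u ∨ z = v ∨ z ∈ D} x y :=
        (hDc x hx y hy).mono fun z hz => Or.inr (Or.inr hz)
      have e2 : Conn {z | z = u ∨ z = v ∨ z ∈ D} u x := by
        rcases hux with rfl | h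
        · exact Conn.refl (Or.inl rfl)
        · exact Conn.of_adj (Or.inl rfl) (Or.inr (Or.inr hx)) h.symm
      have e3 : Conn {z | z = u ∨ z = v ∨ z ∈ D} y v := by
        rcases hvy with rfl | h
        · exact Conn.refl (Or.inr (Or.inl rfl))
        · exact Conn.of_adj (Or.inr (Or.inr hy)) (Or.inr (Or.inl rfl)) h
      exact (e2.trans e1).trans e3
    obtain ⟨q, hq⟩ := exists_walk c
    have hq' : ∀ z ∈ q.support, ∃ x ∈ D, z = x ∨ Adj x z := by
      intro z hz
      rcases hq z hz with rfl | rfl | h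
      · exact ⟨x, hx, hux⟩
      · exact ⟨y, hy, hvy⟩
      · exact hND z h
    refine ⟨q, hq, ?_⟩
    rw [ws_disc q fun z hz => hNa z (hq' z hz), ws_disc q fun z hz => hNb z (hq' z hz)]
    ring
  -- the sums between two times next to `D`
  have hA : ∀ i j, w1 ≤ i → i ≤ j → j ≤ w2 → (∃ u ∈ D, f i = u ∨ Adj u (f i)) →
      (∃ u ∈ D, f j = u ∨ Adj u (f j)) →
      ∑ k ∈ Finset.Ico i j, (ar (f al) (f k) (f (k + 1)) - ar (f be) (f k) (f (k + 1))) =
        (th (f al) (f j) - th (f be) (f j)) - (th (f al) (f i) - th (f be) (f i)) := by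
    intro i j hi hij hj hNi hNj
    by_cases hs : ∃ s, i < s ∧ s < j ∧ f s ∈ E
    · obtain ⟨s, s1, s2, s3⟩ := hs
      exact hcon' i j s hi s1 s2 hj hNi hNj s3
    · push Not at hs
      have hnE : ∀ k, i ≤ k → k ≤ j → f k ∉ E := by
        intro k k1 k2
        rcases k1.eq_or_lt with rfl | k1
        · exact hNE _ hNi
        · rcases k2.eq_or_lt with rfl | k2
          · exact hNE _ hNj
          · exact hs k k1 k2
      obtain ⟨q, hq1, hq2⟩ := hwalk (f j) (f i) hNj hNi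
      have e2 := discH_loop (a := f al) (b := f be) hij (hAdj i j (by omega) (by omega)) q
        ((hconn2 i j hi hj hnE).mono fun z hz => ⟨hz.2, fun h => by
          rcases hq1 z h with rfl | rfl | h
          · exact hz.2 j hij le_rfl rfl
          · exact hz.2 i le_rfl hij rfl
          · exact hz.1 h⟩)
      linarith
  obtain ⟨g, hgD, hgH⟩ : ∃ g : V → ℝ, (∀ z ∈ D, g z = th (f al) z - th (f be) z) ∧
      ∀ k, w1 < k → k < w2 → g (f k) = (th (f al) (f w1) - th (f be) (f w1)) +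
        ∑ i ∈ Finset.Ico w1 k, (ar (f al) (f i) (f (i + 1)) - ar (f be) (f i) (f (i + 1))) := by
    classical
    refine ⟨fun z => if z ∈ D then th (f al) z - th (f be) z else
      if h : ∃ k, w1 < k ∧ k < w2 ∧ z = f k then (th (f al) (f w1) - th (f be) (f w1)) +
        ∑ i ∈ Finset.Ico w1 h.choose,
          (ar (f al) (f i) (f (i + 1)) - ar (f be) (f i) (f (i + 1))) else 0,
      fun z hz => if_pos hz, fun k hk1 hk2 => ?_⟩
    have e1 : f k ∉ D := hH k hk1 hk2
    have e2 : ∃ k', w1 < k' ∧ k' < w2 ∧ f k = f k' := ⟨k, hk1, hk2, rfl⟩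
    have e3 : e2.choose = k := by
      obtain ⟨e4, e5, e6⟩ := e2.choose_spec
      exact (hinj k (by omega) (by omega) _ (by omega) (by omega) e6).symm
    beta_reduce
    rw [if_neg e1, dif_pos e2, e3]
  have hna : ∀ k, w1 < k → k < w2 → f k ≠ f al := fun k hk1 hk2 =>
    hne k (by omega) (by omega) al (by omega) (by omega) (by omega)
  have hnb : ∀ k, w1 < k → k < w2 → f k ≠ f be := fun k hk1 hk2 =>
    hne k (by omega) (by omega) be (by omega) (by omega) (by omega)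
  have hDa' : ∀ z ∈ D, z ≠ f al := fun z hz e => by
    rw [e] at hz
    exact hal hz
  have hDb' : ∀ z ∈ D, z ≠ f be := fun z hz e => by
    rw [e] at hz
    exact hbe hz
  have c1 : ∀ u v, u ∈ D → v ∈ D → Adj u v →
      ar (f al) u v - ar (f be) u v = g v - g u := by
    intro u v hu hv huv
    rw [hgD u hu, hgD v hv]
    exact hedge u v (hND u hu) (hND v hv) huv
  have c2 : ∀ i j, w1 < i → i < j → j < w2 → Adj (f i) (f j) →
      ar (f al) (f i) (f j) - ar (f be) (f i) (f j) = g (f j) - g (f i) := by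
    intro i j hi hij hj huv
    have e1 : TG.Adj (f j) (f i) := huv.symm
    have hc : Conn {z | (∀ k, i ≤ k → k ≤ j → z ≠ f k) ∧
        z ∉ (SimpleGraph.Walk.cons e1 SimpleGraph.Walk.nil).support} (f al) (f be) := by
      refine hconn1.mono fun z (hz : ∀ k, w1 < k → k < w2 → z ≠ f k) =>
        ⟨fun k hk1 hk2 => hz k (by omega) (by omega), fun h => ?_⟩
      simp only [SimpleGraph.Walk.support_cons, SimpleGraph.Walk.support_nil,
        List.mem_cons, List.not_mem_nil, or_false] at h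
      rcases h with h | h
      · exact hz j (by omega) (by omega) h
      · exact hz i (by omega) (by omega) h
    have e2 := discH_loop (a := f al) (b := f be) hij.le (hAdj i j (by omega) (by omega))
      (SimpleGraph.Walk.cons e1 SimpleGraph.Walk.nil) hc
    rw [ws_cons, ws_cons, ws_nil, ws_nil,
      ar_symm huv (hna i hi (by omega)) (hna j (by omega) hj),
      ar_symm huv (hnb i hi (by omega)) (hnb j (by omega) hj)] at e2
    rw [hgH i hi (by omega), hgH j (by omega) hj,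
      ← Finset.sum_Ico_consecutive _ hi.le hij.le]
    linarith
  have c3 : ∀ u i, u ∈ D → w1 < i → i < w2 → Adj u (f i) →
      ar (f al) u (f i) - ar (f be) u (f i) = g (f i) - g u := by
    intro u i hu hi hi' huv
    have hNi : ∃ x ∈ D, f i = x ∨ Adj x (f i) := ⟨u, hu, Or.inr huv⟩
    rw [hgH i hi hi', hgD u hu, hedge u (f i) (hND u hu) hNi huv,
      hA w1 i le_rfl hi.le hi'.le (hND _ hρ1) hNi]
    ring
  have hanti : ∀ u v, Adj u v → u ≠ f al → v ≠ f al → u ≠ f be → v ≠ f be →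
      ar (f al) u v - ar (f be) u v = g v - g u →
      ar (f al) v u - ar (f be) v u = g u - g v := by
    intro u v huv q1 q2 q3 q4 he
    rw [ar_symm huv q1 q2, ar_symm huv q3 q4]
    linarith
  have hfin : ({z | z ∈ D ∨ ∃ k, w1 < k ∧ k < w2 ∧ z = f k} : Set V).Finite := by
    refine (hDf.union ((Set.finite_Ioo w1 w2).image f)).subset ?_
    rintro z (hz | ⟨k, hk1, hk2, rfl⟩)
    · exact Or.inl hz
    · exact Or.inr ⟨k, ⟨hk1, hk2⟩, rfl⟩
  refine hsep ((dual_fin hfin (a := f al) (b := f be) ?_ ?_ g ?_).mono ?_)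
  · rintro (h | ⟨k, hk1, hk2, h⟩)
    · exact hal h
    · exact hna k hk1 hk2 h.symm
  · rintro (h | ⟨k, hk1, hk2, h⟩)
    · exact hbe h
    · exact hnb k hk1 hk2 h.symm
  · rintro u (hu | ⟨i, hi1, hi2, rfl⟩) v (hv | ⟨j, hj1, hj2, rfl⟩) huv
    · exact c1 u v hu hv huv
    · exact c3 u j hu hj1 hj2 huv
    · exact hanti v (f i) huv.symm (hDa' v hv) (hna i hi1 hi2) (hDb' v hv) (hnb i hi1 hi2)
        (c3 v i hv hi1 hi2 huv.symm)
    · rcases lt_trichotomy i j with hij | hij | hij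
      · exact c2 i j hi1 hij hj2 huv
      · rw [hij] at huv
        exact absurd rfl huv.ne
      · exact hanti (f j) (f i) huv.symm (hna j hj1 hj2) (hna i hi1 hi2) (hnb j hj1 hj2)
          (hnb i hi1 hi2) (c2 j i hj1 hij hi2 huv.symm)
  · intro z hz
    refine ⟨fun h => hz (Or.inl h), fun k hk1 hk2 h => hz (Or.inr ⟨k, hk1, hk2, h⟩)⟩

end Pool.Agent.MSTLim
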