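import Pool.Agent.MSTLim.Idx

/-!
# A path with a nonzero index difference has an excursion with a nonzero index difference

`qidx`: the index difference of `f[w1, w2]` (ends in `D`, closed up in `D`) at `f al` and `f be` is
the sum of the index differences of its excursions outside `D`; an excursion which does not meet
`E` contributes `0`, because `f al` and `f be` are joined off it through `E`.
-/

namespace Pool.Agent.MSTLim

open Pool.Agent.TriPerc

private theorem discI_seg {f : ℕ → V} {S : Set V} {i j : ℕ} (hij : i ≤ j)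
    (h : ∀ k, i ≤ k → k < j → Adj (f k) (f (k + 1))) (hS : ∀ k, i ≤ k → k ≤ j → f k ∈ S) :
    Conn S (f i) (f j) := by
  obtain ⟨p, hp, -⟩ := walk_fun f hij h
  refine conn_walk p fun x hx => ?_
  obtain ⟨k, h1, h2, rfl⟩ := hp x hx
  exact hS k h1 h2

private theorem discI_loop {f : ℕ → V} {i j : ℕ} {a b : V} (hij : i ≤ j)
    (h : ∀ k, i ≤ k → k < j → Adj (f k) (f (k + 1))) (q : TG.Walk (f j) (f i))
    (hc : Conn {z | (∀ k, i ≤ k → k ≤ j → z ≠ f k) ∧ z ∉ q.support} a b) :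
    ∑ k ∈ Finset.Ico i j, (ar a (f k) (f (k + 1)) - ar b (f k) (f (k + 1))) +
      (ws (ar a) q - ws (ar b) q) = 0 := by
  obtain ⟨p, hp, hs⟩ := walk_fun f hij h
  have h0 : Conn {z | z ∉ (p.append q).support} a b := by
    refine hc.mono ?_
    rintro z ⟨h2, h3⟩ h4
    rw [SimpleGraph.Walk.mem_support_append_iff] at h4
    rcases h4 with h4 | h4
    · obtain ⟨k, h5, h6, h7⟩ := hp z h4
      exact h2 k h5 h6 h7
    · exact h3 h4
  have h1 := ws_move (p.append q) h0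
  rw [ws_append, ws_append, hs, hs] at h1
  rw [Finset.sum_sub_distrib]
  linarith

theorem qidx {f : ℕ → V} {w0 al u1 w1 w2 u3 be w3 : ℕ} {D E : Set V}
    (hDc : IsConn D) (hEc : IsConn E) (hDE : ∀ z ∈ E, z ∉ D)
    (hadj : ∀ k, w0 ≤ k → k < w3 → Adj (f k) (f (k + 1)))
    (hinj : ∀ i, w0 ≤ i → i ≤ w3 → ∀ j, w0 ≤ j → j ≤ w3 → f i = f j → i = j)
    (h1 : w0 ≤ al) (h2 : al ≤ u1) (h3 : u1 < w1) (h4 : w1 < w2)
    (h7 : w2 < u3) (h8 : u3 ≤ be) (h9 : be ≤ w3)
    (hDa : ∀ z ∈ D, ‖emb z‖ < ‖emb (f al)‖) (hDb : ∀ z ∈ D, ‖emb z‖ < ‖emb (f be)‖)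
    (hρ1 : f w1 ∈ D) (hρ2 : f w2 ∈ D)
    (ha : ∀ k, al ≤ k → k ≤ u1 → f k ∉ D) (hb : ∀ k, u3 ≤ k → k ≤ be → f k ∉ D)
    (hb1 : f u1 ∈ E) (hb3 : f u3 ∈ E)
    (hw : ∑ k ∈ Finset.Ico w1 w2, (ar (f al) (f k) (f (k + 1)) - ar (f be) (f k) (f (k + 1))) ≠
      (th (f al) (f w2) - th (f be) (f w2)) - (th (f al) (f w1) - th (f be) (f w1))) :
    ∃ i j s, w1 ≤ i ∧ i < s ∧ s < j ∧ j ≤ w2 ∧ f i ∈ D ∧ f j ∈ D ∧
      (∀ k, i < k → k < j → f k ∉ D) ∧ f s ∈ E ∧
      ∑ k ∈ Finset.Ico i j, (ar (f al) (f k) (f (k + 1)) - ar (f be) (f k) (f (k + 1))) ≠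
        (th (f al) (f j) - th (f be) (f j)) - (th (f al) (f i) - th (f be) (f i)) := by
  have hAdj : ∀ i j, w0 ≤ i → j ≤ w3 → ∀ k, i ≤ k → k < j → Adj (f k) (f (k + 1)) :=
    fun i j hi hj k h h' => hadj k (hi.trans h) (h'.trans_le hj)
  have hne : ∀ i, w0 ≤ i → i ≤ w3 → ∀ j, w0 ≤ j → j ≤ w3 → i ≠ j → f i ≠ f j :=
    fun i hi hi' j hj hj' hij h => hij (hinj i hi hi' j hj hj' h)
  -- an excursion which does not meet `E`
  have hzero : ∀ i j, w1 ≤ i → i < j → j ≤ w2 → f i ∈ D → f j ∈ D →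
      (∀ k, i < k → k < j → f k ∉ E) →
      ∑ k ∈ Finset.Ico i j, (ar (f al) (f k) (f (k + 1)) - ar (f be) (f k) (f (k + 1))) =
        (th (f al) (f j) - th (f be) (f j)) - (th (f al) (f i) - th (f be) (f i)) := by
    intro i j hi hij hj hDi hDj hE
    have hE' : ∀ k, i ≤ k → k ≤ j → f k ∉ E := by
      intro k k1 k2
      rcases k1.eq_or_lt with rfl | k1
      · exact fun h => hDE _ h hDi
      · rcases k2.eq_or_lt with rfl | k2
        · exact fun h => hDE _ h hDj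
        · exact hE k k1 k2
    have e1 : Conn {z | z ∉ D ∧ ∀ k, i ≤ k → k ≤ j → z ≠ f k} (f al) (f u1) :=
      discI_seg h2 (hAdj al u1 h1 (by omega)) fun k hk hk' => ⟨ha k hk hk', fun k' hk1 hk2 =>
        hne k (by omega) (by omega) k' (by omega) (by omega) (by omega)⟩
    have e2 : Conn {z | z ∉ D ∧ ∀ k, i ≤ k → k ≤ j → z ≠ f k} (f u1) (f u3) :=
      (hEc (f u1) hb1 (f u3) hb3).mono fun z hz => by
        refine ⟨hDE z hz, fun k hk1 hk2 e => ?_⟩
        rw [e] at hz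
        exact hE' k hk1 hk2 hz
    have e3 : Conn {z | z ∉ D ∧ ∀ k, i ≤ k → k ≤ j → z ≠ f k} (f u3) (f be) :=
      discI_seg h8 (hAdj u3 be (by omega) h9) fun k hk hk' => ⟨hb k hk hk', fun k' hk1 hk2 =>
        hne k (by omega) (by omega) k' (by omega) (by omega) (by omega)⟩
    obtain ⟨q, hq⟩ := exists_walk (hDc (f j) hDj (f i) hDi)
    have e4 := discI_loop (a := f al) (b := f be) hij.le (hAdj i j (by omega) (by omega)) q
      (((e1.trans e2).trans e3).mono fun z hz => ⟨hz.2, fun h => hz.1 (hq z h)⟩)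
    rw [ws_disc q fun z hz => hDa z (hq z hz), ws_disc q fun z hz => hDb z (hq z hz)] at e4
    linarith
  have key : ∀ N i j : ℕ, j ≤ i + N → w1 ≤ i → i < j → j ≤ w2 → f i ∈ D → f j ∈ D →
      ∑ k ∈ Finset.Ico i j, (ar (f al) (f k) (f (k + 1)) - ar (f be) (f k) (f (k + 1))) ≠
        (th (f al) (f j) - th (f be) (f j)) - (th (f al) (f i) - th (f be) (f i)) →
      ∃ i j s, w1 ≤ i ∧ i < s ∧ s < j ∧ j ≤ w2 ∧ f i ∈ D ∧ f j ∈ D ∧
        (∀ k, i < k → k < j → f k ∉ D) ∧ f s ∈ E ∧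
        ∑ k ∈ Finset.Ico i j, (ar (f al) (f k) (f (k + 1)) - ar (f be) (f k) (f (k + 1))) ≠
          (th (f al) (f j) - th (f be) (f j)) - (th (f al) (f i) - th (f be) (f i)) := by
    intro N
    induction N with
    | zero => intro i j h _ h'; omega
    | succ N ih =>
      intro i j hN hi hij hj hDi hDj hne'
      by_cases hk : ∃ k, i < k ∧ k < j ∧ f k ∈ D
      · obtain ⟨k, k1, k2, k3⟩ := hk
        by_cases hs : ∑ k ∈ Finset.Ico i k,
            (ar (f al) (f k) (f (k + 1)) - ar (f be) (f k) (f (k + 1))) =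
            (th (f al) (f k) - th (f be) (f k)) - (th (f al) (f i) - th (f be) (f i))
        · refine ih k j (by omega) (by omega) k2 hj k3 hDj fun hs' => hne' ?_
          rw [← Finset.sum_Ico_consecutive _ k1.le k2.le, hs, hs']
          ring
        · exact ih i k (by omega) hi k1 (by omega) hDi k3 hs
      · push Not at hk
        by_cases hs : ∃ s, i < s ∧ s < j ∧ f s ∈ E
        · obtain ⟨s, s1, s2, s3⟩ := hs
          exact ⟨i, j, s, hi, s1, s2, hj, hDi, hDj, hk, s3, hne'⟩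
        · push Not at hs
          exact absurd (hzero i j hi hij hj hDi hDj hs) hne'
  exact key w2 w1 w2 (by omega) le_rfl h4 le_rfl hρ1 hρ2 hw

end Pool.Agent.MSTLim
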