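import Pool.Agent.MSTLim.Idx

/-!
# P side on the lattice: an index difference separates the two arms of the middle excursion

A lattice path `f n0, …, f n3` makes three inward excursions `G1 = f[n0, n1]`, `G2 = f[n1, n2]`,
`G3 = f[n2, n3]`; `G1` and `G3` reach the disc of radius `r` (at `k1`, `k3`), `p` and `q` are
points of `G1`, `G3` which are joined to `f k1`, `f k3` inside the disc of radius `R1`.  `G2`
starts and ends outside the disc of radius `R1` and stays in the disc of radius `R2`, `G1` and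
`G3` reach the outside of that disc.  If the index of the curve `G2` (closed up outside the disc of
radius `R1`) is different at `f p` and at `f q` (`dw ≠ 0`), then every lattice path in the annulus
`r < |z| < R2` from the first arm of `G2` (before it reaches the disc of radius `r`) to the last
arm (after it) meets `G1` or `G3`.

PROOF.  Let `c` be a walk from `f x` to `f y` in the given set (`exists_walk`), let
`A1, A2` be the walks `f[n1, x]`, `f[y, n2]` and `B` the walk `f[x, y]` (`walk_fun`), and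
`Hc = A1.append (c.append A2)`, a walk from `f n1` to `f n2`.
(1) The closed walk `B.append c.reverse` is contained in `|z| < R2`.  `f p` is joined to `f n0`
off it, along `f[n0, p]` (injectivity for `B`; the set containing `c` excludes `f k`,
`n0 ≤ k < n1`), and `‖emb (f n0)‖ ≥ R2`.  By `ws_zero` its index at `f p` is `0`.  With
`ws_append`, `ws_anti`: `∑_{x ≤ k < y} ar (f p) (f k) (f (k+1)) = ws (ar (f p)) c`.
The same for `f q`, along `f[q, n3]`.
(2) Hence `dw f n1 n2 (f p) (f q) = Φ (f p)`, where for every `a`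
`Φ a = ws (ar a) Hc - ws (ar b) Hc - ps a b (f n2) + ps a b (f n1)`, `b = f q`
(split the sum over `[n1, n2)` into `[n1, x), [x, y), [y, n2)`, `Finset.sum_Ico_consecutive`).
(3) Let `A = {z | ‖emb z‖ ≤ r} ∪ f[p, k1] ∪ f[k3, q]`.  No vertex of `A` is on `Hc`: the disc
because of `hrx`, `hry` and the set containing `c`; `f[p, k1]` and `f[k3, q]` by injectivity and
the set containing `c`.  `A ⊆ {‖emb z‖ ≤ R1}`.  `f p` and `f q` are joined in `A` (`isConn_disc`).
If `a, a' ∈ A` are adjacent then `Φ a = Φ a'`: `ws_step` gives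
`ws (ar a) Hc - ws (ar a') Hc = ps a a' (f n2) - ps a a' (f n1)`, and
`ps a b x = ps a a' x + ps a' b x` for `x = f n1, f n2` by `ps_add` with `c = conj (emb x)` and
`out_half` (the norms of `a, a', b` are `≤ R1 < ‖emb x‖`).
(4) So `Φ (f p) = Φ (f q) = 0` (`ps_self`): contradiction to `hw`.
-/

namespace Pool.Agent.MSTLim

open Pool.Agent.TriPerc

/-- The index difference of the path `f[i, j]`, closed up far away, at `a` and `b`
(times `2 pi`). -/
noncomputable def dw (f : ℕ → V) (i j : ℕ) (a b : V) : ℝ :=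
  ∑ k ∈ Finset.Ico i j, (ar a (f k) (f (k + 1)) - ar b (f k) (f (k + 1))) - ps a b (f j) +
    ps a b (f i)

/-- Step (1): the closed walk `B.append c.reverse` has index `0` at a point which is joined to a
far point off it. -/
private theorem discP_one {f : ℕ → V} {x y : ℕ} {a a' : V} {R2 : ℝ}
    (B c : TG.Walk (f x) (f y)) (hB : ∀ z ∈ B.support, ‖emb z‖ < R2)
    (hc : ∀ z ∈ c.support, ‖emb z‖ < R2) (ha' : R2 ≤ ‖emb a'‖)
    (h : Conn {z | z ∉ B.support ∧ z ∉ c.support} a a') :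
    ws (ar a) B = ws (ar a) c := by
  have h1 : ∀ z, z ∈ (B.append c.reverse).support → z ∈ B.support ∨ z ∈ c.support := by
    intro z hz
    rw [SimpleGraph.Walk.mem_support_append_iff, SimpleGraph.Walk.support_reverse,
      List.mem_reverse] at hz
    exact hz
  have h2 : ws (ar a) (B.append c.reverse) = 0 := by
    refine ws_zero (B.append c.reverse) (a' := a') (h.mono fun z hz hz' => ?_) fun z hz => ?_
    · rcases h1 z hz' with h3 | h3
      · exact hz.1 h3
      · exact hz.2 h3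
    · rcases h1 z hz with h3 | h3
      · exact (hB z h3).trans_le ha'
      · exact (hc z h3).trans_le ha'
  rw [ws_append, ws_anti c h.left.2] at h2
  linarith

theorem pside {f : ℕ → V} {n0 p k1 n1 n2 k3 q n3 : ℕ} {r R1 R2 : ℝ}
    (hadj : ∀ k, n0 ≤ k → k < n3 → Adj (f k) (f (k + 1)))
    (hinj : ∀ i, n0 ≤ i → i ≤ n3 → ∀ j, n0 ≤ j → j ≤ n3 → f i = f j → i = j)
    (h01 : n0 ≤ p) (hp : p ≤ k1) (hk1 : k1 < n1) (hn : n1 ≤ n2) (hk3 : n2 < k3) (hq : k3 ≤ q)
    (hq3 : q ≤ n3) (hr : r ≤ R1)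
    (hA : ∀ k, p ≤ k → k ≤ k1 → ‖emb (f k)‖ ≤ R1) (hB : ∀ k, k3 ≤ k → k ≤ q → ‖emb (f k)‖ ≤ R1)
    (hr1 : ‖emb (f k1)‖ ≤ r) (hr3 : ‖emb (f k3)‖ ≤ r)
    (hn1 : R1 < ‖emb (f n1)‖) (hn2 : R1 < ‖emb (f n2)‖)
    (hR2 : ∀ k, n1 ≤ k → k ≤ n2 → ‖emb (f k)‖ < R2)
    (h0 : R2 ≤ ‖emb (f n0)‖) (h3 : R2 ≤ ‖emb (f n3)‖)
    (hw : dw f n1 n2 (f p) (f q) ≠ 0) {x y : ℕ} (hx : n1 ≤ x) (hxy : x ≤ y) (hy : y ≤ n2)
    (hrx : ∀ k, n1 ≤ k → k ≤ x → r < ‖emb (f k)‖)
    (hry : ∀ k, y ≤ k → k ≤ n2 → r < ‖emb (f k)‖) :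
    ¬ Conn {z | r < ‖emb z‖ ∧ ‖emb z‖ < R2 ∧
      ∀ k, (n0 ≤ k ∧ k < n1) ∨ (n2 < k ∧ k ≤ n3) → z ≠ f k} (f x) (f y) := by
  intro hconn
  obtain ⟨c, hc⟩ := exists_walk hconn
  obtain ⟨A1, hA1, hA1s⟩ := walk_fun f hx fun k h4 h5 => hadj k (by omega) (by omega)
  obtain ⟨B, hBs, hBw⟩ := walk_fun f hxy fun k h4 h5 => hadj k (by omega) (by omega)
  obtain ⟨A2, hA2, hA2s⟩ := walk_fun f hy fun k h4 h5 => hadj k (by omega) (by omega)
  -- the vertices of `f` in the three walks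
  have hB2 : ∀ z ∈ B.support, ‖emb z‖ < R2 := by
    intro z hz
    obtain ⟨k, h4, h5, rfl⟩ := hBs z hz
    exact hR2 k (by omega) (by omega)
  have hc2 : ∀ z ∈ c.support, ‖emb z‖ < R2 := fun z hz => (hc z hz).2.1
  have hcf : ∀ k, (n0 ≤ k ∧ k < n1) ∨ (n2 < k ∧ k ≤ n3) → f k ∉ c.support :=
    fun k hk hz => (hc _ hz).2.2 k hk rfl
  have hBf : ∀ k, (n0 ≤ k ∧ k < n1) ∨ (n2 < k ∧ k ≤ n3) → f k ∉ B.support := by
    intro k hk hz
    obtain ⟨k', h4, h5, h6⟩ := hBs _ hz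
    have h7 := hinj k (by omega) (by omega) k' (by omega) (by omega) h6
    omega
  -- step (1)
  have hcon1 : Conn {z | z ∉ B.support ∧ z ∉ c.support} (f p) (f n0) := by
    obtain ⟨w, hw1, -⟩ := walk_fun f h01 fun k h4 h5 => hadj k (by omega) (by omega)
    refine (conn_walk w fun z hz => ?_).symm
    obtain ⟨k, h4, h5, rfl⟩ := hw1 z hz
    exact ⟨hBf k (by omega), hcf k (by omega)⟩
  have hcon3 : Conn {z | z ∉ B.support ∧ z ∉ c.support} (f q) (f n3) := by
    obtain ⟨w, hw1, -⟩ := walk_fun f hq3 fun k h4 h5 => hadj k (by omega) (by omega)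
    refine conn_walk w fun z hz => ?_
    obtain ⟨k, h4, h5, rfl⟩ := hw1 z hz
    exact ⟨hBf k (by omega), hcf k (by omega)⟩
  have e1 := discP_one B c hB2 hc2 h0 hcon1
  have e3 := discP_one B c hB2 hc2 h3 hcon3
  rw [hBw] at e1 e3
  -- the walk `Hc`
  obtain ⟨Hc, hHc⟩ : ∃ Hc : TG.Walk (f n1) (f n2), Hc = A1.append (c.append A2) := ⟨_, rfl⟩
  have hHs : ∀ z, z ∈ Hc.support → (∃ k, n1 ≤ k ∧ k ≤ x ∧ z = f k) ∨ z ∈ c.support ∨
      ∃ k, y ≤ k ∧ k ≤ n2 ∧ z = f k := by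
    intro z hz
    rw [hHc, SimpleGraph.Walk.mem_support_append_iff,
      SimpleGraph.Walk.mem_support_append_iff] at hz
    rcases hz with h4 | h4 | h4
    · exact Or.inl (hA1 z h4)
    · exact Or.inr (Or.inl h4)
    · exact Or.inr (Or.inr (hA2 z h4))
  have hsum : ∀ a, ∑ k ∈ Finset.Ico x y, ar a (f k) (f (k + 1)) = ws (ar a) c →
      ∑ k ∈ Finset.Ico n1 n2, ar a (f k) (f (k + 1)) = ws (ar a) Hc := by
    intro a ha
    rw [hHc, ws_append, ws_append, hA1s, hA2s, ← ha,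
      ← Finset.sum_Ico_consecutive _ hx (hxy.trans hy), ← Finset.sum_Ico_consecutive _ hxy hy]
  -- step (2)
  have hdw : dw f n1 n2 (f p) (f q) = ws (ar (f p)) Hc - ws (ar (f q)) Hc -
      ps (f p) (f q) (f n2) + ps (f p) (f q) (f n1) := by
    unfold dw
    rw [Finset.sum_sub_distrib, hsum _ e1, hsum _ e3]
  -- step (3)
  obtain ⟨A, hAdef⟩ : ∃ A : Set V, A = {z | ‖emb z‖ ≤ r ∨ (∃ k, p ≤ k ∧ k ≤ k1 ∧ z = f k) ∨
      ∃ k, k3 ≤ k ∧ k ≤ q ∧ z = f k} := ⟨_, rfl⟩
  have hAoff : ∀ z ∈ A, z ∉ Hc.support := by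
    intro z hz hz'
    rw [hAdef] at hz
    rcases hz with h4 | ⟨k, h4, h5, rfl⟩ | ⟨k, h4, h5, rfl⟩
    · rcases hHs z hz' with ⟨k, h5, h6, rfl⟩ | h5 | ⟨k, h5, h6, rfl⟩
      · exact absurd (hrx k h5 h6) (not_lt.2 h4)
      · exact absurd (hc z h5).1 (not_lt.2 h4)
      · exact absurd (hry k h5 h6) (not_lt.2 h4)
    · rcases hHs _ hz' with ⟨k', h6, h7, h8⟩ | h6 | ⟨k', h6, h7, h8⟩
      · have h9 := hinj k (by omega) (by omega) k' (by omega) (by omega) h8
        omega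
      · exact hcf k (by omega) h6
      · have h9 := hinj k (by omega) (by omega) k' (by omega) (by omega) h8
        omega
    · rcases hHs _ hz' with ⟨k', h6, h7, h8⟩ | h6 | ⟨k', h6, h7, h8⟩
      · have h9 := hinj k (by omega) (by omega) k' (by omega) (by omega) h8
        omega
      · exact hcf k (by omega) h6
      · have h9 := hinj k (by omega) (by omega) k' (by omega) (by omega) h8
        omega
  have hAR : ∀ z ∈ A, ‖emb z‖ ≤ R1 := by
    intro z hz
    rw [hAdef] at hz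
    rcases hz with h4 | ⟨k, h4, h5, rfl⟩ | ⟨k, h4, h5, rfl⟩
    · exact le_trans h4 hr
    · exact hA k h4 h5
    · exact hB k h4 h5
  have hqA : f q ∈ A := by
    rw [hAdef]
    exact Or.inr (Or.inr ⟨q, hq, le_rfl, rfl⟩)
  have hAconn : Conn A (f p) (f q) := by
    have c1 : Conn A (f p) (f k1) := by
      obtain ⟨w, hw1, -⟩ := walk_fun f hp fun k h4 h5 => hadj k (by omega) (by omega)
      refine conn_walk w fun z hz => ?_
      rw [hAdef]
      exact Or.inr (Or.inl (hw1 z hz))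
    have c2 : Conn A (f k1) (f k3) := by
      refine (isConn_disc r (f k1) hr1 (f k3) hr3).mono fun z hz => ?_
      rw [hAdef]
      exact Or.inl hz
    have c3 : Conn A (f k3) (f q) := by
      obtain ⟨w, hw1, -⟩ := walk_fun f hq fun k h4 h5 => hadj k (by omega) (by omega)
      refine conn_walk w fun z hz => ?_
      rw [hAdef]
      exact Or.inr (Or.inr (hw1 z hz))
    exact (c1.trans c2).trans c3
  obtain ⟨Φ, hΦ⟩ : ∃ Φ : V → ℝ, ∀ a, Φ a = ws (ar a) Hc - ws (ar (f q)) Hc -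
      ps a (f q) (f n2) + ps a (f q) (f n1) := ⟨_, fun _ => rfl⟩
  have hstep : ∀ a a', a ∈ A → a' ∈ A → Adj a a' → Φ a = Φ a' := by
    intro a a' ha ha' hadj'
    have h4 := ws_step Hc hadj' (hAoff a ha) (hAoff a' ha')
    have h5 : ps a (f q) (f n1) = ps a a' (f n1) + ps a' (f q) (f n1) :=
      ps_add (out_half ((hAR a ha).trans_lt hn1)) (out_half ((hAR a' ha').trans_lt hn1))
        (out_half ((hAR _ hqA).trans_lt hn1))
    have h6 : ps a (f q) (f n2) = ps a a' (f n2) + ps a' (f q) (f n2) :=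
      ps_add (out_half ((hAR a ha).trans_lt hn2)) (out_half ((hAR a' ha').trans_lt hn2))
        (out_half ((hAR _ hqA).trans_lt hn2))
    rw [hΦ, hΦ]
    linarith
  have hall : ∀ z, Relation.ReflTransGen (fun x y => Adj x y ∧ y ∈ A) (f p) z →
      z ∈ A ∧ Φ (f p) = Φ z := by
    intro z hz
    induction hz with
    | refl => exact ⟨hAconn.left, rfl⟩
    | tail _ h5 ih => exact ⟨h5.2, ih.2.trans (hstep _ _ ih.1 h5.2 h5.1)⟩
  -- step (4)
  have h7 := (hall _ hAconn.2).2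
  rw [hΦ, hΦ, ps_self, ps_self] at h7
  apply hw
  rw [hdw, h7]
  ring

end Pool.Agent.MSTLim
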