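import Mathlib
import Pool.Agent.MSTLim.Idx
import Pool.Agent.MSTLim.Dual

/-!
# P' side on the lattice: separation implies an index difference

A lattice path `f w0, …, f w3` starts and ends in the disc `D = {‖z‖ ≤ ρ}`;
`C' = f(w1, w2)` is an outward excursion (outside `D`, the neighbours `f w1, f w2` are in `D`),
whose two arms `f(w1, s1)` and `f(s2, w2)` are in `‖z‖ < b'`, while its middle part stays at
distance `> 1` from `D`.  `a = f al` and `b = f be` are points of the excursions before and after,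
which are joined to `f u1`, `f u3` (of norm `≥ b'`) outside `D`.  If `D ∪ C'` separates `a` from
`b`, then the index difference of the closed curve formed by `C'` and a path in `D` is not `0`.

PROOF (`om u v = ar a u v - ar b u v`, `H = {f k | w1 < k < w2}`, `D = {‖emb z‖ ≤ ρ}`,
`pin z = th a z - th b z`).  Suppose `∑_{w1 ≤ k < w2} om (f k) (f (k+1)) = pin (f w2) - pin (f w1)`.
Define `g z = pin z` for `z ∈ D` and `g (f k) = pin (f w1) + ∑_{w1 ≤ i < k} om (f i) (f (i+1))` for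
`w1 < k < w2` (well defined by injectivity).  CLAIM: `om u v = g v - g u` for all adjacent
`u, v ∈ D ∪ H`.  Then `dual_fin` with `S = D ∪ H` (finite: `finite_disc`) gives a path from `a` to
`b` outside `D ∪ H`, contradiction to `hsep`.
(i) `u, v ∈ D`: `ws_disc` for the walk of one step (or `ar_half`, `in_half`): `‖emb u‖ ≤ ρ <
‖emb a‖`.
(ii) `u = f i`, `v = f j`, `w1 < i < j < w2`: the closed walk `f i, …, f j, f i` is in `H`; `a` and
`b` are joined off `H`: along `f[w0, al]` (backwards) to `f w0 ∈ D`, in `D` to `f w3`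
(`isConn_disc`), along `f[be, w3]` (backwards) to `b`.  `ws_move`: the sum of `om` along it is `0`,
i.e. `∑_{i ≤ k < j} om (f k) (f (k+1)) + om (f j) (f i) = 0`; with `ar_symm` this is the claim.
(The case `j < i` follows by antisymmetry.)
(iii) `u ∈ D`, `v = f i`, `w1 < i < w2`.  Since `‖emb v‖ ≤ ‖emb u‖ + 1 ≤ ρ + 1`, by `hmid` either
`i < s1` or `i > s2`.  Any walk in `D` (`isConn_disc`, `exists_walk`) has `om`-sum
`pin (end) - pin (start)` by `ws_disc`.
If `i < s1`: the closed walk `f w1, …, f i, u, (in D) …, f w1` has all norms `< b'`, and `a, b` are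
joined off it: along `f[al, u1]`, in `{b' ≤ ‖emb z‖}` (`isConn_ext`) to `f u3`, along `f[u3, be]`.
So `∑_{w1 ≤ k < i} om + om (f i) u + pin (f w1) - pin u = 0`, i.e. `om (f i) u = g u - g (f i)`.
If `i > s2`: the closed walk `f i, …, f w2, (in D) …, u, f i`: `∑_{i ≤ k < w2} om + pin u -
pin (f w2) + om u (f i) = 0`, and by the assumption `g (f i) = pin (f w2) - ∑_{i ≤ k < w2} om`.
-/

namespace Pool.Agent.MSTLim

open Pool.Agent.TriPerc

private theorem discQ_seg {f : ℕ → V} {S : Set V} {i j : ℕ} (hij : i ≤ j)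
    (h : ∀ k, i ≤ k → k < j → Adj (f k) (f (k + 1))) (hS : ∀ k, i ≤ k → k ≤ j → f k ∈ S) :
    Conn S (f i) (f j) := by
  obtain ⟨p, hp, -⟩ := walk_fun f hij h
  refine conn_walk p fun x hx => ?_
  obtain ⟨k, h1, h2, rfl⟩ := hp x hx
  exact hS k h1 h2

private theorem discQ_loop {f : ℕ → V} {i j : ℕ} {a b : V} (hij : i ≤ j)
    (h : ∀ k, i ≤ k → k < j → Adj (f k) (f (k + 1))) (q : TG.Walk (f j) (f i))
    (hc : Conn {z | (∀ k, i ≤ k → k ≤ j → z ≠ f k) ∧ z ∉ q.support} a b) :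
    ∑ k ∈ Finset.Ico i j, (ar a (f k) (f (k + 1)) - ar b (f k) (f (k + 1))) +
      (ws (ar a) q - ws (ar b) q) = 0 := by
  obtain ⟨p, hp, hs⟩ := walk_fun f hij h
  have h0 : Conn {z | z ∉ (p.append q).support} a b := by
    refine hc.mono ?_
    rintro z ⟨h2, h3⟩ h4
    rw [SimpleGraph.Walk.mem_support_append_iff] at h4
    rcases h4 with h4 | h4
    · obtain ⟨k, h5, h6, h7⟩ := hp z h4
      exact h2 k h5 h6 h7
    · exact h3 h4
  have h1 := ws_move (p.append q) h0
  rw [ws_append, ws_append, hs, hs] at h1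
  rw [Finset.sum_sub_distrib]
  linarith

private theorem discQ_disc {a b u v : V} {ρ : ℝ} (ha : ρ < ‖emb a‖) (hb : ρ < ‖emb b‖)
    (hu : ‖emb u‖ ≤ ρ) (hv : ‖emb v‖ ≤ ρ) :
    ∃ q : TG.Walk u v, (∀ z ∈ q.support, ‖emb z‖ ≤ ρ) ∧
      ws (ar a) q - ws (ar b) q = (th a v - th b v) - (th a u - th b u) := by
  obtain ⟨q, hq⟩ := exists_walk (isConn_disc ρ u hu v hv)
  refine ⟨q, hq, ?_⟩
  rw [ws_disc q fun z hz => (hq z hz).trans_lt ha, ws_disc q fun z hz => (hq z hz).trans_lt hb]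
  ring

theorem qside {f : ℕ → V} {w0 al u1 w1 s1 s2 w2 u3 be w3 : ℕ} {ρ b' : ℝ}
    (hadj : ∀ k, w0 ≤ k → k < w3 → Adj (f k) (f (k + 1)))
    (hinj : ∀ i, w0 ≤ i → i ≤ w3 → ∀ j, w0 ≤ j → j ≤ w3 → f i = f j → i = j)
    (h1 : w0 ≤ al) (h2 : al ≤ u1) (h3 : u1 < w1) (h4 : w1 < s1) (h5 : s1 ≤ s2) (h6 : s2 < w2)
    (h7 : w2 < u3) (h8 : u3 ≤ be) (h9 : be ≤ w3) (hρb : ρ < b')
    (hρ0 : ‖emb (f w0)‖ ≤ ρ) (hρ3 : ‖emb (f w3)‖ ≤ ρ)
    (hρ1 : ‖emb (f w1)‖ ≤ ρ) (hρ2 : ‖emb (f w2)‖ ≤ ρ)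
    (hH : ∀ k, w1 < k → k < w2 → ρ < ‖emb (f k)‖)
    (hin1 : ∀ k, w1 < k → k < s1 → ‖emb (f k)‖ < b')
    (hin2 : ∀ k, s2 < k → k < w2 → ‖emb (f k)‖ < b')
    (hmid : ∀ k, s1 ≤ k → k ≤ s2 → ρ + 1 < ‖emb (f k)‖)
    (ha : ∀ k, al ≤ k → k ≤ u1 → ρ < ‖emb (f k)‖)
    (hb : ∀ k, u3 ≤ k → k ≤ be → ρ < ‖emb (f k)‖)
    (hb1 : b' ≤ ‖emb (f u1)‖) (hb3 : b' ≤ ‖emb (f u3)‖)
    (hsep : ¬ Conn {z | ρ < ‖emb z‖ ∧ ∀ k, w1 < k → k < w2 → z ≠ f k} (f al) (f be)) :
    ∑ k ∈ Finset.Ico w1 w2, (ar (f al) (f k) (f (k + 1)) - ar (f be) (f k) (f (k + 1))) ≠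
      (th (f al) (f w2) - th (f be) (f w2)) - (th (f al) (f w1) - th (f be) (f w1)) := by
  intro heq
  have hal : ρ < ‖emb (f al)‖ := ha al le_rfl h2
  have hbe : ρ < ‖emb (f be)‖ := hb be h8 le_rfl
  have hAdj : ∀ i j, w0 ≤ i → j ≤ w3 → ∀ k, i ≤ k → k < j → Adj (f k) (f (k + 1)) :=
    fun i j hi hj k h h' => hadj k (hi.trans h) (h'.trans_le hj)
  have hne : ∀ i, w0 ≤ i → i ≤ w3 → ∀ j, w0 ≤ j → j ≤ w3 → i ≠ j → f i ≠ f j :=
    fun i hi hi' j hj hj' hij h => hij (hinj i hi hi' j hj hj' h)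
  -- the points `a` and `b` are joined off the excursion
  have hconn1 : Conn {z | ∀ k, w1 < k → k < w2 → z ≠ f k} (f al) (f be) := by
    have e1 : Conn {z | ∀ k, w1 < k → k < w2 → z ≠ f k} (f w0) (f al) :=
      discQ_seg h1 (hAdj w0 al le_rfl (by omega)) fun k hk hk' k' hk1 hk2 =>
        hne k (by omega) (by omega) k' (by omega) (by omega) (by omega)
    have e2 : Conn {z | ∀ k, w1 < k → k < w2 → z ≠ f k} (f w0) (f w3) :=
      (isConn_disc ρ (f w0) hρ0 (f w3) hρ3).mono fun z hz k hk1 hk2 e => by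
        have e3 : ‖emb z‖ ≤ ρ := hz
        rw [e] at e3
        exact absurd (hH k hk1 hk2) (not_lt.2 e3)
    have e3 : Conn {z | ∀ k, w1 < k → k < w2 → z ≠ f k} (f be) (f w3) :=
      discQ_seg h9 (hAdj be w3 (by omega) le_rfl) fun k hk hk' k' hk1 hk2 =>
        hne k (by omega) (by omega) k' (by omega) (by omega) (by omega)
    exact (e1.symm.trans e2).trans e3.symm
  have hconn2 : ∀ i j, w1 ≤ i → j ≤ w2 → (∀ k, i ≤ k → k ≤ j → ‖emb (f k)‖ < b') →
      Conn {z | ρ < ‖emb z‖ ∧ ∀ k, i ≤ k → k ≤ j → z ≠ f k} (f al) (f be) := by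
    intro i j hi hj hlt
    have e1 : Conn {z | ρ < ‖emb z‖ ∧ ∀ k, i ≤ k → k ≤ j → z ≠ f k} (f al) (f u1) :=
      discQ_seg h2 (hAdj al u1 h1 (by omega)) fun k hk hk' => ⟨ha k hk hk', fun k' hk1 hk2 =>
        hne k (by omega) (by omega) k' (by omega) (by omega) (by omega)⟩
    have e2 : Conn {z | ρ < ‖emb z‖ ∧ ∀ k, i ≤ k → k ≤ j → z ≠ f k} (f u1) (f u3) :=
      (isConn_ext b' (f u1) hb1 (f u3) hb3).mono fun z hz => by
        have e3 : b' ≤ ‖emb z‖ := hz
        refine ⟨hρb.trans_le e3, fun k hk1 hk2 e => ?_⟩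
        rw [e] at e3
        exact absurd (hlt k hk1 hk2) (not_lt.2 e3)
    have e3 : Conn {z | ρ < ‖emb z‖ ∧ ∀ k, i ≤ k → k ≤ j → z ≠ f k} (f u3) (f be) :=
      discQ_seg h8 (hAdj u3 be (by omega) h9) fun k hk hk' => ⟨hb k hk hk', fun k' hk1 hk2 =>
        hne k (by omega) (by omega) k' (by omega) (by omega) (by omega)⟩
    exact (e1.trans e2).trans e3
  -- the potential
  obtain ⟨g, hgD, hgH⟩ : ∃ g : V → ℝ, (∀ z, ‖emb z‖ ≤ ρ → g z = th (f al) z - th (f be) z) ∧
      ∀ k, w1 < k → k < w2 → g (f k) = (th (f al) (f w1) - th (f be) (f w1)) +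
        ∑ i ∈ Finset.Ico w1 k, (ar (f al) (f i) (f (i + 1)) - ar (f be) (f i) (f (i + 1))) := by
    classical
    refine ⟨fun z => if ‖emb z‖ ≤ ρ then th (f al) z - th (f be) z else
      if h : ∃ k, w1 < k ∧ k < w2 ∧ z = f k then (th (f al) (f w1) - th (f be) (f w1)) +
        ∑ i ∈ Finset.Ico w1 h.choose,
          (ar (f al) (f i) (f (i + 1)) - ar (f be) (f i) (f (i + 1))) else 0,
      fun z hz => if_pos hz, fun k hk1 hk2 => ?_⟩
    have e1 : ¬ ‖emb (f k)‖ ≤ ρ := not_le.2 (hH k hk1 hk2)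
    have e2 : ∃ k', w1 < k' ∧ k' < w2 ∧ f k = f k' := ⟨k, hk1, hk2, rfl⟩
    have e3 : e2.choose = k := by
      obtain ⟨e4, e5, e6⟩ := e2.choose_spec
      exact (hinj k (by omega) (by omega) _ (by omega) (by omega) e6).symm
    beta_reduce
    rw [if_neg e1, dif_pos e2, e3]
  -- vertices of the two sets are different from `a` and `b`
  have hna : ∀ k, w1 < k → k < w2 → f k ≠ f al := fun k hk1 hk2 =>
    hne k (by omega) (by omega) al (by omega) (by omega) (by omega)
  have hnb : ∀ k, w1 < k → k < w2 → f k ≠ f be := fun k hk1 hk2 =>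
    hne k (by omega) (by omega) be (by omega) (by omega) (by omega)
  have hDa : ∀ z, ‖emb z‖ ≤ ρ → z ≠ f al := fun z hz e => by
    rw [e] at hz
    exact absurd hal (not_lt.2 hz)
  have hDb : ∀ z, ‖emb z‖ ≤ ρ → z ≠ f be := fun z hz e => by
    rw [e] at hz
    exact absurd hbe (not_lt.2 hz)
  -- both in the disc
  have c1 : ∀ u v, ‖emb u‖ ≤ ρ → ‖emb v‖ ≤ ρ → Adj u v →
      ar (f al) u v - ar (f be) u v = g v - g u := by
    intro u v hu hv huv
    have e1 : TG.Adj u v := huv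
    have e2 : ∀ z ∈ (SimpleGraph.Walk.cons e1 SimpleGraph.Walk.nil).support, ‖emb z‖ ≤ ρ := by
      intro z hz
      simp only [SimpleGraph.Walk.support_cons, SimpleGraph.Walk.support_nil, List.mem_cons,
        List.not_mem_nil, or_false] at hz
      rcases hz with rfl | rfl
      · exact hu
      · exact hv
    have e3 := ws_disc (a := f al) (SimpleGraph.Walk.cons e1 SimpleGraph.Walk.nil)
      fun z hz => (e2 z hz).trans_lt hal
    have e4 := ws_disc (a := f be) (SimpleGraph.Walk.cons e1 SimpleGraph.Walk.nil)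
      fun z hz => (e2 z hz).trans_lt hbe
    rw [ws_cons, ws_nil] at e3 e4
    rw [hgD u hu, hgD v hv]
    linarith
  -- both in the excursion
  have c2 : ∀ i j, w1 < i → i < j → j < w2 → Adj (f i) (f j) →
      ar (f al) (f i) (f j) - ar (f be) (f i) (f j) = g (f j) - g (f i) := by
    intro i j hi hij hj huv
    have e1 : TG.Adj (f j) (f i) := huv.symm
    have hc : Conn {z | (∀ k, i ≤ k → k ≤ j → z ≠ f k) ∧
        z ∉ (SimpleGraph.Walk.cons e1 SimpleGraph.Walk.nil).support} (f al) (f be) := by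
      refine hconn1.mono fun z (hz : ∀ k, w1 < k → k < w2 → z ≠ f k) =>
        ⟨fun k hk1 hk2 => hz k (by omega) (by omega), fun h => ?_⟩
      simp only [SimpleGraph.Walk.support_cons, SimpleGraph.Walk.support_nil,
        List.mem_cons, List.not_mem_nil, or_false] at h
      rcases h with h | h
      · exact hz j (by omega) (by omega) h
      · exact hz i (by omega) (by omega) h
    have e2 := discQ_loop (a := f al) (b := f be) hij.le (hAdj i j (by omega) (by omega))
      (SimpleGraph.Walk.cons e1 SimpleGraph.Walk.nil) hc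
    rw [ws_cons, ws_cons, ws_nil, ws_nil,
      ar_symm huv (hna i hi (by omega)) (hna j (by omega) hj),
      ar_symm huv (hnb i hi (by omega)) (hnb j (by omega) hj)] at e2
    rw [hgH i hi (by omega), hgH j (by omega) hj,
      ← Finset.sum_Ico_consecutive _ hi.le hij.le]
    linarith
  -- one in the disc, one in the excursion
  have c3 : ∀ u i, ‖emb u‖ ≤ ρ → w1 < i → i < w2 → Adj u (f i) →
      ar (f al) u (f i) - ar (f be) u (f i) = g (f i) - g u := by
    intro u i hu hi hi' huv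
    have hnorm : ‖emb (f i)‖ ≤ ρ + 1 := by
      have e1 := norm_emb_adj huv
      have e2 := norm_le_norm_add_norm_sub (emb u) (emb (f i))
      rw [norm_sub_rev, e1] at e2
      linarith
    have hcase : i < s1 ∨ s2 < i := by
      by_contra hcon
      push Not at hcon
      exact absurd (hmid i hcon.1 hcon.2) (not_lt.2 hnorm)
    rcases hcase with hcase | hcase
    · obtain ⟨q, hq1, hq2⟩ := discQ_disc hal hbe hu hρ1
      have e1 : TG.Adj (f i) u := huv.symm
      have hc := hconn2 w1 i le_rfl hi'.le fun k hk1 hk2 => by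
        rcases hk1.eq_or_lt with rfl | hk1
        · exact hρ1.trans_lt hρb
        · exact hin1 k hk1 (by omega)
      have e2 := discQ_loop (a := f al) (b := f be) hi.le (hAdj w1 i (by omega) (by omega))
        (SimpleGraph.Walk.cons e1 q) (hc.mono fun z hz => ⟨hz.2, fun h => by
          rw [SimpleGraph.Walk.support_cons, List.mem_cons] at h
          rcases h with h | h
          · exact hz.2 i hi.le le_rfl h
          · exact absurd hz.1 (not_lt.2 (hq1 z h))⟩)
      rw [ws_cons, ws_cons,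
        ar_symm huv (hDa u hu) (hna i hi hi'), ar_symm huv (hDb u hu) (hnb i hi hi')] at e2
      rw [hgH i hi hi', hgD u hu]
      linarith
    · obtain ⟨q, hq1, hq2⟩ := discQ_disc hal hbe hρ2 hu
      have e1 : TG.Adj u (f i) := huv
      have hc := hconn2 i w2 hi.le le_rfl fun k hk1 hk2 => by
        rcases hk2.eq_or_lt with rfl | hk2
        · exact hρ2.trans_lt hρb
        · exact hin2 k (by omega) hk2
      have e2 := discQ_loop (a := f al) (b := f be) hi'.le (hAdj i w2 (by omega) (by omega))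
        (q.append (SimpleGraph.Walk.cons e1 SimpleGraph.Walk.nil))
        (hc.mono fun z hz => ⟨hz.2, fun h => by
          rw [SimpleGraph.Walk.mem_support_append_iff] at h
          simp only [SimpleGraph.Walk.support_cons, SimpleGraph.Walk.support_nil,
            List.mem_cons, List.not_mem_nil, or_false] at h
          rcases h with h | h | h
          · exact absurd hz.1 (not_lt.2 (hq1 z h))
          · rw [h] at hz
            exact absurd hz.1 (not_lt.2 hu)
          · exact hz.2 i le_rfl hi'.le h⟩)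
      rw [ws_append, ws_append, ws_cons, ws_cons, ws_nil, ws_nil] at e2
      rw [← Finset.sum_Ico_consecutive _ hi.le hi'.le] at heq
      rw [hgH i hi hi', hgD u hu]
      linarith
  have hanti : ∀ u v, Adj u v → u ≠ f al → v ≠ f al → u ≠ f be → v ≠ f be →
      ar (f al) u v - ar (f be) u v = g v - g u →
      ar (f al) v u - ar (f be) v u = g u - g v := by
    intro u v huv q1 q2 q3 q4 he
    rw [ar_symm huv q1 q2, ar_symm huv q3 q4]
    linarith
  have hfin : ({z | ‖emb z‖ ≤ ρ ∨ ∃ k, w1 < k ∧ k < w2 ∧ z = f k} : Set V).Finite := by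
    refine ((finite_disc ρ).union ((Set.finite_Ioo w1 w2).image f)).subset ?_
    rintro z (hz | ⟨k, hk1, hk2, rfl⟩)
    · exact Or.inl hz
    · exact Or.inr ⟨k, ⟨hk1, hk2⟩, rfl⟩
  refine hsep ((dual_fin hfin (a := f al) (b := f be) ?_ ?_ g ?_).mono ?_)
  · rintro (h | ⟨k, hk1, hk2, h⟩)
    · exact absurd hal (not_lt.2 h)
    · exact hna k hk1 hk2 h.symm
  · rintro (h | ⟨k, hk1, hk2, h⟩)
    · exact absurd hbe (not_lt.2 h)
    · exact hnb k hk1 hk2 h.symm
  · rintro u (hu | ⟨i, hi1, hi2, rfl⟩) v (hv | ⟨j, hj1, hj2, rfl⟩) huv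
    · exact c1 u v hu hv huv
    · exact c3 u j hu hj1 hj2 huv
    · exact hanti v (f i) huv.symm (hDa v hv) (hna i hi1 hi2) (hDb v hv) (hnb i hi1 hi2)
        (c3 v i hv hi1 hi2 huv.symm)
    · rcases lt_trichotomy i j with hij | hij | hij
      · exact c2 i j hi1 hij hj2 huv
      · rw [hij] at huv
        exact absurd rfl huv.ne
      · exact hanti (f j) (f i) huv.symm (hna j hj1 hj2) (hna i hi1 hi2) (hnb j hj1 hj2)
          (hnb i hi1 hi2) (c2 j i hj1 hij hi2 huv.symm)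
  · intro z hz
    refine ⟨not_le.1 fun h => hz (Or.inl h), fun k hk1 hk2 h => hz (Or.inr ⟨k, hk1, hk2, h⟩)⟩

end Pool.Agent.MSTLim
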