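import Mathlib
import Pool.Agent.MSTLim.Idx
import Pool.Agent.MSTLim.Dual

/-!
# Separation of `T2` from `T5` by `T0`, `T3` in the annulus implies separation of `T0` from `T3`

`exists_pot`: if every closed walk in `S` has the same index at `a` and `b` (`a, b ∉ S`), then
`ar a - ar b` has a potential on `S`.  PROOF: for every component of `S` choose a base point (by
choice: `base u` depends only on `comp S u`), let `g u` be the sum along some walk in `S` from the
base point to `u`.  For adjacent `u, v ∈ S` the closed walk `base → u → v → base` gives the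
relation (`ws_append`, `ws_cons`, `ws_anti`).
`exists_pot'`: the same hypothesis follows if `a, b` are joined outside `S` (`ws_move`).
`dual'`: `dual` and `exists_pot`.

`sep_swap`: `f w0, …, f w3` is a lattice path, `D = {‖emb z‖ ≤ ρ}`, `E = {b' ≤ ‖emb z‖}`;
`f(w0, u1]` and `f[u3, w3)` are outside `D`, `f u1, f u3 ∈ E`, `f w0, f w3, f w1, f w2 ∈ D`,
`H = f(w1, w2)` is outside `D`.  Let `i, j` with `w1 < i < j < w2` be such that
`f(w1, i]` and `f[j, w2)` are in `‖emb z‖ < b'`.  If `T0 = f[w0, u1]` and `T3 = f[u3, w3]` separate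
`x = f i` from `y = f j` in the annulus `ρ < ‖emb z‖ < b'`, then `D ∪ H` separates `f al` from
`f be` (`w0 < al ≤ u1`, `u3 ≤ be < w3`).
PROOF.  Let `c` be a walk from `f al` to `f be` outside `D ∪ H`, and
`Z = T0' ∪ T3' ∪ c`, `T0' = f(w0, u1]`, `T3' = f[u3, w3)`: all of it is outside `D`.
(1) `x, y` are joined outside `D ∪ Z` (along `f[i, j] ⊆ H`).  Let `gA` be a potential of
`om = ar x - ar y` on `D ∪ Z` (`exists_pot'`).
(2) `x, y` are joined outside `E ∪ Z`: along `f[w1, i]` (backwards) to `f w1 ∈ D`, in `D`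
(`isConn_disc`) to `f w2`, along `f[j, w2]` (backwards).  (`Z` avoids `D` and `H`; `D ∩ E = ∅`.)
Let `gB` be a potential on `E ∪ Z`.
(3) `gA - gB` is constant on `Z`, with value `κ`: `Z` is connected (`T0'` and `T3'` are paths
through `f al`, `f be`, the ends of `c`), and both are potentials of the same function on `Z`.
(4) On `S = D ∪ T0' ∪ T3' ∪ E` put `g = gA` on `D ∪ T0' ∪ T3'` and `g = gB + κ` on the rest of
`E`.  This is a potential of `om` on `S`: edges inside `D ∪ Z` and inside `E ∪ Z` are fine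
(`gA = gB + κ` on `Z`), and there are no edges between `D` and `E` because `ρ + 1 < b'`
(`norm_emb_adj`).
(5) The component of `x` outside `S` is finite (it has norms `< b'`, `finite_disc`).  By `dual`
`x` and `y` are joined outside `S`, hence in the annulus off `T0 ∪ T3` (`f w0, f w3 ∈ D`).
Contradiction.
-/

namespace Pool.Agent.MSTLim

open Pool.Agent.TriPerc

variable {S : Set V} {a b : V}

private theorem discS_pair {x y u v : V} (ha : a ∉ S) (hb : b ∉ S)
    (h : ∀ u, ∀ p : TG.Walk u u, (∀ z ∈ p.support, z ∈ S) → ws (ar a) p = ws (ar b) p)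
    (hxy : x = y) (p : TG.Walk x u) (q : TG.Walk y v) (hp : ∀ z ∈ p.support, z ∈ S)
    (hq : ∀ z ∈ q.support, z ∈ S) (huv : Adj u v) :
    ar a u v - ar b u v = (ws (ar a) q - ws (ar b) q) - (ws (ar a) p - ws (ar b) p) := by
  subst hxy
  have huv' : TG.Adj u v := huv
  have h1 := h x (p.append (SimpleGraph.Walk.cons huv' q.reverse)) (by
    intro z hz
    rw [SimpleGraph.Walk.mem_support_append_iff, SimpleGraph.Walk.support_cons,
      List.mem_cons, SimpleGraph.Walk.support_reverse, List.mem_reverse] at hz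
    rcases hz with hz | rfl | hz
    · exact hp z hz
    · exact hp z (SimpleGraph.Walk.end_mem_support p)
    · exact hq z hz)
  rw [ws_append, ws_append, ws_cons, ws_cons, ws_anti q fun hz => ha (hq _ hz),
    ws_anti q fun hz => hb (hq _ hz)] at h1
  linarith

open Classical in
/-- A point of a set, which depends on the set only. -/
private noncomputable def discSpt (K : Set V) : V := if h : K.Nonempty then h.some else 0

private theorem discSpt_mem {K : Set V} (h : K.Nonempty) : discSpt K ∈ K := by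
  unfold discSpt
  rw [dif_pos h]
  exact h.some_mem

private theorem discS_comp {u v : V} (hu : u ∈ S) (hv : v ∈ S) (h : Adj u v) :
    comp S u = comp S v := by
  ext z
  exact ⟨fun hz => (Conn.of_adj hv hu h.symm).trans hz, fun hz => (Conn.of_adj hu hv h).trans hz⟩

theorem exists_pot (ha : a ∉ S) (hb : b ∉ S)
    (h : ∀ u, ∀ p : TG.Walk u u, (∀ z ∈ p.support, z ∈ S) → ws (ar a) p = ws (ar b) p) :
    ∃ g : V → ℝ, ∀ u ∈ S, ∀ v ∈ S, Adj u v → ar a u v - ar b u v = g v - g u := by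
  classical
  have hw : ∀ u : V, ∃ r : ℝ, u ∈ S → ∃ p : TG.Walk (discSpt (comp S u)) u,
      (∀ z ∈ p.support, z ∈ S) ∧ r = ws (ar a) p - ws (ar b) p := by
    intro u
    by_cases hu : u ∈ S
    · have h1 : Conn S u (discSpt (comp S u)) := discSpt_mem (K := comp S u) ⟨u, Conn.refl hu⟩
      obtain ⟨p, hp⟩ := exists_walk h1.symm
      exact ⟨_, fun _ => ⟨p, hp, rfl⟩⟩
    · exact ⟨0, fun hu' => absurd hu' hu⟩
  choose g hg using hw
  refine ⟨g, fun u hu v hv huv => ?_⟩
  obtain ⟨p, hp, hp'⟩ := hg u hu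
  obtain ⟨q, hq, hq'⟩ := hg v hv
  rw [hp', hq']
  exact discS_pair ha hb h (by rw [discS_comp hu hv huv]) p q hp hq huv

theorem exists_pot' (h : Conn Sᶜ a b) :
    ∃ g : V → ℝ, ∀ u ∈ S, ∀ v ∈ S, Adj u v → ar a u v - ar b u v = g v - g u := by
  refine exists_pot h.left h.right fun u p hp => ws_move p (h.mono fun z hz hz' => ?_)
  exact hz (hp z hz')

private theorem discS_path {f : ℕ → V} {i j : ℕ} (hij : i ≤ j)
    (hadj : ∀ k, i ≤ k → k < j → Adj (f k) (f (k + 1))) (hS : ∀ k, i ≤ k → k ≤ j → f k ∈ S) :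
    Conn S (f i) (f j) := by
  obtain ⟨n, rfl⟩ := Nat.exists_eq_add_of_le hij
  exact Conn.of_walk (n := n) (f := fun k => f (i + k))
    (fun k hk => hadj (i + k) (by omega) (by omega)) fun k hk => hS (i + k) (by omega) (by omega)

private theorem discS_const {gA gB : V → ℝ} {F : V → V → ℝ} {Z : Set V} {u v : V}
    (hA : ∀ u ∈ Z, ∀ v ∈ Z, Adj u v → F u v = gA v - gA u)
    (hB : ∀ u ∈ Z, ∀ v ∈ Z, Adj u v → F u v = gB v - gB u) (h : Conn Z u v) :
    gA v - gB v = gA u - gB u := by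
  obtain ⟨hu, h⟩ := h
  induction h with
  | refl => rfl
  | @tail x y hx hxy ih =>
    have hxZ : x ∈ Z := Conn.right (S := Z) (u := u) ⟨hu, hx⟩
    have h1 := hA x hxZ y hxy.2 hxy.1
    have h2 := hB x hxZ y hxy.2 hxy.1
    linarith

theorem sep_swap {f : ℕ → V} {w0 al u1 w1 i j w2 u3 be w3 : ℕ} {ρ b' : ℝ}
    (hadj : ∀ k, w0 ≤ k → k < w3 → Adj (f k) (f (k + 1)))
    (hinj : ∀ i, w0 ≤ i → i ≤ w3 → ∀ j, w0 ≤ j → j ≤ w3 → f i = f j → i = j)
    (h1 : w0 < al) (h2 : al ≤ u1) (h3 : u1 < w1) (h4 : w1 < i) (h5 : i < j) (h6 : j < w2)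
    (h7 : w2 < u3) (h8 : u3 ≤ be) (h9 : be < w3) (hρb : ρ + 1 < b')
    (hρ0 : ‖emb (f w0)‖ ≤ ρ) (hρ3 : ‖emb (f w3)‖ ≤ ρ)
    (hρ1 : ‖emb (f w1)‖ ≤ ρ) (hρ2 : ‖emb (f w2)‖ ≤ ρ)
    (hH : ∀ k, w1 < k → k < w2 → ρ < ‖emb (f k)‖)
    (hin1 : ∀ k, w1 < k → k ≤ i → ‖emb (f k)‖ < b')
    (hin2 : ∀ k, j ≤ k → k < w2 → ‖emb (f k)‖ < b')
    (ha : ∀ k, w0 < k → k ≤ u1 → ρ < ‖emb (f k)‖)
    (hb : ∀ k, u3 ≤ k → k < w3 → ρ < ‖emb (f k)‖)
    (hb1 : b' ≤ ‖emb (f u1)‖) (hb3 : b' ≤ ‖emb (f u3)‖)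
    (hsep : ¬ Conn {z | ρ < ‖emb z‖ ∧ ‖emb z‖ < b' ∧
      ∀ k, (w0 ≤ k ∧ k ≤ u1) ∨ (u3 ≤ k ∧ k ≤ w3) → z ≠ f k} (f i) (f j)) :
    ¬ Conn {z | ρ < ‖emb z‖ ∧ ∀ k, w1 < k → k < w2 → z ≠ f k} (f al) (f be) := by
  classical
  intro hc
  apply hsep
  have _ := hb1
  have _ := hb3
  obtain ⟨Q, hQ⟩ : ∃ Q : Set V,
      Q = {z | ρ < ‖emb z‖ ∧ ∀ k, w1 < k → k < w2 → z ≠ f k} := ⟨_, rfl⟩
  rw [← hQ] at hc
  obtain ⟨Z, hZ⟩ : ∃ Z : Set V, Z = comp Q (f al) := ⟨_, rfl⟩
  have hZQ : ∀ z ∈ Z, ρ < ‖emb z‖ ∧ ∀ k, w1 < k → k < w2 → z ≠ f k := by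
    intro z hz
    rw [hZ] at hz
    have := comp_subset hz
    rwa [hQ] at this
  have hHZ : ∀ k, w1 < k → k < w2 → f k ∉ Z := fun k k1 k2 hz => (hZQ _ hz).2 k k1 k2 rfl
  have hDZ : ∀ z, ‖emb z‖ ≤ ρ → z ∉ Z := fun z hz hz' => absurd (hZQ z hz').1 (not_lt.2 hz)
  -- the two arms are in `Z`
  have hT0 : ∀ k, w0 < k → k ≤ u1 → f k ∈ Q := by
    intro k k1 k2
    rw [hQ]
    refine ⟨ha k k1 k2, fun k' k3 k4 he => ?_⟩
    have := hinj k (by omega) (by omega) k' (by omega) (by omega) he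
    omega
  have hT3 : ∀ k, u3 ≤ k → k < w3 → f k ∈ Q := by
    intro k k1 k2
    rw [hQ]
    refine ⟨hb k k1 k2, fun k' k3 k4 he => ?_⟩
    have := hinj k (by omega) (by omega) k' (by omega) (by omega) he
    omega
  have hZ0 : ∀ k, w0 < k → k ≤ u1 → f k ∈ Z := by
    intro k k1 k2
    rw [hZ]
    change Conn Q (f al) (f k)
    rcases le_total al k with h | h
    · exact discS_path h (fun l l1 l2 => hadj l (by omega) (by omega))
        fun l l1 l2 => hT0 l (by omega) (by omega)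
    · exact (discS_path h (fun l l1 l2 => hadj l (by omega) (by omega))
        fun l l1 l2 => hT0 l (by omega) (by omega)).symm
  have hZ3 : ∀ k, u3 ≤ k → k < w3 → f k ∈ Z := by
    intro k k1 k2
    rw [hZ]
    change Conn Q (f al) (f k)
    refine hc.trans ?_
    rcases le_total be k with h | h
    · exact discS_path h (fun l l1 l2 => hadj l (by omega) (by omega))
        fun l l1 l2 => hT3 l (by omega) (by omega)
    · exact (discS_path h (fun l l1 l2 => hadj l (by omega) (by omega))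
        fun l l1 l2 => hT3 l (by omega) (by omega)).symm
  -- (1)
  obtain ⟨gA, hgA⟩ := exists_pot' (S := {z | ‖emb z‖ ≤ ρ} ∪ Z) (a := f i) (b := f j)
    (discS_path h5.le (fun l l1 l2 => hadj l (by omega) (by omega)) (by
      intro l l1 l2
      rintro (hz | hz)
      · exact absurd (hH l (by omega) (by omega)) (not_lt.2 hz)
      · exact hHZ l (by omega) (by omega) hz))
  -- (2)
  have hDE : ∀ z, ‖emb z‖ ≤ ρ → z ∈ ({z | b' ≤ ‖emb z‖} ∪ Z)ᶜ := by
    rintro z hz (hz' | hz')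
    · have hz'' : b' ≤ ‖emb z‖ := hz'
      linarith
    · exact hDZ z hz hz'
  have e1 : Conn ({z | b' ≤ ‖emb z‖} ∪ Z)ᶜ (f w1) (f i) :=
    discS_path h4.le (fun l l1 l2 => hadj l (by omega) (by omega)) (by
      intro l l1 l2
      rcases Nat.eq_or_lt_of_le l1 with rfl | l1
      · exact hDE _ hρ1
      · rintro (hz | hz)
        · exact absurd (hin1 l l1 l2) (not_lt.2 hz)
        · exact hHZ l (by omega) (by omega) hz)
  have e2 : Conn ({z | b' ≤ ‖emb z‖} ∪ Z)ᶜ (f j) (f w2) :=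
    discS_path h6.le (fun l l1 l2 => hadj l (by omega) (by omega)) (by
      intro l l1 l2
      rcases Nat.eq_or_lt_of_le l2 with rfl | l2
      · exact hDE _ hρ2
      · rintro (hz | hz)
        · exact absurd (hin2 l l1 l2) (not_lt.2 hz)
        · exact hHZ l (by omega) (by omega) hz)
  have e3 : Conn ({z | b' ≤ ‖emb z‖} ∪ Z)ᶜ (f w1) (f w2) :=
    (isConn_disc ρ _ hρ1 _ hρ2).mono fun z hz => hDE z hz
  obtain ⟨gB, hgB⟩ := exists_pot' (S := {z | b' ≤ ‖emb z‖} ∪ Z) (a := f i) (b := f j)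
    (e1.symm.trans (e3.trans e2.symm))
  -- (3)
  have hk : ∀ z ∈ Z, gA z = gB z + (gA (f al) - gB (f al)) := by
    intro z hz
    have hz' : Conn Z (f al) z := by
      have h := hz
      rw [hZ] at h ⊢
      exact Conn.in_comp h
    have := discS_const (F := fun u v => ar (f i) u v - ar (f j) u v)
      (fun u hu v hv huv => hgA u (Or.inr hu) v (Or.inr hv) huv)
      (fun u hu v hv huv => hgB u (Or.inr hu) v (Or.inr hv) huv) hz'
    linarith
  -- (4)
  have hno : ∀ u v, ‖emb u‖ ≤ ρ → b' ≤ ‖emb v‖ → Adj u v → False := by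
    intro u v hu hv huv
    have k1 := norm_emb_adj huv
    have k2 := norm_sub_norm_le (emb v) (emb u)
    linarith
  have hD := dual (S := {z | ‖emb z‖ ≤ ρ} ∪ Z ∪ {z | b' ≤ ‖emb z‖}) (a := f i) (b := f j)
    (by
      rintro ((hz | hz) | hz)
      · exact absurd (hH i h4 (by omega)) (not_lt.2 hz)
      · exact hHZ i h4 (by omega) hz
      · exact absurd (hin1 i h4 le_rfl) (not_lt.2 hz))
    (by
      rintro ((hz | hz) | hz)
      · exact absurd (hH j (by omega) h6) (not_lt.2 hz)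
      · exact hHZ j (by omega) h6 hz
      · exact absurd (hin2 j le_rfl h6) (not_lt.2 hz))
    ((finite_disc b').subset fun z hz => by
      have hz' := comp_subset hz
      by_contra hcon
      have hcon' : b' ≤ ‖emb z‖ := (not_le.1 hcon).le
      exact hz' (Or.inr hcon'))
    (fun z => if z ∈ {z | ‖emb z‖ ≤ ρ} ∪ Z then gA z else gB z + (gA (f al) - gB (f al)))
    (by
      intro u hu v hv huv
      by_cases cu : u ∈ {z | ‖emb z‖ ≤ ρ} ∪ Z
      · by_cases cv : v ∈ {z | ‖emb z‖ ≤ ρ} ∪ Z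
        · simp only [if_pos cu, if_pos cv]
          exact hgA u cu v cv huv
        · simp only [if_pos cu, if_neg cv]
          have hvE : b' ≤ ‖emb v‖ := hv.resolve_left cv
          rcases cu with cu | cu
          · exact (hno u v cu hvE huv).elim
          · rw [hk u cu, hgB u (Or.inr cu) v (Or.inl hvE) huv]
            ring
      · have huE : b' ≤ ‖emb u‖ := hu.resolve_left cu
        by_cases cv : v ∈ {z | ‖emb z‖ ≤ ρ} ∪ Z
        · simp only [if_neg cu, if_pos cv]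
          rcases cv with cv | cv
          · exact (hno v u cv huE huv.symm).elim
          · rw [hk v cv, hgB u (Or.inl huE) v (Or.inr cv) huv]
            ring
        · simp only [if_neg cu, if_neg cv]
          have hvE : b' ≤ ‖emb v‖ := hv.resolve_left cv
          rw [hgB u (Or.inl huE) v (Or.inl hvE) huv]
          ring)
  -- (5)
  refine hD.mono fun z hz => ?_
  have z1 : ¬ ‖emb z‖ ≤ ρ := fun h => hz (Or.inl (Or.inl h))
  have z2 : z ∉ Z := fun h => hz (Or.inl (Or.inr h))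
  have z3 : ¬ b' ≤ ‖emb z‖ := fun h => hz (Or.inr h)
  refine ⟨not_le.1 z1, not_le.1 z3, ?_⟩
  rintro k (⟨k1, k2⟩ | ⟨k1, k2⟩) rfl
  · rcases Nat.eq_or_lt_of_le k1 with rfl | k1
    · exact z1 hρ0
    · exact z2 (hZ0 k k1 k2)
  · rcases Nat.eq_or_lt_of_le k2 with rfl | k2
    · exact z1 hρ3
    · exact z2 (hZ3 k k1 k2)

end Pool.Agent.MSTLim
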