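import Pool.Agent.MST.Extra
import Pool.Agent.MSTLim.Main
import Pool.Agent.MSTLim.Runs
import Pool.Agent.TriPerc.OneArm

/-!
# Selection of good blocks in the end zones, no further crossing clusters

All probabilities are relative to `E_F`; relative weights are only known up to `exp (ε n)`, so a
good block must be selected in a zone of `δ n` blocks, and the annulus without further crossing
clusters must have `δ n` blocks.

* `XE K N s t`: `E_F` in the blocks `s + 1, …, t` with a further crossing cluster; `P_XE`.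
* `EQ K N q D n s l`, `relq`: relative weights for block events which depend on `q` blocks.
* `zone_good`: `P (E_F ∩ ⋂ j ∈ T, D j) ≤ exp (- r n) P (E_F)` for a set `T` of `δ n` blocks with
  gaps `q`, if `P (D j)` is small enough.
* `zone_extra`: `P (E_F ∩ XE s t) ≤ exp (- r n) P (E_F)` for `t - s ≥ δ n`.
* `sel_fix`: fixed good blocks `j i` in `M` zones and no further crossing clusters in `M'` annuli,
  with probability at least `P (E_F) / (2 n ^ M)`.
-/

namespace Pool.Agent.MSTLim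

open MeasureTheory Set Filter
open Pool.Agent.TriPerc Pool.Agent.MST
open scoped ENNReal

/-- `E_F` in the blocks `s + 1, …, t` for some witnesses, and a further crossing cluster which
contains none of the witnesses. -/
def XE (K N : ℝ) (s t : ℕ) : Set Lab :=
  {w | ∃ z, EFz (1 / 2) (rd K N t + 1) (rd K N s) w z ∧ ∃ y,
    Crs (1 / 2) (rd K N t + 1) (rd K N s) w y ∧
    ∀ i, ¬ Conn (Op (1 / 2) w ∩ Ann 0 (rd K N t + 1) (rd K N s)) (z i) y}

/-- The arm event of the blocks `s + 1, …, t`. -/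
def RA (K N : ℝ) (s t : ℕ) : Set Lab :=
  {w | Arm (Op (1 / 2) w) 0 (rd K N t + 1) (rd K N s)}

/-- `E_F` on the runs which are left when the blocks `j + 1, …, j + q` for `j` in the list are
removed, and the events `D j`, which depend on these blocks. -/
def EQ (K N : ℝ) (q : ℕ) (D : ℕ → Set Lab) (n : ℕ) : ℕ → List ℕ → Set Lab
  | s, [] => RE K N s n
  | s, j :: l => RE K N s j ∩ (D j ∩ EQ K N q D n (j + q) l)

variable {K N C x δ α : ℝ} {s t n q k : ℕ} {l : List ℕ} {D : ℕ → Set Lab} {w : Lab} {F : Filter ℝ}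

theorem ev_XE (K N : ℝ) (s t : ℕ) : Ev (Ann 0 (rd K N t + 1) (rd K N s)) (XE K N s t) := by
  refine ev_order_lev (finite_ann 0 _ _) {1 / 2} fun w w' h hp hw => ?_
  have h2 : Op (1 / 2) w ∩ Ann 0 (rd K N t + 1) (rd K N s) =
      Op (1 / 2) w' ∩ Ann 0 (rd K N t + 1) (rd K N s) :=
    op_congr fun u hu => hp _ (Finset.mem_singleton_self _) u hu
  obtain ⟨z, ⟨h3, h4, h5, h6, h7, h8⟩, y, ⟨h9, h10⟩, h11⟩ := hw
  rw [h2] at h4 h7 h10 h11
  exact ⟨z, ⟨h3, h4, dbl_congr h h5, dbl_congr h h6, h7, h8⟩, y, ⟨h9, h10⟩, h11⟩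

/-- Without further crossing clusters every crossing cluster contains one of the witnesses. -/
theorem no_xe (h : w ∉ XE K N s t) {z : Fin 6 → V}
    (hz : EFz (1 / 2) (rd K N t + 1) (rd K N s) w z) {y : V}
    (hy : Crs (1 / 2) (rd K N t + 1) (rd K N s) w y) :
    ∃ i, Conn (Op (1 / 2) w ∩ Ann 0 (rd K N t + 1) (rd K N s)) (z i) y := by
  by_contra hcon
  push Not at hcon
  exact h ⟨z, hz, y, hy, hcon⟩

private theorem disj_ann {a b c d : ℤ} (h : d < a) : Disjoint (Ann 0 a b) (Ann 0 c d) := by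
  rw [Set.disjoint_left]
  rintro v ⟨k1, -⟩ ⟨-, k2⟩
  omega

/-- `E_F` in `n` blocks with a further crossing cluster in the blocks `s + 1, …, t`. -/
theorem P_XE (hW : Wide K N n) (hst : s < t) (ht : t ≤ n) (hC : 0 ≤ C) (hx : 0 < x)
    (hB : Bd K N n C x) (ha : P (RA K N s t) ≤ 1 / 2) :
    P (RE K N 0 n ∩ XE K N s t) ≤
      ENNReal.ofReal (128 * C ^ 3 * x ^ n * (P (RA K N s t)).toReal) := by
  have e1 := ev_RE K N 0 s
  have e2 := ev_XE K N s t
  have e3 := ev_RE K N t n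
  have hd1 : Disjoint (Ann 0 (rd K N t + 1) (rd K N s)) (Ann 0 (rd K N n + 1) (rd K N t)) :=
    disj_ann (by omega)
  have hd2 : Disjoint (Ann 0 (rd K N s + 1) (rd K N 0)) (Ann 0 (rd K N n + 1) (rd K N s)) :=
    disj_ann (by omega)
  have h1 := hW.lt hst ht
  have h2 := hW.le ht le_rfl
  have e4 : Ev (Ann 0 (rd K N n + 1) (rd K N s)) (XE K N s t ∩ RE K N t n) :=
    Ev.inter (e2.mono (ann_sub (by omega) le_rfl)) (e3.mono (ann_sub le_rfl (by omega)))
  have hP : P (RE K N 0 n ∩ XE K N s t) ≤ P (RE K N 0 s ∩ (XE K N s t ∩ RE K N t n)) := by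
    refine measure_mono_ae ?_
    filter_upwards [ae_label 0] with w hw hE
    have hinj : Function.Injective w := by
      intro u v huv
      by_contra h
      exact hw.2 u v h huv
    exact ⟨RE_restr hinj hW le_rfl le_rfl (by omega) hE.1, hE.2,
      RE_restr hinj hW le_rfl (Nat.zero_le t) le_rfl hE.1⟩
  rw [indep e1 e4 hd2, indep e2 e3 hd1] at hP
  have hx1 : P (XE K N s t) ≤ 128 * P (RA K N s t) * P (RE K N s t) := by
    have := ef_extra (1 / 2) (m := rd K N t + 1) (n := rd K N s) (by omega) ha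
    unfold XE RA RE
    rw [if_pos hst]
    exact this
  have g1 := hB 0 s (Nat.zero_le s) (by omega)
  have g2 := hB s t hst.le ht
  have g3 := hB t n ht le_rfl
  rw [← P_RE] at g1 g2 g3
  have f : ∀ {A : Set Lab} {b : ℝ}, (P A).toReal ≤ b → 0 ≤ b → P A ≤ ENNReal.ofReal b :=
    fun h h0 => (ENNReal.le_ofReal_iff_toReal_le (measure_ne_top _ _) h0).2 h
  have g1' := f g1 (by positivity)
  have g2' := f g2 (by positivity)
  have g3' := f g3 (by positivity)
  obtain ⟨a, haa⟩ : ∃ a : ℝ, a = (P (RA K N s t)).toReal := ⟨_, rfl⟩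
  have ha0 : 0 ≤ a := by rw [haa]; exact ENNReal.toReal_nonneg
  have hPa : P (RA K N s t) = ENNReal.ofReal a := by
    rw [haa, ENNReal.ofReal_toReal (measure_ne_top _ _)]
  rw [← haa]
  rw [hPa] at hx1
  refine hP.trans ((mul_le_mul' g1' (mul_le_mul' (hx1.trans (mul_le_mul' le_rfl g2'))
    g3')).trans (le_of_eq ?_))
  rw [← ENNReal.ofReal_ofNat 128, ← ENNReal.ofReal_mul (by norm_num),
    ← ENNReal.ofReal_mul (by positivity), ← ENNReal.ofReal_mul (by positivity),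
    ← ENNReal.ofReal_mul (by positivity)]
  congr 1
  have h7 : x ^ n = x ^ (s - 0) * x ^ (t - s) * x ^ (n - t) := by
    rw [← pow_add, ← pow_add]
    congr 1
    omega
  rw [h7]
  ring

/-! ### Relative weights for events which depend on `q` blocks -/

theorem ev_EQ (hW : Wide K N n)
    (hD : ∀ j, j + q ≤ n → Ev (Ann 0 (rd K N (j + q) + 1) (rd K N j)) (D j)) :
    ∀ (l : List ℕ) (s : ℕ), s ≤ n → (∀ j ∈ l, s ≤ j ∧ j + q ≤ n) →
    l.Pairwise (fun i j => i + q ≤ j) →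
    Ev (Ann 0 (rd K N n + 1) (rd K N s)) (EQ K N q D n s l) := by
  intro l
  induction l with
  | nil => exact fun s _ _ _ => ev_RE K N s n
  | cons j l ih =>
    intro s hs hl hp
    obtain ⟨h1, h2⟩ := hl j List.mem_cons_self
    obtain ⟨h3, h4⟩ := List.pairwise_cons.1 hp
    have h5 := hW.le (by omega : j ≤ n) le_rfl
    have h6 := hW.le (by omega : j + q ≤ n) le_rfl
    refine Ev.inter ((ev_RE K N s j).mono (ann_sub (by omega) le_rfl))
      (Ev.inter ((hD j h2).mono (ann_sub (by omega) (hW.le (by omega) (by omega))))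
        ((ih (j + q) h2 (fun i hi => ⟨h3 i hi,
          (hl i (List.mem_cons_of_mem _ hi)).2⟩) h4).mono
          (ann_sub le_rfl (hW.le (by omega) (by omega)))))

theorem P_EQ (hW : Wide K N n) (hC : 0 ≤ C) (hx : 0 < x) (hB : Bd K N n C x)
    (hD : ∀ j, j + q ≤ n → Ev (Ann 0 (rd K N (j + q) + 1) (rd K N j)) (D j)) :
    ∀ (l : List ℕ) (s : ℕ), s ≤ n → (∀ j ∈ l, s ≤ j ∧ j + q ≤ n) →
    l.Pairwise (fun i j => i + q ≤ j) →
    (P (EQ K N q D n s l)).toReal ≤ C ^ (l.length + 1) * (x⁻¹) ^ (q * l.length) * x ^ (n - s) *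
      (l.map fun j => (P (D j)).toReal).prod := by
  intro l
  induction l with
  | nil =>
    intro s hs _ _
    have h1 := hB s n hs le_rfl
    rw [← P_RE] at h1
    simpa [EQ] using h1
  | cons j l ih =>
    intro s hs hl hp
    obtain ⟨h1, h2⟩ := hl j List.mem_cons_self
    obtain ⟨h3, h4⟩ := List.pairwise_cons.1 hp
    have hl' : ∀ i ∈ l, j + q ≤ i ∧ i + q ≤ n := fun i hi =>
      ⟨h3 i hi, (hl i (List.mem_cons_of_mem _ hi)).2⟩
    have h5 := ih (j + q) h2 hl' h4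
    have h6 := hB s j (by omega) (by omega)
    rw [← P_RE] at h6
    have e1 := hD j h2
    have e2 := ev_EQ hW hD l (j + q) h2 hl' h4
    have hd1 : Disjoint (Ann 0 (rd K N (j + q) + 1) (rd K N j))
        (Ann 0 (rd K N n + 1) (rd K N (j + q))) := disj_ann (by omega)
    have hd2 : Disjoint (Ann 0 (rd K N j + 1) (rd K N s))
        (Ann 0 (rd K N n + 1) (rd K N j)) := disj_ann (by omega)
    have e3 : Ev (Ann 0 (rd K N n + 1) (rd K N j)) (D j ∩ EQ K N q D n (j + q) l) := by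
      have h7 := hW.le (by omega : j + q ≤ n) le_rfl
      exact Ev.inter (e1.mono (ann_sub (by omega) le_rfl))
        (e2.mono (ann_sub le_rfl (hW.le (by omega) (by omega))))
    rw [EQ, indep (ev_RE K N s j) e3 hd2, indep e1 e2 hd1, ENNReal.toReal_mul,
      ENNReal.toReal_mul]
    have hp0 : 0 ≤ (P (D j)).toReal := ENNReal.toReal_nonneg
    have h8 : (P (D j)).toReal * (P (EQ K N q D n (j + q) l)).toReal ≤
        (P (D j)).toReal * (C ^ (l.length + 1) * (x⁻¹) ^ (q * l.length) * x ^ (n - (j + q)) *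
          (l.map fun j => (P (D j)).toReal).prod) := mul_le_mul_of_nonneg_left h5 hp0
    refine (mul_le_mul h6 h8 (mul_nonneg hp0 ENNReal.toReal_nonneg) (by positivity)).trans
      (le_of_eq ?_)
    have h7 : x ^ (n - s) = x ^ (j - s) * x ^ (n - (j + q)) * x ^ q := by
      rw [← pow_add, ← pow_add]
      congr 1
      omega
    rw [h7, List.length_cons, List.map_cons, List.prod_cons,
      (by ring : q * (l.length + 1) = q * l.length + q), pow_add (x⁻¹) (q * l.length) q,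
      pow_succ C (l.length + 1)]
    have h9 : x⁻¹ ^ q * x ^ q = 1 := by
      rw [← mul_pow, inv_mul_cancel₀ hx.ne', one_pow]
    linear_combination (-1 : ℝ) * (C ^ (l.length + 1) * C * (x⁻¹) ^ (q * l.length) *
      (x ^ (j - s) * x ^ (n - (j + q))) * ((P (D j)).toReal *
      (l.map fun j => (P (D j)).toReal).prod)) * h9

theorem mem_EQ (hW : Wide K N n) (hw : Function.Injective w) :
    ∀ (l : List ℕ) (s : ℕ), s ≤ n → (∀ j ∈ l, s ≤ j ∧ j + q ≤ n) →
    l.Pairwise (fun i j => i + q ≤ j) → w ∈ RE K N s n → (∀ j ∈ l, w ∈ D j) →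
    w ∈ EQ K N q D n s l := by
  intro l
  induction l with
  | nil => exact fun s _ _ _ h _ => h
  | cons j l ih =>
    intro s hs hl hp h hD
    obtain ⟨h1, h2⟩ := hl j List.mem_cons_self
    obtain ⟨h3, h4⟩ := List.pairwise_cons.1 hp
    refine ⟨RE_restr hw hW le_rfl le_rfl (by omega) h, hD j List.mem_cons_self,
      ih (j + q) h2 (fun i hi => ⟨h3 i hi,
        (hl i (List.mem_cons_of_mem _ hi)).2⟩) h4
        (RE_restr hw hW le_rfl (by omega) le_rfl h) fun i hi => hD i (List.mem_cons_of_mem _ hi)⟩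

/-- **Relative weights** for events which depend on `q` blocks. -/
theorem relq (hW : Wide K N n) (hC : 0 ≤ C) (hx : 0 < x) (hB : Bd K N n C x)
    (hD : ∀ j, j + q ≤ n → Ev (Ann 0 (rd K N (j + q) + 1) (rd K N j)) (D j))
    (J : Finset ℕ) (hJ : ∀ j ∈ J, j + q ≤ n)
    (hg : ∀ i ∈ J, ∀ j ∈ J, i < j → i + q ≤ j) :
    (P (RE K N 0 n ∩ ⋂ j ∈ J, D j)).toReal ≤
      C ^ (J.card + 1) * (x⁻¹) ^ (q * J.card) * x ^ n * ∏ j ∈ J, (P (D j)).toReal := by
  have hs : (J.sort (· ≤ ·)).Pairwise (fun i j => i + q ≤ j) := by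
    have h1 := (Finset.sortedLT_sort J).pairwise
    refine List.Pairwise.imp_of_mem ?_ h1
    intro a b ha hb hab
    exact hg a ((Finset.mem_sort _).1 ha) b ((Finset.mem_sort _).1 hb) hab
  have hl : ∀ j ∈ J.sort (· ≤ ·), 0 ≤ j ∧ j + q ≤ n := fun j hj =>
    ⟨Nat.zero_le j, hJ j ((Finset.mem_sort _).1 hj)⟩
  have h2 := P_EQ hW hC hx hB hD (J.sort (· ≤ ·)) 0 (Nat.zero_le n) hl hs
  rw [Finset.length_sort, Nat.sub_zero] at h2
  have h3 : ((J.sort (· ≤ ·)).map fun j => (P (D j)).toReal).prod = ∏ j ∈ J, (P (D j)).toReal := by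
    rw [Finset.prod, ← Multiset.prod_coe, ← Multiset.map_coe, Finset.sort_eq]
  rw [h3] at h2
  refine le_trans (ENNReal.toReal_mono (measure_ne_top _ _) (measure_mono_ae ?_)) h2
  filter_upwards [ae_label 0] with w hw hE
  have hinj : Function.Injective w := by
    intro u v huv
    by_contra h
    exact hw.2 u v h huv
  refine mem_EQ hW hinj _ 0 (Nat.zero_le n) hl hs hE.1 fun j hj => ?_
  exact Set.mem_iInter₂.1 hE.2 j ((Finset.mem_sort _).1 hj)

/-! ### The zones -/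

/-- The bounds for the runs from `UpB`. -/
private theorem bd_up {δ C : ℝ}
    (h : ∀ m ≤ n, ∀ j ≤ n, gF K m (N / K ^ j) ≤ C * Real.exp (-(α - δ) * m)) :
    Bd K N n C (Real.exp (-(α - δ))) := by
  intro s t hst htn
  rw [← Real.exp_nat_mul]
  refine (h (t - s) (by omega) s (by omega)).trans (le_of_eq ?_)
  rw [mul_comm ((t - s : ℕ) : ℝ)]

/-- **In a zone of `δ n` blocks at least one block is good**, up to a relative probability
`exp (- r n)`, if the bad events are unlikely enough. -/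
theorem zone_good (hK : 1 < K) (hF : F ≤ atTop) (hup : UpB K (gF K) F α) (q : ℕ) (hδ : 0 < δ)
    {r : ℝ} (hr : 0 ≤ r) : ∃ p : ℝ, 0 < p ∧ ∃ n₀ : ℕ, ∀ n ≥ n₀, ∀ᶠ N in F,
      Real.exp (-α * n) / 2 ≤ gF K n N → ∀ (D : ℕ → Set Lab) (T : Finset ℕ),
      (∀ j, j + q ≤ n → Ev (Ann 0 (rd K N (j + q) + 1) (rd K N j)) (D j)) →
      (∀ j ∈ T, j + q ≤ n) → (∀ j ∈ T, P (D j) ≤ ENNReal.ofReal p) →
      (∀ i ∈ T, ∀ j ∈ T, i < j → i + q ≤ j) → δ * n ≤ T.card →
      P (RE K N 0 n ∩ ⋂ j ∈ T, D j) ≤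
        ENNReal.ofReal (Real.exp (-r * n)) * P (RE K N 0 n) := by
  obtain ⟨C, hC, hup⟩ := hup 1 one_pos
  obtain ⟨x, hx⟩ : ∃ x : ℝ, x = Real.exp (-(α - 1)) := ⟨_, rfl⟩
  have hx0 : 0 < x := by rw [hx]; exact Real.exp_pos _
  obtain ⟨p, hp⟩ : ∃ p : ℝ, p = Real.exp (-((r + 2) / δ)) / (C * (x⁻¹) ^ q) := ⟨_, rfl⟩
  have hp0 : 0 < p := by rw [hp]; positivity
  obtain ⟨n0, hn0⟩ := exists_nat_ge (2 * C)
  refine ⟨p, hp0, n0, fun n hn => ?_⟩
  filter_upwards [hup n, hF (wide_ev hK n)] with N h1 hW hlow D T hD hT hp' hsep hcard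
  have hB : Bd K N n C x := by
    rw [hx]
    exact bd_up h1
  have h2 := relq hW (by linarith) hx0 hB hD T hT hsep
  have h3 : ∏ j ∈ T, (P (D j)).toReal ≤ p ^ T.card := by
    refine (Finset.prod_le_prod (fun j _ => ENNReal.toReal_nonneg) (g := fun _ => p)
      fun j hj => ?_).trans (le_of_eq (by rw [Finset.prod_const]))
    exact (ENNReal.le_ofReal_iff_toReal_le (measure_ne_top _ _) hp0.le).1 (hp' j hj)
  have h4 : (P (RE K N 0 n ∩ ⋂ j ∈ T, D j)).toReal ≤
      C * x ^ n * Real.exp (-((r + 2) * n)) := by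
    refine (h2.trans (mul_le_mul_of_nonneg_left h3 (by positivity))).trans ?_
    have h5 : C ^ (T.card + 1) * x⁻¹ ^ (q * T.card) * x ^ n * p ^ T.card =
        C * x ^ n * (C * x⁻¹ ^ q * p) ^ T.card := by
      rw [mul_pow, mul_pow, pow_succ, pow_mul]
      ring
    have h6 : C * x⁻¹ ^ q * p = Real.exp (-((r + 2) / δ)) := by
      rw [hp]
      field_simp
    rw [h5, h6, ← Real.exp_nat_mul]
    refine mul_le_mul_of_nonneg_left (Real.exp_le_exp.2 ?_) (by positivity)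
    have h7 : (r + 2) * n ≤ (r + 2) / δ * T.card := by
      rw [div_mul_eq_mul_div, le_div_iff₀ hδ]
      nlinarith
    linarith
  have h5 : x ^ n = Real.exp (-α * n) * Real.exp n := by
    rw [hx, ← Real.exp_nat_mul, ← Real.exp_add]
    congr 1
    ring
  have h6 : (P (RE K N 0 n)).toReal = gF K n N := by
    rw [P_RE, pow_zero, div_one, Nat.sub_zero]
  have hn1 : 2 * C ≤ Real.exp n := by
    have h7 : (n0 : ℝ) ≤ n := by exact_mod_cast hn
    have h8 := Real.add_one_le_exp (n : ℝ)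
    linarith
  have h7 : (P (RE K N 0 n ∩ ⋂ j ∈ T, D j)).toReal ≤
      Real.exp (-r * n) * (P (RE K N 0 n)).toReal := by
    rw [h6]
    refine h4.trans ?_
    have h8 : C * x ^ n * Real.exp (-((r + 2) * n)) =
        (2 * C) * (Real.exp (-α * n) / 2) * (Real.exp (-r * n) * Real.exp (-n)) := by
      rw [h5]
      have h9 : Real.exp n * Real.exp (-((r + 2) * n)) = Real.exp (-r * n) * Real.exp (-n) := by
        rw [← Real.exp_add, ← Real.exp_add]
        congr 1
        ring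
      linear_combination C * Real.exp (-α * n) * h9
    rw [h8]
    have h10 : (2 * C) * Real.exp (-n) ≤ 1 := by
      rw [Real.exp_neg, ← div_eq_mul_inv, div_le_one (Real.exp_pos _)]
      exact hn1
    have h11 : 0 ≤ Real.exp (-r * n) := (Real.exp_pos _).le
    calc (2 * C) * (Real.exp (-α * n) / 2) * (Real.exp (-r * n) * Real.exp (-n)) =
        (Real.exp (-α * n) / 2) * Real.exp (-r * n) * ((2 * C) * Real.exp (-n)) := by ring
      _ ≤ (Real.exp (-α * n) / 2) * Real.exp (-r * n) * 1 :=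
        mul_le_mul_of_nonneg_left h10 (by positivity)
      _ ≤ Real.exp (-r * n) * gF K n N := by
        rw [mul_one, mul_comm]
        exact mul_le_mul_of_nonneg_left hlow h11
  rw [← ENNReal.ofReal_toReal (measure_ne_top P (RE K N 0 n ∩ ⋂ j ∈ T, D j)),
    ← ENNReal.ofReal_toReal (measure_ne_top P (RE K N 0 n)),
    ← ENNReal.ofReal_mul (Real.exp_pos _).le]
  exact ENNReal.ofReal_le_ofReal h7

/-- The arm event of `t - s` blocks. -/
theorem arm_blocks : ∃ C b : ℝ, 0 < C ∧ 0 < b ∧ ∀ K N : ℝ, 1 < K → ∀ n : ℕ, Wide K N n →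
    ∀ s t : ℕ, s < t → t ≤ n →
    (P (RA K N s t)).toReal ≤ C * Real.exp (-(b * Real.log K) * (t - s : ℕ)) := by
  obtain ⟨c, hc⟩ := rsw_half
  obtain ⟨C, a, hC, ha, harm⟩ := one_arm_up c (hc 1).1
  refine ⟨C * 4 ^ a, a, by positivity, ha, fun K N hK n hW s t hst ht => ?_⟩
  have h1 := hW.lt hst ht
  have h2 := hW.one ht
  have h3 := (harm (1 / 2) (rd K N s) (hc _) 0 (rd K N t + 1) (rd K N s) (by omega) (by omega)
    le_rfl).1
  have h0 : ∀ k : ℕ, (0 : ℝ) < K ^ k := fun k => pow_pos (by linarith) k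
  refine h3.trans ?_
  rw [mul_assoc]
  refine mul_le_mul_of_nonneg_left ?_ hC.le
  have h4 : (rd K N t : ℝ) ≤ N / K ^ t := Int.floor_le _
  have h5 : N / K ^ s < rd K N s + 1 := Int.lt_floor_add_one _
  have h6 : (1 : ℝ) ≤ rd K N t := by exact_mod_cast h2
  have h7 : (3 : ℝ) ≤ rd K N s := by exact_mod_cast (by omega : (3 : ℤ) ≤ rd K N s)
  have hs0 : (0 : ℝ) < rd K N s := by linarith
  have h8 : (((rd K N t + 1 : ℤ) : ℝ) / (rd K N s : ℝ)) ≤ 4 / K ^ (t - s) := by
    push_cast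
    rw [div_le_div_iff₀ hs0 (h0 _)]
    have h9 : N / K ^ t * K ^ (t - s) = N / K ^ s := by
      rw [div_mul_eq_mul_div, div_eq_div_iff (h0 t).ne' (h0 s).ne', mul_assoc, ← pow_add]
      congr 2
      omega
    have h10 := mul_le_mul_of_nonneg_right h4 (h0 (t - s)).le
    have h11 : (1 : ℝ) * K ^ (t - s) ≤ N / K ^ t * K ^ (t - s) :=
      mul_le_mul_of_nonneg_right (h6.trans h4) (h0 _).le
    nlinarith
  have h9 : (0 : ℝ) ≤ ((rd K N t + 1 : ℤ) : ℝ) / (rd K N s : ℝ) := by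
    push_cast
    positivity
  refine (Real.rpow_le_rpow h9 h8 ha.le).trans (le_of_eq ?_)
  rw [div_eq_mul_inv, Real.mul_rpow (by norm_num) (inv_nonneg.2 (h0 _).le)]
  congr 1
  rw [← Real.exp_log (inv_pos.2 (h0 (t - s))), ← Real.exp_mul, Real.log_inv, Real.log_pow]
  congr 1
  ring

/-- **No further crossing cluster in `δ n` blocks**, up to a relative probability
`exp (- r n)`. -/
theorem zone_extra (hK : 1 < K) (hF : F ≤ atTop) (hup : UpB K (gF K) F α) (hδ : 0 < δ) :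
    ∃ r : ℝ, 0 < r ∧ ∃ n₀ : ℕ, ∀ n ≥ n₀, ∀ᶠ N in F,
      Real.exp (-α * n) / 2 ≤ gF K n N → ∀ s t : ℕ, s < t → t ≤ n → δ * n ≤ (t - s : ℕ) →
      P (RE K N 0 n ∩ XE K N s t) ≤
        ENNReal.ofReal (Real.exp (-r * n)) * P (RE K N 0 n) := by
  obtain ⟨C', b, hC', hb, harm⟩ := arm_blocks
  have hlK : 0 < Real.log K := Real.log_pos hK
  obtain ⟨ρ, hρ⟩ : ∃ ρ : ℝ, ρ = b * Real.log K * δ := ⟨_, rfl⟩
  have hρ0 : 0 < ρ := by rw [hρ]; positivity
  obtain ⟨C, hC, hup⟩ := hup (ρ / 4) (by positivity)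
  obtain ⟨x, hx⟩ : ∃ x : ℝ, x = Real.exp (-(α - ρ / 4)) := ⟨_, rfl⟩
  have hx0 : 0 < x := by rw [hx]; exact Real.exp_pos _
  obtain ⟨B, hB⟩ : ∃ B : ℝ, B = 256 * C ^ 3 * C' + 2 * C' := ⟨_, rfl⟩
  have hB0 : 0 < B := by rw [hB]; positivity
  obtain ⟨n0, hn0⟩ := exists_nat_ge (B / (ρ / 4))
  refine ⟨ρ / 4, by positivity, n0, fun n hn => ?_⟩
  filter_upwards [hup n, hF (wide_ev hK n)] with N h1 hW hlow s t hst ht hts
  have hBd : Bd K N n C x := by
    rw [hx]
    exact bd_up h1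
  have hn1 : B ≤ Real.exp (ρ / 4 * n) := by
    have h7 : (n0 : ℝ) ≤ n := by exact_mod_cast hn
    have h8 := Real.add_one_le_exp (ρ / 4 * n : ℝ)
    have h9 := hn0.trans h7
    rw [div_le_iff₀ (by positivity)] at h9
    linarith
  have ha := harm K N hK n hW s t hst ht
  have ha2 : (P (RA K N s t)).toReal ≤ C' * Real.exp (-ρ * n) := by
    refine ha.trans (mul_le_mul_of_nonneg_left (Real.exp_le_exp.2 ?_) hC'.le)
    have h9 := mul_le_mul_of_nonneg_left hts (by positivity : (0 : ℝ) ≤ b * Real.log K)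
    rw [hρ]
    linarith
  have hBC : 256 * C ^ 3 * C' ≤ B := by
    rw [hB]
    linarith
  have hBC2 : 2 * C' ≤ B := by
    rw [hB]
    have : 0 ≤ 256 * C ^ 3 * C' := by positivity
    linarith
  have ha3 : P (RA K N s t) ≤ 1 / 2 := by
    have h8 : (P (RA K N s t)).toReal ≤ 1 / 2 := by
      refine ha2.trans ?_
      have h10 : Real.exp (-ρ * n) ≤ Real.exp (-(ρ / 4 * n)) := by
        refine Real.exp_le_exp.2 ?_
        have : 0 ≤ ρ * n := by positivity
        linarith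
      have h11 : B * Real.exp (-(ρ / 4 * n)) ≤ 1 := by
        rw [Real.exp_neg, ← div_eq_mul_inv, div_le_one (Real.exp_pos _)]
        exact hn1
      have h12 := mul_le_mul_of_nonneg_left h10 hC'.le
      have h13 := mul_le_mul_of_nonneg_right hBC2 (Real.exp_pos (-(ρ / 4 * n))).le
      linarith
    have h9 : ENNReal.ofReal (1 / 2 : ℝ) = 1 / 2 := by
      rw [ENNReal.ofReal_div_of_pos (by norm_num), ENNReal.ofReal_one, ENNReal.ofReal_ofNat]
    rw [← h9]
    exact (ENNReal.le_ofReal_iff_toReal_le (measure_ne_top _ _) (by norm_num)).2 h8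
  refine (P_XE hW hst ht (by linarith) hx0 hBd ha3).trans ?_
  have h6 : (P (RE K N 0 n)).toReal = gF K n N := by
    rw [P_RE, pow_zero, div_one, Nat.sub_zero]
  have h5 : x ^ n = Real.exp (-α * n) * Real.exp (ρ / 4 * n) := by
    rw [hx, ← Real.exp_nat_mul, ← Real.exp_add]
    congr 1
    ring
  rw [← ENNReal.ofReal_toReal (measure_ne_top P (RE K N 0 n)),
    ← ENNReal.ofReal_mul (Real.exp_pos _).le, h6]
  refine ENNReal.ofReal_le_ofReal ?_
  have h7 : 128 * C ^ 3 * x ^ n * (P (RA K N s t)).toReal ≤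
      128 * C ^ 3 * x ^ n * (C' * Real.exp (-ρ * n)) :=
    mul_le_mul_of_nonneg_left ha2 (by positivity)
  refine h7.trans ?_
  have h8 : 128 * C ^ 3 * x ^ n * (C' * Real.exp (-ρ * n)) =
      (256 * C ^ 3 * C') * (Real.exp (-α * n) / 2) * (Real.exp (-(ρ / 4) * n) *
        (Real.exp (-(ρ / 4 * n)) * Real.exp (-(ρ / 4 * n)))) := by
    rw [h5]
    have h9 : Real.exp (ρ / 4 * n) * Real.exp (-ρ * n) = Real.exp (-(ρ / 4) * n) *
        (Real.exp (-(ρ / 4 * n)) * Real.exp (-(ρ / 4 * n))) := by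
      rw [← Real.exp_add, ← Real.exp_add, ← Real.exp_add]
      congr 1
      ring
    linear_combination 128 * C ^ 3 * C' * Real.exp (-α * n) * h9
  rw [h8]
  have h10 : (256 * C ^ 3 * C') * Real.exp (-(ρ / 4 * n)) ≤ 1 := by
    rw [Real.exp_neg, ← div_eq_mul_inv, div_le_one (Real.exp_pos _)]
    exact hBC.trans hn1
  have h11 : Real.exp (-(ρ / 4 * n)) ≤ 1 := Real.exp_le_one_iff.2 (by
    have : 0 ≤ ρ / 4 * n := by positivity
    linarith)
  have h12 : (256 * C ^ 3 * C') * Real.exp (-(ρ / 4 * n)) * Real.exp (-(ρ / 4 * n)) ≤ 1 :=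
    mul_le_one₀ h10 (Real.exp_pos _).le h11
  calc (256 * C ^ 3 * C') * (Real.exp (-α * n) / 2) * (Real.exp (-(ρ / 4) * n) *
        (Real.exp (-(ρ / 4 * n)) * Real.exp (-(ρ / 4 * n)))) =
      (Real.exp (-α * n) / 2) * Real.exp (-(ρ / 4) * n) *
        ((256 * C ^ 3 * C') * Real.exp (-(ρ / 4 * n)) * Real.exp (-(ρ / 4 * n))) := by ring
    _ ≤ (Real.exp (-α * n) / 2) * Real.exp (-(ρ / 4) * n) * 1 :=
      mul_le_mul_of_nonneg_left h12 (by positivity)
    _ ≤ Real.exp (-(ρ / 4) * n) * gF K n N := by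
      rw [mul_one, mul_comm]
      exact mul_le_mul_of_nonneg_left hlow (Real.exp_pos _).le

/-- **Selection of good blocks**: in each of the `M` zones `T i` a fixed good block `j i`, and no
further crossing cluster in the annuli `(s i, t i]`, with probability at least
`P (E_F) / (2 n ^ M)`. -/
theorem sel_fix (hK : 1 < K) (hF : F ≤ atTop) (hup : UpB K (gF K) F α) (q M M' : ℕ) (hq : 1 ≤ q)
    (hδ : 0 < δ) : ∃ p : ℝ, 0 < p ∧ ∃ n₀ : ℕ, ∀ n ≥ n₀, ∀ᶠ N in F,
      Real.exp (-α * n) / 2 ≤ gF K n N →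
      ∀ (D : Fin M → ℕ → Set Lab) (T : Fin M → Finset ℕ) (s t : Fin M' → ℕ),
      (∀ i j, j + q ≤ n → Ev (Ann 0 (rd K N (j + q) + 1) (rd K N j)) (D i j)) →
      (∀ i, ∀ j ∈ T i, j + q ≤ n ∧ P (D i j) ≤ ENNReal.ofReal p) →
      (∀ i, ∀ a ∈ T i, ∀ b ∈ T i, a < b → a + q ≤ b) → (∀ i, δ * n ≤ (T i).card) →
      (∀ i, s i < t i ∧ t i ≤ n ∧ δ * n ≤ (t i - s i : ℕ)) →
      ∃ j : Fin M → ℕ, (∀ i, j i ∈ T i) ∧ gF K n N ≤ 2 * (n : ℝ) ^ M *
        (P (RE K N 0 n ∩ {w | (∀ i, w ∉ D i (j i)) ∧ ∀ i, w ∉ XE K N (s i) (t i)})).toReal := by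
  classical
  obtain ⟨p, hp, n1, h1⟩ := zone_good hK hF hup q hδ (r := 1) zero_le_one
  obtain ⟨r, hr, n2, h2⟩ := zone_extra hK hF hup hδ
  obtain ⟨ρ, hρ⟩ : ∃ ρ : ℝ, ρ = min 1 r := ⟨_, rfl⟩
  have hρ0 : 0 < ρ := by rw [hρ]; exact lt_min one_pos hr
  obtain ⟨n3, hn3⟩ := exists_nat_ge (4 * (M + M' : ℝ) / ρ)
  refine ⟨p, hp, n1 + n2 + n3, fun n hn => ?_⟩
  filter_upwards [h1 n (by omega), h2 n (by omega)] with N g1 g2 hlow D T s t hD hT hsep hcard hst
  replace g1 := g1 hlow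
  replace g2 := g2 hlow
  have h6 : (P (RE K N 0 n)).toReal = gF K n N := by
    rw [P_RE, pow_zero, div_one, Nat.sub_zero]
  obtain ⟨a, haa⟩ : ∃ a : ℝ, a = gF K n N := ⟨_, rfl⟩
  have ha0 : 0 < a := by
    rw [haa]
    exact (by positivity : 0 < Real.exp (-α * n) / 2).trans_le hlow
  have hexp : (M + M' : ℝ) * Real.exp (-ρ * n) ≤ 1 / 4 := by
    have h7 : (n3 : ℝ) ≤ n := by exact_mod_cast (by omega : n3 ≤ n)
    have h8 := Real.add_one_le_exp (ρ * n : ℝ)
    have h9 := hn3.trans h7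
    rw [div_le_iff₀ hρ0] at h9
    rw [neg_mul, Real.exp_neg, ← div_eq_mul_inv, div_le_iff₀ (Real.exp_pos _)]
    linarith
  have hb : ∀ {B : Set Lab} {ρ' : ℝ}, ρ ≤ ρ' →
      P B ≤ ENNReal.ofReal (Real.exp (-ρ' * n)) * P (RE K N 0 n) →
      (P B).toReal ≤ Real.exp (-ρ * n) * a := by
    intro B ρ' hρ' h
    have h7 := ENNReal.toReal_mono
      (ENNReal.mul_ne_top ENNReal.ofReal_ne_top (measure_ne_top P _)) h
    rw [ENNReal.toReal_mul, ENNReal.toReal_ofReal (Real.exp_pos _).le, h6, ← haa] at h7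
    refine h7.trans (mul_le_mul_of_nonneg_right (Real.exp_le_exp.2 ?_) ha0.le)
    have := mul_le_mul_of_nonneg_right hρ' (Nat.cast_nonneg (α := ℝ) n)
    linarith
  have k1 : ∀ i, (P (RE K N 0 n ∩ ⋂ j ∈ T i, D i j)).toReal ≤ Real.exp (-ρ * n) * a := fun i =>
    hb (by rw [hρ]; exact min_le_left _ _) (g1 (D i) (T i) (hD i) (fun j hj => (hT i j hj).1)
      (fun j hj => (hT i j hj).2) (hsep i) (hcard i))
  have k2 : ∀ i, (P (RE K N 0 n ∩ XE K N (s i) (t i))).toReal ≤ Real.exp (-ρ * n) * a := fun i =>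
    hb (by rw [hρ]; exact min_le_right _ _) (g2 (s i) (t i) (hst i).1 (hst i).2.1 (hst i).2.2)
  obtain ⟨G, hG⟩ : ∃ G : (Fin M → ℕ) → Set Lab, ∀ j, G j = RE K N 0 n ∩
      {w | (∀ i, w ∉ D i (j i)) ∧ ∀ i, w ∉ XE K N (s i) (t i)} := ⟨_, fun _ => rfl⟩
  by_contra hcon
  push Not at hcon
  have hcon' : ∀ j ∈ Fintype.piFinset T, 2 * (n : ℝ) ^ M * (P (G j)).toReal < a := by
    intro j hj
    rw [haa, hG]
    exact hcon j fun i => Fintype.mem_piFinset.1 hj i
  have hcov : RE K N 0 n ⊆ (⋃ i ∈ (Finset.univ : Finset (Fin M)),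
      (RE K N 0 n ∩ ⋂ j ∈ T i, D i j)) ∪ ((⋃ i ∈ (Finset.univ : Finset (Fin M')),
      (RE K N 0 n ∩ XE K N (s i) (t i))) ∪ ⋃ j ∈ Fintype.piFinset T, G j) := by
    intro w hw
    by_cases c1 : ∃ i, ∀ j ∈ T i, w ∈ D i j
    · obtain ⟨i, hi⟩ := c1
      exact Or.inl (mem_iUnion₂.2 ⟨i, Finset.mem_univ i, hw, mem_iInter₂.2 hi⟩)
    by_cases c2 : ∃ i, w ∈ XE K N (s i) (t i)
    · obtain ⟨i, hi⟩ := c2
      exact Or.inr (Or.inl (mem_iUnion₂.2 ⟨i, Finset.mem_univ i, hw, hi⟩))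
    push Not at c1 c2
    choose j hj1 hj2 using c1
    refine Or.inr (Or.inr (mem_iUnion₂.2 ⟨j, Fintype.mem_piFinset.2 hj1, ?_⟩))
    rw [hG]
    exact ⟨hw, hj2, c2⟩
  have hsum : a ≤ M * (Real.exp (-ρ * n) * a) + (M' * (Real.exp (-ρ * n) * a) +
      ∑ j ∈ Fintype.piFinset T, (P (G j)).toReal) := by
    have u : ∀ {ι : Type} (I : Finset ι) (B : ι → Set Lab),
        (P (⋃ i ∈ I, B i)).toReal ≤ ∑ i ∈ I, (P (B i)).toReal := by
      intro ι I B
      rw [← ENNReal.toReal_sum fun i _ => measure_ne_top P (B i)]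
      exact ENNReal.toReal_mono (ENNReal.sum_ne_top.2 fun i _ => measure_ne_top P (B i))
        (measure_biUnion_finset_le I B)
    have v : ∀ A B : Set Lab, (P (A ∪ B)).toReal ≤ (P A).toReal + (P B).toReal := by
      intro A B
      rw [← ENNReal.toReal_add (measure_ne_top _ _) (measure_ne_top _ _)]
      exact ENNReal.toReal_mono (ENNReal.add_ne_top.2 ⟨measure_ne_top _ _, measure_ne_top _ _⟩)
        (measure_union_le A B)
    have h7 := ENNReal.toReal_mono (measure_ne_top P _) (measure_mono (μ := P) hcov)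
    rw [h6, ← haa] at h7
    refine h7.trans ((v _ _).trans (add_le_add ?_ ((v _ _).trans (add_le_add ?_ (u _ _)))))
    · refine (u _ _).trans ((Finset.sum_le_sum fun i _ => k1 i).trans (le_of_eq ?_))
      rw [Finset.sum_const, Finset.card_univ, Fintype.card_fin, nsmul_eq_mul]
    · refine (u _ _).trans ((Finset.sum_le_sum fun i _ => k2 i).trans (le_of_eq ?_))
      rw [Finset.sum_const, Finset.card_univ, Fintype.card_fin, nsmul_eq_mul]
  have hs1 : 3 / 4 * a ≤ ∑ j ∈ Fintype.piFinset T, (P (G j)).toReal := by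
    have := mul_le_mul_of_nonneg_right hexp ha0.le
    linarith
  have hcd : ((Fintype.piFinset T).card : ℝ) ≤ (n : ℝ) ^ M := by
    rw [Fintype.card_piFinset]
    push_cast
    refine (Finset.prod_le_prod (fun i _ => Nat.cast_nonneg _) (g := fun _ => (n : ℝ))
      fun i _ => ?_).trans (le_of_eq ?_)
    · have h7 : T i ⊆ Finset.range n := fun j hj => by
        have := (hT i j hj).1
        rw [Finset.mem_range]
        omega
      have h8 := Finset.card_le_card h7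
      rw [Finset.card_range] at h8
      exact_mod_cast h8
    · rw [Finset.prod_const, Finset.card_univ, Fintype.card_fin]
  have hs2 : 2 * (n : ℝ) ^ M * ∑ j ∈ Fintype.piFinset T, (P (G j)).toReal ≤ (n : ℝ) ^ M * a := by
    rw [Finset.mul_sum]
    refine (Finset.sum_le_sum fun j hj => (hcon' j hj).le).trans ?_
    rw [Finset.sum_const, nsmul_eq_mul]
    exact mul_le_mul_of_nonneg_right hcd ha0.le
  have hn0 : 0 ≤ (n : ℝ) ^ M := by positivity
  have hs3 := mul_le_mul_of_nonneg_left hs1 (by positivity : 0 ≤ 2 * (n : ℝ) ^ M)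
  have hs4 : (n : ℝ) ^ M * a ≤ 0 := by nlinarith
  have hn' : (n : ℝ) ^ M = 0 := by
    by_contra h
    have : 0 < (n : ℝ) ^ M := lt_of_le_of_ne hn0 (Ne.symm h)
    have := mul_pos this ha0
    linarith
  have hs5 : ((Fintype.piFinset T).card : ℝ) = 0 :=
    le_antisymm (hcd.trans hn'.le) (Nat.cast_nonneg _)
  have hs6 : Fintype.piFinset T = ∅ := by
    rw [← Finset.card_eq_zero]
    exact_mod_cast hs5
  rw [hs6, Finset.sum_empty] at hs1
  linarith

end Pool.Agent.MSTLim
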