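import Mathlib
import Pool.Agent.MSTLim.EndP

/-!
# The maximal interval of blocks: fixed good blocks at the two ends

`Mx K N n β`: the interval of all `n` blocks maximizes `P (E_F) exp (β (t - s))` among its
subintervals.  Then the blocks near the two ends cost only a bounded factor, so a bad event of
finitely many blocks near an end is unlikely given `E_F`, if its probability is small.

* `max_int`: for all `n₀` there is `n ≥ n₀` with `Mx K N n (α + e)` frequently in `F`;
* `Mx.low`: `exp (- β n) ≤ gF K n N`;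
* `Mx.outer`, `Mx.inner`: bad events in the `i` outermost (innermost) blocks;
* `Mx.extra`: no further crossing cluster between the two ends;
* `mx_ends`: all three in one statement.
-/

namespace Pool.Agent.MSTLim

open MeasureTheory Set Filter Topology
open Pool.Agent.TriPerc Pool.Agent.MST
open scoped ENNReal

/-- The interval of all `n` blocks is maximal. -/
def Mx (K N : ℝ) (n : ℕ) (β : ℝ) : Prop :=
  ∀ s t : ℕ, s ≤ t → t ≤ n →
    gF K (t - s) (N / K ^ s) ≤ Real.exp (β * (n - (t - s : ℕ))) * gF K n N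

variable {K N α β e : ℝ} {n i s t : ℕ} {F : Filter ℝ} {D : Set Lab}

theorem gF_zero (K N : ℝ) : gF K 0 N = 1 := by
  unfold gF
  rw [if_pos rfl]

theorem Mx.low (h : Mx K N n β) : Real.exp (-β * n) ≤ gF K n N := by
  have h1 := h 0 0 le_rfl (Nat.zero_le n)
  rw [Nat.sub_zero, gF_zero, Nat.cast_zero, sub_zero] at h1
  rw [neg_mul, Real.exp_neg, inv_eq_one_div, div_le_iff₀ (Real.exp_pos _)]
  linarith

private theorem tendsto_pow_div (hF : Tendsto (fun N => N / K) F F) (j : ℕ) :
    Tendsto (fun N => N / K ^ j) F F := by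
  induction j with
  | zero => simpa only [pow_zero, div_one] using! tendsto_id
  | succ j ih =>
    refine (hF.comp ih).congr fun N => ?_
    simp only [Function.comp]
    rw [div_div, pow_succ]

/-- **Maximal intervals exist.** -/
theorem max_int (hF : Good K F) (hup : UpB K (gF K) F α) (hlo : LoB (gF K) F α) (he : 0 < e)
    (n₀ : ℕ) : ∃ n ≥ n₀, ∃ᶠ N in F, Mx K N n (α + e) := by
  classical
  obtain ⟨C, hC, hup⟩ := hup e he
  have hlogC : 0 ≤ Real.log (2 * C) := Real.log_nonneg (by linarith)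
  obtain ⟨n1, hn1⟩ := exists_nat_ge ((Real.log (2 * C) + 2 * e * n₀) / e + 1)
  have hfr := (hlo n1).and_eventually (hup n1)
  have h1 : ∃ᶠ N in F, ∃ st : Fin (n1 + 1) × Fin (n1 + 1),
      n₀ ≤ (st.2 : ℕ) - (st.1 : ℕ) ∧
      Mx K (N / K ^ (st.1 : ℕ)) ((st.2 : ℕ) - (st.1 : ℕ)) (α + e) := by
    refine hfr.mono fun N hN => ?_
    obtain ⟨hN1, hN2⟩ := hN
    obtain ⟨f, hf⟩ : ∃ f : ℕ × ℕ → ℝ, ∀ st, f st =
        gF K (st.2 - st.1) (N / K ^ st.1) * Real.exp ((α + e) * (st.2 - st.1 : ℕ)) :=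
      ⟨_, fun _ => rfl⟩
    obtain ⟨I, hI⟩ : ∃ I : Finset (ℕ × ℕ), I =
        ((Finset.range (n1 + 1)) ×ˢ (Finset.range (n1 + 1))).filter fun st => st.1 ≤ st.2 :=
      ⟨_, rfl⟩
    have hmem : ∀ {a b : ℕ}, a ≤ b → b ≤ n1 → (a, b) ∈ I := by
      intro a b hab hb
      rw [hI, Finset.mem_filter, Finset.mem_product, Finset.mem_range, Finset.mem_range]
      exact ⟨⟨by dsimp only; omega, by dsimp only; omega⟩, hab⟩
    obtain ⟨⟨s, t⟩, hst, hmax⟩ := I.exists_max_image f ⟨(0, n1), hmem (Nat.zero_le _) le_rfl⟩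
    rw [hI, Finset.mem_filter, Finset.mem_product, Finset.mem_range, Finset.mem_range] at hst
    obtain ⟨⟨hs, ht⟩, hst⟩ := hst
    dsimp only at hs ht hst
    have hm1 := hmax (0, n1) (hmem (Nat.zero_le _) le_rfl)
    rw [hf, hf] at hm1
    dsimp only at hm1
    rw [Nat.sub_zero, pow_zero, div_one] at hm1
    have hlen : n₀ ≤ t - s := by
      have h2 := hN2 (t - s) (by omega) s (by omega)
      have h3 : Real.exp (e * n1) / 2 ≤ C * Real.exp (2 * e * (t - s : ℕ)) := by
        calc Real.exp (e * n1) / 2 =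
            (Real.exp (-α * n1) / 2) * Real.exp ((α + e) * n1) := by
              rw [div_mul_eq_mul_div, ← Real.exp_add]
              congr 2
              ring
          _ ≤ gF K n1 N * Real.exp ((α + e) * n1) :=
            mul_le_mul_of_nonneg_right hN1 (Real.exp_pos _).le
          _ ≤ gF K (t - s) (N / K ^ s) * Real.exp ((α + e) * (t - s : ℕ)) := hm1
          _ ≤ (C * Real.exp (-(α - e) * (t - s : ℕ))) * Real.exp ((α + e) * (t - s : ℕ)) :=
            mul_le_mul_of_nonneg_right h2 (Real.exp_pos _).le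
          _ = C * Real.exp (2 * e * (t - s : ℕ)) := by
            rw [mul_assoc, ← Real.exp_add]
            congr 2
            ring
      have h4 : Real.exp (e * n1) ≤ Real.exp (Real.log (2 * C) + 2 * e * (t - s : ℕ)) := by
        rw [Real.exp_add, Real.exp_log (by linarith)]
        linarith
      have h5 := Real.exp_le_exp.1 h4
      rw [div_add_one he.ne', div_le_iff₀ he] at hn1
      have h6 : (n₀ : ℝ) ≤ (t - s : ℕ) := by
        by_contra hcon
        push Not at hcon
        nlinarith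
      exact_mod_cast h6
    refine ⟨(⟨s, hs⟩, ⟨t, ht⟩), hlen, ?_⟩
    dsimp only
    intro a b hab hb
    have hm2 := hmax (s + a, s + b) (hmem (by omega) (by omega))
    rw [hf, hf] at hm2
    dsimp only at hm2
    rw [(by omega : s + b - (s + a) = b - a)] at hm2
    rw [div_div, ← pow_add]
    have h7 : Real.exp ((α + e) * ((t - s : ℕ) - (b - a : ℕ))) =
        Real.exp ((α + e) * (t - s : ℕ)) * Real.exp (-((α + e) * (b - a : ℕ))) := by
      rw [← Real.exp_add]
      congr 1
      ring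
    rw [h7]
    have h8 := mul_le_mul_of_nonneg_right hm2 (Real.exp_pos (-((α + e) * (b - a : ℕ)))).le
    have h9 : Real.exp ((α + e) * (b - a : ℕ)) * Real.exp (-((α + e) * (b - a : ℕ))) = 1 := by
      rw [← Real.exp_add, add_neg_cancel, Real.exp_zero]
    calc gF K (b - a) (N / K ^ (s + a)) = gF K (b - a) (N / K ^ (s + a)) *
          (Real.exp ((α + e) * (b - a : ℕ)) * Real.exp (-((α + e) * (b - a : ℕ)))) := by
            rw [h9, mul_one]
      _ = gF K (b - a) (N / K ^ (s + a)) * Real.exp ((α + e) * (b - a : ℕ)) *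
          Real.exp (-((α + e) * (b - a : ℕ))) := by ring
      _ ≤ gF K (t - s) (N / K ^ s) * Real.exp ((α + e) * (t - s : ℕ)) *
          Real.exp (-((α + e) * (b - a : ℕ))) := h8
      _ = _ := by ring
  have h2 : ∃ st : Fin (n1 + 1) × Fin (n1 + 1), ∃ᶠ N in F,
      n₀ ≤ (st.2 : ℕ) - (st.1 : ℕ) ∧
      Mx K (N / K ^ (st.1 : ℕ)) ((st.2 : ℕ) - (st.1 : ℕ)) (α + e) := by
    by_contra hcon
    push Not at hcon
    refine h1 ?_
    have h3 := Filter.eventually_all.2 hcon
    exact h3.mono fun N hN => by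
      push Not
      intro st h
      have := hN st
      tauto
  obtain ⟨⟨s, t⟩, hst⟩ := h2
  dsimp only at hst
  obtain ⟨N, hN, -⟩ := hst.exists
  refine ⟨(t : ℕ) - (s : ℕ), hN, ?_⟩
  exact (tendsto_pow_div hF.stable s).frequently (hst.mono fun N hN => hN.2)

/-- A bad event in the `i` outermost blocks. -/
theorem Mx.outer (h : Mx K N n β) (hW : Wide K N n) (hi : i ≤ n)
    (hD : Ev (Ann 0 (rd K N i + 1) (rd K N 0)) D) :
    P (RE K N 0 n ∩ D) ≤ ENNReal.ofReal (Real.exp (β * i)) * P D * P (RE K N 0 n) := by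
  have e1 := ev_RE K N i n
  have hd : Disjoint (Ann 0 (rd K N i + 1) (rd K N 0)) (Ann 0 (rd K N n + 1) (rd K N i)) := by
    rw [Set.disjoint_left]
    rintro v ⟨k1, -⟩ ⟨-, k2⟩
    omega
  have h1 : P (RE K N 0 n ∩ D) ≤ P (D ∩ RE K N i n) := by
    refine measure_mono_ae ?_
    filter_upwards [ae_label 0] with w hw hE
    have hinj : Function.Injective w := by
      intro u v huv
      by_contra h
      exact hw.2 u v h huv
    exact ⟨hE.2, RE_restr hinj hW le_rfl (Nat.zero_le i) le_rfl hE.1⟩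
  rw [indep hD e1 hd] at h1
  have h2 := h i n hi le_rfl
  rw [← P_RE] at h2
  have h3 : (P (RE K N 0 n)).toReal = gF K n N := by
    rw [P_RE, pow_zero, div_one, Nat.sub_zero]
  rw [← h3, (by push_cast [hi]; ring : β * (n - (n - i : ℕ)) = β * i)] at h2
  have h4 : P (RE K N i n) ≤ ENNReal.ofReal (Real.exp (β * i)) * P (RE K N 0 n) := by
    rw [← ENNReal.ofReal_toReal (measure_ne_top P (RE K N i n)),
      ← ENNReal.ofReal_toReal (measure_ne_top P (RE K N 0 n)),
      ← ENNReal.ofReal_mul (Real.exp_pos _).le]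
    exact ENNReal.ofReal_le_ofReal h2
  refine h1.trans ((mul_le_mul' le_rfl h4).trans (le_of_eq ?_))
  ring

/-- A bad event in the `i` innermost blocks. -/
theorem Mx.inner (h : Mx K N n β) (hW : Wide K N n) (hi : i ≤ n)
    (hD : Ev (Ann 0 (rd K N n + 1) (rd K N (n - i))) D) :
    P (RE K N 0 n ∩ D) ≤ ENNReal.ofReal (Real.exp (β * i)) * P D * P (RE K N 0 n) := by
  have e1 := ev_RE K N 0 (n - i)
  have hd : Disjoint (Ann 0 (rd K N (n - i) + 1) (rd K N 0))
      (Ann 0 (rd K N n + 1) (rd K N (n - i))) := by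
    rw [Set.disjoint_left]
    rintro v ⟨k1, -⟩ ⟨-, k2⟩
    omega
  have h1 : P (RE K N 0 n ∩ D) ≤ P (RE K N 0 (n - i) ∩ D) := by
    refine measure_mono_ae ?_
    filter_upwards [ae_label 0] with w hw hE
    have hinj : Function.Injective w := by
      intro u v huv
      by_contra h
      exact hw.2 u v h huv
    exact ⟨RE_restr hinj hW le_rfl le_rfl (Nat.sub_le n i) hE.1, hE.2⟩
  rw [indep e1 hD hd] at h1
  have h2 := h 0 (n - i) (Nat.zero_le _) (Nat.sub_le n i)
  rw [← P_RE] at h2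
  have h3 : (P (RE K N 0 n)).toReal = gF K n N := by
    rw [P_RE, pow_zero, div_one, Nat.sub_zero]
  rw [← h3, Nat.sub_zero, (by push_cast [hi]; ring : β * (n - (n - i : ℕ)) = β * i)] at h2
  have h4 : P (RE K N 0 (n - i)) ≤ ENNReal.ofReal (Real.exp (β * i)) * P (RE K N 0 n) := by
    rw [← ENNReal.ofReal_toReal (measure_ne_top P (RE K N 0 (n - i))),
      ← ENNReal.ofReal_toReal (measure_ne_top P (RE K N 0 n)),
      ← ENNReal.ofReal_mul (Real.exp_pos _).le]
    exact ENNReal.ofReal_le_ofReal h2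
  refine h1.trans ((mul_le_mul' h4 le_rfl).trans (le_of_eq ?_))
  ring

/-- A further crossing cluster in the blocks `s + 1, …, t`. -/
theorem Mx.extra (h : Mx K N n β) (hW : Wide K N n) (hst : s < t) (ht : t ≤ n)
    (ha : P (RA K N s t) ≤ 1 / 2) :
    P (RE K N 0 n ∩ XE K N s t) ≤
      ENNReal.ofReal (128 * Real.exp (β * (n - (t - s : ℕ)))) * P (RA K N s t) *
        P (RE K N 0 n) := by
  have h1 := hW.lt hst ht
  have hx1 : P (XE K N s t) ≤ 128 * P (RA K N s t) * P (RE K N s t) := by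
    have := ef_extra (1 / 2) (m := rd K N t + 1) (n := rd K N s) (by omega) ha
    unfold XE RA RE
    rw [if_pos hst]
    exact this
  have h2 := h s t hst.le ht
  rw [← P_RE] at h2
  have h3 : (P (RE K N 0 n)).toReal = gF K n N := by
    rw [P_RE, pow_zero, div_one, Nat.sub_zero]
  rw [← h3] at h2
  have h4 : P (RE K N s t) ≤ ENNReal.ofReal (Real.exp (β * (n - (t - s : ℕ)))) *
      P (RE K N 0 n) := by
    rw [← ENNReal.ofReal_toReal (measure_ne_top P (RE K N s t)),
      ← ENNReal.ofReal_toReal (measure_ne_top P (RE K N 0 n)),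
      ← ENNReal.ofReal_mul (Real.exp_pos _).le]
    exact ENNReal.ofReal_le_ofReal h2
  refine (measure_mono inter_subset_right).trans (hx1.trans
    ((mul_le_mul' le_rfl h4).trans (le_of_eq ?_)))
  rw [ENNReal.ofReal_mul (by norm_num), ENNReal.ofReal_ofNat]
  ring

/-- **Both ends**: bad events of small probability in the `q` outermost or innermost blocks, and
further crossing clusters in all but at most `2 q` blocks, have a small relative probability. -/
theorem mx_ends (hK : 1 < K) (hβ : 0 ≤ β) (q : ℕ) {δ : ℝ} (hδ : 0 < δ) :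
    ∃ p : ℝ, 0 < p ∧ ∃ n₀ : ℕ, ∀ n ≥ n₀, ∀ N : ℝ, Wide K N n → Mx K N n β →
      (∀ i ≤ q, ∀ D, Ev (Ann 0 (rd K N i + 1) (rd K N 0)) D → P D ≤ ENNReal.ofReal p →
        P (RE K N 0 n ∩ D) ≤ ENNReal.ofReal δ * P (RE K N 0 n)) ∧
      (∀ i ≤ q, ∀ D, Ev (Ann 0 (rd K N n + 1) (rd K N (n - i))) D → P D ≤ ENNReal.ofReal p →
        P (RE K N 0 n ∩ D) ≤ ENNReal.ofReal δ * P (RE K N 0 n)) ∧
      ∀ s ≤ q, ∀ t ≤ n, n - q ≤ t →
        P (RE K N 0 n ∩ XE K N s t) ≤ ENNReal.ofReal δ * P (RE K N 0 n) := by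
  obtain ⟨C, b, hC, hb, harm⟩ := arm_blocks
  have hlK : 0 < Real.log K := Real.log_pos hK
  obtain ⟨p, hp⟩ : ∃ p : ℝ, p = Real.exp (-(β * q)) * δ := ⟨_, rfl⟩
  have hp0 : 0 < p := by rw [hp]; positivity
  have hpq : ∀ i ≤ q, Real.exp (β * i) * p ≤ δ := by
    intro i hi
    have h1 : Real.exp (β * i) ≤ Real.exp (β * q) :=
      Real.exp_le_exp.2 (mul_le_mul_of_nonneg_left (by exact_mod_cast hi) hβ)
    have h2 : Real.exp (β * q) * Real.exp (-(β * q)) = 1 := by
      rw [← Real.exp_add, add_neg_cancel, Real.exp_zero]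
    rw [hp]
    calc Real.exp (β * i) * (Real.exp (-(β * q)) * δ) ≤
        Real.exp (β * q) * (Real.exp (-(β * q)) * δ) :=
          mul_le_mul_of_nonneg_right h1 (by positivity)
      _ = δ := by rw [← mul_assoc, h2, one_mul]
  obtain ⟨n0, hn0⟩ : ∃ n0 : ℕ, ∀ n ≥ n0,
      128 * Real.exp (β * (2 * q)) * (C * Real.exp (-(b * Real.log K) * (n - 2 * q))) ≤ δ ∧
      C * Real.exp (-(b * Real.log K) * (n - 2 * q)) ≤ 1 / 2 := by
    have hl : Tendsto (fun n : ℕ => C * Real.exp (-(b * Real.log K) * (n - 2 * q))) atTop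
        (𝓝 (C * 0)) := by
      refine Tendsto.const_mul C (Real.tendsto_exp_atBot.comp ?_)
      refine Tendsto.const_mul_atTop_of_neg (by
        have := mul_pos hb hlK
        linarith) ?_
      exact tendsto_atTop_add_const_right _ _ tendsto_natCast_atTop_atTop
    rw [mul_zero] at hl
    have hl2 := hl.const_mul (128 * Real.exp (β * (2 * q)))
    rw [mul_zero] at hl2
    have h1 := (hl2.eventually_lt_const hδ).and
      (hl.eventually_lt_const (by norm_num : (0 : ℝ) < 1 / 2))
    rw [eventually_atTop] at h1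
    obtain ⟨n0, hn0⟩ := h1
    exact ⟨n0, fun n hn => ⟨(hn0 n hn).1.le, (hn0 n hn).2.le⟩⟩
  refine ⟨p, hp0, n0 + 2 * q + 1, fun n hn N hW hM => ⟨?_, ?_, ?_⟩⟩
  · intro i hi D hD hPD
    refine (hM.outer hW (by omega) hD).trans (mul_le_mul' ?_ le_rfl)
    refine (mul_le_mul' le_rfl hPD).trans ?_
    rw [← ENNReal.ofReal_mul (Real.exp_pos _).le]
    exact ENNReal.ofReal_le_ofReal (hpq i hi)
  · intro i hi D hD hPD
    refine (hM.inner hW (by omega) hD).trans (mul_le_mul' ?_ le_rfl)
    refine (mul_le_mul' le_rfl hPD).trans ?_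
    rw [← ENNReal.ofReal_mul (Real.exp_pos _).le]
    exact ENNReal.ofReal_le_ofReal (hpq i hi)
  · intro s hs t ht hnt
    obtain ⟨h1, h2⟩ := hn0 n (by omega)
    have hst : s < t := by omega
    have ha := harm K N hK n hW s t hst ht
    have hts : (n - 2 * q : ℝ) ≤ (t - s : ℕ) := by
      have h3 : n ≤ (t - s) + 2 * q := by omega
      have h4 : (n : ℝ) ≤ ((t - s : ℕ) : ℝ) + 2 * q := by exact_mod_cast h3
      linarith
    have ha2 : (P (RA K N s t)).toReal ≤ C * Real.exp (-(b * Real.log K) * (n - 2 * q)) := by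
      refine ha.trans (mul_le_mul_of_nonneg_left (Real.exp_le_exp.2 ?_) hC.le)
      have := mul_le_mul_of_nonneg_left hts (mul_pos hb hlK).le
      linarith
    have ha3 : P (RA K N s t) ≤ 1 / 2 := by
      have h9 : ENNReal.ofReal (1 / 2 : ℝ) = 1 / 2 := by
        rw [ENNReal.ofReal_div_of_pos (by norm_num), ENNReal.ofReal_one, ENNReal.ofReal_ofNat]
      rw [← h9]
      exact (ENNReal.le_ofReal_iff_toReal_le (measure_ne_top _ _) (by norm_num)).2 (ha2.trans h2)
    refine (hM.extra hW hst ht ha3).trans (mul_le_mul' ?_ le_rfl)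
    rw [← ENNReal.ofReal_toReal (measure_ne_top P (RA K N s t)),
      ← ENNReal.ofReal_mul (by positivity)]
    refine ENNReal.ofReal_le_ofReal (le_trans ?_ h1)
    refine mul_le_mul (mul_le_mul_of_nonneg_left (Real.exp_le_exp.2
      (mul_le_mul_of_nonneg_left ?_ hβ)) (by norm_num)) ha2 ENNReal.toReal_nonneg (by positivity)
    linarith

end Pool.Agent.MSTLim
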