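import Pool.Agent.MST.EFw
import Pool.Agent.MSTLim.EndP

/-!
# Events of a window of blocks

* `win_rel`: an event `E` which depends only on the blocks `s + 1, …, t` has the relative
  probability at most `exp (η n + α (t - s)) P E`, for every `η > 0` and `n` large.
* `win_sel`: finitely many windows, each of at least `δ n` blocks, with events of probability at
  most `exp (- (α + 1) (t - s))`, and finitely many annuli of at least `δ n` blocks: all the events
  fail and all the annuli are clean, up to a relative probability `exp (- r n)`.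
-/

namespace Pool.Agent.MSTLim

open MeasureTheory Set Filter Topology
open Pool.Agent.TriPerc Pool.Agent.MST
open scoped ENNReal

variable {K N C x δ α η : ℝ} {s t n : ℕ} {w : Lab} {F : Filter ℝ}

/-- Outside `XE` the annulus is clean. -/
theorem clean_of (h : w ∉ XE K N s t) : Clean (1 / 2) (rd K N t + 1) (rd K N s) w :=
  fun _ hz _ hy => no_xe h hz hy

/-- **An event of the blocks `s + 1, …, t`**. -/
theorem win_rel (hK : 1 < K) (hF : F ≤ atTop) (hup : UpB K (gF K) F α) (hη : 0 < η) :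
    ∃ n₀ : ℕ, ∀ n ≥ n₀, ∀ᶠ N in F, Real.exp (-α * n) / 2 ≤ gF K n N → ∀ s t : ℕ, s ≤ t → t ≤ n →
      ∀ E, Ev (Ann 0 (rd K N t + 1) (rd K N s)) E →
        P (RE K N 0 n ∩ E) ≤
          ENNReal.ofReal (Real.exp (η * n + α * (t - s : ℕ))) * P E * P (RE K N 0 n) := by
  obtain ⟨C, hC, hup⟩ := hup (η / 2) (by positivity)
  obtain ⟨n0, hn0⟩ := exists_nat_ge (2 * C ^ 2 / (η / 2))
  refine ⟨n0, fun n hn => ?_⟩
  filter_upwards [hup n, hF (wide_ev hK n)] with N h1 hW hlow s t hst ht E hE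
  have e1 := ev_RE K N 0 s
  have e3 := ev_RE K N t n
  have hd1 : Disjoint (Ann 0 (rd K N t + 1) (rd K N s)) (Ann 0 (rd K N n + 1) (rd K N t)) := by
    rw [Set.disjoint_left]
    rintro v ⟨k1, -⟩ ⟨-, k2⟩
    omega
  have hd2 : Disjoint (Ann 0 (rd K N s + 1) (rd K N 0)) (Ann 0 (rd K N n + 1) (rd K N s)) := by
    rw [Set.disjoint_left]
    rintro v ⟨k1, -⟩ ⟨-, k2⟩
    omega
  have h2 := hW.le ht le_rfl
  have h2' := hW.le hst ht
  have e4 : Ev (Ann 0 (rd K N n + 1) (rd K N s)) (E ∩ RE K N t n) :=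
    Ev.inter (hE.mono (ann_sub (by omega) le_rfl)) (e3.mono (ann_sub le_rfl (by omega)))
  have hP : P (RE K N 0 n ∩ E) ≤ P (RE K N 0 s ∩ (E ∩ RE K N t n)) := by
    refine measure_mono_ae ?_
    filter_upwards [ae_label 0] with w hw hE
    have hinj : Function.Injective w := by
      intro u v huv
      by_contra h
      exact hw.2 u v h huv
    exact ⟨RE_restr hinj hW le_rfl le_rfl (by omega) hE.1, hE.2,
      RE_restr hinj hW le_rfl (Nat.zero_le t) le_rfl hE.1⟩
  rw [indep e1 e4 hd2, indep hE e3 hd1] at hP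
  have g1 := h1 (s - 0) (by omega) 0 (by omega)
  have g3 := h1 (n - t) (by omega) t ht
  rw [← P_RE] at g1 g3
  have hn1 : 2 * C ^ 2 ≤ Real.exp (η / 2 * n) := by
    have h7 : (n0 : ℝ) ≤ n := by exact_mod_cast hn
    have h8 := Real.add_one_le_exp (η / 2 * n : ℝ)
    have h9 := hn0.trans h7
    rw [div_le_iff₀ (by positivity)] at h9
    linarith
  have h6 : (P (RE K N 0 n)).toReal = gF K n N := by
    rw [P_RE, pow_zero, div_one, Nat.sub_zero]
  have hE0 : 0 ≤ (P E).toReal := ENNReal.toReal_nonneg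
  rw [← ENNReal.ofReal_toReal (measure_ne_top P (RE K N 0 n ∩ E)),
    ← ENNReal.ofReal_toReal (measure_ne_top P (RE K N 0 n)),
    ← ENNReal.ofReal_toReal (measure_ne_top P E), ← ENNReal.ofReal_mul (Real.exp_pos _).le,
    ← ENNReal.ofReal_mul (by positivity)]
  refine ENNReal.ofReal_le_ofReal ?_
  have hP' := ENNReal.toReal_mono (by finiteness) hP
  rw [ENNReal.toReal_mul, ENNReal.toReal_mul] at hP'
  refine hP'.trans ?_
  rw [h6]
  have hst' : ((s - 0 : ℕ) : ℝ) + (n - t : ℕ) = n - (t - s : ℕ) := by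
    have : (s - 0) + (n - t) + (t - s) = n := by omega
    have h := congrArg (Nat.cast : ℕ → ℝ) this
    push_cast at h ⊢
    linarith
  have hts : ((t - s : ℕ) : ℝ) ≤ n := by exact_mod_cast (by omega : t - s ≤ n)
  have key : C * Real.exp (-(α - η / 2) * (s - 0 : ℕ)) *
      (C * Real.exp (-(α - η / 2) * (n - t : ℕ))) ≤
      Real.exp (η * n + α * (t - s : ℕ)) * (Real.exp (-α * n) / 2) := by
    have h8 : C * Real.exp (-(α - η / 2) * (s - 0 : ℕ)) *
        (C * Real.exp (-(α - η / 2) * (n - t : ℕ))) =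
        C ^ 2 * Real.exp (-(α - η / 2) * (n - (t - s : ℕ))) := by
      rw [← hst', mul_add, Real.exp_add]
      ring
    rw [h8]
    have h9 : Real.exp (-(α - η / 2) * (n - (t - s : ℕ))) ≤
        Real.exp (-α * n) * Real.exp (α * (t - s : ℕ)) * Real.exp (η / 2 * n) := by
      rw [← Real.exp_add, ← Real.exp_add]
      refine Real.exp_le_exp.2 ?_
      have : 0 ≤ η / 2 * (t - s : ℕ) := by positivity
      linarith
    have h10 : Real.exp (η * n + α * (t - s : ℕ)) =
        Real.exp (η / 2 * n) * Real.exp (η / 2 * n) * Real.exp (α * (t - s : ℕ)) := by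
      rw [← Real.exp_add, ← Real.exp_add]
      congr 1
      ring
    rw [h10]
    have h11 : C ^ 2 ≤ Real.exp (η / 2 * n) / 2 := by linarith
    calc C ^ 2 * Real.exp (-(α - η / 2) * (n - (t - s : ℕ))) ≤
        (Real.exp (η / 2 * n) / 2) *
          (Real.exp (-α * n) * Real.exp (α * (t - s : ℕ)) * Real.exp (η / 2 * n)) :=
          mul_le_mul h11 h9 (Real.exp_pos _).le (by positivity)
      _ = _ := by ring
  calc (P (RE K N 0 s)).toReal * ((P E).toReal * (P (RE K N t n)).toReal) =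
      (P (RE K N 0 s)).toReal * (P (RE K N t n)).toReal * (P E).toReal := by ring
    _ ≤ (C * Real.exp (-(α - η / 2) * (s - 0 : ℕ))) *
        (C * Real.exp (-(α - η / 2) * (n - t : ℕ))) * (P E).toReal := by
        refine mul_le_mul_of_nonneg_right (mul_le_mul g1 g3 ENNReal.toReal_nonneg
          (by positivity)) hE0
    _ ≤ Real.exp (η * n + α * (t - s : ℕ)) * (Real.exp (-α * n) / 2) * (P E).toReal :=
        mul_le_mul_of_nonneg_right key hE0
    _ ≤ Real.exp (η * n + α * (t - s : ℕ)) * (gF K n N) * (P E).toReal :=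
        mul_le_mul_of_nonneg_right (mul_le_mul_of_nonneg_left hlow (Real.exp_pos _).le) hE0
    _ = _ := by ring

/-- **Finitely many windows and clean annuli.** -/
theorem win_sel (hK : 1 < K) (hF : F ≤ atTop) (hup : UpB K (gF K) F α) (hδ : 0 < δ) (M M' : ℕ) :
    ∃ r : ℝ, 0 < r ∧ ∃ n₀ : ℕ, ∀ n ≥ n₀, ∀ᶠ N in F, Real.exp (-α * n) / 2 ≤ gF K n N →
      ∀ (E : Fin M → Set Lab) (a b : Fin M → ℕ) (s t : Fin M' → ℕ),
      (∀ i, a i ≤ b i ∧ b i ≤ n ∧ δ * n ≤ (b i - a i : ℕ) ∧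
        Ev (Ann 0 (rd K N (b i) + 1) (rd K N (a i))) (E i) ∧
        P (E i) ≤ ENNReal.ofReal (Real.exp (-(α + 1) * (b i - a i : ℕ)))) →
      (∀ i, s i < t i ∧ t i ≤ n ∧ δ * n ≤ (t i - s i : ℕ)) →
      P (RE K N 0 n ∩ ((⋃ i, E i) ∪ ⋃ i, XE K N (s i) (t i))) ≤
        ENNReal.ofReal (Real.exp (-r * n)) * P (RE K N 0 n) := by
  classical
  obtain ⟨n1, h1⟩ := win_rel hK hF hup (η := δ / 2) (by positivity)
  obtain ⟨r, hr, n2, h2⟩ := zone_extra hK hF hup hδ
  obtain ⟨ρ, hρ⟩ : ∃ ρ : ℝ, ρ = min (δ / 2) r := ⟨_, rfl⟩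
  have hρ0 : 0 < ρ := by rw [hρ]; exact lt_min (by positivity) hr
  obtain ⟨n3, hn3⟩ := exists_nat_ge ((M + M' : ℝ) / (ρ / 2))
  refine ⟨ρ / 2, by positivity, n1 + n2 + n3, fun n hn => ?_⟩
  filter_upwards [h1 n (by omega), h2 n (by omega)] with N g1 g2 hlow E a b s t hE hst
  replace g1 := g1 hlow
  replace g2 := g2 hlow
  have hMn : (M + M' : ℝ) ≤ Real.exp (ρ / 2 * n) := by
    have h7 : (n3 : ℝ) ≤ n := by exact_mod_cast (by omega : n3 ≤ n)
    have h8 := Real.add_one_le_exp (ρ / 2 * n : ℝ)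
    have h9 := hn3.trans h7
    rw [div_le_iff₀ (by positivity)] at h9
    linarith
  have k1 : ∀ i, P (RE K N 0 n ∩ E i) ≤
      ENNReal.ofReal (Real.exp (-ρ * n)) * P (RE K N 0 n) := by
    intro i
    obtain ⟨e1, e2, e3, e4, e5⟩ := hE i
    refine (g1 (a i) (b i) e1 e2 (E i) e4).trans (mul_le_mul' ?_ le_rfl)
    refine (mul_le_mul' le_rfl e5).trans ?_
    rw [← ENNReal.ofReal_mul (Real.exp_pos _).le, ← Real.exp_add]
    refine ENNReal.ofReal_le_ofReal (Real.exp_le_exp.2 ?_)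
    have h3 : ρ ≤ δ / 2 := by rw [hρ]; exact min_le_left _ _
    have h4 := mul_le_mul_of_nonneg_right h3 (Nat.cast_nonneg (α := ℝ) n)
    linarith
  have k2 : ∀ i, P (RE K N 0 n ∩ XE K N (s i) (t i)) ≤
      ENNReal.ofReal (Real.exp (-ρ * n)) * P (RE K N 0 n) := by
    intro i
    obtain ⟨e1, e2, e3⟩ := hst i
    refine (g2 (s i) (t i) e1 e2 e3).trans (mul_le_mul' ?_ le_rfl)
    refine ENNReal.ofReal_le_ofReal (Real.exp_le_exp.2 ?_)
    have h3 : ρ ≤ r := by rw [hρ]; exact min_le_right _ _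
    have h4 := mul_le_mul_of_nonneg_right h3 (Nat.cast_nonneg (α := ℝ) n)
    linarith
  have hcov : RE K N 0 n ∩ ((⋃ i, E i) ∪ ⋃ i, XE K N (s i) (t i)) ⊆
      (⋃ i ∈ (Finset.univ : Finset (Fin M)), (RE K N 0 n ∩ E i)) ∪
      ⋃ i ∈ (Finset.univ : Finset (Fin M')), (RE K N 0 n ∩ XE K N (s i) (t i)) := by
    rintro w ⟨hw, h3 | h3⟩
    · obtain ⟨i, hi⟩ := mem_iUnion.1 h3
      exact Or.inl (mem_iUnion₂.2 ⟨i, Finset.mem_univ i, hw, hi⟩)
    · obtain ⟨i, hi⟩ := mem_iUnion.1 h3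
      exact Or.inr (mem_iUnion₂.2 ⟨i, Finset.mem_univ i, hw, hi⟩)
  refine (measure_mono hcov).trans ((measure_union_le _ _).trans ?_)
  have s1 : P (⋃ i ∈ (Finset.univ : Finset (Fin M)), (RE K N 0 n ∩ E i)) ≤
      M * (ENNReal.ofReal (Real.exp (-ρ * n)) * P (RE K N 0 n)) := by
    refine (measure_biUnion_finset_le _ _).trans ((Finset.sum_le_sum fun i _ => k1 i).trans
      (le_of_eq ?_))
    rw [Finset.sum_const, Finset.card_univ, Fintype.card_fin, nsmul_eq_mul]
  have s2 : P (⋃ i ∈ (Finset.univ : Finset (Fin M')), (RE K N 0 n ∩ XE K N (s i) (t i))) ≤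
      M' * (ENNReal.ofReal (Real.exp (-ρ * n)) * P (RE K N 0 n)) := by
    refine (measure_biUnion_finset_le _ _).trans ((Finset.sum_le_sum fun i _ => k2 i).trans
      (le_of_eq ?_))
    rw [Finset.sum_const, Finset.card_univ, Fintype.card_fin, nsmul_eq_mul]
  refine (add_le_add s1 s2).trans ?_
  rw [← add_mul, ← mul_assoc]
  refine mul_le_mul' ?_ le_rfl
  rw [← Nat.cast_add, ← ENNReal.ofReal_natCast, ← ENNReal.ofReal_mul (Nat.cast_nonneg _)]
  refine ENNReal.ofReal_le_ofReal ?_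
  push_cast
  refine (mul_le_mul_of_nonneg_right hMn (Real.exp_pos _).le).trans (le_of_eq ?_)
  rw [← Real.exp_add]
  congr 1
  ring

end Pool.Agent.MSTLim
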