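import Mathlib
import Pool.Agent.MSTLim.EndM
import Pool.Agent.MSTLim.EndW
import Pool.Agent.MST.Marg

/-!
# The two ends at fixed positions

All the zones at the two ends are in blocks with FIXED distances from the ends.

* `gap`: under `Mx`, an annulus of `L` blocks near one of the ends is clean, up to a small relative
  probability, if `L` is large with respect to the distance from the end.
-/

namespace Pool.Agent.MSTLim

open MeasureTheory Set Filter Topology
open Pool.Agent.TriPerc Pool.Agent.MST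
open scoped ENNReal

variable {K N C x δ α β η : ℝ} {s t n : ℕ} {w : Lab} {F : Filter ℝ}

/-- `Mx` is monotone in the exponent. -/
theorem Mx.mono (h : Mx K N n α) (hαβ : α ≤ β) : Mx K N n β := by
  intro s t hst ht
  refine (h s t hst ht).trans (mul_le_mul_of_nonneg_right (Real.exp_le_exp.2
    (mul_le_mul_of_nonneg_right hαβ ?_)) (gF_nonneg _ _ _))
  have : t - s ≤ n := by omega
  have h2 : ((t - s : ℕ) : ℝ) ≤ n := by exact_mod_cast this
  linarith

/-- **Gaps**: an annulus near one of the two ends is clean. -/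
theorem gap (hK : 1 < K) (hα : 0 ≤ α) (hF : F ≤ atTop) (hup : UpB K (gF K) F α) :
    ∃ e : ℝ, 0 < e ∧ ∀ (d : ℕ) (δ : ℝ), 0 < δ → ∃ L : ℕ, ∀ n : ℕ, ∀ᶠ N in F,
      Mx K N n (α + e) → ∀ s t : ℕ, s + L ≤ t → t ≤ n → (s ≤ d ∨ n ≤ t + d) →
        P (RE K N 0 n ∩ XE K N s t) ≤ ENNReal.ofReal δ * P (RE K N 0 n) := by
  obtain ⟨C', b, hC', hb, harm⟩ := arm_blocks
  have hlK : 0 < Real.log K := Real.log_pos hK
  obtain ⟨ρ, hρ⟩ : ∃ ρ : ℝ, ρ = b * Real.log K := ⟨_, rfl⟩
  have hρ0 : 0 < ρ := by rw [hρ]; positivity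
  obtain ⟨C, hC, hup⟩ := hup (ρ / 4) (by positivity)
  refine ⟨ρ / 4, by positivity, fun d δ hδ => ?_⟩
  obtain ⟨L, hL1, hL2, hL3⟩ : ∃ L : ℕ, 1 ≤ L ∧
      128 * C' * C * Real.exp ((α + ρ / 4) * d) * Real.exp (-(ρ / 2) * L) ≤ δ ∧
      C' * Real.exp (-ρ * L) ≤ 1 / 2 := by
    have hl : ∀ B c : ℝ, 0 < c → Tendsto (fun n : ℕ => B * Real.exp (-c * n)) atTop (𝓝 0) := by
      intro B c hc
      have : Tendsto (fun n : ℕ => B * Real.exp (-c * n)) atTop (𝓝 (B * 0)) := by
        refine Tendsto.const_mul B (Real.tendsto_exp_atBot.comp ?_)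
        exact Tendsto.const_mul_atTop_of_neg (by linarith) tendsto_natCast_atTop_atTop
      rwa [mul_zero] at this
    have h1 := ((eventually_ge_atTop 1).and
      ((hl (128 * C' * C * Real.exp ((α + ρ / 4) * d)) (ρ / 2)
        (by positivity)).eventually_lt_const hδ)).and
      ((hl C' ρ hρ0).eventually_lt_const (by norm_num : (0 : ℝ) < 1 / 2))
    obtain ⟨L, ⟨h2, h3⟩, h4⟩ := h1.exists
    exact ⟨L, h2, h3.le, h4.le⟩
  refine ⟨L, fun n => ?_⟩
  filter_upwards [hup n, hF (wide_ev hK n)] with N g1 hW hM s t hst ht hd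
  have hst' : s < t := by omega
  have hLt : (L : ℝ) ≤ (t - s : ℕ) := by exact_mod_cast (by omega : L ≤ t - s)
  -- the probability of a further cluster
  have ha := harm K N hK n hW s t hst' ht
  rw [← hρ] at ha
  have ha3 : P (RA K N s t) ≤ 1 / 2 := by
    have h9 : ENNReal.ofReal (1 / 2 : ℝ) = 1 / 2 := by
      rw [ENNReal.ofReal_div_of_pos (by norm_num), ENNReal.ofReal_one, ENNReal.ofReal_ofNat]
    rw [← h9]
    refine (ENNReal.le_ofReal_iff_toReal_le (measure_ne_top _ _) (by norm_num)).2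
      ((ha.trans (mul_le_mul_of_nonneg_left (Real.exp_le_exp.2 ?_) hC'.le)).trans hL3)
    have := mul_le_mul_of_nonneg_left hLt hρ0.le
    linarith
  have h1 := hW.lt hst' ht
  have hx1 : P (XE K N s t) ≤ 128 * P (RA K N s t) * P (RE K N s t) := by
    have := ef_extra (1 / 2) (m := rd K N t + 1) (n := rd K N s) (by omega) ha3
    unfold XE RA RE
    rw [if_pos hst']
    exact this
  have h2 : (P (RE K N s t)).toReal ≤ C * Real.exp (-(α - ρ / 4) * (t - s : ℕ)) := by
    rw [P_RE]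
    exact g1 (t - s) (by omega) s (by omega)
  have hx2 : (P (XE K N s t)).toReal ≤
      128 * C' * C * Real.exp (-(α + 3 * ρ / 4) * (t - s : ℕ)) := by
    have h3 := ENNReal.toReal_mono (by finiteness) hx1
    rw [ENNReal.toReal_mul, ENNReal.toReal_mul, ENNReal.toReal_ofNat] at h3
    refine h3.trans ?_
    calc 128 * (P (RA K N s t)).toReal * (P (RE K N s t)).toReal ≤
        128 * (C' * Real.exp (-ρ * (t - s : ℕ))) *
          (C * Real.exp (-(α - ρ / 4) * (t - s : ℕ))) :=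
          mul_le_mul (mul_le_mul_of_nonneg_left ha (by norm_num)) h2 ENNReal.toReal_nonneg
            (by positivity)
      _ = 128 * C' * C * (Real.exp (-ρ * (t - s : ℕ)) *
          Real.exp (-(α - ρ / 4) * (t - s : ℕ))) := by ring
      _ = _ := by
        rw [← Real.exp_add]
        congr 2
        ring
  -- one of the two cuts
  have key : ∃ i : ℕ, i ≤ d + (t - s) ∧ P (RE K N 0 n ∩ XE K N s t) ≤
      ENNReal.ofReal (Real.exp ((α + ρ / 4) * i)) * P (XE K N s t) * P (RE K N 0 n) := by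
    rcases hd with hd | hd
    · exact ⟨t, by omega, hM.outer hW ht ((ev_XE K N s t).mono (ann_sub le_rfl
        (hW.le (Nat.zero_le s) (by omega))))⟩
    · refine ⟨n - s, by omega, hM.inner hW (by omega) ?_⟩
      have h3 : n - (n - s) = s := by omega
      rw [h3]
      have h4 := hW.le ht le_rfl
      exact (ev_XE K N s t).mono (ann_sub (by omega) le_rfl)
  obtain ⟨i, hi, hP⟩ := key
  refine hP.trans (mul_le_mul' ?_ le_rfl)
  rw [← ENNReal.ofReal_toReal (measure_ne_top P (XE K N s t)),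
    ← ENNReal.ofReal_mul (Real.exp_pos _).le]
  refine ENNReal.ofReal_le_ofReal ?_
  have hi' : (i : ℝ) ≤ d + (t - s : ℕ) := by exact_mod_cast hi
  have he : (α + ρ / 4) * i ≤ (α + ρ / 4) * (d + (t - s : ℕ)) :=
    mul_le_mul_of_nonneg_left hi' (by positivity)
  calc Real.exp ((α + ρ / 4) * i) * (P (XE K N s t)).toReal ≤
      Real.exp ((α + ρ / 4) * (d + (t - s : ℕ))) *
        (128 * C' * C * Real.exp (-(α + 3 * ρ / 4) * (t - s : ℕ))) :=
        mul_le_mul (Real.exp_le_exp.2 he) hx2 ENNReal.toReal_nonneg (Real.exp_pos _).le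
    _ = 128 * C' * C * (Real.exp ((α + ρ / 4) * (d + (t - s : ℕ))) *
        Real.exp (-(α + 3 * ρ / 4) * (t - s : ℕ))) := by ring
    _ = 128 * C' * C * (Real.exp ((α + ρ / 4) * d) * Real.exp (-(ρ / 2) * (t - s : ℕ))) := by
        rw [← Real.exp_add, ← Real.exp_add]
        congr 2
        ring
    _ ≤ 128 * C' * C * (Real.exp ((α + ρ / 4) * d) * Real.exp (-(ρ / 2) * L)) := by
        refine mul_le_mul_of_nonneg_left (mul_le_mul_of_nonneg_left (Real.exp_le_exp.2 ?_)
          (Real.exp_pos _).le) (by positivity)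
        have := mul_le_mul_of_nonneg_left hLt (by positivity : 0 ≤ ρ / 2)
        linarith
    _ ≤ δ := by
        rw [← mul_assoc]
        exact hL2

/-- **Offsets**: a fixed sequence of distances from the ends such that the annuli between
consecutive ones are clean. -/
theorem offs (hK : 1 < K) (hα : 0 ≤ α) (hF : F ≤ atTop) (hup : UpB K (gF K) F α) :
    ∃ e : ℝ, 0 < e ∧ ∀ δ : ℝ, 0 < δ → ∃ D : ℕ → ℕ, D 0 = 0 ∧ (∀ k, D k + 32 ≤ D (k + 1)) ∧
      ∀ k n : ℕ, ∀ᶠ N in F, Mx K N n (α + e) → ∀ s t : ℕ, t ≤ n →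
        ((s ≤ D k + 8 ∧ D (k + 1) ≤ t + 8) ∨ (n ≤ t + D k + 8 ∧ s + D (k + 1) ≤ n + 8)) →
          P (RE K N 0 n ∩ XE K N s t) ≤ ENNReal.ofReal δ * P (RE K N 0 n) := by
  obtain ⟨e, he, h⟩ := gap hK hα hF hup
  refine ⟨e, he, fun δ hδ => ?_⟩
  choose L hL using fun d => h d δ hδ
  obtain ⟨D, hD0, hD⟩ : ∃ D : ℕ → ℕ, D 0 = 0 ∧ ∀ k, D (k + 1) = D k + L (D k + 8) + 32 :=
    ⟨fun k => Nat.rec 0 (fun _ m => m + L (m + 8) + 32) k, rfl, fun _ => rfl⟩
  refine ⟨D, hD0, fun k => by rw [hD]; omega, fun k n => ?_⟩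
  filter_upwards [hL (D k + 8) n] with N h1 hM s t ht hst
  rw [hD] at hst
  rcases hst with ⟨h2, h3⟩ | ⟨h2, h3⟩
  · exact h1 hM s t (by omega) ht (Or.inl h2)
  · exact h1 hM s t (by omega) ht (Or.inr (by omega))

/-- **The ends**: small events in the `q` outermost or innermost blocks. -/
theorem ends (hα : 0 ≤ α) (q : ℕ) (hδ : 0 < δ) : ∃ p : ℝ, 0 < p ∧
    ∀ (n : ℕ) (N : ℝ), Wide K N n → Mx K N n α → ∀ E : Set Lab, P E ≤ ENNReal.ofReal p →
      (∃ i ≤ q, i ≤ n ∧ (Ev (Ann 0 (rd K N i + 1) (rd K N 0)) E ∨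
        Ev (Ann 0 (rd K N n + 1) (rd K N (n - i))) E)) →
      P (RE K N 0 n ∩ E) ≤ ENNReal.ofReal δ * P (RE K N 0 n) := by
  obtain ⟨p, hp⟩ : ∃ p : ℝ, p = Real.exp (-(α * q)) * δ := ⟨_, rfl⟩
  refine ⟨p, by rw [hp]; positivity, fun n N hW hM E hE hi => ?_⟩
  obtain ⟨i, hi, hin, hEv⟩ := hi
  have h1 : P (RE K N 0 n ∩ E) ≤
      ENNReal.ofReal (Real.exp (α * i)) * P E * P (RE K N 0 n) := by
    rcases hEv with h | h
    · exact hM.outer hW hin h
    · exact hM.inner hW hin h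
  refine h1.trans (mul_le_mul' ((mul_le_mul' le_rfl hE).trans ?_) le_rfl)
  rw [← ENNReal.ofReal_mul (Real.exp_pos _).le]
  refine ENNReal.ofReal_le_ofReal ?_
  have h2 : Real.exp (α * i) ≤ Real.exp (α * q) :=
    Real.exp_le_exp.2 (mul_le_mul_of_nonneg_left (by exact_mod_cast hi) hα)
  have h3 : Real.exp (α * q) * Real.exp (-(α * q)) = 1 := by
    rw [← Real.exp_add, add_neg_cancel, Real.exp_zero]
  rw [hp]
  calc Real.exp (α * i) * (Real.exp (-(α * q)) * δ) ≤
      Real.exp (α * q) * (Real.exp (-(α * q)) * δ) :=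
        mul_le_mul_of_nonneg_right h2 (by positivity)
    _ = δ := by rw [← mul_assoc, h3, one_mul]

end Pool.Agent.MSTLim
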