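import Mathlib.Algebra.Order.Ring.Star
import Mathlib.Analysis.Subadditive
import Mathlib.Tactic

/-!
# The exponent of a submultiplicative family along a filter

`g m N` is the probability of an event in `m` blocks with outer radius `N`, `F` a filter of outer
radii which is stable under division by `K`.  If `g (m + m') N ≤ g m N * g m' (N / K ^ m)` and
`exp (- A m) ≤ g m N ≤ 1` eventually, then there is an exponent `α ∈ [0, A]` such that
* for every `ε > 0` there is `C` with `g m (N / K ^ j) ≤ C * exp (- (α - ε) m)` eventually,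
  uniformly in `m, j ≤ n`;
* for every `n`, `exp (- α n) / 2 ≤ g n N` frequently.
(`exp (- α m)` is, up to subexponential factors, the upper limit of `g m` along `F`.)
-/

namespace Pool.Agent.MSTLim

open Filter Topology Set

section

variable {g : ℕ → ℝ → ℝ} {F : Filter ℝ}

private noncomputable def G (g : ℕ → ℝ → ℝ) (F : Filter ℝ) (m : ℕ) : ℝ :=
  sInf {t | ∀ᶠ N in F, g m N ≤ t}

private theorem G_bdd [F.NeBot] {m : ℕ} {c : ℝ} (h : ∀ᶠ N in F, c ≤ g m N) :
    BddBelow {t | ∀ᶠ N in F, g m N ≤ t} := by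
  refine ⟨c, fun t ht => ?_⟩
  obtain ⟨N, h1, h2⟩ := (h.and ht).exists
  exact h1.trans h2

private theorem le_G [F.NeBot] {m : ℕ} {c : ℝ} (h : ∀ᶠ N in F, c ≤ g m N)
    (h1 : ∀ N, g m N ≤ 1) : c ≤ G g F m := by
  refine le_csInf ⟨1, Eventually.of_forall h1⟩ fun t ht => ?_
  obtain ⟨N, h1, h2⟩ := (h.and ht).exists
  exact h1.trans h2

private theorem ev_G {m : ℕ} {t : ℝ} (h1 : ∀ N, g m N ≤ 1) (h : G g F m < t) :
    ∀ᶠ N in F, g m N ≤ t := by
  have hne : {t : ℝ | ∀ᶠ N in F, g m N ≤ t}.Nonempty := ⟨1, Eventually.of_forall h1⟩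
  obtain ⟨s, hs, hst⟩ := exists_lt_of_csInf_lt hne h
  have hs' : ∀ᶠ N in F, g m N ≤ s := hs
  exact hs'.mono fun N hN => hN.trans hst.le

private theorem fr_G [F.NeBot] {m : ℕ} {c t : ℝ} (hc : ∀ᶠ N in F, c ≤ g m N)
    (h : t < G g F m) : ∃ᶠ N in F, t ≤ g m N := by
  intro hcon
  refine absurd (csInf_le (G_bdd hc) ?_) (not_le.mpr h)
  exact hcon.mono fun N hN => (not_le.mp hN).le

private theorem tendsto_div_pow {K : ℝ} (hF : Tendsto (fun N => N / K) F F) (j : ℕ) :
    Tendsto (fun N => N / K ^ j) F F := by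
  induction j with
  | zero => simpa only [pow_zero, div_one] using! tendsto_id
  | succ j ih =>
    refine (hF.comp ih).congr fun N => ?_
    simp only [Function.comp]
    rw [div_div, pow_succ]

/-- The exponent. -/
theorem expo [F.NeBot] {K A : ℝ} (hF : Tendsto (fun N => N / K) F F)
    (h1 : ∀ m N, g m N ≤ 1) (hlow : ∀ m : ℕ, ∀ᶠ N in F, Real.exp (-A * m) ≤ g m N)
    (hsub : ∀ m m', ∀ᶠ N in F, g (m + m') N ≤ g m N * g m' (N / K ^ m))
    (h0 : ∀ m N, 0 ≤ g m N) :
    ∃ α : ℝ, 0 ≤ α ∧ α ≤ A ∧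
      (∀ ε > 0, ∃ C : ℝ, 1 ≤ C ∧ ∀ n : ℕ, ∀ᶠ N in F, ∀ m ≤ n, ∀ j ≤ n,
        g m (N / K ^ j) ≤ C * Real.exp (-(α - ε) * m)) ∧
      ∀ n : ℕ, ∃ᶠ N in F, Real.exp (-α * n) / 2 ≤ g n N := by
  have hGl : ∀ m : ℕ, Real.exp (-A * m) ≤ G g F m := fun m => le_G (hlow m) (h1 m)
  have hGpos : ∀ m, 0 < G g F m := fun m => (Real.exp_pos _).trans_le (hGl m)
  have hG1 : ∀ m, G g F m ≤ 1 := fun m =>
    csInf_le (G_bdd (hlow m)) (Eventually.of_forall (h1 m))
  have hmul : ∀ m m', G g F (m + m') ≤ G g F m * G g F m' := by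
    intro m m'
    have key : ∀ t, G g F m < t → ∀ t', G g F m' < t' → G g F (m + m') ≤ t * t' := by
      intro t ht t' ht'
      refine csInf_le (G_bdd (hlow _)) ?_
      filter_upwards [hsub m m', ev_G (h1 m) ht,
        (tendsto_div_pow hF m).eventually (ev_G (h1 m') ht')] with N a b c
      refine a.trans (mul_le_mul b c (h0 _ _) ((hGpos m).trans ht).le)
    have key2 : ∀ t, G g F m < t → G g F (m + m') ≤ t * G g F m' := by
      intro t ht
      have htp : 0 < t := (hGpos m).trans ht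
      rw [← div_le_iff₀' htp]
      refine le_of_forall_gt_imp_ge_of_dense fun t' ht' => ?_
      rw [div_le_iff₀' htp]
      exact key t ht t' ht'
    rw [← div_le_iff₀ (hGpos m')]
    refine le_of_forall_gt_imp_ge_of_dense fun t ht => ?_
    rw [div_le_iff₀ (hGpos m')]
    exact key2 t ht
  have hsubadd : Subadditive fun m => Real.log (G g F m) := by
    intro m n
    rw [← Real.log_mul (hGpos m).ne' (hGpos n).ne']
    exact Real.log_le_log (hGpos _) (hmul m n)
  have hbdd : BddBelow (range fun n : ℕ => Real.log (G g F n) / n) := by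
    refine ⟨-|A|, ?_⟩
    rintro _ ⟨n, rfl⟩
    rcases Nat.eq_zero_or_pos n with rfl | hn
    · simp
    · have hn' : (0 : ℝ) < n := by exact_mod_cast hn
      beta_reduce
      rw [le_div_iff₀ hn']
      have h2 := Real.log_le_log (Real.exp_pos _) (hGl n)
      rw [Real.log_exp] at h2
      have h3 : A * n ≤ |A| * n := mul_le_mul_of_nonneg_right (le_abs_self A) hn'.le
      linarith
  set L := hsubadd.lim with hL
  have hlim := hsubadd.tendsto_lim hbdd
  have hlogle : ∀ n : ℕ, Real.log (G g F n) ≤ 0 := fun n =>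
    Real.log_nonpos (hGpos n).le (hG1 n)
  have hL0 : L ≤ 0 := by
    refine le_of_tendsto hlim (Eventually.of_forall fun n => ?_)
    exact div_nonpos_of_nonpos_of_nonneg (hlogle n) n.cast_nonneg
  have hLA : -A ≤ L := by
    refine ge_of_tendsto hlim ((eventually_gt_atTop 0).mono fun n hn => ?_)
    have hn' : (0 : ℝ) < n := by exact_mod_cast hn
    rw [le_div_iff₀ hn']
    have h2 := Real.log_le_log (Real.exp_pos _) (hGl n)
    rwa [Real.log_exp] at h2
  have hGge : ∀ n : ℕ, Real.exp (L * n) ≤ G g F n := by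
    intro n
    rcases Nat.eq_zero_or_pos n with rfl | hn
    · have := hGl 0
      simpa using this
    · have hn' : (0 : ℝ) < n := by exact_mod_cast hn
      have h2 := hsubadd.lim_le_div hbdd hn.ne'
      rw [le_div_iff₀ hn'] at h2
      rw [← Real.exp_log (hGpos n)]
      exact Real.exp_le_exp.mpr h2
  refine ⟨-L, by linarith, by linarith, ?_, ?_⟩
  · intro ε hε
    have hev := (hlim.eventually (gt_mem_nhds (show L < L + ε by linarith))).and
      (eventually_gt_atTop 0)
    obtain ⟨m0, hm0⟩ := eventually_atTop.mp hev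
    refine ⟨2 * Real.exp (-L * m0), ?_, ?_⟩
    · have : 1 ≤ Real.exp (-L * m0) := Real.one_le_exp (mul_nonneg (by linarith)
        m0.cast_nonneg)
      linarith
    have hG : ∀ m : ℕ, G g F m < 2 * Real.exp (-L * m0) * Real.exp (-(-L - ε) * m) := by
      intro m
      rw [mul_assoc, ← Real.exp_add]
      have hpos := Real.exp_pos (-L * m0 + -(-L - ε) * m)
      suffices h : G g F m ≤ Real.exp (-L * m0 + -(-L - ε) * m) by linarith
      rcases lt_or_ge m m0 with hm | hm
      · refine (hG1 m).trans (Real.one_le_exp ?_)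
        have hm' : (m : ℝ) ≤ m0 := by exact_mod_cast hm.le
        have e1 : 0 ≤ -L * (m0 - m) := mul_nonneg (by linarith) (by linarith)
        have e2 : 0 ≤ ε * m := by positivity
        linarith
      · obtain ⟨h3, h4⟩ := hm0 m hm
        have hn' : (0 : ℝ) < m := by exact_mod_cast h4
        rw [div_lt_iff₀ hn'] at h3
        rw [← Real.exp_log (hGpos m)]
        refine Real.exp_le_exp.mpr ?_
        have e1 : 0 ≤ -L * m0 := mul_nonneg (by linarith) m0.cast_nonneg
        linarith
    intro n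
    have hall : ∀ m ∈ Finset.range (n + 1), ∀ j ∈ Finset.range (n + 1), ∀ᶠ N in F,
        g m (N / K ^ j) ≤ 2 * Real.exp (-L * m0) * Real.exp (-(-L - ε) * m) := fun m _ j _ =>
      (tendsto_div_pow hF j).eventually (ev_G (h1 m) (hG m))
    have hall' : ∀ m ∈ Finset.range (n + 1), ∀ᶠ N in F, ∀ j ∈ Finset.range (n + 1),
        g m (N / K ^ j) ≤ 2 * Real.exp (-L * m0) * Real.exp (-(-L - ε) * m) := fun m hm =>
      (Finset.eventually_all _).mpr (hall m hm)
    have hall'' := (Finset.eventually_all (l := F) _).mpr hall'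
    filter_upwards [hall''] with N hN m hm j hj
    exact hN m (Finset.mem_range.mpr (by omega)) j (Finset.mem_range.mpr (by omega))
  · intro n
    refine fr_G (hlow n) ?_
    have h2 := hGge n
    have h3 := Real.exp_pos (L * n)
    rw [neg_neg]
    linarith

end

end Pool.Agent.MSTLim
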