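import Pool.Agent.MSTLim.AngB

/-!
# Polygons

`poly f n` (file `Defs.lean`) runs through the edge from `f k` to `f (k+1)` in the time interval
`[k / n, (k + 1) / n]`.

* `poly_edge`: in the sum defining `poly f n t` the terms `j < k` have `clamp = 1`, the terms
  `j > k` have `clamp = 0`; telescoping.
* `poly_at`: for `k < n` by `poly_edge`; `k = n` similarly.
* `poly_floor`, `poly_ceil`: for `t ∈ [0, 1]` the point `poly f n t` has distance at most `1` from
  `emb (f k)` for `k = ⌊n t⌋₊` and for `k = ⌈n t⌉₊`.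
* `slit_edge`: if `u, v` are adjacent and `a ≠ u, v`, then `(emb v - emb a) / (emb u - emb a)` is in
  the slit plane: by `pair_half` and `row_pos` there is `c` with `0 < Re (U c)`, `0 < Re (W c)`
  for `U = emb u - emb a`, `W = emb v - emb a`; if `W = -x U` with `x ≥ 0` then
  `Re (W c) ≤ 0`.
* `edge_disj`: two lattice edges without a common end are disjoint segments.  PROOF: for a point
  `p` of the plane and a vertex `w` consider the six real functionals
  `L_k (p - emb w) = Re ((p - emb w) (-I zt^k)) * 2 / sqrt 3`, `k < 6`, and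
  `N_w p = max_k L_k (p - emb w)`, a norm of `p - emb w` which is `1` for neighbours of `w`.  If
  `p = (1-x) emb u + x emb v` and `w ≠ u, v` then `N_w p ≥ 1`: by `pair_half` (with `a = w`) for
  some `k` both rows `(fr w k u).2, (fr w k v).2` are `≥ 1`, and `L_k` is affine (`re_row`).
  If moreover `p = (1-y) emb u' + y emb v'`, then for `w = u'` (if `y ≤ 1/2`) or `w = v'`
  (if `y ≥ 1/2`) `N_w p ≤ 1/2`, because `N` is a norm (`N (s q) = s N q`, `s ≥ 0`) and adjacent
  vertices have `N = 1` (all rows of a unit vector are `≤ 1`).  Contradiction.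
-/

namespace Pool.Agent.MSTLim

open Pool.Agent.TriPerc Set

variable {f : ℕ → V} {n k : ℕ} {a u v u' v' : V} {t : ℝ}

private theorem clamp_one {x : ℝ} (hx : 1 ≤ x) : clamp x = 1 := by
  unfold clamp
  rw [min_eq_left hx, max_eq_right zero_le_one]

private theorem clamp_zero {x : ℝ} (hx : x ≤ 0) : clamp x = 0 := by
  unfold clamp
  rw [min_eq_right (hx.trans zero_le_one), max_eq_left hx]

private theorem clamp_mid {x : ℝ} (h0 : 0 ≤ x) (h1 : x ≤ 1) : clamp x = x := by
  unfold clamp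
  rw [min_eq_right h1, max_eq_right h0]

private theorem edge_time (hk : k < n) (ht : t ∈ Icc ((k : ℝ) / n) ((k + 1 : ℝ) / n)) :
    (k : ℝ) ≤ n * t ∧ (n : ℝ) * t ≤ k + 1 := by
  have hn : (0 : ℝ) < n := by
    have : 0 < n := lt_of_le_of_lt (Nat.zero_le k) hk
    exact_mod_cast this
  obtain ⟨h1, h2⟩ := ht
  rw [div_le_iff₀ hn] at h1
  rw [le_div_iff₀ hn] at h2
  constructor
  · linarith
  · linarith

theorem poly_edge (hk : k < n) (ht : t ∈ Icc ((k : ℝ) / n) ((k + 1 : ℝ) / n)) :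
    poly f n t = emb (f k) + ((n * t - k : ℝ) : ℂ) * (emb (f (k + 1)) - emb (f k)) := by
  obtain ⟨h1, h2⟩ := edge_time hk ht
  unfold poly
  rw [← Finset.sum_range_add_sum_Ico _ (Nat.succ_le_of_lt hk), Nat.succ_eq_add_one,
    Finset.sum_range_succ, clamp_mid (x := n * t - k) (by linarith) (by linarith)]
  have e1 : ∑ j ∈ Finset.range k, (clamp (n * t - j) : ℂ) * (emb (f (j + 1)) - emb (f j)) =
      emb (f k) - emb (f 0) := by
    rw [← Finset.sum_range_sub (fun j => emb (f j)) k]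
    refine Finset.sum_congr rfl fun j hj => ?_
    have hj' : (j : ℝ) + 1 ≤ k := by
      have := Finset.mem_range.1 hj
      exact_mod_cast this
    rw [clamp_one (by linarith), Complex.ofReal_one, one_mul]
  have e2 : ∑ j ∈ Finset.Ico (k + 1) n,
      (clamp (n * t - j) : ℂ) * (emb (f (j + 1)) - emb (f j)) = 0 := by
    refine Finset.sum_eq_zero fun j hj => ?_
    have hj' : (k : ℝ) + 1 ≤ j := by
      have := (Finset.mem_Ico.1 hj).1
      exact_mod_cast this
    rw [clamp_zero (by linarith), Complex.ofReal_zero, zero_mul]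
  rw [e1, e2]
  ring

theorem poly_at (hn : 0 < n) (hk : k ≤ n) : poly f n ((k : ℝ) / n) = emb (f k) := by
  have hn' : (0 : ℝ) < n := by exact_mod_cast hn
  rcases hk.lt_or_eq with h | h
  · rw [poly_edge h ⟨le_rfl, by gcongr; linarith⟩, mul_div_cancel₀ _ hn'.ne', sub_self,
      Complex.ofReal_zero, zero_mul, add_zero]
  · obtain ⟨m, rfl⟩ : ∃ m, k = m + 1 := ⟨k - 1, by omega⟩
    have hm : m < n := by omega
    have e : (((m + 1 : ℕ) : ℝ) / n) = (m + 1 : ℝ) / n := by push_cast; rfl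
    rw [e, poly_edge hm ⟨by gcongr; linarith, le_rfl⟩, mul_div_cancel₀ _ hn'.ne',
      add_sub_cancel_left, Complex.ofReal_one, one_mul, add_sub_cancel]

private theorem poly_zero_len (f : ℕ → V) (t : ℝ) : poly f 0 t = emb (f 0) := by
  unfold poly
  simp

theorem poly_floor (hadj : ∀ k < n, Adj (f k) (f (k + 1))) (ht : t ∈ Icc (0 : ℝ) 1) :
    ‖poly f n t - emb (f ⌊n * t⌋₊)‖ ≤ 1 := by
  rcases Nat.eq_zero_or_pos n with h0 | hn
  · subst h0
    rw [poly_zero_len, Nat.cast_zero, zero_mul, Nat.floor_zero, sub_self, norm_zero]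
    exact zero_le_one
  have hn' : (0 : ℝ) < n := by exact_mod_cast hn
  have hnt : 0 ≤ (n : ℝ) * t := mul_nonneg hn'.le ht.1
  obtain ⟨k, hk⟩ : ∃ k, k = ⌊(n : ℝ) * t⌋₊ := ⟨_, rfl⟩
  rw [← hk]
  have h1 : (k : ℝ) ≤ n * t := by
    rw [hk]
    exact Nat.floor_le hnt
  have h2 : (n : ℝ) * t < k + 1 := by
    rw [hk]
    exact Nat.lt_floor_add_one _
  by_cases h3 : k < n
  · have h4 : t ∈ Icc ((k : ℝ) / n) ((k + 1 : ℝ) / n) := by
      constructor
      · rw [div_le_iff₀ hn']
        linarith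
      · rw [le_div_iff₀ hn']
        linarith
    rw [poly_edge h3 h4, add_sub_cancel_left, norm_mul, norm_emb_adj (hadj k h3), mul_one,
      Complex.norm_real, Real.norm_eq_abs, abs_le]
    constructor
    · linarith
    · linarith
  · have h4 : (n : ℝ) ≤ k := by
      have : n ≤ k := not_lt.1 h3
      exact_mod_cast this
    have h5 : (n : ℝ) * t ≤ n := by
      have := mul_le_mul_of_nonneg_left ht.2 hn'.le
      linarith
    have h6 : (k : ℝ) = n := le_antisymm (h1.trans h5) h4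
    have h7 : k = n := by exact_mod_cast h6
    have h8 : t = (k : ℝ) / n := by
      rw [eq_div_iff hn'.ne']
      linarith
    rw [h8, poly_at hn h7.le, sub_self, norm_zero]
    exact zero_le_one

theorem poly_ceil (hadj : ∀ k < n, Adj (f k) (f (k + 1))) (ht : t ∈ Icc (0 : ℝ) 1) :
    ‖poly f n t - emb (f ⌈n * t⌉₊)‖ ≤ 1 := by
  rcases Nat.eq_zero_or_pos n with h0 | hn
  · subst h0
    rw [poly_zero_len, Nat.cast_zero, zero_mul, Nat.ceil_zero, sub_self, norm_zero]
    exact zero_le_one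
  have hn' : (0 : ℝ) < n := by exact_mod_cast hn
  have hnt : 0 ≤ (n : ℝ) * t := mul_nonneg hn'.le ht.1
  have hnt1 : (n : ℝ) * t ≤ n := by
    have := mul_le_mul_of_nonneg_left ht.2 hn'.le
    linarith
  obtain ⟨k, hk⟩ : ∃ k, k = ⌈(n : ℝ) * t⌉₊ := ⟨_, rfl⟩
  rw [← hk]
  have h1 : (n : ℝ) * t ≤ k := by
    rw [hk]
    exact Nat.le_ceil _
  have h2 : (k : ℝ) < n * t + 1 := by
    rw [hk]
    exact Nat.ceil_lt_add_one hnt
  have hkn : k ≤ n := by
    rw [hk]
    exact Nat.ceil_le.2 hnt1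
  rcases Nat.eq_zero_or_pos k with h3 | h3
  · rw [h3, Nat.cast_zero] at h1
    have h4 : t = ((0 : ℕ) : ℝ) / n := by
      rw [eq_div_iff hn'.ne', Nat.cast_zero]
      linarith
    rw [h4, poly_at hn (Nat.zero_le n), h3, sub_self, norm_zero]
    exact zero_le_one
  · obtain ⟨m, rfl⟩ : ∃ m, k = m + 1 := ⟨k - 1, by omega⟩
    push_cast at h1 h2
    have hm : m < n := by omega
    have h4 : t ∈ Icc ((m : ℝ) / n) ((m + 1 : ℝ) / n) := by
      constructor
      · rw [div_le_iff₀ hn']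
        linarith
      · rw [le_div_iff₀ hn']
        linarith
    have e : emb (f m) + ((n * t - m : ℝ) : ℂ) * (emb (f (m + 1)) - emb (f m)) -
        emb (f (m + 1)) = ((n * t - m - 1 : ℝ) : ℂ) * (emb (f (m + 1)) - emb (f m)) := by
      push_cast
      ring
    rw [poly_edge hm h4, e, norm_mul, norm_emb_adj (hadj m hm), mul_one, Complex.norm_real,
      Real.norm_eq_abs, abs_le]
    constructor
    · linarith
    · linarith

theorem slit_edge (h : Adj u v) (hu : u ≠ a) (hv : v ≠ a) :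
    (emb v - emb a) / (emb u - emb a) ∈ Complex.slitPlane := by
  obtain ⟨k, -, hk1, hk2⟩ := pair_half h hu hv
  have h1 := row_pos hk1
  have h2 := row_pos hk2
  obtain ⟨c, hc⟩ : ∃ c, c = -Complex.I * zt ^ k := ⟨_, rfl⟩
  rw [← hc] at h1 h2
  have hU : emb u - emb a ≠ 0 := by
    intro h3
    rw [h3, zero_mul] at h1
    exact lt_irrefl _ h1
  by_contra hs
  rw [Complex.mem_slitPlane_iff] at hs
  push Not at hs
  obtain ⟨h3, h4⟩ := hs
  obtain ⟨x, hx⟩ : ∃ x : ℝ, x = -((emb v - emb a) / (emb u - emb a)).re := ⟨_, rfl⟩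
  have hx0 : 0 ≤ x := by
    rw [hx]
    linarith
  have hw : (emb v - emb a) / (emb u - emb a) = ((-x : ℝ) : ℂ) := by
    apply Complex.ext
    · rw [hx]
      simp
    · rw [h4]
      simp
  have h5 : emb v - emb a = ((-x : ℝ) : ℂ) * (emb u - emb a) := by
    rw [← hw, div_mul_cancel₀ _ hU]
  rw [h5, mul_assoc, Complex.re_ofReal_mul] at h2
  nlinarith [mul_nonneg hx0 h1.le]

private theorem edge_disj_half (h : Adj u v) (h' : Adj u' v') (h1 : u ≠ u') (h3 : v ≠ u')
    {x y : ℝ} (hx : x ∈ Icc (0 : ℝ) 1) (hy : y ∈ Icc (0 : ℝ) (1 / 2)) :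
    emb u + (x : ℂ) * (emb v - emb u) ≠ emb u' + (y : ℂ) * (emb v' - emb u') := by
  intro he
  obtain ⟨k, -, hk1, hk2⟩ := pair_half h h1 h3
  have r1 := re_row u' u k
  have r2 := re_row u' v k
  have g1 : (1 : ℝ) ≤ ((fr u' k u).2 : ℝ) := by exact_mod_cast hk1
  have g2 : (1 : ℝ) ≤ ((fr u' k v).2 : ℝ) := by exact_mod_cast hk2
  obtain ⟨c, hc⟩ : ∃ c, c = -Complex.I * zt ^ k := ⟨_, rfl⟩
  rw [← hc] at r1 r2
  have hcn : ‖c‖ = 1 := by
    rw [hc, norm_mul, norm_neg, Complex.norm_I, norm_pow, norm_zt, one_pow, one_mul]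
  have r3 : ((emb v' - emb u') * c).re ≤ 1 := by
    refine (Complex.re_le_norm _).trans ?_
    rw [norm_mul, hcn, norm_emb_adj h', one_mul]
  have e1 : (((1 - x : ℝ) : ℂ) * ((emb u - emb u') * c) + (x : ℂ) * ((emb v - emb u') * c)).re =
      ((y : ℂ) * ((emb v' - emb u') * c)).re := by
    congr 1
    push_cast
    linear_combination c * he
  rw [Complex.add_re, Complex.re_ofReal_mul, Complex.re_ofReal_mul, Complex.re_ofReal_mul, r1,
    r2] at e1
  have hs : (1 : ℝ) < Real.sqrt 3 := by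
    rw [Real.lt_sqrt (by norm_num)]
    norm_num
  have b1 : y * ((emb v' - emb u') * c).re ≤ 1 / 2 := by
    refine (mul_le_mul_of_nonneg_left r3 hy.1).trans ?_
    rw [mul_one]
    exact hy.2
  have b2 : Real.sqrt 3 / 2 ≤ Real.sqrt 3 / 2 * ((fr u' k u).2 : ℝ) := by
    nlinarith
  have b3 : Real.sqrt 3 / 2 ≤ Real.sqrt 3 / 2 * ((fr u' k v).2 : ℝ) := by
    nlinarith
  have b4 := mul_le_mul_of_nonneg_left b2 (sub_nonneg.2 hx.2)
  have b5 := mul_le_mul_of_nonneg_left b3 hx.1
  nlinarith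

theorem edge_disj (h : Adj u v) (h' : Adj u' v') (h1 : u ≠ u') (h2 : u ≠ v') (h3 : v ≠ u')
    (h4 : v ≠ v') {x y : ℝ} (hx : x ∈ Icc (0 : ℝ) 1) (hy : y ∈ Icc (0 : ℝ) 1) :
    emb u + (x : ℂ) * (emb v - emb u) ≠ emb u' + (y : ℂ) * (emb v' - emb u') := by
  rcases le_total y (1 / 2) with hy2 | hy2
  · exact edge_disj_half h h' h1 h3 hx ⟨hy.1, hy2⟩
  · have h'' : Adj v' u' := by
      unfold Adj at h' ⊢
      omega
    have := edge_disj_half h h'' h2 h4 hx (y := 1 - y)
      ⟨by linarith [hy.2], by linarith⟩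
    intro he
    apply this
    rw [he]
    push_cast
    ring

end Pool.Agent.MSTLim
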