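import Pool.Agent.MSTLim.DiscP
import Pool.Agent.MSTLim.Mob
import Pool.Agent.MSTLim.PolyA

/-!
# The index difference of polygons

* `ai_edge`: on `[k/n, (k+1)/n]` the function `η poly - η emb a` is
  `U + θ (W - U)` with `U = η (emb (f k) - emb a)`, `W = η (emb (f (k+1)) - emb a)`,
  `θ = n t - k = (t - k/n) / ((k+1)/n - k/n)`: `ai_congr`, `ai_seg`, `slit_edge`.
* `poly_ne`: `poly f n t ≠ emb a` for `t ∈ [i/n, j/n]` if `a` is not among `f i, …, f j`
  (`slit_edge`: the segment from `U` to `W` does not contain `0`).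
* `ai_poly`: `ai_add` and `ai_edge`, induction on `j`.
* `wi_poly`: `mo (η a) (η b) (η z) = (η z - η a) / (η z - η b)`; `ai_div`, `ai_poly`; the closing
  terms are `ps a b` because `η` cancels.
* `wi_inv_poly`: for `z ≠ 0`, `A, B ≠ 0`: `mo (κ / A) (κ / B) (κ / z) = (B / A) * ((z - A) / (z - B))
  = (1 - z / A) / (1 - z / B)`.  `ai_const_mul`, `ai_div`, `ai_poly` for the increment; for the
  closing terms at `z = η emb (f j)`, `A = η emb a`, `B = η emb b`: both `1 - z / A` and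
  `1 - z / B` have positive real part (`‖z‖ < ‖A‖, ‖B‖`), so by `arg_half` with `c = 1` the
  argument of the quotient is the difference, and `1 - z / A = (emb (f j) - emb a) * (-(emb a)⁻¹)`.
-/

namespace Pool.Agent.MSTLim

open Pool.Agent.TriPerc Set

variable {f : ℕ → V} {n i j k : ℕ} {a b : V} {η t : ℝ}

private theorem pb_theta (hk : k < n) (t : ℝ) :
    (t - (k : ℝ) / n) / ((k + 1 : ℝ) / n - (k : ℝ) / n) = n * t - k := by
  have hn : (n : ℝ) ≠ 0 := by
    have : 0 < n := by omega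
    positivity
  field_simp
  ring

private theorem pb_lt (hk : k < n) : (k : ℝ) / n < (k + 1 : ℝ) / n := by
  have hn : (0 : ℝ) < n := by
    have : 0 < n := by omega
    exact_mod_cast this
  rw [div_lt_div_iff_of_pos_right hn]
  linarith

theorem ai_edge (hη : 0 < η) (hk : k < n) (h : Adj (f k) (f (k + 1))) (h1 : f k ≠ a)
    (h2 : f (k + 1) ≠ a) :
    ai (fun t => (η : ℂ) * poly f n t - η * emb a) ((k : ℝ) / n) ((k + 1 : ℝ) / n) =
      ar a (f k) (f (k + 1)) := by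
  have hη' : (η : ℂ) ≠ 0 := by exact_mod_cast hη.ne'
  have hU : emb (f k) - emb a ≠ 0 := fun h3 => h1 (emb_inj.1 (sub_eq_zero.1 h3))
  have h3 : (η * (emb (f (k + 1)) - emb a)) / (η * (emb (f k) - emb a)) =
      (emb (f (k + 1)) - emb a) / (emb (f k) - emb a) := mul_div_mul_left _ _ hη'
  have h4 := ai_seg (pb_lt hk) (u := (η : ℂ) * (emb (f k) - emb a))
    (v := (η : ℂ) * (emb (f (k + 1)) - emb a)) (mul_ne_zero hη' hU)
    (by rw [h3]; exact slit_edge h h1 h2)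
  rw [h3] at h4
  unfold ar
  rw [← h4]
  refine ai_congr fun τ hτ => ?_
  rw [pb_theta hk, poly_edge hk hτ]
  ring

private theorem pb_floor {x : ℝ} (hx : x ∈ Icc (i : ℝ) j) :
    x = j ∨ ∃ k : ℕ, i ≤ k ∧ k < j ∧ (k : ℝ) ≤ x ∧ x ≤ k + 1 := by
  have h0 : 0 ≤ x := (Nat.cast_nonneg i).trans hx.1
  by_cases h : ⌊x⌋₊ < j
  · exact Or.inr ⟨⌊x⌋₊, Nat.le_floor hx.1, h, Nat.floor_le h0, (Nat.lt_floor_add_one x).le⟩
  · left
    have h1 : (j : ℝ) ≤ x := (Nat.le_floor_iff h0).1 (not_lt.1 h)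
    exact le_antisymm hx.2 h1

theorem poly_ne (hij : i ≤ j) (hj : j ≤ n) (hadj : ∀ k < n, Adj (f k) (f (k + 1)))
    (ha : ∀ k, i ≤ k → k ≤ j → f k ≠ a) (hn : 0 < n)
    (ht : t ∈ Icc ((i : ℝ) / n) ((j : ℝ) / n)) : poly f n t ≠ emb a := by
  have hn' : (0 : ℝ) < n := by exact_mod_cast hn
  have hx : (n * t : ℝ) ∈ Icc (i : ℝ) j := by
    constructor
    · have := (div_le_iff₀ hn').1 ht.1
      linarith
    · have := (le_div_iff₀ hn').1 ht.2
      linarith
  rcases pb_floor hx with h | ⟨k, h1, h2, h3, h4⟩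
  · have h5 : t = (j : ℝ) / n := by
      rw [eq_div_iff hn'.ne']
      linarith
    rw [h5, poly_at hn hj]
    exact fun h6 => ha j hij le_rfl (emb_inj.1 h6)
  · have hk : k < n := by omega
    have ht' : t ∈ Icc ((k : ℝ) / n) ((k + 1 : ℝ) / n) := by
      constructor
      · rw [div_le_iff₀ hn']
        linarith
      · rw [le_div_iff₀ hn']
        linarith
    have hU : emb (f k) - emb a ≠ 0 :=
      fun h5 => ha k h1 h2.le (emb_inj.1 (sub_eq_zero.1 h5))
    have hs := slit_edge (hadj k hk) (ha k h1 h2.le) (ha (k + 1) (by omega) (by omega))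
    obtain ⟨θ, hθ⟩ : ∃ θ : ℝ, θ = n * t - k := ⟨_, rfl⟩
    have h5 : 0 ≤ θ := by rw [hθ]; linarith
    have h6 : θ ≤ 1 := by rw [hθ]; linarith
    have h7 := Complex.starConvex_one_slitPlane hs (sub_nonneg.2 h6) h5 (sub_add_cancel _ _)
    have h8 := Complex.slitPlane_ne_zero h7
    intro h9
    apply h8
    rw [poly_edge hk ht', ← hθ] at h9
    rw [Complex.real_smul, Complex.real_smul]
    have h10 : (emb (f k) - emb a) * (((1 - θ : ℝ) : ℂ) * 1 +
        (θ : ℂ) * ((emb (f (k + 1)) - emb a) / (emb (f k) - emb a))) = 0 := by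
      have h11 : (emb (f k) - emb a) * ((emb (f (k + 1)) - emb a) / (emb (f k) - emb a)) =
          emb (f (k + 1)) - emb a := mul_div_cancel₀ _ hU
      push_cast
      linear_combination (θ : ℂ) * h11 + h9
    exact (mul_eq_zero.1 h10).resolve_left hU

private theorem pb_cont (η : ℝ) (f : ℕ → V) (n : ℕ) (a : V) (s : Set ℝ) :
    ContinuousOn (fun t => (η : ℂ) * poly f n t - η * emb a) s := by
  have := continuous_poly f n
  exact Continuous.continuousOn (by fun_prop)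

private theorem pb_ne (hη : 0 < η) {z w : ℂ} (h : z ≠ w) : (η : ℂ) * z - η * w ≠ 0 := by
  have hη' : (η : ℂ) ≠ 0 := by exact_mod_cast hη.ne'
  rw [← mul_sub]
  exact mul_ne_zero hη' (sub_ne_zero.2 h)

theorem ai_poly (hη : 0 < η) (hij : i ≤ j) (hj : j ≤ n)
    (hadj : ∀ k < n, Adj (f k) (f (k + 1))) (ha : ∀ k, i ≤ k → k ≤ j → f k ≠ a) (hn : 0 < n) :
    ai (fun t => (η : ℂ) * poly f n t - η * emb a) ((i : ℝ) / n) ((j : ℝ) / n) =
      ∑ k ∈ Finset.Ico i j, ar a (f k) (f (k + 1)) := by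
  have hn' : (0 : ℝ) < n := by exact_mod_cast hn
  induction j, hij using Nat.le_induction with
  | base => rw [Finset.Ico_self, Finset.sum_empty, ai_self]
  | succ j hij ih =>
    have hj' : j < n := by omega
    have h1 : (i : ℝ) / n ≤ (j : ℝ) / n := by
      rw [div_le_div_iff_of_pos_right hn']
      exact_mod_cast hij
    have h2 : (j : ℝ) / n ≤ ((j + 1 : ℕ) : ℝ) / n := by
      rw [div_le_div_iff_of_pos_right hn']
      push_cast
      linarith
    rw [ai_add h1 h2 (pb_cont _ _ _ _ _) (fun τ hτ => pb_ne hη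
      (poly_ne (i := i) (j := j + 1) (by omega) hj hadj ha hn hτ)),
      ih (by omega) (fun k h3 h4 => ha k h3 (by omega)), Finset.sum_Ico_succ_top hij]
    congr 1
    have h5 := ai_edge hη hj' (hadj j hj') (ha j hij (by omega)) (ha (j + 1) (by omega) le_rfl)
    rw [← h5]
    push_cast
    rfl

private theorem pb_le (hn : 0 < n) (hij : i ≤ j) : (i : ℝ) / n ≤ (j : ℝ) / n := by
  have hn' : (0 : ℝ) < n := by exact_mod_cast hn
  rw [div_le_div_iff_of_pos_right hn']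
  exact_mod_cast hij

private theorem pb_div (hη : 0 < η) (hij : i ≤ j) (hj : j ≤ n)
    (hadj : ∀ k < n, Adj (f k) (f (k + 1))) (ha : ∀ k, i ≤ k → k ≤ j → f k ≠ a)
    (hb : ∀ k, i ≤ k → k ≤ j → f k ≠ b) (hn : 0 < n) :
    ai (fun t => ((η : ℂ) * poly f n t - η * emb a) / ((η : ℂ) * poly f n t - η * emb b))
      ((i : ℝ) / n) ((j : ℝ) / n) =
      ∑ k ∈ Finset.Ico i j, (ar a (f k) (f (k + 1)) - ar b (f k) (f (k + 1))) := by
  rw [ai_div (pb_le hn hij) (pb_cont _ _ _ _ _)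
    (fun τ hτ => pb_ne hη (poly_ne hij hj hadj ha hn hτ)) (pb_cont _ _ _ _ _)
    (fun τ hτ => pb_ne hη (poly_ne hij hj hadj hb hn hτ)), ai_poly hη hij hj hadj ha hn,
    ai_poly hη hij hj hadj hb hn, Finset.sum_sub_distrib]

theorem wi_poly (hη : 0 < η) (hij : i ≤ j) (hj : j ≤ n)
    (hadj : ∀ k < n, Adj (f k) (f (k + 1))) (ha : ∀ k, i ≤ k → k ≤ j → f k ≠ a)
    (hb : ∀ k, i ≤ k → k ≤ j → f k ≠ b) (hn : 0 < n) :
    Wi (fun t => (η : ℂ) * poly f n t) ((i : ℝ) / n) ((j : ℝ) / n) (η * emb a) (η * emb b) =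
      dw f i j a b := by
  have hη' : (η : ℂ) ≠ 0 := by exact_mod_cast hη.ne'
  have h1 : ∀ x : V, mo ((η : ℂ) * emb a) (η * emb b) (η * emb x) =
      (emb x - emb a) / (emb x - emb b) := by
    intro x
    unfold mo
    rw [← mul_sub, ← mul_sub]
    exact mul_div_mul_left _ _ hη'
  unfold Wi dw ps
  beta_reduce
  rw [poly_at hn hj, poly_at hn (hij.trans hj), h1, h1]
  unfold mo
  rw [pb_div hη hij hj hadj ha hb hn]

private theorem pb_one {A z : ℂ} (hA : A ≠ 0) : (z - A) * (-A⁻¹) = 1 - z / A := by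
  field_simp
  ring

private theorem pb_close (hη : 0 < η) {κ : ℝ} (hκ : 0 < κ) {x : V}
    (hia : ‖emb x‖ < ‖emb a‖) (hib : ‖emb x‖ < ‖emb b‖) (h0 : emb x ≠ 0) :
    Complex.arg (mo ((κ : ℂ) / (η * emb a)) ((κ : ℂ) / (η * emb b)) ((κ : ℂ) / (η * emb x))) =
      th a x - th b x := by
  have hη' : (η : ℂ) ≠ 0 := by exact_mod_cast hη.ne'
  have hκ' : (κ : ℂ) ≠ 0 := by exact_mod_cast hκ.ne'
  have hA : emb a ≠ 0 := norm_pos_iff.1 ((norm_nonneg _).trans_lt hia)
  have hB : emb b ≠ 0 := norm_pos_iff.1 ((norm_nonneg _).trans_lt hib)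
  have e1 : (emb x - emb a) * (-(emb a)⁻¹) = 1 - emb x / emb a := pb_one hA
  have e2 : (emb x - emb b) * (-(emb b)⁻¹) = 1 - emb x / emb b := pb_one hB
  have p1 := in_half hia
  have p2 := in_half hib
  have e3 : mo ((κ : ℂ) / (η * emb a)) ((κ : ℂ) / (η * emb b)) ((κ : ℂ) / (η * emb x)) =
      ((emb x - emb a) * (-(emb a)⁻¹)) / ((emb x - emb b) * (-(emb b)⁻¹)) := by
    unfold mo
    have f1 : (κ : ℂ) / (η * emb x) - (κ : ℂ) / (η * emb a) =
        (κ : ℂ) / (η * emb x) * ((emb x - emb a) * (-(emb a)⁻¹)) := by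
      rw [e1]
      field_simp
    have f2 : (κ : ℂ) / (η * emb x) - (κ : ℂ) / (η * emb b) =
        (κ : ℂ) / (η * emb x) * ((emb x - emb b) * (-(emb b)⁻¹)) := by
      rw [e2]
      field_simp
    rw [f1, f2]
    exact mul_div_mul_left _ _ (div_ne_zero hκ' (mul_ne_zero hη' h0))
  rw [e3]
  unfold th
  have h := arg_half (U := (emb x - emb b) * (-(emb b)⁻¹)) (W := (emb x - emb a) * (-(emb a)⁻¹))
    (c := 1) (by rw [mul_one]; exact p2) (by rw [mul_one]; exact p1)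
  rw [mul_one, mul_one] at h
  exact h

theorem wi_inv_poly (hη : 0 < η) {κ : ℝ} (hκ : 0 < κ) (hij : i ≤ j) (hj : j ≤ n)
    (hadj : ∀ k < n, Adj (f k) (f (k + 1))) (ha : ∀ k, i ≤ k → k ≤ j → f k ≠ a)
    (hb : ∀ k, i ≤ k → k ≤ j → f k ≠ b) (hn : 0 < n)
    (h0 : ∀ t ∈ Icc ((i : ℝ) / n) ((j : ℝ) / n), poly f n t ≠ 0)
    (hia : ‖emb (f i)‖ < ‖emb a‖) (hib : ‖emb (f i)‖ < ‖emb b‖)
    (hja : ‖emb (f j)‖ < ‖emb a‖) (hjb : ‖emb (f j)‖ < ‖emb b‖) :
    Wi (fun t => (κ : ℂ) / ((η : ℂ) * poly f n t)) ((i : ℝ) / n) ((j : ℝ) / n)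
        ((κ : ℂ) / (η * emb a)) ((κ : ℂ) / (η * emb b)) =
      ∑ k ∈ Finset.Ico i j, (ar a (f k) (f (k + 1)) - ar b (f k) (f (k + 1))) -
        (th a (f j) - th b (f j)) + (th a (f i) - th b (f i)) := by
  have hη' : (η : ℂ) ≠ 0 := by exact_mod_cast hη.ne'
  have hκ' : (κ : ℂ) ≠ 0 := by exact_mod_cast hκ.ne'
  have hA : emb a ≠ 0 := norm_pos_iff.1 ((norm_nonneg _).trans_lt hia)
  have hB : emb b ≠ 0 := norm_pos_iff.1 ((norm_nonneg _).trans_lt hib)
  have hle := pb_le hn hij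
  have hi0 : emb (f i) ≠ 0 := by
    rw [← poly_at hn (hij.trans hj)]
    exact h0 _ (left_mem_Icc.2 hle)
  have hj0 : emb (f j) ≠ 0 := by
    rw [← poly_at hn hj]
    exact h0 _ (right_mem_Icc.2 hle)
  unfold Wi
  beta_reduce
  rw [poly_at hn hj, poly_at hn (hij.trans hj), pb_close hη hκ hja hjb hj0,
    pb_close hη hκ hia hib hi0, ← pb_div hη hij hj hadj ha hb hn]
  have hc : ContinuousOn (fun t => ((η : ℂ) * poly f n t - η * emb a) /
      ((η : ℂ) * poly f n t - η * emb b)) (Icc ((i : ℝ) / n) ((j : ℝ) / n)) :=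
    (pb_cont η f n a _).div (pb_cont η f n b _)
      fun τ hτ => pb_ne hη (poly_ne hij hj hadj hb hn hτ)
  have hc0 : ∀ τ ∈ Icc ((i : ℝ) / n) ((j : ℝ) / n), ((η : ℂ) * poly f n τ - η * emb a) /
      ((η : ℂ) * poly f n τ - η * emb b) ≠ 0 := fun τ hτ =>
    div_ne_zero (pb_ne hη (poly_ne hij hj hadj ha hn hτ))
      (pb_ne hη (poly_ne hij hj hadj hb hn hτ))
  rw [← ai_const_mul hle hc hc0 (a := emb b / emb a) (div_ne_zero hB hA)]
  congr 2
  refine ai_congr fun τ hτ => ?_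
  have hz := h0 τ hτ
  have hzb : poly f n τ - emb b ≠ 0 := sub_ne_zero.2 (poly_ne hij hj hadj hb hn hτ)
  unfold mo
  generalize poly f n τ = z at hz hzb
  generalize emb a = A at hA
  generalize emb b = B at hB hzb
  have f1 : (κ : ℂ) / (η * z) - (κ : ℂ) / (η * A) = (κ / (η * z * A)) * (A - z) := by
    field_simp
  have f2 : (κ : ℂ) / (η * z) - (κ : ℂ) / (η * B) = (κ / (η * z * B)) * (B - z) := by
    field_simp
  have hzb' : B - z ≠ 0 := fun h => hzb (by linear_combination -h)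
  rw [f1, f2, ← mul_sub, ← mul_sub, mul_div_mul_left _ _ hη']
  field_simp
  ring

end Pool.Agent.MSTLim
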