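import Pool.Agent.MSTLim.Cert
import Pool.Agent.MSTLim.DiscG
import Pool.Agent.MSTLim.Pat
import Pool.Agent.MSTLim.PolyB
import Mathlib.RingTheory.SimpleRing.Principal

/-!
# From a certificate of a lattice curve to the weak pattern

`ht_cur`, `pl_cur`: for `t ∈ [0, 1]` the height of `cur η f n` at `t` is `hr ‖η poly f n t‖` and
its planar position is `η poly f n t` (`height_sig`, `st_sig`).

`ext_p`.  Let `0 < η`, `2 η ≤ R1 - r`, `2 η ≤ R - R1` (radii of `ρ`), `f 0, …, f n` a lattice path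
without repetitions, `SCert ρ δ (cur η f n)`, `δ > 0`, with the times `t0, al, m1, t1, m2, t2, m3,
be, t3`.  Write `c t = η poly f n t` (so `‖c t‖ > R` etc. by `hr_lt`).  `n > 0`, because otherwise
`c` is constant, but `‖c m1‖ < r < R < ‖c t1‖`.  Put
`T0 = ⌊n t0⌋₊, p = ⌈n al⌉₊, M1 = ⌈n m1⌉₊, T1 = ⌊n t1⌋₊, T2 = ⌈n t2⌉₊, M3 = ⌊n m3⌋₊, q = ⌊n be⌋₊,
T3 = ⌈n t3⌉₊`.
(1) `‖c t - η emb (f ⌊n t⌋₊)‖ ≤ η` and the same for `⌈⌉` (`poly_floor`, `poly_ceil`).  Hence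
`R ≤ η ‖emb (f T_i)‖ + η`, `η ‖emb (f M_i)‖ ≤ r + η`.
(2) Order: `T0 ≤ p ≤ M1`, `M3 ≤ q ≤ T3` by monotonicity; all `≤ n`.  `T0 ≠ M1` because of the
norms, so `T0 < M1`.  `M1 < T1`: `m1 ≤ t1`; if `⌊n t1⌋₊ < ⌈n m1⌉₊` then `n m1` and `n t1` are in one
interval `[k, k + 1]` and `‖c m1 - c t1‖ ≤ η` (`poly_edge`, `norm_emb_adj`), contradiction to
`R - r > 2 η`; `T1 = M1` is impossible because of the norms.  Similarly `T2 < M3`, `M3 < T3`.
`T1 < T2`: `t1 ≤ m2 ≤ t2` and `T1 ≤ ⌊n m2⌋₊ ≤ ⌈n m2⌉₊ ≤ T2`, where the norm of `f ⌊n m2⌋₊` is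
small, so `T1 < ⌊n m2⌋₊ ≤ T2`.
(3) For `p ≤ k ≤ M1`: `η ‖emb (f k)‖ ≤ R1` (if `k / n ≤ m1` then `k / n ∈ [al, m1]`, use `poly_at`;
otherwise `k = M1`, use (1)).  The same for `M3 ≤ k ≤ q`.
(4) `Wi c (T1 / n) (T2 / n) (c al) (c be) = Wi c t1 t2 (c al) (c be) ≠ 0`: `wi_shrink` with the
radius `R1`; on `[T1 / n, t1]` and `[t2, T2 / n]` (parts of one edge) `‖c‖ ≥ R - η > R1`, hence
there `c ≠ c al, c be` (their norms are `≤ R1`); on `[t1, t2]` the margin `δ` gives `≠`.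
(5) `Wi c (T1 / n) (T2 / n) (c al) (c be) = Wi c (T1 / n) (T2 / n) (η emb (f p)) (c be)`: `wi_conn`
with `A` = image under `c` of `[al, p / n]` (preconnected; norms `≤ R1` as in (3); if `al = 0` or
`n al` is an integer this is one point).  `A` does not meet `c [T1 / n, T2 / n]`: `A` is contained
in the edge from `f (p - 1)` to `f p` (or is one vertex `f p`), `p < T1`, and the edges
`f k, f (k+1)`, `T1 ≤ k < T2`, have no common vertex with it (`edge_disj`; for the vertex `f p`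
use `poly_ne`).
The same for `be` and `q` (`A` = image of `[q / n, be]`, edge from `f q` to `f (q + 1)`, `T2 < q`),
with `wi_swap` before and after.
(6) `wi_poly`: `dw f T1 T2 (f p) (f q) ≠ 0`.
(7) If `f M1` and `f M3` were joined in `{z | η ‖emb z‖ ≤ R1}` off `f[T1, T2]`, then so would be
`f p` and `f q` (by (3) and injectivity), contradiction to `dw_conn` (radius `R1 / η`).

`pw_of_cert`: with `r < R0`, `Rad` with `ρ.r = r`, `R0 / 2 < ρ.R1`, `R0 / 2 < ρ.R`: for small `η`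
(`2 / sqrt 3 * (r + η) < 2 r`, …) the pattern `PW ω (2 (r / η)) (R0 / η / 2)`: `emb_le_nrm`,
`nrm_le_emb`; `{nrm z ≤ R0 / (2 η)} ⊆ {η ‖emb z‖ ≤ R1}`.
-/

namespace Pool.Agent.MSTLim

open Pool.Agent.TriPerc Set Filter Topology

variable {ρ : Rad} {f : ℕ → V} {n : ℕ} {η δ t : ℝ} {ω : Lab}

private theorem at_cur (ht' : t ∈ Icc (0 : ℝ) 1) :
    at' (cur η f n) t = sig ((η : ℂ) * poly f n t) := by
  unfold at' cur
  rw [projIcc_of_mem zero_le_one ht']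
  rfl

theorem ht_cur (ht' : t ∈ Icc (0 : ℝ) 1) : ht (cur η f n) t = hr ‖(η : ℂ) * poly f n t‖ := by
  unfold ht
  rw [at_cur ht', height_sig]

theorem pl_cur (ht' : t ∈ Icc (0 : ℝ) 1) : pl (cur η f n) t = (η : ℂ) * poly f n t := by
  unfold pl
  rw [at_cur ht', st_sig]

private theorem near_edge {s : ℝ} (hη : 0 < η) (hadj : ∀ k < n, Adj (f k) (f (k + 1))) {k : ℕ}
    (hk : k < n) (hs : s ∈ Icc ((k : ℝ) / n) ((k + 1 : ℝ) / n))
    (ht : t ∈ Icc ((k : ℝ) / n) ((k + 1 : ℝ) / n)) :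
    ‖(η : ℂ) * poly f n s - (η : ℂ) * poly f n t‖ ≤ η := by
  have hn : (0 : ℝ) < n := by exact_mod_cast (Nat.zero_le k).trans_lt hk
  rw [poly_edge hk hs, poly_edge hk ht]
  have e : (η : ℂ) * (emb (f k) + ((n * s - k : ℝ) : ℂ) * (emb (f (k + 1)) - emb (f k))) -
      (η : ℂ) * (emb (f k) + ((n * t - k : ℝ) : ℂ) * (emb (f (k + 1)) - emb (f k))) =
      ((η * (n * s - n * t) : ℝ) : ℂ) * (emb (f (k + 1)) - emb (f k)) := by
    push_cast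
    ring
  rw [e, norm_mul, norm_emb_adj (hadj k hk), mul_one, Complex.norm_real, Real.norm_eq_abs,
    abs_mul, abs_of_pos hη]
  have h1 := (div_le_iff₀ hn).1 hs.1
  have h2 := (le_div_iff₀ hn).1 hs.2
  have h3 := (div_le_iff₀ hn).1 ht.1
  have h4 := (le_div_iff₀ hn).1 ht.2
  have h5 : |(n : ℝ) * s - n * t| ≤ 1 := abs_le.2 ⟨by linarith, by linarith⟩
  exact mul_le_of_le_one_right hη.le h5

private theorem find_edge {i j : ℕ} (hij : i < j) (hn : 0 < n)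
    (ht : t ∈ Icc ((i : ℝ) / n) ((j : ℝ) / n)) :
    ∃ k, i ≤ k ∧ k < j ∧ t ∈ Icc ((k : ℝ) / n) ((k + 1 : ℝ) / n) := by
  have hn' : (0 : ℝ) < n := by exact_mod_cast hn
  have h1 := (div_le_iff₀ hn').1 ht.1
  have h2 := (le_div_iff₀ hn').1 ht.2
  have h0 : 0 ≤ t * n := (Nat.cast_nonneg i).trans h1
  rcases le_total ⌊t * n⌋₊ (j - 1) with h | h
  · refine ⟨⌊t * n⌋₊, Nat.le_floor h1, by omega, ?_, ?_⟩
    · rw [div_le_iff₀ hn']
      exact Nat.floor_le h0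
    · rw [le_div_iff₀ hn']
      exact (Nat.lt_floor_add_one _).le
  · refine ⟨j - 1, by omega, by omega, ?_, ?_⟩
    · rw [div_le_iff₀ hn']
      have h3 : ((j - 1 : ℕ) : ℝ) ≤ (⌊t * n⌋₊ : ℝ) := by exact_mod_cast h
      exact h3.trans (Nat.floor_le h0)
    · rw [le_div_iff₀ hn']
      have h3 : ((j - 1 : ℕ) : ℝ) + 1 = j := by
        have h4 : j - 1 + 1 = j := by omega
        exact_mod_cast h4
      rw [h3]
      exact h2

private theorem curve_ne {s : ℝ} (hη : 0 < η) (hadj : ∀ k < n, Adj (f k) (f (k + 1)))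
    (hinj : ∀ i ≤ n, ∀ j ≤ n, f i = f j → i = j) {k0 i j : ℕ} (hk0 : k0 < n) (hij : i < j)
    (hj : j ≤ n) (h : k0 + 1 < i ∨ j < k0) (hs : s ∈ Icc ((k0 : ℝ) / n) ((k0 + 1 : ℝ) / n))
    (ht : t ∈ Icc ((i : ℝ) / n) ((j : ℝ) / n)) :
    (η : ℂ) * poly f n t ≠ (η : ℂ) * poly f n s := by
  have hn : 0 < n := by omega
  have hn' : (0 : ℝ) < n := by exact_mod_cast hn
  obtain ⟨k, hk1, hk2, hkt⟩ := find_edge hij hn ht
  intro heq
  have h0 := mul_left_cancel₀ (Complex.ofReal_ne_zero.2 hη.ne') heq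
  rw [poly_edge (by omega) hkt, poly_edge hk0 hs] at h0
  have h1 := (div_le_iff₀ hn').1 hs.1
  have h2 := (le_div_iff₀ hn').1 hs.2
  have h3 := (div_le_iff₀ hn').1 hkt.1
  have h4 := (le_div_iff₀ hn').1 hkt.2
  have hne : ∀ i ≤ n, ∀ j ≤ n, i ≠ j → f i ≠ f j := fun i hi j hj hij h => hij (hinj i hi j hj h)
  exact edge_disj (hadj k (by omega)) (hadj k0 hk0)
    (hne _ (by omega) _ (by omega) (by omega)) (hne _ (by omega) _ (by omega) (by omega))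
    (hne _ (by omega) _ (by omega) (by omega)) (hne _ (by omega) _ (by omega) (by omega))
    (x := n * t - k) (y := n * s - k0) ⟨by linarith, by linarith⟩ ⟨by linarith, by linarith⟩ h0

private theorem near_norm (hη : 0 < η) {z w : ℂ} (h : ‖z - w‖ ≤ 1) :
    ‖(η : ℂ) * z‖ ≤ η * ‖w‖ + η ∧ η * ‖w‖ ≤ ‖(η : ℂ) * z‖ + η := by
  rw [norm_mul, Complex.norm_real, Real.norm_eq_abs, abs_of_pos hη]
  have h1 := norm_sub_norm_le z w
  have h2 := norm_sub_norm_le w z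
  rw [norm_sub_rev] at h2
  constructor
  · nlinarith
  · nlinarith

private theorem seg_conn {S : Set V} {i j : ℕ} (hij : i ≤ j)
    (h : ∀ k, i ≤ k → k < j → Adj (f k) (f (k + 1))) (hS : ∀ k, i ≤ k → k ≤ j → f k ∈ S) :
    Conn S (f i) (f j) := by
  obtain ⟨p, hp, -⟩ := walk_fun f hij h
  refine conn_walk p fun x hx => ?_
  obtain ⟨k, h1, h2, rfl⟩ := hp x hx
  exact hS k h1 h2

private theorem ceil_le_floor {s : ℝ} (hη : 0 < η) (hadj : ∀ k < n, Adj (f k) (f (k + 1)))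
    (h0 : 0 ≤ s) (hst : s ≤ t) (h1 : t ≤ 1)
    (h : η < ‖(η : ℂ) * poly f n s - (η : ℂ) * poly f n t‖) :
    ⌈n * s⌉₊ ≤ ⌊n * t⌋₊ := by
  by_contra hcon
  push Not at hcon
  have hnn : (0 : ℝ) ≤ n := Nat.cast_nonneg n
  have h2 := Nat.lt_ceil.1 hcon
  have h3 := Nat.lt_floor_add_one ((n : ℝ) * t)
  have h4 : (n : ℝ) * s ≤ n * t := mul_le_mul_of_nonneg_left hst hnn
  have h5 : (n : ℝ) * s ≤ n := mul_le_of_le_one_right hnn (hst.trans h1)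
  have hk : ⌊n * t⌋₊ < n := by
    have : ((⌊n * t⌋₊ : ℕ) : ℝ) < n := h2.trans_le h5
    exact_mod_cast this
  have hn : (0 : ℝ) < n := by exact_mod_cast (Nat.zero_le _).trans_lt hk
  refine absurd (near_edge hη hadj hk (s := s) (t := t) ⟨?_, ?_⟩ ⟨?_, ?_⟩) (not_le.2 h)
  · rw [div_le_iff₀ hn]
    linarith
  · rw [le_div_iff₀ hn]
    linarith
  · rw [div_le_iff₀ hn]
    linarith
  · rw [le_div_iff₀ hn]
    linarith

theorem ext_p (hη : 0 < η) (h1 : 2 * η ≤ ρ.R1 - ρ.r) (h2 : 2 * η ≤ ρ.R - ρ.R1)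
    (hadj : ∀ k < n, Adj (f k) (f (k + 1))) (hinj : ∀ i ≤ n, ∀ j ≤ n, f i = f j → i = j)
    (hδ : 0 < δ) (h : SCert ρ δ (cur η f n)) :
    ∃ t0 m1 t1 t2 m3 t3 : ℕ, t0 < m1 ∧ m1 < t1 ∧ t1 < t2 ∧ t2 < m3 ∧ m3 < t3 ∧ t3 ≤ n ∧
      ρ.R ≤ η * ‖emb (f t0)‖ + η ∧ ρ.R ≤ η * ‖emb (f t1)‖ + η ∧ ρ.R ≤ η * ‖emb (f t2)‖ + η ∧
      ρ.R ≤ η * ‖emb (f t3)‖ + η ∧ η * ‖emb (f m1)‖ ≤ ρ.r + η ∧ η * ‖emb (f m3)‖ ≤ ρ.r + η ∧
      ¬ Conn {z | η * ‖emb z‖ ≤ ρ.R1 ∧ ∀ k, t1 ≤ k → k ≤ t2 → z ≠ f k} (f m1) (f m3) := by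
  obtain ⟨t0, al, m1, t1, m2, t2, m3, be, t3, o0, o1, o2, o3, o4, o5, o6, o7, o8, o9,
    a0, a3, b1, b2, b3, c1, c2, e1, e2, e3, hw⟩ := h
  have hcc : Continuous fun t => (η : ℂ) * poly f n t :=
    continuous_const.mul (continuous_poly f n)
  have q0 := ρ.h0
  have q1 := ρ.h1
  have q2 := ρ.h2
  have q3 := ρ.h3
  have q4 := ρ.h4
  have i0 : t0 ∈ Icc (0 : ℝ) 1 := ⟨by linarith, by linarith⟩
  have ial : al ∈ Icc (0 : ℝ) 1 := ⟨by linarith, by linarith⟩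
  have im1 : m1 ∈ Icc (0 : ℝ) 1 := ⟨by linarith, by linarith⟩
  have i1 : t1 ∈ Icc (0 : ℝ) 1 := ⟨by linarith, by linarith⟩
  have im2 : m2 ∈ Icc (0 : ℝ) 1 := ⟨by linarith, by linarith⟩
  have i2 : t2 ∈ Icc (0 : ℝ) 1 := ⟨by linarith, by linarith⟩
  have im3 : m3 ∈ Icc (0 : ℝ) 1 := ⟨by linarith, by linarith⟩
  have ibe : be ∈ Icc (0 : ℝ) 1 := ⟨by linarith, by linarith⟩
  have i3 : t3 ∈ Icc (0 : ℝ) 1 := ⟨by linarith, by linarith⟩
  have lo : ∀ t, t ∈ Icc (0 : ℝ) 1 → ∀ R, 0 ≤ R → hr R + δ ≤ ht (cur η f n) t →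
      R < ‖(η : ℂ) * poly f n t‖ := by
    intro t ht' R hR h
    rw [ht_cur ht'] at h
    rw [← hr_lt hR (norm_nonneg _)]
    linarith
  have up : ∀ t, t ∈ Icc (0 : ℝ) 1 → ∀ R, 0 ≤ R → ht (cur η f n) t ≤ hr R - δ →
      ‖(η : ℂ) * poly f n t‖ < R := by
    intro t ht' R hR h
    rw [ht_cur ht'] at h
    rw [← hr_lt (norm_nonneg _) hR]
    linarith
  have nt0 := lo t0 i0 ρ.R3 (by linarith) a0
  have nt3 := lo t3 i3 ρ.R3 (by linarith) a3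
  have nt1 := lo t1 i1 ρ.R (by linarith) c1
  have nt2 := lo t2 i2 ρ.R (by linarith) c2
  have nm1 := up m1 im1 ρ.r (by linarith) b1
  have nm2 := up m2 im2 ρ.r (by linarith) b2
  have nm3 := up m3 im3 ρ.r (by linarith) b3
  have nal : ∀ t ∈ Icc al m1, ‖(η : ℂ) * poly f n t‖ < ρ.R1 := fun t ht' =>
    up t ⟨by linarith [ht'.1, ial.1], by linarith [ht'.2, im1.2]⟩ ρ.R1 (by linarith) (e1 t ht')
  have nbe : ∀ t ∈ Icc m3 be, ‖(η : ℂ) * poly f n t‖ < ρ.R1 := fun t ht' =>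
    up t ⟨by linarith [ht'.1, im3.1], by linarith [ht'.2, ibe.2]⟩ ρ.R1 (by linarith) (e2 t ht')
  have mid : ∀ t ∈ Icc t1 t2, δ ≤ ‖(η : ℂ) * poly f n t - (η : ℂ) * poly f n al‖ ∧
      δ ≤ ‖(η : ℂ) * poly f n t - (η : ℂ) * poly f n be‖ := by
    intro t ht'
    have hti : t ∈ Icc (0 : ℝ) 1 := ⟨by linarith [ht'.1, i1.1], by linarith [ht'.2, i2.2]⟩
    have h3 := (e3 t ht').2
    rw [pl_cur hti, pl_cur ial, pl_cur ibe] at h3
    exact h3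
  have h12 : t1 ≤ t2 := o4.trans o5
  have hw' : Wi (fun t => (η : ℂ) * poly f n t) t1 t2 ((η : ℂ) * poly f n al)
      ((η : ℂ) * poly f n be) ≠ 0 := by
    intro h0
    apply hw
    rw [← h0, pl_cur ial, pl_cur ibe]
    unfold Wi
    rw [pl_cur i1, pl_cur i2]
    congr 2
    refine ai_congr fun τ hτ => ?_
    rw [pl_cur ⟨by linarith [hτ.1, i1.1], by linarith [hτ.2, i2.2]⟩]
  -- the number of edges is positive
  have hn : 0 < n := by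
    rcases Nat.eq_zero_or_pos n with h0 | h0
    · exfalso
      have h3 : (η : ℂ) * poly f n m1 = (η : ℂ) * poly f n t1 := by
        subst h0
        simp [poly]
      rw [h3] at nm1
      linarith
    · exact h0
  have hn' : (0 : ℝ) < n := by exact_mod_cast hn
  have far : ∀ s t : ℝ, ‖(η : ℂ) * poly f n s‖ < ρ.r → ρ.R < ‖(η : ℂ) * poly f n t‖ →
      η < ‖(η : ℂ) * poly f n s - (η : ℂ) * poly f n t‖ := by
    intro s t hs ht'
    have h3 := norm_sub_norm_le ((η : ℂ) * poly f n t) ((η : ℂ) * poly f n s)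
    rw [norm_sub_rev] at h3
    linarith
  have far' : ∀ s t : ℝ, ‖(η : ℂ) * poly f n s‖ < ρ.r → ρ.R < ‖(η : ℂ) * poly f n t‖ →
      η < ‖(η : ℂ) * poly f n t - (η : ℂ) * poly f n s‖ := by
    intro s t hs ht'
    rw [norm_sub_rev]
    exact far s t hs ht'
  -- norms at the discrete times
  have fT0 := near_norm hη (poly_floor hadj i0)
  have fT1 := near_norm hη (poly_floor hadj i1)
  have fT2 := near_norm hη (poly_ceil hadj i2)
  have fT3 := near_norm hη (poly_ceil hadj i3)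
  have fM1 := near_norm hη (poly_ceil hadj im1)
  have fM3 := near_norm hη (poly_floor hadj im3)
  have fM2 := near_norm hη (poly_floor hadj im2)
  have mono : ∀ {s t : ℝ}, s ≤ t → (n : ℝ) * s ≤ n * t := fun hst =>
    mul_le_mul_of_nonneg_left hst hn'.le
  have nle : ∀ {t : ℝ}, t ≤ 1 → (n : ℝ) * t ≤ n := fun ht' => mul_le_of_le_one_right hn'.le ht'
  have fc : ∀ t : ℝ, ⌊(n : ℝ) * t⌋₊ ≤ ⌈(n : ℝ) * t⌉₊ := fun t => Nat.floor_le_ceil _
  obtain ⟨T0, hT0⟩ : ∃ k, k = ⌊(n : ℝ) * t0⌋₊ := ⟨_, rfl⟩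
  obtain ⟨p, hp⟩ : ∃ k, k = ⌈(n : ℝ) * al⌉₊ := ⟨_, rfl⟩
  obtain ⟨M1, hM1⟩ : ∃ k, k = ⌈(n : ℝ) * m1⌉₊ := ⟨_, rfl⟩
  obtain ⟨T1, hT1⟩ : ∃ k, k = ⌊(n : ℝ) * t1⌋₊ := ⟨_, rfl⟩
  obtain ⟨M2, hM2⟩ : ∃ k, k = ⌊(n : ℝ) * m2⌋₊ := ⟨_, rfl⟩
  obtain ⟨T2, hT2⟩ : ∃ k, k = ⌈(n : ℝ) * t2⌉₊ := ⟨_, rfl⟩
  obtain ⟨M3, hM3⟩ : ∃ k, k = ⌊(n : ℝ) * m3⌋₊ := ⟨_, rfl⟩
  obtain ⟨q, hq⟩ : ∃ k, k = ⌊(n : ℝ) * be⌋₊ := ⟨_, rfl⟩
  obtain ⟨T3, hT3⟩ : ∃ k, k = ⌈(n : ℝ) * t3⌉₊ := ⟨_, rfl⟩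
  rw [← hT0] at fT0
  rw [← hT1] at fT1
  rw [← hT2] at fT2
  rw [← hT3] at fT3
  rw [← hM1] at fM1
  rw [← hM2] at fM2
  rw [← hM3] at fM3
  have hT0p : T0 ≤ p := by
    rw [hT0, hp]
    exact (Nat.floor_le_floor (mono o1)).trans (fc al)
  have hpM1 : p ≤ M1 := by
    rw [hp, hM1]
    exact Nat.ceil_le_ceil (mono o2)
  have hM1T1 : M1 ≤ T1 := by
    rw [hM1, hT1]
    exact ceil_le_floor hη hadj im1.1 o3 i1.2 (far m1 t1 nm1 nt1)
  have hT1M2 : T1 ≤ M2 := by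
    rw [hT1, hM2]
    exact Nat.floor_le_floor (mono o4)
  have hM2T2 : M2 ≤ T2 := by
    rw [hM2, hT2]
    exact (Nat.floor_le_floor (mono o5)).trans (fc t2)
  have hT2M3 : T2 ≤ M3 := by
    rw [hT2, hM3]
    exact ceil_le_floor hη hadj i2.1 o6 im3.2 (far' m3 t2 nm3 nt2)
  have hM3q : M3 ≤ q := by
    rw [hM3, hq]
    exact Nat.floor_le_floor (mono o7)
  have hqT3 : q ≤ T3 := by
    rw [hq, hT3]
    exact (Nat.floor_le_floor (mono o8)).trans (fc t3)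
  have hT3n : T3 ≤ n := by
    rw [hT3]
    exact Nat.ceil_le.2 (nle i3.2)
  have l1 : T0 < M1 := by
    refine lt_of_le_of_ne (hT0p.trans hpM1) fun h => ?_
    rw [h] at fT0
    linarith [fT0.1, fM1.2]
  have l2 : M1 < T1 := by
    refine lt_of_le_of_ne hM1T1 fun h => ?_
    rw [← h] at fT1
    linarith [fT1.1, fM1.2]
  have l3 : T1 < M2 := by
    refine lt_of_le_of_ne hT1M2 fun h => ?_
    rw [h] at fT1
    linarith [fT1.1, fM2.2]
  have l4 : T2 < M3 := by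
    refine lt_of_le_of_ne hT2M3 fun h => ?_
    rw [h] at fT2
    linarith [fT2.1, fM3.2]
  have l5 : M3 < T3 := by
    refine lt_of_le_of_ne (hM3q.trans hqT3) fun h => ?_
    rw [← h] at fT3
    linarith [fT3.1, fM3.2]
  have l6 : T1 < T2 := by omega
  refine ⟨T0, M1, T1, T2, M3, T3, l1, l2, l6, l4, l5, hT3n, by linarith [fT0.1],
    by linarith [fT1.1], by linarith [fT2.1], by linarith [fT3.1], by linarith [fM1.2],
    by linarith [fM3.2], ?_⟩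
  -- real bounds for the discrete times
  have rp1 : (n : ℝ) * al ≤ p := by
    rw [hp]
    exact Nat.le_ceil _
  have rp2 : ((p - 1 : ℕ) : ℝ) ≤ (n : ℝ) * al := by
    rcases Nat.eq_zero_or_pos p with h0 | h0
    · rw [h0]
      simpa using mul_nonneg hn'.le ial.1
    · have h3 : p - 1 < ⌈(n : ℝ) * al⌉₊ := by omega
      exact (Nat.lt_ceil.1 h3).le
  have rM1 : (n : ℝ) * m1 ≤ M1 := by
    rw [hM1]
    exact Nat.le_ceil _
  have rT1 : (T1 : ℝ) ≤ n * t1 := by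
    rw [hT1]
    exact Nat.floor_le (mul_nonneg hn'.le i1.1)
  have rT1' : (n : ℝ) * t1 ≤ (T1 : ℝ) + 1 := by
    rw [hT1]
    exact (Nat.lt_floor_add_one _).le
  have rT2 : (n : ℝ) * t2 ≤ T2 := by
    rw [hT2]
    exact Nat.le_ceil _
  have rT2' : ((T2 - 1 : ℕ) : ℝ) ≤ (n : ℝ) * t2 := by
    have h3 : T2 - 1 < ⌈(n : ℝ) * t2⌉₊ := by omega
    exact (Nat.lt_ceil.1 h3).le
  have rM3 : (M3 : ℝ) ≤ n * m3 := by
    rw [hM3]
    exact Nat.floor_le (mul_nonneg hn'.le im3.1)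
  have rq : (q : ℝ) ≤ n * be := by
    rw [hq]
    exact Nat.floor_le (mul_nonneg hn'.le ibe.1)
  have rq' : (n : ℝ) * be ≤ (q : ℝ) + 1 := by
    rw [hq]
    exact (Nat.lt_floor_add_one _).le
  -- (3)
  have in1 : ∀ k, p ≤ k → k ≤ M1 → η * ‖emb (f k)‖ ≤ ρ.R1 := by
    intro k hk1 hk2
    rcases hk2.eq_or_lt with h3 | h3
    · rw [h3]
      linarith [fM1.2]
    · have h4 : (k : ℝ) < n * m1 := by
        rw [hM1] at h3
        exact Nat.lt_ceil.1 h3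
      have h5 : (p : ℝ) ≤ k := by exact_mod_cast hk1
      have h6 := nal ((k : ℝ) / n) ⟨by rw [le_div_iff₀ hn']; linarith,
        by rw [div_le_iff₀ hn']; linarith⟩
      rw [poly_at hn (by omega), norm_mul, Complex.norm_real, Real.norm_eq_abs,
        abs_of_pos hη] at h6
      exact h6.le
  have in3 : ∀ k, M3 ≤ k → k ≤ q → η * ‖emb (f k)‖ ≤ ρ.R1 := by
    intro k hk1 hk2
    rcases hk1.eq_or_lt with h3 | h3
    · rw [← h3]
      linarith [fM3.2]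
    · have h4 : (n : ℝ) * m3 < k := by
        rw [hM3] at h3
        exact (Nat.floor_lt (mul_nonneg hn'.le im3.1)).1 h3
      have h5 : (k : ℝ) ≤ q := by exact_mod_cast hk2
      have h6 := nbe ((k : ℝ) / n) ⟨by rw [le_div_iff₀ hn']; linarith,
        by rw [div_le_iff₀ hn']; linarith⟩
      rw [poly_at hn (by omega), norm_mul, Complex.norm_real, Real.norm_eq_abs,
        abs_of_pos hη] at h6
      exact h6.le
  -- (4)
  have dT1 : (T1 : ℝ) / n ≤ t1 := by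
    rw [div_le_iff₀ hn']
    linarith
  have dT2 : t2 ≤ (T2 : ℝ) / n := by
    rw [le_div_iff₀ hn']
    linarith
  have hdT : (T1 : ℝ) / n ≤ (T2 : ℝ) / n := dT1.trans (h12.trans dT2)
  have out1 : ∀ τ ∈ Icc ((T1 : ℝ) / n) t1, ρ.R1 < ‖(η : ℂ) * poly f n τ‖ := by
    intro τ hτ
    have h3 : t1 ≤ (T1 + 1 : ℝ) / n := by
      rw [le_div_iff₀ hn']
      linarith
    have h4 := near_edge hη hadj (k := T1) (by omega) (s := t1) (t := τ) ⟨dT1, h3⟩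
      ⟨hτ.1, hτ.2.trans h3⟩
    have h5 := norm_sub_norm_le ((η : ℂ) * poly f n t1) ((η : ℂ) * poly f n τ)
    linarith
  have out2 : ∀ τ ∈ Icc t2 ((T2 : ℝ) / n), ρ.R1 < ‖(η : ℂ) * poly f n τ‖ := by
    intro τ hτ
    have h3 : ((T2 - 1 : ℕ) : ℝ) / n ≤ t2 := by
      rw [div_le_iff₀ hn']
      linarith
    have h3' : (((T2 - 1 : ℕ) : ℝ) + 1) / n = (T2 : ℝ) / n := by
      have h4 : T2 - 1 + 1 = T2 := by omega
      have h5 : ((T2 - 1 : ℕ) : ℝ) + 1 = (T2 : ℝ) := by exact_mod_cast h4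
      rw [h5]
    have h4 := near_edge hη hadj (k := T2 - 1) (by omega) (s := t2) (t := τ)
      ⟨h3, by rw [h3']; exact dT2⟩ ⟨h3.trans hτ.1, by rw [h3']; exact hτ.2⟩
    have h5 := norm_sub_norm_le ((η : ℂ) * poly f n t2) ((η : ℂ) * poly f n τ)
    linarith
  have nal' := (nal al ⟨le_rfl, o2⟩).le
  have nbe' := (nbe be ⟨o7, le_rfl⟩).le
  have avoid : ∀ z : ℂ, ‖z‖ ≤ ρ.R1 → (∀ τ ∈ Icc t1 t2, (η : ℂ) * poly f n τ ≠ z) →
      ∀ τ ∈ Icc ((T1 : ℝ) / n) ((T2 : ℝ) / n), (η : ℂ) * poly f n τ ≠ z := by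
    intro z hz hz2 τ hτ he
    rcases le_total τ t1 with h3 | h3
    · have h4 := out1 τ ⟨hτ.1, h3⟩
      rw [he] at h4
      linarith
    · rcases le_total τ t2 with h5 | h5
      · exact hz2 τ ⟨h3, h5⟩ he
      · have h4 := out2 τ ⟨h5, hτ.2⟩
        rw [he] at h4
        linarith
  have oal : ∀ τ ∈ Icc t1 t2, (η : ℂ) * poly f n τ ≠ (η : ℂ) * poly f n al := by
    intro τ hτ he
    have h3 := (mid τ hτ).1
    rw [he, sub_self, norm_zero] at h3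
    linarith
  have obe : ∀ τ ∈ Icc t1 t2, (η : ℂ) * poly f n τ ≠ (η : ℂ) * poly f n be := by
    intro τ hτ he
    have h3 := (mid τ hτ).2
    rw [he, sub_self, norm_zero] at h3
    linarith
  have oal' := avoid _ nal' oal
  have obe' := avoid _ nbe' obe
  have w1 : Wi (fun t => (η : ℂ) * poly f n t) ((T1 : ℝ) / n) ((T2 : ℝ) / n)
      ((η : ℂ) * poly f n al) ((η : ℂ) * poly f n be) ≠ 0 := by
    rw [wi_shrink (R1 := ρ.R1) dT1 h12 dT2 hcc.continuousOn nal' nbe' out1 out2 oal' obe']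
    exact hw'
  have sT1 : ρ.R1 < ‖(η : ℂ) * poly f n ((T1 : ℝ) / n)‖ := out1 _ ⟨le_rfl, dT1⟩
  have sT2 : ρ.R1 < ‖(η : ℂ) * poly f n ((T2 : ℝ) / n)‖ := out2 _ ⟨dT2, le_rfl⟩
  -- (5)
  have hap : al ≤ (p : ℝ) / n := by
    rw [le_div_iff₀ hn']
    linarith
  have hqb : (q : ℝ) / n ≤ be := by
    rw [div_le_iff₀ hn']
    linarith
  have ek0 : ∀ τ ∈ Icc al ((p : ℝ) / n),
      τ ∈ Icc (((p - 1 : ℕ) : ℝ) / n) ((((p - 1 : ℕ) : ℝ) + 1) / n) := by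
    intro τ hτ
    constructor
    · rw [div_le_iff₀ hn']
      have := mono hτ.1
      linarith
    · refine hτ.2.trans ?_
      rw [div_le_div_iff_of_pos_right hn']
      have h3 : p ≤ p - 1 + 1 := by omega
      exact_mod_cast h3
  obtain ⟨k1, hk1⟩ : ∃ k, k = min q (n - 1) := ⟨_, rfl⟩
  have ek1 : ∀ τ ∈ Icc ((q : ℝ) / n) be, τ ∈ Icc ((k1 : ℝ) / n) (((k1 : ℝ) + 1) / n) := by
    intro τ hτ
    constructor
    · refine le_trans ?_ hτ.1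
      rw [div_le_div_iff_of_pos_right hn']
      have h3 : k1 ≤ q := by omega
      exact_mod_cast h3
    · rw [le_div_iff₀ hn']
      have h4 := mono hτ.2
      rcases le_total q (n - 1) with h3 | h3
      · have h5 : k1 = q := by omega
        rw [h5]
        linarith
      · have h5 : k1 + 1 = n := by omega
        have h6 : (k1 : ℝ) + 1 = n := by exact_mod_cast h5
        have h7 := nle ibe.2
        rw [h6]
        linarith
  have nA : ∀ x ∈ (fun t => (η : ℂ) * poly f n t) '' Icc al ((p : ℝ) / n), ‖x‖ ≤ ρ.R1 := by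
    rintro _ ⟨τ, hτ, rfl⟩
    rcases le_total τ m1 with h3 | h3
    · exact (nal τ ⟨hτ.1, h3⟩).le
    · have h4 := near_edge hη hadj (k := p - 1) (by omega) (ek0 τ hτ)
        (ek0 m1 ⟨o2, h3.trans hτ.2⟩)
      have h5 := norm_sub_norm_le ((η : ℂ) * poly f n τ) ((η : ℂ) * poly f n m1)
      change ‖(η : ℂ) * poly f n τ‖ ≤ ρ.R1
      linarith
  have nB : ∀ x ∈ (fun t => (η : ℂ) * poly f n t) '' Icc ((q : ℝ) / n) be, ‖x‖ ≤ ρ.R1 := by
    rintro _ ⟨τ, hτ, rfl⟩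
    rcases le_total m3 τ with h3 | h3
    · exact (nbe τ ⟨h3, hτ.2⟩).le
    · have h4 := near_edge hη hadj (k := k1) (by omega) (ek1 τ hτ)
        (ek1 m3 ⟨hτ.1.trans h3, o7⟩)
      have h5 := norm_sub_norm_le ((η : ℂ) * poly f n τ) ((η : ℂ) * poly f n m3)
      change ‖(η : ℂ) * poly f n τ‖ ≤ ρ.R1
      linarith
  have dA : ∀ τ ∈ Icc ((T1 : ℝ) / n) ((T2 : ℝ) / n),
      (η : ℂ) * poly f n τ ∉ (fun t => (η : ℂ) * poly f n t) '' Icc al ((p : ℝ) / n) := by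
    rintro τ hτ ⟨s, hs, he⟩
    exact curve_ne hη hadj hinj (k0 := p - 1) (by omega) l6 (by omega) (Or.inl (by omega))
      (ek0 s hs) hτ he.symm
  have dB : ∀ τ ∈ Icc ((T1 : ℝ) / n) ((T2 : ℝ) / n),
      (η : ℂ) * poly f n τ ∉ (fun t => (η : ℂ) * poly f n t) '' Icc ((q : ℝ) / n) be := by
    rintro τ hτ ⟨s, hs, he⟩
    exact curve_ne hη hadj hinj (k0 := k1) (by omega) l6 (by omega) (Or.inr (by omega))
      (ek1 s hs) hτ he.symm
  have pA := (isPreconnected_Icc (a := al) (b := (p : ℝ) / n)).image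
    (fun t => (η : ℂ) * poly f n t) hcc.continuousOn
  have pB := (isPreconnected_Icc (a := (q : ℝ) / n) (b := be)).image
    (fun t => (η : ℂ) * poly f n t) hcc.continuousOn
  have cp : (η : ℂ) * poly f n ((p : ℝ) / n) = (η : ℂ) * emb (f p) := by
    rw [poly_at hn (by omega)]
  have cq : (η : ℂ) * poly f n ((q : ℝ) / n) = (η : ℂ) * emb (f q) := by
    rw [poly_at hn (by omega)]
  have mp' : (η : ℂ) * poly f n ((p : ℝ) / n) ∈
      (fun t => (η : ℂ) * poly f n t) '' Icc al ((p : ℝ) / n) := ⟨_, ⟨hap, le_rfl⟩, rfl⟩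
  have mq' : (η : ℂ) * poly f n ((q : ℝ) / n) ∈
      (fun t => (η : ℂ) * poly f n t) '' Icc ((q : ℝ) / n) be := ⟨_, ⟨le_rfl, hqb⟩, rfl⟩
  have s1 := wi_conn (c := fun t => (η : ℂ) * poly f n t) hdT hcc.continuousOn pA nA nbe' sT1
    sT2 dA obe' (a := (η : ℂ) * poly f n al) (a' := (η : ℂ) * poly f n ((p : ℝ) / n))
    ⟨al, ⟨le_rfl, hap⟩, rfl⟩ mp'
  have op' : ∀ τ ∈ Icc ((T1 : ℝ) / n) ((T2 : ℝ) / n),
      (η : ℂ) * poly f n τ ≠ (η : ℂ) * poly f n ((p : ℝ) / n) := fun τ hτ he =>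
    dA τ hτ (he ▸ mp')
  have oq' : ∀ τ ∈ Icc ((T1 : ℝ) / n) ((T2 : ℝ) / n),
      (η : ℂ) * poly f n τ ≠ (η : ℂ) * poly f n ((q : ℝ) / n) := fun τ hτ he =>
    dB τ hτ (he ▸ mq')
  have s2 := wi_swap (c := fun t => (η : ℂ) * poly f n t) hdT hcc.continuousOn (nA _ mp') nbe'
    sT1 sT2 op' obe'
  have s3 := wi_conn (c := fun t => (η : ℂ) * poly f n t) hdT hcc.continuousOn pB nB (nA _ mp')
    sT1 sT2 dB op' (a := (η : ℂ) * poly f n be) (a' := (η : ℂ) * poly f n ((q : ℝ) / n))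
    ⟨be, ⟨hqb, le_rfl⟩, rfl⟩ mq'
  have s4 := wi_swap (c := fun t => (η : ℂ) * poly f n t) hdT hcc.continuousOn (nA _ mp')
    (nB _ mq') sT1 sT2 op' oq'
  have w2 : Wi (fun t => (η : ℂ) * poly f n t) ((T1 : ℝ) / n) ((T2 : ℝ) / n)
      ((η : ℂ) * emb (f p)) ((η : ℂ) * emb (f q)) ≠ 0 := by
    rw [← cp, ← cq]
    intro h0
    apply w1
    rw [s1]
    linarith
  have hne : ∀ i ≤ n, ∀ j ≤ n, i ≠ j → f i ≠ f j := fun i hi j hj hij h => hij (hinj i hi j hj h)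
  rw [wi_poly hη l6.le (by omega) hadj
    (fun k hk1 hk2 => hne k (by omega) p (by omega) (by omega))
    (fun k hk1 hk2 => hne k (by omega) q (by omega) (by omega)) hn] at w2
  -- (7)
  intro hcon
  have g1 : Conn {z | η * ‖emb z‖ ≤ ρ.R1 ∧ ∀ k, T1 ≤ k → k ≤ T2 → z ≠ f k} (f p) (f M1) :=
    seg_conn hpM1 (fun k hk1 hk2 => hadj k (by omega)) fun k hk1 hk2 =>
      ⟨in1 k hk1 hk2, fun k' hk'1 hk'2 => hne k (by omega) k' (by omega) (by omega)⟩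
  have g3 : Conn {z | η * ‖emb z‖ ≤ ρ.R1 ∧ ∀ k, T1 ≤ k → k ≤ T2 → z ≠ f k} (f M3) (f q) :=
    seg_conn hM3q (fun k hk1 hk2 => hadj k (by omega)) fun k hk1 hk2 =>
      ⟨in3 k hk1 hk2, fun k' hk'1 hk'2 => hne k (by omega) k' (by omega) (by omega)⟩
  have g : Conn {z | ‖emb z‖ ≤ ρ.R1 / η ∧ ∀ k, T1 ≤ k → k ≤ T2 → z ≠ f k} (f p) (f q) := by
    refine ((g1.trans hcon).trans g3).mono ?_
    rintro z ⟨hz1, hz2⟩
    refine ⟨?_, hz2⟩
    rw [le_div_iff₀ hη]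
    linarith
  refine w2 (dw_conn l6.le (fun k hk1 hk2 => hadj k (by omega)) ?_ ?_ g)
  · rw [div_lt_iff₀ hη]
    linarith [fT1.1]
  · rw [div_lt_iff₀ hη]
    linarith [fT2.1]

theorem pw_of_cert (ρ : Rad) {R0 : ℝ} (h0 : 0 < R0) (h1 : R0 / 2 < ρ.R1) :
    ∀ᶠ η in 𝓝[>] (0 : ℝ), ∀ ω, conf η ω ∈ OCert ρ → PW ω (2 * (ρ.r / η)) (R0 / η / 2) := by
  have q0 := ρ.h0
  have q1 := ρ.h1
  have q2 := ρ.h2
  obtain ⟨ε, hε⟩ : ∃ ε : ℝ, ε = min (min ((ρ.R1 - ρ.r) / 2) ((ρ.R - ρ.R1) / 2)) (ρ.r / 2) :=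
    ⟨_, rfl⟩
  have hε0 : 0 < ε := by
    rw [hε]
    exact lt_min (lt_min (by linarith) (by linarith)) (by linarith)
  filter_upwards [Ioo_mem_nhdsGT hε0] with η hη ω hω
  have hη0 : 0 < η := hη.1
  have hη1 : η < ε := hη.2
  have k1 : ε ≤ (ρ.R1 - ρ.r) / 2 := by
    rw [hε]
    exact (min_le_left _ _).trans (min_le_left _ _)
  have k2 : ε ≤ (ρ.R - ρ.R1) / 2 := by
    rw [hε]
    exact (min_le_left _ _).trans (min_le_right _ _)
  have k3 : ε ≤ ρ.r / 2 := by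
    rw [hε]
    exact min_le_right _ _
  obtain ⟨f, n, hf, δ, hδ, hs⟩ := ocert_conf hω
  obtain ⟨t0, m1, t1, t2, m3, t3, l1, l2, l3, l4, l5, l6, r0, r1, r2, r3, s1, s3, hsep⟩ :=
    ext_p hη0 (by linarith) (by linarith) (fun k hk => (hf.1 k hk).1) hf.2 hδ hs
  have big : ∀ v : V, ρ.R ≤ η * ‖emb v‖ + η → R0 / η / 2 < nrm v := by
    intro v hv
    have h2 := emb_le_nrm v
    rw [div_div, div_lt_iff₀ (by positivity)]
    nlinarith
  have small : ∀ v : V, η * ‖emb v‖ ≤ ρ.r + η → (nrm v : ℝ) < 2 * (ρ.r / η) := by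
    intro v hv
    have h2 := nrm_le_emb v
    have h3 : (17 / 10 : ℝ) < Real.sqrt 3 := by
      rw [Real.lt_sqrt (by norm_num)]
      norm_num
    have h5 : (0 : ℝ) ≤ nrm v := by exact_mod_cast nrm_nonneg v
    rw [mul_div_assoc', lt_div_iff₀ hη0]
    have h6 : 17 / 20 * (nrm v : ℝ) ≤ ‖emb v‖ := by nlinarith
    have h7 : 17 / 20 * ((nrm v : ℝ) * η) ≤ η * ‖emb v‖ := by nlinarith
    have h8 : η < ρ.r / 2 := by linarith
    linarith
  refine ⟨f, n, t0, m1, t1, t2, m3, t3, hf, l1, l2, l3, l4, l5, l6, big _ r0, big _ r1,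
    big _ r2, big _ r3, small _ s1, small _ s3, fun hcon => hsep (hcon.mono ?_)⟩
  rintro z ⟨hz1, hz2⟩
  refine ⟨?_, hz2⟩
  have h2 := emb_le_nrm z
  rw [div_div, le_div_iff₀ (by positivity)] at hz1
  nlinarith

end Pool.Agent.MSTLim
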