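import Pool.Agent.MSTLim.Defs

/-!
# The inversions `z ↦ c / z` of the sphere

In the coordinates `(w, t)` of the sphere, `w` complex, `|w| ^ 2 + t ^ 2 = 1`, the inversion is
`(w, t) ↦ (2 c conj w / D, (c ^ 2 (1 - t) - (1 + t)) / D)` with `D = c ^ 2 (1 - t) + (1 + t)`.
-/

namespace Pool.Agent.MSTLim

open Filter Topology Set

/-- The denominator. -/
noncomputable def invD (c : ℝ) (p : Sph) : ℝ := c ^ 2 * (1 - p.1.2) + (1 + p.1.2)

theorem Sph.abs_le (p : Sph) : |p.1.2| ≤ 1 := by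
  refine abs_le_of_sq_le_sq ?_ zero_le_one
  nlinarith [p.2, sq_nonneg ‖p.1.1‖]

theorem invD_pos {c : ℝ} (hc : 0 < c) (p : Sph) : 0 < invD c p := by
  have h := _root_.abs_le.mp p.abs_le
  have h2 : 0 < c ^ 2 := by positivity
  unfold invD
  rcases lt_or_ge p.1.2 0 with h3 | h3
  · have : 0 < c ^ 2 * (1 - p.1.2) := mul_pos h2 (by linarith)
    linarith [h.1]
  · have : 0 ≤ c ^ 2 * (1 - p.1.2) := mul_nonneg h2.le (by linarith [h.2])
    linarith

/-- The inversion `z ↦ c / z` as a map of the sphere. -/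
noncomputable def invF (c : ℝ) (hc : 0 < c) (p : Sph) : Sph :=
  ⟨((2 * c / invD c p : ℝ) * (starRingEnd ℂ) p.1.1,
    (c ^ 2 * (1 - p.1.2) - (1 + p.1.2)) / invD c p), by
    have h := invD_pos hc p
    have h1 := p.2
    simp only [norm_mul, Complex.norm_real, Real.norm_eq_abs, Complex.norm_conj]
    rw [abs_of_nonneg (by positivity), mul_pow, div_pow, div_pow]
    rw [show ‖p.1.1‖ ^ 2 = 1 - p.1.2 ^ 2 by linarith]
    field_simp
    unfold invD
    ring⟩

theorem continuous_invF (c : ℝ) (hc : 0 < c) : Continuous (invF c hc) := by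
  have hD : Continuous (invD c) := by unfold invD; fun_prop
  have hne : ∀ p, invD c p ≠ 0 := fun p => (invD_pos hc p).ne'
  refine Continuous.subtype_mk ?_ _
  refine Continuous.prodMk ?_ ?_
  · refine Continuous.mul (Complex.continuous_ofReal.comp ?_) ?_
    · exact Continuous.div (by fun_prop) hD hne
    · exact Complex.continuous_conj.comp (continuous_fst.comp continuous_subtype_val)
  · exact Continuous.div (by fun_prop) hD hne

theorem invF_invF (c : ℝ) (hc : 0 < c) (p : Sph) : invF c hc (invF c hc p) = p := by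
  have h := invD_pos hc p
  have hD : invD c (invF c hc p) = 4 * c ^ 2 / invD c p := by
    unfold invD invF
    simp only
    have h' : c ^ 2 * (1 - p.1.2) + (1 + p.1.2) ≠ 0 := h.ne'
    unfold invD
    field_simp
    ring
  have h2 : invD c (invF c hc p) ≠ 0 := (invD_pos hc _).ne'
  apply Subtype.ext
  apply Prod.ext
  · change ((2 * c / invD c (invF c hc p) : ℝ) : ℂ) *
      (starRingEnd ℂ) (((2 * c / invD c p : ℝ) : ℂ) * (starRingEnd ℂ) p.1.1) = p.1.1
    rw [map_mul, Complex.conj_ofReal, Complex.conj_conj, ← mul_assoc, ← Complex.ofReal_mul, hD]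
    have : (2 * c / (4 * c ^ 2 / invD c p)) * (2 * c / invD c p) = 1 := by
      field_simp
      norm_num
    rw [this, Complex.ofReal_one, one_mul]
  · change (c ^ 2 * (1 - (c ^ 2 * (1 - p.1.2) - (1 + p.1.2)) / invD c p) -
      (1 + (c ^ 2 * (1 - p.1.2) - (1 + p.1.2)) / invD c p)) / invD c (invF c hc p) = p.1.2
    rw [hD]
    have h' : c ^ 2 * (1 - p.1.2) + (1 + p.1.2) ≠ 0 := h.ne'
    unfold invD
    field_simp
    ring

/-- The inversion `z ↦ c / z` as a homeomorphism of the sphere. -/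
noncomputable def inv (c : ℝ) (hc : 0 < c) : Sph ≃ₜ Sph where
  toFun := invF c hc
  invFun := invF c hc
  left_inv := invF_invF c hc
  right_inv := invF_invF c hc
  continuous_toFun := continuous_invF c hc
  continuous_invFun := continuous_invF c hc

/-- The point at infinity. -/
noncomputable def infty : Sph := ⟨(0, 1), by simp⟩

theorem inv_sig {c : ℝ} (hc : 0 < c) {z : ℂ} (hz : z ≠ 0) : inv c hc (sig z) = sig (c / z) := by
  have hn : 0 < ‖z‖ := norm_pos_iff.mpr hz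
  have hcz : ‖(c : ℂ) / z‖ = c / ‖z‖ := by
    rw [norm_div, Complex.norm_real, Real.norm_eq_abs, abs_of_pos hc]
  have hD : invD c (sig z) = 2 * (c ^ 2 + ‖z‖ ^ 2) / (1 + ‖z‖ ^ 2) := by
    unfold invD sig
    simp only
    field_simp
    ring
  have h1 : (0 : ℝ) < 1 + ‖z‖ ^ 2 := by positivity
  have h2 : (0 : ℝ) < c ^ 2 + ‖z‖ ^ 2 := by positivity
  apply Subtype.ext
  apply Prod.ext
  · change ((2 * c / invD c (sig z) : ℝ) : ℂ) *
      (starRingEnd ℂ) (((2 / (1 + ‖z‖ ^ 2) : ℝ) : ℂ) * z) =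
        ((2 / (1 + ‖(c : ℂ) / z‖ ^ 2) : ℝ) : ℂ) * (c / z)
    rw [hcz, hD, map_mul, Complex.conj_ofReal, ← mul_assoc, ← Complex.ofReal_mul]
    have e1 : 2 * c / (2 * (c ^ 2 + ‖z‖ ^ 2) / (1 + ‖z‖ ^ 2)) * (2 / (1 + ‖z‖ ^ 2)) =
        2 / (1 + (c / ‖z‖) ^ 2) * c / ‖z‖ ^ 2 := by
      field_simp
      ring
    have e2 : (starRingEnd ℂ) z = (‖z‖ ^ 2 : ℝ) / z := by
      rw [eq_div_iff hz, mul_comm, Complex.mul_conj, Complex.normSq_eq_norm_sq]
    rw [e1, e2]
    push_cast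
    have h3 : (‖z‖ : ℂ) ≠ 0 := by exact_mod_cast hn.ne'
    field_simp
  · change (c ^ 2 * (1 - (‖z‖ ^ 2 - 1) / (‖z‖ ^ 2 + 1)) - (1 + (‖z‖ ^ 2 - 1) / (‖z‖ ^ 2 + 1))) /
      invD c (sig z) = (‖(c : ℂ) / z‖ ^ 2 - 1) / (‖(c : ℂ) / z‖ ^ 2 + 1)
    rw [hcz, hD]
    field_simp
    ring

theorem inv_moebius {c : ℝ} (hc : 0 < c) : IsMoebius (inv c hc) := by
  refine ⟨0, c, 1, 0, ?_, ?_⟩
  · simpa using hc.ne'
  · intro z hz
    have hz' : z ≠ 0 := by simpa using hz
    rw [inv_sig hc hz']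
    simp

theorem inv_symm {c : ℝ} (hc : 0 < c) : (inv c hc).symm = inv c hc := rfl

end Pool.Agent.MSTLim
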