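import Pool.Agent.MSTLim.Cert
import Pool.Agent.MSTLim.DiscI
import Pool.Agent.MSTLim.Inv
import Pool.Agent.MSTLim.PolyB

/-!
# The strong pattern and the inverted curve: the pieces

Notation: `κ > 0`, the inversion `z ↦ κ / z` of the sphere is `inv κ hκ` (`Inv.lean`), and
`act (inv κ hκ) (cur η f n)` is the inverted polygonal curve.

* `ht_inv`: by definition of `inv` (`invF`) the height of `inv κ (sig z)` is
  `(κ² (1 - h) - (1 + h)) / (κ² (1 - h) + (1 + h))` with `h = (|z|² - 1) / (|z|² + 1)`, where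
  `1 - h = 2 / (1 + |z|²)`, `1 + h = 2 |z|² / (1 + |z|²)`.
* `pl_inv`: `inv_sig`, `st_sig`.
* `hi_ge`, `hi_le`: both sides are `(x - 1) / (x + 1)` with `x = κ² / |z|²`; cross multiplication:
  `hr s ≤ (κ² - x²) / (κ² + x²)` iff `x² s² ≤ κ²`.
* `dist_inv`: if `‖x0‖ ≤ 2 R / e`, `z, x0 ≠ 0`, `e R ≤ ‖z - x0‖`, `κ = r R` then
  `‖κ / z - κ / x0‖ = κ ‖z - x0‖ / (‖z‖ ‖x0‖)`.  If `‖z‖ ≥ 2 ‖x0‖`, then `‖z - x0‖ ≥ ‖z‖ / 2` and
  this is at least `κ / (2 ‖x0‖) ≥ κ e / (4 R) = r e / 4`.  Otherwise `‖z‖ < 4 R / e` and it is at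
  least `κ e R e² / (8 R²) = e³ r / 8`.
* `ps_wi`: `qidx` with `D = {z | nrm z ≤ 8 / 5 a}` (connected: `isConn_ball` with the centre `0`
  and the radius `⌊8 / 5 a⌋`) and `E = {z | b ≤ nrm z}` (connected: `isConn_out 0 (⌈b⌉ - 1)`); it
  gives an excursion `f[i, j]` of `f[w1, w2]` outside `D`; then `wi_inv_poly` with `a = f al`,
  `b = f be`.  For `z ∈ D`: `‖emb z‖ ≤ nrm z ≤ 8 / 5 a` (`emb_le_nrm`), while
  `‖emb (f al)‖ ≥ √3 / 2 * nrm (f al) > √3 a > 8 / 5 a` (`nrm_le_emb`).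
-/

namespace Pool.Agent.MSTLim

open Pool.Agent.TriPerc Set Filter Topology

variable {f : ℕ → V} {n : ℕ} {η κ t e r R a b x s : ℝ} {z x0 : ℂ}

private theorem qa_at (hκ : 0 < κ) (ht' : t ∈ Icc (0 : ℝ) 1) :
    at' (act (inv κ hκ) (cur η f n)) t = inv κ hκ (sig (η * poly f n t)) := by
  unfold at' act cur
  simp only [ContinuousMap.comp_apply, ContinuousMap.coe_mk]
  rw [projIcc_of_mem zero_le_one ht']

theorem ht_inv (hκ : 0 < κ) (ht' : t ∈ Icc (0 : ℝ) 1) :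
    ht (act (inv κ hκ) (cur η f n)) t =
      (κ ^ 2 - ‖(η : ℂ) * poly f n t‖ ^ 2) / (κ ^ 2 + ‖(η : ℂ) * poly f n t‖ ^ 2) := by
  unfold ht
  rw [qa_at hκ ht']
  generalize (η : ℂ) * poly f n t = z
  change (κ ^ 2 * (1 - (‖z‖ ^ 2 - 1) / (‖z‖ ^ 2 + 1)) - (1 + (‖z‖ ^ 2 - 1) / (‖z‖ ^ 2 + 1))) /
    invD κ (sig z) = _
  have hD : invD κ (sig z) = 2 * (κ ^ 2 + ‖z‖ ^ 2) / (1 + ‖z‖ ^ 2) := by
    unfold invD sig
    simp only
    field_simp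
    ring
  rw [hD]
  field_simp
  ring

theorem pl_inv (hκ : 0 < κ) (ht' : t ∈ Icc (0 : ℝ) 1) (h0 : (η : ℂ) * poly f n t ≠ 0) :
    pl (act (inv κ hκ) (cur η f n)) t = (κ : ℂ) / ((η : ℂ) * poly f n t) := by
  unfold pl
  rw [qa_at hκ ht', inv_sig hκ h0, st_sig]

theorem hi_ge (hκ : 0 < κ) (hx : 0 ≤ x) (hs : 0 ≤ s) (h : x * s ≤ κ) :
    hr s ≤ (κ ^ 2 - x ^ 2) / (κ ^ 2 + x ^ 2) := by
  unfold hr
  rw [div_le_div_iff₀ (by positivity) (by positivity)]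
  have h1 : (x * s) ^ 2 ≤ κ ^ 2 := pow_le_pow_left₀ (mul_nonneg hx hs) h 2
  nlinarith

theorem hi_le (hκ : 0 < κ) (hx : 0 ≤ x) (hs : 0 ≤ s) (h : κ ≤ x * s) :
    (κ ^ 2 - x ^ 2) / (κ ^ 2 + x ^ 2) ≤ hr s := by
  unfold hr
  rw [div_le_div_iff₀ (by positivity) (by positivity)]
  have h1 : κ ^ 2 ≤ (x * s) ^ 2 := pow_le_pow_left₀ hκ.le h 2
  nlinarith

theorem dist_inv (hr : 0 < r) (hR : 0 < R) (he : 0 < e) (hz : z ≠ 0) (hx0 : x0 ≠ 0)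
    (h1 : ‖x0‖ ≤ 2 * R / e) (h2 : e * R ≤ ‖z - x0‖) :
    min (r * e / 4) (r * e ^ 3 / 8) ≤ ‖((r * R : ℝ) : ℂ) / z - ((r * R : ℝ) : ℂ) / x0‖ := by
  have hz' : 0 < ‖z‖ := norm_pos_iff.2 hz
  have hx' : 0 < ‖x0‖ := norm_pos_iff.2 hx0
  have h3 : ‖((r * R : ℝ) : ℂ) / z - ((r * R : ℝ) : ℂ) / x0‖ =
      r * R * ‖z - x0‖ / (‖z‖ * ‖x0‖) := by
    have e1 : ((r * R : ℝ) : ℂ) / z - ((r * R : ℝ) : ℂ) / x0 =
        ((r * R : ℝ) : ℂ) * (x0 - z) / (z * x0) := by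
      field_simp
    rw [e1, norm_div, norm_mul, norm_mul, Complex.norm_real,
      Real.norm_of_nonneg (mul_nonneg hr.le hR.le), norm_sub_rev]
  rw [h3, le_div_iff₀ (mul_pos hz' hx')]
  rcases le_total (2 * ‖x0‖) ‖z‖ with h4 | h4
  · have h5 : ‖z‖ / 2 ≤ ‖z - x0‖ := by
      have := norm_sub_norm_le z x0
      linarith
    calc min (r * e / 4) (r * e ^ 3 / 8) * (‖z‖ * ‖x0‖) ≤ r * e / 4 * (‖z‖ * ‖x0‖) :=
          mul_le_mul_of_nonneg_right (min_le_left _ _) (by positivity)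
      _ ≤ r * e / 4 * (‖z‖ * (2 * R / e)) := by gcongr
      _ = r * R * (‖z‖ / 2) := by
          field_simp
          ring
      _ ≤ r * R * ‖z - x0‖ := by gcongr
  · calc min (r * e / 4) (r * e ^ 3 / 8) * (‖z‖ * ‖x0‖) ≤ r * e ^ 3 / 8 * (‖z‖ * ‖x0‖) :=
          mul_le_mul_of_nonneg_right (min_le_right _ _) (by positivity)
      _ ≤ r * e ^ 3 / 8 * ((2 * (2 * R / e)) * (2 * R / e)) := by
          gcongr
          linarith
      _ = r * R * (e * R) := by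
          field_simp
          ring
      _ ≤ r * R * ‖z - x0‖ := by gcongr

private theorem qa_disc {a : ℝ} : {z : V | (nrm z : ℝ) ≤ 8 / 5 * a} = Ball 0 ⌊8 / 5 * a⌋ := by
  ext z
  simp only [mem_setOf_eq, Ball, sub_zero, Int.le_floor]

private theorem qa_out {b : ℝ} : {z : V | b ≤ (nrm z : ℝ)} = {v : V | ⌈b⌉ - 1 < nrm (v - 0)} := by
  ext z
  simp only [mem_setOf_eq, sub_zero, Int.sub_one_lt_iff, Int.ceil_le]

private theorem qa_far {a : ℝ} {v z : V} (ha : 0 < a) (hv : 2 * a < nrm v)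
    (hz : (nrm z : ℝ) ≤ 8 / 5 * a) : ‖emb z‖ < ‖emb v‖ := by
  have h1 := emb_le_nrm z
  have h2 := nrm_le_emb v
  have h3 : (17 : ℝ) / 10 < √3 := by
    rw [Real.lt_sqrt (by norm_num)]
    norm_num
  have h4 : (0 : ℝ) < √3 := by positivity
  have h5 : √3 / 2 * (2 * a) < √3 / 2 * nrm v := by gcongr
  nlinarith

theorem ps_wi {w0 al u1 w1 w2 u3 be w3 : ℕ} (hη : 0 < η) (hκ : 0 < κ) (ha : 0 < a)
    (hab : 2 * a < b)
    (hadj : ∀ k < n, Adj (f k) (f (k + 1))) (hinj : ∀ i ≤ n, ∀ j ≤ n, f i = f j → i = j)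
    (h1 : w0 ≤ al) (h2 : al ≤ u1) (h3 : u1 < w1) (h4 : w1 < w2)
    (h7 : w2 < u3) (h8 : u3 ≤ be) (h9 : be ≤ w3) (h10 : w3 ≤ n)
    (k1 : nrm (f w1) ≤ 8 / 5 * a) (k2 : nrm (f w2) ≤ 8 / 5 * a)
    (k4 : b ≤ nrm (f u1)) (k5 : b ≤ nrm (f u3))
    (hal : ∀ k, al ≤ k → k ≤ u1 → 2 * a < nrm (f k))
    (hbe : ∀ k, u3 ≤ k → k ≤ be → 2 * a < nrm (f k))
    (hidx : ∑ k ∈ Finset.Ico w1 w2,
      (ar (f al) (f k) (f (k + 1)) - ar (f be) (f k) (f (k + 1))) ≠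
      (th (f al) (f w2) - th (f be) (f w2)) - (th (f al) (f w1) - th (f be) (f w1)))
    (h0 : ∀ i j, w1 ≤ i → i + 1 < j → j ≤ w2 → (∀ k, i < k → k < j → 8 / 5 * a < nrm (f k)) →
      ∀ t ∈ Icc ((i : ℝ) / n) ((j : ℝ) / n), poly f n t ≠ 0) :
    ∃ i j s, w1 ≤ i ∧ i < s ∧ s < j ∧ j ≤ w2 ∧ nrm (f i) ≤ 8 / 5 * a ∧
      nrm (f j) ≤ 8 / 5 * a ∧ (∀ k, i < k → k < j → 8 / 5 * a < nrm (f k)) ∧ b ≤ nrm (f s) ∧
      Wi (fun t => (κ : ℂ) / ((η : ℂ) * poly f n t)) ((i : ℝ) / n) ((j : ℝ) / n)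
        ((κ : ℂ) / (η * emb (f al))) ((κ : ℂ) / (η * emb (f be))) ≠ 0 := by
  have hfa := hal al le_rfl h2
  have hfb := hbe be h8 le_rfl
  obtain ⟨i, j, s, g1, g2, g3, g4, g5, g6, g8, g7, key⟩ := qidx (f := f) (w0 := w0) (al := al)
    (u1 := u1) (w1 := w1) (w2 := w2) (u3 := u3) (be := be) (w3 := w3)
    (D := {z : V | (nrm z : ℝ) ≤ 8 / 5 * a}) (E := {z : V | b ≤ (nrm z : ℝ)})
    (by rw [qa_disc]; exact isConn_ball _ _) (by rw [qa_out]; exact isConn_out _ _)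
    (fun z hz hz' => by
      have e1 : b ≤ (nrm z : ℝ) := hz
      have e2 : (nrm z : ℝ) ≤ 8 / 5 * a := hz'
      linarith)
    (fun k _ e2 => hadj k (by omega)) (fun i _ e2 j _ e4 e5 => hinj i (by omega) j (by omega) e5)
    h1 h2 h3 h4 h7 h8 h9 (fun z hz => qa_far ha hfa hz) (fun z hz => qa_far ha hfb hz)
    k1 k2
    (fun k e1 e2 e3 => by
      have e4 := hal k e1 e2
      have e5 : (nrm (f k) : ℝ) ≤ 8 / 5 * a := e3
      linarith)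
    (fun k e1 e2 e3 => by
      have e4 := hbe k e1 e2
      have e5 : (nrm (f k) : ℝ) ≤ 8 / 5 * a := e3
      linarith)
    k4 k5 hidx
  have hi : (nrm (f i) : ℝ) ≤ 8 / 5 * a := g5
  have hj : (nrm (f j) : ℝ) ≤ 8 / 5 * a := g6
  have hout : ∀ k, i < k → k < j → 8 / 5 * a < nrm (f k) := fun k e1 e2 => not_le.1 (g8 k e1 e2)
  have hna : ∀ k, i ≤ k → k ≤ j → f k ≠ f al := fun k e1 e2 e3 => by
    have := hinj k (by omega) al (by omega) e3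
    omega
  have hnb : ∀ k, i ≤ k → k ≤ j → f k ≠ f be := fun k e1 e2 e3 => by
    have := hinj k (by omega) be (by omega) e3
    omega
  refine ⟨i, j, s, g1, g2, g3, g4, hi, hj, hout, g7, ?_⟩
  rw [wi_inv_poly hη hκ (by omega) (by omega) hadj hna hnb (by omega)
    (h0 i j g1 (by omega) g4 hout) (qa_far ha hfa hi) (qa_far ha hfb hi) (qa_far ha hfa hj)
    (qa_far ha hfb hj)]
  intro h
  apply key
  linarith

end Pool.Agent.MSTLim
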