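import Pool.Agent.MSTLim.Inv
import Mathlib.Algebra.Ring.IsFormallyReal

/-!
# The map `z ↦ 1 / z` of the sphere is unique
-/

namespace Pool.Agent.MSTLim

open Filter Topology Set

private theorem eq_sig (p : Sph) (h : p.1.2 ≠ 1) : p = sig (p.1.1 / ((1 - p.1.2 : ℝ) : ℂ)) := by
  obtain ⟨⟨w, t⟩, hp⟩ := p
  simp only at h hp ⊢
  have h1 : 0 < 1 - t := by
    have h2 : t ≤ 1 := by nlinarith [sq_nonneg ‖w‖]
    exact sub_pos.2 (lt_of_le_of_ne h2 h)
  have hn : ‖w / ((1 - t : ℝ) : ℂ)‖ ^ 2 = (1 + t) / (1 - t) := by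
    rw [norm_div, Complex.norm_real, Real.norm_eq_abs, abs_of_pos h1, div_pow,
      show ‖w‖ ^ 2 = (1 - t) * (1 + t) by linarith]
    field_simp
  apply Subtype.ext
  apply Prod.ext
  · change w = ((2 / (1 + ‖w / ((1 - t : ℝ) : ℂ)‖ ^ 2) : ℝ) : ℂ) * (w / ((1 - t : ℝ) : ℂ))
    rw [hn]
    have e : (2 / (1 + (1 + t) / (1 - t)) : ℝ) = 1 - t := by
      field_simp
      ring
    rw [e]
    have h3 : ((1 - t : ℝ) : ℂ) ≠ 0 := by exact_mod_cast h1.ne'
    field_simp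
  · change t = (‖w / ((1 - t : ℝ) : ℂ)‖ ^ 2 - 1) / (‖w / ((1 - t : ℝ) : ℂ)‖ ^ 2 + 1)
    rw [hn]
    field_simp
    ring

private theorem sig_tendsto_zero : Tendsto (fun n : ℕ => sig ((1 : ℂ) / ((n : ℂ) + 1))) atTop
    (𝓝 (sig 0)) :=
  (continuous_sig.tendsto 0).comp tendsto_one_div_add_atTop_nhds_zero_nat

private theorem dense_sig : Dense (sig '' {z : ℂ | z ≠ 0}) := by
  have h0 : sig 0 ∈ closure (sig '' {z : ℂ | z ≠ 0}) :=
    mem_closure_of_tendsto sig_tendsto_zero (Eventually.of_forall fun n =>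
      ⟨_, one_div_ne_zero (by exact_mod_cast Nat.succ_ne_zero n), rfl⟩)
  have h1 : inv 1 one_pos (sig 0) ∈ closure (sig '' {z : ℂ | z ≠ 0}) := by
    have h2 := ((inv 1 one_pos).continuous.tendsto (sig 0)).comp sig_tendsto_zero
    refine mem_closure_of_tendsto h2 (Eventually.of_forall fun n => ?_)
    have h3 : (1 : ℂ) / ((n : ℂ) + 1) ≠ 0 :=
      one_div_ne_zero (by exact_mod_cast Nat.succ_ne_zero n)
    refine ⟨((1 : ℝ) : ℂ) / (1 / ((n : ℂ) + 1)), ?_, (inv_sig one_pos h3).symm⟩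
    exact div_ne_zero (by simp) h3
  intro p
  by_cases hp : p.1.2 = 1
  · have h4 : p = inv 1 one_pos (sig 0) := by
      have h5 : p.1.1 = 0 := by
        have := p.2
        rw [hp] at this
        have h6 : ‖p.1.1‖ ^ 2 = 0 := by linarith
        exact norm_eq_zero.1 (pow_eq_zero_iff two_ne_zero |>.1 h6)
      apply Subtype.ext
      apply Prod.ext
      · rw [h5]
        change (0 : ℂ) = ((2 * 1 / invD 1 (sig 0) : ℝ) : ℂ) *
          (starRingEnd ℂ) (((2 / (1 + ‖(0 : ℂ)‖ ^ 2) : ℝ) : ℂ) * 0)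
        simp
      · rw [hp]
        change (1 : ℝ) = (1 ^ 2 * (1 - (‖(0 : ℂ)‖ ^ 2 - 1) / (‖(0 : ℂ)‖ ^ 2 + 1)) -
          (1 + (‖(0 : ℂ)‖ ^ 2 - 1) / (‖(0 : ℂ)‖ ^ 2 + 1))) / invD 1 (sig 0)
        unfold invD sig
        norm_num
    rw [h4]
    exact h1
  · by_cases hz : p.1.1 / ((1 - p.1.2 : ℝ) : ℂ) = 0
    · rw [eq_sig p hp, hz]
      exact h0
    · rw [eq_sig p hp]
      exact subset_closure ⟨_, hz, rfl⟩

/-- A homeomorphism of the sphere which is `z ↦ 1 / z` on `z ≠ 0` is `inv 1`. -/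
theorem inv_unique {g : Sph ≃ₜ Sph} (h : ∀ z : ℂ, z ≠ 0 → g (sig z) = sig (1 / z)) :
    g = inv 1 one_pos := by
  refine Homeomorph.ext fun p => ?_
  have h1 : EqOn g (inv 1 one_pos) (sig '' {z : ℂ | z ≠ 0}) := by
    rintro _ ⟨z, hz, rfl⟩
    rw [h z hz, inv_sig one_pos hz, Complex.ofReal_one]
  exact congrFun (Continuous.ext_on dense_sig g.continuous (inv 1 one_pos).continuous h1) p

end Pool.Agent.MSTLim
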