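import Mathlib
import Pool.Agent.MSTLim.InvU
import Pool.Agent.MSTLim.BasicG
import Pool.Agent.MSTLim.Bridge

/-!
# The final statement, deduced from `PartN` and `PartG`
-/

namespace Pool.Agent.MSTLim

open MeasureTheory Filter Topology Set

/-- The final statement. -/
def Final : Prop :=
  (∀ μ : Measure Om, TendsLaw (𝓝[>] (0 : ℝ)) (fun η => η) μ →
    (∀ g : Sph ≃ₜ Sph, (∀ z : ℂ, z ≠ 0 → g (sig z) = sig (1 / z)) → μ.map (actO g) ≠ μ) ∧
      ¬ ConfInv μ ∧ ∀ ν : Measure Om, ConfInv ν → μ ≠ ν) ∧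
  ∀ η : ℕ → ℝ, (∀ k, 0 < η k) → Tendsto η atTop (𝓝 0) → ∀ μ : Measure Om,
    TendsLaw atTop η μ → ¬ ConfInv μ ∧ ∀ ν : Measure Om, ConfInv ν → μ ≠ ν

theorem final_of {K : ℝ} (hK : 1 < K) (hN : PartN K PW (gF K)) (hG : PartG K PS (gF K)) :
    Final := by
  obtain ⟨A, hA⟩ := basicG hK
  have key : ∀ {μ : Measure Om}, ¬ ConfInv μ → ∀ ν : Measure Om, ConfInv ν → μ ≠ ν := by
    rintro μ h ν hν rfl
    exact h hν
  refine ⟨fun μ hμ => ?_, fun η hη hη0 μ hμ => ?_⟩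
  · have h1 : μ.map (actO (inv 1 one_pos)) ≠ μ := master_full hK bridge hA hN hG hμ
    have h2 : ¬ ConfInv μ := fun h => h1 (h _ (inv_moebius one_pos))
    refine ⟨fun g hg => ?_, h2, key h2⟩
    rw [inv_unique hg]
    exact h1
  · have h2 : ¬ ConfInv μ := master_seq hK bridge hA hN hG hη hη0 hμ
    exact ⟨h2, key h2⟩

end Pool.Agent.MSTLim
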