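import Pool.Agent.MSTLim.BasicG
import Pool.Agent.MSTLim.Bridge
import Pool.Agent.MSTLim.DefsA
import Pool.Agent.MSTLim.InvU

/-!
# The final statement, with the unconditional form for the lattice trees

`AsInv l η g`: the configurations `conf (η k)` are asymptotically invariant under `g` along `l`.
`FinalS`: the trees on the lattice are not asymptotically invariant (no limit is assumed), and no
limit in law is invariant.  `finalS_of` deduces it from `PartN` and `PartG`.
-/

namespace Pool.Agent.MSTLim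

open MeasureTheory Filter Topology Set
open scoped NNReal ENNReal BoundedContinuousFunction
open Pool.Agent.TriPerc (V Adj Lab P)

variable {ι : Type} {l : Filter ι} {η : ι → ℝ} {μ : Measure Om}

/-- If the limit in law is invariant, the configurations are asymptotically invariant. -/
theorem TendsLaw.asInv (h : TendsLaw l η μ) {g : Sph ≃ₜ Sph} (hg : μ.map (actO g) = μ) :
    AsInv l η g := by
  intro F
  rcases l.eq_or_neBot with rfl | hl
  · exact tendsto_bot
  have : IsProbabilityMeasure μ := ⟨h.univ⟩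
  have hfin : ∀ G : Om →ᵇ ℝ≥0, ∫⁻ x, G x ∂μ ≠ ∞ := fun G =>
    (BoundedContinuousFunction.lintegral_lt_top_of_nnreal μ G).ne
  have h1 := h F
  have h2 := h (F.compContinuous ⟨actO g, continuous_actO g⟩)
  have e : ∫⁻ x, F (actO g x) ∂μ = ∫⁻ x, F x ∂μ := by
    rw [← lintegral_map (μ := μ) (f := fun x => (F x : ℝ≥0∞)) (g := actO g)
      (F.continuous.measurable.coe_nnreal_ennreal) (continuous_actO g).measurable, hg]
  have h3 : Tendsto (fun k => ∫⁻ ω, F (actO g (conf (η k) ω)) ∂P) l (𝓝 (∫⁻ x, F x ∂μ)) := by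
    rw [← e]
    exact h2
  have h4 := ((ENNReal.tendsto_toReal (hfin F)).comp h3).sub
    ((ENNReal.tendsto_toReal (hfin F)).comp h1)
  rw [sub_self] at h4
  exact h4

/-- The limit passage under asymptotic invariance. -/
theorem reductionS (g : Sph ≃ₜ Sph) (hg : AsInv l η g)
    {O A : Set Om} (hO : IsOpen O) (hA : closure A ⊆ O)
    {S : ι → Set Lab} (hS : ∀ k, MeasurableSet (S k))
    (hSA : ∀ᶠ k in l, ∀ ω ∈ S k, actO g (conf (η k) ω) ∈ A) {a b : ℝ≥0∞}
    (hb : ∀ᶠ k in l, P {ω | conf (η k) ω ∈ O} ≤ b) (ha : ∃ᶠ k in l, a ≤ P (S k)) : a ≤ b := by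
  by_contra hab
  push Not at hab
  obtain ⟨f, hf0, hf1, hf⟩ := exists_continuous_zero_one_of_isClosed hO.isClosed_compl
    (isClosed_closure (s := A)) (disjoint_compl_left_iff_subset.2 hA)
  let F : Om →ᵇ ℝ≥0 := ⟨⟨fun x => (f x).toNNReal, by fun_prop⟩, 1, fun x y => by
    have hx := hf x
    have hy := hf y
    rw [NNReal.dist_eq]
    simp only [Real.coe_toNNReal _ hx.1, Real.coe_toNNReal _ hy.1]
    rw [abs_sub_le_iff]
    constructor <;> linarith [hx.1, hx.2, hy.1, hy.2]⟩
  have hF : ∀ x, F x = (f x).toNNReal := fun _ => rfl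
  have hF1 : ∀ x, (F x : ℝ≥0∞) ≤ 1 := fun x => by
    rw [hF]
    exact_mod_cast Real.toNNReal_le_one.2 (hf x).2
  have hle1 : ∀ u : Lab → Om, ∫⁻ ω, F (u ω) ∂P ≤ 1 := fun u => by
    refine (lintegral_mono (g := fun _ => 1) fun ω => hF1 _).trans ?_
    rw [lintegral_one, measure_univ]
  have hfin : ∀ u : Lab → Om, ∫⁻ ω, F (u ω) ∂P ≠ ∞ := fun u =>
    ne_top_of_le_ne_top ENNReal.one_ne_top (hle1 u)
  obtain ⟨k0, hk0⟩ := ha.exists
  have ha1 : a ≤ 1 := hk0.trans prob_le_one
  have haf : a ≠ ∞ := ne_top_of_le_ne_top ENNReal.one_ne_top ha1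
  have hbf : b ≠ ∞ := (hab.trans_le le_top).ne
  have hpos : 0 < a.toReal - b.toReal := sub_pos.2 ((ENNReal.toReal_lt_toReal hbf haf).2 hab)
  have h1 := (hg F).eventually (gt_mem_nhds hpos)
  obtain ⟨k, hk1, hk2, hk3, hk4⟩ := (ha.and_eventually (h1.and (hb.and hSA))).exists
  have u1 : ∫⁻ ω, F (conf (η k) ω) ∂P ≤ b := by
    refine le_trans (le_trans (lintegral_mono fun ω => ?_)
      (lintegral_indicator_one_le {ω | conf (η k) ω ∈ O})) hk3
    by_cases hω : conf (η k) ω ∈ O
    · rw [indicator_of_mem (by exact hω), Pi.one_apply]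
      exact hF1 _
    · have : f (conf (η k) ω) = 0 := hf0 hω
      rw [hF, this]
      simp
  have u2 : a ≤ ∫⁻ ω, F (actO g (conf (η k) ω)) ∂P := by
    refine hk1.trans ?_
    rw [← lintegral_indicator_one (hS k)]
    refine lintegral_mono fun ω => ?_
    by_cases hω : ω ∈ S k
    · rw [indicator_of_mem hω]
      have : f (actO g (conf (η k) ω)) = 1 := hf1 (subset_closure (hk4 ω hω))
      rw [hF, this]
      simp
    · rw [indicator_of_notMem hω]
      exact zero_le
  have v1 := (ENNReal.toReal_le_toReal (hfin _) hbf).2 u1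
  have v2 := (ENNReal.toReal_le_toReal haf (hfin fun ω => actO g (conf (η k) ω))).2 u2
  linarith

variable {PP : Lab → ℝ → ℝ → Prop} {PQ : ℝ → Lab → ℝ → ℝ → Prop}
  {OP : ℝ → ℝ → Set Om} {SP : ℝ → ℝ → ℝ → Set Om}

/-- The contradiction at one position, for the lattice trees. -/
theorem glueS_one (hb : Bridge PP PQ OP SP) (hη : Tendsto η l (𝓝[>] 0)) {r R : ℝ} (hr : 0 < r)
    (hR : r < R) (hg : AsInv l η (inv (r * R) (mul_pos hr (hr.trans hR))))
    {e : ℝ} (he : 0 < e) {a b : ℝ≥0∞}
    (h1 : ∀ᶠ k in l, P {ω | PP ω (2 * (r / η k)) (R / η k / 2)} ≤ b)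
    (h2 : ∃ᶠ k in l, ∃ S : Set Lab, MeasurableSet S ∧ a ≤ P S ∧
      ∀ ω ∈ S, PQ e ω (r / η k / 2) (2 * (R / η k))) : a ≤ b := by
  classical
  obtain ⟨e', he', hs⟩ := hb.strong e r R he hr hR
  set g := inv (r * R) (mul_pos hr (hr.trans hR)) with hgdef
  let Q : ι → Set Lab → Prop := fun k S => MeasurableSet S ∧ a ≤ P S ∧
    ∀ ω ∈ S, PQ e ω (r / η k / 2) (2 * (R / η k))
  let S : ι → Set Lab := fun k => if hk : ∃ S, Q k S then hk.choose else ∅
  have hS : ∀ k, MeasurableSet (S k) := by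
    intro k
    by_cases hk : ∃ S, Q k S
    · simp only [S, hk, dif_pos]
      exact hk.choose_spec.1
    · simp only [S, hk, dif_neg, not_false_eq_true]
      exact MeasurableSet.empty
  have hSQ : ∀ k, ∀ ω ∈ S k, PQ e ω (r / η k / 2) (2 * (R / η k)) := by
    intro k ω hω
    by_cases hk : ∃ S, Q k S
    · simp only [S, hk, dif_pos] at hω
      exact hk.choose_spec.2.2 ω hω
    · simp only [S, hk, dif_neg, not_false_eq_true] at hω
      exact hω.elim
  refine reductionS g hg (O := OP r R) (A := SP e' r R) (hb.isOpen r R)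
    (hb.closure_sub e' r R he' hr hR) hS ?_ ?_ ?_
  · filter_upwards [hη.eventually hs] with k hk ω hω
    exact hk ω (hSQ k ω hω)
  · filter_upwards [hη.eventually (hb.weak r R hr hR), h1] with k hk hk1
    exact (measure_mono fun ω hω => hk ω hω).trans hk1
  · refine h2.mono fun k hk => ?_
    have hk' : ∃ S, Q k S := hk
    simp only [S, hk', dif_pos]
    exact hk'.choose_spec.2.1

/-- The lattice trees are not asymptotically invariant under all Moebius transformations, along
any sequence of meshes. -/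
theorem glueS_seq {K : ℝ} (hK : 1 < K) (hb : Bridge PP PQ OP SP) (hgap : Gap K PP PQ)
    {η : ℕ → ℝ} (hη : ∀ k, 0 < η k) (hη0 : Tendsto η atTop (𝓝 0)) :
    ∃ g, IsMoebius g ∧ ¬ AsInv atTop η g := by
  by_contra hcon0
  push Not at hcon0
  have hK0 : 0 < K := one_pos.trans hK
  have hη' : Tendsto η atTop (𝓝[>] 0) :=
    tendsto_nhdsWithin_iff.mpr ⟨hη0, Eventually.of_forall hη⟩
  let N : ℕ → ℕ → ℝ := fun j k => (K ^ j)⁻¹ / η k
  let F : Filter ℝ := ⨆ j, Filter.map (N j) atTop
  have hN : ∀ j, Tendsto (N j) atTop atTop := fun j =>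
    (tendsto_inv_nhdsGT_zero.comp hη').const_mul_atTop (by positivity)
  have hF0 : F.NeBot := by
    refine Filter.NeBot.mono (f := Filter.map (N 0) atTop) inferInstance
      (le_iSup (fun j => Filter.map (N j) atTop) 0)
  have hF1 : F ≤ atTop := iSup_le hN
  have hF2 : Tendsto (fun N => N / K) F F := by
    refine tendsto_iSup.mpr fun j => ?_
    refine le_trans ?_ (le_iSup (fun j => Filter.map (N j) atTop) (j + 1))
    rw [Filter.map_map]
    refine le_of_eq (congrArg (fun f => Filter.map f atTop) ?_)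
    funext k
    simp only [Function.comp, N]
    rw [pow_succ, mul_inv]
    ring
  obtain ⟨n, e, a, b, hn, he, hab, hw, hs⟩ := hgap F hF0 hF1 hF2
  have hs' : ∃ j, ∃ᶠ k in atTop, ∃ S : Set Lab, MeasurableSet S ∧ a ≤ P S ∧
      ∀ ω ∈ S, PQ e ω (N j k / K ^ n / 2) (2 * N j k) := by
    by_contra hcon
    push Not at hcon
    apply hs
    rw [Filter.eventually_iSup]
    intro j
    refine Filter.eventually_map.mpr ?_
    filter_upwards [hcon j] with k hk hS
    obtain ⟨S, h1, h2, h3⟩ := hS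
    obtain ⟨ω, hω, hn⟩ := hk S h1 h2
    exact hn (h3 ω hω)
  obtain ⟨j, hj⟩ := hs'
  have hw' : ∀ᶠ k in atTop, P {ω | PP ω (2 * (N j k / K ^ n)) (N j k / 2)} ≤ b :=
    (Filter.eventually_iSup.mp hw j)
  have hR0 : 0 < (K ^ j)⁻¹ := by positivity
  have hrR : (K ^ j)⁻¹ / K ^ n < (K ^ j)⁻¹ :=
    div_lt_self hR0 (one_lt_pow₀ hK (by omega))
  have hr0 : 0 < (K ^ j)⁻¹ / K ^ n := by positivity
  have e1 : ∀ k, (K ^ j)⁻¹ / K ^ n / η k = N j k / K ^ n := fun k => by
    simp only [N]
    ring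
  refine absurd (glueS_one hb hη' hr0 hrR ?_ he (a := a) (b := b) ?_ ?_) (not_le.mpr hab)
  · exact hcon0 _ (inv_moebius _)
  · simpa only [e1] using hw'
  · simpa only [e1] using hj

/-- The lattice trees are not asymptotically invariant under `z ↦ 1 / z`. -/
theorem glueS_full {K : ℝ} (hK : 1 < K) (hb : Bridge PP PQ OP SP) (hgap : Gap K PP PQ) :
    ¬ AsInv (𝓝[>] (0 : ℝ)) (fun η => η) (inv 1 one_pos) := by
  intro hinv
  have hK0 : 0 < K := one_pos.trans hK
  have hF2 : Tendsto (fun N : ℝ => N / K) atTop atTop := tendsto_id.atTop_div_const hK0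
  obtain ⟨n, e, a, b, hn, he, hab, hw, hs⟩ := hgap atTop inferInstance le_rfl hF2
  have hKn : 1 < K ^ n := one_lt_pow₀ hK (by omega)
  set R : ℝ := √(K ^ n) with hRdef
  have hRR : R * R = K ^ n := Real.mul_self_sqrt (by positivity)
  have hR0 : 0 < R := Real.sqrt_pos.mpr (by positivity)
  have hr0 : 0 < R / K ^ n := by positivity
  have hrR : R / K ^ n < R := div_lt_self hR0 hKn
  have hc : R / K ^ n * R = 1 := by
    rw [div_mul_eq_mul_div, hRR]
    exact div_self (by positivity)
  have hN : Tendsto (fun η : ℝ => R / η) (𝓝[>] 0) atTop :=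
    (tendsto_inv_nhdsGT_zero).const_mul_atTop hR0
  have hmap : Filter.map (fun η : ℝ => R / η) (𝓝[>] 0) = atTop := by
    refine le_antisymm hN ?_
    have h1 : Tendsto (fun N : ℝ => R / N) atTop (𝓝[>] 0) := by
      refine tendsto_nhdsWithin_iff.mpr ⟨tendsto_const_nhds.div_atTop tendsto_id, ?_⟩
      filter_upwards [eventually_gt_atTop 0] with N hN
      exact div_pos hR0 hN
    calc (atTop : Filter ℝ) = Filter.map id atTop := Filter.map_id.symm
      _ ≤ Filter.map (fun η : ℝ => R / η) (Filter.map (fun N : ℝ => R / N) atTop) := by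
          rw [Filter.map_map]
          refine Filter.map_congr ?_ |>.le
          filter_upwards [eventually_gt_atTop 0] with N hN
          simp only [id, Function.comp]
          field_simp
      _ ≤ Filter.map (fun η : ℝ => R / η) (𝓝[>] 0) := Filter.map_mono h1
  rw [← hmap] at hw hs
  have e1 : ∀ k : ℝ, R / K ^ n / k = R / k / K ^ n := fun k => by ring
  refine absurd (glueS_one hb (l := 𝓝[>] (0 : ℝ)) (η := fun η => η) tendsto_id hr0 hrR ?_ he
    (a := a) (b := b) ?_ ?_) (not_le.mpr hab)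
  · convert hinv using 3
  · have := Filter.eventually_map.mp hw
    simpa only [e1, id] using this
  · have := Filter.frequently_map.mp hs
    simpa only [e1, id] using this

/-- The final statement.  (1) The limit in law of the trees as the mesh tends to `0` is not
invariant under `z ↦ 1 / z`; hence it is not conformally invariant and it differs from every
conformally invariant law.  (2) The trees are not asymptotically invariant under `z ↦ 1 / z` as the
mesh tends to `0` (no limit is assumed).  (3) For every sequence of meshes which tends to `0`, the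
trees are not asymptotically invariant under all Moebius transformations (no limit is assumed), and
no limit in law along the sequence is conformally invariant. -/
def FinalS : Prop :=
  (∀ μ : Measure Om, TendsLaw (𝓝[>] (0 : ℝ)) (fun η => η) μ →
    (∀ g : Sph ≃ₜ Sph, (∀ z : ℂ, z ≠ 0 → g (sig z) = sig (1 / z)) → μ.map (actO g) ≠ μ) ∧
      ¬ ConfInv μ ∧ ∀ ν : Measure Om, ConfInv ν → μ ≠ ν) ∧
  (∀ g : Sph ≃ₜ Sph, (∀ z : ℂ, z ≠ 0 → g (sig z) = sig (1 / z)) →
    ¬ AsInv (𝓝[>] (0 : ℝ)) (fun η => η) g) ∧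
  ∀ η : ℕ → ℝ, (∀ k, 0 < η k) → Tendsto η atTop (𝓝 0) →
    (∃ g : Sph ≃ₜ Sph, IsMoebius g ∧ ¬ AsInv atTop η g) ∧
      ∀ μ : Measure Om, TendsLaw atTop η μ → ¬ ConfInv μ ∧ ∀ ν : Measure Om, ConfInv ν → μ ≠ ν

theorem finalS_of {K : ℝ} (hK : 1 < K) (hN : PartN K PW (gF K)) (hG : PartG K PS (gF K)) :
    FinalS := by
  obtain ⟨A, hA⟩ := basicG hK
  have hgap := gap_of hA hN hG
  have key : ∀ {μ : Measure Om}, ¬ ConfInv μ → ∀ ν : Measure Om, ConfInv ν → μ ≠ ν := by
    rintro μ h ν hν rfl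
    exact h hν
  have h0 := glueS_full hK bridge hgap
  refine ⟨fun μ hμ => ?_, fun g hg => ?_, fun η hη hη0 => ?_⟩
  · have h2 : ¬ ConfInv μ := fun h => h0 (hμ.asInv (h _ (inv_moebius one_pos)))
    refine ⟨fun g hg => ?_, h2, key h2⟩
    rw [inv_unique hg]
    exact fun h => h0 (hμ.asInv h)
  · rw [inv_unique hg]
    exact h0
  · obtain ⟨g, hg, hg'⟩ := glueS_seq hK bridge hgap hη hη0
    refine ⟨⟨g, hg, hg'⟩, fun μ hμ => ?_⟩
    have h2 : ¬ ConfInv μ := fun h => hg' (hμ.asInv (h _ hg))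
    exact ⟨h2, key h2⟩

end Pool.Agent.MSTLim
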