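import Pool.Agent.MSTLim.GDef
import Pool.Agent.TriPerc.WinA

/-!
# Good blocks: definitions

`wj M K N j = wd M (rd K N j)` is the window of the block `j` (here: `rd K N (j + 1) < nrm u` and
`nrm u ≤ rd K N j`), `mj K N j = rd K N j / 32`; the gate (or zone) of the block `j` is the annulus
`Ann 0 (mj K N j) (2 mj K N j)`.
* `NV M K N i j w`: the vertices of the block `j` with label in the window `2 wj i` and mixed four
  arms at the levels `1/2 ± 2 wj (j + 1)`.
* `NO`, `NC`: the gate has a `(1/2 - wj)`-open, a `(1/2 + wj)`-closed crossing.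
* `NB`: the gate contains two adjacent vertices with labels in the window `2 wj`, one of them with
  mixed four arms.
-/

namespace Pool.Agent.MSTLim

open MeasureTheory Set
open Pool.Agent.TriPerc Pool.Agent.MST

/-- The window of the block `j`. -/
noncomputable def wj (M K N : ℝ) (j : ℕ) : ℝ := wd M (rd K N j)

/-- The radius of the gate of the block `j`. -/
noncomputable def mj (K N : ℝ) (j : ℕ) : ℤ := rd K N j / 32

/-- Vertices of the block `j` in the window of the block `i` with mixed four arms. -/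
def NV (M K N : ℝ) (i j : ℕ) (w : Lab) : Set V :=
  {u | rd K N (j + 1) < nrm u ∧ nrm u ≤ rd K N j ∧ |w u - 1 / 2| < 2 * wj M K N i ∧
    w ∈ MxG (1 / 2 - 2 * wj M K N (j + 1)) (1 / 2 + 2 * wj M K N (j + 1)) u 2 (nrm u / 16)}

/-- The gate of the block `i` has a crossing below the window. -/
def NO (M K N : ℝ) (i : ℕ) : Set Lab :=
  {w | Arm (Op (1 / 2 - wj M K N i) w) 0 (mj K N i) (2 * mj K N i)}

/-- The gate of the block `i` has a closed crossing above the window. -/
def NC (M K N : ℝ) (i : ℕ) : Set Lab :=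
  {w | Arm (Cl (1 / 2 + wj M K N i) w) 0 (mj K N i) (2 * mj K N i)}

/-- The gate of the block `i` has a mixed vertex with a neighbour in the window. -/
def NB (M K N : ℝ) (i : ℕ) : Set Lab :=
  {w | ∃ u y, Adj u y ∧ mj K N i ≤ nrm u ∧ nrm u ≤ 2 * mj K N i ∧
    |w u - 1 / 2| < 2 * wj M K N i ∧ |w y - 1 / 2| < 2 * wj M K N i ∧
    w ∈ MxG (1 / 2 - 2 * wj M K N (i + 1)) (1 / 2 + 2 * wj M K N (i + 1)) u 2 (nrm u / 16)}

end Pool.Agent.MSTLim
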