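import Pool.Agent.MSTLim.Runs

/-!
# Block variables with values in `ℕ` and relative weights

`Y j w` is a variable of the block `j`, which depends on the labels in the blocks `j - 1, j, j + 1`,
with `P (y ≤ Y j) ≤ δ (q ^ 2) ^ y` for `1 ≤ y`.
* `P_Ys`: for a separated list `l` of blocks
  `P (RE s n ∩ {a ≤ ∑ Y j}) ≤ C x ^ (n - s) q ^ a (1 + C x ^ (-3) δ q / (1 - q)) ^ |l|`.
* `wgt`: for all finite sets `T` of blocks
  `P (RE 0 n ∩ {3 a ≤ ∑ j ∈ T, Y j}) ≤ 3 C x ^ n q ^ a (1 + C x ^ (-3) δ q / (1 - q)) ^ n`.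
-/

namespace Pool.Agent.MSTLim

open MeasureTheory Set Filter
open Pool.Agent.TriPerc Pool.Agent.MST

/-- The sum of the block variables of the list. -/
def Ys (Y : ℕ → Lab → ℕ) (l : List ℕ) (w : Lab) : ℕ := (l.map fun j => Y j w).sum

variable {K N C x δ q : ℝ} {s t n a : ℕ} {l : List ℕ} {Y : ℕ → Lab → ℕ} {w : Lab}

theorem ev_add {s : Set V} {X X' : Lab → ℕ} (h : ∀ y, Ev s {w | y ≤ X w})
    (h' : ∀ y, Ev s {w | y ≤ X' w}) (y : ℕ) : Ev s {w | y ≤ X w + X' w} := by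
  have h1 : {w | y ≤ X w + X' w} = ⋃ z : ℕ, {w | z ≤ X w} ∩ {w | y - z ≤ X' w} := by
    ext w
    simp only [mem_iUnion, mem_inter_iff, mem_ofPred_eq]
    exact ⟨fun h => ⟨X w, le_rfl, by omega⟩, fun ⟨z, h1, h2⟩ => by omega⟩
  rw [h1]
  exact Ev.iUnion fun z => (h z).inter (h' _)

theorem ev_Ys (hW : Wide K N n) (hY : ∀ j, 2 ≤ j → j + 1 ≤ n → ∀ y,
      Ev (Ann 0 (rd K N (j + 1) + 1) (rd K N (j - 2))) {w | y ≤ Y j w}) :
    ∀ (l : List ℕ) (s : ℕ), s ≤ n → (∀ j ∈ l, s + 2 ≤ j ∧ j + 1 ≤ n) →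
    l.Pairwise (fun i j => i + 3 ≤ j) → ∀ a,
    Ev (Ann 0 (rd K N n + 1) (rd K N s)) {w | a ≤ Ys Y l w} := by
  intro l
  induction l with
  | nil =>
    intro s _ _ _ a
    rcases Nat.eq_zero_or_pos a with rfl | ha
    · have : {w | 0 ≤ Ys Y [] w} = univ := by
        ext w
        simp
      rw [this]
      exact ev_univ
    · have : {w | a ≤ Ys Y [] w} = ∅ := by
        ext w
        simp [Ys]
        omega
      rw [this]
      exact ev_empty
  | cons j l ih =>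
    intro s hs hl hp a
    obtain ⟨h1, h2⟩ := hl j List.mem_cons_self
    obtain ⟨h3, h4⟩ := List.pairwise_cons.1 hp
    have h5 := hW.le (by omega : j - 2 ≤ n) le_rfl
    have h6 := hW.le (by omega : j + 1 ≤ n) le_rfl
    have e1 : ∀ y, Ev (Ann 0 (rd K N n + 1) (rd K N s)) {w | y ≤ Y j w} := fun y =>
      (hY j (by omega) h2 y).mono (ann_sub (by omega) (hW.le (by omega) (by omega)))
    have e2 : ∀ y, Ev (Ann 0 (rd K N n + 1) (rd K N s)) {w | y ≤ Ys Y l w} := fun y =>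
      (ih (j + 1) h2 (fun i hi => ⟨by have := h3 i hi; omega,
        (hl i (List.mem_cons_of_mem _ hi)).2⟩) h4 y).mono
        (ann_sub le_rfl (hW.le (by omega) (by omega)))
    have e3 := ev_add e1 e2 a
    have e4 : {w | a ≤ Ys Y (j :: l) w} = {w | a ≤ Y j w + Ys Y l w} := by
      ext w
      simp [Ys]
    rw [e4]
    exact e3

private theorem geo (hq : q ≠ 1) (a : ℕ) :
    ∑ y ∈ Finset.Icc 1 a, q ^ y = q / (1 - q) * (1 - q ^ a) := by
  have h : 1 - q ≠ 0 := sub_ne_zero.2 hq.symm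
  induction a with
  | zero => simp
  | succ a ih =>
    rw [Finset.sum_Icc_succ_top (by omega), ih]
    field_simp
    ring

private theorem geo_le (hq0 : 0 < q) (hq1 : q < 1) (a : ℕ) :
    ∑ y ∈ Finset.Icc 1 a, q ^ y ≤ q / (1 - q) := by
  rw [geo hq1.ne]
  refine mul_le_of_le_one_right (div_nonneg hq0.le (by linarith)) ?_
  have : 0 ≤ q ^ a := by positivity
  linarith

theorem P_Ys (hW : Wide K N n) (hC : 1 ≤ C) (hx : 0 < x) (hB : Bd K N n C x)
    (hY : ∀ j, 2 ≤ j → j + 1 ≤ n → ∀ y,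
      Ev (Ann 0 (rd K N (j + 1) + 1) (rd K N (j - 2))) {w | y ≤ Y j w})
    (hq0 : 0 < q) (hq1 : q < 1) (hδ : 0 ≤ δ)
    (hP : ∀ j, 2 ≤ j → j + 1 ≤ n → ∀ y, 1 ≤ y →
      (P {w | y ≤ Y j w}).toReal ≤ δ * (q ^ 2) ^ y) :
    ∀ (l : List ℕ) (s a : ℕ), s ≤ n → (∀ j ∈ l, s + 2 ≤ j ∧ j + 1 ≤ n) →
    l.Pairwise (fun i j => i + 3 ≤ j) →
    (P (RE K N s n ∩ {w | a ≤ Ys Y l w})).toReal ≤
      C * x ^ (n - s) * q ^ a * (1 + C * (x⁻¹) ^ 3 * δ * (q / (1 - q))) ^ l.length := by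
  have hb : 0 ≤ C * (x⁻¹) ^ 3 * δ * (q / (1 - q)) := by
    have : 0 ≤ q / (1 - q) := div_nonneg hq0.le (by linarith)
    positivity
  obtain ⟨b, hbb⟩ : ∃ b, b = C * (x⁻¹) ^ 3 * δ * (q / (1 - q)) := ⟨_, rfl⟩
  rw [← hbb] at hb ⊢
  have hRE : ∀ s, s ≤ n → (P (RE K N s n)).toReal ≤ C * x ^ (n - s) := fun s hs => by
    have h1 := hB s n hs le_rfl
    rwa [← P_RE] at h1
  intro l
  induction l with
  | nil =>
    intro s a hs _ _
    rw [List.length_nil, pow_zero, mul_one]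
    rcases Nat.eq_zero_or_pos a with rfl | ha
    · rw [pow_zero, mul_one]
      exact (ENNReal.toReal_mono (measure_ne_top _ _) (measure_mono inter_subset_left)).trans
        (hRE s hs)
    · have : {w | a ≤ Ys Y [] w} = ∅ := by
        ext w
        simp [Ys]
        omega
      rw [this, inter_empty, measure_empty, ENNReal.toReal_zero]
      positivity
  | cons j l ih =>
    intro s a hs hl hp
    obtain ⟨h1, h2⟩ := hl j List.mem_cons_self
    obtain ⟨h3, h4⟩ := List.pairwise_cons.1 hp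
    have hl1 : ∀ i ∈ l, s + 2 ≤ i ∧ i + 1 ≤ n := fun i hi => hl i (List.mem_cons_of_mem _ hi)
    have hl' : ∀ i ∈ l, j + 1 + 2 ≤ i ∧ i + 1 ≤ n := fun i hi =>
      ⟨by have := h3 i hi; omega, (hl i (List.mem_cons_of_mem _ hi)).2⟩
    rcases Nat.eq_zero_or_pos a with rfl | ha
    · rw [pow_zero, mul_one]
      refine ((ENNReal.toReal_mono (measure_ne_top _ _)
        (measure_mono inter_subset_left)).trans (hRE s hs)).trans ?_
      exact le_mul_of_one_le_right (by positivity) (one_le_pow₀ (by linarith))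
    have hsub : (RE K N s n ∩ {w | a ≤ Ys Y (j :: l) w} : Set Lab) ≤ᵐ[P]
        ((RE K N s n ∩ {w | a ≤ Ys Y l w}) ∪ ⋃ y ∈ Finset.Icc 1 a, (RE K N s (j - 2) ∩
          ({w | y ≤ Y j w} ∩ (RE K N (j + 1) n ∩ {w | a - y ≤ Ys Y l w}))) : Set Lab) := by
      filter_upwards [ae_label 0] with w hw hE
      have hinj : Function.Injective w := by
        intro u v huv
        by_contra h
        exact hw.2 u v h huv
      obtain ⟨hE1, hE2⟩ := hE
      have hE3 : a ≤ Y j w + Ys Y l w := by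
        simpa [Ys] using hE2
      rcases Nat.eq_zero_or_pos (Y j w) with hy | hy
      · exact Or.inl ⟨hE1, by simp only [mem_ofPred_eq]; omega⟩
      · refine Or.inr (mem_iUnion₂.2 ⟨min (Y j w) a, Finset.mem_Icc.2 ⟨by omega, by omega⟩, ?_⟩)
        refine ⟨RE_restr hinj hW le_rfl le_rfl (by omega) hE1, by
          simp only [mem_ofPred_eq]; omega, RE_restr hinj hW le_rfl (by omega) le_rfl hE1, by
          simp only [mem_ofPred_eq]; omega⟩
    have hy : ∀ y ∈ Finset.Icc 1 a, (P (RE K N s (j - 2) ∩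
          ({w | y ≤ Y j w} ∩ (RE K N (j + 1) n ∩ {w | a - y ≤ Ys Y l w})))).toReal ≤
        C * x ^ (n - s) * q ^ a * (1 + b) ^ l.length * (C * (x⁻¹) ^ 3 * δ) * q ^ y := by
      intro y hy
      obtain ⟨hy1, hya⟩ := Finset.mem_Icc.1 hy
      have h5 := ih (j + 1) (a - y) h2 hl' h4
      have h6 := hB s (j - 2) (by omega) (by omega)
      rw [← P_RE] at h6
      have h7 := hP j (by omega) h2 y hy1
      have e1 := hY j (by omega) h2 y
      have e2 : Ev (Ann 0 (rd K N n + 1) (rd K N (j + 1)))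
          (RE K N (j + 1) n ∩ {w | a - y ≤ Ys Y l w}) :=
        (ev_RE K N (j + 1) n).inter (ev_Ys hW hY l (j + 1) h2 hl' h4 _)
      have hd1 : Disjoint (Ann 0 (rd K N (j + 1) + 1) (rd K N (j - 2)))
          (Ann 0 (rd K N n + 1) (rd K N (j + 1))) := by
        rw [Set.disjoint_left]
        rintro v ⟨k1, -⟩ ⟨-, k2⟩
        omega
      have hd2 : Disjoint (Ann 0 (rd K N (j - 2) + 1) (rd K N s))
          (Ann 0 (rd K N n + 1) (rd K N (j - 2))) := by
        rw [Set.disjoint_left]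
        rintro v ⟨k1, -⟩ ⟨-, k2⟩
        omega
      have e3 : Ev (Ann 0 (rd K N n + 1) (rd K N (j - 2)))
          ({w | y ≤ Y j w} ∩ (RE K N (j + 1) n ∩ {w | a - y ≤ Ys Y l w})) := by
        have h8 := hW.le (by omega : j + 1 ≤ n) le_rfl
        exact Ev.inter (e1.mono (ann_sub (by omega) le_rfl))
          (e2.mono (ann_sub le_rfl (hW.le (by omega) (by omega))))
      rw [indep (ev_RE K N s (j - 2)) e3 hd2, indep e1 e2 hd1, ENNReal.toReal_mul,
        ENNReal.toReal_mul]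
      have h8 := mul_le_mul h7 h5 ENNReal.toReal_nonneg (by positivity)
      refine (mul_le_mul h6 h8 (by positivity) (by positivity)).trans (le_of_eq ?_)
      have h9 : x ^ (n - s) = x ^ (j - 2 - s) * x ^ (n - (j + 1)) * x ^ 3 := by
        rw [← pow_add, ← pow_add]
        congr 1
        omega
      have h10 : q ^ a = q ^ (a - y) * q ^ y := by
        rw [← pow_add]
        congr 1
        omega
      rw [h9, h10, ← pow_mul, two_mul, pow_add]
      field_simp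
    have h8 := ih s a hs hl1 h4
    have h9 : (P (RE K N s n ∩ {w | a ≤ Ys Y (j :: l) w})).toReal ≤
        (P (RE K N s n ∩ {w | a ≤ Ys Y l w})).toReal +
        ∑ y ∈ Finset.Icc 1 a, (P (RE K N s (j - 2) ∩
          ({w | y ≤ Y j w} ∩ (RE K N (j + 1) n ∩ {w | a - y ≤ Ys Y l w})))).toReal := by
      rw [← ENNReal.toReal_sum fun y _ => measure_ne_top _ _, ← ENNReal.toReal_add
        (measure_ne_top _ _) (ENNReal.sum_ne_top.2 fun y _ => measure_ne_top _ _)]
      refine ENNReal.toReal_mono (ENNReal.add_ne_top.2 ⟨measure_ne_top _ _,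
        ENNReal.sum_ne_top.2 fun y _ => measure_ne_top _ _⟩) ?_
      exact (measure_mono_ae hsub).trans ((measure_union_le _ _).trans
        (add_le_add le_rfl (measure_biUnion_finset_le _ _)))
    refine h9.trans ((add_le_add h8 (Finset.sum_le_sum hy)).trans ?_)
    rw [← Finset.mul_sum, List.length_cons, pow_succ (1 + b)]
    have h10 := geo_le hq0 hq1 a
    have h11 : 0 ≤ C * x ^ (n - s) * q ^ a * (1 + b) ^ l.length := by positivity
    calc C * x ^ (n - s) * q ^ a * (1 + b) ^ l.length +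
        C * x ^ (n - s) * q ^ a * (1 + b) ^ l.length * (C * (x⁻¹) ^ 3 * δ) *
          ∑ y ∈ Finset.Icc 1 a, q ^ y
        ≤ C * x ^ (n - s) * q ^ a * (1 + b) ^ l.length +
        C * x ^ (n - s) * q ^ a * (1 + b) ^ l.length * (C * (x⁻¹) ^ 3 * δ) * (q / (1 - q)) := by
          gcongr
      _ = C * x ^ (n - s) * q ^ a * ((1 + b) ^ l.length * (1 + b)) := by
          rw [hbb]
          ring

/-- **Relative weights** for block variables with values in `ℕ`. -/
theorem wgt (hW : Wide K N n) (hC : 1 ≤ C) (hx : 0 < x) (hB : Bd K N n C x)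
    (hY : ∀ j, 2 ≤ j → j + 1 ≤ n → ∀ y,
      Ev (Ann 0 (rd K N (j + 1) + 1) (rd K N (j - 2))) {w | y ≤ Y j w})
    (hq0 : 0 < q) (hq1 : q < 1) (hδ : 0 ≤ δ)
    (hP : ∀ j, 2 ≤ j → j + 1 ≤ n → ∀ y, 1 ≤ y →
      (P {w | y ≤ Y j w}).toReal ≤ δ * (q ^ 2) ^ y)
    (T : Finset ℕ) (hT : ∀ j ∈ T, 2 ≤ j ∧ j + 1 ≤ n) (ha : 1 ≤ a) :
    (P (RE K N 0 n ∩ {w | 3 * a ≤ ∑ j ∈ T, Y j w})).toReal ≤
      3 * (C * x ^ n * q ^ a * (1 + C * (x⁻¹) ^ 3 * δ * (q / (1 - q))) ^ n) := by
  have hb : 0 ≤ C * (x⁻¹) ^ 3 * δ * (q / (1 - q)) := by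
    have : 0 ≤ q / (1 - q) := div_nonneg hq0.le (by linarith)
    positivity
  have hcard : T.card ≤ n := by
    have h1 : T ⊆ Finset.Ico 0 n := fun j hj => Finset.mem_Ico.2 ⟨Nat.zero_le _, by
      have := hT j hj
      omega⟩
    have h2 := Finset.card_le_card h1
    rwa [Nat.card_Ico, Nat.sub_zero] at h2
  have hsub : RE K N 0 n ∩ {w | 3 * a ≤ ∑ j ∈ T, Y j w} ⊆ ⋃ r ∈ Finset.range 3,
      (RE K N 0 n ∩ {w | a ≤ Ys Y ((T.filter fun j => j % 3 = r).sort (· ≤ ·)) w}) := by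
    rintro w ⟨h1, h2⟩
    by_contra hcon
    rw [mem_iUnion₂] at hcon
    have h3 : ∀ r ∈ Finset.range 3, ∑ j ∈ T.filter (fun j => j % 3 = r), Y j w ≤ a - 1 := by
      intro r hr
      by_contra h4
      refine hcon ⟨r, hr, h1, ?_⟩
      change a ≤ ((((T.filter fun j => j % 3 = r).sort (· ≤ ·)).map fun j => Y j w).sum)
      have h5 : (((T.filter fun j => j % 3 = r).sort (· ≤ ·)).map fun j => Y j w).sum =
          ∑ j ∈ T.filter (fun j => j % 3 = r), Y j w := by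
        rw [Finset.sum, ← Multiset.sum_coe, ← Multiset.map_coe, Finset.sort_eq]
      rw [h5]
      omega
    have h6 : ∑ j ∈ T, Y j w =
        ∑ r ∈ Finset.range 3, ∑ j ∈ T.filter (fun j => j % 3 = r), Y j w :=
      (Finset.sum_fiberwise_of_maps_to (fun j _ =>
        Finset.mem_range.2 (Nat.mod_lt _ (by norm_num))) _).symm
    have h7 := Finset.sum_le_sum h3
    rw [← h6, Finset.sum_const, Finset.card_range, smul_eq_mul] at h7
    have h8 : 3 * a ≤ ∑ j ∈ T, Y j w := h2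
    omega
  have h1 : ∀ r ∈ Finset.range 3, (P (RE K N 0 n ∩
      {w | a ≤ Ys Y ((T.filter fun j => j % 3 = r).sort (· ≤ ·)) w})).toReal ≤
      C * x ^ n * q ^ a * (1 + C * (x⁻¹) ^ 3 * δ * (q / (1 - q))) ^ n := by
    intro r _
    have hmem : ∀ j ∈ (T.filter fun j => j % 3 = r).sort (· ≤ ·), j ∈ T ∧ j % 3 = r :=
      fun j hj => Finset.mem_filter.1 ((Finset.mem_sort _).1 hj)
    have h2 := P_Ys hW hC hx hB hY hq0 hq1 hδ hP
      ((T.filter fun j => j % 3 = r).sort (· ≤ ·)) 0 a (Nat.zero_le n)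
      (fun j hj => by have := hT j (hmem j hj).1; omega)
      (List.Pairwise.imp_of_mem (fun {i j} hi hj hij => by
        have := (hmem i hi).2
        have := (hmem j hj).2
        omega) (Finset.sortedLT_sort _).pairwise)
    rw [Finset.length_sort, Nat.sub_zero] at h2
    refine h2.trans (mul_le_mul_of_nonneg_left (pow_le_pow_right₀ (by linarith)
      ((Finset.card_le_card (Finset.filter_subset _ _)).trans hcard)) (by positivity))
  have h2 : (P (RE K N 0 n ∩ {w | 3 * a ≤ ∑ j ∈ T, Y j w})).toReal ≤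
      ∑ r ∈ Finset.range 3, (P (RE K N 0 n ∩
        {w | a ≤ Ys Y ((T.filter fun j => j % 3 = r).sort (· ≤ ·)) w})).toReal := by
    rw [← ENNReal.toReal_sum fun y _ => measure_ne_top _ _]
    refine ENNReal.toReal_mono (ENNReal.sum_ne_top.2 fun y _ => measure_ne_top _ _) ?_
    exact (measure_mono hsub).trans (measure_biUnion_finset_le _ _)
  refine h2.trans ((Finset.sum_le_sum h1).trans (le_of_eq ?_))
  rw [Finset.sum_const, Finset.card_range, nsmul_eq_mul]
  norm_num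

end Pool.Agent.MSTLim
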