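import Mathlib.Analysis.CStarAlgebra.Classes
import Mathlib.Analysis.Complex.Convex
import Mathlib.Analysis.Complex.CoveringMap
import Mathlib.Analysis.Convex.Contractible
import Mathlib.Tactic
import Mathlib.Topology.Algebra.Module.ModuleTopology
import Mathlib.Topology.Homotopy.Lifting

/-!
# The increment of the argument along a curve

Curves are functions `c : ℝ → ℂ`, considered on an interval `[s, t]`, continuous and without
zeros there.  `IsLog c l s t`: `l` is a continuous logarithm of `c` on `[s, t]`;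
`ai c s t` is the increment of the imaginary part of a continuous logarithm.

* `exists_log`: `Complex.isCoveringMap_exp` and `IsCoveringMap.liftPath` (path lifting) for the
  path `unitInterval → {z // z ≠ 0}`, `x ↦ c (s + x (t - s))` (for `s = t` take a constant);
  compose the lift with `τ ↦ (τ - s) / (t - s)` (`Set.projIcc`).  Alternatively: `ℝ` version by
  subdivision: on a short interval `c τ / c s` stays in the slit plane.
* `log_diff`: for two logarithms `l, l'` the function `(l - l') / (2 pi i)` is continuous on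
  `[s, t]` with values in `ℤ` (`Complex.exp_eq_exp_iff_exists_int`), hence constant
  (`isPreconnected_Icc`; e.g. `IsPreconnected.constant_of_mapsTo` or the intermediate value
  theorem).
* `ai_eq`: unfold, `log_diff`.
* `ai_mul`: `l + l'` is a logarithm of the product.  `ai_inv`: `-l`.
* `ai_slit`: `fun τ => Complex.log (c τ)` is a logarithm (`continuousAt_clog`,
  `Complex.exp_log`), its imaginary part is `arg` (`Complex.log_im`).
* `ai_congr`: `IsLog` depends only on the values on `[s, t]`.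
* `ai_const_mul`: `l + log a`.
* `ai_add`: restrict one logarithm on `[s, u]` to the two parts.
* `ai_comp`: `l ∘ φ` is a logarithm of `c ∘ φ`.
* `ai_int`: `exp (l t - l s) = c t / c s`; compare with `Complex.log`.
* `ai_seg`: on `[0, 1]` (here on `[s, t]` with `θ τ = (τ - s) / (t - s)`) the linear path from `u`
  to `v` (`u, v ≠ 0`, `v / u` in the slit plane) has increment `arg (v / u)`: divide by the
  constant `u`; `1 + θ (w - 1)`, `w = v / u`, stays in the slit plane (star shaped round `1`,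
  `Complex.starConvex_one_slitPlane`), use `ai_slit`.
-/

namespace Pool.Agent.MSTLim

open Set

/-- `l` is a continuous logarithm of `c` on `[s, t]`. -/
def IsLog (c l : ℝ → ℂ) (s t : ℝ) : Prop :=
  ContinuousOn l (Icc s t) ∧ ∀ τ ∈ Icc s t, Complex.exp (l τ) = c τ

open Classical in
/-- The increment of the argument of `c` on `[s, t]`. -/
noncomputable def ai (c : ℝ → ℂ) (s t : ℝ) : ℝ :=
  if h : ∃ l, IsLog c l s t then (h.choose t - h.choose s).im else 0

variable {c d l l' : ℝ → ℂ} {s t u : ℝ}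

theorem exists_log (hst : s ≤ t) (hc : ContinuousOn c (Icc s t)) (h0 : ∀ τ ∈ Icc s t, c τ ≠ 0) :
    ∃ l, IsLog c l s t := by
  have hcont : Continuous fun τ : ℝ => c (projIcc s t hst τ) :=
    (continuousOn_iff_continuous_domRestrict.1 hc).comp continuous_projIcc
  obtain ⟨F, ⟨-, hF⟩, -⟩ := Complex.isCoveringMapOn_exp.existsUnique_continuousMap_lifts
    (⟨fun τ : ℝ => c (projIcc s t hst τ), hcont⟩ : C(ℝ, ℂ)) (a₀ := (0 : ℝ))
    (e₀ := Complex.log (c (projIcc s t hst 0))) (Complex.exp_log (h0 _ (projIcc s t hst 0).2))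
    fun τ => h0 _ (projIcc s t hst τ).2
  refine ⟨F, F.continuous.continuousOn, fun τ hτ => ?_⟩
  have h1 := congrFun hF τ
  have h2 : Complex.exp (F τ) = c (projIcc s t hst τ) := h1
  rw [h2, projIcc_of_mem hst hτ]

theorem log_diff (hst : s ≤ t) (h : IsLog c l s t) (h' : IsLog c l' s t) :
    l t - l s = l' t - l' s := by
  have hcont : ContinuousOn (fun τ => l τ - l' τ) (Icc s t) := h.1.sub h'.1
  have hmaps : MapsTo (fun τ => l τ - l' τ) (Icc s t)
      (AddSubgroup.zmultiples (2 * Real.pi * Complex.I) : Set ℂ) := by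
    intro τ hτ
    obtain ⟨n, hn⟩ := Complex.exp_eq_exp_iff_exists_int.1 ((h.2 τ hτ).trans (h'.2 τ hτ).symm)
    refine AddSubgroup.mem_zmultiples_iff.2 ⟨n, ?_⟩
    rw [zsmul_eq_mul]
    change _ = l τ - l' τ
    rw [hn]
    ring
  have hdis : IsDiscrete (AddSubgroup.zmultiples (2 * Real.pi * Complex.I) : Set ℂ) :=
    ⟨NormedSpace.discreteTopology_zmultiples _⟩
  have h1 := isPreconnected_Icc.constant_of_mapsTo hdis hcont hmaps (left_mem_Icc.2 hst)
    (right_mem_Icc.2 hst)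
  have h2 : l s - l' s = l t - l' t := h1
  linear_combination -h2

theorem ai_eq (hst : s ≤ t) (h : IsLog c l s t) : ai c s t = (l t - l s).im := by
  have hex : ∃ l, IsLog c l s t := ⟨l, h⟩
  unfold ai
  rw [dif_pos hex, log_diff hst hex.choose_spec h]

private theorem isLog_congr (h : ∀ τ ∈ Icc s t, c τ = d τ) :
    (fun l => IsLog c l s t) = fun l => IsLog d l s t := by
  funext l
  refine propext ⟨fun h1 => ⟨h1.1, fun τ hτ => (h1.2 τ hτ).trans (h τ hτ)⟩,
    fun h1 => ⟨h1.1, fun τ hτ => (h1.2 τ hτ).trans (h τ hτ).symm⟩⟩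

open Classical in
/-- The increment for a given predicate. -/
private noncomputable def aiP (Q : (ℝ → ℂ) → Prop) (s t : ℝ) : ℝ :=
  if h : ∃ l, Q l then (h.choose t - h.choose s).im else 0

private theorem ai_aiP (c : ℝ → ℂ) (s t : ℝ) : ai c s t = aiP (fun l => IsLog c l s t) s t := rfl

theorem ai_congr (h : ∀ τ ∈ Icc s t, c τ = d τ) : ai c s t = ai d s t := by
  rw [ai_aiP, ai_aiP, isLog_congr h]

theorem ai_self (c : ℝ → ℂ) (s : ℝ) : ai c s s = 0 := by
  unfold ai
  split_ifs with h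
  · rw [sub_self, Complex.zero_im]
  · rfl

theorem ai_mul (hst : s ≤ t) (hc : ContinuousOn c (Icc s t)) (h0 : ∀ τ ∈ Icc s t, c τ ≠ 0)
    (hd : ContinuousOn d (Icc s t)) (h1 : ∀ τ ∈ Icc s t, d τ ≠ 0) :
    ai (fun τ => c τ * d τ) s t = ai c s t + ai d s t := by
  obtain ⟨l, hl⟩ := exists_log hst hc h0
  obtain ⟨l', hl'⟩ := exists_log hst hd h1
  have h2 : IsLog (fun τ => c τ * d τ) (fun τ => l τ + l' τ) s t :=
    ⟨hl.1.add hl'.1, fun τ hτ => by rw [Complex.exp_add, hl.2 τ hτ, hl'.2 τ hτ]⟩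
  rw [ai_eq hst hl, ai_eq hst hl', ai_eq hst h2, ← Complex.add_im]
  congr 1
  ring

theorem ai_div (hst : s ≤ t) (hc : ContinuousOn c (Icc s t)) (h0 : ∀ τ ∈ Icc s t, c τ ≠ 0)
    (hd : ContinuousOn d (Icc s t)) (h1 : ∀ τ ∈ Icc s t, d τ ≠ 0) :
    ai (fun τ => c τ / d τ) s t = ai c s t - ai d s t := by
  obtain ⟨l, hl⟩ := exists_log hst hc h0
  obtain ⟨l', hl'⟩ := exists_log hst hd h1
  have h2 : IsLog (fun τ => c τ / d τ) (fun τ => l τ - l' τ) s t :=
    ⟨hl.1.sub hl'.1, fun τ hτ => by rw [Complex.exp_sub, hl.2 τ hτ, hl'.2 τ hτ]⟩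
  rw [ai_eq hst hl, ai_eq hst hl', ai_eq hst h2, ← Complex.sub_im]
  congr 1
  ring

theorem ai_const_mul (hst : s ≤ t) (hc : ContinuousOn c (Icc s t))
    (h0 : ∀ τ ∈ Icc s t, c τ ≠ 0) {a : ℂ} (ha : a ≠ 0) :
    ai (fun τ => a * c τ) s t = ai c s t := by
  obtain ⟨l, hl⟩ := exists_log hst hc h0
  have h2 : IsLog (fun τ => a * c τ) (fun τ => Complex.log a + l τ) s t :=
    ⟨continuousOn_const.add hl.1, fun τ hτ => by
      rw [Complex.exp_add, hl.2 τ hτ, Complex.exp_log ha]⟩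
  rw [ai_eq hst hl, ai_eq hst h2]
  congr 1
  ring

theorem ai_slit (hst : s ≤ t) (hc : ContinuousOn c (Icc s t))
    (h : ∀ τ ∈ Icc s t, c τ ∈ Complex.slitPlane) :
    ai c s t = Complex.arg (c t) - Complex.arg (c s) := by
  have h2 : IsLog c (fun τ => Complex.log (c τ)) s t :=
    ⟨hc.clog h, fun τ hτ => Complex.exp_log (Complex.slitPlane_ne_zero (h τ hτ))⟩
  rw [ai_eq hst h2, Complex.sub_im, Complex.log_im, Complex.log_im]

theorem ai_add (hst : s ≤ t) (htu : t ≤ u) (hc : ContinuousOn c (Icc s u))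
    (h0 : ∀ τ ∈ Icc s u, c τ ≠ 0) : ai c s u = ai c s t + ai c t u := by
  obtain ⟨l, hl⟩ := exists_log (hst.trans htu) hc h0
  have s1 : Icc s t ⊆ Icc s u := Icc_subset_Icc le_rfl htu
  have s2 : Icc t u ⊆ Icc s u := Icc_subset_Icc hst le_rfl
  have h1 : IsLog c l s t := ⟨hl.1.mono s1, fun τ hτ => hl.2 τ (s1 hτ)⟩
  have h2 : IsLog c l t u := ⟨hl.1.mono s2, fun τ hτ => hl.2 τ (s2 hτ)⟩
  rw [ai_eq hst h1, ai_eq htu h2, ai_eq (hst.trans htu) hl, ← Complex.add_im]
  congr 1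
  ring

theorem ai_comp {φ : ℝ → ℝ} (hst : s ≤ t) (hφ : ContinuousOn φ (Icc s t))
    (hm : MonotoneOn φ (Icc s t)) (hc : ContinuousOn c (Icc (φ s) (φ t)))
    (h0 : ∀ τ ∈ Icc (φ s) (φ t), c τ ≠ 0) :
    ai (fun τ => c (φ τ)) s t = ai c (φ s) (φ t) := by
  have hs := left_mem_Icc.2 hst
  have ht := right_mem_Icc.2 hst
  have hst' : φ s ≤ φ t := hm hs ht hst
  have hmaps : MapsTo φ (Icc s t) (Icc (φ s) (φ t)) :=
    fun τ hτ => ⟨hm hs hτ hτ.1, hm hτ ht hτ.2⟩
  obtain ⟨l, hl⟩ := exists_log hst' hc h0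
  have h1 : IsLog (fun τ => c (φ τ)) (fun τ => l (φ τ)) s t :=
    ⟨hl.1.comp hφ hmaps, fun τ hτ => hl.2 _ (hmaps hτ)⟩
  rw [ai_eq hst h1, ai_eq hst' hl]

theorem ai_int (hst : s ≤ t) (hc : ContinuousOn c (Icc s t)) (h0 : ∀ τ ∈ Icc s t, c τ ≠ 0) :
    ∃ k : ℤ, ai c s t = Complex.arg (c t) - Complex.arg (c s) + 2 * Real.pi * k := by
  obtain ⟨l, hl⟩ := exists_log hst hc h0
  have key : ∀ τ ∈ Icc s t, ∃ n : ℤ, (l τ).im = Complex.arg (c τ) + 2 * Real.pi * n := by
    intro τ hτ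
    obtain ⟨n, hn⟩ := Complex.exp_eq_exp_iff_exists_int.1
      ((hl.2 τ hτ).trans (Complex.exp_log (h0 τ hτ)).symm)
    refine ⟨n, ?_⟩
    rw [hn, Complex.add_im, Complex.log_im]
    congr 1
    simp
    ring
  obtain ⟨n, hn⟩ := key t (right_mem_Icc.2 hst)
  obtain ⟨m, hm⟩ := key s (left_mem_Icc.2 hst)
  refine ⟨n - m, ?_⟩
  rw [ai_eq hst hl, Complex.sub_im, hn, hm]
  push_cast
  ring

theorem ai_seg (hst : s < t) {u v : ℂ} (hu : u ≠ 0) (h : v / u ∈ Complex.slitPlane) :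
    ai (fun τ => u + ((τ - s) / (t - s) : ℝ) * (v - u)) s t = Complex.arg (v / u) := by
  have hts : t - s ≠ 0 := (sub_pos.2 hst).ne'
  have hslit : ∀ τ ∈ Icc s t, 1 + (((τ - s) / (t - s) : ℝ) : ℂ) * (v / u - 1) ∈
      Complex.slitPlane := by
    intro τ hτ
    have h1 : 0 ≤ (τ - s) / (t - s) := div_nonneg (sub_nonneg.2 hτ.1) (sub_pos.2 hst).le
    have h2 : (τ - s) / (t - s) ≤ 1 := by
      rw [div_le_one (sub_pos.2 hst)]
      linarith [hτ.2]
    have h3 := Complex.starConvex_one_slitPlane h (sub_nonneg.2 h2) h1 (sub_add_cancel _ _)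
    have h4 : 1 + (((τ - s) / (t - s) : ℝ) : ℂ) * (v / u - 1) =
        (1 - (τ - s) / (t - s)) • (1 : ℂ) + ((τ - s) / (t - s)) • (v / u) := by
      rw [Complex.real_smul, Complex.real_smul]
      push_cast
      ring
    rw [h4]
    exact h3
  have hcont : ContinuousOn (fun τ : ℝ => 1 + (((τ - s) / (t - s) : ℝ) : ℂ) * (v / u - 1))
      (Icc s t) := by fun_prop
  have h5 : ai (fun τ => u + ((τ - s) / (t - s) : ℝ) * (v - u)) s t =
      ai (fun τ => u * (1 + (((τ - s) / (t - s) : ℝ) : ℂ) * (v / u - 1))) s t := by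
    refine ai_congr fun τ _ => ?_
    have h6 : u * (v / u) = v := mul_div_cancel₀ v hu
    linear_combination -(((τ - s) / (t - s) : ℝ) : ℂ) * h6
  rw [h5, ai_const_mul hst.le hcont (fun τ hτ => Complex.slitPlane_ne_zero (hslit τ hτ)) hu,
    ai_slit hst.le hcont hslit]
  have e1 : (1 : ℂ) + (((t - s) / (t - s) : ℝ) : ℂ) * (v / u - 1) = v / u := by
    rw [div_self hts, Complex.ofReal_one]
    ring
  have e2 : (1 : ℂ) + (((s - s) / (t - s) : ℝ) : ℂ) * (v / u - 1) = 1 := by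
    rw [sub_self, zero_div, Complex.ofReal_zero]
    ring
  rw [e1, e2, Complex.arg_one, sub_zero]

end Pool.Agent.MSTLim
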