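import Pool.Agent.MSTLim.TotB
import Mathlib.Data.List.GetD
import Mathlib.MeasureTheory.Measure.ProbabilityMeasure
import Mathlib.Topology.Separation.CompletelyRegular

/-!
# The configuration of the minimal spanning tree is measurable

`measurable_conf`: for `η > 0` the map `conf η`, from the labels to the closed sets of curves with
the Hausdorff distance, is Borel measurable.  Hence `TendsLaw` is the usual weak convergence of the
laws `law η` of the configurations (`tendsLaw_iff`, `tendsLaw_iff_tendsto`).

PROOF.  The configuration is the closure of a random set of countably many curves, and all these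
curves lie in a totally bounded set (`totB_simple`), so it is the limit, for the Hausdorff distance,
of the finite configurations which are obtained from the first `m` curves (`measurable_closure`).
-/

namespace Pool.Agent.MSTLim

open MeasureTheory Filter Topology Set
open scoped NNReal ENNReal BoundedContinuousFunction
open Pool.Agent.TriPerc (V Adj Lab P)

/-! ### A measurability criterion -/

/-- The closure of a random subset of a totally bounded countable set of curves is measurable. -/
theorem measurable_closure {Ω : Type} [MeasurableSpace Ω] {ι : Type} [Countable ι] (c : ι → Curve)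
    (S : Ω → Set ι) (hS : ∀ i, MeasurableSet {ω | i ∈ S ω})
    (hT : ∀ ω, TotallyBounded (c '' S ω)) :
    Measurable fun ω => (TopologicalSpace.Closeds.closure (c '' S ω) : Om) := by
  rcases isEmpty_or_nonempty ι with h | h
  · have : ∀ ω, S ω = ∅ := fun ω => Set.eq_empty_of_isEmpty _
    simp only [this]
    exact measurable_const
  obtain ⟨e, he⟩ := exists_surjective_nat ι
  have hF : ∀ m : ℕ, Measurable fun ω =>
      (TopologicalSpace.Closeds.closure (c '' {i | i ∈ S ω ∧ ∃ j < m, e j = i}) : Om) := by
    intro m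
    have h1 : Measurable fun ω => (fun j : Fin m => e j ∈ S ω) :=
      measurable_pi_iff.2 fun j => measurableSet_setOfPred.1 (hS (e j))
    have h2 : Measurable fun p : Fin m → Prop =>
        (TopologicalSpace.Closeds.closure (c '' {i | ∃ j : Fin m, p j ∧ e j = i}) : Om) :=
      Measurable.of_discrete
    convert h2.comp h1 using 1
    funext ω
    simp only [Function.comp]
    congr 2
    ext i
    constructor
    · rintro ⟨hi, j, hj, rfl⟩
      exact ⟨⟨j, hj⟩, hi, rfl⟩
    · rintro ⟨j, hj, rfl⟩
      exact ⟨hj, j, j.2, rfl⟩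
  refine measurable_of_tendsto_metrizable hF ?_
  rw [tendsto_pi_nhds]
  intro ω
  rw [EMetric.tendsto_atTop]
  intro ε hε
  obtain ⟨r, hr, hrε⟩ := exists_between hε
  obtain ⟨t, hts, htf, hcov⟩ := EMetric.totallyBounded_iff'.1 (hT ω) r hr
  -- all the centres are reached
  have hN : ∃ N, ∀ y ∈ t, ∃ j < N, e j ∈ S ω ∧ c (e j) = y := by
    have h1 : ∀ y ∈ t, ∃ j, e j ∈ S ω ∧ c (e j) = y := by
      intro y hy
      obtain ⟨i, hi, rfl⟩ := hts hy
      obtain ⟨j, rfl⟩ := he i
      exact ⟨j, hi, rfl⟩
    choose! g hg using h1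
    obtain ⟨N, hN⟩ := (htf.image g).bddAbove
    refine ⟨N + 1, fun y hy => ⟨g y, ?_, hg y hy⟩⟩
    exact Nat.lt_succ_of_le (hN ⟨y, hy, rfl⟩)
  obtain ⟨N, hN⟩ := hN
  refine ⟨N, fun n hn => lt_of_le_of_lt ?_ hrε⟩
  rw [TopologicalSpace.Closeds.edist_eq, TopologicalSpace.Closeds.coe_closure,
    TopologicalSpace.Closeds.coe_closure, Metric.hausdorffEDist_closure]
  refine Metric.hausdorffEDist_le_of_mem_edist ?_ ?_
  · rintro _ ⟨i, ⟨hi, -⟩, rfl⟩
    exact ⟨_, ⟨i, hi, rfl⟩, by simp⟩
  · rintro x hx
    have h1 := hcov hx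
    simp only [mem_iUnion, exists_prop] at h1
    obtain ⟨y, hy, hxy⟩ := h1
    obtain ⟨j, hj, hjS, rfl⟩ := hN y hy
    exact ⟨_, ⟨e j, ⟨hjS, j, hj.trans_le hn, rfl⟩, rfl⟩, le_of_lt hxy⟩

/-! ### The minimal spanning tree is measurable -/

theorem measurableSet_reach {Ω : Type} [MeasurableSpace Ω] {R : Ω → V → V → Prop}
    (hR : ∀ u v, MeasurableSet {ω | R ω u v}) (x y : V) :
    MeasurableSet {ω | Relation.ReflTransGen (R ω) x y} := by
  -- the points which are reached in `n` steps
  obtain ⟨E, hE⟩ : ∃ E : ℕ → V → Set Ω, E 0 = (fun y => {_ω | x = y}) ∧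
      ∀ n, E (n + 1) = fun y => {ω | ∃ z, ω ∈ E n z ∧ R ω z y} :=
    ⟨fun n => Nat.rec (fun y => {_ω | x = y}) (fun _ F y => {ω | ∃ z, ω ∈ F z ∧ R ω z y}) n,
      rfl, fun _ => rfl⟩
  have hm : ∀ n y, MeasurableSet (E n y) := by
    intro n
    induction n with
    | zero => intro y; rw [hE.1]; exact MeasurableSet.const _
    | succ n ih =>
      intro y
      rw [hE.2]
      show MeasurableSet {ω | ∃ z, ω ∈ E n z ∧ R ω z y}
      have : {ω | ∃ z, ω ∈ E n z ∧ R ω z y} = ⋃ z, (E n z ∩ {ω | R ω z y}) := by
        ext ω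
        simp
      rw [this]
      exact MeasurableSet.iUnion fun z => (ih z).inter (hR z y)
  have he : {ω | Relation.ReflTransGen (R ω) x y} = ⋃ n, E n y := by
    ext ω
    simp only [mem_ofPred_eq, mem_iUnion]
    constructor
    · intro h
      induction h with
      | refl => exact ⟨0, by rw [hE.1]; rfl⟩
      | tail _ h2 ih =>
        obtain ⟨n, hn⟩ := ih
        exact ⟨n + 1, by rw [hE.2]; exact ⟨_, hn, h2⟩⟩
    · rintro ⟨n, hn⟩
      induction n generalizing y with
      | zero =>
        rw [hE.1] at hn
        have : x = y := hn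
        rw [this]
      | succ n ih =>
        rw [hE.2] at hn
        obtain ⟨z, hz, hzy⟩ := hn
        exact (ih z hz).tail hzy
  rw [he]
  exact MeasurableSet.iUnion fun n => hm n y

theorem measurableSet_lt_U (u v x y : V) : MeasurableSet {ω : Lab | U ω u v < U ω x y} := by
  have h1 : ∀ a b : V, Measurable fun ω : Lab => max (ω a) (ω b) := fun a b =>
    (measurable_pi_apply a).max (measurable_pi_apply b)
  have h2 : ∀ a b : V, Measurable fun ω : Lab => min (ω a) (ω b) := fun a b =>
    (measurable_pi_apply a).min (measurable_pi_apply b)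
  have : {ω : Lab | U ω u v < U ω x y} =
      {ω | max (ω u) (ω v) < max (ω x) (ω y)} ∪
        ({ω | max (ω u) (ω v) = max (ω x) (ω y)} ∩ {ω | min (ω u) (ω v) < min (ω x) (ω y)}) := by
    ext ω
    simp only [U, mem_ofPred_eq, Prod.Lex.toLex_lt_toLex, mem_union, mem_inter_iff]
  rw [this]
  exact (measurableSet_lt (h1 u v) (h1 x y)).union
    ((measurableSet_eq_fun (h1 u v) (h1 x y)).inter (measurableSet_lt (h2 u v) (h2 x y)))

/-- The event that an edge belongs to the minimal spanning tree is measurable. -/
theorem measurableSet_MST (x y : V) : MeasurableSet {ω : Lab | MST ω x y} := by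
  have : {ω : Lab | MST ω x y} = {_ω | Adj x y} ∩
      {ω | Relation.ReflTransGen (fun u v => Adj u v ∧ U ω u v < U ω x y) x y}ᶜ := by
    ext ω
    simp [MST]
  rw [this]
  refine (MeasurableSet.const _).inter (measurableSet_reach (fun u v => ?_) x y).compl
  exact (MeasurableSet.const _).inter (measurableSet_lt_U u v x y)

/-- The event that a path belongs to the minimal spanning tree is measurable. -/
theorem measurableSet_TreePath (f : ℕ → V) (n : ℕ) : MeasurableSet {ω : Lab | TreePath ω f n} := by
  have : {ω : Lab | TreePath ω f n} = (⋂ i : ℕ, {ω | i < n → MST ω (f i) (f (i + 1))}) ∩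
      {_ω | ∀ i ≤ n, ∀ j ≤ n, f i = f j → i = j} := by
    ext ω
    simp [TreePath]
  rw [this]
  refine (MeasurableSet.iInter fun i => ?_).inter (MeasurableSet.const _)
  by_cases h : i < n
  · simp only [h, forall_const]
    exact measurableSet_MST _ _
  · simp [h]

/-! ### The configuration is measurable -/

theorem measurable_conf {η : ℝ} (hη : 0 < η) : Measurable (conf η) := by
  -- the paths are coded by lists
  obtain ⟨F, hF⟩ : ∃ F : List V → ℕ → V, F = fun l i => l.getD i 0 := ⟨_, rfl⟩
  obtain ⟨S, hS⟩ : ∃ S : Lab → Set (List V), S = fun ω => {l | TreePath ω (F l) (l.length - 1)} :=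
    ⟨_, rfl⟩
  obtain ⟨c, hc⟩ : ∃ c : List V → Curve,
      c = fun l => SeparationQuotient.mk (cur η (F l) (l.length - 1)) := ⟨_, rfl⟩
  have hset : ∀ ω, {c | ∃ f n, TreePath ω f n ∧ c = SeparationQuotient.mk (cur η f n)} =
      c '' S ω := by
    intro ω
    ext γ
    constructor
    · rintro ⟨f, n, hf, rfl⟩
      have h1 : ∀ i ≤ n, F ((List.range (n + 1)).map f) i = f i := by
        intro i hi
        rw [hF]
        simp only
        rw [List.getD_eq_getElem _ _ (by simp; omega)]
        simp
      have h2 : ((List.range (n + 1)).map f).length - 1 = n := by simp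
      refine ⟨(List.range (n + 1)).map f, ?_, ?_⟩
      · rw [hS]
        show TreePath ω _ _
        rw [h2]
        refine ⟨fun i hi => ?_, fun i hi j hj hij => ?_⟩
        · rw [h1 i hi.le, h1 (i + 1) hi]
          exact hf.1 i hi
        · rw [h1 i hi, h1 j hj] at hij
          exact hf.2 i hi j hj hij
      · rw [hc]
        simp only
        congr 1
        rw [h2]
        unfold cur
        congr 2
        funext t
        congr 2
        unfold poly
        rw [h1 0 (Nat.zero_le _)]
        congr 1
        refine Finset.sum_congr rfl fun k hk => ?_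
        rw [h1 k (Finset.mem_range.1 hk).le, h1 (k + 1) (Finset.mem_range.1 hk)]
    · rintro ⟨l, hl, rfl⟩
      rw [hS] at hl
      exact ⟨F l, l.length - 1, hl, by rw [hc]⟩
  have e : conf η = fun ω => (TopologicalSpace.Closeds.closure (c '' S ω) : Om) := by
    funext ω
    unfold conf
    rw [hset]
  rw [e]
  refine measurable_closure c S (fun l => ?_) fun ω => ?_
  · rw [hS]
    exact measurableSet_TreePath _ _
  · have h1 := (totB_simple hη).image
      (SeparationQuotient.uniformContinuous_mk (α := Cur))
    refine h1.subset ?_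
    rintro _ ⟨l, hl, rfl⟩
    rw [hS] at hl
    rw [hc]
    exact ⟨_, ⟨F l, l.length - 1, ⟨fun i hi => (hl.1 i hi).1, hl.2⟩, rfl⟩, rfl⟩

/-! ### The laws of the configurations -/

/-- The law of the configuration of the minimal spanning tree with mesh `η > 0`. -/
noncomputable def law {η : ℝ} (hη : 0 < η) : ProbabilityMeasure Om :=
  ⟨P.map (conf η), Measure.isProbabilityMeasure_map (measurable_conf hη).aemeasurable⟩

/-- `TendsLaw` is the convergence of the integrals of all bounded continuous functions with respect
to the laws of the configurations. -/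
theorem tendsLaw_iff {ι : Type} {l : Filter ι} {η : ι → ℝ} (hη : ∀ᶠ k in l, 0 < η k)
    {μ : Measure Om} : TendsLaw l η μ ↔ ∀ F : Om →ᵇ ℝ≥0,
      Tendsto (fun k => ∫⁻ x, F x ∂(P.map (conf (η k)))) l (𝓝 (∫⁻ x, F x ∂μ)) := by
  refine forall_congr' fun F => tendsto_congr' ?_
  filter_upwards [hη] with k hk
  have hF : Measurable fun x : Om => (F x : ℝ≥0∞) :=
    F.continuous.measurable.coe_nnreal_ennreal
  rw [lintegral_map hF (measurable_conf hk)]

/-- `TendsLaw` is the weak convergence of the laws of the configurations. -/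
theorem tendsLaw_iff_tendsto {ι : Type} {l : Filter ι} {η : ι → ℝ} (hη : ∀ k, 0 < η k)
    {μ : ProbabilityMeasure Om} :
    TendsLaw l η μ ↔ Tendsto (fun k => law (hη k)) l (𝓝 μ) := by
  rw [tendsLaw_iff (Eventually.of_forall hη),
    ProbabilityMeasure.tendsto_iff_forall_lintegral_tendsto]
  rfl

end Pool.Agent.MSTLim
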