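import Pool.Agent.MSTLim.GBkD
import Pool.Agent.MSTLim.Unc
import Pool.Agent.TriPerc.RusD
import Pool.Agent.TriPerc.WinB

/-!
# The first moment of the number of mixed vertices

* `P_card`: Markov's inequality for the number of the vertices `u ∈ T` with the event `E u`;
  `ev_card`: locality.
* `ball_card`: a ball of radius `R ≥ 1` has at most `9 R ^ 2` vertices.
-/

namespace Pool.Agent.MSTLim

open MeasureTheory Set Filter
open Pool.Agent.TriPerc Pool.Agent.MST
open scoped ENNReal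

variable {K N M δ : ℝ} {i j n : ℕ}

/-- A window event at one vertex. -/
theorem ev_win (v : V) (a : ℝ) : Ev {v} {w : Lab | |w v - 1 / 2| < a} := by
  refine ⟨?_, fun w w' h h1 => ?_⟩
  · exact measurableSet_lt (((measurable_pi_apply v).sub_const _).abs) measurable_const
  · have h2 : |w v - 1 / 2| < a := h1
    rw [h v rfl] at h2
    exact h2

theorem P_win (v : V) {a : ℝ} (h0 : 0 ≤ a) (h1 : a ≤ 1 / 2) :
    (P {w : Lab | |w v - 1 / 2| < a}).toReal ≤ 2 * a := by
  have h2 := (unif_Ioc (a := 1 / 2 - a) (b := 1 / 2 + a) (by linarith) (by linarith)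
    (by linarith) v).2
  have h3 : {w : Lab | |w v - 1 / 2| < a} ⊆ {w : Lab | 1 / 2 - a < w v ∧ w v ≤ 1 / 2 + a} := by
    intro w hw
    have h4 := abs_lt.1 (show |w v - 1 / 2| < a from hw)
    exact ⟨by linarith [h4.1], by linarith [h4.2]⟩
  refine (ENNReal.toReal_mono (measure_ne_top _ _) (measure_mono h3)).trans ?_
  rw [h2]
  linarith

theorem ev_card {s T : Set V} (hT : T.Finite) {E : V → Set Lab} (hE : ∀ u ∈ T, Ev s (E u))
    (c : ℝ) : Ev s {w | c < ({u ∈ T | w ∈ E u}.ncard : ℝ)} := by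
  classical
  have h1 : {w | c < ({u ∈ T | w ∈ E u}.ncard : ℝ)} =
      ⋃ S : Finset V, {w | (↑S ⊆ T ∧ c < (S.card : ℝ)) ∧ ∀ u ∈ S, w ∈ E u} := by
    ext w
    simp only [mem_iUnion, mem_ofPred_eq]
    constructor
    · intro h
      have hf : {u ∈ T | w ∈ E u}.Finite := hT.subset (sep_subset _ _)
      refine ⟨hf.toFinset, ⟨?_, ?_⟩, fun u hu => ?_⟩
      · rw [hf.coe_toFinset]
        exact sep_subset _ _
      · rwa [← ncard_eq_toFinset_card _ hf]
      · exact ((hf.mem_toFinset).1 hu).2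
    · rintro ⟨S, ⟨h1, h2⟩, h3⟩
      refine h2.trans_le ?_
      have h4 : (↑S : Set V).ncard ≤ {u ∈ T | w ∈ E u}.ncard :=
        ncard_le_ncard (fun u hu => ⟨h1 hu, h3 u hu⟩) (hT.subset (sep_subset _ _))
      rw [ncard_coe_finset] at h4
      exact_mod_cast h4
  rw [h1]
  refine Ev.iUnion fun S => ?_
  by_cases h2 : ↑S ⊆ T ∧ c < (S.card : ℝ)
  · have h3 : {w | (↑S ⊆ T ∧ c < (S.card : ℝ)) ∧ ∀ u ∈ S, w ∈ E u} =
        ⋂ u : V, {w | u ∈ S → w ∈ E u} := by
      ext w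
      simp [h2]
    rw [h3]
    refine Ev.iInter fun u => ?_
    by_cases h4 : u ∈ S
    · have h5 : {w | u ∈ S → w ∈ E u} = E u := by
        ext w
        simp [h4]
      rw [h5]
      exact hE u (h2.1 h4)
    · have h5 : {w : Lab | u ∈ S → w ∈ E u} = univ := by
        ext w
        simp [h4]
      rw [h5]
      exact ev_univ
  · have h3 : {w | (↑S ⊆ T ∧ c < (S.card : ℝ)) ∧ ∀ u ∈ S, w ∈ E u} = ∅ := by
      ext w
      simp [h2]
    rw [h3]
    exact ev_empty

theorem P_card {T : Set V} (hT : T.Finite) {E : V → Set Lab}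
    (hE : ∀ u ∈ T, MeasurableSet (E u)) {p c : ℝ} (hp : ∀ u ∈ T, (P (E u)).toReal ≤ p)
    (hc : 0 < c) :
    (P {w | c < ({u ∈ T | w ∈ E u}.ncard : ℝ)}).toReal ≤ T.ncard * p / c := by
  classical
  obtain ⟨f, hf⟩ : ∃ f : Lab → ℝ≥0∞, f = fun w => ∑ u ∈ hT.toFinset,
    (E u).indicator (fun _ => 1) w := ⟨_, rfl⟩
  have hm : Measurable f := by
    rw [hf]
    exact Finset.measurable_sum _ fun u hu => measurable_const.indicator
      (hE u (hT.mem_toFinset.1 hu))
  have h1 : ∫⁻ w, f w ∂P = ∑ u ∈ hT.toFinset, P (E u) := by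
    rw [hf, lintegral_finsetSum' _ fun u hu => (measurable_const.indicator
      (hE u (hT.mem_toFinset.1 hu))).aemeasurable]
    refine Finset.sum_congr rfl fun u hu => ?_
    rw [lintegral_indicator (hE u (hT.mem_toFinset.1 hu)), lintegral_const, one_mul,
      Measure.restrict_apply MeasurableSet.univ, univ_inter]
  have h2 : {w | c < ({u ∈ T | w ∈ E u}.ncard : ℝ)} ⊆ {w | ENNReal.ofReal c ≤ f w} := by
    intro w hw
    have h3 : f w = ({u ∈ T | w ∈ E u}.ncard : ℝ≥0∞) := by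
      rw [hf]
      have h4 : hT.toFinset.filter (fun u => w ∈ E u) =
          (hT.subset (sep_subset T fun u => w ∈ E u)).toFinset := by
        ext u
        simp
      rw [ncard_eq_toFinset_card _ (hT.subset (sep_subset T fun u => w ∈ E u)), ← h4,
        Finset.card_filter]
      push_cast
      refine Finset.sum_congr rfl fun u _ => ?_
      by_cases h5 : w ∈ E u <;> simp [h5]
    have hw' : c < ({u ∈ T | w ∈ E u}.ncard : ℝ) := hw
    show ENNReal.ofReal c ≤ f w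
    rw [h3, ← ENNReal.ofReal_natCast]
    exact ENNReal.ofReal_le_ofReal hw'.le
  have h3 := mul_meas_ge_le_lintegral hm (ENNReal.ofReal c) (μ := P)
  rw [h1] at h3
  have h4 : (∑ u ∈ hT.toFinset, P (E u)).toReal ≤ T.ncard * p := by
    rw [ENNReal.toReal_sum fun u _ => measure_ne_top _ _,
      ncard_eq_toFinset_card _ hT, ← nsmul_eq_mul]
    exact Finset.sum_le_card_nsmul _ _ _ fun u hu => hp u (hT.mem_toFinset.1 hu)
  have h5 : c * (P {w | c < ({u ∈ T | w ∈ E u}.ncard : ℝ)}).toReal ≤ T.ncard * p := by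
    refine le_trans ?_ h4
    have h6 : c * (P {w | c < ({u ∈ T | w ∈ E u}.ncard : ℝ)}).toReal =
        (ENNReal.ofReal c * P {w | c < ({u ∈ T | w ∈ E u}.ncard : ℝ)}).toReal := by
      rw [ENNReal.toReal_mul, ENNReal.toReal_ofReal hc.le]
    rw [h6]
    refine ENNReal.toReal_mono (ENNReal.sum_ne_top.2 fun u _ => measure_ne_top _ _) ?_
    exact (mul_le_mul_right (measure_mono h2) _).trans h3
  rw [le_div_iff₀ hc]
  linarith

/-- The number of vertices of a ball. -/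
theorem ball_card {R : ℤ} (hR : 1 ≤ R) {T : Set V} (hT : ∀ u ∈ T, nrm u ≤ R) :
    (T.ncard : ℝ) ≤ 9 * (R : ℝ) ^ 2 := by
  classical
  have h1 : T ⊆ ↑(Finset.Icc (-R) R ×ˢ Finset.Icc (-R) R) := by
    intro u hu
    have h2 := hT u hu
    unfold nrm at h2
    have h3 := abs_le.1 ((le_max_left _ _).trans ((le_max_left _ _).trans h2))
    have h4 := abs_le.1 ((le_max_right _ _).trans ((le_max_left _ _).trans h2))
    rw [Finset.coe_product]
    exact ⟨by simpa using h3, by simpa using h4⟩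
  have h2 := ncard_le_ncard h1 (Finset.finite_toSet _)
  rw [ncard_coe_finset, Finset.card_product, Int.card_Icc] at h2
  have h3 : ((R + 1 - -R).toNat : ℤ) = 2 * R + 1 := by omega
  have h4 : (T.ncard : ℤ) ≤ (2 * R + 1) * (2 * R + 1) := by
    rw [← h3]
    exact_mod_cast h2
  have h5 : (T.ncard : ℤ) ≤ 9 * R ^ 2 := by nlinarith
  exact_mod_cast h5

/-- The window and the mixed arms at one vertex. -/
theorem P_vm {p q a : ℝ} {u : V} {m d : ℤ} (hpq : p ≤ q) (h0 : 0 ≤ a) (h1 : a ≤ 1 / 2)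
    (hm : 2 < m) (hmd : m ≤ d) :
    (P {w | |w u - 1 / 2| < a ∧ w ∈ MxG p q u 2 d}).toReal ≤ 2 * a * yf p q 2 m := by
  have h2 : {w | |w u - 1 / 2| < a ∧ w ∈ MxG p q u 2 d} =
      {w : Lab | |w u - 1 / 2| < a} ∩ MxG p q u 2 d := rfl
  have hd : Disjoint ({u} : Set V) (Ann u 2 d) := by
    rw [Set.disjoint_left]
    rintro v h3 ⟨h4, -⟩
    rw [h3, sub_self, nrm_zero_iff.2 rfl] at h4
    omega
  rw [h2, indep (ev_win u a) (ev_mxg hpq u 2 d) hd, ENNReal.toReal_mul, mxg_tr]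
  exact mul_le_mul (P_win u h0 h1) (yf_anti le_rfl hm hmd) ENNReal.toReal_nonneg (by linarith)

/-- Two windows and the mixed arms at one vertex. -/
theorem P_vvm {p q a : ℝ} {u y : V} {m d : ℤ} (hpq : p ≤ q) (h0 : 0 ≤ a) (h1 : a ≤ 1 / 2)
    (hm : 2 < m) (hmd : m ≤ d) (hy : Adj u y) :
    (P {w | |w u - 1 / 2| < a ∧ |w y - 1 / 2| < a ∧ w ∈ MxG p q u 2 d}).toReal ≤
      2 * a * (2 * a * yf p q 2 m) := by
  have hn := nrm_adj_one hy
  have h2 : {w | |w u - 1 / 2| < a ∧ |w y - 1 / 2| < a ∧ w ∈ MxG p q u 2 d} =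
      {w : Lab | |w u - 1 / 2| < a} ∩ ({w : Lab | |w y - 1 / 2| < a} ∩ MxG p q u 2 d) := rfl
  have hd : Disjoint ({y} : Set V) (Ann u 2 d) := by
    rw [Set.disjoint_left]
    rintro v h3 ⟨h4, -⟩
    rw [h3] at h4
    omega
  have hd' : Disjoint ({u} : Set V) ({y} ∪ Ann u 2 d) := by
    rw [Set.disjoint_left]
    rintro v h3 (h4 | ⟨h4, -⟩)
    · rw [mem_singleton_iff] at h3 h4
      rw [← h4, h3, sub_self, nrm_zero_iff.2 rfl] at hn
      omega
    · rw [h3, sub_self, nrm_zero_iff.2 rfl] at h4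
      omega
  have e1 := (ev_win y a).mono (subset_union_left (t := Ann u 2 d))
  have e2 := (ev_mxg hpq u 2 d).mono (subset_union_right (s := {y}))
  rw [h2, indep (ev_win u a) (e1.inter e2) hd', indep (ev_win y a) (ev_mxg hpq u 2 d) hd,
    ENNReal.toReal_mul, ENNReal.toReal_mul, mxg_tr]
  exact mul_le_mul (P_win u h0 h1) (mul_le_mul (P_win y h0 h1) (yf_anti le_rfl hm hmd)
    ENNReal.toReal_nonneg (by linarith)) (by positivity) (by linarith)

theorem P_union {ι : Type} (S : Finset ι) (E : ι → Set Lab) {p : ℝ}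
    (h : ∀ i ∈ S, (P (E i)).toReal ≤ p) : (P (⋃ i ∈ S, E i)).toReal ≤ S.card * p := by
  have h1 : (P (⋃ i ∈ S, E i)).toReal ≤ ∑ i ∈ S, (P (E i)).toReal := by
    rw [← ENNReal.toReal_sum fun u _ => measure_ne_top _ _]
    exact ENNReal.toReal_mono (ENNReal.sum_ne_top.2 fun u _ => measure_ne_top _ _)
      (measure_biUnion_finset_le _ _)
  rw [← nsmul_eq_mul]
  exact h1.trans (Finset.sum_le_card_nsmul _ _ _ h)

theorem rd_le (hK : 1 < K) (h1 : 1 ≤ rd K N (j + 1)) :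
    (rd K N j : ℝ) ≤ 2 * K * rd K N (j + 1) := by
  have h0 : (0 : ℝ) < K ^ j := pow_pos (by linarith) _
  have h2 : (rd K N j : ℝ) ≤ N / K ^ j := Int.floor_le _
  have h3 : N / K ^ (j + 1) < rd K N (j + 1) + 1 := Int.lt_floor_add_one _
  have h4 : K * (N / K ^ (j + 1)) = N / K ^ j := by
    rw [pow_succ]
    field_simp
  have h5 : (1 : ℝ) ≤ rd K N (j + 1) := by exact_mod_cast h1
  nlinarith

/-- The windows, the gates and the number of mixed vertices. -/
theorem moment : ∃ K0 : ℝ, 64 ≤ K0 ∧ ∀ K, K0 ≤ K → ∀ δ : ℝ, 0 < δ → ∃ M0 : ℝ, 0 < M0 ∧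
    ∀ M, M0 ≤ M → ∃ B0 : ℝ, 0 < B0 ∧ ∀ B, B0 ≤ B → ∀ n : ℕ, ∀ᶠ N in atTop, ∀ i ≤ n,
      (0 < wj M K N i ∧ wj M K N i ≤ 1 / 16 ∧ 8 * wj M K N i ≤ wj M K N (i + 1)) ∧
      (P (NO M K N i)).toReal ≤ δ / 4 ∧ (P (NC M K N i)).toReal ≤ δ / 4 ∧
      (P (NB M K N i)).toReal ≤ δ / 4 ∧ ∀ j, i ≤ j → j ≤ n →
        (P {w | B * (1 / 2) ^ (j - i) / 2 < ((NV M K N i j w).ncard : ℝ)}).toReal ≤
          δ / 4 * (1 / 4) ^ (j - i) := by
  obtain ⟨k0, hk0, hgrow⟩ := wd_grow qmFr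
  refine ⟨max 64 k0, le_max_left _ _, fun K hK δ hδ => ?_⟩
  have hK64 : (64 : ℝ) ≤ K := (le_max_left _ _).trans hK
  have hKk : (k0 : ℝ) ≤ K := (le_max_right _ _).trans hK
  have hK1 : 1 < K := by linarith
  obtain ⟨M0, hM0, harm⟩ := wd_arm qmFr rusFr (e := δ / 4) (ρ := 1 / 64) (by positivity)
    (by norm_num)
  refine ⟨M0, hM0, fun M hM => ?_⟩
  have hMp : 0 < M := hM0.trans_le hM
  obtain ⟨r1, hr1, harm⟩ := harm M hM
  obtain ⟨C2, r2, hC2, hr2, hmix⟩ := wd_mix qmFr hMp (by norm_num : (1 : ℝ) ≤ 2)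
    (by norm_num : (0 : ℝ) < 1 / 32)
  obtain ⟨r3, hr3, hsm⟩ := wd_small qmFr hMp (e := min (1 / 16) (δ / (2592 * K ^ 2 * C2)))
    (lt_min (by norm_num) (by positivity))
  refine ⟨144 * K ^ 2 * C2 / δ, by positivity, fun B hB n => ?_⟩
  filter_upwards [big_ev hK1 (n + 2) (max (max r1 r2) (max r3 64)),
    eventually_ge_atTop (0 : ℝ)] with N h1 h3
  have hbig : ∀ s ≤ n + 2, r1 ≤ rd K N s ∧ r2 ≤ rd K N s ∧ r3 ≤ rd K N s ∧ 64 ≤ rd K N s := by
    intro s hs
    have := h1 s hs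
    omega
  have hstep : ∀ s ≤ n + 1, 8 * wj M K N s ≤ wj M K N (s + 1) := by
    intro s hs
    refine hgrow M _ _ hMp (by have := hbig (s + 1) (by omega); omega) ?_
    have h4 := rd_mul (k := k0.toNat) (K := K) (N := N) ?_ hK1 h3 s
    · rwa [Int.toNat_of_nonneg (by omega : 0 ≤ k0)] at h4
    · have : ((k0.toNat : ℤ) : ℝ) = k0 := by rw [Int.toNat_of_nonneg (by omega : 0 ≤ k0)]
      rw [← Int.cast_natCast, this]
      exact hKk
  have hpos : ∀ s ≤ n + 2, 0 < wj M K N s := fun s hs =>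
    wd_pos qmFr hMp (hr2.trans (hbig s hs).2.1)
  have hmin : ∀ s ≤ n + 2, wj M K N s ≤ min (1 / 16) (δ / (2592 * K ^ 2 * C2)) := fun s hs =>
    hsm _ (hbig s hs).2.2.1
  have hit : ∀ i m, i + m ≤ n + 2 → 8 ^ m * wj M K N i ≤ wj M K N (i + m) := by
    intro i m
    induction m with
    | zero => intro _; simp
    | succ m ih =>
      intro hi
      have h4 := ih (by omega)
      have h5 := hstep (i + m) (by omega)
      calc (8 : ℝ) ^ (m + 1) * wj M K N i = 8 * (8 ^ m * wj M K N i) := by ring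
        _ ≤ 8 * wj M K N (i + m) := by linarith
        _ ≤ _ := h5
  -- the mixed arms at the levels of the block `j`
  have hyf : ∀ j ≤ n + 1, wj M K N (j + 1) * ((rd K N j : ℝ) ^ 2 *
      yf (1 / 2 - 2 * wj M K N (j + 1)) (1 / 2 + 2 * wj M K N (j + 1)) 2
        (rd K N (j + 1) / 16)) ≤ 4 * K ^ 2 * C2 := by
    intro j hj
    have hb := hbig (j + 1) (by omega)
    obtain ⟨-, -, h6⟩ := hmix (rd K N (j + 1)) (rd K N (j + 1) / 16) hb.2.1 (by
      have h7 : rd K N (j + 1) ≤ 32 * (rd K N (j + 1) / 16) := by omega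
      have h8 : (rd K N (j + 1) : ℝ) ≤ 32 * ((rd K N (j + 1) / 16 : ℤ) : ℝ) := by
        exact_mod_cast h7
      linarith)
    have h7 := rd_le hK1 (by omega : 1 ≤ rd K N (j + 1))
    have h8 : (0 : ℝ) ≤ rd K N j := by
      have := hbig j (by omega)
      exact_mod_cast (by omega : 0 ≤ rd K N j)
    have h9 : (rd K N j : ℝ) ^ 2 ≤ 4 * K ^ 2 * (rd K N (j + 1) : ℝ) ^ 2 := by
      calc (rd K N j : ℝ) ^ 2 ≤ (2 * K * rd K N (j + 1)) ^ 2 := pow_le_pow_left₀ h8 h7 2
        _ = _ := by ring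
    have hy : 0 ≤ yf (1 / 2 - 2 * wj M K N (j + 1)) (1 / 2 + 2 * wj M K N (j + 1)) 2
        (rd K N (j + 1) / 16) := yf_nonneg
    have hw := hpos (j + 1) (by omega)
    calc wj M K N (j + 1) * ((rd K N j : ℝ) ^ 2 *
          yf (1 / 2 - 2 * wj M K N (j + 1)) (1 / 2 + 2 * wj M K N (j + 1)) 2
            (rd K N (j + 1) / 16))
        ≤ wj M K N (j + 1) * (4 * K ^ 2 * (rd K N (j + 1) : ℝ) ^ 2 *
          yf (1 / 2 - 2 * wj M K N (j + 1)) (1 / 2 + 2 * wj M K N (j + 1)) 2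
            (rd K N (j + 1) / 16)) := by gcongr
      _ = 4 * K ^ 2 * (wd M (rd K N (j + 1)) * ((rd K N (j + 1) : ℝ) ^ 2 *
          yf (1 / 2 - 2 * wd M (rd K N (j + 1))) (1 / 2 + 2 * wd M (rd K N (j + 1))) 2
            (rd K N (j + 1) / 16))) := by
          unfold wj
          ring
      _ ≤ 4 * K ^ 2 * C2 := by gcongr
  intro i hi
  have hb0 := hbig i (by omega)
  have hb1 := hbig (i + 1) (by omega)
  have hmj : rd K N (i + 1) ≤ mj K N i := by
    have h4 := rd_mul (k := 32) (K := K) (N := N) (by norm_num; linarith) hK1 h3 i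
    unfold mj
    push_cast at h4
    omega
  have hmj2 : (1 / 64 : ℝ) * (rd K N i : ℝ) ≤ mj K N i := by
    have h7 : rd K N i ≤ 64 * (mj K N i) := by
      unfold mj
      omega
    have h8 : (rd K N i : ℝ) ≤ 64 * (mj K N i : ℝ) := by exact_mod_cast h7
    linarith
  refine ⟨⟨hpos i (by omega), (hmin i (by omega)).trans (min_le_left _ _),
    hstep i (by omega)⟩, (harm (rd K N i) (mj K N i) hb0.1 hmj2).1,
    (harm (rd K N i) (mj K N i) hb0.1 hmj2).2, ?_, fun j hij hj => ?_⟩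
  · classical
    have hT : {u : V | nrm u ≤ rd K N i}.Finite := by
      have := finite_ball 0 (rd K N i)
      unfold Ball at this
      simpa using this
    have hT1 : {u : V | nrm u ≤ 1}.Finite := by
      have := finite_ball 0 1
      unfold Ball at this
      simpa using this
    obtain ⟨p, hp⟩ : ∃ p, p = 1 / 2 - 2 * wj M K N (i + 1) := ⟨_, rfl⟩
    obtain ⟨q, hq⟩ : ∃ q, q = 1 / 2 + 2 * wj M K N (i + 1) := ⟨_, rfl⟩
    have hw1 := hpos (i + 1) (by omega)
    have hw0 := hpos i (by omega)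
    obtain ⟨Y, hY⟩ : ∃ Y, Y = yf p q 2 (rd K N (i + 1) / 16) := ⟨_, rfl⟩
    have hY0 : 0 ≤ Y := by rw [hY]; exact yf_nonneg
    have h5 := P_union (hT.toFinset ×ˢ hT1.toFinset)
      (fun x => {w : Lab | (Adj x.1 (x.1 + x.2) ∧ mj K N i ≤ nrm x.1) ∧
        |w x.1 - 1 / 2| < 2 * wj M K N i ∧ |w (x.1 + x.2) - 1 / 2| < 2 * wj M K N i ∧
        w ∈ MxG p q x.1 2 (nrm x.1 / 16)})
      (p := 2 * (2 * wj M K N i) * (2 * (2 * wj M K N i) * Y)) ?_
    · have h6 : NB M K N i ⊆ ⋃ x ∈ hT.toFinset ×ˢ hT1.toFinset,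
          {w : Lab | (Adj x.1 (x.1 + x.2) ∧ mj K N i ≤ nrm x.1) ∧
          |w x.1 - 1 / 2| < 2 * wj M K N i ∧ |w (x.1 + x.2) - 1 / 2| < 2 * wj M K N i ∧
          w ∈ MxG p q x.1 2 (nrm x.1 / 16)} := by
        rintro w ⟨u, y, g1, g2, g3, g4, g5, g6⟩
        rw [mem_iUnion₂]
        have g7 := nrm_adj_one g1
        refine ⟨(u, y - u), Finset.mem_product.2 ⟨hT.mem_toFinset.2 ?_,
          hT1.mem_toFinset.2 g7.le⟩, ?_⟩
        · show nrm u ≤ rd K N i
          unfold mj at g3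
          omega
        · have g8 : u + (y - u) = y := by abel
          simp only [mem_ofPred_eq, g8]
          rw [hp, hq]
          exact ⟨⟨g1, g2⟩, g4, g5, g6⟩
      have h7 := (ENNReal.toReal_mono (measure_ne_top _ _) (measure_mono h6)).trans h5
      refine h7.trans ?_
      rw [Finset.card_product, ← ncard_eq_toFinset_card _ hT, ← ncard_eq_toFinset_card _ hT1]
      have c1 := ball_card (by omega : 1 ≤ rd K N i) (T := {u : V | nrm u ≤ rd K N i})
        fun u hu => hu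
      have c2 := ball_card (le_refl (1 : ℤ)) (T := {u : V | nrm u ≤ 1}) fun u hu => hu
      push_cast at c2 ⊢
      have h8 := hyf i (by omega)
      rw [← hp, ← hq, ← hY] at h8
      have h9 := hstep i (by omega)
      have h10 := (hmin i (by omega)).trans (min_le_right _ _)
      rw [le_div_iff₀ (by positivity)] at h10
      have h11 : 8 * wj M K N i * ((rd K N i : ℝ) ^ 2 * Y) ≤ 4 * K ^ 2 * C2 :=
        (mul_le_mul_of_nonneg_right h9 (by positivity)).trans h8
      calc (({u : V | nrm u ≤ rd K N i}.ncard : ℝ) * ({u : V | nrm u ≤ 1}.ncard : ℝ)) *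
            (2 * (2 * wj M K N i) * (2 * (2 * wj M K N i) * Y))
          ≤ ((9 * (rd K N i : ℝ) ^ 2) * (9 * 1 ^ 2)) *
            (2 * (2 * wj M K N i) * (2 * (2 * wj M K N i) * Y)) := by gcongr
        _ = 162 * wj M K N i * (8 * wj M K N i * ((rd K N i : ℝ) ^ 2 * Y)) := by ring
        _ ≤ 162 * wj M K N i * (4 * K ^ 2 * C2) := by gcongr
        _ = wj M K N i * (2592 * K ^ 2 * C2) / 4 := by ring
        _ ≤ δ / 4 := by linarith
    · rintro ⟨u, e⟩ -
      by_cases g : Adj u (u + e) ∧ mj K N i ≤ nrm u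
      · have g2 : {w : Lab | (Adj u (u + e) ∧ mj K N i ≤ nrm u) ∧
            |w u - 1 / 2| < 2 * wj M K N i ∧ |w (u + e) - 1 / 2| < 2 * wj M K N i ∧
            w ∈ MxG p q u 2 (nrm u / 16)} = {w : Lab | |w u - 1 / 2| < 2 * wj M K N i ∧
            |w (u + e) - 1 / 2| < 2 * wj M K N i ∧ w ∈ MxG p q u 2 (nrm u / 16)} := by
          ext w
          simp [g]
        simp only [g2]
        rw [hY]
        have h10 := (hmin i (by omega)).trans (min_le_left _ _)
        exact P_vvm (by rw [hp, hq]; linarith) (by linarith) (by linarith) (by omega)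
          (by omega) g.1
      · have g2 : {w : Lab | (Adj u (u + e) ∧ mj K N i ≤ nrm u) ∧
            |w u - 1 / 2| < 2 * wj M K N i ∧ |w (u + e) - 1 / 2| < 2 * wj M K N i ∧
            w ∈ MxG p q u 2 (nrm u / 16)} = ∅ := by
          ext w
          simp [g]
        simp only [g2, measure_empty, ENNReal.toReal_zero]
        positivity
  · have hbj := hbig j (by omega)
    have hbj1 := hbig (j + 1) (by omega)
    obtain ⟨p, hp⟩ : ∃ p, p = 1 / 2 - 2 * wj M K N (j + 1) := ⟨_, rfl⟩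
    obtain ⟨q, hq⟩ : ∃ q, q = 1 / 2 + 2 * wj M K N (j + 1) := ⟨_, rfl⟩
    have hw1 := hpos (j + 1) (by omega)
    have hw0 := hpos i (by omega)
    obtain ⟨Y, hY⟩ : ∃ Y, Y = yf p q 2 (rd K N (j + 1) / 16) := ⟨_, rfl⟩
    have hY0 : 0 ≤ Y := by rw [hY]; exact yf_nonneg
    have hT : {u : V | rd K N (j + 1) < nrm u ∧ nrm u ≤ rd K N j}.Finite := by
      have := finite_ball 0 (rd K N j)
      unfold Ball at this
      simp only [sub_zero] at this
      exact this.subset fun u hu => hu.2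
    have hB0 : 0 < B := lt_of_lt_of_le (by positivity) hB
    have h5 := P_card hT (E := fun u => {w : Lab | |w u - 1 / 2| < 2 * wj M K N i ∧
      w ∈ MxG p q u 2 (nrm u / 16)}) (p := 2 * (2 * wj M K N i) * Y)
      (c := B * (1 / 2) ^ (j - i) / 2) (fun u _ => ?_) (fun u hu => ?_) (by positivity)
    · have h6 : {w | B * (1 / 2) ^ (j - i) / 2 < ((NV M K N i j w).ncard : ℝ)} =
          {w | B * (1 / 2) ^ (j - i) / 2 < ({u ∈ {u : V | rd K N (j + 1) < nrm u ∧
            nrm u ≤ rd K N j} | w ∈ {w : Lab | |w u - 1 / 2| < 2 * wj M K N i ∧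
              w ∈ MxG p q u 2 (nrm u / 16)}}.ncard : ℝ)} := by
        ext w
        have h7 : NV M K N i j w = {u ∈ {u : V | rd K N (j + 1) < nrm u ∧
            nrm u ≤ rd K N j} | w ∈ {w : Lab | |w u - 1 / 2| < 2 * wj M K N i ∧
              w ∈ MxG p q u 2 (nrm u / 16)}} := by
          ext u
          rw [hp, hq]
          exact ⟨fun ⟨g1, g2, g3⟩ => ⟨⟨g1, g2⟩, g3⟩, fun ⟨⟨g1, g2⟩, g3⟩ => ⟨g1, g2, g3⟩⟩
        simp only [mem_ofPred_eq, h7]
      rw [h6]
      refine h5.trans ?_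
      have c1 := ball_card (by omega : 1 ≤ rd K N j) (T := {u : V | rd K N (j + 1) < nrm u ∧
        nrm u ≤ rd K N j}) fun u hu => hu.2
      have h8 := hyf j (by omega)
      rw [← hp, ← hq, ← hY] at h8
      have h9 := hit i (j + 1 - i) (by omega)
      rw [(by omega : i + (j + 1 - i) = j + 1), (by omega : j + 1 - i = j - i + 1)] at h9
      have h11 : 8 ^ (j - i + 1) * wj M K N i * ((rd K N j : ℝ) ^ 2 * Y) ≤ 4 * K ^ 2 * C2 :=
        (mul_le_mul_of_nonneg_right h9 (by positivity)).trans h8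
      rw [div_le_iff₀ hδ] at hB
      rw [div_le_iff₀ (by positivity)]
      have e8 : (0 : ℝ) < 8 ^ (j - i) := by positivity
      have e1 : ({u : V | rd K N (j + 1) < nrm u ∧ nrm u ≤ rd K N j}.ncard : ℝ) *
          (2 * (2 * wj M K N i) * Y) ≤ 18 * K ^ 2 * C2 * (1 / 8) ^ (j - i) := by
        calc ({u : V | rd K N (j + 1) < nrm u ∧ nrm u ≤ rd K N j}.ncard : ℝ) *
              (2 * (2 * wj M K N i) * Y)
            ≤ (9 * (rd K N j : ℝ) ^ 2) * (2 * (2 * wj M K N i) * Y) := by gcongr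
          _ = 9 / 2 * (8 ^ (j - i + 1) * wj M K N i * ((rd K N j : ℝ) ^ 2 * Y)) *
              (1 / 8) ^ (j - i) := by
              rw [pow_succ, one_div, inv_pow]
              field_simp
              ring
          _ ≤ 9 / 2 * (4 * K ^ 2 * C2) * (1 / 8) ^ (j - i) := by gcongr
          _ = 18 * K ^ 2 * C2 * (1 / 8) ^ (j - i) := by ring
      refine e1.trans ?_
      have e2 : (1 / 8 : ℝ) ^ (j - i) = (1 / 4) ^ (j - i) * (1 / 2) ^ (j - i) := by
        rw [← mul_pow]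
        norm_num
      rw [e2]
      have e3 : (0 : ℝ) < (1 / 4) ^ (j - i) * (1 / 2) ^ (j - i) := by positivity
      calc 18 * K ^ 2 * C2 * ((1 / 4) ^ (j - i) * (1 / 2) ^ (j - i))
          = (144 * K ^ 2 * C2) / 8 * ((1 / 4) ^ (j - i) * (1 / 2) ^ (j - i)) := by ring
        _ ≤ (B * δ) / 8 * ((1 / 4) ^ (j - i) * (1 / 2) ^ (j - i)) := by gcongr
        _ = δ / 4 * (1 / 4) ^ (j - i) * (B * (1 / 2) ^ (j - i) / 2) := by ring
    · exact ((ev_win u _).mono (subset_union_left (t := Ann u 2 (nrm u / 16)))).1.inter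
        ((ev_mxg (by rw [hp, hq]; linarith) u 2 (nrm u / 16)).mono
          (subset_union_right (s := {u}))).1
    · obtain ⟨h6, h7⟩ := hu
      have h9 := hit i (j + 1 - i) (by omega)
      rw [(by omega : i + (j + 1 - i) = j + 1)] at h9
      have h10 : (1 : ℝ) ≤ 8 ^ (j + 1 - i) := one_le_pow₀ (by norm_num)
      have h11 := (hmin (j + 1) (by omega)).trans (min_le_left _ _)
      have h12 : wj M K N i ≤ 1 / 16 := by nlinarith
      rw [hY]
      exact P_vm (by rw [hp, hq]; linarith) (by linarith) (by linarith) (by omega) (by omega)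

end Pool.Agent.MSTLim
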