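import Pool.Agent.MSTLim.Calc
import Pool.Agent.MSTLim.Det
import Pool.Agent.MSTLim.Main
import Pool.Agent.TriPerc.RusD
import Pool.Agent.TriPerc.WinB

/-!
# (N): the weak pattern costs the exponent of `E_F`

`partN`: for all large `K`, `PartN K PW (gF K)`.
-/

namespace Pool.Agent.MSTLim

open MeasureTheory Set Filter
open Pool.Agent.TriPerc
open scoped ENNReal

variable {K N C x q M τ : ℝ} {n k L J0 : ℕ}

/-- The outermost block is bad with a super-exponentially small probability. -/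
theorem P_bad1 {r0 : ℤ} (h2 : 2 ≤ r0)
    (h : ∀ r m : ℤ, r0 ≤ r → r ≤ m →
      af (1 / 2 - wd M r) m ≤ (1 / 2 : ℝ) ^ (((m : ℝ) / r) ^ (1 / 4 : ℝ) / 4) ∧
      ac (1 / 2 + wd M r) m ≤ (1 / 2 : ℝ) ^ (((m : ℝ) / r) ^ (1 / 4 : ℝ) / 4))
    (hK : 16 ≤ K) (hN : 16 ≤ N) (hJ : 1 ≤ J0) (hr : r0 ≤ rd K N J0) :
    P (Bad1 N (wd M (rd K N J0))) ≤
      ENNReal.ofReal (2 * (1 / 2 : ℝ) ^ ((K ^ J0 / 8) ^ (1 / 4 : ℝ) / 4)) := by
  have h0 : (0 : ℝ) < K ^ J0 := pow_pos (by linarith) J0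
  have h16 : (16 : ℝ) ≤ K ^ J0 := by
    calc (16 : ℝ) ≤ K := hK
      _ = K ^ 1 := (pow_one K).symm
      _ ≤ K ^ J0 := pow_le_pow_right₀ (by linarith) hJ
  have f1 : N / 4 < ⌊N / 4⌋ + 1 := Int.lt_floor_add_one _
  have f2 : (rd K N J0 : ℝ) ≤ N / K ^ J0 := Int.floor_le _
  have f3 : N / K ^ J0 ≤ N / 16 := div_le_div_of_nonneg_left (by linarith) (by norm_num) h16
  have hrm : rd K N J0 ≤ ⌊N / 4⌋ := Int.le_floor.2 (by linarith)
  have hr0 : (0 : ℝ) < rd K N J0 := by exact_mod_cast (by omega : 0 < rd K N J0)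
  obtain ⟨a1, a2⟩ := h _ _ hr hrm
  have hd : K ^ J0 / 8 ≤ (⌊N / 4⌋ : ℝ) / rd K N J0 := by
    rw [le_div_iff₀ hr0]
    rw [le_div_iff₀ h0] at f2
    linarith
  have hx : (1 / 2 : ℝ) ^ (((⌊N / 4⌋ : ℝ) / rd K N J0) ^ (1 / 4 : ℝ) / 4) ≤
      (1 / 2 : ℝ) ^ ((K ^ J0 / 8) ^ (1 / 4 : ℝ) / 4) := by
    refine Real.rpow_le_rpow_of_exponent_ge (by norm_num) (by norm_num) ?_
    have := Real.rpow_le_rpow (by positivity) hd (by norm_num : (0 : ℝ) ≤ 1 / 4)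
    linarith
  have b1 := a1.trans hx
  have b2 := a2.trans hx
  unfold af at b1
  unfold ac at b2
  simp only [cl_compl] at b2
  rw [← ENNReal.le_ofReal_iff_toReal_le (measure_ne_top _ _) (by positivity)] at b1 b2
  refine (measure_union_le _ _).trans ((add_le_add b2 b1).trans (le_of_eq ?_))
  rw [← ENNReal.ofReal_add (by positivity) (by positivity)]
  congr 1
  ring

/-- Many blocks with mixed vertices. -/
theorem P_cnt (hK : 2 ≤ K) (hN : 0 ≤ N) (hW : Wide K N (n + 1)) (hC : 0 ≤ C) (hJ : 1 ≤ J0)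
    (hU : ∀ j, J0 + 1 ≤ j → j ≤ n → (P (Un K N q j)).toReal ≤ C * (1 / 8) ^ (j - 1 - J0)) :
    P {w | 4 * L ≤ cnt (Finset.Ioc J0 n) (Un K N q) w} ≤
      ENNReal.ofReal (3 * ((2 : ℝ) ^ n * (C * (1 / 8) ^ L) ^ L)) := by
  classical
  have h1 : {w | 4 * L ≤ cnt (Finset.Ioc J0 n) (Un K N q) w} ⊆
      {w | 3 * L ≤ cnt (Finset.Ioc (J0 + L) n) (Un K N q) w} := by
    intro w hw
    have hw' : 4 * L ≤ ((Finset.Ioc J0 n).filter fun j => w ∈ Un K N q j).card := hw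
    have h2 : ((Finset.Ioc J0 n).filter fun j => w ∈ Un K N q j) ⊆
        Finset.Ioc J0 (J0 + L) ∪ (Finset.Ioc (J0 + L) n).filter fun j => w ∈ Un K N q j := by
      intro j hj
      rw [Finset.mem_filter, Finset.mem_Ioc] at hj
      rw [Finset.mem_union, Finset.mem_filter, Finset.mem_Ioc, Finset.mem_Ioc]
      rcases le_or_gt j (J0 + L) with h3 | h3
      · exact Or.inl ⟨hj.1.1, h3⟩
      · exact Or.inr ⟨⟨h3, hj.1.2⟩, hj.2⟩
    have h3 := (Finset.card_le_card h2).trans (Finset.card_union_le _ _)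
    rw [Nat.card_Ioc] at h3
    change 3 * L ≤ ((Finset.Ioc (J0 + L) n).filter fun j => w ∈ Un K N q j).card
    omega
  have h2 : P {w | 3 * L ≤ cnt (Finset.Ioc (J0 + L) n) (Un K N q) w} ≤
      3 * (2 ^ (Finset.Ioc (J0 + L) n).card * ENNReal.ofReal (C * (1 / 8) ^ L) ^ L) := by
    refine cnt3 (S := fun j => Ann 0 (rd K N (j + 1) + 1) (rd K N (j - 2))) ?_ ?_ ?_
    · intro j hj
      rw [Finset.mem_Ioc] at hj
      exact ev_Un hK hN (by omega) (by have := hW.one (by omega : j + 1 ≤ n + 1); omega)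
    · intro i hi j hj hij
      rw [Finset.mem_Ioc] at hi hj
      have h3 := hW.le (by omega : i + 1 ≤ j - 2) (by omega)
      rw [Set.disjoint_left]
      rintro v ⟨k1, -⟩ ⟨-, k2⟩
      omega
    · intro j hj
      rw [Finset.mem_Ioc] at hj
      rw [ENNReal.le_ofReal_iff_toReal_le (measure_ne_top _ _) (by positivity)]
      refine (hU j (by omega) hj.2).trans (mul_le_mul_of_nonneg_left ?_ hC)
      exact pow_le_pow_of_le_one (by norm_num) (by norm_num) (by omega)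
  refine (measure_mono h1).trans (h2.trans ?_)
  have hb : 0 ≤ C * (1 / 8) ^ L := by positivity
  generalize C * (1 / 8) ^ L = b at hb
  rw [ENNReal.ofReal_mul (by norm_num), ENNReal.ofReal_mul (by positivity),
    ENNReal.ofReal_pow (by norm_num), ENNReal.ofReal_pow hb,
    ENNReal.ofReal_ofNat, ENNReal.ofReal_ofNat]
  refine mul_le_mul' le_rfl (mul_le_mul' (pow_le_pow_right₀ (by norm_num) ?_) le_rfl)
  rw [Nat.card_Ioc]
  omega

/-- The sum over the sets of removed blocks. -/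
theorem P_sum (hW : Wide K N n) (hC : 1 ≤ C) (hx : 0 < x) (hB : Bd K N n C x) (hJn : J0 ≤ n)
    (hτ : 0 < τ) (hτ1 : τ ≤ 1) (k : ℕ) :
    ∑ J ∈ (Finset.Ioc J0 n).powerset.filter (fun J => J.card < k),
        P (EL K N n J0 (J.sort (· ≤ ·))) ≤
      ENNReal.ofReal (C * x ^ (n - J0) *
        ((τ⁻¹) ^ k * Real.exp ((n - J0 : ℕ) * (τ * (C * x⁻¹))))) := by
  classical
  have h1 : ∀ J ∈ (Finset.Ioc J0 n).powerset.filter (fun J => J.card < k),
      P (EL K N n J0 (J.sort (· ≤ ·))) ≤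
        ENNReal.ofReal (C * x ^ (n - J0) * (C * x⁻¹) ^ J.card) := by
    intro J hJ
    have hJ1 := Finset.mem_powerset.1 (Finset.mem_filter.1 hJ).1
    rw [ENNReal.le_ofReal_iff_toReal_le (measure_ne_top _ _) (by positivity)]
    refine (P_EL hW hC hx hB (J.sort (· ≤ ·)) J0 hJn (fun j hj => ?_)
      (Finset.sortedLT_sort _).pairwise).trans (le_of_eq ?_)
    · exact Finset.mem_Ioc.1 (hJ1 ((Finset.mem_sort _).1 hj))
    · rw [Finset.length_sort, mul_pow, pow_succ]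
      ring
  refine (Finset.sum_le_sum h1).trans ?_
  rw [← ENNReal.ofReal_sum_of_nonneg (fun J _ => by positivity), ← Finset.mul_sum]
  refine ENNReal.ofReal_le_ofReal (mul_le_mul_of_nonneg_left ?_ (by positivity))
  have h2 := sum_small (T := Finset.Ioc J0 n) (y := C * x⁻¹) (by positivity) hτ hτ1 k
  rwa [Nat.card_Ioc] at h2

/-- The bounds for the runs from `UpB`. -/
theorem bd_of {α β δ C : ℝ} (h : ∀ m ≤ n, ∀ j ≤ n, gF K m (N / K ^ j) ≤ C * Real.exp (-(α - δ) * m))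
    (hC : 1 ≤ C) (hβ : β = α - δ ∨ β = 0) : Bd K N n C (Real.exp (-β)) := by
  intro s t hst htn
  rw [← Real.exp_nat_mul]
  rcases hβ with rfl | rfl
  · refine (h (t - s) (by omega) s (by omega)).trans (le_of_eq ?_)
    rw [mul_comm ((t - s : ℕ) : ℝ)]
  · rw [neg_zero, mul_zero, Real.exp_zero, mul_one]
    exact (gF_le_one K _ _).trans hC

/-- **(N)**: the weak pattern costs the exponent of `gF`. -/
theorem partN : ∃ K1 : ℝ, 16 ≤ K1 ∧ ∀ K, K1 ≤ K → PartN K PW (gF K) := by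
  obtain ⟨K0, -, hUn⟩ := P_Un qmFr
  obtain ⟨M, hM, hdec⟩ := wd_decay qmFr rusFr
  obtain ⟨r0, hr0, hdec⟩ := hdec M le_rfl
  refine ⟨max K0 16, le_max_right _ _, fun K hK F hF α hα hup ε hε => ?_⟩
  have hK16 : 16 ≤ K := (le_max_right _ _).trans hK
  have hK1 : 1 < K := by linarith
  obtain ⟨C, hC, hUn⟩ := hUn K ((le_max_left _ _).trans hK) M hM
  obtain ⟨C1, hC1, hup⟩ := hup (ε / 8) (by positivity)
  obtain ⟨β, hβ0, hβα, hβε, hβ⟩ : ∃ β : ℝ, 0 ≤ β ∧ β ≤ α ∧ α - ε / 8 ≤ β ∧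
      (β = α - ε / 8 ∨ β = 0) := by
    rcases le_or_gt 0 (α - ε / 8) with h | h
    · exact ⟨α - ε / 8, h, by linarith, le_rfl, Or.inl rfl⟩
    · exact ⟨0, le_rfl, hα, h.le, Or.inr rfl⟩
  obtain ⟨y, hy⟩ : ∃ y : ℝ, y = C1 * (Real.exp (-β))⁻¹ := ⟨_, rfl⟩
  have hy0 : 0 < y := by rw [hy]; positivity
  obtain ⟨τ, hτ0, hτ1, hτ2⟩ : ∃ τ : ℝ, 0 < τ ∧ τ ≤ 1 ∧ τ * y ≤ ε / 8 := by
    refine ⟨min 1 (ε / 8 / y), lt_min one_pos (by positivity), min_le_left _ _, ?_⟩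
    exact (mul_le_mul_of_nonneg_right (min_le_right _ _) hy0.le).trans
      (by rw [div_mul_cancel₀ _ hy0.ne'])
  have hlτ : 0 ≤ Real.log τ⁻¹ := Real.log_nonneg (one_le_inv_iff₀.2 ⟨hτ0, hτ1⟩)
  obtain ⟨θ, hθ0, hθ1⟩ : ∃ θ : ℝ, 0 < θ ∧ 4 * θ * Real.log τ⁻¹ ≤ ε / 8 := by
    refine ⟨ε / (32 * (Real.log τ⁻¹ + 1)), by positivity, ?_⟩
    rw [mul_div_assoc', div_mul_eq_mul_div, div_le_iff₀ (by positivity)]
    linarith
  obtain ⟨κ, hκ0, hκ1, hκ2⟩ : ∃ κ : ℝ, 0 < κ ∧ κ ≤ 1 / 2 ∧ α * κ ≤ ε / 8 := by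
    refine ⟨min (1 / 2) (ε / (8 * (α + 1))), lt_min (by norm_num) (by positivity),
      min_le_left _ _, ?_⟩
    refine (mul_le_mul_of_nonneg_left (min_le_right _ _) hα).trans ?_
    rw [mul_div_assoc', div_le_iff₀ (by positivity)]
    linarith
  obtain ⟨n1, hn1⟩ := super1 (K := K) (κ := κ) hK1 hκ0 α
  obtain ⟨n2, hn2⟩ := super2 (θ := θ) (C := C) hθ0 hC α
  obtain ⟨B, hB⟩ : ∃ B : ℝ, B = 2 + C1 * Real.exp α := ⟨_, rfl⟩
  have hB0 : 0 < B := by rw [hB]; positivity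
  obtain ⟨n3, hn3⟩ := exists_nat_ge ((Real.log B + α) / (ε / 2))
  refine ⟨n1 + n2 + n3 + 3, fun n hn => ?_⟩
  obtain ⟨n, rfl⟩ : ∃ n', n = n' + 1 := ⟨n - 1, by omega⟩
  obtain ⟨J0, hJ0⟩ : ∃ J0 : ℕ, J0 = ⌊κ * n⌋₊ + 1 := ⟨_, rfl⟩
  obtain ⟨L, hL⟩ : ∃ L : ℕ, L = ⌊θ * n⌋₊ := ⟨_, rfl⟩
  have hnR : (2 : ℝ) ≤ n := by exact_mod_cast (by omega : 2 ≤ n)
  have hJκ : (J0 : ℝ) ≤ κ * n + 1 := by
    rw [hJ0]
    push_cast
    linarith [Nat.floor_le (by positivity : 0 ≤ κ * n)]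
  have hJ1 : 1 ≤ J0 := by omega
  have hJn : J0 ≤ n := by
    have : (J0 : ℝ) ≤ n := by linarith [mul_le_mul_of_nonneg_right hκ1 (by linarith : (0 : ℝ) ≤ n)]
    exact_mod_cast this
  have hLθ : (L : ℝ) ≤ θ * n := by
    rw [hL]
    exact Nat.floor_le (by positivity)
  have g1 := hn1 n (by omega)
  have g2 := hn2 n (by omega)
  rw [← hJ0] at g1
  rw [← hL] at g2
  filter_upwards [(wide_ev hK1 (n + 2)).filter_mono hF.le_atTop,
    (eventually_ge_atTop (16 : ℝ)).filter_mono hF.le_atTop,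
    (hUn n).filter_mono hF.le_atTop, (big_ev hK1 n r0).filter_mono hF.le_atTop, hup n]
    with N w1 w2 w3 w4 w5
  obtain ⟨q0, -, hq⟩ := w3 J0 hJn
  have c1 := P_bad1 hr0 hdec hK16 w2 hJ1 (w4 J0 hJn)
  have c2 := P_cnt (L := L) (by linarith : 2 ≤ K) (by linarith : 0 ≤ N) (w1.anti (by omega))
    hC.le hJ1 hq
  have c3 := P_sum (w1.anti (by omega)) hC1 (Real.exp_pos (-β)) (bd_of w5 hC1 hβ) hJn hτ0 hτ1
    (4 * L)
  refine (cover hK16 w2 w1 q0.le hJ1 hJn (4 * L)).trans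
    ((add_le_add (add_le_add c1 c2) c3).trans ?_)
  rw [← hy, ← ENNReal.ofReal_add (by positivity) (by positivity),
    ← ENNReal.ofReal_add (by positivity) (by positivity)]
  refine ENNReal.ofReal_le_ofReal ?_
  have hα0 : -α * n ≤ -(α - ε / 2) * n := by linarith [mul_nonneg hε.le (by linarith : (0 : ℝ) ≤ n)]
  have e1 := g1.trans (Real.exp_le_exp.2 hα0)
  have e2 := g2.trans (Real.exp_le_exp.2 hα0)
  have e3 : C1 * Real.exp (-β) ^ (n - J0) *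
      (τ⁻¹ ^ (4 * L) * Real.exp ((n - J0 : ℕ) * (τ * y))) ≤
      C1 * Real.exp α * Real.exp (-(α - ε / 2) * n) := by
    rw [← Real.exp_nat_mul, mul_assoc, mul_assoc]
    refine mul_le_mul_of_nonneg_left ?_ (by linarith)
    have e4 : τ⁻¹ ^ (4 * L) = Real.exp ((4 * L : ℕ) * Real.log τ⁻¹) := by
      rw [Real.exp_nat_mul, Real.exp_log (by positivity)]
    rw [e4, ← Real.exp_add, ← Real.exp_add, ← Real.exp_add]
    refine Real.exp_le_exp.2 ?_
    rw [Nat.cast_sub hJn]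
    push_cast
    have k1 : 4 * (L : ℝ) * Real.log τ⁻¹ ≤ ε / 8 * n := by
      calc 4 * (L : ℝ) * Real.log τ⁻¹ ≤ 4 * (θ * n) * Real.log τ⁻¹ := by gcongr
        _ = 4 * θ * Real.log τ⁻¹ * n := by ring
        _ ≤ ε / 8 * n := by gcongr
    have hJ0' : (0 : ℝ) ≤ J0 := Nat.cast_nonneg _
    have k2 : ((n : ℝ) - J0) * (τ * y) ≤ ε / 8 * n := by
      have : (0 : ℝ) ≤ τ * y := by positivity
      linarith [mul_nonneg hJ0' this,
        mul_le_mul_of_nonneg_left hτ2 (by linarith : (0 : ℝ) ≤ n)]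
    have k3 : β * J0 ≤ ε / 8 * n + α := by
      calc β * J0 ≤ α * (κ * n + 1) := by
            exact mul_le_mul hβα hJκ hJ0' hα
        _ = α * κ * n + α := by ring
        _ ≤ ε / 8 * n + α := by gcongr
    have k4 : (α - ε / 8) * n ≤ β * n := by gcongr
    linarith
  refine (add_le_add (add_le_add e1 e2) e3).trans ?_
  have e5 : Real.exp (-(α - ε / 2) * n) + Real.exp (-(α - ε / 2) * n) +
      C1 * Real.exp α * Real.exp (-(α - ε / 2) * n) = B * Real.exp (-(α - ε / 2) * n) := by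
    rw [hB]
    ring
  rw [e5]
  nth_rewrite 1 [← Real.exp_log hB0]
  rw [← Real.exp_add]
  refine Real.exp_le_exp.2 ?_
  rw [div_le_iff₀ (by positivity)] at hn3
  have hn3' : (n3 : ℝ) ≤ n := by exact_mod_cast (by omega : n3 ≤ n)
  push_cast
  linarith [mul_le_mul_of_nonneg_right hn3' (by positivity : 0 ≤ ε / 2)]

end Pool.Agent.MSTLim
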