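import Pool.Agent.MSTLim.DiscH
import Pool.Agent.MSTLim.Pat

/-!
# The separation form of the strong pattern

`ps_of_sep`: let `f` be a tree path, `f w0, f w3` in the ball of radius `a`, `f w1, f w2` in the
ball `D` of radius `3 a / 2`, the excursion `f(w1, w2)` outside `D`; `f u1, f u3` outside the ball
of radius `b`, `f[al, u1]`, `f[u3, be]` outside the ball of radius `2 a` (for instance `al = u1`,
`be = u3`); `f al, f be` in the ball of radius `b / e` at distance at least `e b` from the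
excursion.  If `D` and the excursion separate `f al` from `f be`, then `PS e ω a b`.
-/

namespace Pool.Agent.MSTLim

open Pool.Agent.TriPerc Set

private theorem patS_disc {a : ℝ} : {z : V | (nrm z : ℝ) ≤ 3 / 2 * a} = Ball 0 ⌊3 / 2 * a⌋ := by
  ext z
  simp only [mem_setOf_eq, Ball, sub_zero, Int.le_floor]

private theorem patS_out {b : ℝ} : {z : V | b ≤ (nrm z : ℝ)} =
    {v : V | ⌈b⌉ - 1 < nrm (v - 0)} := by
  ext z
  simp only [mem_setOf_eq, sub_zero, Int.sub_one_lt_iff, Int.ceil_le]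

private theorem patS_far {a : ℝ} {v z : V} (ha : 10 ≤ a) (hv : 2 * a < nrm v)
    (hz : (nrm z : ℝ) ≤ 3 / 2 * a) : ‖emb z‖ + 1 < ‖emb v‖ := by
  have h1 := emb_le_nrm z
  have h2 := nrm_le_emb v
  have h3 : (17 : ℝ) / 10 < √3 := by
    rw [Real.lt_sqrt (by norm_num)]
    norm_num
  have h4 : (0 : ℝ) < √3 := by positivity
  have h5 : √3 / 2 * (2 * a) < √3 / 2 * nrm v := by gcongr
  nlinarith

private theorem patS_adj {u z : V} (h : Adj u z) : (nrm z : ℝ) ≤ nrm u + 1 := by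
  have e5 := (abs_le.1 (nrm_adj h 0)).2
  rw [sub_zero, sub_zero] at e5
  have e6 : ((nrm z - nrm u : ℤ) : ℝ) ≤ ((1 : ℤ) : ℝ) := by exact_mod_cast e5
  push_cast at e6
  linarith

theorem ps_of_sep {e a b : ℝ} {ω : Lab} {f : ℕ → V} {n w0 al u1 w1 w2 u3 be w3 : ℕ}
    (hf : TreePath ω f n) (ha : 10 ≤ a) (hab : 2 * a < b)
    (h1 : w0 ≤ al) (h2 : al ≤ u1) (h3 : u1 < w1) (h4 : w1 < w2)
    (h7 : w2 < u3) (h8 : u3 ≤ be) (h9 : be ≤ w3) (h10 : w3 ≤ n)
    (k0 : nrm (f w0) ≤ a) (k3 : nrm (f w3) ≤ a) (k1 : nrm (f w1) ≤ 3 / 2 * a)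
    (k2 : nrm (f w2) ≤ 3 / 2 * a) (k4 : b ≤ nrm (f u1)) (k5 : b ≤ nrm (f u3))
    (k6 : nrm (f al) ≤ b / e) (k7 : nrm (f be) ≤ b / e)
    (hH : ∀ k, w1 < k → k < w2 → 3 / 2 * a < nrm (f k))
    (hal : ∀ k, al ≤ k → k ≤ u1 → 2 * a < nrm (f k))
    (hbe : ∀ k, u3 ≤ k → k ≤ be → 2 * a < nrm (f k))
    (hd : ∀ k, w1 ≤ k → k ≤ w2 → e * b ≤ nrm (f k - f al) ∧ e * b ≤ nrm (f k - f be))
    (hsep : ¬ Conn {z | 3 / 2 * a < nrm z ∧ ∀ k, w1 < k → k < w2 → z ≠ f k} (f al) (f be)) :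
    PS e ω a b := by
  have hadj : ∀ k < n, Adj (f k) (f (k + 1)) := fun k hk => (hf.1 k hk).1
  have hinj := hf.2
  have hfa := hal al le_rfl h2
  have hfb := hbe be h8 le_rfl
  have hN : ∀ z, (∃ u ∈ {z : V | (nrm z : ℝ) ≤ 3 / 2 * a}, z = u ∨ Adj u z) →
      (nrm z : ℝ) ≤ 8 / 5 * a := by
    rintro z ⟨u, hu, rfl | h⟩
    · have e1 : (nrm z : ℝ) ≤ 3 / 2 * a := hu
      linarith
    · have e1 : (nrm u : ℝ) ≤ 3 / 2 * a := hu
      have e2 := patS_adj h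
      linarith
  obtain ⟨i, j, s, g1, g2, g3, g4, g5, g6, g7, key⟩ := qsideH (f := f) (w0 := w0) (al := al)
    (u1 := u1) (w1 := w1) (w2 := w2) (u3 := u3) (be := be) (w3 := w3)
    (D := {z : V | (nrm z : ℝ) ≤ 3 / 2 * a}) (E := {z : V | b ≤ (nrm z : ℝ)})
    (by rw [patS_disc]; exact finite_ball _ _)
    (by rw [patS_disc]; exact isConn_ball _ _) (by rw [patS_out]; exact isConn_out _ _)
    (fun z hz u hu => by
      have e1 : b ≤ (nrm z : ℝ) := hz
      have e2 : (nrm u : ℝ) ≤ 3 / 2 * a := hu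
      refine ⟨fun h => ?_, fun h => ?_⟩
      · rw [h] at e1
        linarith
      · have e3 := patS_adj h
        linarith)
    (fun k _ e2 => hadj k (by omega)) (fun i _ e2 j _ e4 e5 => hinj i (by omega) j (by omega) e5)
    h1 h2 h3 h4 h7 h8 h9 (fun z hz => patS_far ha hfa hz) (fun z hz => patS_far ha hfb hz)
    (show (nrm (f w0) : ℝ) ≤ 3 / 2 * a by linarith)
    (show (nrm (f w3) : ℝ) ≤ 3 / 2 * a by linarith) k1 k2
    (fun k e1 e2 e3 => absurd (hH k e1 e2) (not_lt.2 e3))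
    (fun k e1 e2 e3 => by
      have e4 := hal k e1 e2
      have e5 : (nrm (f k) : ℝ) ≤ 3 / 2 * a := e3
      linarith)
    (fun k e1 e2 e3 => by
      have e4 := hbe k e1 e2
      have e5 : (nrm (f k) : ℝ) ≤ 3 / 2 * a := e3
      linarith)
    k4 k5
    (fun hc => hsep (hc.mono fun z hz => ⟨not_le.1 hz.1, hz.2⟩))
  refine ⟨f, n, w0, al, u1, i, j, u3, be, w3, hf, h1, h2, by omega, by omega, by omega, h8, h9,
    h10, k0, k3, hN _ g5, hN _ g6, k4, k5, k6, k7, hal, hbe,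
    fun k e1 e2 => hd k (by omega) (by omega), key⟩

end Pool.Agent.MSTLim
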