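import Pool.Agent.MST.Jord
import Pool.Agent.MST.Pa
import Pool.Agent.MSTLim.PatS

/-!
# The strong pattern from the order of four visits of the circle of radius `⌊3 a / 2⌋`

`ps_of_ord`: let `ρ = ⌊3 a / 2⌋`, `D` the ball of radius `ρ`.  The tree path visits the circle of radius
`ρ` at the times `w0' < w1 < w2 < w3'` and is outside `D` between `w0'` and `al`, between `w1` and `w2`
and between `be` and `w3'`.  If `f w1, f w2` separate `f w0'` from `f w3'` on the circle, then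
`D` and `f(w1, w2)` separate `f al` from `f be`.

PROOF.  Otherwise `T = f[w0', al] ∪ T' ∪ f[be, w3']`, where `T'` is the set of the vertices outside `D`
which are not in `f(w1, w2)`, joins `f w0'` to `f w3'`, and `S = f[w1, w2]` joins `f w1` to `f w2`.  Both
meet the ball `D` only in their end points, so they meet (`jord_out`): impossible since `f` is injective.
-/

namespace Pool.Agent.MSTLim

open Pool.Agent.TriPerc (V Adj Lab Conn nrm)
open Pool.Agent.MST (seg SepC jord_out)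

theorem ps_of_ord {e a b : ℝ} {ω : Lab} {f : ℕ → V} {ρ : ℤ}
    {n w0 w0' al u1 w1 w2 u3 be w3' w3 : ℕ} (hf : TreePath ω f n) (hρ : ρ = ⌊3 / 2 * a⌋)
    (ha : 10 ≤ a) (hab : 2 * a < b) (t0 : w0 ≤ w0') (t1 : w0' < al) (t2 : al ≤ u1) (t3 : u1 < w1) (t4 : w1 < w2)
    (t5 : w2 < u3) (t6 : u3 ≤ be) (t7 : be < w3') (t8 : w3' ≤ w3) (t9 : w3 ≤ n)
    (a0 : nrm (f w0) ≤ a) (a3 : nrm (f w3) ≤ a) (c0 : nrm (f w0') = ρ) (c1 : nrm (f w1) = ρ)
    (c2 : nrm (f w2) = ρ) (c3 : nrm (f w3') = ρ) (o0 : ∀ k, w0' < k → k ≤ al → ρ < nrm (f k))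
    (o1 : ∀ k, w1 < k → k < w2 → ρ < nrm (f k)) (o3 : ∀ k, be ≤ k → k < w3' → ρ < nrm (f k))
    (b1 : b ≤ nrm (f u1)) (b3 : b ≤ nrm (f u3)) (b1' : nrm (f al) ≤ b / e)
    (b3' : nrm (f be) ≤ b / e) (m1 : ∀ k, al ≤ k → k ≤ u1 → 2 * a < nrm (f k))
    (m3 : ∀ k, u3 ≤ k → k ≤ be → 2 * a < nrm (f k))
    (hm : ∀ k, w1 ≤ k → k ≤ w2 → e * b ≤ nrm (f k - f al) ∧ e * b ≤ nrm (f k - f be))
    (hs : SepC ρ (f w1) (f w2) (f w0') (f w3')) : PS e ω a b := by
  have hfl : ∀ z : V, (3 / 2 * a < nrm z ↔ ρ < nrm z) := by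
    intro z
    rw [hρ, Int.floor_lt]
  have hle : (ρ : ℝ) ≤ 3 / 2 * a := by
    rw [hρ]
    exact Int.floor_le _
  have hρ1 : 1 ≤ ρ := by
    rw [hρ]
    exact Int.le_floor.2 (by push_cast; linarith)
  have hadj : ∀ i < n, Adj (f i) (f (i + 1)) := fun i hi => (hf.1 i hi).1
  have hinj : ∀ i j, i ≤ n → j ≤ n → f i = f j → i = j := fun i j hi hj => hf.2 i hi j hj
  refine ps_of_sep hf ha hab (w0 := w0) (al := al) (u1 := u1) (w1 := w1) (w2 := w2) (u3 := u3)
    (be := be) (w3 := w3) (by omega) t2 t3 t4 t5 t6 (by omega) t9 a0 a3 ?_ ?_ b1 b3 b1' b3'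
    (fun k k1 k2 => (hfl _).2 (o1 k k1 k2)) m1 m3 hm ?_
  · rw [c1]
    exact hle
  · rw [c2]
    exact hle
  intro hc
  -- the two connected sets
  obtain ⟨T', hT'⟩ : ∃ T' : Set V, T' = {z | 3 / 2 * a < nrm z ∧
      ∀ k, w1 < k → k < w2 → z ≠ f k} := ⟨_, rfl⟩
  rw [← hT'] at hc
  have hseg : ∀ s t, s ≤ t → t ≤ n → Conn (seg f s t) (f s) (f t) := fun s t h1 h2 =>
    Pool.Agent.MST.conn_seg h1 (fun q _ hq => hadj q (by omega)) fun q q1 q2 => ⟨q, q1, q2, rfl⟩
  have hS := hseg w1 w2 t4.le (by omega)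
  have hT : Conn (seg f w0' al ∪ T' ∪ seg f be w3') (f w0') (f w3') :=
    (((hseg w0' al t1.le (by omega)).mono (Set.subset_union_left.trans
      Set.subset_union_left)).trans (hc.mono (Set.subset_union_right.trans
      Set.subset_union_left))).trans ((hseg be w3' t7.le (by omega)).mono Set.subset_union_right)
  have hS1 : ∀ z ∈ seg f w1 w2, nrm z ≤ ρ → z = f w1 ∨ z = f w2 := by
    rintro z ⟨k, k1, k2, rfl⟩ hk
    rcases Nat.lt_or_ge w1 k with h1 | h1
    · rcases Nat.lt_or_ge k w2 with h2 | h2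
      · have := o1 k h1 h2
        omega
      · exact Or.inr (congrArg f (by omega))
    · exact Or.inl (congrArg f (by omega))
  have hT1 : ∀ z ∈ seg f w0' al ∪ T' ∪ seg f be w3', nrm z ≤ ρ → z = f w0' ∨ z = f w3' := by
    rintro z ((⟨i, i1, i2, rfl⟩ | hz) | ⟨i, i1, i2, rfl⟩) hk
    · rcases Nat.lt_or_ge w0' i with h1 | h1
      · have := o0 i h1 i2
        omega
      · exact Or.inl (congrArg f (by omega))
    · rw [hT'] at hz
      have := (hfl _).1 hz.1
      omega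
    · rcases Nat.lt_or_ge i w3' with h1 | h1
      · have := o3 i i1 h1
        omega
      · exact Or.inr (congrArg f (by omega))
  obtain ⟨z, ⟨k, k1, k2, rfl⟩, hz⟩ := jord_out hρ1 c1 c2 c0 c3 hs hS1 hT1 hS hT
  rcases hz with (⟨i, i1, i2, hi⟩ | hz) | ⟨i, i1, i2, hi⟩
  · have := hinj i k (by omega) (by omega) hi
    omega
  · rw [hT'] at hz
    rcases Nat.lt_or_ge w1 k with h1 | h1
    · rcases Nat.lt_or_ge k w2 with h2 | h2
      · exact hz.2 k h1 h2 rfl
      · obtain rfl : k = w2 := by omega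
        have := (hfl _).1 hz.1
        omega
    · obtain rfl : k = w1 := by omega
      have := (hfl _).1 hz.1
      omega
  · have := hinj i k (by omega) (by omega) hi
    omega

end Pool.Agent.MSTLim
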