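import Mathlib
import Pool.Agent.MSTLim.Defs

/-!
# Convergence in distribution in the sense of Mathlib implies `TendsLaw`
-/

namespace Pool.Agent.MSTLim

open MeasureTheory Filter Topology Set
open scoped NNReal ENNReal BoundedContinuousFunction
open Pool.Agent.TriPerc (V Adj Lab P)

/-- Convergence in distribution (`MeasureTheory.TendstoInDistribution`) of the configurations to a
random configuration `Z` implies `TendsLaw` with the law of `Z`. -/
theorem tendsLaw_of_tendstoInDistribution {ι : Type} {l : Filter ι} {η : ι → ℝ} {Ω' : Type}
    {m' : MeasurableSpace Ω'} {μ' : Measure Ω'} [IsProbabilityMeasure μ'] {Z : Ω' → Om}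
    (h : TendstoInDistribution (fun k => conf (η k)) l Z (fun _ => P) μ') :
    TendsLaw l η (μ'.map Z) := by
  intro F
  have h1 := ProbabilityMeasure.tendsto_iff_forall_lintegral_tendsto.mp h.tendsto F
  have hF : Measurable fun x : Om => (F x : ℝ≥0∞) :=
    F.continuous.measurable.coe_nnreal_ennreal
  refine h1.congr fun k => ?_
  exact lintegral_map' hF.aemeasurable (h.forall_aemeasurable k)

end Pool.Agent.MSTLim
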