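import Pool.Agent.MSTLim.PolyA
import Mathlib.Topology.ContinuousMap.Bounded.ArzelaAscoli

/-!
# The simple polygonal curves of the lattice form a totally bounded set

`totB_simple`: the set of all curves `cur η f n`, where `f 0, ..., f n` is a simple path of the
lattice, is totally bounded for the distance of curves modulo change of parameter.

PROOF.  Choose positive weights `τ v` of the vertices with sum at most `1`, and run through the
edge from `f k` in a time proportional to `τ (f k)` (`exists_time`).  A piece of a path which is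
traversed in a short time contains only small fractions of the edges near the origin, hence it is
short or it is near the point at infinity (`small_piece`).  So the new parametrisations are
equicontinuous, and the theorem of Arzela and Ascoli applies (`totB_of`).
-/

namespace Pool.Agent.MSTLim

open Filter Topology Set
open scoped BoundedContinuousFunction
open Pool.Agent.TriPerc (V Adj)

/-! ### The sphere -/

/-- The point at infinity. -/
noncomputable def npole : Sph := ⟨(0, 1), by norm_num⟩

theorem tendsto_sig_inf : Tendsto sig (cocompact ℂ) (𝓝 npole) := by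
  have hn : Tendsto (fun z : ℂ => ‖z‖) (cocompact ℂ) atTop := tendsto_norm_cocompact_atTop
  have h0 : Tendsto (fun z : ℂ => 2 / ‖z‖) (cocompact ℂ) (𝓝 0) := by
    exact hn.const_div_atTop 2
  rw [tendsto_subtype_rng]
  refine Tendsto.prodMk_nhds ?_ ?_
  · refine squeeze_zero_norm' ?_ h0
    filter_upwards [hn.eventually_gt_atTop 0] with z hz
    rw [norm_mul, Complex.norm_real, Real.norm_eq_abs, abs_of_nonneg (by positivity)]
    rw [div_mul_eq_mul_div, div_le_div_iff₀ (by positivity) hz]
    nlinarith
  · have h2 : Tendsto (fun z : ℂ => 1 - 2 / (‖z‖ ^ 2 + 1)) (cocompact ℂ) (𝓝 (1 - 0)) := by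
      refine tendsto_const_nhds.sub ?_
      refine Tendsto.const_div_atTop ?_ 2
      refine tendsto_atTop_add_const_right _ _ ?_
      exact (tendsto_pow_atTop two_ne_zero).comp hn
    rw [sub_zero] at h2
    refine h2.congr fun z => ?_
    have : (0 : ℝ) < ‖z‖ ^ 2 + 1 := by positivity
    field_simp
    ring

theorem uniformContinuous_sig : UniformContinuous sig :=
  continuous_sig.uniformContinuous_of_tendsto_cocompact tendsto_sig_inf

theorem sig_near_inf {ε : ℝ} (hε : 0 < ε) : ∃ R : ℝ, ∀ z : ℂ, R ≤ ‖z‖ → dist (sig z) npole < ε := by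
  have h := Metric.tendsto_nhds.mp tendsto_sig_inf ε hε
  rw [Filter.Eventually, mem_cocompact] at h
  obtain ⟨t, ht, hs⟩ := h
  obtain ⟨R, hR⟩ := ht.isBounded.subset_ball 0
  refine ⟨R, fun z hz => hs fun hzt => ?_⟩
  have := hR hzt
  rw [mem_ball_zero_iff] at this
  linarith

/-- A set of curves is totally bounded if its members have equicontinuous parametrisations. -/
theorem totB_of {A : Set Cur} (h : Cur → (unitInterval ≃o unitInterval))
    (H : ∀ ε > 0, ∃ c > 0, ∀ γ ∈ A, ∀ s t, dist (h γ s) (h γ t) < c →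
      dist (γ.map s) (γ.map t) < ε) : TotallyBounded A := by
  obtain ⟨B, hBdef⟩ : ∃ B : Set (unitInterval →ᵇ Sph),
    B = (fun γ : Cur => BoundedContinuousFunction.mkOfCompact (γ.rep (h γ).symm).map) '' A := ⟨_, rfl⟩
  have hB : Equicontinuous ((↑) : B → unitInterval → Sph) := by
    apply UniformEquicontinuous.equicontinuous
    rw [Metric.uniformEquicontinuous_iff]
    intro ε hε
    obtain ⟨c, hc, hh⟩ := H ε hε
    refine ⟨c, hc, ?_⟩
    rintro x y hxy ⟨g, hg⟩
    rw [hBdef] at hg
    obtain ⟨γ, hγ, rfl⟩ := hg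
    refine hh γ hγ ((h γ).symm x) ((h γ).symm y) ?_
    simpa using hxy
  have h1 : TotallyBounded B :=
    (IsCompact.totallyBounded (BoundedContinuousFunction.arzela_ascoli univ isCompact_univ B
      (fun _ _ _ => mem_univ _) hB)).subset subset_closure
  have h2 : UniformContinuous (fun g : unitInterval →ᵇ Sph => (⟨g.toContinuousMap⟩ : Cur)) := by
    rw [Metric.uniformContinuous_iff]
    intro ε hε
    refine ⟨ε / 2, half_pos hε, fun {g g'} hg => ?_⟩
    refine (Cur.dist_le_of (half_pos hε).le (OrderIso.refl _) fun t => ?_).trans_lt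
      (half_lt_self hε)
    exact (BoundedContinuousFunction.dist_coe_le_dist t).trans hg.le
  have h3 := h1.image h2
  rw [Metric.totallyBounded_iff] at h3 ⊢
  intro ε hε
  obtain ⟨t, ht, hs⟩ := h3 ε hε
  refine ⟨t, ht, fun γ hγ => ?_⟩
  have h4 : (⟨(BoundedContinuousFunction.mkOfCompact (γ.rep (h γ).symm).map).toContinuousMap⟩ :
      Cur) ∈ (fun g : unitInterval →ᵇ Sph => (⟨g.toContinuousMap⟩ : Cur)) '' B := by
    rw [hBdef]
    exact ⟨_, ⟨γ, hγ, rfl⟩, rfl⟩
  have h5 := hs h4
  simp only [mem_iUnion, Metric.mem_ball, exists_prop] at h5 ⊢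
  obtain ⟨y, hy, hd⟩ := h5
  refine ⟨y, hy, ?_⟩
  have h6 : dist γ ⟨(BoundedContinuousFunction.mkOfCompact
      (γ.rep (h γ).symm).map).toContinuousMap⟩ ≤ 0 := by
    refine Cur.dist_le_of le_rfl (h γ) fun t => ?_
    have : (⟨(BoundedContinuousFunction.mkOfCompact
      (γ.rep (h γ).symm).map).toContinuousMap⟩ : Cur).map (h γ t) = γ.map t := by
      show γ.map ((h γ).symm (h γ t)) = _
      rw [OrderIso.symm_apply_apply]
    rw [this, dist_self]
  have h7 := dist_triangle γ ⟨(BoundedContinuousFunction.mkOfCompact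
      (γ.rep (h γ).symm).map).toContinuousMap⟩ y
  linarith

/-! ### The change of time -/

variable {n : ℕ}

theorem clamp_nonneg (x : ℝ) : 0 ≤ clamp x := le_max_left _ _

theorem clamp_le_one (x : ℝ) : clamp x ≤ 1 := max_le zero_le_one (min_le_left _ _)

theorem clamp_mono : Monotone clamp := fun _ _ h =>
  max_le_max le_rfl (min_le_min le_rfl h)

/-- A piecewise linear change of time with given slopes. -/
theorem exists_time (hn : 0 < n) {w : ℕ → ℝ} (hw : ∀ k < n, 0 < w k)
    (hs : ∑ k ∈ Finset.range n, w k ≤ 1) :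
    ∃ h : unitInterval ≃o unitInterval, ∀ s t : unitInterval, s ≤ t → ∀ k < n,
      w k * (clamp (n * t - k) - clamp (n * s - k)) ≤ (h t : ℝ) - h s := by
  obtain ⟨T, hT⟩ : ∃ T, T = ∑ k ∈ Finset.range n, w k := ⟨_, rfl⟩
  have hT0 : 0 < T := by
    rw [hT]
    exact Finset.sum_pos (fun k hk => hw k (Finset.mem_range.1 hk)) ⟨0, Finset.mem_range.2 hn⟩
  have hT1 : T ≤ 1 := hT ▸ hs
  obtain ⟨F, hF⟩ : ∃ F : ℝ → ℝ, F = fun x => (∑ k ∈ Finset.range n, w k * clamp (n * x - k)) / T :=
    ⟨_, rfl⟩
  have hFc : Continuous F := by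
    rw [hF]
    refine (continuous_finsetSum _ fun k _ => ?_).div_const _
    exact continuous_const.mul (continuous_clamp.comp (by fun_prop))
  have hn' : (0 : ℝ) < n := by exact_mod_cast hn
  have hF0 : F 0 = 0 := by
    rw [hF]
    simp only
    rw [Finset.sum_eq_zero, zero_div]
    intro k hk
    have : clamp (n * 0 - k) = 0 := by
      unfold clamp
      rw [min_eq_right (by have : (0 : ℝ) ≤ k := k.cast_nonneg; linarith),
        max_eq_left (by have : (0 : ℝ) ≤ k := k.cast_nonneg; linarith)]
    rw [this, mul_zero]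
  have hF1 : F 1 = 1 := by
    rw [hF]
    simp only
    have : ∑ k ∈ Finset.range n, w k * clamp (n * 1 - k) = T := by
      rw [hT]
      refine Finset.sum_congr rfl fun k hk => ?_
      have h1 : (k : ℝ) + 1 ≤ n := by exact_mod_cast Finset.mem_range.1 hk
      have : clamp (n * 1 - k) = 1 := by
        unfold clamp
        rw [min_eq_left (by linarith), max_eq_right zero_le_one]
      rw [this, mul_one]
    rw [this, div_self hT0.ne']
  -- the key inequality
  have key : ∀ s t : ℝ, s ≤ t → ∀ k < n,
      w k * (clamp (n * t - k) - clamp (n * s - k)) ≤ F t - F s := by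
    intro s t hst k hk
    have e : F t - F s = (∑ j ∈ Finset.range n,
        w j * (clamp (n * t - j) - clamp (n * s - j))) / T := by
      rw [hF]
      simp only
      rw [← sub_div, ← Finset.sum_sub_distrib]
      congr 1
      exact Finset.sum_congr rfl fun j _ => by ring
    have hm : ∀ j ∈ Finset.range n, 0 ≤ w j * (clamp (n * t - j) - clamp (n * s - j)) := by
      intro j hj
      refine mul_nonneg (hw j (Finset.mem_range.1 hj)).le (sub_nonneg.2 (clamp_mono ?_))
      nlinarith
    have h1 := Finset.single_le_sum hm (Finset.mem_range.2 hk)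
    rw [e, le_div_iff₀ hT0]
    refine le_trans ?_ h1
    have h2 := hm k (Finset.mem_range.2 hk)
    nlinarith
  have hmono : Monotone F := by
    intro s t hst
    have h1 := key s t hst 0 hn
    have h2 : 0 ≤ w 0 * (clamp (n * t - (0 : ℕ)) - clamp (n * s - (0 : ℕ))) := by
      refine mul_nonneg (hw 0 hn).le (sub_nonneg.2 (clamp_mono ?_))
      nlinarith
    linarith
  have hstrict : ∀ s t : unitInterval, s < t → F s < F t := by
    intro s t hst
    have hst' : (s : ℝ) < t := hst
    obtain ⟨k, hk⟩ : ∃ k, k = ⌊(n : ℝ) * s⌋₊ := ⟨_, rfl⟩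
    have hs0 : 0 ≤ (n : ℝ) * s := mul_nonneg hn'.le s.2.1
    have hk1 : (k : ℝ) ≤ n * s := by rw [hk]; exact Nat.floor_le hs0
    have hk2 : (n : ℝ) * s < k + 1 := by rw [hk]; exact Nat.lt_floor_add_one _
    have hs1 : (s : ℝ) < 1 := lt_of_lt_of_le hst' t.2.2
    have hkn : k < n := by
      have : (k : ℝ) < n := lt_of_le_of_lt hk1 (by nlinarith)
      exact_mod_cast this
    have h1 := key s t hst'.le k hkn
    have h2 : clamp (n * s - k) < clamp (n * t - k) := by
      have e1 : clamp (n * s - k) = n * s - k := by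
        unfold clamp
        rw [min_eq_right (by linarith), max_eq_right (by linarith)]
      have h3 : (n : ℝ) * s < n * t := by nlinarith
      rw [e1]
      unfold clamp
      refine lt_max_of_lt_right (lt_min (by linarith) (by linarith))
    have h4 := mul_pos (hw k hkn) (sub_pos.2 h2)
    linarith
  have hI : ∀ x : unitInterval, F x ∈ Icc (0 : ℝ) 1 := fun x =>
    ⟨hF0 ▸ hmono x.2.1, hF1 ▸ hmono x.2.2⟩
  have hsm : StrictMono fun x : unitInterval => (⟨F x, hI x⟩ : unitInterval) :=
    fun s t hst => Subtype.mk_lt_mk.mpr (hstrict s t hst)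
  have hsurj : Function.Surjective fun x : unitInterval => (⟨F x, hI x⟩ : unitInterval) := by
    intro y
    have h1 := intermediate_value_Icc (zero_le_one (α := ℝ)) hFc.continuousOn
    rw [hF0, hF1] at h1
    obtain ⟨x, hx, hxy⟩ := h1 y.2
    exact ⟨⟨x, hx⟩, Subtype.ext hxy⟩
  refine ⟨StrictMono.orderIsoOfSurjective _ hsm hsurj, fun s t hst k hk => ?_⟩
  exact key s t hst k hk

/-! ### Lattice paths -/

private theorem clamp_one' {x : ℝ} (hx : 1 ≤ x) : clamp x = 1 := by
  unfold clamp
  rw [min_eq_left hx, max_eq_right zero_le_one]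

private theorem clamp_zero' {x : ℝ} (hx : x ≤ 0) : clamp x = 0 := by
  unfold clamp
  rw [min_eq_right (hx.trans zero_le_one), max_eq_left hx]

private theorem clamp_mid' {x : ℝ} (h0 : 0 ≤ x) (h1 : x ≤ 1) : clamp x = x := by
  unfold clamp
  rw [min_eq_right h1, max_eq_right h0]

variable {η : ℝ}

/-- A piece of a lattice path whose edges near the origin are traversed only by small fractions has
a small diameter on the sphere. -/
theorem small_piece (hη : 0 < η) {ε : ℝ} (hε : 0 < ε) :
    ∃ δ > 0, ∃ B : Finset V, ∀ (f : ℕ → V) (n : ℕ), 0 < n → (∀ k < n, Adj (f k) (f (k + 1))) →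
      ∀ s t : ℝ, 0 ≤ s → s ≤ t → t ≤ 1 →
        (∀ k < n, f k ∈ B → clamp (n * t - k) - clamp (n * s - k) < δ) →
          dist (sig (η * poly f n s)) (sig (η * poly f n t)) < ε := by
  have hε6 : 0 < ε / 6 := by positivity
  obtain ⟨R, hR⟩ := sig_near_inf hε6
  obtain ⟨δ₀, hδ₀, hU⟩ := Metric.uniformContinuous_iff.mp uniformContinuous_sig (ε / 3)
    (by positivity)
  obtain ⟨δ, hδdef⟩ : ∃ δ, δ = min 1 (δ₀ / η) := ⟨_, rfl⟩
  have hδ : 0 < δ := by rw [hδdef]; exact lt_min one_pos (by positivity)
  have hδ1 : δ ≤ 1 := hδdef ▸ min_le_left _ _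
  have hδ2 : η * δ ≤ δ₀ := by
    have : δ ≤ δ₀ / η := hδdef ▸ min_le_right _ _
    rw [le_div_iff₀ hη] at this
    linarith
  have hBfin := finite_disc (R / η + 1)
  refine ⟨δ, hδ, hBfin.toFinset, fun f n hn hadj s t hs0 hst ht1 hB => ?_⟩
  have hB' : ∀ k < n, ‖emb (f k)‖ ≤ R / η + 1 → clamp (n * t - k) - clamp (n * s - k) < δ :=
    fun k hk h => hB k hk (hBfin.mem_toFinset.2 h)
  have hn' : (0 : ℝ) < n := by exact_mod_cast hn
  -- a point near a far vertex is near infinity
  have hfar : ∀ v : V, ¬ ‖emb v‖ ≤ R / η + 1 → ∀ z : ℂ, ‖z - emb v‖ ≤ 1 →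
      dist (sig (η * z)) npole < ε / 6 := by
    intro v hv z hz
    apply hR
    rw [norm_mul, Complex.norm_real, Real.norm_eq_abs, abs_of_pos hη]
    have h1 : R / η ≤ ‖z‖ := by
      have h2 := norm_sub_norm_le (emb v) z
      rw [norm_sub_rev] at h2
      push Not at hv
      linarith
    rw [div_le_iff₀ hη] at h1
    linarith
  -- one edge
  have hedge : ∀ k < n, ∀ a b : ℝ, s ≤ a → a ≤ b → b ≤ t → (k : ℝ) / n ≤ a →
      b ≤ ((k : ℝ) + 1) / n → dist (sig (η * poly f n a)) (sig (η * poly f n b)) < ε / 3 := by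
    intro k hk a b hsa hab hbt hka hbk
    have hIa : a ∈ Icc ((k : ℝ) / n) ((k + 1 : ℝ) / n) := ⟨hka, hab.trans hbk⟩
    have hIb : b ∈ Icc ((k : ℝ) / n) ((k + 1 : ℝ) / n) := ⟨hka.trans hab, hbk⟩
    have ea := poly_edge (f := f) hk hIa
    have eb := poly_edge (f := f) hk hIb
    have ha1 : (k : ℝ) ≤ n * a := by
      have := hIa.1
      rw [div_le_iff₀ hn'] at this
      linarith
    have ha2 : n * a ≤ k + 1 := by
      have := hIa.2
      rw [le_div_iff₀ hn'] at this
      linarith
    have hb1 : (k : ℝ) ≤ n * b := by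
      have := hIb.1
      rw [div_le_iff₀ hn'] at this
      linarith
    have hb2 : n * b ≤ k + 1 := by
      have := hIb.2
      rw [le_div_iff₀ hn'] at this
      linarith
    have hab' : n * a ≤ n * b := by nlinarith
    by_cases hnear : ‖emb (f k)‖ ≤ R / η + 1
    · apply hU
      have h1 := hB' k hk hnear
      have h2 : clamp (n * b - k) - clamp (n * a - k) ≤
          clamp (n * t - k) - clamp (n * s - k) := by
        have h3 : clamp (n * b - k) ≤ clamp (n * t - k) := clamp_mono (by nlinarith)
        have h4 : clamp (n * s - k) ≤ clamp (n * a - k) := clamp_mono (by nlinarith)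
        linarith
      rw [clamp_mid' (by linarith) (by linarith), clamp_mid' (by linarith) (by linarith)] at h2
      have h5 : n * b - n * a < δ := by linarith
      have e : (η : ℂ) * poly f n a - η * poly f n b =
          ((η * (n * a - n * b) : ℝ) : ℂ) * (emb (f (k + 1)) - emb (f k)) := by
        rw [ea, eb]
        push_cast
        ring
      rw [dist_eq_norm, e, norm_mul, norm_emb_adj (hadj k hk), mul_one, Complex.norm_real,
        Real.norm_eq_abs, abs_mul, abs_of_pos hη, abs_of_nonpos (by linarith)]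
      nlinarith
    · have h1 := hfar _ hnear (poly f n a) (by
        rw [ea, add_sub_cancel_left, norm_mul, norm_emb_adj (hadj k hk), mul_one,
          Complex.norm_real, Real.norm_eq_abs, abs_of_nonneg (by linarith)]
        linarith)
      have h2 := hfar _ hnear (poly f n b) (by
        rw [eb, add_sub_cancel_left, norm_mul, norm_emb_adj (hadj k hk), mul_one,
          Complex.norm_real, Real.norm_eq_abs, abs_of_nonneg (by linarith)]
        linarith)
      have h3 := dist_triangle_right (sig (η * poly f n a)) (sig (η * poly f n b)) npole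
      linarith
  have hε3 : 0 < ε / 3 := by positivity
  -- the index of the edge of `s`
  obtain ⟨k, hk⟩ : ∃ k, k = ⌊(n : ℝ) * s⌋₊ := ⟨_, rfl⟩
  have hns0 : 0 ≤ (n : ℝ) * s := mul_nonneg hn'.le hs0
  have hk1 : (k : ℝ) ≤ n * s := by rw [hk]; exact Nat.floor_le hns0
  have hk2 : (n : ℝ) * s < k + 1 := by rw [hk]; exact Nat.lt_floor_add_one _
  have hks : (k : ℝ) / n ≤ s := by rw [div_le_iff₀ hn']; linarith
  have hsk : s ≤ ((k : ℝ) + 1) / n := by rw [le_div_iff₀ hn']; linarith
  by_cases hkn : k < n
  swap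
  · have h1 : (n : ℝ) ≤ k := by
      have : n ≤ k := not_lt.1 hkn
      exact_mod_cast this
    have h2 : s = t := by nlinarith
    rw [h2, dist_self]
    exact hε
  by_cases htk : t ≤ ((k : ℝ) + 1) / n
  · have := hedge k hkn s t le_rfl hst le_rfl hks htk
    linarith
  push Not at htk
  obtain ⟨b, hb⟩ : ∃ b, b = ⌊(n : ℝ) * t⌋₊ := ⟨_, rfl⟩
  have hnt0 : 0 ≤ (n : ℝ) * t := mul_nonneg hn'.le (hs0.trans hst)
  have hb1 : (b : ℝ) ≤ n * t := by rw [hb]; exact Nat.floor_le hnt0
  have hb2 : (n : ℝ) * t < b + 1 := by rw [hb]; exact Nat.lt_floor_add_one _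
  have hbt : (b : ℝ) / n ≤ t := by rw [div_le_iff₀ hn']; linarith
  have htb : t ≤ ((b : ℝ) + 1) / n := by rw [le_div_iff₀ hn']; linarith
  have hkb : k + 1 ≤ b := by
    rw [hb]
    apply Nat.le_floor
    rw [div_lt_iff₀ hn'] at htk
    push_cast
    linarith
  have hbn : b ≤ n := by
    have h1 : (b : ℝ) ≤ n := hb1.trans (by nlinarith)
    exact_mod_cast h1
  have hkb' : ((k : ℝ) + 1) / n ≤ (b : ℝ) / n := by
    have : (k : ℝ) + 1 ≤ b := by exact_mod_cast hkb
    gcongr
  -- the first edge
  have d1 : dist (sig (η * poly f n s)) (sig (η * poly f n (((k : ℝ) + 1) / n))) < ε / 3 :=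
    hedge k hkn s _ le_rfl hsk (hkb'.trans hbt) hks le_rfl
  -- the last edge
  have d3 : dist (sig (η * poly f n ((b : ℝ) / n))) (sig (η * poly f n t)) < ε / 3 := by
    rcases hbn.lt_or_eq with h | h
    · exact hedge b h _ t (hsk.trans hkb') hbt le_rfl le_rfl htb
    · have h1 : t = (b : ℝ) / n := by
        have h2 : (b : ℝ) = n := by exact_mod_cast h
        rw [h2, div_self hn'.ne'] at hbt ⊢
        linarith
      rw [h1, dist_self]
      exact hε3
  -- the middle
  have d2 : dist (sig (η * poly f n (((k : ℝ) + 1) / n))) (sig (η * poly f n ((b : ℝ) / n))) <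
      ε / 3 := by
    have e1 : poly f n (((k : ℝ) + 1) / n) = emb (f (k + 1)) := by
      have := poly_at (f := f) (k := k + 1) hn (by omega)
      push_cast at this
      exact this
    have e2 : poly f n ((b : ℝ) / n) = emb (f b) := poly_at hn hbn
    rcases hkb.lt_or_eq with h | h
    swap
    · rw [e1, e2, h, dist_self]
      exact hε3
    -- all edges between are far
    have hfull : ∀ j, k + 1 ≤ j → j < b → ¬ ‖emb (f j)‖ ≤ R / η + 1 := by
      intro j hj1 hj2 hc
      have h1 := hB' j (by omega) hc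
      have h2 : (k : ℝ) + 1 ≤ j := by exact_mod_cast hj1
      have h3 : (j : ℝ) + 1 ≤ b := by exact_mod_cast hj2
      rw [clamp_one' (x := n * t - j) (by linarith),
        clamp_zero' (x := n * s - j) (by linarith)] at h1
      linarith
    have f1 := hfar _ (hfull (k + 1) le_rfl h) (emb (f (k + 1))) (by simp)
    have f2 := hfar _ (hfull (b - 1) (by omega) (by omega)) (emb (f b)) (by
      have := norm_emb_adj (hadj (b - 1) (by omega))
      rw [show b - 1 + 1 = b by omega] at this
      exact this.le)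
    rw [e1, e2]
    have h3 := dist_triangle_right (sig (η * emb (f (k + 1)))) (sig (η * emb (f b))) npole
    linarith
  have := dist_triangle4 (sig (η * poly f n s)) (sig (η * poly f n (((k : ℝ) + 1) / n)))
    (sig (η * poly f n ((b : ℝ) / n))) (sig (η * poly f n t))
  linarith

/-- The simple paths of the lattice. -/
def SimplePath (f : ℕ → V) (n : ℕ) : Prop :=
  (∀ i < n, Adj (f i) (f (i + 1))) ∧ ∀ i ≤ n, ∀ j ≤ n, f i = f j → i = j

/-- The set of all simple polygonal curves of the lattice is totally bounded. -/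
theorem totB_simple (hη : 0 < η) : TotallyBounded {γ | ∃ f n, SimplePath f n ∧ γ = cur η f n} := by
  obtain ⟨τ, hτ, c, hc, hc1⟩ := posSumOfEncodable (one_pos) V
  -- the time change of one path
  have htime : ∀ f n, 0 < n → SimplePath f n → ∃ h : unitInterval ≃o unitInterval,
      ∀ s t : unitInterval, s ≤ t → ∀ k < n,
        τ (f k) * (clamp (n * t - k) - clamp (n * s - k)) ≤ (h t : ℝ) - h s := by
    intro f n hn hf
    refine exists_time hn (fun k _ => hτ (f k)) ?_
    have hinj : Set.InjOn f (Finset.range n) := by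
      intro i hi j hj hij
      have hi' := Finset.mem_range.1 (Finset.mem_coe.1 hi)
      have hj' := Finset.mem_range.1 (Finset.mem_coe.1 hj)
      exact hf.2 i hi'.le j hj'.le hij
    rw [← Finset.sum_image (f := τ) hinj]
    exact (sum_le_hasSum _ (fun v _ => (hτ v).le) hc).trans hc1
  -- modulus of continuity
  have hmod : ∀ ε > 0, ∃ c > 0, ∀ f n, SimplePath f n → ∀ h : unitInterval ≃o unitInterval,
      (0 < n → ∀ s t : unitInterval, s ≤ t → ∀ k < n,
        τ (f k) * (clamp (n * t - k) - clamp (n * s - k)) ≤ (h t : ℝ) - h s) →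
      ∀ s t, dist (h s) (h t) < c → dist ((cur η f n).map s) ((cur η f n).map t) < ε := by
    intro ε hε
    obtain ⟨δ, hδ, B, hB⟩ := small_piece hη hε
    obtain ⟨m, hm, hmB⟩ : ∃ m > 0, ∀ v ∈ B, m ≤ τ v := by
      rcases B.eq_empty_or_nonempty with h | h
      · exact ⟨1, one_pos, by simp [h]⟩
      · obtain ⟨v, hv, hv'⟩ := B.exists_min_image τ h
        exact ⟨τ v, hτ v, hv'⟩
    refine ⟨m * δ, by positivity, fun f n hf h hh => ?_⟩
    have key : ∀ s t : unitInterval, s ≤ t → dist (h s) (h t) < m * δ →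
        dist ((cur η f n).map s) ((cur η f n).map t) < ε := by
      intro s t hst hd
      rcases Nat.eq_zero_or_pos n with h0 | hn
      · subst h0
        have : (cur η f 0).map s = (cur η f 0).map t := by
          show sig (η * poly f 0 s) = sig (η * poly f 0 t)
          simp [poly]
        rw [this, dist_self]
        exact hε
      · refine hB f n hn hf.1 s t s.2.1 hst t.2.2 fun k hk hkB => ?_
        have h1 := hh hn s t hst k hk
        have h2 : (h t : ℝ) - h s < m * δ := by
          rw [Subtype.dist_eq, Real.dist_eq, abs_sub_comm] at hd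
          exact (le_abs_self _).trans_lt hd
        have h3 := hmB _ hkB
        have h4 : 0 ≤ clamp (n * t - k) - clamp (n * s - k) := by
          refine sub_nonneg.2 (clamp_mono ?_)
          have : (s : ℝ) ≤ t := hst
          have : (0 : ℝ) ≤ n := n.cast_nonneg
          nlinarith
        by_contra hcon
        push Not at hcon
        nlinarith
    intro s t hd
    rcases le_total s t with h1 | h1
    · exact key s t h1 hd
    · rw [dist_comm]
      exact key t s h1 (by rwa [dist_comm])
  -- a common choice of the time changes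
  have hch : ∀ γ : Cur, ∃ h : unitInterval ≃o unitInterval,
      (∃ f n, SimplePath f n ∧ γ = cur η f n) → ∃ f n, SimplePath f n ∧ γ = cur η f n ∧
        (0 < n → ∀ s t : unitInterval, s ≤ t → ∀ k < n,
          τ (f k) * (clamp (n * t - k) - clamp (n * s - k)) ≤ (h t : ℝ) - h s) := by
    intro γ
    by_cases hγ : ∃ f n, SimplePath f n ∧ γ = cur η f n
    · obtain ⟨f, n, hf, rfl⟩ := hγ
      rcases Nat.eq_zero_or_pos n with h0 | hn
      · exact ⟨OrderIso.refl _, fun _ => ⟨f, n, hf, rfl, fun h => absurd h0 h.ne'⟩⟩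
      · obtain ⟨h, hh⟩ := htime f n hn hf
        exact ⟨h, fun _ => ⟨f, n, hf, rfl, fun _ => hh⟩⟩
    · exact ⟨OrderIso.refl _, fun h => absurd h hγ⟩
  choose h hh using hch
  refine totB_of h fun ε hε => ?_
  obtain ⟨c, hc, H⟩ := hmod ε hε
  refine ⟨c, hc, fun γ hγ s t hd => ?_⟩
  obtain ⟨f, n, hf, e, h1⟩ := hh γ hγ
  have := H f n hf (h γ) h1 s t hd
  rwa [← e] at this

end Pool.Agent.MSTLim
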